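import Mathlib

set_option autoImplicit false

namespace Pool.Agent.P.MP_553766_co

open Finset

/-- half of s(s+1) -/
noncomputable def qq (s : ℕ) : ℝ := (s : ℝ) * (s + 1) / 2

/-- credit of an edge with s + 1 points -/
noncomputable def Acr (S : ℕ) (L : ℝ) (s : ℕ) : ℝ := if s ≤ S then L - qq s else 0

/-- cost of a doubly covered point -/
noncomputable def Phi (S : ℕ) (L : ℝ) (s s' : ℕ) : ℝ :=
  if s ≤ S ∧ s' ≤ S then L else Acr S L s + Acr S L s'

/-- twice the weight of a leaf of degree d on an edge with s + 1 points -/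
noncomputable def Gl (S : ℕ) (L : ℝ) (d : ℝ) (s : ℕ) : ℝ :=
  d - 1 + if s ≤ S then max (L / s - d) 0 else 0

lemma qq_nonneg (s : ℕ) : 0 ≤ qq s := by unfold qq; positivity

lemma qq_mono {s S : ℕ} (h : s ≤ S) : qq s ≤ qq S := by
  unfold qq
  have : (s : ℝ) ≤ S := by exact_mod_cast h
  have h0 : (0 : ℝ) ≤ s := by positivity
  nlinarith

lemma Acr_nonneg {S : ℕ} {L : ℝ} (hL : qq S ≤ L) (s : ℕ) : 0 ≤ Acr S L s := by
  unfold Acr
  split_ifs with h
  · linarith [qq_mono h]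
  · exact le_rfl

lemma Phi_comm (S : ℕ) (L : ℝ) (s s' : ℕ) : Phi S L s s' = Phi S L s' s := by
  unfold Phi
  simp only [and_comm, add_comm]

lemma Acr_le_Phi {S : ℕ} {L : ℝ} (hL : qq S ≤ L) (s s' : ℕ) : Acr S L s ≤ Phi S L s s' := by
  unfold Phi
  split_ifs with h
  · unfold Acr; rw [if_pos h.1]; linarith [qq_nonneg s]
  · linarith [Acr_nonneg hL s']

lemma Phi_nonneg {S : ℕ} {L : ℝ} (hL : qq S ≤ L) (s s' : ℕ) : 0 ≤ Phi S L s s' :=
  (Acr_nonneg hL s).trans (Acr_le_Phi hL s s')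

section growth

variable {α : Type} [DecidableEq α]

lemma growth (K R0 : Finset α) (A : α → ℝ) (W : α → α → ℝ) (adj : α → α → Prop)
    (hsym : ∀ e e', W e e' = W e' e) (hW : ∀ e e', 0 ≤ W e e')
    (hR0 : R0 ⊆ K) (hne : R0.Nonempty)
    (hA : ∀ e ∈ K, ∀ e' ∈ K, adj e e' → A e ≤ W e e')
    (hconn : ∀ R ⊆ K, R.Nonempty → R ≠ K → ∃ e ∈ K, e ∉ R ∧ ∃ e' ∈ R, adj e e') :
    ∑ e ∈ K \ R0, A e ≤ (∑ e ∈ K, ∑ e' ∈ K, W e e') / 2 := by
  have key : ∀ n : ℕ, ∀ R : Finset α, R0 ⊆ R → R ⊆ K → (K \ R).card = n →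
      ∑ e ∈ R \ R0, A e ≤ (∑ e ∈ R, ∑ e' ∈ R, W e e') / 2 →
      ∑ e ∈ K \ R0, A e ≤ (∑ e ∈ K, ∑ e' ∈ K, W e e') / 2 := by
    intro n
    induction n with
    | zero =>
      intro R _ h2 h3 h4
      have : R = K := by
        refine Finset.Subset.antisymm h2 ?_
        exact Finset.sdiff_eq_empty_iff_subset.1 (Finset.card_eq_zero.1 h3)
      rwa [this] at h4
    | succ n ih =>
      intro R h1 h2 h3 h4
      have hRK : R ≠ K := by
        intro h; rw [h] at h3; simp at h3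
      obtain ⟨e, heK, heR, e', he', hadj⟩ := hconn R h2 (hne.mono h1) hRK
      refine ih (insert e R) (h1.trans (Finset.subset_insert _ _))
        (Finset.insert_subset heK h2) ?_ ?_
      · rw [Finset.sdiff_insert, Finset.card_erase_of_mem (Finset.mem_sdiff.2 ⟨heK, heR⟩), h3]
        rfl
      · have he0 : e ∉ R0 := fun h => heR (h1 h)
        rw [Finset.insert_sdiff_of_notMem _ he0,
          Finset.sum_insert (fun h => heR (Finset.mem_sdiff.1 h).1), Finset.sum_insert heR]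
        simp only [Finset.sum_insert heR, Finset.sum_add_distrib]
        have h5 : W e e' ≤ ∑ x ∈ R, W e x :=
          Finset.single_le_sum (f := fun x => W e x) (fun x _ => hW e x) he'
        have h6 : ∑ x ∈ R, W x e = ∑ x ∈ R, W e x := Finset.sum_congr rfl fun x _ => hsym x e
        have h7 := hA e heK e' (h2 he') hadj
        have h8 := hW e e
        linarith
  refine key _ R0 Finset.Subset.rfl hR0 rfl ?_
  simp only [Finset.sdiff_self, Finset.sum_empty]
  have : 0 ≤ ∑ e ∈ R0, ∑ e' ∈ R0, W e e' :=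
    Finset.sum_nonneg fun e _ => Finset.sum_nonneg fun e' _ => hW e e'
  linarith

lemma even_double (K : Finset α) (w : α → α → ℕ) (hsym : ∀ e e', w e e' = w e' e)
    (h0 : ∀ e, w e e = 0) : Even (∑ e ∈ K, ∑ e' ∈ K, w e e') := by
  induction K using Finset.induction_on with
  | empty => simp
  | insert e R heR ih =>
    simp only [Finset.sum_insert heR, Finset.sum_add_distrib, h0]
    have h6 : ∑ x ∈ R, w x e = ∑ x ∈ R, w e x := Finset.sum_congr rfl fun x _ => hsym x e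
    rw [h6]
    obtain ⟨c, hc⟩ := ih
    exact ⟨∑ x ∈ R, w e x + c, by omega⟩

end growth

section comp

variable {α : Type} [DecidableEq α]

omit [DecidableEq α] in
/-- The inequality for one tree component whose edges are all small. -/
lemma tree_ineq (K : Finset α) (s lf dg : α → ℕ) (L P Γ a b : ℝ)
    (hs : ∀ e ∈ K, 1 ≤ s e) (hdeg : ∀ e ∈ K, lf e + dg e = s e + 1)
    (hpos : ∀ e ∈ K, 1 ≤ dg e) (htree : ∑ e ∈ K, dg e + 2 = 2 * K.card)
    (hab : P ≤ a * b) (hsum : a + b = ∑ e ∈ K, (lf e : ℝ)) (hP : P ≤ Γ)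
    (hΓ : ∑ e ∈ K, (lf e : ℝ) * ((L / s e - 1) / 2) ≤ Γ) :
    P ≤ Γ + ∑ e ∈ K, qq (s e) - L := by
  by_cases hQ : L ≤ ∑ e ∈ K, qq (s e)
  · linarith
  push Not at hQ
  set lam : ℝ := ∑ e ∈ K, (lf e : ℝ) / s e with hlam
  set σ : ℝ := ∑ e ∈ K, (lf e : ℝ) with hσ
  set Q : ℝ := ∑ e ∈ K, qq (s e) with hQdef
  have hspos : ∀ e ∈ K, (0 : ℝ) < s e := fun e he => by exact_mod_cast hs e he
  have hlam2 : 2 ≤ lam := by
    have h1 : ∀ e ∈ K, (2 : ℝ) - dg e ≤ (lf e : ℝ) / s e := by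
      intro e he
      rcases Nat.lt_or_ge 1 (dg e) with h | h
      · have : (2 : ℝ) ≤ dg e := by exact_mod_cast h
        have : (0 : ℝ) ≤ (lf e : ℝ) / s e := by positivity
        linarith
      · have h2 : dg e = 1 := le_antisymm h (hpos e he)
        have h3 : lf e = s e := by have := hdeg e he; omega
        rw [h2, h3, div_self (hspos e he).ne']
        norm_num
    have h2 := Finset.sum_le_sum h1
    rw [Finset.sum_sub_distrib, Finset.sum_const, nsmul_eq_mul] at h2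
    have h3 : (∑ e ∈ K, (dg e : ℝ)) + 2 = 2 * K.card := by exact_mod_cast htree
    linarith
  have hG : ∑ e ∈ K, (lf e : ℝ) * ((L / s e - 1) / 2) = L * lam / 2 - σ / 2 := by
    rw [hlam, hσ, Finset.mul_sum, Finset.sum_div, Finset.sum_div, ← Finset.sum_sub_distrib]
    refine Finset.sum_congr rfl fun e _ => by ring
  have hQ2 : 2 * Q = ∑ e ∈ K, (s e : ℝ) * lf e + ∑ e ∈ K, (s e : ℝ) * dg e := by
    rw [hQdef, Finset.mul_sum, ← Finset.sum_add_distrib]
    refine Finset.sum_congr rfl fun e he => ?_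
    have : (lf e : ℝ) + dg e = s e + 1 := by exact_mod_cast hdeg e he
    unfold qq
    rw [← this]; ring
  have hσ0 : 0 ≤ σ := Finset.sum_nonneg fun e _ => by positivity
  have hD : σ ≤ ∑ e ∈ K, (s e : ℝ) * dg e := by
    refine Finset.sum_le_sum fun e he => ?_
    have h1 : lf e ≤ s e * dg e := by
      have := hdeg e he
      have := hpos e he
      nlinarith
    exact_mod_cast h1
  have hCS : σ ^ 2 ≤ lam * ∑ e ∈ K, (s e : ℝ) * lf e := by
    refine Finset.sum_sq_le_sum_mul_sum_of_sq_le_mul K (fun e _ => by positivity)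
      (fun e _ => by positivity) fun e he => le_of_eq ?_
    have := (hspos e he).ne'
    field_simp
  have hab2 : 4 * (a * b) ≤ σ ^ 2 := by rw [← hsum]; nlinarith [sq_nonneg (a - b)]
  have h9 : 2 * σ ≤ lam * ∑ e ∈ K, (s e : ℝ) * dg e := by nlinarith
  have h10 : Q * (lam - 2) ≤ L * (lam - 2) := mul_le_mul_of_nonneg_right hQ.le (by linarith)
  have h11 : lam * (2 * Q) = lam * ∑ e ∈ K, (s e : ℝ) * lf e + lam * ∑ e ∈ K, (s e : ℝ) * dg e := by
    rw [hQ2]; ring
  nlinarith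

/-- The inequality for one component. -/
lemma comp_ineq (K : Finset α) (s lf : α → ℕ) (w : α → α → ℕ) (S : ℕ) (L P Γ a b : ℝ)
    (hL : qq S ≤ L) (hsym : ∀ e e', w e e' = w e' e) (h0 : ∀ e, w e e = 0)
    (hs : ∀ e ∈ K, 1 ≤ s e) (hdeg : ∀ e ∈ K, lf e + ∑ e' ∈ K, w e e' = s e + 1)
    (hpos : ∀ e ∈ K, 1 ≤ ∑ e' ∈ K, w e e') (hne : K.Nonempty)
    (hconn : ∀ R ⊆ K, R.Nonempty → R ≠ K → ∃ e ∈ K, e ∉ R ∧ ∃ e' ∈ R, 1 ≤ w e e')
    (hab : P ≤ a * b) (hsum : a + b = ∑ e ∈ K, (lf e : ℝ)) (hP : P ≤ Γ)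
    (hΓ : (∀ e ∈ K, s e ≤ S) → ∑ e ∈ K, (lf e : ℝ) * ((L / s e - 1) / 2) ≤ Γ) :
    P ≤ Γ - ∑ e ∈ K, Acr S L (s e) +
      (∑ e ∈ K, ∑ e' ∈ K, (w e e' : ℝ) * Phi S L (s e) (s e')) / 2 := by
  by_cases hall : ∀ e ∈ K, s e ≤ S
  · have hL0 : 0 ≤ L := (qq_nonneg S).trans hL
    have hA : ∑ e ∈ K, Acr S L (s e) = K.card * L - ∑ e ∈ K, qq (s e) := by
      rw [← nsmul_eq_mul, ← Finset.sum_const, ← Finset.sum_sub_distrib]
      refine Finset.sum_congr rfl fun e he => ?_
      unfold Acr; rw [if_pos (hall e he)]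
    have hPhi : ∑ e ∈ K, ∑ e' ∈ K, (w e e' : ℝ) * Phi S L (s e) (s e') =
        ((∑ e ∈ K, ∑ e' ∈ K, w e e' : ℕ) : ℝ) * L := by
      push_cast
      rw [Finset.sum_mul]
      refine Finset.sum_congr rfl fun e he => ?_
      rw [Finset.sum_mul]
      refine Finset.sum_congr rfl fun e' he' => ?_
      unfold Phi; rw [if_pos ⟨hall e he, hall e' he'⟩]
    obtain ⟨r, hr⟩ := hne
    have hg := growth K {r} (fun _ => 1) (fun e e' => (w e e' : ℝ)) (fun e e' => 1 ≤ w e e')
      (fun e e' => by rw [hsym]) (fun e e' => by positivity) (by simpa using hr)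
      (Finset.singleton_nonempty r) (fun e _ e' _ h => by exact_mod_cast h) hconn
    rw [Finset.sum_const, Finset.card_sdiff_of_subset (by simpa using hr),
      Finset.card_singleton] at hg
    obtain ⟨c, hc⟩ := even_double K w hsym h0
    have hcard : 1 ≤ K.card := Finset.card_pos.2 ⟨r, hr⟩
    have hc1 : K.card ≤ c + 1 := by
      have h1 : ((∑ e ∈ K, ∑ e' ∈ K, w e e' : ℕ) : ℝ) = ∑ e ∈ K, ∑ e' ∈ K, (w e e' : ℝ) := by
        push_cast; rfl
      rw [← h1, hc, nsmul_eq_mul, Nat.cast_sub hcard] at hg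
      push_cast at hg
      have : (K.card : ℝ) ≤ c + 1 := by linarith
      exact_mod_cast this
    have hQ0 : 0 ≤ ∑ e ∈ K, qq (s e) := Finset.sum_nonneg fun e _ => qq_nonneg _
    rw [hA, hPhi, hc]
    push_cast
    rcases Nat.lt_or_ge c K.card with h | h
    · have h2 : K.card = c + 1 := by omega
      have := tree_ineq K s lf (fun e => ∑ e' ∈ K, w e e') L P Γ a b hs hdeg hpos
        (by rw [hc]; omega) hab hsum hP (hΓ hall)
      rw [h2]; push_cast; linarith
    · have h3 : (K.card : ℝ) ≤ c := by exact_mod_cast h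
      nlinarith
  · push Not at hall
    obtain ⟨r, hr, hrS⟩ := hall
    have hg := growth K {r} (fun e => Acr S L (s e))
      (fun e e' => (w e e' : ℝ) * Phi S L (s e) (s e')) (fun e e' => 1 ≤ w e e')
      (fun e e' => by rw [hsym, Phi_comm]) (fun e e' => mul_nonneg (by positivity)
        (Phi_nonneg hL _ _)) (by simpa using hr) (Finset.singleton_nonempty r)
      (fun e _ e' _ h => by
        have h1 : (1 : ℝ) ≤ w e e' := by exact_mod_cast h
        have h2 := Acr_le_Phi hL (s e) (s e')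
        have h3 := Phi_nonneg hL (s e) (s e')
        nlinarith) hconn
    have h4 : ∑ e ∈ K, Acr S L (s e) = ∑ e ∈ K \ {r}, Acr S L (s e) := by
      rw [← Finset.sum_sdiff (Finset.singleton_subset_iff.2 hr), Finset.sum_singleton]
      have : Acr S L (s r) = 0 := by unfold Acr; rw [if_neg (by omega)]
      rw [this, add_zero]
    linarith

end comp

end Pool.Agent.P.MP_553766_co
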