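import Mathlib
import Pool.Agent.P.MP_553766_co.Comp

set_option autoImplicit false

namespace Pool.Agent.P.MP_553766_co

open Finset

variable {V : Type} [DecidableEq V]

/-- matchings of E -/
def IsM (E M : Finset (Finset V)) : Prop :=
  M ⊆ E ∧ ∀ e ∈ M, ∀ f ∈ M, e ≠ f → Disjoint e f

/-- the point v is covered by M -/
def Cov (M : Finset (Finset V)) (v : V) : Prop := ∃ e ∈ M, v ∈ e

instance (M : Finset (Finset V)) (v : V) : Decidable (Cov M v) := by
  unfold Cov; infer_instance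

/-- symmetric difference -/
def DD (M M' : Finset (Finset V)) : Finset (Finset V) := (M \ M') ∪ (M' \ M)

lemma mem_DD {M M' : Finset (Finset V)} {e : Finset V} :
    e ∈ DD M M' ↔ (e ∈ M ∧ e ∉ M') ∨ (e ∈ M' ∧ e ∉ M) := by
  simp [DD]

lemma DD_comm (M M' : Finset (Finset V)) : DD M M' = DD M' M := by
  ext e; simp [mem_DD, or_comm]

/-- closed subsets of the symmetric difference -/
def Closed (M M' U : Finset (Finset V)) : Prop :=
  U ⊆ DD M M' ∧ ∀ e ∈ U, ∀ e' ∈ DD M M', ¬ Disjoint e e' → e' ∈ U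

/-- optimal pairs -/
structure Opt (E : Finset (Finset V)) (y : Finset V → ℝ) (ν : ℝ) (M : Finset (Finset V)) :
    Prop where
  pos : ∀ e ∈ E, 0 < y e
  ne : ∀ e ∈ E, e.Nonempty
  le : ∀ N, IsM E N → ∑ e ∈ N, y e ≤ ν
  isM : IsM E M
  eq : ∑ e ∈ M, y e = ν

variable {E M M' : Finset (Finset V)} {y : Finset V → ℝ} {ν : ℝ}

lemma Opt.maximal (h : Opt E y ν M) {f : Finset V} (hf : f ∈ E) :
    ∃ e ∈ M, ¬ Disjoint e f := by
  by_contra hc
  push Not at hc
  have hfM : f ∉ M := fun hm => by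
    have := hc f hm
    rw [disjoint_self] at this
    exact (h.ne f hf).ne_empty this
  have h1 : IsM E (insert f M) := by
    refine ⟨Finset.insert_subset hf h.isM.1, ?_⟩
    intro e he g hg hne
    rcases Finset.mem_insert.1 he with rfl | he' <;> rcases Finset.mem_insert.1 hg with rfl | hg'
    · exact absurd rfl hne
    · exact (hc g hg').symm
    · exact hc e he'
    · exact h.isM.2 e he' g hg' hne
  have h2 := h.le _ h1
  rw [Finset.sum_insert hfM, h.eq] at h2
  linarith [h.pos f hf]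

lemma isM_swap (hM : IsM E M) (hM' : IsM E M') {U : Finset (Finset V)} (hU : Closed M M' U) :
    IsM E ((M \ U) ∪ (M' ∩ U)) := by
  have key : ∀ e ∈ M \ U, ∀ g ∈ M' ∩ U, e ≠ g → Disjoint e g := by
    intro e he g hg hne
    obtain ⟨he1, he2⟩ := Finset.mem_sdiff.1 he
    obtain ⟨hg1, hg2⟩ := Finset.mem_inter.1 hg
    by_cases he' : e ∈ M'
    · exact hM'.2 e he' g hg1 hne
    · by_contra hd
      exact he2 (hU.2 g hg2 e (mem_DD.2 (Or.inl ⟨he1, he'⟩)) (fun h => hd h.symm))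
  refine ⟨Finset.union_subset (Finset.sdiff_subset.trans hM.1)
    (Finset.inter_subset_left.trans hM'.1), ?_⟩
  intro e he g hg hne
  rcases Finset.mem_union.1 he with he | he <;> rcases Finset.mem_union.1 hg with hg | hg
  · exact hM.2 e (Finset.mem_sdiff.1 he).1 g (Finset.mem_sdiff.1 hg).1 hne
  · exact key e he g hg hne
  · exact (key g hg e he hne.symm).symm
  · exact hM'.2 e (Finset.mem_inter.1 he).1 g (Finset.mem_inter.1 hg).1 hne

lemma Opt.swap (h : Opt E y ν M) (h' : Opt E y ν M') {U : Finset (Finset V)}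
    (hU : Closed M M' U) : Opt E y ν ((M \ U) ∪ (M' ∩ U)) := by
  have hU' : Closed M' M U := by
    unfold Closed; rw [DD_comm]; exact hU
  have h1 := isM_swap h.isM h'.isM hU
  have h2 := isM_swap h'.isM h.isM hU'
  refine ⟨h.pos, h.ne, h.le, h1, ?_⟩
  have hd : ∀ A B : Finset (Finset V), Disjoint (A \ U) (B ∩ U) := fun A B =>
    Finset.disjoint_left.2 fun e he hb => (Finset.mem_sdiff.1 he).2 (Finset.mem_inter.1 hb).2
  have e1 := h.le _ h1
  have e2 := h.le _ h2
  rw [Finset.sum_union (hd _ _)] at e1 e2 ⊢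
  have e3 := Finset.sum_inter_add_sum_sdiff M U y
  have e4 := Finset.sum_inter_add_sum_sdiff M' U y
  have e5 := h.eq
  have e6 := h'.eq
  linarith

lemma Opt.exists_C (h : Opt E y ν M) (h' : Opt E y ν M') {e : Finset V} (he : e ∈ DD M M') :
    ∃ v ∈ e, Cov M v ∧ Cov M' v := by
  rcases mem_DD.1 he with ⟨h1, _⟩ | ⟨h1, _⟩
  · obtain ⟨g, hg, hd⟩ := h'.maximal (h.isM.1 h1)
    obtain ⟨v, hv1, hv2⟩ := Finset.not_disjoint_iff.1 hd
    exact ⟨v, hv2, ⟨e, h1, hv2⟩, ⟨g, hg, hv1⟩⟩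
  · obtain ⟨g, hg, hd⟩ := h.maximal (h'.isM.1 h1)
    obtain ⟨v, hv1, hv2⟩ := Finset.not_disjoint_iff.1 hd
    exact ⟨v, hv2, ⟨g, hg, hv1⟩, ⟨e, h1, hv2⟩⟩

/-- one step inside the symmetric difference -/
def Step (M M' : Finset (Finset V)) (e e' : Finset V) : Prop :=
  e ∈ DD M M' ∧ e' ∈ DD M M' ∧ ¬ Disjoint e e'

lemma Step.symm {e e' : Finset V} (h : Step M M' e e') : Step M M' e' e :=
  ⟨h.2.1, h.1, fun hd => h.2.2 hd.symm⟩

open Classical in
/-- the component of an edge -/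
noncomputable def comp (M M' : Finset (Finset V)) (e : Finset V) : Finset (Finset V) :=
  (DD M M').filter (fun e' => Relation.ReflTransGen (Step M M') e e')

lemma mem_comp {e e' : Finset V} :
    e' ∈ comp M M' e ↔ e' ∈ DD M M' ∧ Relation.ReflTransGen (Step M M') e e' := by
  simp [comp]

lemma self_mem_comp {e : Finset V} (he : e ∈ DD M M') : e ∈ comp M M' e :=
  mem_comp.2 ⟨he, Relation.ReflTransGen.refl⟩

lemma reach_symm {e e' : Finset V} (h : Relation.ReflTransGen (Step M M') e e') :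
    Relation.ReflTransGen (Step M M') e' e :=
  by
    induction h with
    | refl => exact Relation.ReflTransGen.refl
    | tail _ hbc ih => exact Relation.ReflTransGen.head hbc.symm ih

lemma comp_eq {e e' : Finset V} (h : e' ∈ comp M M' e) : comp M M' e' = comp M M' e := by
  ext g
  rw [mem_comp, mem_comp]
  have h1 := (mem_comp.1 h).2
  exact ⟨fun hg => ⟨hg.1, h1.trans hg.2⟩, fun hg => ⟨hg.1, (reach_symm h1).trans hg.2⟩⟩

lemma comp_closed (e : Finset V) : Closed M M' (comp M M' e) := by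
  refine ⟨fun g hg => (mem_comp.1 hg).1, fun g hg g' hg' hd => ?_⟩
  exact mem_comp.2 ⟨hg', (mem_comp.1 hg).2.tail ⟨(mem_comp.1 hg).1, hg', hd⟩⟩

lemma comp_conn (e : Finset V) (R : Finset (Finset V)) (hR : R ⊆ comp M M' e)
    (hne : R.Nonempty) (hneq : R ≠ comp M M' e) :
    ∃ g ∈ comp M M' e, g ∉ R ∧ ∃ g' ∈ R, ¬ Disjoint g g' := by
  by_contra hc
  push Not at hc
  apply hneq
  refine Finset.Subset.antisymm hR ?_
  obtain ⟨r, hr⟩ := hne
  intro g hg
  have h1 : Relation.ReflTransGen (Step M M') r g :=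
    (reach_symm (mem_comp.1 (hR hr)).2).trans (mem_comp.1 hg).2
  clear hg
  induction h1 with
  | refl => exact hr
  | tail _ hbc ih =>
    by_contra hg
    exact hbc.2.2 (hc _ ((comp_closed e).2 _ (hR ih) _ hbc.2.1 hbc.2.2) hg _ ih).symm

/-- An edge without doubly covered points meets both sides of one component. -/
lemma Opt.exists_comp (h : Opt E y ν M) (h' : Opt E y ν M') {f : Finset V} (hf : f ∈ E)
    (hC : ∀ v ∈ f, ¬ (Cov M v ∧ Cov M' v)) :
    ∃ e ∈ DD M M', e ∈ M ∧ ¬ Disjoint e f ∧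
      ∃ e' ∈ comp M M' e, e' ∉ M ∧ ¬ Disjoint e' f := by
  classical
  by_contra hc
  push Not at hc
  let U := (DD M M').filter (fun g => ∃ e ∈ DD M M', e ∈ M ∧ ¬ Disjoint e f ∧ g ∈ comp M M' e)
  have hU : Closed M M' U := by
    refine ⟨Finset.filter_subset _ _, fun g hg g' hg' hd => ?_⟩
    obtain ⟨_, e, he, h1, h2, h3⟩ := Finset.mem_filter.1 hg
    exact Finset.mem_filter.2 ⟨hg', e, he, h1, h2, (comp_closed e).2 g h3 g' hg' hd⟩
  obtain ⟨g, hg, hd⟩ := (h.swap h' hU).maximal hf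
  rcases Finset.mem_union.1 hg with hg | hg
  · obtain ⟨h1, h2⟩ := Finset.mem_sdiff.1 hg
    have h3 : g ∉ M' := fun h3 => by
      obtain ⟨v, hv1, hv2⟩ := Finset.not_disjoint_iff.1 hd
      exact hC v hv2 ⟨⟨g, h1, hv1⟩, ⟨g, h3, hv1⟩⟩
    have h4 : g ∈ DD M M' := mem_DD.2 (Or.inl ⟨h1, h3⟩)
    exact h2 (Finset.mem_filter.2 ⟨h4, g, h4, h1, hd, self_mem_comp h4⟩)
  · obtain ⟨h1, h2⟩ := Finset.mem_inter.1 hg
    obtain ⟨h3, e, he, h4, h5, h6⟩ := Finset.mem_filter.1 h2
    have h7 : g ∉ M := by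
      rcases mem_DD.1 h3 with h8 | h8
      · exact absurd h1 h8.2
      · exact h8.2
    exact hd (hc e he h4 h5 g h6 h7)

end Pool.Agent.P.MP_553766_co
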