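import Mathlib
import Pool.Agent.P.MP_553766_co.Swap

set_option autoImplicit false

namespace Pool.Agent.P.MP_553766_co

open Finset

variable {V : Type} [DecidableEq V]

/-- degree of a point -/
def deg (E : Finset (Finset V)) (v : V) : ℕ := (E.filter (fun e => v ∈ e)).card

/-- size of the intersection of two distinct edges -/
def ww (e e' : Finset V) : ℕ := if e = e' then 0 else (e ∩ e').card

/-- points of e that are not doubly covered -/
def lv (M M' : Finset (Finset V)) (e : Finset V) : Finset V :=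
  e.filter (fun v => ¬ (Cov M v ∧ Cov M' v))

lemma ww_comm (e e' : Finset V) : ww e e' = ww e' e := by
  unfold ww
  by_cases h : e = e'
  · simp [h]
  · rw [if_neg h, if_neg (Ne.symm h), Finset.inter_comm]

lemma ww_self (e : Finset V) : ww e e = 0 := by simp [ww]

variable {E M M' : Finset (Finset V)} {y : Finset V → ℝ} {ν : ℝ}

lemma IsM.eq_of_mem (h : IsM E M) {e g : Finset V} {v : V} (he : e ∈ M) (hg : g ∈ M)
    (hv : v ∈ e) (hv' : v ∈ g) : e = g := by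
  by_contra hne
  exact Finset.disjoint_left.1 (h.2 e he g hg hne) hv hv'

lemma card_split (hM : IsM E M) (hM' : IsM E M') {K : Finset (Finset V)} (hK : Closed M M' K)
    {e : Finset V} (he : e ∈ K) :
    (e.filter (fun v => Cov M v ∧ Cov M' v)).card = ∑ e' ∈ K, ww e e' := by
  have h1 : ∑ e' ∈ K, ww e e' = ∑ e' ∈ K.erase e, (e ∩ e').card := by
    rw [← Finset.add_sum_erase K _ he, ww_self, zero_add]
    refine Finset.sum_congr rfl fun g hg => ?_
    unfold ww; rw [if_neg (Finset.ne_of_mem_erase hg).symm]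
  have heD := mem_DD.1 (hK.1 he)
  rw [h1, ← Finset.card_biUnion]
  · congr 1
    ext v
    simp only [Finset.mem_filter, Finset.mem_biUnion, Finset.mem_erase, Finset.mem_inter]
    constructor
    · rintro ⟨hv, ⟨g, hg, hvg⟩, ⟨g', hg', hvg'⟩⟩
      rcases heD with ⟨h2, h3⟩ | ⟨h2, h3⟩
      · have h4 : g' ≠ e := fun h => h3 (h ▸ hg')
        have h5 : g' ∉ M := fun h => h4 (hM.eq_of_mem h h2 hvg' hv)
        exact ⟨g', ⟨h4, hK.2 e he g' (mem_DD.2 (Or.inr ⟨hg', h5⟩))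
          (Finset.not_disjoint_iff.2 ⟨v, hv, hvg'⟩)⟩, hv, hvg'⟩
      · have h4 : g ≠ e := fun h => h3 (h ▸ hg)
        have h5 : g ∉ M' := fun h => h4 (hM'.eq_of_mem h h2 hvg hv)
        exact ⟨g, ⟨h4, hK.2 e he g (mem_DD.2 (Or.inl ⟨hg, h5⟩))
          (Finset.not_disjoint_iff.2 ⟨v, hv, hvg⟩)⟩, hv, hvg⟩
    · rintro ⟨g, ⟨hne, hg⟩, hv, hvg⟩
      have hgD := mem_DD.1 (hK.1 hg)
      refine ⟨hv, ?_⟩
      rcases heD with ⟨h2, _⟩ | ⟨h2, _⟩ <;> rcases hgD with ⟨h4, _⟩ | ⟨h4, _⟩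
      · exact absurd (hM.eq_of_mem h4 h2 hvg hv) hne
      · exact ⟨⟨e, h2, hv⟩, ⟨g, h4, hvg⟩⟩
      · exact ⟨⟨g, h4, hvg⟩, ⟨e, h2, hv⟩⟩
      · exact absurd (hM'.eq_of_mem h4 h2 hvg hv) hne
  · intro g hg g' hg' hne
    obtain ⟨hg1, hg2⟩ := Finset.mem_erase.1 hg
    obtain ⟨hg1', hg2'⟩ := Finset.mem_erase.1 hg'
    refine Finset.disjoint_left.2 fun v hv hv' => ?_
    obtain ⟨hve, hvg⟩ := Finset.mem_inter.1 hv
    have hvg' := (Finset.mem_inter.1 hv').2
    rcases heD with ⟨h2, _⟩ | ⟨h2, _⟩ <;> rcases mem_DD.1 (hK.1 hg2) with ⟨h4, _⟩ | ⟨h4, _⟩ <;>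
      rcases mem_DD.1 (hK.1 hg2') with ⟨h6, _⟩ | ⟨h6, _⟩
    · exact hne (hM.eq_of_mem h4 h6 hvg hvg')
    · exact hg1 (hM.eq_of_mem h4 h2 hvg hve)
    · exact hg1' (hM.eq_of_mem h6 h2 hvg' hve)
    · exact hne (hM'.eq_of_mem h4 h6 hvg hvg')
    · exact hne (hM.eq_of_mem h4 h6 hvg hvg')
    · exact hg1' (hM'.eq_of_mem h6 h2 hvg' hve)
    · exact hg1 (hM'.eq_of_mem h4 h2 hvg hve)
    · exact hne (hM'.eq_of_mem h4 h6 hvg hvg')

/-- edges without doubly covered points that meet both sides of K -/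
def PK (E M M' K : Finset (Finset V)) : Finset (Finset V) :=
  E.filter (fun f => (∀ v ∈ f, ¬ (Cov M v ∧ Cov M' v)) ∧
    (∃ e ∈ K, e ∈ M ∧ ¬ Disjoint e f) ∧ (∃ e ∈ K, e ∉ M ∧ ¬ Disjoint e f))

lemma PK_le_mul (hlin : ∀ e ∈ E, ∀ f ∈ E, e ≠ f → (e ∩ f).card ≤ 1)
    {K : Finset (Finset V)} (hK : K ⊆ DD M M') :
    (PK E M M' K).card ≤ (∑ e ∈ K.filter (fun e => e ∈ M), (lv M M' e).card) *
      (∑ e ∈ K.filter (fun e => ¬ e ∈ M), (lv M M' e).card) := by
  refine le_trans ?_ (Nat.mul_le_mul Finset.card_biUnion_le Finset.card_biUnion_le)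
  rw [← Finset.card_product]
  refine Finset.card_le_card_of_forall_subsingleton (fun f (p : V × V) => p.1 ∈ f ∧ p.2 ∈ f)
    ?_ ?_
  · intro f hf
    obtain ⟨_, hC, ⟨e, he, h1, h2⟩, ⟨e', he', h1', h2'⟩⟩ := Finset.mem_filter.1 hf
    obtain ⟨u, hu1, hu2⟩ := Finset.not_disjoint_iff.1 h2
    obtain ⟨w, hw1, hw2⟩ := Finset.not_disjoint_iff.1 h2'
    refine ⟨(u, w), Finset.mem_product.2 ⟨?_, ?_⟩, hu2, hw2⟩
    · exact Finset.mem_biUnion.2 ⟨e, Finset.mem_filter.2 ⟨he, h1⟩,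
        Finset.mem_filter.2 ⟨hu1, hC u hu2⟩⟩
    · exact Finset.mem_biUnion.2 ⟨e', Finset.mem_filter.2 ⟨he', h1'⟩,
        Finset.mem_filter.2 ⟨hw1, hC w hw2⟩⟩
  · rintro ⟨u, w⟩ hp f hf g hg
    obtain ⟨hu, hw⟩ := Finset.mem_product.1 hp
    obtain ⟨e, he, hue⟩ := Finset.mem_biUnion.1 hu
    obtain ⟨e', he', hwe⟩ := Finset.mem_biUnion.1 hw
    obtain ⟨_, heM⟩ := Finset.mem_filter.1 he
    obtain ⟨he'K, he'M⟩ := Finset.mem_filter.1 he'
    have he'M' : e' ∈ M' := by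
      rcases mem_DD.1 (hK he'K) with h | h
      · exact absurd h.1 he'M
      · exact h.1
    have hne : u ≠ w := by
      rintro rfl
      exact (Finset.mem_filter.1 hue).2 ⟨⟨e, heM, (Finset.mem_filter.1 hue).1⟩,
        ⟨e', he'M', (Finset.mem_filter.1 hwe).1⟩⟩
    by_contra hfg
    have h1 := hlin f (Finset.mem_filter.1 hf.1).1 g (Finset.mem_filter.1 hg.1).1 hfg
    exact hne (Finset.card_le_one.1 h1 u (Finset.mem_inter.2 ⟨hf.2.1, hg.2.1⟩) w
      (Finset.mem_inter.2 ⟨hf.2.2, hg.2.2⟩))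

lemma card_le_side (h : Opt E y ν M) (h' : Opt E y ν M') (F K : Finset (Finset V))
    (hK : K ⊆ DD M M') (hF : ∀ f ∈ F, f ∈ E ∧ (∀ v ∈ f, ¬ (Cov M v ∧ Cov M' v)) ∧
      ∃ e ∈ K, ¬ Disjoint e f) :
    (F.card : ℝ) ≤ ∑ e ∈ K, ∑ u ∈ lv M M' e, ((deg E u : ℝ) - 1) := by
  have h1 : F ⊆ K.biUnion (fun e => (lv M M' e).biUnion
      (fun u => (E.filter (fun g => u ∈ g)).erase e)) := by
    intro f hf
    obtain ⟨hfE, hC, e, he, hd⟩ := hF f hf
    obtain ⟨u, hu1, hu2⟩ := Finset.not_disjoint_iff.1 hd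
    refine Finset.mem_biUnion.2 ⟨e, he, Finset.mem_biUnion.2 ⟨u,
      Finset.mem_filter.2 ⟨hu1, hC u hu2⟩, Finset.mem_erase.2 ⟨?_,
        Finset.mem_filter.2 ⟨hfE, hu2⟩⟩⟩⟩
    rintro rfl
    obtain ⟨v, hv, hvC⟩ := h.exists_C h' (hK he)
    exact hC v hv hvC
  have h2 := (Finset.card_le_card h1).trans (Finset.card_biUnion_le.trans
    (Finset.sum_le_sum fun e _ => Finset.card_biUnion_le))
  have h3 : (F.card : ℝ) ≤ ∑ e ∈ K, ∑ u ∈ lv M M' e,
      (((E.filter (fun g => u ∈ g)).erase e).card : ℝ) := by exact_mod_cast h2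
  refine h3.trans (le_of_eq ?_)
  refine Finset.sum_congr rfl fun e he => Finset.sum_congr rfl fun u hu => ?_
  have heE : e ∈ E := by
    rcases mem_DD.1 (hK he) with h4 | h4
    · exact h.isM.1 h4.1
    · exact h'.isM.1 h4.1
  have h5 : e ∈ E.filter (fun g => u ∈ g) :=
    Finset.mem_filter.2 ⟨heE, (Finset.mem_filter.1 hu).1⟩
  have h6 := Finset.card_erase_add_one h5
  unfold deg
  rw [← h6]; push_cast; ring

lemma le_Gl (S : ℕ) (L d : ℝ) (s : ℕ) : d - 1 ≤ Gl S L d s := by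
  unfold Gl
  split_ifs
  · linarith [le_max_right (L / s - d) 0]
  · linarith

lemma le_Gl' {S : ℕ} (L d : ℝ) {s : ℕ} (h : s ≤ S) : L / s - 1 ≤ Gl S L d s := by
  unfold Gl
  rw [if_pos h]
  linarith [le_max_left (L / s - d) 0]

/-- the local term of an edge of the symmetric difference -/
noncomputable def loc (E M M' : Finset (Finset V)) (S : ℕ) (L : ℝ) (e : Finset V) : ℝ :=
  ∑ u ∈ lv M M' e, Gl S L (deg E u) (e.card - 1) / 2 - Acr S L (e.card - 1) +
    (∑ e' ∈ DD M M', (ww e e' : ℝ) * Phi S L (e.card - 1) (e'.card - 1)) / 2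

lemma comp_bound (hlin : ∀ e ∈ E, ∀ f ∈ E, e ≠ f → (e ∩ f).card ≤ 1)
    (h2 : ∀ e ∈ E, 2 ≤ e.card) (h : Opt E y ν M) (h' : Opt E y ν M') {S : ℕ} {L : ℝ}
    (hL : qq S ≤ L) {r : Finset V} (hr : r ∈ DD M M') :
    ((PK E M M' (comp M M' r)).card : ℝ) ≤ ∑ e ∈ comp M M' r, loc E M M' S L e := by
  set K := comp M M' r with hKdef
  have hK : Closed M M' K := comp_closed r
  have hKE : ∀ e ∈ K, e ∈ E := fun e he => by
    rcases mem_DD.1 (hK.1 he) with h4 | h4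
    · exact h.isM.1 h4.1
    · exact h'.isM.1 h4.1
  have hsplit : ∀ e ∈ K, (lv M M' e).card + ∑ e' ∈ K, ww e e' = e.card := fun e he => by
    rw [← card_split h.isM h'.isM hK he, add_comm]
    exact Finset.card_filter_add_card_filter_not _
  have hmain := comp_ineq K (fun e => e.card - 1) (fun e => (lv M M' e).card) ww S L
    (PK E M M' K).card (∑ e ∈ K, ∑ u ∈ lv M M' e, Gl S L (deg E u) (e.card - 1) / 2)
    (∑ e ∈ K.filter (fun e => e ∈ M), ((lv M M' e).card : ℝ))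
    (∑ e ∈ K.filter (fun e => ¬ e ∈ M), ((lv M M' e).card : ℝ)) hL ww_comm ww_self
    (fun e he => by have := h2 e (hKE e he); omega)
    (fun e he => by have := h2 e (hKE e he); have := hsplit e he; omega)
    (fun e he => by
      rw [← card_split h.isM h'.isM hK he]
      obtain ⟨v, hv, hvC⟩ := h.exists_C h' (hK.1 he)
      exact Finset.card_pos.2 ⟨v, Finset.mem_filter.2 ⟨hv, hvC⟩⟩)
    ⟨r, self_mem_comp hr⟩
    (fun R hR hne hneq => by
      obtain ⟨g, hg, hgR, g', hg', hd⟩ := comp_conn r R hR hne hneq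
      refine ⟨g, hg, hgR, g', hg', ?_⟩
      have hne' : g ≠ g' := fun h => hgR (h ▸ hg')
      unfold ww
      rw [if_neg hne']
      obtain ⟨v, hv1, hv2⟩ := Finset.not_disjoint_iff.1 hd
      exact Finset.card_pos.2 ⟨v, Finset.mem_inter.2 ⟨hv1, hv2⟩⟩)
    (by exact_mod_cast PK_le_mul hlin hK.1)
    (Finset.sum_filter_add_sum_filter_not _ _ _)
    (by
      have e1 := card_le_side h h' (PK E M M' K) (K.filter (fun e => e ∈ M))
        ((Finset.filter_subset _ _).trans hK.1) (fun f hf => by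
          obtain ⟨hfE, hC, ⟨e, he, h3, h4⟩, _⟩ := Finset.mem_filter.1 hf
          exact ⟨hfE, hC, e, Finset.mem_filter.2 ⟨he, h3⟩, h4⟩)
      have e2 := card_le_side h h' (PK E M M' K) (K.filter (fun e => ¬ e ∈ M))
        ((Finset.filter_subset _ _).trans hK.1) (fun f hf => by
          obtain ⟨hfE, hC, _, ⟨e, he, h3, h4⟩⟩ := Finset.mem_filter.1 hf
          exact ⟨hfE, hC, e, Finset.mem_filter.2 ⟨he, h3⟩, h4⟩)
      have e3 := Finset.sum_filter_add_sum_filter_not K (fun e => e ∈ M)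
        (fun e => ∑ u ∈ lv M M' e, ((deg E u : ℝ) - 1))
      have e4 : (∑ e ∈ K, ∑ u ∈ lv M M' e, ((deg E u : ℝ) - 1)) / 2 ≤
          ∑ e ∈ K, ∑ u ∈ lv M M' e, Gl S L (deg E u) (e.card - 1) / 2 := by
        rw [Finset.sum_div]
        refine Finset.sum_le_sum fun e _ => ?_
        rw [Finset.sum_div]
        refine Finset.sum_le_sum fun u _ => ?_
        linarith [le_Gl S L (deg E u) (e.card - 1)]
      linarith)
    (fun hall => Finset.sum_le_sum fun e he => by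
      rw [← nsmul_eq_mul, ← Finset.sum_const]
      refine Finset.sum_le_sum fun u _ => ?_
      linarith [le_Gl' L (deg E u) (hall e he)])
  refine hmain.trans ?_
  unfold loc
  rw [Finset.sum_add_distrib, Finset.sum_sub_distrib, ← Finset.sum_div]
  have e5 : ∑ e ∈ K, ∑ e' ∈ K, (ww e e' : ℝ) * Phi S L (e.card - 1) (e'.card - 1) ≤
      ∑ e ∈ K, ∑ e' ∈ DD M M', (ww e e' : ℝ) * Phi S L (e.card - 1) (e'.card - 1) :=
    Finset.sum_le_sum fun e _ => Finset.sum_le_sum_of_subset_of_nonneg hK.1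
      fun e' _ _ => mul_nonneg (by positivity) (Phi_nonneg hL _ _)
  linarith

lemma total_bound (hlin : ∀ e ∈ E, ∀ f ∈ E, e ≠ f → (e ∩ f).card ≤ 1)
    (h2 : ∀ e ∈ E, 2 ≤ e.card) (h : Opt E y ν M) (h' : Opt E y ν M') {S : ℕ} {L : ℝ}
    (hL : qq S ≤ L) :
    ((E.filter (fun f => ∀ v ∈ f, ¬ (Cov M v ∧ Cov M' v))).card : ℝ) ≤
      ∑ e ∈ DD M M', loc E M M' S L e := by
  have h1 : E.filter (fun f => ∀ v ∈ f, ¬ (Cov M v ∧ Cov M' v)) ⊆
      ((DD M M').image (comp M M')).biUnion (fun K => PK E M M' K) := by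
    intro f hf
    obtain ⟨hfE, hC⟩ := Finset.mem_filter.1 hf
    obtain ⟨e, he, h3, h4, e', he', h5, h6⟩ := h.exists_comp h' hfE hC
    exact Finset.mem_biUnion.2 ⟨comp M M' e, Finset.mem_image_of_mem _ he,
      Finset.mem_filter.2 ⟨hfE, hC, ⟨e, self_mem_comp he, h3, h4⟩, ⟨e', he', h5, h6⟩⟩⟩
  have h3 := (Finset.card_le_card h1).trans Finset.card_biUnion_le
  have h4 : ((E.filter (fun f => ∀ v ∈ f, ¬ (Cov M v ∧ Cov M' v))).card : ℝ) ≤
      ∑ K ∈ (DD M M').image (comp M M'), ((PK E M M' K).card : ℝ) := by exact_mod_cast h3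
  refine h4.trans ?_
  rw [← Finset.sum_fiberwise_of_maps_to (g := comp M M') (t := (DD M M').image (comp M M'))
    (fun e he => Finset.mem_image_of_mem _ he)]
  refine Finset.sum_le_sum fun K hK => ?_
  obtain ⟨r, hr, rfl⟩ := Finset.mem_image.1 hK
  have h5 : (DD M M').filter (fun e => comp M M' e = comp M M' r) = comp M M' r := by
    ext g
    rw [Finset.mem_filter]
    constructor
    · rintro ⟨hg, hg'⟩
      rw [← hg']; exact self_mem_comp hg
    · intro hg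
      exact ⟨(mem_comp.1 hg).1, comp_eq hg⟩
  rw [h5]
  exact comp_bound hlin h2 h h' hL hr

end Pool.Agent.P.MP_553766_co
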