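import Mathlib
import Pool.Agent.P.MP_553766_co.Point

set_option autoImplicit false

namespace Pool.Agent.P.MP_553766_co

open Finset

variable {V : Type} [DecidableEq V]

/-- indicator of a matching -/
noncomputable def ind (M : Finset (Finset V)) (e : Finset V) : ℝ := if e ∈ M then 1 else 0

/-- total weight at a point -/
noncomputable def cv (E : Finset (Finset V)) (X : Finset V → ℝ) (v : V) : ℝ :=
  ∑ e ∈ E.filter (fun e => v ∈ e), X e

/-- upper term of an edge -/
noncomputable def Up (E : Finset (Finset V)) (S : ℕ) (L : ℝ) (X Y : Finset V → ℝ)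
    (e : Finset V) : ℝ :=
  ∑ u ∈ e, Gl S L (deg E u) (e.card - 1) / 2 * (X e * (1 - cv E Y u) + Y e * (1 - cv E X u))
    - Acr S L (e.card - 1) * (X e * (1 - Y e) + Y e * (1 - X e))
    + (∑ e' ∈ E, (ww e e' : ℝ) * Phi S L (e.card - 1) (e'.card - 1) *
      (X e * Y e' + Y e * X e')) / 2

/-- lower term of an edge -/
noncomputable def Lo (E : Finset (Finset V)) (X Y : Finset V → ℝ) (f : Finset V) : ℝ :=
  (1 - X f) * (1 - Y f) - ∑ v ∈ f, (cv E X v - X f) * (cv E Y v - Y f)

variable {E M M' : Finset (Finset V)} {y : Finset V → ℝ} {ν : ℝ}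

lemma ind_nonneg (M : Finset (Finset V)) (e : Finset V) : 0 ≤ ind M e := by
  unfold ind; split_ifs <;> norm_num

lemma cv_ind (h : IsM E M) (v : V) : cv E (ind M) v = if Cov M v then 1 else 0 := by
  unfold cv
  split_ifs with hc
  · obtain ⟨e, he, hv⟩ := hc
    rw [Finset.sum_eq_single e]
    · simp [ind, he]
    · intro g hg hne
      have : g ∉ M := fun hgM => hne (h.eq_of_mem hgM he (Finset.mem_filter.1 hg).2 hv)
      simp [ind, this]
    · intro hn
      exact absurd (Finset.mem_filter.2 ⟨h.1 he, hv⟩) hn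
  · refine Finset.sum_eq_zero fun g hg => ?_
    have : g ∉ M := fun hgM => hc ⟨g, hgM, (Finset.mem_filter.1 hg).2⟩
    simp [ind, this]

lemma cv_sub_nonneg (h : IsM E M) {f : Finset V} {v : V} (hv : v ∈ f) :
    0 ≤ cv E (ind M) v - ind M f := by
  rw [cv_ind h]
  unfold ind
  by_cases hf : f ∈ M
  · rw [if_pos hf, if_pos ⟨f, hf, hv⟩]; norm_num
  · rw [if_neg hf]; split_ifs <;> norm_num

lemma Lo_le (h : IsM E M) (h' : IsM E M') (f : Finset V) :
    Lo E (ind M) (ind M') f ≤ if (∀ v ∈ f, ¬ (Cov M v ∧ Cov M' v)) then 1 else 0 := by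
  have h0 : ∀ v ∈ f, 0 ≤ (cv E (ind M) v - ind M f) * (cv E (ind M') v - ind M' f) :=
    fun v hv => mul_nonneg (cv_sub_nonneg h hv) (cv_sub_nonneg h' hv)
  have h1 := Finset.sum_nonneg h0
  unfold Lo
  by_cases hf : f ∈ M
  · have : ind M f = 1 := by simp [ind, hf]
    rw [this] at h1 ⊢
    split_ifs <;> linarith
  by_cases hf' : f ∈ M'
  · have : ind M' f = 1 := by simp [ind, hf']
    rw [this] at h1 ⊢
    split_ifs <;> linarith
  have e1 : ind M f = 0 := by simp [ind, hf]
  have e2 : ind M' f = 0 := by simp [ind, hf']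
  split_ifs with hc
  · rw [e1, e2] at h1 ⊢; linarith
  · push Not at hc
    obtain ⟨v, hv, hc1, hc2⟩ := hc
    have h2 := Finset.single_le_sum h0 hv
    rw [cv_ind h v, cv_ind h' v, if_pos hc1, if_pos hc2] at h2
    rw [e1, e2] at h2 ⊢
    linarith

lemma lv_comm (M M' : Finset (Finset V)) (e : Finset V) : lv M M' e = lv M' M e := by
  unfold lv; simp only [and_comm]

lemma side_lv (h' : IsM E M') {e : Finset V} (he : e ∈ M) (g : V → ℝ) :
    ∑ u ∈ lv M M' e, g u = ∑ u ∈ e, g u * (1 - cv E (ind M') u) := by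
  unfold lv
  rw [Finset.sum_filter]
  refine Finset.sum_congr rfl fun u hu => ?_
  rw [cv_ind h']
  have : Cov M u := ⟨e, he, hu⟩
  by_cases hc : Cov M' u <;> simp [hc, this]

lemma side_ww (h : IsM E M) (h' : IsM E M') {e : Finset V} (he : e ∈ M) (g : Finset V → ℝ)
    (hg : ∀ e', 0 ≤ g e') :
    ∑ e' ∈ DD M M', (ww e e' : ℝ) * g e' ≤ ∑ e' ∈ E, (ww e e' : ℝ) * g e' * ind M' e' := by
  have hsub : DD M M' ⊆ E := fun e' he' => by
    rcases mem_DD.1 he' with h4 | h4
    · exact h.1 h4.1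
    · exact h'.1 h4.1
  refine le_trans (Finset.sum_le_sum fun e' he' => ?_)
    (Finset.sum_le_sum_of_subset_of_nonneg hsub fun e' _ _ =>
      mul_nonneg (mul_nonneg (by positivity) (hg e')) (ind_nonneg _ _))
  rcases mem_DD.1 he' with h4 | h4
  · have : ww e e' = 0 := by
      unfold ww
      split_ifs with h5
      · rfl
      · rw [Finset.disjoint_iff_inter_eq_empty.1 (h.2 e he e' h4.1 h5), Finset.card_empty]
    simp [this]
  · simp [ind, h4.1]

lemma loc_le (h : IsM E M) (h' : IsM E M') {S : ℕ} {L : ℝ} (hL : qq S ≤ L) (e : Finset V) :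
    (if e ∈ DD M M' then loc E M M' S L e else 0) ≤ Up E S L (ind M) (ind M') e := by
  unfold Up
  by_cases he : e ∈ M <;> by_cases he' : e ∈ M'
  · have e1 : ind M e = 1 := by simp [ind, he]
    have e2 : ind M' e = 1 := by simp [ind, he']
    rw [if_neg (by simp [mem_DD, he, he']), e1, e2]
    have h1 : ∑ u ∈ e, Gl S L (deg E u) (e.card - 1) / 2 *
        (1 * (1 - cv E (ind M') u) + 1 * (1 - cv E (ind M) u)) = 0 := by
      refine Finset.sum_eq_zero fun u hu => ?_
      rw [cv_ind h, cv_ind h', if_pos ⟨e, he', hu⟩, if_pos ⟨e, he, hu⟩]; ring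
    have h2 : 0 ≤ ∑ e' ∈ E, (ww e e' : ℝ) * Phi S L (e.card - 1) (e'.card - 1) *
        (1 * ind M' e' + 1 * ind M e') := Finset.sum_nonneg fun e' _ =>
      mul_nonneg (mul_nonneg (by positivity) (Phi_nonneg hL _ _))
        (by linarith [ind_nonneg M e', ind_nonneg M' e'])
    rw [h1]; linarith
  · have e1 : ind M e = 1 := by simp [ind, he]
    have e2 : ind M' e = 0 := by simp [ind, he']
    rw [if_pos (by simp [mem_DD, he, he']), e1, e2]
    unfold loc
    rw [side_lv h' he]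
    have h2 := side_ww h h' he (fun e' => Phi S L (e.card - 1) (e'.card - 1))
      (fun e' => Phi_nonneg hL _ _)
    simp only [one_mul, zero_mul, add_zero, sub_zero, mul_one]
    linarith
  · have e1 : ind M e = 0 := by simp [ind, he]
    have e2 : ind M' e = 1 := by simp [ind, he']
    rw [if_pos (by simp [mem_DD, he, he']), e1, e2]
    unfold loc
    rw [lv_comm, side_lv h he', DD_comm]
    have h2 := side_ww h' h he' (fun e' => Phi S L (e.card - 1) (e'.card - 1))
      (fun e' => Phi_nonneg hL _ _)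
    simp only [one_mul, zero_mul, zero_add, sub_zero, mul_one]
    linarith
  · have e1 : ind M e = 0 := by simp [ind, he]
    have e2 : ind M' e = 0 := by simp [ind, he']
    rw [if_neg (by simp [mem_DD, he, he']), e1, e2]
    simp

lemma point_ineq (hlin : ∀ e ∈ E, ∀ f ∈ E, e ≠ f → (e ∩ f).card ≤ 1)
    (h2 : ∀ e ∈ E, 2 ≤ e.card) (h : Opt E y ν M) (h' : Opt E y ν M') {S : ℕ} {L : ℝ}
    (hL : qq S ≤ L) :
    0 ≤ ∑ e ∈ E, (Up E S L (ind M) (ind M') e - Lo E (ind M) (ind M') e) := by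
  have h1 := total_bound hlin h2 h h' hL
  have hsub : DD M M' ⊆ E := fun e' he' => by
    rcases mem_DD.1 he' with h4 | h4
    · exact h.isM.1 h4.1
    · exact h'.isM.1 h4.1
  have h3 := Finset.sum_le_sum fun f (_ : f ∈ E) => Lo_le h.isM h'.isM f
  have h4 := Finset.sum_le_sum fun f (_ : f ∈ E) => loc_le h.isM h'.isM hL f
  rw [Finset.sum_boole] at h3
  rw [Finset.sum_ite_mem, Finset.inter_eq_right.2 hsub] at h4
  rw [Finset.sum_sub_distrib]
  linarith

section avg

variable {Ω : Type} [Fintype Ω] (p : Ω → ℝ) (X : Ω → Finset V → ℝ)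

/-- the average weight function -/
noncomputable def avgX : Finset V → ℝ := fun e => ∑ ω, p ω * X ω e

/-- F commutes with the average -/
def Aff (F : (Finset V → ℝ) → ℝ) : Prop := ∑ ω, p ω * F (X ω) = F (avgX p X)

variable {p X}

omit [DecidableEq V] in
lemma aff_const (hp : ∑ ω, p ω = 1) (c : ℝ) : Aff p X (fun _ => c) := by
  unfold Aff; rw [← Finset.sum_mul, hp, one_mul]

omit [DecidableEq V] in
lemma aff_eval (e : Finset V) : Aff p X (fun Z => Z e) := rfl

omit [DecidableEq V] in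
lemma Aff.add {F G : (Finset V → ℝ) → ℝ} (hF : Aff p X F) (hG : Aff p X G) :
    Aff p X (fun Z => F Z + G Z) := by
  unfold Aff at *
  simp only [mul_add, Finset.sum_add_distrib, hF, hG]

omit [DecidableEq V] in
lemma Aff.sub {F G : (Finset V → ℝ) → ℝ} (hF : Aff p X F) (hG : Aff p X G) :
    Aff p X (fun Z => F Z - G Z) := by
  unfold Aff at *
  simp only [mul_sub, Finset.sum_sub_distrib, hF, hG]

omit [DecidableEq V] in
lemma Aff.cmul {F : (Finset V → ℝ) → ℝ} (c : ℝ) (hF : Aff p X F) :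
    Aff p X (fun Z => c * F Z) := by
  unfold Aff at *
  beta_reduce
  rw [← hF, Finset.mul_sum]
  exact Finset.sum_congr rfl fun _ _ => by ring

omit [DecidableEq V] in
lemma Aff.mulc {F : (Finset V → ℝ) → ℝ} (hF : Aff p X F) (c : ℝ) :
    Aff p X (fun Z => F Z * c) := by
  simpa only [mul_comm] using hF.cmul c

omit [DecidableEq V] in
lemma Aff.divc {F : (Finset V → ℝ) → ℝ} (hF : Aff p X F) (c : ℝ) :
    Aff p X (fun Z => F Z / c) := by
  simpa only [div_eq_mul_inv] using hF.mulc c⁻¹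

omit [DecidableEq V] in
lemma aff_sum {ι : Type} (s : Finset ι) {F : ι → (Finset V → ℝ) → ℝ}
    (hF : ∀ i, Aff p X (F i)) : Aff p X (fun Z => ∑ i ∈ s, F i Z) := by
  unfold Aff at *
  simp only [Finset.mul_sum]
  rw [Finset.sum_comm]
  exact Finset.sum_congr rfl fun i _ => hF i

lemma aff_cv (v : V) : Aff p X (fun Z => cv E Z v) :=
  aff_sum _ fun e => aff_eval e

lemma aff_left (hp : ∑ ω, p ω = 1) (S : ℕ) (L : ℝ) (Y : Finset V → ℝ) :
    Aff p X (fun Z => ∑ e ∈ E, (Up E S L Z Y e - Lo E Z Y e)) := by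
  refine aff_sum _ fun e => Aff.sub ?_ ?_
  · unfold Up
    refine Aff.add (Aff.sub (aff_sum _ fun u => Aff.cmul _ ?_) (Aff.cmul _ ?_))
      (Aff.divc (aff_sum _ fun e' => Aff.cmul _ ?_) _)
    · exact ((aff_eval e).mulc _).add (((aff_const hp 1).sub (aff_cv u)).cmul _)
    · exact ((aff_eval e).mulc _).add (((aff_const hp 1).sub (aff_eval e)).cmul _)
    · exact ((aff_eval e).mulc _).add ((aff_eval e').cmul _)
  · unfold Lo
    exact (((aff_const hp 1).sub (aff_eval e)).mulc _).sub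
      (aff_sum _ fun v => ((aff_cv v).sub (aff_eval e)).mulc _)

lemma up_lo_symm (S : ℕ) (L : ℝ) (Y Z : Finset V → ℝ) (e : Finset V) :
    Up E S L Y Z e - Lo E Y Z e = Up E S L Z Y e - Lo E Z Y e := by
  unfold Up Lo
  simp only [add_comm (Y e * _) (Z e * _), mul_comm (1 - Y e) (1 - Z e),
    mul_comm (cv E Y _ - Y e) (cv E Z _ - Z e)]

lemma avg_ineq (hp0 : ∀ ω, 0 ≤ p ω) (hp : ∑ ω, p ω = 1) (S : ℕ) (L : ℝ)
    (h : ∀ ω ω', p ω ≠ 0 → p ω' ≠ 0 →
      0 ≤ ∑ e ∈ E, (Up E S L (X ω) (X ω') e - Lo E (X ω) (X ω') e)) :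
    0 ≤ ∑ e ∈ E, (Up E S L (avgX p X) (avgX p X) e - Lo E (avgX p X) (avgX p X) e) := by
  have h1 := aff_left (E := E) (X := X) hp S L (avgX p X)
  unfold Aff at h1
  beta_reduce at h1
  rw [← h1]
  refine Finset.sum_nonneg fun ω _ => ?_
  by_cases hω : p ω = 0
  · simp [hω]
  refine mul_nonneg (hp0 ω) ?_
  simp only [up_lo_symm S L (X ω) (avgX p X)]
  have h2 := aff_left (E := E) (X := X) hp S L (X ω)
  unfold Aff at h2
  beta_reduce at h2
  rw [← h2]
  refine Finset.sum_nonneg fun ω' _ => ?_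
  by_cases hω' : p ω' = 0
  · simp [hω']
  exact mul_nonneg (hp0 ω') (h ω' ω hω' hω)

end avg

end Pool.Agent.P.MP_553766_co
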