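import Mathlib
import Pool.Agent.P.MP_553766_co.Comp

set_option autoImplicit false

namespace Pool.Agent.P.MP_553766_co

open Finset

/-- the balance at one point -/
noncomputable def Vx {ι : Type} [DecidableEq ι] (S : ℕ) (L T : ℝ) (I : Finset ι) (s : ι → ℕ) :
    ℝ :=
  ∑ i ∈ I, (T ^ 2 / (s i + 1) - ((I.card : ℝ) - 1) ^ 2
      - (T + 1 - I.card) * Gl S L I.card (s i) + 2 * T * Acr S L (s i) / (s i + 1))
    - ∑ i ∈ I, ∑ j ∈ I, (if i = j then 0 else Phi S L (s i) (s j))

end Pool.Agent.P.MP_553766_co
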