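import Mathlib
import Pool.Agent.P.MP_553766_co.Bilin
import Pool.Agent.P.MP_553766_co.VDef

set_option autoImplicit false

namespace Pool.Agent.P.MP_553766_co

open Finset

variable {V : Type} [Fintype V] [DecidableEq V]

lemma sum_swap (E : Finset (Finset V)) (F : Finset V → V → ℝ) :
    ∑ e ∈ E, ∑ u ∈ e, F e u = ∑ u, ∑ e ∈ E.filter (fun e => u ∈ e), F e u := by
  refine Finset.sum_comm' ?_
  intro e u
  simp [Finset.mem_filter]

lemma uniform_eq (E : Finset (Finset V)) (hne : ∀ e ∈ E, e.Nonempty) (S : ℕ) (L T : ℝ)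
    (hT : 0 < T + 1) (X : Finset V → ℝ) (hX : ∀ e ∈ E, X e = 1 / (T + 1)) :
    (T + 1) ^ 2 * ∑ e ∈ E, (Up E S L X X e - Lo E X X e) =
      - ∑ v, Vx S L T (E.filter (fun e => v ∈ e)) (fun e => e.card - 1) := by
  have hcv : ∀ v, cv E X v = deg E v / (T + 1) := fun v => by
    unfold cv deg
    rw [Finset.sum_congr rfl fun e he => hX e (Finset.mem_filter.1 he).1, Finset.sum_const,
      nsmul_eq_mul]
    ring
  have hW : ∑ e ∈ E, ∑ e' ∈ E, (ww e e' : ℝ) * Phi S L (e.card - 1) (e'.card - 1) =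
      ∑ v, ∑ e ∈ E.filter (fun e => v ∈ e), ∑ e' ∈ E.filter (fun e => v ∈ e),
        (if e = e' then 0 else Phi S L (e.card - 1) (e'.card - 1)) := by
    rw [← sum_swap E (fun e v => ∑ e' ∈ E.filter (fun e => v ∈ e),
        (if e = e' then 0 else Phi S L (e.card - 1) (e'.card - 1)))]
    refine Finset.sum_congr rfl fun e _ => ?_
    simp only [Finset.sum_filter]
    rw [Finset.sum_comm]
    refine Finset.sum_congr rfl fun e' _ => ?_
    rw [← Finset.sum_filter, Finset.sum_const, nsmul_eq_mul, Finset.filter_mem_eq_inter]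
    unfold ww
    split_ifs <;> simp
  have hA : ∀ e ∈ E, (T + 1) ^ 2 * (Up E S L X X e - Lo E X X e) =
      - ∑ u ∈ e, (T ^ 2 / (((e.card - 1 : ℕ) : ℝ) + 1) - ((deg E u : ℝ) - 1) ^ 2
        - (T + 1 - deg E u) * Gl S L (deg E u) (e.card - 1)
        + 2 * T * Acr S L (e.card - 1) / (((e.card - 1 : ℕ) : ℝ) + 1))
      + ∑ e' ∈ E, (ww e e' : ℝ) * Phi S L (e.card - 1) (e'.card - 1) := by
    intro e he
    have hc : 1 ≤ e.card := (hne e he).card_pos
    have hk : (((e.card - 1 : ℕ) : ℝ) + 1) = e.card := by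
      rw [Nat.cast_sub hc]; push_cast; ring
    have hk0 : (e.card : ℝ) ≠ 0 := by positivity
    have hT' : T + 1 ≠ 0 := hT.ne'
    unfold Up Lo
    simp only [hcv, hX e he, hk]
    have e0 : ∑ e' ∈ E, (ww e e' : ℝ) * Phi S L (e.card - 1) (e'.card - 1) *
        (1 / (T + 1) * X e' + 1 / (T + 1) * X e') =
        ∑ e' ∈ E, (ww e e' : ℝ) * Phi S L (e.card - 1) (e'.card - 1) *
        (1 / (T + 1) * (1 / (T + 1)) + 1 / (T + 1) * (1 / (T + 1))) :=
      Finset.sum_congr rfl fun e' he' => by rw [hX e' he']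
    rw [e0]
    simp only [Finset.sum_add_distrib, Finset.sum_sub_distrib, Finset.sum_const, nsmul_eq_mul]
    have e1 : (T + 1) ^ 2 * ∑ u ∈ e, Gl S L (deg E u) (e.card - 1) / 2 *
        (1 / (T + 1) * (1 - deg E u / (T + 1)) + 1 / (T + 1) * (1 - deg E u / (T + 1))) =
        ∑ u ∈ e, (T + 1 - deg E u) * Gl S L (deg E u) (e.card - 1) := by
      rw [Finset.mul_sum]
      refine Finset.sum_congr rfl fun u _ => ?_
      field_simp
      ring
    have e2 : (T + 1) ^ 2 * ((∑ e' ∈ E, (ww e e' : ℝ) * Phi S L (e.card - 1) (e'.card - 1) *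
        (1 / (T + 1) * (1 / (T + 1)) + 1 / (T + 1) * (1 / (T + 1)))) / 2) =
        ∑ e' ∈ E, (ww e e' : ℝ) * Phi S L (e.card - 1) (e'.card - 1) := by
      rw [Finset.sum_div, Finset.mul_sum]
      refine Finset.sum_congr rfl fun u _ => ?_
      field_simp
      ring
    have e3 : (T + 1) ^ 2 * ∑ v ∈ e, ((deg E v : ℝ) / (T + 1) - 1 / (T + 1)) *
        (deg E v / (T + 1) - 1 / (T + 1)) = ∑ v ∈ e, ((deg E v : ℝ) - 1) ^ 2 := by
      rw [Finset.mul_sum]
      refine Finset.sum_congr rfl fun u _ => ?_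
      field_simp
    have e4 : (T + 1) ^ 2 * (Acr S L (e.card - 1) * (1 / (T + 1) * (1 - 1 / (T + 1)) +
        1 / (T + 1) * (1 - 1 / (T + 1)))) =
        e.card * (2 * T * Acr S L (e.card - 1) / e.card) := by
      field_simp
      ring
    have e5 : (T + 1) ^ 2 * ((1 - 1 / (T + 1)) * (1 - 1 / (T + 1))) =
        e.card * (T ^ 2 / e.card) := by
      field_simp
      ring
    linear_combination e1 + e2 + e3 - e4 - e5
  rw [Finset.mul_sum, Finset.sum_congr rfl hA, Finset.sum_add_distrib, hW, Finset.sum_neg_distrib,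
    sum_swap]
  unfold Vx deg
  rw [Finset.sum_sub_distrib]
  ring

end Pool.Agent.P.MP_553766_co
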