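import Mathlib

set_option autoImplicit false

namespace Pool.Agent.P.MP_553766_co

open Finset

/-- Optimal strategies of a finite matrix game, with complementary slackness. -/
theorem game {ι κ : Type} [Fintype ι] [Fintype κ] [Nonempty ι] [Nonempty κ]
    (a : κ → ι → ℝ) :
    ∃ (y : ι → ℝ) (p : κ → ℝ) (ν : ℝ), (∀ i, 0 ≤ y i) ∧ ∑ i, y i = 1 ∧ (∀ k, 0 ≤ p k) ∧
      ∑ k, p k = 1 ∧ (∀ k, ∑ i, y i * a k i ≤ ν) ∧ (∀ k, p k ≠ 0 → ∑ i, y i * a k i = ν) ∧
      (∀ i, ν ≤ ∑ k, p k * a k i) ∧ (∀ i, y i ≠ 0 → ∑ k, p k * a k i = ν) := by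
  classical
  let f : (ι → ℝ) → (κ → ℝ) → ℝ := fun y p => ∑ k, ∑ i, p k * (y i * a k i)
  have hc1 : ∀ p, Continuous fun y => f y p := fun p => by
    simp only [f]; fun_prop
  have hc2 : ∀ y, Continuous fun p => f y p := fun y => by
    simp only [f]; fun_prop
  have hl1 : ∀ p, IsLinearMap ℝ fun y => f y p := fun p =>
    ⟨fun y z => by simp only [f, Pi.add_apply, add_mul, mul_add, Finset.sum_add_distrib],
     fun c y => by
      simp only [f, Pi.smul_apply, smul_eq_mul, Finset.mul_sum]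
      refine Finset.sum_congr rfl fun k _ => Finset.sum_congr rfl fun i _ => by ring⟩
  have hl2 : ∀ y, IsLinearMap ℝ fun p => f y p := fun y =>
    ⟨fun p q => by simp only [f, Pi.add_apply, add_mul, Finset.sum_add_distrib],
     fun c p => by
      simp only [f, Pi.smul_apply, smul_eq_mul, Finset.mul_sum]
      refine Finset.sum_congr rfl fun k _ => Finset.sum_congr rfl fun i _ => by ring⟩
  obtain ⟨y, hy, p, hp, hs⟩ := Sion.exists_isSaddlePointOn (X := stdSimplex ℝ ι)
    (Y := stdSimplex ℝ κ) (f := f)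
    ⟨_, single_mem_stdSimplex ℝ (Classical.arbitrary ι)⟩ (convex_stdSimplex ℝ ι)
    (isCompact_stdSimplex ℝ ι)
    (fun p _ => (hc1 p).lowerSemicontinuous.lowerSemicontinuousOn _)
    (fun p _ => (((hl1 p).mk' _).convexOn (convex_stdSimplex ℝ ι)).quasiconvexOn)
    (convex_stdSimplex ℝ κ) ⟨_, single_mem_stdSimplex ℝ (Classical.arbitrary κ)⟩
    (isCompact_stdSimplex ℝ κ)
    (fun y _ => (hc2 y).upperSemicontinuous.upperSemicontinuousOn _)
    (fun y _ => (((hl2 y).mk' _).concaveOn (convex_stdSimplex ℝ κ)).quasiconcaveOn)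
  have h1 : ∀ k, ∑ i, y i * a k i ≤ f y p := fun k => by
    have := hs y hy (Pi.single k 1) (single_mem_stdSimplex ℝ k)
    refine le_trans (le_of_eq ?_) this
    simp only [f, ← Finset.mul_sum]
    rw [Finset.sum_eq_single k]
    · simp
    · intro b _ hb; simp [hb]
    · simp
  have h2 : ∀ i, f y p ≤ ∑ k, p k * a k i := fun i => by
    have := hs (Pi.single i 1) (single_mem_stdSimplex ℝ i) p hp
    refine le_trans this (le_of_eq ?_)
    simp only [f, ← Finset.mul_sum]
    refine Finset.sum_congr rfl fun k _ => ?_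
    rw [Finset.sum_eq_single i]
    · simp
    · intro b _ hb; simp [hb]
    · simp
  refine ⟨y, p, f y p, hy.1, hy.2, hp.1, hp.2, h1, ?_, h2, ?_⟩
  · intro k hk
    have hz : ∑ k, p k * (f y p - ∑ i, y i * a k i) = 0 := by
      simp only [mul_sub, Finset.sum_sub_distrib, ← Finset.sum_mul, hp.2, one_mul]
      simp only [f, Finset.mul_sum, sub_self]
    have := (Finset.sum_eq_zero_iff_of_nonneg
      (fun k _ => mul_nonneg (hp.1 k) (sub_nonneg.2 (h1 k)))).1 hz k (Finset.mem_univ k)
    rcases mul_eq_zero.1 this with h | h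
    · exact absurd h hk
    · linarith
  · intro i hi
    have hz : ∑ i, y i * (∑ k, p k * a k i - f y p) = 0 := by
      simp only [mul_sub, Finset.sum_sub_distrib, ← Finset.sum_mul, hy.2, one_mul]
      simp only [f, Finset.mul_sum]
      rw [Finset.sum_comm, sub_eq_zero]
      refine Finset.sum_congr rfl fun k _ => Finset.sum_congr rfl fun i _ => by ring
    have := (Finset.sum_eq_zero_iff_of_nonneg
      (fun i _ => mul_nonneg (hy.1 i) (sub_nonneg.2 (h2 i)))).1 hz i (Finset.mem_univ i)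
    rcases mul_eq_zero.1 this with h | h
    · exact absurd h hi
    · linarith

end Pool.Agent.P.MP_553766_co
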