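import Mathlib
import Pool.Agent.P.MP_553766_co.VDef

set_option autoImplicit false

namespace Pool.Agent.P.MP_553766_co

open Finset

/-- term of a large edge -/
noncomputable def VL0 (D d s : ℝ) : ℝ := D ^ 2 / (s + 1) - D * (d - 1)

/-- term of a small edge, without the coupling with the large edges -/
noncomputable def V0 (D L d s : ℝ) : ℝ :=
  D ^ 2 / (s + 1) - D * (d - 1) + 2 * D * L / (s + 1) - D * s - L * (d - 1)
    - (D + 1 - d) * max (L / s - d) 0

lemma Vx_eq {ι : Type} [DecidableEq ι] (S : ℕ) (L T : ℝ) (I : Finset ι) (s : ι → ℕ) :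
    Vx S L T I s =
      ∑ i ∈ I.filter (fun i => s i ≤ S), (V0 T L I.card (s i) -
        (I.filter (fun i => ¬ s i ≤ S)).card * (L - s i * (s i + 1)))
      + ∑ i ∈ I.filter (fun i => ¬ s i ≤ S), VL0 T I.card (s i) := by
  set Is := I.filter (fun i => s i ≤ S) with hIs
  set Il := I.filter (fun i => ¬ s i ≤ S) with hIl
  have hcard : (I.card : ℝ) = Is.card + Il.card := by
    exact_mod_cast (Finset.card_filter_add_card_filter_not (s := I) (fun i => s i ≤ S)).symm
  have hsm : ∀ i ∈ Is, ∑ j ∈ I, (if i = j then 0 else Phi S L (s i) (s j)) =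
      (Is.card - 1) * L + Il.card * Acr S L (s i) := by
    intro i hi
    have hi' := (Finset.mem_filter.1 hi).2
    rw [← Finset.sum_filter_add_sum_filter_not I (fun i => s i ≤ S)]
    congr 1
    · rw [← Finset.add_sum_erase _ _ hi, if_pos rfl, zero_add,
        Finset.sum_congr rfl (g := fun _ => L), Finset.sum_const, nsmul_eq_mul,
        Finset.card_erase_of_mem hi, Nat.cast_sub (Finset.card_pos.2 ⟨i, hi⟩)]
      · simp
      · intro j hj
        rw [if_neg (Finset.ne_of_mem_erase hj).symm]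
        unfold Phi
        rw [if_pos ⟨hi', (Finset.mem_filter.1 (Finset.mem_of_mem_erase hj)).2⟩]
    · rw [Finset.sum_congr rfl (g := fun _ => Acr S L (s i)), Finset.sum_const, nsmul_eq_mul]
      intro j hj
      have hj' := (Finset.mem_filter.1 hj).2
      rw [if_neg (fun h : i = j => hj' (h ▸ hi'))]
      unfold Phi
      rw [if_neg (fun h => hj' h.2)]
      have : Acr S L (s j) = 0 := by unfold Acr; rw [if_neg hj']
      rw [this, add_zero]
  have hlg : ∀ i ∈ Il, ∑ j ∈ I, (if i = j then 0 else Phi S L (s i) (s j)) =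
      ∑ j ∈ Is, Acr S L (s j) := by
    intro i hi
    have hi' := (Finset.mem_filter.1 hi).2
    have h0 : Acr S L (s i) = 0 := by unfold Acr; rw [if_neg hi']
    rw [← Finset.sum_filter_add_sum_filter_not I (fun i => s i ≤ S)]
    have h1 : ∑ j ∈ I.filter (fun i => ¬ s i ≤ S),
        (if i = j then 0 else Phi S L (s i) (s j)) = 0 := by
      refine Finset.sum_eq_zero fun j hj => ?_
      have hj' := (Finset.mem_filter.1 hj).2
      split_ifs
      · rfl
      · unfold Phi
        rw [if_neg (fun h => hi' h.1), h0]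
        unfold Acr; rw [if_neg hj', add_zero]
    rw [h1, add_zero]
    refine Finset.sum_congr rfl fun j hj => ?_
    have hj' := (Finset.mem_filter.1 hj).2
    rw [if_neg (fun h : i = j => hi' (h ▸ hj'))]
    unfold Phi
    rw [if_neg (fun h => hi' h.1), h0, zero_add]
  unfold Vx
  rw [← Finset.sum_filter_add_sum_filter_not I (fun i => s i ≤ S),
    ← Finset.sum_filter_add_sum_filter_not I (fun i => s i ≤ S)
      (fun i => ∑ j ∈ I, (if i = j then 0 else Phi S L (s i) (s j))),
    Finset.sum_congr rfl hsm, Finset.sum_congr rfl hlg, Finset.sum_const, nsmul_eq_mul,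
    Finset.mul_sum]
  have e1 : ∑ i ∈ Is, (V0 T L I.card (s i) - Il.card * (L - s i * (s i + 1))) =
      ∑ i ∈ Is, (T ^ 2 / (s i + 1) - ((I.card : ℝ) - 1) ^ 2
        - (T + 1 - I.card) * Gl S L I.card (s i) + 2 * T * Acr S L (s i) / (s i + 1))
      - ∑ i ∈ Is, ((Is.card - 1) * L + Il.card * Acr S L (s i))
      - ∑ i ∈ Is, Il.card * Acr S L (s i) := by
    rw [← Finset.sum_sub_distrib, ← Finset.sum_sub_distrib]
    refine Finset.sum_congr rfl fun i hi => ?_
    have hi' := (Finset.mem_filter.1 hi).2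
    unfold V0 Gl Acr qq
    rw [if_pos hi', if_pos hi', hcard]
    have : (s i : ℝ) + 1 ≠ 0 := by positivity
    field_simp
    ring
  have e2 : ∑ i ∈ Il, VL0 T I.card (s i) =
      ∑ i ∈ Il, (T ^ 2 / (s i + 1) - ((I.card : ℝ) - 1) ^ 2
        - (T + 1 - I.card) * Gl S L I.card (s i) + 2 * T * Acr S L (s i) / (s i + 1)) := by
    refine Finset.sum_congr rfl fun i hi => ?_
    have hi' := (Finset.mem_filter.1 hi).2
    unfold VL0 Gl Acr
    rw [if_neg hi', if_neg hi']
    ring
  rw [e1, e2]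
  ring

/-- a supporting line for the terms at one point -/
def Good (D S d l : ℕ) (L : ℝ) : Prop :=
  ∃ η κ : ℝ, 0 ≤ η ∧
    (∀ s : ℕ, 2 ≤ s → s ≤ S → l * (S + 1) + s ≤ D → l + 1 ≤ d →
      η * (D - d * s) - l * κ ≤ V0 D L d s - l * (L - s * (s + 1))) ∧
    (∀ s : ℕ, S + 1 ≤ s → 1 ≤ l → η * (D - d * s) + (d - l) * κ ≤ VL0 D d s)

lemma Vx_pos {ι : Type} [DecidableEq ι] (D S : ℕ) (L T : ℝ) (I : Finset ι) (s : ι → ℕ)
    (hI : I.Nonempty) (h2 : ∀ i ∈ I, 2 ≤ s i) (hsum : ∑ i ∈ I, s i ≤ D) (hT : (D : ℝ) < T)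
    (hL : (S : ℝ) * (S + 1) ≤ L)
    (hgood : ∀ d l : ℕ, 1 ≤ d → l ≤ d → l * (S + 1) + 2 * (d - l) ≤ D → Good D S d l L) :
    0 < Vx S L T I s := by
  set Is := I.filter (fun i => s i ≤ S) with hIs
  set Il := I.filter (fun i => ¬ s i ≤ S) with hIl
  have hcardN : Is.card + Il.card = I.card :=
    Finset.card_filter_add_card_filter_not (s := I) (fun i => s i ≤ S)
  have hcard : (I.card : ℝ) = Is.card + Il.card := by exact_mod_cast hcardN.symm
  have hsplit : ∑ i ∈ Is, s i + ∑ i ∈ Il, s i = ∑ i ∈ I, s i :=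
    Finset.sum_filter_add_sum_filter_not I (fun i => s i ≤ S) s
  have hl : Il.card * (S + 1) ≤ ∑ i ∈ Il, s i := by
    rw [← smul_eq_mul, ← Finset.sum_const]
    exact Finset.sum_le_sum fun i hi => by have := (Finset.mem_filter.1 hi).2; omega
  have hm : Is.card * 2 ≤ ∑ i ∈ Is, s i := by
    rw [← smul_eq_mul, ← Finset.sum_const]
    exact Finset.sum_le_sum fun i hi => h2 i (Finset.mem_filter.1 hi).1
  have hd1 : 1 ≤ I.card := hI.card_pos
  obtain ⟨η, κ, hη, hsm, hlg⟩ := hgood I.card Il.card hd1 (by omega) (by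
    have : I.card - Il.card = Is.card := by omega
    rw [this]; omega)
  have hD0 : (0 : ℝ) < D := by
    have h3 : Il.card * 2 ≤ ∑ i ∈ Il, s i := by
      rw [← smul_eq_mul, ← Finset.sum_const]
      exact Finset.sum_le_sum fun i hi => h2 i (Finset.mem_filter.1 hi).1
    have : 0 < D := by omega
    exact_mod_cast this
  have hd1' : (1 : ℝ) ≤ I.card := by exact_mod_cast hd1
  have hVD : 0 ≤ Vx S L D I s := by
    rw [Vx_eq]
    have e1 : ∑ i ∈ Is, (η * (D - I.card * s i) - Il.card * κ) ≤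
        ∑ i ∈ Is, (V0 D L I.card (s i) - Il.card * (L - s i * (s i + 1))) := by
      refine Finset.sum_le_sum fun i hi => ?_
      have h4 : s i ≤ ∑ i ∈ Is, s i :=
        Finset.single_le_sum (f := s) (fun _ _ => Nat.zero_le _) hi
      have h5 : 1 ≤ Is.card := Finset.card_pos.2 ⟨i, hi⟩
      exact hsm (s i) (h2 i (Finset.mem_filter.1 hi).1) (Finset.mem_filter.1 hi).2
        (by omega) (by omega)
    have e2 : ∑ i ∈ Il, (η * (D - I.card * s i) + (I.card - Il.card) * κ) ≤
        ∑ i ∈ Il, VL0 D I.card (s i) := by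
      refine Finset.sum_le_sum fun i hi => ?_
      exact hlg (s i) (by have := (Finset.mem_filter.1 hi).2; omega)
        (Finset.card_pos.2 ⟨i, hi⟩)
    simp only [Finset.sum_add_distrib, Finset.sum_sub_distrib, Finset.sum_const, nsmul_eq_mul,
      ← Finset.mul_sum] at e1 e2
    have e3 : (∑ i ∈ Is, (s i : ℝ)) + ∑ i ∈ Il, (s i : ℝ) ≤ D := by
      have := hsplit.trans_le hsum
      exact_mod_cast this
    have e4 : 0 ≤ η * I.card * (D - ((∑ i ∈ Is, (s i : ℝ)) + ∑ i ∈ Il, (s i : ℝ))) :=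
      mul_nonneg (mul_nonneg hη (by positivity)) (by linarith)
    simp only [Finset.sum_sub_distrib, ← Finset.mul_sum, Finset.sum_const, nsmul_eq_mul]
    rw [hcard] at e1 e2 e4 ⊢
    nlinarith
  have hT0 : 0 < T := hD0.trans hT
  have hmono : Vx S L D I s * T < Vx S L T I s * D := by
    rw [Vx_eq, Vx_eq, add_mul, add_mul, Finset.sum_mul, Finset.sum_mul, Finset.sum_mul,
      Finset.sum_mul]
    have e1 : ∀ i ∈ Is, (V0 D L I.card (s i) - Il.card * (L - s i * (s i + 1))) * T <
        (V0 T L I.card (s i) - Il.card * (L - s i * (s i + 1))) * D := by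
      intro i hi
      have h3 : (2 : ℝ) ≤ s i := by exact_mod_cast h2 i (Finset.mem_filter.1 hi).1
      have h4 : (s i : ℝ) ≤ S := by exact_mod_cast (Finset.mem_filter.1 hi).2
      have h5 : (s i : ℝ) * (s i + 1) ≤ L := by nlinarith
      have h6 : 0 ≤ L := by nlinarith
      have h7 : max (L / s i - I.card) 0 ≤ L := by
        refine max_le ?_ h6
        have : L / s i ≤ L := div_le_self h6 (by linarith)
        linarith
      have h8 : 0 < T * D / (s i + 1) := by positivity
      have h9 : 0 ≤ (I.card - 1 : ℝ) * (L - max (L / s i - I.card) 0) :=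
        mul_nonneg (by linarith) (by linarith)
      have h10 : 0 ≤ (Il.card : ℝ) * (L - s i * (s i + 1)) :=
        mul_nonneg (by positivity) (by linarith)
      have h11 : (V0 T L I.card (s i) - Il.card * (L - s i * (s i + 1))) * D -
          (V0 D L I.card (s i) - Il.card * (L - s i * (s i + 1))) * T =
          (T - D) * (T * D / (s i + 1) + (I.card - 1 : ℝ) * (L - max (L / s i - I.card) 0)
            + (Il.card : ℝ) * (L - s i * (s i + 1))) := by
        unfold V0; ring
      have h12 := mul_pos (sub_pos.2 hT) (show 0 < T * D / (s i + 1) +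
        (I.card - 1 : ℝ) * (L - max (L / s i - I.card) 0)
            + (Il.card : ℝ) * (L - s i * (s i + 1)) by linarith)
      linarith
    have e2 : ∀ i ∈ Il, VL0 D I.card (s i) * T < VL0 T I.card (s i) * D := by
      intro i _
      have h8 : 0 < T * D / (s i + 1) := by positivity
      have h11 : VL0 T I.card (s i) * D - VL0 D I.card (s i) * T =
          (T - D) * (T * D / (s i + 1)) := by
        unfold VL0; ring
      have h12 := mul_pos (sub_pos.2 hT) h8
      linarith
    rcases Finset.eq_empty_or_nonempty Is with h0 | h0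
    · have h1 : Il.Nonempty := by
        rw [h0, Finset.card_empty] at hcardN
        exact Finset.card_pos.1 (by omega)
      exact add_lt_add_of_le_of_lt (Finset.sum_le_sum fun i hi => (e1 i hi).le)
        (Finset.sum_lt_sum_of_nonempty h1 e2)
    · exact add_lt_add_of_lt_of_le (Finset.sum_lt_sum_of_nonempty h0 e1)
        (Finset.sum_le_sum fun i hi => (e2 i hi).le)
  by_contra hc
  push Not at hc
  nlinarith [mul_nonneg hVD hT0.le]

lemma V0_geP {D L d s x : ℝ} (hs : 0 < s) (h : s * d ≤ L)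
    (hx : x * (s * (s + 1)) ≤ s * (D ^ 2 + 2 * D * L)
      - s * (s + 1) * (D * (d - 1) + D * s + L * (d - 1)) - (s + 1) * (D + 1 - d) * (L - s * d)) :
    x ≤ V0 D L d s := by
  have h1 : 0 ≤ L / s - d := by
    rw [sub_nonneg, le_div_iff₀ hs]; linarith
  unfold V0
  rw [max_eq_left h1]
  rw [← le_div_iff₀ (by positivity)] at hx
  refine hx.trans (le_of_eq ?_)
  field_simp
  ring

lemma V0_geN {D L d s x : ℝ} (hs : 0 < s) (h : L ≤ s * d)
    (hx : x * (s + 1) ≤ (D ^ 2 + 2 * D * L) - (s + 1) * (D * (d - 1) + D * s + L * (d - 1))) :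
    x ≤ V0 D L d s := by
  have h1 : L / s - d ≤ 0 := by
    rw [sub_nonpos, div_le_iff₀ hs]; linarith
  unfold V0
  rw [max_eq_right h1]
  rw [← le_div_iff₀ (by positivity)] at hx
  refine hx.trans (le_of_eq ?_)
  field_simp
  ring

/-- The second scheme: one line for the small edges, a linear bound for s(s+1). -/
lemma good_of_line (D S d l : ℕ) (L η a0 a1 : ℝ) (hd : 1 ≤ d) (hη : 0 ≤ η)
    (h1 : ∀ s : ℕ, 2 ≤ s → s ≤ S → η * (D - d * s) ≤ V0 D L d s)
    (h2 : ∀ s : ℕ, a0 + a1 * s ≤ s * (s + 1))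
    (h3 : 1 ≤ l → (D : ℝ) ^ 2 ≤ (η * d - l * a1) * ((S + 2) * (S + 3)))
    (h4 : 1 ≤ l → (S + 2) * ((η * d - l * a1) * (D - d * (S + 1))
      + (d - l) * (d * (L - a0) - a1 * D)) ≤ d * (D ^ 2 - (S + 2) * (D * (d - 1)))) :
    Good D S d l L := by
  have hd0 : (0 : ℝ) < d := by exact_mod_cast hd
  refine ⟨η - l * a1 / d, L - a0 - a1 * D / d, ?_, ?_, ?_⟩
  · rcases Nat.eq_zero_or_pos l with h | h
    · simp [h, hη]
    · have h5 := h3 h
      have h6 : 0 ≤ η * d - l * a1 := by
        by_contra hc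
        push Not at hc
        have := mul_neg_of_neg_of_pos hc (show (0 : ℝ) < (S + 2) * (S + 3) by positivity)
        nlinarith [sq_nonneg (D : ℝ)]
      rw [sub_nonneg, div_le_iff₀ hd0]; linarith
  · intro s hs hs' _ _
    have e1 : (η - l * a1 / d) * (D - d * s) - l * (L - a0 - a1 * D / d) =
        η * (D - d * s) - l * (L - (a0 + a1 * s)) := by
      field_simp
      ring
    have e2 : (l : ℝ) * (a0 + a1 * s) ≤ l * (s * (s + 1)) :=
      mul_le_mul_of_nonneg_left (h2 s) (by positivity)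
    rw [e1]
    linarith [h1 s hs hs']
  · intro s hs hl
    obtain ⟨j, rfl⟩ := Nat.exists_eq_add_of_le hs
    have h5 := h3 hl
    have h6 := h4 hl
    have hj : (0 : ℝ) ≤ j * (j - 1) := by
      rcases Nat.eq_zero_or_pos j with h | h
      · simp [h]
      · have : (1 : ℝ) ≤ j := by exact_mod_cast h
        nlinarith
    set g := η * d - l * a1 with hg
    have e1 : (η - l * a1 / d) * (D - d * (S + 1)) + (d - l) * (L - a0 - a1 * D / d) ≤
        D ^ 2 / (S + 2) - D * (d - 1) := by
      have e2 : (η - l * a1 / d) * (D - d * (S + 1)) + (d - l) * (L - a0 - a1 * D / d) =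
          (S + 2) * (g * (D - d * (S + 1)) + (d - l) * (d * (L - a0) - a1 * D)) /
            (d * (S + 2)) := by
        rw [hg]; field_simp
      have e3 : (D : ℝ) ^ 2 / (S + 2) - D * (d - 1) =
          d * (D ^ 2 - (S + 2) * (D * (d - 1))) / (d * (S + 2)) := by
        field_simp
      rw [e2, e3]
      exact div_le_div_of_nonneg_right h6 (by positivity)
    have e4 : (D : ℝ) ^ 2 / (S + 2) - j * (D ^ 2 / ((S + 2) * (S + 3))) ≤
        D ^ 2 / (S + 1 + j + 1) := by
      have e5 : (D : ℝ) ^ 2 / (S + 1 + j + 1) - (D ^ 2 / (S + 2) -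
          j * (D ^ 2 / ((S + 2) * (S + 3)))) =
          D ^ 2 * (j * (j - 1)) / ((S + 2) * (S + 3) * (S + 1 + j + 1)) := by
        field_simp
        ring
      have e6 : 0 ≤ (D : ℝ) ^ 2 * (j * (j - 1)) / ((S + 2) * (S + 3) * (S + 1 + j + 1)) := by
        positivity
      linarith
    have e7 : (D : ℝ) ^ 2 / ((S + 2) * (S + 3)) ≤ g := by
      rw [div_le_iff₀ (by positivity)]; exact h5
    have e8 : (j : ℝ) * (D ^ 2 / ((S + 2) * (S + 3))) ≤ j * g :=
      mul_le_mul_of_nonneg_left e7 (by positivity)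
    have e9 : (η - l * a1 / d) * (D - d * (S + 1 + j)) =
        (η - l * a1 / d) * (D - d * (S + 1)) - j * g := by
      rw [hg]; field_simp; ring
    unfold VL0
    push_cast
    rw [e9]
    linarith

lemma sec_bound (a s : ℕ) : ((a : ℝ) - a ^ 2) + 2 * a * s ≤ s * (s + 1) := by
  have : (0 : ℤ) ≤ (s - a) * (s - a + 1) := by
    rcases le_or_gt (a : ℤ) s with h | h <;> nlinarith
  have h2 : (0 : ℝ) ≤ (s - a) * (s - a + 1) := by exact_mod_cast this
  nlinarith

end Pool.Agent.P.MP_553766_co
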