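import Mathlib
import Pool.Agent.P.MP_553766_co.VRed

set_option autoImplicit false

namespace Pool.Agent.P.MP_553766_co

/-- cleared form of the term of a penalised small edge -/
def pP (D L d s : ℝ) : ℝ :=
  s * (D ^ 2 + 2 * D * L) - s * (s + 1) * (D * (d - 1) + D * s + L * (d - 1))
    - (s + 1) * (D + 1 - d) * (L - s * d)

/-- cleared form of the term of a small edge without penalty -/
def pN (D L d s : ℝ) : ℝ :=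
  (D ^ 2 + 2 * D * L) - (s + 1) * (D * (d - 1) + D * s + L * (d - 1))

lemma split_sS {s S : ℕ} (h2 : 2 ≤ s) (hs : s ≤ S) (hS : 6 ≤ S) :
    (∃ x : ℝ, 0 ≤ x ∧ (s : ℝ) = x + 6 ∧ (S : ℝ) = x + 6) ∨
    (∃ p y : ℝ, 0 ≤ p ∧ 0 ≤ y ∧ (s : ℝ) = p + 2 ∧ (S : ℝ) = p + y + 3) := by
  rcases Nat.eq_or_lt_of_le hs with h | h
  · left
    have : (6 : ℝ) ≤ S := by exact_mod_cast hS
    exact ⟨S - 6, by linarith, by rw [h]; ring, by ring⟩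
  · right
    have h3 : (2 : ℝ) ≤ s := by exact_mod_cast h2
    have h4 : (s : ℝ) + 1 ≤ S := by exact_mod_cast h
    exact ⟨s - 2, S - s - 1, by linarith, by linarith, by ring, by ring⟩

lemma F2P {s S : ℕ} (h2 : 2 ≤ s) (hs : s ≤ S) (hS : 6 ≤ S) :
    0 ≤ (S * (S + 1) : ℝ) * pP (S ^ 2 + S - 1) (S ^ 2 + S) (S + 1) s
      - ((3 * S - 2) * (S ^ 2 + S - 1)) * ((S ^ 2 + S - 1) - (S + 1) * s) * (s * (s + 1)) := by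
  unfold pP
  rcases split_sS h2 hs hS with ⟨x, hx, e1, e2⟩ | ⟨p, y, hp, hy, e1, e2⟩
  · rw [e1, e2]
    have : 0 ≤ x ^ 5 + 30 * x ^ 4 + 355 * x ^ 3 + 2068 * x ^ 2 + 5918 * x + 6636 := by positivity
    linarith
  · rw [e1, e2]
    have : 0 ≤ 2 * p * y ^ 6 + 8 * p ^ 2 * y ^ 5 + 12 * p ^ 3 * y ^ 4 + 8 * p ^ 4 * y ^ 3
        + 2 * p ^ 5 * y ^ 2 + 41 * p * y ^ 5 + 108 * p ^ 2 * y ^ 4 + 108 * p ^ 3 * y ^ 3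
        + 41 * p ^ 4 * y ^ 2 + 3 * p ^ 5 * y + 3 * y ^ 6 + 292 * p * y ^ 4
        + 504 * p ^ 2 * y ^ 3 + 302 * p ^ 3 * y ^ 2 + 50 * p ^ 4 * y + 2 * p ^ 5 + 42 * y ^ 5
        + 945 * p * y ^ 3 + 1004 * p ^ 2 * y ^ 2 + 309 * p ^ 3 * y + 27 * p ^ 4 + 223 * y ^ 4
        + 1494 * p * y ^ 2 + 884 * p ^ 2 * y + 138 * p ^ 3 + 572 * y ^ 3 + 1159 * p * y
        + 332 * p ^ 2 + 768 * y ^ 2 + 371 * p + 542 * y + 150 := by positivity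
    linarith

lemma F3P1 {s S : ℕ} (h2 : 2 ≤ s) (hs : s ≤ S) (hS : 6 ≤ S) :
    0 ≤ (S + 2 : ℝ) * pP (S ^ 2 + S) (S ^ 2 + S) (S + 2) s
      - (3 * (S ^ 2 + S)) * ((S ^ 2 + S) - (S + 2) * s) * (s * (s + 1)) := by
  unfold pP
  rcases split_sS h2 hs hS with ⟨x, hx, e1, e2⟩ | ⟨p, y, hp, hy, e1, e2⟩
  · rw [e1, e2]
    have : 0 ≤ 2 * x ^ 5 + 61 * x ^ 4 + 738 * x ^ 3 + 4421 * x ^ 2 + 13090 * x
        + 15288 := by positivity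
    linarith
  · rw [e1, e2]
    have : 0 ≤ 2 * p * y ^ 5 + 6 * p ^ 2 * y ^ 4 + 6 * p ^ 3 * y ^ 3 + 2 * p ^ 4 * y ^ 2
        + 34 * p * y ^ 4 + 62 * p ^ 2 * y ^ 3 + 36 * p ^ 3 * y ^ 2 + 7 * p ^ 4 * y + 2 * p ^ 5
        + 3 * y ^ 5 + 188 * p * y ^ 3 + 200 * p ^ 2 * y ^ 2 + 74 * p ^ 3 * y + 26 * p ^ 4
        + 36 * y ^ 4 + 424 * p * y ^ 2 + 277 * p ^ 2 * y + 126 * p ^ 3 + 153 * y ^ 3
        + 422 * p * y + 274 * p ^ 2 + 276 * y ^ 2 + 244 * p + 204 * y + 48 := by positivity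
    linarith

lemma F3P2 {s S : ℕ} (h2 : 2 ≤ s) (hs : s ≤ S) (hS : 6 ≤ S) :
    0 ≤ (S + 2 : ℝ) * pP (S ^ 2 + 3 * S) (S ^ 2 + 3 * S) (S + 2) s
      - (3 * (S ^ 2 + 3 * S)) * ((S ^ 2 + 3 * S) - (S + 2) * s) * (s * (s + 1)) := by
  unfold pP
  rcases split_sS h2 hs hS with ⟨x, hx, e1, e2⟩ | ⟨p, y, hp, hy, e1, e2⟩
  · rw [e1, e2]
    have : 0 ≤ x ^ 4 + 22 * x ^ 3 + 167 * x ^ 2 + 494 * x + 408 := by positivity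
    linarith
  · rw [e1, e2]
    have : 0 ≤ 2 * p * y ^ 5 + 6 * p ^ 2 * y ^ 4 + 6 * p ^ 3 * y ^ 3 + 2 * p ^ 4 * y ^ 2
        + 42 * p * y ^ 4 + 80 * p ^ 2 * y ^ 3 + 46 * p ^ 3 * y ^ 2 + 5 * p ^ 4 * y + 3 * y ^ 5
        + 296 * p * y ^ 3 + 326 * p ^ 2 * y ^ 2 + 82 * p ^ 3 * y + 4 * p ^ 4 + 48 * y ^ 4
        + 836 * p * y ^ 2 + 437 * p ^ 2 * y + 48 * p ^ 3 + 267 * y ^ 3 + 866 * p * y
        + 184 * p ^ 2 + 600 * y ^ 2 + 244 * p + 474 * y + 48 := by positivity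
    linarith

lemma F3Ps {s S : ℕ} (h2 : 2 ≤ s) (hs : s ≤ S) (hS : 6 ≤ S) :
    0 ≤ (S + 2 : ℝ) * pP (S ^ 2 + S - 1) (S ^ 2 + S) (S + 2) s
      - (3 * (S ^ 2 + S - 1)) * ((S ^ 2 + S - 1) - (S + 2) * s) * (s * (s + 1)) := by
  unfold pP
  rcases split_sS h2 hs hS with ⟨x, hx, e1, e2⟩ | ⟨p, y, hp, hy, e1, e2⟩
  · rw [e1, e2]
    have : 0 ≤ 2 * x ^ 5 + 62 * x ^ 4 + 759 * x ^ 3 + 4577 * x ^ 2 + 13557 * x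
        + 15714 := by positivity
    linarith
  · rw [e1, e2]
    have : 0 ≤ 2 * p * y ^ 5 + 6 * p ^ 2 * y ^ 4 + 6 * p ^ 3 * y ^ 3 + 2 * p ^ 4 * y ^ 2
        + 34 * p * y ^ 4 + 62 * p ^ 2 * y ^ 3 + 36 * p ^ 3 * y ^ 2 + 7 * p ^ 4 * y + 2 * p ^ 5
        + 3 * y ^ 5 + 185 * p * y ^ 3 + 197 * p ^ 2 * y ^ 2 + 75 * p ^ 3 * y + 27 * p ^ 4
        + 36 * y ^ 4 + 403 * p * y ^ 2 + 277 * p ^ 2 * y + 132 * p ^ 3 + 148 * y ^ 3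
        + 407 * p * y + 277 * p ^ 2 + 252 * y ^ 2 + 218 * p + 193 * y + 22 := by positivity
    linarith

end Pool.Agent.P.MP_553766_co
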