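import Mathlib
import Pool.Agent.P.MP_553766_co.VPoly

set_option autoImplicit false

namespace Pool.Agent.P.MP_553766_co

lemma tangent {D d s : ℝ} (hD : 0 ≤ D) (hd : 0 < d) (hs : 0 ≤ s) (h : d * (d - 1) ≤ D) :
    D ^ 2 * d / (D + d) ^ 2 * (D - d * s) ≤ VL0 D d s := by
  have e1 : VL0 D d s - D ^ 2 * d / (D + d) ^ 2 * (D - d * s) =
      D ^ 2 * (D + d - d * (s + 1)) ^ 2 / ((s + 1) * (D + d) ^ 2)
        + D * (D - d * (d - 1)) / (D + d) := by
    unfold VL0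
    field_simp
    ring
  have e2 : 0 ≤ D ^ 2 * (D + d - d * (s + 1)) ^ 2 / ((s + 1) * (D + d) ^ 2) := by positivity
  have e3 : 0 ≤ D * (D - d * (d - 1)) / (D + d) :=
    div_nonneg (mul_nonneg hD (by linarith)) (by linarith)
  linarith

lemma good_of_psi (D S d l : ℕ) (L : ℝ) (hd : 1 ≤ d) (h : (d : ℝ) * (d - 1) ≤ D)
    (hpsi : ∀ s : ℕ, 2 ≤ s → s ≤ S → l * (S + 1) + s ≤ D → l + 1 ≤ d →
      (s : ℝ) * d ≤ L ∧ 0 ≤ (L - s * (s + 1)) * (D * (s - 1) - l * (s * (s + 1)))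
        + (d - 1) * (s + 1) * (L - s * d - (L - D) * s)) :
    Good D S d l L := by
  have hd0 : (0 : ℝ) < d := by exact_mod_cast hd
  refine ⟨D ^ 2 * d / (D + d) ^ 2, 0, by positivity, ?_, ?_⟩
  · intro s h1 h2 h3 h4
    obtain ⟨h5, h6⟩ := hpsi s h1 h2 h3 h4
    have hs : (2 : ℝ) ≤ s := by exact_mod_cast h1
    have h7 := tangent (D := D) (d := d) (s := s) (by positivity) hd0 (by positivity) h
    have h8 : VL0 D d s + l * (L - s * (s + 1)) ≤ V0 D L d s := by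
      refine V0_geP (by linarith) h5 ?_
      have e1 : VL0 D d s * (s * (s + 1)) = s * D ^ 2 - s * (s + 1) * (D * (d - 1)) := by
        unfold VL0; field_simp
      rw [add_mul, e1]
      linarith
    linarith
  · intro s _ _
    have h7 := tangent (D := D) (d := d) (s := s) (by positivity) hd0 (by positivity) h
    linarith

lemma nat_sq (q : ℕ) : (q : ℝ) ≤ q ^ 2 := by
  exact_mod_cast Nat.le_self_pow two_ne_zero q

lemma good_F1a (D S d l : ℕ) (hd : 1 ≤ d) (hD : S * (S + 1) ≤ D) (hdS : d ≤ S + 1) :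
    Good D S d l D := by
  have hD' : (S : ℝ) * (S + 1) ≤ D := by exact_mod_cast hD
  have hdS' : (d : ℝ) ≤ S + 1 := by exact_mod_cast hdS
  have hd' : (1 : ℝ) ≤ d := by exact_mod_cast hd
  refine good_of_psi D S d l D hd (by nlinarith) ?_
  intro s h1 h2 h3 h4
  have hs : (2 : ℝ) ≤ s := by exact_mod_cast h1
  have hsS : (s : ℝ) ≤ S := by exact_mod_cast h2
  have h5 : (s : ℝ) * d ≤ D := by nlinarith
  refine ⟨h5, ?_⟩
  obtain ⟨p, rfl⟩ := Nat.exists_eq_add_of_le h1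
  obtain ⟨q, rfl⟩ := Nat.exists_eq_add_of_le h2
  rcases Nat.lt_or_ge l (2 + p + q) with h6 | h6
  · have h7 : (l : ℝ) + 1 ≤ 2 + p + q := by exact_mod_cast h6
    push_cast at *
    have hq := nat_sq q
    have h8 : 0 ≤ (p : ℝ) * q ^ 2 + p ^ 2 * q + 2 * p * q := by positivity
    have h9 : (l : ℝ) * ((2 + p) * (2 + p + 1)) ≤ (1 + p + q) * ((2 + p) * (2 + p + 1)) :=
      mul_le_mul_of_nonneg_right (by linarith) (by positivity)
    have h10 : (2 + p + q : ℝ) * (2 + p + q + 1) * (1 + p) ≤ D * (1 + p) :=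
      mul_le_mul_of_nonneg_right hD' (by positivity)
    refine add_nonneg (mul_nonneg (by nlinarith) (by nlinarith))
      (mul_nonneg (mul_nonneg (by linarith) (by positivity)) (by linarith))
  · have h7 : l = 2 + p + q := by omega
    have h8 : d = 2 + p + q + 1 := by omega
    subst h7 h8
    obtain ⟨r, rfl⟩ := Nat.exists_eq_add_of_le h3
    push_cast
    have : 0 ≤ (p : ℝ) * q ^ 4 + 3 * p ^ 2 * q ^ 3 + 2 * p ^ 3 * q ^ 2 + 2 * p * q ^ 2 * r
        + 10 * p * q ^ 3 + 3 * p ^ 2 * q * r + 12 * p ^ 2 * q ^ 2 + 2 * p ^ 3 * q + q ^ 4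
        + 10 * p * q * r + 20 * p * q ^ 2 + p * r ^ 2 + 9 * p ^ 2 * q + 2 * p ^ 2 * r + p ^ 3
        + 2 * q ^ 2 * r + 7 * q ^ 3 + 11 * p * q + 6 * p * r + 5 * p ^ 2 + 7 * q * r + 8 * q ^ 2
        + r ^ 2 + 8 * p + 2 * q + 4 * r + 4 := by positivity
    linarith

lemma good_F1b (D S d l : ℕ) (hd : 1 ≤ d) (hD : D + 1 = S * (S + 1)) (hdS : d ≤ S) :
    Good D S d l (D + 1) := by
  have hD' : (D : ℝ) = S * (S + 1) - 1 := by
    have : (D : ℝ) + 1 = S * (S + 1) := by exact_mod_cast hD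
    linarith
  have hdS' : (d : ℝ) ≤ S := by exact_mod_cast hdS
  have hd' : (1 : ℝ) ≤ d := by exact_mod_cast hd
  refine good_of_psi D S d l (D + 1) hd (by nlinarith) ?_
  intro s h1 h2 h3 h4
  have hs : (2 : ℝ) ≤ s := by exact_mod_cast h1
  have hsS : (s : ℝ) ≤ S := by exact_mod_cast h2
  have h5 : (s : ℝ) * d + s ≤ D + 1 := by nlinarith
  refine ⟨by linarith, ?_⟩
  obtain ⟨p, rfl⟩ := Nat.exists_eq_add_of_le h1
  obtain ⟨q, rfl⟩ := Nat.exists_eq_add_of_le h2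
  rcases Nat.lt_or_ge (l + 1) (2 + p + q) with h6 | h6
  · have h7 : (l : ℝ) + 1 + 1 ≤ 2 + p + q := by exact_mod_cast h6
    push_cast at *
    have hq := nat_sq q
    have h8 : 0 ≤ (p : ℝ) * q ^ 2 + p ^ 2 * q + 2 * p * q + p ^ 2 + 4 * p := by positivity
    have h9 : (l : ℝ) * ((2 + p) * (2 + p + 1)) ≤ (p + q) * ((2 + p) * (2 + p + 1)) :=
      mul_le_mul_of_nonneg_right (by linarith) (by positivity)
    refine add_nonneg (mul_nonneg (by nlinarith) ?_)
      (mul_nonneg (mul_nonneg (by linarith) (by positivity)) (by linarith))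
    rw [hD']
    nlinarith
  · have h7 : (l : ℝ) = 1 + p + q := by
      have : l = 1 + p + q := by omega
      rw [this]; push_cast; ring
    have h8 : (d : ℝ) = 2 + p + q := by
      have : d = 2 + p + q := by omega
      rw [this]; push_cast; ring
    rw [h7, h8, hD']
    push_cast
    have : 0 ≤ (p : ℝ) * q ^ 4 + 3 * p ^ 2 * q ^ 3 + 2 * p ^ 3 * q ^ 2 + 10 * p * q ^ 3
        + 11 * p ^ 2 * q ^ 2 + p ^ 3 * q + q ^ 4 + 17 * p * q ^ 2 + 5 * p ^ 2 * q + 7 * q ^ 3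
        + 8 * p * q + 6 * q ^ 2 + 4 * q := by positivity
    linarith

lemma lin_int {a b r R : ℝ} (hr : 0 ≤ r) (hR : r ≤ R) (h0 : 0 ≤ a) (h1 : 0 ≤ a + b * R) :
    0 ≤ a + b * r := by
  rcases le_total 0 b with h | h
  · positivity
  · nlinarith

lemma quad_conc {a b c x1 x x2 : ℝ} (ha : a ≤ 0) (h1 : x1 ≤ x) (h2 : x ≤ x2)
    (g1 : 0 ≤ a * x1 ^ 2 + b * x1 + c) (g2 : 0 ≤ a * x2 ^ 2 + b * x2 + c) :
    0 ≤ a * x ^ 2 + b * x + c := by
  have h3 := lin_int (a := a * x1 ^ 2 + b * x1 + c) (b := b + a * (x1 + x2)) (r := x - x1)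
    (R := x2 - x1) (by linarith) (by linarith) g1 (by linarith)
  have h4 : 0 ≤ -a * ((x - x1) * (x2 - x)) :=
    mul_nonneg (by linarith) (mul_nonneg (by linarith) (by linarith))
  linarith

lemma quad_neg {a b c x1 x x2 : ℝ} (hc : c ≤ 0) (h0 : 0 < x1) (h1 : x1 ≤ x) (h2 : x ≤ x2)
    (g1 : 0 ≤ a * x1 ^ 2 + b * x1 + c) (g2 : 0 ≤ a * x2 ^ 2 + b * x2 + c) :
    0 ≤ a * x ^ 2 + b * x + c := by
  rcases le_total a 0 with ha | ha
  · exact quad_conc ha h1 h2 g1 g2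
  · have h3 : 0 ≤ a * x1 + b := by
      by_contra hn
      push Not at hn
      nlinarith [mul_pos h0 (neg_pos.2 hn)]
    have h4 : 0 ≤ (x - x1) * (a * x + (a * x1 + b)) :=
      mul_nonneg (by linarith) (add_nonneg (mul_nonneg ha (by linarith)) h3)
    linarith

lemma good_F2 (D S l : ℕ) (hS : 6 ≤ S) (hD : D + 1 = S * (S + 1))
    (hl : l * (S + 1) ≤ D) : Good D S (S + 1) l (D + 1) := by
  have hD' : (D : ℝ) = S ^ 2 + S - 1 := by
    have : (D : ℝ) + 1 = S * (S + 1) := by exact_mod_cast hD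
    linarith
  have hS' : (6 : ℝ) ≤ S := by exact_mod_cast hS
  have hl' : (l : ℝ) ≤ S - 1 := by
    have h1 : l < S := by
      by_contra hc
      push Not at hc
      have := Nat.mul_le_mul_right (S + 1) hc
      omega
    have : (l : ℝ) + 1 ≤ S := by exact_mod_cast h1
    linarith
  have hl0 : (0 : ℝ) ≤ l := by positivity
  have hS0 : (0 : ℝ) < S := by linarith
  have hη : (3 * S - 2) * (D : ℝ) / (S * (S + 1)) * ((S + 1 : ℕ) : ℝ) = (3 * S - 2) * D / S := by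
    push_cast; field_simp
  obtain ⟨x, hx, hxS⟩ : ∃ x : ℝ, 0 ≤ x ∧ (S : ℝ) = x + 6 := ⟨S - 6, by linarith, by ring⟩
  refine good_of_line D S (S + 1) l (D + 1) ((3 * S - 2) * D / (S * (S + 1))) (S - S ^ 2) (2 * S)
    (by omega) (div_nonneg (mul_nonneg (by linarith) (by positivity)) (by positivity)) ?_
    (fun s => sec_bound S s) ?_ ?_
  · intro s h1 h2
    have hs : (2 : ℝ) ≤ s := by exact_mod_cast h1
    have hsS : (s : ℝ) ≤ S := by exact_mod_cast h2
    refine V0_geP (by linarith) (by push_cast; nlinarith) ?_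
    have h3 := F2P h1 h2 hS
    unfold pP at h3
    rw [div_mul_eq_mul_div, div_mul_eq_mul_div, div_le_iff₀ (by positivity), hD']
    push_cast
    linarith
  · intro _
    rw [hη]
    have h1 : (D : ℝ) ≤ (3 * S - 2) * D / S - l * (2 * S) := by
      rw [le_sub_iff_add_le, le_div_iff₀ hS0, hD']
      nlinarith [mul_le_mul_of_nonneg_right hl' (show (0 : ℝ) ≤ 2 * S * S by positivity)]
    have h2 : (D : ℝ) ≤ (S + 2) * (S + 3) := by rw [hD']; nlinarith
    have h3 : (0 : ℝ) ≤ D := by positivity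
    nlinarith [mul_le_mul h1 h2 h3 (h3.trans h1)]
  · intro _
    rw [hη]
    have key : 0 ≤ S * ((S + 1 : ℝ) * (D ^ 2 - (S + 2) * (D * (S + 1 - 1)))) -
        (S + 2) * (((3 * S - 2) * D - S * (l * (2 * S))) * (D - (S + 1) * (S + 1))
        + S * ((S + 1 - l) * ((S + 1) * (D + 1 - (S - S ^ 2)) - 2 * S * D))) := by
      have h1 : 0 ≤ 2 * x ^ 5 + 68 * x ^ 4 + 915 * x ^ 3 + 6085 * x ^ 2 + 19981 * x + 25898 := by
        positivity
      have h2 : 0 ≤ 4 * x ^ 4 + 101 * x ^ 3 + 941 * x ^ 2 + 3829 * x + 5738 := by positivity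
      have h3 := lin_int (b := (S + 2 : ℝ) * (S * (2 * S) * (D - (S + 1) * (S + 1))
        + S * ((S + 1) * (D + 1 - (S - S ^ 2)) - 2 * S * D))) hl0 hl' h1
        (by rw [hD', hxS]; linarith)
      rw [hD', hxS] at h3 ⊢
      linarith
    have e1 : (3 * S - 2) * (D : ℝ) / S - l * (2 * S) =
        ((3 * S - 2) * D - S * (l * (2 * S))) / S := by field_simp
    rw [e1]
    push_cast
    refine le_of_mul_le_mul_left ?_ hS0
    have e2 : (S : ℝ) * ((S + 2) * (((3 * S - 2) * D - S * (l * (2 * S))) / S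
        * (D - (S + 1) * (S + 1)) + (S + 1 - l) * ((S + 1) * (D + 1 - (S - S ^ 2)) - 2 * S * D))) =
        (S + 2) * (((3 * S - 2) * D - S * (l * (2 * S))) * (D - (S + 1) * (S + 1))
        + S * ((S + 1 - l) * ((S + 1) * (D + 1 - (S - S ^ 2)) - 2 * S * D))) := by
      field_simp
    rw [e2]
    linarith

end Pool.Agent.P.MP_553766_co
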