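import Mathlib
import Pool.Agent.P.MP_553766_co.VF1

set_option autoImplicit false

namespace Pool.Agent.P.MP_553766_co

lemma good_F3_of (D S l : ℕ) (L : ℝ) (hl : l * (S + 1) ≤ D) (hD : D ≤ S * (S + 3))
    (hP : ∀ s : ℕ, 2 ≤ s → s ≤ S → 0 ≤ (S + 2 : ℝ) * pP D L (S + 2) s
      - 3 * D * (D - (S + 2) * s) * (s * (s + 1)))
    (hL : (S : ℝ) ^ 2 + S ≤ L)
    (hN : 0 ≤ (S + 2 : ℝ) * pN D L (S + 2) S - 3 * D * (D - (S + 2) * S) * (S + 1))
    (h4 : (S + 2 : ℝ) * ((3 * D - l * (2 * S)) * (D - (S + 2) * (S + 1))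
      + (S + 2 - l) * ((S + 2) * (L - (S - S ^ 2)) - 2 * S * D)) ≤
      (S + 2) * (D ^ 2 - (S + 2) * (D * (S + 2 - 1)))) :
    Good D S (S + 2) l L := by
  have hη : 3 * (D : ℝ) / (S + 2) * ((S + 2 : ℕ) : ℝ) = 3 * D := by
    push_cast; field_simp
  refine good_of_line D S (S + 2) l L (3 * D / (S + 2)) (S - S ^ 2) (2 * S)
    (by omega) (by positivity) ?_ (fun s => sec_bound S s) ?_ ?_
  · intro s h1 h2
    have hs : (2 : ℝ) ≤ s := by exact_mod_cast h1
    rcases le_total ((s : ℝ) * ((S + 2 : ℕ) : ℝ)) L with h | h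
    · refine V0_geP (by linarith) h ?_
      have h3 := hP s h1 h2
      unfold pP at h3
      rw [div_mul_eq_mul_div, div_mul_eq_mul_div, div_le_iff₀ (by positivity)]
      push_cast
      linarith
    · have h5 : s = S := by
        by_contra hc
        have h6 : (s : ℝ) + 1 ≤ S := by
          have : s + 1 ≤ S := by omega
          exact_mod_cast this
        push_cast at h
        nlinarith
      subst h5
      refine V0_geN (by linarith) h ?_
      unfold pN at hN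
      rw [div_mul_eq_mul_div, div_mul_eq_mul_div, div_le_iff₀ (by positivity)]
      push_cast
      linarith
  · intro _
    rw [hη]
    have h1 : (l : ℝ) * (S + 1) ≤ D := by exact_mod_cast hl
    have h2 : (D : ℝ) ≤ S * (S + 3) := by exact_mod_cast hD
    have h3 : (0 : ℝ) ≤ D := by positivity
    have h5 : (0 : ℝ) ≤ l := by positivity
    have h6 : (0 : ℝ) ≤ S := by positivity
    have h7 : (D : ℝ) ≤ 3 * D - l * (2 * S) := by nlinarith
    have h8 : (D : ℝ) ≤ (S + 2) * (S + 3) := by nlinarith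
    nlinarith [mul_le_mul h7 h8 h3 (h3.trans h7)]
  · intro _
    rw [hη]
    push_cast
    exact h4

lemma good_F3a (D S l : ℕ) (hS : 6 ≤ S) (hD1 : S * (S + 1) ≤ D) (hD2 : D ≤ S * (S + 3))
    (hl : l * (S + 1) ≤ D) : Good D S (S + 2) l D := by
  have hS' : (6 : ℝ) ≤ S := by exact_mod_cast hS
  have h1 : (S : ℝ) ^ 2 + S ≤ D := by
    have : (S : ℝ) * (S + 1) ≤ D := by exact_mod_cast hD1
    linarith
  have h2 : (D : ℝ) ≤ S ^ 2 + 3 * S := by
    have : (D : ℝ) ≤ S * (S + 3) := by exact_mod_cast hD2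
    linarith
  have hl0 : (0 : ℝ) ≤ l := by positivity
  obtain ⟨x, hx, hxS⟩ : ∃ x : ℝ, 0 ≤ x ∧ (S : ℝ) = x + 6 := ⟨S - 6, by linarith, by ring⟩
  refine good_F3_of D S l D hl hD2 ?_ h1 ?_ ?_
  · intro s h3 h4
    have hs : (2 : ℝ) ≤ s := by exact_mod_cast h3
    have g1 := F3P1 h3 h4 hS
    have g2 := F3P2 h3 h4 hS
    unfold pP at *
    have h5 := quad_neg (a := (S + 2 : ℝ) * (3 * s - (s + 1)) - 3 * (s * (s + 1)))
      (b := (S + 2 : ℝ) * (-(s * (s + 1)) * (2 * (S + 1) + s) + (s + 1) * (s * (S + 2) + (S + 1)))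
        + 3 * (S + 2) * s * (s * (s + 1)))
      (c := -((S + 2 : ℝ) * ((s + 1) * (S + 1) * (s * (S + 2)))))
      (x1 := S ^ 2 + S) (x := D) (x2 := S ^ 2 + 3 * S) (neg_nonpos.2 (by positivity))
      (by positivity) h1 h2 (by linarith) (by linarith)
    linarith
  · obtain ⟨r, hr, hrD⟩ : ∃ r : ℝ, 0 ≤ r ∧ (D : ℝ) = S ^ 2 + S + r :=
      ⟨D - (S ^ 2 + S), by linarith, by ring⟩
    unfold pN
    rw [hrD, hxS]
    have : 0 ≤ x ^ 4 + 4 * r * x ^ 2 + 22 * x ^ 3 + 48 * r * x + 3 * r ^ 2 + 173 * x ^ 2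
      + 140 * r + 560 * x + 588 := by positivity
    linarith
  · have p1 : 0 ≤ 2 * x ^ 4 + 56 * x ^ 3 + 588 * x ^ 2 + 2744 * x + 4800 := by positivity
    have p2 : 0 ≤ 4 * x ^ 2 + 56 * x + 192 := by positivity
    have p3 : 0 ≤ x ^ 3 + 23 * x ^ 2 + 174 * x + 432 := by positivity
    have ha : -(2 * (S : ℝ) + 4) ≤ 0 := by linarith
    rcases Nat.lt_or_ge S l with h | h
    · have h5 : l = S + 1 := by
        by_contra hc
        have h6 : S + 2 ≤ l := by omega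
        have := Nat.mul_le_mul_right (S + 1) h6
        nlinarith
      have h6 : (S : ℝ) ^ 2 + 2 * S + 1 ≤ D := by
        rw [h5] at hl
        have : ((S : ℝ) + 1) * (S + 1) ≤ D := by exact_mod_cast hl
        linarith
      have h7 : (l : ℝ) = S + 1 := by rw [h5]; push_cast; ring
      have h8 := quad_conc (b := (S : ℝ) ^ 2 * (S + 1) + 3 * S ^ 3 + 4 * S * (S + 1) + 12 * S ^ 2
          + 12 * S + 4 * (S + 1))
        (c := -(S : ℝ) ^ 4 * (S + 1) - S ^ 5 - 7 * S ^ 3 * (S + 1) - 5 * S ^ 4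
          - 16 * S ^ 2 * (S + 1) - 6 * S ^ 3 - 12 * S * (S + 1) + 4 * S ^ 2 + 8 * S)
        ha h6 h2 (by rw [hxS]; linarith) (by rw [hxS]; linarith)
      rw [h7]
      linarith
    · have h7 : (l : ℝ) ≤ S := by exact_mod_cast h
      have h8 := quad_conc (b := 3 * (S : ℝ) ^ 3 + 12 * S ^ 2 + 12 * S)
        (c := -(S : ℝ) ^ 5 - 5 * S ^ 4 - 6 * S ^ 3 + 4 * S ^ 2 + 8 * S)
        ha h1 h2 (by rw [hxS]; linarith) (by rw [hxS]; linarith)
      have h9 := quad_conc (b := (S : ℝ) ^ 2 * S + 3 * S ^ 3 + 4 * S * S + 12 * S ^ 2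
          + 12 * S + 4 * S)
        (c := -(S : ℝ) ^ 4 * S - S ^ 5 - 7 * S ^ 3 * S - 5 * S ^ 4
          - 16 * S ^ 2 * S - 6 * S ^ 3 - 12 * S * S + 4 * S ^ 2 + 8 * S)
        ha h1 h2 (by rw [hxS]; linarith) (by rw [hxS]; linarith)
      have h10 := lin_int (b := -(S : ℝ) ^ 4 + D * S ^ 2 - 7 * S ^ 3 + 4 * D * S - 16 * S ^ 2
        + 4 * D - 12 * S) hl0 h7 h8 (by linarith)
      linarith

lemma good_F3b (D S l : ℕ) (hS : 6 ≤ S) (hD : D + 1 = S * (S + 1))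
    (hl : l * (S + 1) ≤ D) : Good D S (S + 2) l (D + 1) := by
  have hD' : (D : ℝ) = S ^ 2 + S - 1 := by
    have : (D : ℝ) + 1 = S * (S + 1) := by exact_mod_cast hD
    linarith
  have hS' : (6 : ℝ) ≤ S := by exact_mod_cast hS
  have hl' : (l : ℝ) ≤ S - 1 := by
    have h1 : l < S := by
      by_contra hc
      push Not at hc
      have := Nat.mul_le_mul_right (S + 1) hc
      omega
    have : (l : ℝ) + 1 ≤ S := by exact_mod_cast h1
    linarith
  have hl0 : (0 : ℝ) ≤ l := by positivity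
  obtain ⟨x, hx, hxS⟩ : ∃ x : ℝ, 0 ≤ x ∧ (S : ℝ) = x + 6 := ⟨S - 6, by linarith, by ring⟩
  refine good_F3_of D S l (D + 1) hl (by nlinarith) ?_ (by linarith) ?_ ?_
  · intro s h3 h4
    have g1 := F3Ps h3 h4 hS
    rw [hD', show (S : ℝ) ^ 2 + S - 1 + 1 = S ^ 2 + S by ring]
    linarith
  · unfold pN
    rw [hD', hxS]
    have : 0 ≤ x ^ 4 + 23 * x ^ 3 + 189 * x ^ 2 + 641 * x + 715 := by positivity
    linarith
  · have p1 : 0 ≤ 2 * x ^ 4 + 56 * x ^ 3 + 582 * x ^ 2 + 2654 * x + 4464 := by positivity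
    have p2 : 0 ≤ 2 * x ^ 3 + 42 * x ^ 2 + 286 * x + 624 := by positivity
    have h3 := lin_int (b := (S + 2 : ℝ) * (2 * S * (D - (S + 2) * (S + 1))
        + ((S + 2) * (D + 1 - (S - S ^ 2)) - 2 * S * D))) hl0 hl' p1
        (by rw [hD', hxS]; linarith)
    rw [hD', hxS] at h3 ⊢
    linarith

end Pool.Agent.P.MP_553766_co
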