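import Mathlib
import Pool.Agent.P.MP_553766_co.VF3

set_option autoImplicit false

namespace Pool.Agent.P.MP_553766_co

/-- coefficient of d in the penalised case -/
def cA (s u : ℝ) : ℝ :=
  24 * u * s * u - 8 * (u - 1) * (s + 1) * u - 8 * s * (s + 1) * u - 8 * s * (s + 1)
    - 9 * (u - s) * s * (s + 1)

/-- constant term in the penalised case -/
def cC (s u : ℝ) : ℝ :=
  8 * (2 - s) * s * (s + 1) * u - 8 * (u - s) * (s + 1) - 15 * (u - s) * s * (s + 1) * u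

lemma G_ge {d u s : ℝ} (hdu : u + 3 ≤ d) (hD : 41 ≤ d * u) (hsu : s ≤ u)
    (hs : s = 3 ∨ 4 ≤ s) : 8 * (s - 1) ≤ d * cA s u + cC s u := by
  have hs3 : 3 ≤ s := by rcases hs with h | h <;> linarith
  have hA : 0 ≤ cA s u := by
    obtain ⟨p, hp, rfl⟩ : ∃ p, 0 ≤ p ∧ s = p + 3 := ⟨s - 3, by linarith, by ring⟩
    obtain ⟨q, hq, rfl⟩ : ∃ q, 0 ≤ q ∧ u = p + q + 3 := ⟨u - p - 3, by linarith, by ring⟩
    have : 0 ≤ 16 * p * q ^ 2 + 15 * p ^ 2 * q + 8 * p ^ 3 + 65 * p * q + 56 * p ^ 2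
      + 40 * q ^ 2 + 120 * p + 68 * q + 72 := by positivity
    unfold cA; linarith
  have h1 : (u + 3) * cA s u ≤ d * cA s u := mul_le_mul_of_nonneg_right hdu hA
  rcases hs with rfl | h
  · rcases le_total 4 u with h4 | h4
    · obtain ⟨q, hq, rfl⟩ : ∃ q, 0 ≤ q ∧ u = q + 4 := ⟨u - 4, by linarith, by ring⟩
      have : 0 ≤ 40 * q ^ 3 + 248 * q ^ 2 + 188 * q + 108 := by positivity
      unfold cA cC at *; linarith
    · have h2 : 41 * cA 3 u ≤ d * u * cA 3 u := mul_le_mul_of_nonneg_right hD hA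
      have hu0 : 0 < u := by linarith
      refine le_of_mul_le_mul_left ?_ hu0
      obtain ⟨q, hq, rfl⟩ : ∃ q, 0 ≤ q ∧ u = q + 3 := ⟨u - 3, by linarith, by ring⟩
      have h3 : 0 ≤ q ^ 2 * (1 - q) := mul_nonneg (by positivity) (by linarith)
      have : 0 ≤ 252 * q ^ 2 + 480 * q + 2040 := by positivity
      unfold cA cC at *; linarith
  · obtain ⟨p, hp, rfl⟩ : ∃ p, 0 ≤ p ∧ s = p + 4 := ⟨s - 4, by linarith, by ring⟩
    obtain ⟨q, hq, rfl⟩ : ∃ q, 0 ≤ q ∧ u = p + q + 4 := ⟨u - p - 4, by linarith, by ring⟩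
    have : 0 ≤ 16 * p * q ^ 3 + p ^ 2 * (4 * q - 1) ^ 2 + 5 * p ^ 2 * q + 159 * p ^ 2
      + p * (8 * q - 6) ^ 2 + 64 * p * q ^ 2 + 13 * p * q + 468 * p + 16 * p ^ 3 + 56 * q ^ 3
      + (15 * q - 9) ^ 2 + 15 * q ^ 2 + 2 * q + 407 := by positivity
    unfold cA cC at *; linarith

lemma F4P {d u s e : ℝ} (he0 : 0 ≤ e) (he1 : e ≤ 1) (hu : 2 ≤ u) (hdu : u + 3 ≤ d)
    (hD : 41 ≤ d * u) (hsu : s ≤ u) (hs : (s = 2 ∧ e ≤ d * (u - 2)) ∨ s = 3 ∨ 4 ≤ s) :
    (9 * d ^ 2 + 15 * (d * u)) * (d * u - d * s) * (s * (s + 1)) ≤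
      8 * d * pP (d * u) (d * u + e) d s := by
  have hid : 8 * d * pP (d * u) (d * u + e) d s -
      (9 * d ^ 2 + 15 * (d * u)) * (d * u - d * s) * (s * (s + 1)) =
      d ^ 2 * (d * cA s u + cC s u) + 8 * e * d * (s - 1) * (d * u - (s + 1) * (d - 1)) := by
    unfold pP cA cC; ring
  have hd0 : 0 < d := by linarith
  have hs2 : 2 ≤ s := by rcases hs with h | h | h <;> linarith [h]
  have h1 : -d ≤ d * u - (s + 1) * (d - 1) := by nlinarith
  have h2 : 8 * e * d * (s - 1) * (-d) ≤ 8 * e * d * (s - 1) * (d * u - (s + 1) * (d - 1)) :=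
    mul_le_mul_of_nonneg_left h1 (mul_nonneg (by positivity) (by linarith))
  have h3 : 8 * e * (s - 1) ≤ d * cA s u + cC s u := by
    rcases hs with ⟨rfl, h⟩ | h
    · have h4 : 12 + 45 * u ≤ d * (12 * u - 19) := by
        rcases le_total 4 u with h4 | h4
        · nlinarith
        · have hu0 : 0 < u := by linarith
          refine le_of_mul_le_mul_left ?_ hu0
          nlinarith [mul_le_mul_of_nonneg_right hD (show 0 ≤ 12 * u - 19 by linarith),
            mul_nonneg (sub_nonneg.2 hu) (sub_nonneg.2 h4)]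
      have h5 : 0 ≤ (u - 2) * (d * (12 * u - 19) - (12 + 45 * u)) :=
        mul_nonneg (by linarith) (by linarith)
      unfold cA cC; linarith
    · have := G_ge hdu hD hsu h
      nlinarith
  nlinarith [mul_le_mul_of_nonneg_left h3 (sq_nonneg d)]

lemma F4N {d u s e : ℝ} (he0 : 0 ≤ e) (he1 : e ≤ 1) (hu : 2 ≤ u) (hs : 3 ≤ s) (hsu : u ≤ s)
    (hds : s + 3 ≤ d) (hD : 41 ≤ d * u) :
    (9 * d ^ 2 + 15 * (d * u)) * (d * u - d * s) * (s + 1) ≤
      8 * d * pN (d * u) (d * u + e) d s := by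
  have hid : 8 * d * pN (d * u) (d * u + e) d s -
      (9 * d ^ 2 + 15 * (d * u)) * (d * u - d * s) * (s + 1) =
      d ^ 2 * (d * (24 * u * u - 16 * u * (s + 1) + 9 * (s - u) * (s + 1))
        + u * (s + 1) * (16 + 7 * s - 15 * u)) + 8 * d * e * (2 * (d * u) - (s + 1) * (d - 1)) := by
    unfold pN; ring
  have hd0 : 0 < d := by linarith
  have h1 : -((s + 1) * d) ≤ 2 * (d * u) - (s + 1) * (d - 1) := by nlinarith
  have h2 : 8 * d * e * (-((s + 1) * d)) ≤ 8 * d * e * (2 * (d * u) - (s + 1) * (d - 1)) :=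
    mul_le_mul_of_nonneg_left h1 (by positivity)
  have h3 : 8 * e * (s + 1) ≤ 4 * u * (s + 1) :=
    mul_le_mul_of_nonneg_right (by linarith) (by linarith)
  have h4 : 4 * u * (s + 1) ≤ d * (24 * u * u - 16 * u * (s + 1) + 9 * (s - u) * (s + 1))
      + u * (s + 1) * (16 + 7 * s - 15 * u) := by
    rcases le_total 3 u with h | h
    · obtain ⟨p, hp, rfl⟩ : ∃ p, 0 ≤ p ∧ u = p + 3 := ⟨u - 3, by linarith, by ring⟩
      obtain ⟨q, hq, rfl⟩ : ∃ q, 0 ≤ q ∧ s = p + q + 3 := ⟨s - p - 3, by linarith, by ring⟩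
      have a1 : 0 ≤ (2 * p - 2 * q) ^ 2 + 4 * p ^ 2 + p * q + (2 * q - 3) ^ 2 + q ^ 2 + 15
        + 32 * p := by positivity
      have a2 : 0 ≤ 9 * p * (q - 1) ^ 2 + 9 * p * q + 27 * p + 9 * q ^ 3 + 12 * p ^ 2
        + 63 * q ^ 2 := by positivity
      have a3 := mul_le_mul_of_nonneg_right hds (show 0 ≤ 24 * (p + 3) * (p + 3)
        - 16 * (p + 3) * (p + q + 3 + 1) + 9 * (p + q + 3 - (p + 3)) * (p + q + 3 + 1) by linarith)
      linarith
    · have h13 : 13 ≤ d := by nlinarith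
      obtain ⟨p, hp, rfl⟩ : ∃ p, 0 ≤ p ∧ u = p + 2 := ⟨u - 2, by linarith, by ring⟩
      obtain ⟨q, hq, rfl⟩ : ∃ q, 0 ≤ q ∧ s = q + 3 := ⟨s - 3, by linarith, by ring⟩
      have hp1 : 0 ≤ 1 - p := by linarith
      have a1 : 0 ≤ (18 * q - 25 * p) ^ 2 + (15 * p - 5) ^ 2 + 14 * p ^ 2 + 6 * p + 119
        + 468 * q := by positivity
      have a2 : 0 ≤ 7 * p * q ^ 2 + 15 * p * q * (1 - p) + 231 * q * (1 - p) + 54 * (q - p) ^ 2
        + 77 * q ^ 2 + (14 * p - 6) ^ 2 + 2 * p ^ 2 + 8 * p + 40 := by positivity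
      have a3 := mul_le_mul_of_nonneg_right h13 (show 0 ≤ 24 * (p + 2) * (p + 2)
        - 16 * (p + 2) * (q + 3 + 1) + 9 * (q + 3 - (p + 2)) * (q + 3 + 1) by linarith)
      linarith
  nlinarith [mul_le_mul_of_nonneg_left (h3.trans h4) (sq_nonneg d)]

lemma F4L {d u c l e : ℝ} (hd : 0 < d) (hu : 2 ≤ u) (hc : 2 ≤ c) (hl0 : 0 ≤ l)
    (hl : l * (u + c - 1) ≤ d * u)
    (he : (e = 0 ∧ d * u ≤ (u + c) ^ 2 - (u + c) - 2) ∨
      (e = 1 ∧ d * u = (u + c) ^ 2 - 3 * (u + c) + 1)) :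
    (u + c) * (((9 * d ^ 2 + 15 * (d * u)) / 8 - l * (2 * u + 1)) * (d * u - d * (u + c - 1))
      + (d - l) * (d * (d * u + e - -u ^ 2) - (2 * u + 1) * (d * u))) ≤
      d * ((d * u) ^ 2 - (u + c) * (d * u * (d - 1))) := by
  obtain ⟨br, hbr⟩ : ∃ br, br = 8 * u * u - 16 * u * (u + c) + 9 * (c - 1) * (u + c) := ⟨_, rfl⟩
  obtain ⟨K0, hK0⟩ : ∃ K0, K0 = u * u * (u + c) * (16 + 8 * u + 15 * (c - 1))
    - 8 * e * u * (u + c) := ⟨_, rfl⟩
  obtain ⟨Dv, hDv⟩ : ∃ Dv, Dv = d * u := ⟨_, rfl⟩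
  have hDv0 : 0 ≤ Dv := by rw [hDv]; positivity
  have he0 : 0 ≤ e := by rcases he with h | h <;> linarith [h.1]
  have hJ : 0 ≤ Dv * br + K0 ∧ 0 ≤ (u + c - 1) * (Dv * br + K0)
      + 8 * u * u * (u + c) * (Dv - u * (u + 1) - (2 * u + 1) * (c - 1)) := by
    rw [← hDv] at he
    obtain ⟨p, hp, rfl⟩ : ∃ p, 0 ≤ p ∧ u = p + 2 := ⟨u - 2, by linarith, by ring⟩
    obtain ⟨q, hq, rfl⟩ : ∃ q, 0 ≤ q ∧ c = q + 2 := ⟨c - 2, by linarith, by ring⟩
    rcases he with ⟨rfl, h⟩ | ⟨rfl, h⟩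
    · have a1 : 0 ≤ 15 * p ^ 2 * q ^ 2 + 23 * p ^ 3 * q + 8 * p ^ 4 + 60 * p * q ^ 2
        + 199 * p ^ 2 * q + 111 * p ^ 3 + 520 * p * q + 536 * p ^ 2 + 60 * q ^ 2 + 1068 * p
        + 428 * q + 752 := by positivity
      have a2 : 0 ≤ 15 * p ^ 2 * q ^ 3 + 22 * p ^ 3 * q ^ 2 + 7 * p ^ 4 * q + 60 * p * q ^ 3
        + 200 * p ^ 2 * q ^ 2 + 123 * p ^ 3 * q + 15 * p ^ 4 + 536 * p * q ^ 2 + 669 * p ^ 2 * q
        + 173 * p ^ 3 + 60 * q ^ 3 + 1424 * p * q + 724 * p ^ 2 + 448 * q ^ 2 + 1300 * p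
        + 1044 * q + 848 := by positivity
      have a3 : 0 ≤ 11 * p * q ^ 3 + 2 * p ^ 2 * (q - 1) ^ 2 + 9 * q ^ 4 + 45 * p * q ^ 2
        + p ^ 2 * q + 76 * q ^ 3 + 36 * p * q + 9 * p ^ 2 + 181 * q ^ 2 + 98 * p + 138 * q
        + 152 := by positivity
      have a4 : 0 ≤ 20 * p * q ^ 4 + 21 * p ^ 2 * q ^ 3 + 10 * p ^ 3 * q ^ 2 + 9 * q ^ 5
        + 186 * p * q ^ 3 + 128 * p ^ 2 * q ^ 2 + 13 * p ^ 3 * q + 103 * q ^ 4 + 576 * p * q ^ 2
        + 158 * p ^ 2 * q + 3 * p ^ 3 + 441 * q ^ 3 + 632 * p * q + 67 * p ^ 2 + 873 * q ^ 2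
        + 286 * p + 790 * q + 328 := by positivity
      constructor
      · have := lin_int (a := K0) (b := br) hDv0 h (by rw [hK0]; linarith)
          (by rw [hK0, hbr]; linarith)
        linarith
      · have := lin_int (a := (p + 2 + (q + 2) - 1) * K0 - 8 * (p + 2) * (p + 2)
            * (p + 2 + (q + 2)) * ((p + 2) * (p + 2 + 1) + (2 * (p + 2) + 1) * (q + 2 - 1)))
          (b := (p + 2 + (q + 2) - 1) * br + 8 * (p + 2) * (p + 2) * (p + 2 + (q + 2))) hDv0 h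
          (by rw [hK0]; linarith) (by rw [hK0, hbr]; linarith)
        linarith
    · have a3 : 0 ≤ 11 * p * q ^ 3 + 2 * p ^ 2 * q ^ 2 + 9 * q ^ 4 + 41 * p * q ^ 2
        + 27 * p ^ 2 * q + 16 * p ^ 3 + 58 * q ^ 3 + 147 * p * q + 153 * p ^ 2 + 110 * q ^ 2
        + 445 * p + 177 * q + 388 := by positivity
      have a4 : 0 ≤ 20 * p * q ^ 4 + 21 * p ^ 2 * q ^ 3 + 10 * p ^ 3 * q ^ 2 + 9 * q ^ 5
        + 164 * p * q ^ 3 + 138 * p ^ 2 * q ^ 2 + 27 * p ^ 3 * q + 85 * q ^ 4 + 540 * p * q ^ 2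
        + 269 * p ^ 2 * q + 25 * p ^ 3 + 316 * q ^ 3 + 807 * p * q + 200 * p ^ 2 + 635 * q ^ 2
        + 507 * p + 727 * q + 396 := by positivity
      rw [h, hK0, hbr]
      constructor <;> linarith
  have hid : u * u * (8 * (d * ((d * u) ^ 2 - (u + c) * (d * u * (d - 1))) -
      (u + c) * (((9 * d ^ 2 + 15 * (d * u)) / 8 - l * (2 * u + 1)) * (d * u - d * (u + c - 1))
      + (d - l) * (d * (d * u + e - -u ^ 2) - (2 * u + 1) * (d * u))))) =
      d * ((Dv - l * (u + c - 1)) * (Dv * br + K0) + l * ((u + c - 1) * (Dv * br + K0)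
        + 8 * u * u * (u + c) * (Dv - u * (u + 1) - (2 * u + 1) * (c - 1)))
        + 8 * e * u * u * (u + c) * l) := by
    rw [hDv, hbr, hK0]; ring
  have hu0 : 0 < u := by linarith
  have hc0 : 0 < c := by linarith
  have h1 : 0 ≤ d * ((Dv - l * (u + c - 1)) * (Dv * br + K0) + l * ((u + c - 1) * (Dv * br + K0)
        + 8 * u * u * (u + c) * (Dv - u * (u + 1) - (2 * u + 1) * (c - 1)))
        + 8 * e * u * u * (u + c) * l) :=
    mul_nonneg hd.le (add_nonneg (add_nonneg (mul_nonneg (by linarith) hJ.1)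
      (mul_nonneg hl0 hJ.2)) (by positivity))
  rw [← hid] at h1
  have h2 := le_of_mul_le_mul_left (a := u * u) (b := 0) (by simpa using h1) (by positivity)
  linarith

lemma good_F4 (D S d l e : ℕ) (hS : 6 ≤ S) (hd : S + 3 ≤ d) (h2d : 2 * d ≤ D)
    (hl : l * (S + 1) ≤ D)
    (he : (e = 0 ∧ S * (S + 1) ≤ D ∧ D ≤ S * (S + 3)) ∨ (e = 1 ∧ D + 1 = S * (S + 1))) :
    Good D S d l (D + e) := by
  have hS' : (6 : ℝ) ≤ S := by exact_mod_cast hS
  have hd' : (S : ℝ) + 3 ≤ d := by exact_mod_cast hd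
  have h2d' : 2 * (d : ℝ) ≤ D := by exact_mod_cast h2d
  have hl' : (l : ℝ) * (S + 1) ≤ D := by exact_mod_cast hl
  have hd0 : (0 : ℝ) < d := by linarith
  have hDN : D ≤ S * (S + 3) ∧ 41 ≤ D := by
    rcases he with h | h <;> constructor <;> nlinarith [h.2]
  have hD2 : (D : ℝ) ≤ S * (S + 3) := by exact_mod_cast hDN.1
  have hD41 : (41 : ℝ) ≤ D := by exact_mod_cast hDN.2
  have he1 : (e : ℝ) ≤ 1 := by
    rcases he with h | h <;> rw [h.1] <;> norm_num
  have he2 : e + 2 * d ≤ D := by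
    rcases he with h | h
    · omega
    · have h3 : Even (S * (S + 1)) := Nat.even_mul_succ_self S
      obtain ⟨c, hc⟩ := h3
      omega
  obtain ⟨u, hu⟩ : ∃ u : ℝ, (D : ℝ) = d * u := ⟨D / d, by field_simp⟩
  have hu2 : 2 ≤ u := by
    by_contra hc
    push Not at hc
    nlinarith
  have huS : u ≤ S := by
    by_contra hc
    push Not at hc
    nlinarith
  have hη : (9 * (d : ℝ) ^ 2 + 15 * D) / (8 * d) * d = (9 * d ^ 2 + 15 * D) / 8 := by
    field_simp
  refine good_of_line D S d l (D + e) ((9 * d ^ 2 + 15 * D) / (8 * d)) (-u ^ 2) (2 * u + 1)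
    (by omega) (by positivity) ?_ (fun s => by nlinarith [sq_nonneg ((s : ℝ) - u)]) ?_ ?_
  · intro s h1 h2
    have hs : (2 : ℝ) ≤ s := by exact_mod_cast h1
    have hsS : (s : ℝ) ≤ S := by exact_mod_cast h2
    rcases Nat.lt_or_ge D (s * d) with h | h
    · have h3 : (D : ℝ) + 1 ≤ s * d := by exact_mod_cast h
      have h4 : 3 ≤ s := by
        by_contra hc
        have : s = 2 := by omega
        subst this
        omega
      have h5 : (3 : ℝ) ≤ s := by exact_mod_cast h4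
      have h6 : u ≤ s := by
        by_contra hc
        push Not at hc
        nlinarith
      refine V0_geN (by linarith) (by linarith) ?_
      have h7 := F4N (e := e) (by positivity) he1 hu2 h5 h6 (show (s : ℝ) + 3 ≤ d by linarith)
        (by linarith)
      unfold pN at h7
      rw [div_mul_eq_mul_div, div_mul_eq_mul_div, div_le_iff₀ (by positivity), hu]
      linarith
    · have h3 : (s : ℝ) * d ≤ D := by exact_mod_cast h
      have h6 : (s : ℝ) ≤ u := by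
        by_contra hc
        push Not at hc
        nlinarith
      have he0 : (0 : ℝ) ≤ e := by positivity
      refine V0_geP (by linarith) (by linarith) ?_
      have h7 := F4P (s := s) he0 he1 hu2 (show u + 3 ≤ d by linarith) (by linarith) h6 (by
        rcases Nat.lt_or_ge s 4 with h8 | h8
        · rcases Nat.lt_or_ge s 3 with h9 | h9
          · left
            have : s = 2 := by omega
            have h10 : (e : ℝ) + 2 * d ≤ D := by exact_mod_cast he2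
            exact ⟨by rw [this]; norm_num, by linarith⟩
          · right; left
            have : s = 3 := by omega
            rw [this]; norm_num
        · right; right; exact_mod_cast h8)
      unfold pP at h7
      rw [div_mul_eq_mul_div, div_mul_eq_mul_div, div_le_iff₀ (by positivity), hu]
      linarith
  · intro _
    rw [hη]
    have h3 : (0 : ℝ) ≤ D := by positivity
    have h5 : (0 : ℝ) ≤ l := by positivity
    have h6 : (D : ℝ) ≤ d ^ 2 := by nlinarith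
    have h7 : (D : ℝ) ≤ (9 * d ^ 2 + 15 * D) / 8 - l * (2 * u + 1) := by nlinarith
    have h8 : (D : ℝ) ≤ (S + 2) * (S + 3) := by nlinarith
    nlinarith [mul_le_mul h7 h8 h3 (h3.trans h7)]
  · intro _
    rw [hη]
    have h7 := F4L (d := d) (u := u) (c := S + 2 - u) (l := l) (e := e) hd0 hu2 (by linarith)
      (by positivity) (by linarith) (by
        rcases he with h | h
        · left
          exact ⟨by rw [h.1]; norm_num, by linarith⟩
        · right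
          have : (D : ℝ) + 1 = S * (S + 1) := by exact_mod_cast h.2
          exact ⟨by rw [h.1]; norm_num, by linarith⟩)
    rw [hu]
    linarith

end Pool.Agent.P.MP_553766_co
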