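import Mathlib
import Pool.Agent.P.MP_553766_co.VF4

set_option autoImplicit false

namespace Pool.Agent.P.MP_553766_co

/-- six times the slope used for small parameters -/
def tb : List (List ℕ) :=
  [[],
   [],
   [],
   [],
   [],
   [],
   [],
   [],
   [],
   [0, 0, 0, 0, 32],
   [0, 0, 0, 0, 39],
   [0, 0, 0, 0, 35, 44],
   [0, 0, 0, 0, 0, 48, 48],
   [0, 0, 0, 0, 0, 49, 51],
   [0, 0, 0, 0, 0, 42, 53, 54],
   [0, 0, 0, 0, 0, 44, 53, 57],
   [0, 0, 0, 0, 0, 50, 54, 58, 60],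
   [0, 0, 0, 0, 0, 53, 61, 58, 62],
   [0, 0, 0, 0, 0, 58, 62, 65, 63, 66],
   [0, 0, 0, 0, 0, 47, 57, 58, 60, 67],
   [0, 0, 0, 0, 0, 0, 60, 60, 60, 69, 72],
   [0, 0, 0, 0, 0, 0, 59, 62, 62, 69, 74],
   [0, 0, 0, 0, 0, 0, 54, 62, 64, 66, 75, 78],
   [0, 0, 0, 0, 0, 0, 57, 61, 65, 66, 74, 80],
   [0, 0, 0, 0, 0, 0, 64, 63, 65, 68, 72, 80, 84],
   [0, 0, 0, 0, 0, 0, 66, 68, 68, 70, 70, 80, 86],
   [0, 0, 0, 0, 0, 0, 68, 73, 72, 75, 73, 78, 86, 90],
   [0, 0, 0, 0, 0, 0, 73, 80, 77, 76, 77, 76, 86, 92],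
   [0, 0, 0, 0, 0, 0, 76, 80, 83, 81, 82, 80, 84, 92, 96],
   [0, 0, 0, 0, 0, 0, 60, 69, 70, 71, 72, 76, 79, 90, 97],
   [0, 0, 0, 0, 0, 0, 0, 72, 72, 72, 72, 78, 80, 90, 98, 102],
   [0, 0, 0, 0, 0, 0, 0, 70, 73, 74, 74, 78, 81, 88, 98, 103],
   [0, 0, 0, 0, 0, 0, 0, 69, 72, 74, 75, 77, 82, 85, 96, 104, 108],
   [0, 0, 0, 0, 0, 0, 0, 71, 74, 75, 76, 77, 82, 86, 94, 104, 109],
   [0, 0, 0, 0, 0, 0, 0, 75, 76, 78, 77, 78, 82, 87, 90, 102, 110, 114],
   [0, 0, 0, 0, 0, 0, 0, 82, 79, 82, 81, 80, 82, 87, 90, 100, 110, 115],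
   [0, 0, 0, 0, 0, 0, 0, 83, 82, 83, 85, 83, 83, 87, 91, 96, 108, 116, 120],
   [0, 0, 0, 0, 0, 0, 0, 85, 87, 87, 89, 87, 86, 87, 92, 95, 106, 115, 121],
   [0, 0, 0, 0, 0, 0, 0, 90, 93, 91, 93, 91, 89, 91, 92, 96, 103, 114, 122, 126],
   [0, 0, 0, 0, 0, 0, 0, 92, 100, 96, 98, 95, 93, 92, 93, 96, 100, 113, 121, 127],
   [0, 0, 0, 0, 0, 0, 0, 95, 99, 101, 99, 99, 97, 95, 96, 96, 100, 110, 120, 128, 132]]

/-- table lookup -/
def tbl (D d : ℕ) : ℕ := (tb.getD D []).getD d 0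

/-- check for the small edges -/
def c1 (D L d s n : ℤ) : Prop :=
  (s * d ≤ L → n * (D - d * s) * (s * (s + 1)) ≤ 6 * (s * (D ^ 2 + 2 * D * L)
      - s * (s + 1) * (D * (d - 1) + D * s + L * (d - 1)) - (s + 1) * (D + 1 - d) * (L - s * d))) ∧
  (L ≤ s * d → n * (D - d * s) * (s + 1) ≤ 6 * ((D ^ 2 + 2 * D * L)
      - (s + 1) * (D * (d - 1) + D * s + L * (d - 1))))

/-- check for the large edges -/
def c2 (D S L d l n a : ℤ) : Prop :=
  6 * D ^ 2 ≤ (n * d - 6 * l * (2 * a)) * ((S + 2) * (S + 3)) ∧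
  (S + 2) * ((n * d - 6 * l * (2 * a)) * (D - d * (S + 1))
      + 6 * (d - l) * (d * (L - (a - a ^ 2)) - 2 * a * D)) ≤
    6 * d * (D ^ 2 - (S + 2) * (D * (d - 1)))

instance (D L d s n : ℤ) : Decidable (c1 D L d s n) := by unfold c1; infer_instance

instance (D S L d l n a : ℤ) : Decidable (c2 D S L d l n a) := by unfold c2; infer_instance

/-- all small edges -/
def c3 (S D d : ℕ) : Prop :=
  ∀ s : ℕ, s < 6 → 2 ≤ s → s ≤ S → c1 D (max D (S * (S + 1)) : ℕ) d s (tbl D d)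

/-- all numbers of large edges -/
def c4 (S D d : ℕ) : Prop :=
  ∀ l : ℕ, l < 21 → 1 ≤ l → l ≤ d → l * (S + 1) + 2 * (d - l) ≤ D →
    c2 D S (max D (S * (S + 1)) : ℕ) d l (tbl D d) (D / d : ℕ)

instance (S D d : ℕ) : Decidable (c3 S D d) := by unfold c3; infer_instance

instance (S D d : ℕ) : Decidable (c4 S D d) := by unfold c4; infer_instance

/-- all degrees -/
def c5 (S D : ℕ) : Prop :=
  ∀ d : ℕ, d < 21 → 2 * d ≤ D → S + 2 + D ≤ d + max D (S * (S + 1)) → c3 S D d ∧ c4 S D d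

instance (S D : ℕ) : Decidable (c5 S D) := by unfold c5; infer_instance

theorem fin_chk : ∀ S : ℕ, S < 6 → ∀ D : ℕ, D < 41 → S * (S + 1) ≤ D + 1 →
    D + 2 ≤ (S + 1) * (S + 2) → c5 S D := by
  decide +kernel

lemma good_fin (D S d l : ℕ) (hS : S < 6) (h1 : S * (S + 1) ≤ D + 1)
    (h2 : D + 2 ≤ (S + 1) * (S + 2)) (hd : 1 ≤ d) (hld : l ≤ d)
    (hl : l * (S + 1) + 2 * (d - l) ≤ D) (h2d : 2 * d ≤ D)
    (hdS : S + 2 + D ≤ d + max D (S * (S + 1))) :
    Good D S d l (max D (S * (S + 1)) : ℕ) := by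
  have hD : D < 41 := by nlinarith
  obtain ⟨k1, k2⟩ := fin_chk S hS D hD h1 h2 d (by omega) h2d hdS
  unfold c3 at k1
  unfold c4 at k2
  generalize max D (S * (S + 1)) = L at *
  generalize tbl D d = n at *
  generalize D / d = a at *
  refine good_of_line D S d l L (n / 6) (a - a ^ 2) (2 * a) hd (by positivity) ?_
    (fun s => sec_bound a s) ?_ ?_
  · intro s h3 h4
    have hs : (2 : ℝ) ≤ s := by exact_mod_cast h3
    obtain ⟨k3, k4⟩ := k1 s (by omega) h3 h4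
    rcases le_total (s * d) L with h | h
    · have k5 := k3 (by exact_mod_cast h)
      have k6 := (Int.cast_le (R := ℝ)).2 k5
      push_cast at k6
      refine V0_geP (by linarith) (by exact_mod_cast h) (by linarith)
    · have k5 := k4 (by exact_mod_cast h)
      have k6 := (Int.cast_le (R := ℝ)).2 k5
      push_cast at k6
      refine V0_geN (by linarith) (by exact_mod_cast h) (by linarith)
  · intro h3
    have k6 := (Int.cast_le (R := ℝ)).2 (k2 l (by omega) h3 hld hl).1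
    push_cast at k6
    linarith
  · intro h3
    have k6 := (Int.cast_le (R := ℝ)).2 (k2 l (by omega) h3 hld hl).2
    push_cast at k6
    linarith

theorem good (D S d l : ℕ) (h1 : S * (S + 1) ≤ D + 1) (h2 : D + 2 ≤ (S + 1) * (S + 2))
    (hS1 : 1 ≤ S) (hd : 1 ≤ d) (hld : l ≤ d) (hl : l * (S + 1) + 2 * (d - l) ≤ D) :
    Good D S d l (max D (S * (S + 1)) : ℕ) := by
  have hl1 : l * (S + 1) ≤ D := by omega
  have h2d : 2 * d ≤ D := by
    have : l * 2 ≤ l * (S + 1) := Nat.mul_le_mul_left l (by omega)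
    omega
  by_cases hdS : S + 2 + D ≤ d + max D (S * (S + 1))
  · rcases Nat.lt_or_ge S 6 with hS | hS
    · exact good_fin D S d l hS h1 h2 hd hld hl h2d hdS
    rcases Nat.lt_or_ge D (S * (S + 1)) with h | h
    · have h3 : D + 1 = S * (S + 1) := by omega
      rw [max_eq_right h.le, ← h3] at hdS ⊢
      push_cast
      rcases Nat.lt_or_ge d (S + 3) with h4 | h4
      · rcases Nat.lt_or_ge d (S + 2) with h5 | h5
        · obtain rfl : d = S + 1 := by omega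
          exact good_F2 D S l hS h3 hl1
        · obtain rfl : d = S + 2 := by omega
          exact good_F3b D S l hS h3 hl1
      · simpa using good_F4 D S d l 1 hS h4 h2d hl1 (Or.inr ⟨rfl, h3⟩)
    · rw [max_eq_left h] at hdS ⊢
      have h3 : D ≤ S * (S + 3) := by nlinarith
      rcases Nat.lt_or_ge d (S + 3) with h4 | h4
      · obtain rfl : d = S + 2 := by omega
        exact good_F3a D S l hS h h3 hl1
      · simpa using good_F4 D S d l 0 hS h4 h2d hl1 (Or.inl ⟨rfl, h, h3⟩)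
  · rcases Nat.lt_or_ge D (S * (S + 1)) with h | h
    · have h3 : D + 1 = S * (S + 1) := by omega
      rw [max_eq_right h.le, ← h3] at hdS ⊢
      push_cast
      exact good_F1b D S d l hd h3 (by omega)
    · rw [max_eq_left h] at hdS ⊢
      exact good_F1a D S d l hd h (by omega)

end Pool.Agent.P.MP_553766_co
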