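import Mathlib
import Pool.Agent.P.MP_553766_co.Core
import Pool.Agent.P.MP_553766_co.VFin
import Pool.Agent.P.MP_553766_co.Game

set_option autoImplicit false

namespace Pool.Agent.P.MP_553766_co

open Finset

lemma exists_S (n : ℕ) : ∃ S : ℕ, 1 ≤ S ∧ S * (S + 1) ≤ n + 2 ∧ n + 3 ≤ (S + 1) * (S + 2) := by
  induction n with
  | zero => exact ⟨1, by norm_num⟩
  | succ n ih =>
    obtain ⟨S, h1, h2, h3⟩ := ih
    rcases Nat.lt_or_ge (n + 3) ((S + 1) * (S + 2)) with h | h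
    · exact ⟨S, h1, by omega, by omega⟩
    · exact ⟨S + 1, by omega, by nlinarith, by nlinarith⟩

variable {V : Type} [Fintype V] [DecidableEq V]

theorem core {Ω : Type} [Fintype Ω] (E : Finset (Finset V))
    (hlin : ∀ e ∈ E, ∀ f ∈ E, e ≠ f → (e ∩ f).card ≤ 1) (h3 : ∀ e ∈ E, 3 ≤ e.card)
    (hne : E.Nonempty) (D : ℕ)
    (hD : ∀ v, ∑ e ∈ E.filter (fun e => v ∈ e), (e.card - 1) ≤ D)
    (y : Finset V → ℝ) (ν : ℝ) (p : Ω → ℝ) (hp0 : ∀ ω, 0 ≤ p ω) (hp : ∑ ω, p ω = 1)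
    (M : Ω → Finset (Finset V)) (hM : ∀ ω, p ω ≠ 0 → Opt E y ν (M ω)) (T : ℝ) (hT : D < T)
    (hmarg : ∀ e ∈ E, ∑ ω, p ω * ind (M ω) e = 1 / (T + 1)) : False := by
  obtain ⟨e0, he0⟩ := hne
  obtain ⟨v0, hv0⟩ : e0.Nonempty := Finset.card_pos.1 (by have := h3 e0 he0; omega)
  have hmem : e0 ∈ E.filter (fun e => v0 ∈ e) := Finset.mem_filter.2 ⟨he0, hv0⟩
  have hD1 : 1 ≤ D := by
    have h1 := Finset.single_le_sum (f := fun e : Finset V => e.card - 1)
      (fun _ _ => Nat.zero_le _) hmem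
    have h2 := hD v0
    have h4 := h3 e0 he0
    omega
  obtain ⟨S, hS1, hS2, hS3⟩ := exists_S (D - 1)
  have hS2' : S * (S + 1) ≤ D + 1 := by omega
  have hS3' : D + 2 ≤ (S + 1) * (S + 2) := by omega
  set L : ℝ := ((max D (S * (S + 1)) : ℕ) : ℝ) with hLdef
  have hL1 : (S : ℝ) * (S + 1) ≤ L := by
    rw [hLdef]; exact_mod_cast le_max_right D (S * (S + 1))
  have hL : qq S ≤ L := by
    have := qq_nonneg S
    unfold qq at *; linarith
  have hT0 : 0 < T + 1 := by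
    have : (0 : ℝ) ≤ D := by positivity
    linarith
  have h1 := avg_ineq (E := E) (X := fun ω => ind (M ω)) hp0 hp S L fun ω ω' h h' =>
    point_ineq hlin (fun e he => by have := h3 e he; omega) (hM ω h) (hM ω' h') hL
  have h2 := uniform_eq E (fun e he => Finset.card_pos.1 (by have := h3 e he; omega)) S L T hT0
    (avgX p fun ω => ind (M ω)) hmarg
  have hpos : ∀ v, (E.filter (fun e => v ∈ e)).Nonempty →
      0 < Vx S L T (E.filter (fun e => v ∈ e)) (fun e => e.card - 1) := fun v hv =>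
    Vx_pos D S L T _ _ hv (fun e he => by have := h3 e (Finset.mem_filter.1 he).1; omega)
      (hD v) hT hL1 (fun d l h4 h5 h6 => good D S d l hS2' hS3' hS1 h4 h5 h6)
  have h4 : 0 < ∑ v, Vx S L T (E.filter (fun e => v ∈ e)) (fun e => e.card - 1) := by
    refine Finset.sum_pos' (fun v _ => ?_) ⟨v0, Finset.mem_univ _, hpos v0 ⟨e0, hmem⟩⟩
    rcases Finset.eq_empty_or_nonempty (E.filter (fun e => v ∈ e)) with h | h
    · rw [h]; simp [Vx]
    · exact (hpos v h).le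
  have h5 := mul_nonneg (sq_nonneg (T + 1)) h1
  linarith

omit [Fintype V] in
lemma nbhd_card (E : Finset (Finset V)) (hlin : ∀ e ∈ E, ∀ f ∈ E, e ≠ f → (e ∩ f).card ≤ 1)
    (v : V) (F : Finset (Finset V)) (hF : F ⊆ E.filter (fun e => v ∈ e)) (hne : F.Nonempty) :
    ∑ e ∈ F, (e.card - 1) + 1 ≤ ((E.filter (fun e => v ∈ e)).biUnion id).card := by
  have h1 : (F.biUnion (fun e => e.erase v)).card = ∑ e ∈ F, (e.card - 1) := by
    rw [Finset.card_biUnion]
    · exact Finset.sum_congr rfl fun e he =>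
        Finset.card_erase_of_mem (Finset.mem_filter.1 (hF he)).2
    · intro e he f hf hef
      obtain ⟨he1, he2⟩ := Finset.mem_filter.1 (hF he)
      obtain ⟨hf1, hf2⟩ := Finset.mem_filter.1 (hF hf)
      refine Finset.disjoint_left.2 fun u hu hu' => ?_
      exact (Finset.mem_erase.1 hu).1 (Finset.card_le_one.1 (hlin e he1 f hf1 hef) u
        (Finset.mem_inter.2 ⟨(Finset.mem_erase.1 hu).2, (Finset.mem_erase.1 hu').2⟩) v
        (Finset.mem_inter.2 ⟨he2, hf2⟩))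
  have h2 : v ∉ F.biUnion (fun e => e.erase v) := by simp
  rw [← h1, ← Finset.card_insert_of_notMem h2]
  refine Finset.card_le_card (Finset.insert_subset ?_ ?_)
  · obtain ⟨e, he⟩ := hne
    exact Finset.mem_biUnion.2 ⟨e, hF he, (Finset.mem_filter.1 (hF he)).2⟩
  · intro u hu
    obtain ⟨e, he, hu⟩ := Finset.mem_biUnion.1 hu
    exact Finset.mem_biUnion.2 ⟨e, hF he, (Finset.mem_erase.1 hu).2⟩

omit [Fintype V] in
/-- An edge with one point cannot occur when the common marginal is small. -/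
lemma no_single {Ω : Type} [Fintype Ω] (E : Finset (Finset V)) (D : ℕ) (v : V)
    (hv : {v} ∈ E) (hD : ∑ e ∈ E.filter (fun e => v ∈ e), (e.card - 1) + 1 ≤ D)
    (y : Finset V → ℝ) (ν : ℝ) (p : Ω → ℝ) (hp : ∑ ω, p ω = 1)
    (M : Ω → Finset (Finset V)) (hM : ∀ ω, p ω ≠ 0 → Opt E y ν (M ω)) (t : ℝ) (hT : D < t)
    (hmarg : ∀ e ∈ E, ∑ ω, p ω * ind (M ω) e = 1 / t) : False := by
  have h1 := aff_cv (E := E) (p := p) (X := fun ω => ind (M ω)) v
  unfold Aff at h1
  beta_reduce at h1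
  have h2 : ∑ ω, p ω * cv E (ind (M ω)) v = 1 := by
    rw [← hp]
    refine Finset.sum_congr rfl fun ω _ => ?_
    by_cases h : p ω = 0
    · simp [h]
    · obtain ⟨e, he, hd⟩ := (hM ω h).maximal hv
      rw [cv_ind (hM ω h).isM, if_pos ⟨e, he, by simpa using hd⟩, mul_one]
  have h3 : cv E (avgX p fun ω => ind (M ω)) v = (E.filter (fun e => v ∈ e)).card * (1 / t) := by
    unfold cv
    rw [← nsmul_eq_mul, ← Finset.sum_const]
    exact Finset.sum_congr rfl fun e he => hmarg e (Finset.mem_filter.1 he).1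
  have hmem : {v} ∈ E.filter (fun e => v ∈ e) := Finset.mem_filter.2 ⟨hv, by simp⟩
  have h4 : (E.filter (fun e => v ∈ e)).card ≤ D := by
    rw [← Finset.card_erase_add_one hmem]
    refine le_trans (Nat.add_le_add_right ?_ 1) hD
    refine le_trans ?_ (Finset.sum_le_sum_of_subset (Finset.erase_subset {v} _))
    rw [Finset.card_eq_sum_ones]
    refine Finset.sum_le_sum fun e he => ?_
    obtain ⟨h5, h6⟩ := Finset.mem_erase.1 he
    have h7 := (Finset.mem_filter.1 h6).2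
    have h8 : 1 < e.card := by
      by_contra hc
      exact h5 (Finset.eq_singleton_iff_unique_mem.2
        ⟨h7, fun x hx => Finset.card_le_one.1 (by omega) x hx v h7⟩)
    omega
  have h5 : ((E.filter (fun e => v ∈ e)).card : ℝ) ≤ D := by exact_mod_cast h4
  have ht0 : 0 < t := lt_of_le_of_lt (by positivity) hT
  rw [h2, h3, mul_one_div, eq_div_iff ht0.ne'] at h1
  linarith

lemma game_fin {α β : Type} [DecidableEq α] [DecidableEq β] [Fintype β] (I : Finset α)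
    (K : Finset β) (hI : I.Nonempty) (hK : K.Nonempty) (a : β → α → ℝ) :
    ∃ (y : α → ℝ) (p : β → ℝ) (ν : ℝ), (∀ i, 0 ≤ y i) ∧ ∑ i ∈ I, y i = 1 ∧ (∀ k, 0 ≤ p k) ∧
      ∑ k, p k = 1 ∧ (∀ k, p k ≠ 0 → k ∈ K) ∧ (∀ k ∈ K, ∑ i ∈ I, y i * a k i ≤ ν) ∧
      (∀ k, p k ≠ 0 → ∑ i ∈ I, y i * a k i = ν) ∧ (∀ i ∈ I, ν ≤ ∑ k, p k * a k i) ∧
      (∀ i ∈ I, y i ≠ 0 → ∑ k, p k * a k i = ν) := by
  have := hI.to_subtype
  have := hK.to_subtype
  obtain ⟨y, p, ν, h1, h2, h3, h4, h5, h6, h7, h8⟩ :=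
    game (ι := I) (κ := K) (fun k i => a k i)
  have ey : ∀ F : α → ℝ, ∑ i ∈ I, (if h : i ∈ I then y ⟨i, h⟩ else 0) * F i =
      ∑ i : I, y i * F i := fun F => by
    rw [← Finset.sum_coe_sort I]
    exact Finset.sum_congr rfl fun i _ => by simp
  have ep : ∀ F : β → ℝ, ∑ k, (if h : k ∈ K then p ⟨k, h⟩ else 0) * F k =
      ∑ k : K, p k * F k := fun F => by
    rw [← Finset.sum_subset (Finset.subset_univ K) (fun k _ hk => by simp [hk]),
      ← Finset.sum_coe_sort K]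
    exact Finset.sum_congr rfl fun i _ => by simp
  refine ⟨fun i => if h : i ∈ I then y ⟨i, h⟩ else 0, fun k => if h : k ∈ K then p ⟨k, h⟩ else 0,
    ν, ?_, ?_, ?_, ?_, ?_, ?_, ?_, ?_, ?_⟩
  · intro i; beta_reduce; split_ifs
    · exact h1 _
    · exact le_rfl
  · have := ey (fun _ => 1)
    simp only [mul_one] at this
    exact this.trans h2
  · intro k; beta_reduce; split_ifs
    · exact h3 _
    · exact le_rfl
  · have := ep (fun _ => 1)
    simp only [mul_one] at this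
    exact this.trans h4
  · intro k hk
    by_contra hc
    exact hk (by simp [hc])
  · intro k hk
    rw [ey]; exact h5 ⟨k, hk⟩
  · intro k hk
    have hkK : k ∈ K := by
      by_contra hc
      exact hk (by simp [hc])
    rw [ey]; exact h6 ⟨k, hkK⟩ (by simpa [hkK] using hk)
  · intro i hi
    rw [ep]; exact h7 ⟨i, hi⟩
  · intro i hi hy
    rw [ep]; exact h8 ⟨i, hi⟩ (by simpa [hi] using hy)

theorem main (E : Finset (Finset V)) (hne : ∀ e ∈ E, e.Nonempty)
    (hlin : ∀ e ∈ E, ∀ f ∈ E, e ≠ f → (e ∩ f).card ≤ 1) (h2 : ∀ e ∈ E, e.card ≠ 2) (D : ℕ)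
    (hD : ∀ v, ((E.filter (fun e => v ∈ e)).biUnion id).card ≤ D) :
    ∃ w : Finset (Finset V) → ℝ, (∀ M, 0 ≤ w M) ∧ (∀ M, w M ≠ 0 → IsM E M) ∧
      (∀ e ∈ E, 1 ≤ ∑ M, w M * ind M e) ∧ ∑ M, w M ≤ D := by
  classical
  rcases Finset.eq_empty_or_nonempty E with rfl | hE
  · exact ⟨fun _ => 0, by simp, by simp, by simp, by simp⟩
  obtain ⟨y, p, ν, h1, h3, h4, h5, h6, h7, h8, h9, h10⟩ := game_fin E
    (Finset.univ.filter (fun M => IsM E M)) hE
    ⟨∅, Finset.mem_filter.2 ⟨Finset.mem_univ _, by simp [IsM]⟩⟩ ind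
  have hw : ∀ N, N ⊆ E → ∑ e ∈ E, y e * ind N e = ∑ e ∈ N, y e := fun N hN => by
    rw [← Finset.sum_subset hN (fun e _ he => by simp [ind, he])]
    exact Finset.sum_congr rfl fun e he => by simp [ind, he]
  have hle : ∀ N, IsM E N → ∑ e ∈ N, y e ≤ ν := fun N hN => by
    rw [← hw N hN.1]; exact h7 N (Finset.mem_filter.2 ⟨Finset.mem_univ _, hN⟩)
  obtain ⟨e0, he0, hy0⟩ : ∃ e ∈ E, 0 < y e := by
    by_contra hc
    push Not at hc
    have := Finset.sum_nonpos hc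
    linarith
  have hν : 0 < ν := by
    have := hle {e0} ⟨by simpa using he0, by simp⟩
    rw [Finset.sum_singleton] at this
    linarith
  by_cases hc : 1 / ν ≤ D
  · refine ⟨fun M => p M / ν, fun M => div_nonneg (h4 M) hν.le, fun M hM => ?_, fun e he => ?_, ?_⟩
    · exact (Finset.mem_filter.1 (h6 M fun h => hM (by simp [h]))).2
    · have := h9 e he
      simp only [div_mul_eq_mul_div, ← Finset.sum_div]
      rwa [le_div_iff₀ hν, one_mul]
    · rw [← Finset.sum_div, h5]; exact hc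
  exfalso
  push Not at hc
  set E' := E.filter (fun e => 0 < y e) with hE'
  have hsub : E' ⊆ E := Finset.filter_subset _ _
  have hopt : ∀ M, p M ≠ 0 → Opt E' y ν (M ∩ E') := fun M hM => by
    have hM' := (Finset.mem_filter.1 (h6 M hM)).2
    refine ⟨fun e he => (Finset.mem_filter.1 he).2, fun e he => hne e (hsub he),
      fun N hN => hle N ⟨hN.1.trans hsub, hN.2⟩, ⟨Finset.inter_subset_right, fun e he f hf =>
        hM'.2 e (Finset.mem_inter.1 he).1 f (Finset.mem_inter.1 hf).1⟩, ?_⟩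
    rw [← h8 M hM, hw M hM'.1]
    refine Finset.sum_subset Finset.inter_subset_left fun e he hn => ?_
    by_contra h0
    exact hn (Finset.mem_inter.2 ⟨he, Finset.mem_filter.2
      ⟨hM'.1 he, lt_of_le_of_ne (h1 e) (Ne.symm h0)⟩⟩)
  have hmarg : ∀ e ∈ E', ∑ M, p M * ind (M ∩ E') e = 1 / (1 / ν) := fun e he => by
    rw [one_div_one_div, ← h10 e (hsub he) (Finset.mem_filter.1 he).2.ne']
    exact Finset.sum_congr rfl fun M _ => by simp [ind, he]
  have hnb : ∀ v, (E'.filter (fun e => v ∈ e)).Nonempty →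
      ∑ e ∈ E'.filter (fun e => v ∈ e), (e.card - 1) + 1 ≤ D := fun v hv =>
    (nbhd_card E hlin v _ (Finset.filter_subset_filter _ hsub) hv).trans (hD v)
  have h3' : ∀ e ∈ E', 3 ≤ e.card := fun e he => by
    have k1 := (hne e (hsub he)).card_pos
    have k2 := h2 e (hsub he)
    by_contra k3
    obtain ⟨v, rfl⟩ := Finset.card_eq_one.1 (show e.card = 1 by omega)
    exact no_single E' D v he (hnb v ⟨{v}, Finset.mem_filter.2 ⟨he, by simp⟩⟩) y ν p h5
      (fun M => M ∩ E') hopt (1 / ν) hc hmarg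
  have he0' : e0 ∈ E' := Finset.mem_filter.2 ⟨he0, hy0⟩
  have hD1 : 1 ≤ D := by
    obtain ⟨v, hv⟩ := hne e0 he0
    have := hnb v ⟨e0, Finset.mem_filter.2 ⟨he0', hv⟩⟩
    omega
  refine core E' (fun e he f hf => hlin e (hsub he) f (hsub hf)) h3' ⟨e0, he0'⟩ (D - 1)
    (fun v => ?_) y ν p h4 h5 (fun M => M ∩ E') hopt (1 / ν - 1) ?_ ?_
  · rcases Finset.eq_empty_or_nonempty (E'.filter (fun e => v ∈ e)) with h | h
    · rw [h]; simp
    · have := hnb v h; omega
  · rw [Nat.cast_sub hD1]; push_cast; linarith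
  · rw [sub_add_cancel]; exact hmarg

end Pool.Agent.P.MP_553766_co
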