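import Mathlib
import Pool.Agent.P.MP_553766_co.Main

set_option autoImplicit false

namespace Pool.Agent.P.MP_553766_co

open Finset

variable {V : Type} [DecidableEq V]

variable {E M M' : Finset (Finset V)} {y : Finset V → ℝ} {ν : ℝ}

lemma leaves_le (h2 : ∀ e ∈ E, e.card ≤ 2) (h : Opt E y ν M) (h' : Opt E y ν M')
    {r : Finset V} (hr : r ∈ DD M M') :
    ((comp M M' r).biUnion (lv M M')).card ≤ 2 := by
  set K := comp M M' r with hKdef
  have hK : Closed M M' K := comp_closed r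
  have hKE : ∀ e ∈ K, e ∈ E := fun e he => by
    rcases mem_DD.1 (hK.1 he) with h4 | h4
    · exact h.isM.1 h4.1
    · exact h'.isM.1 h4.1
  have hsplit : ∀ e ∈ K, (lv M M' e).card + ∑ e' ∈ K, ww e e' ≤ 2 := fun e he => by
    rw [← card_split h.isM h'.isM hK he, add_comm]
    exact (Finset.card_filter_add_card_filter_not _).le.trans (h2 e (hKE e he))
  have hrK : r ∈ K := self_mem_comp hr
  have hg := growth K {r} (fun _ => 1) (fun e e' => (ww e e' : ℝ)) (fun e e' => 1 ≤ ww e e')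
    (fun e e' => by rw [ww_comm]) (fun e e' => by positivity) (by simpa using hrK)
    (Finset.singleton_nonempty r) (fun e _ e' _ h => by exact_mod_cast h)
    (fun R hR hne hneq => by
      obtain ⟨g, hg, hgR, g', hg', hd⟩ := comp_conn r R hR hne hneq
      refine ⟨g, hg, hgR, g', hg', ?_⟩
      have hne' : g ≠ g' := fun h => hgR (h ▸ hg')
      unfold ww
      rw [if_neg hne']
      obtain ⟨v, hv1, hv2⟩ := Finset.not_disjoint_iff.1 hd
      exact Finset.card_pos.2 ⟨v, Finset.mem_inter.2 ⟨hv1, hv2⟩⟩)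
  have hcard : 1 ≤ K.card := Finset.card_pos.2 ⟨r, hrK⟩
  rw [Finset.sum_const, Finset.card_sdiff_of_subset (by simpa using hrK),
    Finset.card_singleton, nsmul_eq_mul, Nat.cast_sub hcard] at hg
  have h3 := Finset.sum_le_sum hsplit
  rw [Finset.sum_add_distrib, Finset.sum_const, smul_eq_mul] at h3
  have h4 : (∑ e ∈ K, ((lv M M' e).card : ℝ)) + ∑ e ∈ K, ∑ e' ∈ K, (ww e e' : ℝ) ≤
      K.card * 2 := by exact_mod_cast h3
  have h5 : (∑ e ∈ K, ((lv M M' e).card : ℝ)) ≤ 2 := by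
    push_cast at hg
    linarith
  have h6 : ∑ e ∈ K, (lv M M' e).card ≤ 2 := by exact_mod_cast h5
  exact Finset.card_biUnion_le.trans h6

lemma pair_comp (h : Opt E y ν M) (h' : Opt E y ν M') {v w : V} (hf : ({v, w} : Finset V) ∈ E)
    (hv : ¬ Cov M' v) (hw : ¬ Cov M w) :
    ∃ e ∈ DD M M', e ∈ M ∧ v ∈ e ∧ w ∈ (comp M M' e).biUnion (lv M M') := by
  obtain ⟨e, he, h1, h2, e', he', h3, h4⟩ := h.exists_comp h' hf (by
    intro x hx
    rcases Finset.mem_insert.1 hx with rfl | hx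
    · exact fun hc => hv hc.2
    · rw [Finset.mem_singleton.1 hx]; exact fun hc => hw hc.1)
  obtain ⟨x, hx1, hx2⟩ := Finset.not_disjoint_iff.1 h2
  obtain ⟨z, hz1, hz2⟩ := Finset.not_disjoint_iff.1 h4
  have he'M : e' ∈ M' := by
    rcases mem_DD.1 (mem_comp.1 he').1 with h5 | h5
    · exact absurd h5.1 h3
    · exact h5.1
  refine ⟨e, he, h1, ?_, Finset.mem_biUnion.2 ⟨e', he', Finset.mem_filter.2 ⟨?_, fun hc => hw hc.1⟩⟩⟩
  · rcases Finset.mem_insert.1 hx2 with rfl | hx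
    · exact hx1
    · rw [Finset.mem_singleton.1 hx] at hx1
      exact absurd ⟨e, h1, hx1⟩ hw
  · rcases Finset.mem_insert.1 hz2 with rfl | hz
    · exact absurd ⟨e', he'M, hz1⟩ hv
    · rwa [Finset.mem_singleton.1 hz] at hz1

lemma erase_pair {f : Finset V} {v w : V} (h2 : f.card = 2) (hv : v ∈ f) (hw : w ∈ f.erase v) :
    f = {v, w} := by
  symm
  refine Finset.eq_of_subset_of_card_le ?_ ?_
  · exact Finset.insert_subset hv (Finset.singleton_subset_iff.2 (Finset.mem_of_mem_erase hw))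
  · rw [h2, Finset.card_pair (Finset.ne_of_mem_erase hw).symm]

lemma free_nbrs (h2 : ∀ e ∈ E, e.card = 2) (h : Opt E y ν M) (h' : Opt E y ν M') {v : V}
    (hv : ¬ Cov M' v) :
    ∑ f ∈ E.filter (fun f => v ∈ f), ∑ w ∈ f.erase v, (1 - cv E (ind M) w) ≤ cv E (ind M) v := by
  have h0 : ∀ w, 1 - cv E (ind M) w = if ¬ Cov M w then 1 else 0 := fun w => by
    rw [cv_ind h.isM]; split_ifs <;> norm_num
  simp only [h0]
  rw [Finset.sum_sigma', Finset.sum_boole, cv_ind h.isM]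
  set B := ((E.filter (fun f => v ∈ f)).sigma (fun f => f.erase v)).filter
    (fun x => ¬ Cov M x.2) with hB
  have hBm : ∀ x ∈ B, x.1 = {v, x.2} ∧ ({v, x.2} : Finset V) ∈ E ∧ ¬ Cov M x.2 := by
    intro x hx
    obtain ⟨h3, h4⟩ := Finset.mem_filter.1 hx
    obtain ⟨h5, h6⟩ := Finset.mem_sigma.1 h3
    obtain ⟨h7, h8⟩ := Finset.mem_filter.1 h5
    have := erase_pair (h2 _ h7) h8 h6
    exact ⟨this, this ▸ h7, h4⟩
  split_ifs with hc
  · have : B.card ≤ 1 := by
      refine Finset.card_le_one.2 fun x hx z hz => ?_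
      obtain ⟨a1, a2, a3⟩ := hBm x hx
      obtain ⟨b1, b2, b3⟩ := hBm z hz
      obtain ⟨e, he, c1, c2, c3⟩ := pair_comp h h' a2 hv a3
      obtain ⟨e', _, d1, d2, d3⟩ := pair_comp h h' b2 hv b3
      obtain rfl : e = e' := h.isM.eq_of_mem c1 d1 c2 d2
      have hvK : v ∈ (comp M M' e).biUnion (lv M M') := Finset.mem_biUnion.2
        ⟨e, self_mem_comp he, Finset.mem_filter.2 ⟨c2, fun hc' => hv hc'.2⟩⟩
      have hle := leaves_le (fun e he => (h2 e he).le) h h' he
      have hxz : x.2 = z.2 := by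
        by_contra hne
        have h3 : v ≠ x.2 := fun h => a3 (h ▸ hc)
        have h4 : v ≠ z.2 := fun h => b3 (h ▸ hc)
        have h5 : ({v, x.2, z.2} : Finset V) ⊆ (comp M M' e).biUnion (lv M M') :=
          Finset.insert_subset hvK (Finset.insert_subset c3 (Finset.singleton_subset_iff.2 d3))
        have h6 := Finset.card_le_card h5
        rw [Finset.card_eq_three.2 ⟨v, x.2, z.2, h3, h4, hne, rfl⟩] at h6
        omega
      obtain ⟨x1, x2⟩ := x
      obtain ⟨z1, z2⟩ := z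
      simp only at a1 b1 hxz
      subst hxz
      rw [a1, b1]
    exact_mod_cast this
  · have : B = ∅ := by
      refine Finset.eq_empty_of_forall_notMem fun x hx => ?_
      obtain ⟨_, a2, a3⟩ := hBm x hx
      obtain ⟨e, _, c1, c2, _⟩ := pair_comp h h' a2 hv a3
      exact hc ⟨e, c1, c2⟩
    rw [this]; simp

theorem graph_core {Ω : Type} [Fintype Ω] (E : Finset (Finset V)) (h2 : ∀ e ∈ E, e.card ≤ 2)
    (hE : E.Nonempty) (m : Finset V → ℝ) (lam : ℝ) (hlam : lam < 1) (hm0 : ∀ e ∈ E, 0 ≤ m e)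
    (hm : ∀ e ∈ E, ∀ u ∈ e, ∑ f ∈ E.filter (fun f => f.card = 2 ∧ u ∈ f), m f + m e ≤ lam)
    (y : Finset V → ℝ) (ν : ℝ) (p : Ω → ℝ) (hp0 : ∀ ω, 0 ≤ p ω) (hp : ∑ ω, p ω = 1)
    (M : Ω → Finset (Finset V)) (hM : ∀ ω, p ω ≠ 0 → Opt E y ν (M ω))
    (hmarg : ∀ e ∈ E, ∑ ω, p ω * ind (M ω) e = m e) : False := by
  obtain ⟨ω0, hω0⟩ : ∃ ω, p ω ≠ 0 := by
    by_contra hc
    push Not at hc
    simp [hc] at hp
  have hne := (hM ω0 hω0).ne
  have hcv : ∀ v, ∑ ω, p ω * cv E (ind (M ω)) v = ∑ f ∈ E.filter (fun f => v ∈ f), m f := by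
    intro v
    have h1 := aff_cv (E := E) (p := p) (X := fun ω => ind (M ω)) v
    unfold Aff at h1
    beta_reduce at h1
    rw [h1]
    exact Finset.sum_congr rfl fun e he => hmarg e (Finset.mem_filter.1 he).1
  have hall : ∀ v, (∀ ω, p ω ≠ 0 → Cov (M ω) v) → ∑ f ∈ E.filter (fun f => v ∈ f), m f = 1 := by
    intro v hv
    rw [← hcv, ← hp]
    refine Finset.sum_congr rfl fun ω _ => ?_
    by_cases h : p ω = 0
    · simp [h]
    · rw [cv_ind (hM ω h).isM, if_pos (hv ω h), mul_one]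
  have h2' : ∀ e ∈ E, e.card = 2 := by
    intro e he
    by_contra hc
    have k1 := (hne e he).card_pos
    have k2 := h2 e he
    obtain ⟨v, rfl⟩ := Finset.card_eq_one.1 (show e.card = 1 by omega)
    have k3 := hall v fun ω h => by
      obtain ⟨g, hg, hd⟩ := (hM ω h).maximal he
      exact ⟨g, hg, by simpa using hd⟩
    have k4 : E.filter (fun f => v ∈ f) = insert {v} (E.filter (fun f => f.card = 2 ∧ v ∈ f)) := by
      ext g
      simp only [Finset.mem_filter, Finset.mem_insert]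
      constructor
      · rintro ⟨k5, k6⟩
        by_cases k7 : g.card = 2
        · exact Or.inr ⟨k5, k7, k6⟩
        · left
          have := h2 g k5
          exact Finset.eq_singleton_iff_unique_mem.2
            ⟨k6, fun x hx => Finset.card_le_one.1 (by omega) x hx v k6⟩
      · rintro (rfl | ⟨k5, _, k6⟩)
        · exact ⟨he, by simp⟩
        · exact ⟨k5, k6⟩
    rw [k4, Finset.sum_insert (by simp)] at k3
    have := hm {v} he v (by simp)
    linarith
  have hm' : ∀ e ∈ E, ∀ u ∈ e, ∑ f ∈ E.filter (fun f => u ∈ f), m f + m e ≤ lam := by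
    intro e he u hu
    have := hm e he u hu
    rwa [Finset.filter_congr (q := fun f => u ∈ f) (fun f hf => by simp [h2' f hf])] at this
  obtain ⟨e0, he0⟩ := hE
  obtain ⟨v, hv⟩ := hne e0 he0
  obtain ⟨ω1, hω1, hfree⟩ : ∃ ω, p ω ≠ 0 ∧ ¬ Cov (M ω) v := by
    by_contra hc
    push Not at hc
    have k1 := hall v hc
    have k2 := hm' e0 he0 v hv
    have k3 := hm0 e0 he0
    linarith
  have k1 : ∑ ω, p ω * ∑ f ∈ E.filter (fun f => v ∈ f), ∑ w ∈ f.erase v,
      (1 - cv E (ind (M ω)) w) ≤ ∑ ω, p ω * cv E (ind (M ω)) v := by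
    refine Finset.sum_le_sum fun ω _ => ?_
    by_cases h : p ω = 0
    · simp [h]
    · exact mul_le_mul_of_nonneg_left (free_nbrs h2' (hM ω h) (hM ω1 hω1) hfree) (hp0 ω)
  have k2 : ∑ ω, p ω * ∑ f ∈ E.filter (fun f => v ∈ f), ∑ w ∈ f.erase v,
      (1 - cv E (ind (M ω)) w) = ∑ f ∈ E.filter (fun f => v ∈ f), ∑ w ∈ f.erase v,
      (1 - ∑ g ∈ E.filter (fun g => w ∈ g), m g) := by
    simp only [Finset.mul_sum]
    rw [Finset.sum_comm]
    refine Finset.sum_congr rfl fun f _ => ?_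
    rw [Finset.sum_comm]
    refine Finset.sum_congr rfl fun w _ => ?_
    simp only [mul_sub, mul_one, Finset.sum_sub_distrib, hp, hcv]
  rw [k2, hcv] at k1
  refine absurd k1 (not_le.2 (Finset.sum_lt_sum_of_nonempty
    ⟨e0, Finset.mem_filter.2 ⟨he0, hv⟩⟩ fun f hf => ?_))
  obtain ⟨hfE, hvf⟩ := Finset.mem_filter.1 hf
  have k3 : (f.erase v).card = 1 := by rw [Finset.card_erase_of_mem hvf, h2' f hfE]
  obtain ⟨w, hw⟩ := Finset.card_eq_one.1 k3
  have k4 : w ∈ f := Finset.mem_of_mem_erase (hw ▸ Finset.mem_singleton_self w)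
  rw [hw, Finset.sum_singleton]
  have := hm' f hfE w k4
  linarith

/-- A weighted fractional form of the theorem of Vizing. -/
theorem graph_W [Fintype V] (E : Finset (Finset V)) (hne : ∀ e ∈ E, e.Nonempty)
    (h2 : ∀ e ∈ E, e.card ≤ 2) (a : Finset V → ℝ) (ha0 : ∀ e ∈ E, 0 < a e)
    (ha : ∀ e ∈ E, ∀ u ∈ e, ∑ f ∈ E.filter (fun f => f.card = 2 ∧ u ∈ f), a f + a e ≤ 1) :
    ∃ p : Finset (Finset V) → ℝ, (∀ M, 0 ≤ p M) ∧ ∑ M, p M = 1 ∧ (∀ M, p M ≠ 0 → IsM E M) ∧
      ∀ e ∈ E, a e ≤ ∑ M, p M * ind M e := by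
  classical
  rcases Finset.eq_empty_or_nonempty E with rfl | hE
  · refine ⟨fun M => if M = ∅ then 1 else 0, fun M => by beta_reduce; split_ifs <;> norm_num, by simp,
      fun M hM => ?_, by simp⟩
    have : M = ∅ := by
      by_contra hc
      exact hM (by simp [hc])
    simp [this, IsM]
  obtain ⟨y, p, ν, h1, h3, h4, h5, h6, h7, h8, h9, h10⟩ := game_fin E
    (Finset.univ.filter (fun M => IsM E M)) hE
    ⟨∅, Finset.mem_filter.2 ⟨Finset.mem_univ _, by simp [IsM]⟩⟩ (fun M e => ind M e / a e)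
  have hdiv : ∀ e, ∑ M, p M * (ind M e / a e) = (∑ M, p M * ind M e) / a e := fun e => by
    rw [Finset.sum_div]
    exact Finset.sum_congr rfl fun M _ => by ring
  by_cases hc : 1 ≤ ν
  · refine ⟨p, h4, h5, fun M hM => (Finset.mem_filter.1 (h6 M hM)).2, fun e he => ?_⟩
    have := hc.trans (h9 e he)
    rwa [hdiv, le_div_iff₀ (ha0 e he), one_mul] at this
  exfalso
  push Not at hc
  have hw : ∀ N, N ⊆ E → ∑ e ∈ E, y e * (ind N e / a e) = ∑ e ∈ N, y e / a e := fun N hN => by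
    rw [← Finset.sum_subset hN (fun e _ he => by simp [ind, he])]
    exact Finset.sum_congr rfl fun e he => by simp [ind, he, div_eq_mul_inv]
  have hle : ∀ N, IsM E N → ∑ e ∈ N, y e / a e ≤ ν := fun N hN => by
    rw [← hw N hN.1]; exact h7 N (Finset.mem_filter.2 ⟨Finset.mem_univ _, hN⟩)
  obtain ⟨e0, he0, hy0⟩ : ∃ e ∈ E, 0 < y e := by
    by_contra hc
    push Not at hc
    have := Finset.sum_nonpos hc
    linarith
  have hν : 0 ≤ ν := by simpa using hle ∅ (by simp [IsM])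
  set E' := E.filter (fun e => 0 < y e) with hE'
  have hsub : E' ⊆ E := Finset.filter_subset _ _
  have hopt : ∀ M, p M ≠ 0 → Opt E' (fun e => y e / a e) ν (M ∩ E') := fun M hM => by
    have hM' := (Finset.mem_filter.1 (h6 M hM)).2
    refine ⟨fun e he => div_pos (Finset.mem_filter.1 he).2 (ha0 e (hsub he)),
      fun e he => hne e (hsub he),
      fun N hN => hle N ⟨hN.1.trans hsub, hN.2⟩, ⟨Finset.inter_subset_right, fun e he f hf =>
        hM'.2 e (Finset.mem_inter.1 he).1 f (Finset.mem_inter.1 hf).1⟩, ?_⟩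
    rw [← h8 M hM, hw M hM'.1]
    refine Finset.sum_subset Finset.inter_subset_left fun e he hn => ?_
    have : y e = 0 := by
      by_contra h0
      exact hn (Finset.mem_inter.2 ⟨he, Finset.mem_filter.2
        ⟨hM'.1 he, lt_of_le_of_ne (h1 e) (Ne.symm h0)⟩⟩)
    simp [this]
  refine graph_core E' (fun e he => h2 e (hsub he)) ⟨e0, Finset.mem_filter.2 ⟨he0, hy0⟩⟩
    (fun e => ν * a e) ν hc (fun e he => mul_nonneg hν (ha0 e (hsub he)).le) ?_
    (fun e => y e / a e) ν p h4 h5 (fun M => M ∩ E') hopt ?_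
  · intro e he u hu
    have k1 := ha e (hsub he) u hu
    have k2 : ∑ f ∈ E'.filter (fun f => f.card = 2 ∧ u ∈ f), a f ≤
        ∑ f ∈ E.filter (fun f => f.card = 2 ∧ u ∈ f), a f :=
      Finset.sum_le_sum_of_subset_of_nonneg (Finset.filter_subset_filter _ hsub)
        fun f hf _ => (ha0 f (Finset.mem_filter.1 hf).1).le
    rw [← Finset.mul_sum, ← mul_add]
    exact mul_le_of_le_one_right hν (by linarith)
  · intro e he
    have k1 := h10 e (hsub he) (Finset.mem_filter.1 he).2.ne'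
    rw [hdiv, div_eq_iff (ha0 e (hsub he)).ne'] at k1
    rw [← k1]
    exact Finset.sum_congr rfl fun M _ => by simp [ind, he]

end Pool.Agent.P.MP_553766_co
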