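import Mathlib
import Pool.Agent.P.MP_553766_co.Graph

set_option autoImplicit false

namespace Pool.Agent.P.MP_553766_co

open Finset

variable {V : Type} [Fintype V] [DecidableEq V]

lemma push {Ω : Type} [Fintype Ω] (P : Ω → ℝ) (Mf : Ω → Finset (Finset V))
    (F : Finset (Finset V) → ℝ) :
    ∑ M, (∑ ω ∈ univ.filter (fun ω => Mf ω = M), P ω) * F M = ∑ ω, P ω * F (Mf ω) := by
  rw [← Finset.sum_fiberwise univ Mf (fun ω => P ω * F (Mf ω))]
  refine Finset.sum_congr rfl fun M _ => ?_
  rw [Finset.sum_mul]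
  exact Finset.sum_congr rfl fun ω hω => by rw [(Finset.mem_filter.1 hω).2]

/-- probability distributions on the matchings of E -/
structure Dist (E : Finset (Finset V)) (p : Finset (Finset V) → ℝ) : Prop where
  nonneg : ∀ M, 0 ≤ p M
  sum : ∑ M, p M = 1
  supp : ∀ M, p M ≠ 0 → IsM E M

lemma dist_push {Ω : Type} [Fintype Ω] (E : Finset (Finset V)) (P : Ω → ℝ) (h0 : ∀ ω, 0 ≤ P ω)
    (h1 : ∑ ω, P ω = 1) (Mf : Ω → Finset (Finset V)) (hM : ∀ ω, P ω ≠ 0 → IsM E (Mf ω)) :
    ∃ p, Dist E p ∧ ∀ F : Finset (Finset V) → ℝ, ∑ M, p M * F M = ∑ ω, P ω * F (Mf ω) := by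
  refine ⟨fun M => ∑ ω ∈ univ.filter (fun ω => Mf ω = M), P ω,
    ⟨fun M => Finset.sum_nonneg fun ω _ => h0 ω, ?_, fun M h => ?_⟩, push P Mf⟩
  · have := push P Mf (fun _ => 1)
    simp only [mul_one] at this
    rw [this, h1]
  · obtain ⟨ω, hω, h2⟩ := Finset.exists_ne_zero_of_sum_ne_zero h
    exact (Finset.mem_filter.1 hω).2 ▸ hM ω h2

lemma thin (E : Finset (Finset V)) (c : ℝ) (hc : 0 < c) (p : Finset (Finset V) → ℝ)
    (hp : Dist E p) (hm : ∀ e ∈ E, c ≤ ∑ M, p M * ind M e) (S : Finset (Finset V)) (hS : S ⊆ E) :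
    ∃ q, Dist E q ∧ (∀ e ∈ E, c ≤ ∑ M, q M * ind M e) ∧ ∀ e ∈ S, ∑ M, q M * ind M e = c := by
  induction S using Finset.induction_on with
  | empty => exact ⟨p, hp, hm, by simp⟩
  | insert e0 S _ ih =>
    obtain ⟨q, hq, h1, h2⟩ := ih ((Finset.subset_insert _ _).trans hS)
    have he0 : e0 ∈ E := hS (Finset.mem_insert_self _ _)
    set m := ∑ M, q M * ind M e0 with hmdef
    have hcm : c ≤ m := h1 e0 he0
    have hm0 : 0 < m := hc.trans_le hcm
    have t0 : 0 ≤ c / m := by positivity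
    have t1 : c / m ≤ 1 := (div_le_one hm0).2 hcm
    obtain ⟨q', hq', hF⟩ := dist_push E
      (fun ω : Bool × Finset (Finset V) => (if ω.1 then c / m else 1 - c / m) * q ω.2)
      (fun ω => mul_nonneg (by split_ifs <;> linarith) (hq.nonneg _))
      (by
        rw [Fintype.sum_prod_type]
        simp [← Finset.mul_sum, hq.sum])
      (fun ω => if ω.1 then ω.2 else ω.2.erase e0)
      (fun ω h => by
        have h3 := hq.supp ω.2 (right_ne_zero_of_mul h)
        split_ifs
        · exact h3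
        · exact ⟨(Finset.erase_subset _ _).trans h3.1, fun e he f hf =>
            h3.2 e (Finset.mem_of_mem_erase he) f (Finset.mem_of_mem_erase hf)⟩)
    have h4 : ∀ e, ∑ M, q' M * ind M e =
        c / m * ∑ M, q M * ind M e + (1 - c / m) * ∑ M, q M * ind (M.erase e0) e := fun e => by
      rw [hF (fun M => ind M e), Fintype.sum_prod_type]
      simp [Finset.mul_sum, mul_assoc]
    have h5 : ∑ M, q' M * ind M e0 = c := by
      rw [h4, ← hmdef]
      simp [ind, hm0.ne']
    have h6 : ∀ e, e ≠ e0 → ∑ M, q' M * ind M e = ∑ M, q M * ind M e := fun e he => by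
      rw [h4]
      have : ∀ M : Finset (Finset V), ind (M.erase e0) e = ind M e := fun M => by simp [ind, he]
      simp only [this]
      ring
    refine ⟨q', hq', fun e he => ?_, fun e he => ?_⟩
    · by_cases h : e = e0
      · rw [h, h5]
      · rw [h6 e h]; exact h1 e he
    · by_cases h : e = e0
      · rw [h, h5]
      · rw [h6 e h]; exact h2 e ((Finset.mem_insert.1 he).resolve_left h)

lemma stage_one (E : Finset (Finset V)) (hne : ∀ e ∈ E, e.Nonempty)
    (hlin : ∀ e ∈ E, ∀ f ∈ E, e ≠ f → (e ∩ f).card ≤ 1) (h2 : ∀ e ∈ E, e.card ≠ 2) (D : ℕ)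
    (hD : ∀ v, ((E.filter (fun e => v ∈ e)).biUnion id).card ≤ D) (T : ℝ) (hT : D ≤ T)
    (hT0 : 0 < T) : ∃ p, Dist E p ∧ ∀ e ∈ E, ∑ M, p M * ind M e = 1 / T := by
  obtain ⟨w, h1, h3, h4, h5⟩ := main E hne hlin h2 D hD
  have h6 : (∑ M, w M) / T ≤ 1 := (div_le_one hT0).2 (h5.trans hT)
  obtain ⟨q, hq, -, h7⟩ := thin E (1 / T) (by positivity)
    (fun M => w M / T + if M = ∅ then 1 - (∑ M, w M) / T else 0)
    ⟨fun M => add_nonneg (div_nonneg (h1 M) hT0.le) (by split_ifs <;> linarith),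
      by simp [Finset.sum_add_distrib, Finset.sum_div], fun M hM => by
        by_cases h : M = ∅
        · simp [h, IsM]
        · exact h3 M fun h0 => hM (by simp [h, h0])⟩
    (fun e he => by
      have h8 : ∀ M : Finset (Finset V),
          (w M / T + if M = ∅ then 1 - (∑ M, w M) / T else 0) * ind M e = w M * ind M e / T :=
        fun M => by
          split_ifs with h
          · simp [h, ind]
          · ring
      simp only [h8, ← Finset.sum_div]
      exact div_le_div_of_nonneg_right (h4 e he) hT0.le) E le_rfl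
  exact ⟨q, hq, h7⟩

/-- number of edges with at least three points through the points of an edge -/
noncomputable def rho (E : Finset (Finset V)) (e : Finset V) : ℝ :=
  ∑ v ∈ e, ((E.filter (fun g => 3 ≤ g.card ∧ v ∈ g)).card : ℝ)

omit [Fintype V] in
lemma big_le (E : Finset (Finset V)) (hlin : ∀ e ∈ E, ∀ f ∈ E, e ≠ f → (e ∩ f).card ≤ 1)
    {v : V} {e : Finset V} (he : e ∈ E) (hv : v ∈ e) :
    2 * (E.filter (fun g => 3 ≤ g.card ∧ v ∈ g)).card + 1 ≤
      ((E.filter (fun e => v ∈ e)).biUnion id).card := by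
  refine le_trans (Nat.add_le_add_right ?_ 1)
    (nbhd_card E hlin v _ le_rfl ⟨e, Finset.mem_filter.2 ⟨he, hv⟩⟩)
  refine le_trans ?_ (Finset.sum_le_sum_of_subset (s := E.filter (fun g => 3 ≤ g.card ∧ v ∈ g))
    fun g hg => Finset.mem_filter.2 ⟨(Finset.mem_filter.1 hg).1, (Finset.mem_filter.1 hg).2.2⟩)
  rw [mul_comm, ← smul_eq_mul, ← Finset.sum_const]
  exact Finset.sum_le_sum fun g hg => by have := (Finset.mem_filter.1 hg).2.1; omega

theorem mixed (E : Finset (Finset V)) (hne : ∀ e ∈ E, e.Nonempty)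
    (hlin : ∀ e ∈ E, ∀ f ∈ E, e ≠ f → (e ∩ f).card ≤ 1) (D : ℕ)
    (hD : ∀ v, ((E.filter (fun e => v ∈ e)).biUnion id).card ≤ D) (T : ℝ) (hT : D ≤ T)
    (hH : ∀ e ∈ E, e.card = 2 → ∀ u ∈ e,
      ∑ f ∈ E.filter (fun f => f.card = 2 ∧ u ∈ f), 1 / (T - rho E f) + 1 / (T - rho E e) ≤ 1) :
    ∃ w : Finset (Finset V) → ℝ, (∀ M, 0 ≤ w M) ∧ (∀ M, w M ≠ 0 → IsM E M) ∧
      (∀ e ∈ E, 1 ≤ ∑ M, w M * ind M e) ∧ ∑ M, w M ≤ T := by
  classical
  rcases Finset.eq_empty_or_nonempty E with rfl | ⟨e0, he0⟩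
  · exact ⟨fun _ => 0, by simp, by simp, by simp, by simpa using le_trans (by positivity) hT⟩
  have hr : ∀ e ∈ E, ∀ v ∈ e,
      2 * ((E.filter (fun g => 3 ≤ g.card ∧ v ∈ g)).card : ℝ) + 1 ≤ T := fun e he v hv =>
    le_trans (by exact_mod_cast (big_le E hlin he hv).trans (hD v)) hT
  have hT1 : 1 ≤ T := by
    obtain ⟨v, hv⟩ := hne e0 he0
    have := hr e0 he0 v hv
    have h0 : (0 : ℝ) ≤ (E.filter (fun g => 3 ≤ g.card ∧ v ∈ g)).card := by positivity
    linarith
  have hT0 : 0 < T := by linarith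
  have hrho : ∀ e ∈ E, e.card ≤ 2 → 1 ≤ T - rho E e := fun e he h2 => by
    have h1 : rho E e ≤ ∑ _v ∈ e, (T - 1) / 2 :=
      Finset.sum_le_sum fun v hv => by have := hr e he v hv; linarith
    rw [Finset.sum_const, nsmul_eq_mul] at h1
    have h3 : (e.card : ℝ) ≤ 2 := by exact_mod_cast h2
    nlinarith
  set E3 := E.filter (fun e => 3 ≤ e.card) with hE3
  have hs3 : E3 ⊆ E := Finset.filter_subset _ _
  obtain ⟨p, hp, hpm⟩ := stage_one E3 (fun e he => hne e (hs3 he))
    (fun e he f hf => hlin e (hs3 he) f (hs3 hf))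
    (fun e he => by have := (Finset.mem_filter.1 he).2; omega) D
    (fun v => le_trans (Finset.card_le_card (Finset.biUnion_subset_biUnion_of_subset_left _
      (Finset.filter_subset_filter _ hs3))) (hD v)) T hT hT0
  set F : Finset (Finset V) → Finset (Finset V) :=
    fun N => E.filter (fun e => e.card ≤ 2 ∧ ∀ v ∈ e, ¬ Cov N v) with hF
  have hFs : ∀ N, F N ⊆ E := fun N => Finset.filter_subset _ _
  have hF2 : ∀ N, ∀ e ∈ F N, e.card ≤ 2 := fun N e he => (Finset.mem_filter.1 he).2.1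
  have ha0 : ∀ e ∈ E, e.card ≤ 2 → 0 < 1 / (T - rho E e) := fun e he h2 =>
    one_div_pos.2 (by have := hrho e he h2; linarith)
  have hH' : ∀ e ∈ E, e.card ≤ 2 → ∀ u ∈ e,
      ∑ f ∈ E.filter (fun f => f.card = 2 ∧ u ∈ f), 1 / (T - rho E f) + 1 / (T - rho E e) ≤ 1 := by
    intro e he h2 u hu
    by_cases h : e.card = 2
    · exact hH e he h u hu
    have h1 : e = {u} := Finset.eq_singleton_iff_unique_mem.2
      ⟨hu, fun x hx => Finset.card_le_one.1 (by omega) x hx u hu⟩
    rcases Finset.eq_empty_or_nonempty (E.filter (fun f => f.card = 2 ∧ u ∈ f)) with h3 | ⟨g, hg⟩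
    · rw [h3, Finset.sum_empty, zero_add]
      have := hrho e he h2
      exact (div_le_one (by linarith)).2 this
    · obtain ⟨g1, g2, g3⟩ := Finset.mem_filter.1 hg
      refine le_trans (add_le_add le_rfl ?_) (hH g g1 g2 u g3)
      refine one_div_le_one_div_of_le (by have := hrho g g1 g2.le; linarith) (sub_le_sub_left ?_ _)
      exact Finset.sum_le_sum_of_subset_of_nonneg (by rw [h1]; simpa using g3)
        fun _ _ _ => by positivity
  have hq : ∀ N, ∃ q : Finset (Finset V) → ℝ, (∀ M, 0 ≤ q M) ∧ ∑ M, q M = 1 ∧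
      (∀ M, q M ≠ 0 → IsM (F N) M) ∧ ∀ e ∈ F N, 1 / (T - rho E e) ≤ ∑ M, q M * ind M e :=
    fun N => graph_W (F N) (fun e he => hne e (hFs N he)) (hF2 N) (fun e => 1 / (T - rho E e))
      (fun e he => ha0 e (hFs N he) (hF2 N e he)) fun e he u hu => by
        refine le_trans (add_le_add ?_ le_rfl) (hH' e (hFs N he) (hF2 N e he) u hu)
        exact Finset.sum_le_sum_of_subset_of_nonneg (Finset.filter_subset_filter _ (hFs N))
          fun f hf _ => (ha0 f (Finset.mem_filter.1 hf).1 (Finset.mem_filter.1 hf).2.1.le).le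
  choose q q0 q1 q2 q3 using hq
  obtain ⟨r, hr', hrF⟩ := dist_push E
    (fun ω : Finset (Finset V) × Finset (Finset V) => p ω.1 * q ω.1 ω.2)
    (fun ω => mul_nonneg (hp.nonneg _) (q0 _ _))
    (by
      rw [Fintype.sum_prod_type]
      simp [← Finset.mul_sum, q1, hp.sum])
    (fun ω => ω.1 ∪ ω.2)
    (fun ω h => by
      have k1 := hp.supp ω.1 (left_ne_zero_of_mul h)
      have k2 := q2 ω.1 ω.2 (right_ne_zero_of_mul h)
      have k3 : ∀ e ∈ ω.1, ∀ f ∈ ω.2, Disjoint e f := fun e he f hf =>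
        Finset.disjoint_left.2 fun v hv hv' => (Finset.mem_filter.1 (k2.1 hf)).2.2 v hv' ⟨e, he, hv⟩
      refine ⟨Finset.union_subset (k1.1.trans hs3) (k2.1.trans (hFs _)), fun e he f hf hef => ?_⟩
      rcases Finset.mem_union.1 he with he | he <;> rcases Finset.mem_union.1 hf with hf | hf
      · exact k1.2 e he f hf hef
      · exact k3 e he f hf
      · exact (k3 f hf e he).symm
      · exact k2.2 e he f hf hef)
  have hmarg : ∀ e ∈ E, 1 / T ≤ ∑ M, r M * ind M e := by
    intro e he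
    rw [hrF (fun M => ind M e), Fintype.sum_prod_type]
    by_cases h3 : 3 ≤ e.card
    · rw [← hpm e (Finset.mem_filter.2 ⟨he, h3⟩)]
      refine Finset.sum_le_sum fun N _ => ?_
      have k1 : p N * ind N e = ∑ M, p N * q N M * ind N e := by
        rw [← Finset.sum_mul, ← Finset.mul_sum, q1, mul_one]
      rw [k1]
      refine Finset.sum_le_sum fun M _ => mul_le_mul_of_nonneg_left ?_
        (mul_nonneg (hp.nonneg _) (q0 _ _))
      unfold ind
      by_cases h : e ∈ N
      · simp [h]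
      · rw [if_neg h]; split_ifs <;> norm_num
    · have h2 : e.card ≤ 2 := by omega
      have a0 := ha0 e he h2
      have k0 : ∀ v, ∑ N, p N * cv E3 (ind N) v =
          ((E.filter (fun g => 3 ≤ g.card ∧ v ∈ g)).card : ℝ) * (1 / T) := fun v => by
        have h1 := aff_cv (E := E3) (p := p) (X := fun N => ind N) v
        unfold Aff at h1
        beta_reduce at h1
        rw [h1, ← Finset.filter_filter, ← nsmul_eq_mul, ← Finset.sum_const]
        exact Finset.sum_congr rfl fun g hg => hpm g (Finset.mem_filter.1 hg).1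
      have k1 : ∑ N, p N * (1 / (T - rho E e) * (1 - ∑ v ∈ e, cv E3 (ind N) v)) = 1 / T := by
        have k2 : ∀ N, p N * (1 / (T - rho E e) * (1 - ∑ v ∈ e, cv E3 (ind N) v)) =
            1 / (T - rho E e) * (p N - ∑ v ∈ e, p N * cv E3 (ind N) v) := fun N => by
          rw [← Finset.mul_sum]; ring
        simp only [k2]
        rw [← Finset.mul_sum, Finset.sum_sub_distrib, hp.sum, Finset.sum_comm]
        simp only [k0]
        rw [← Finset.sum_mul]
        have k3 := hrho e he h2
        change 1 / (T - rho E e) * (1 - rho E e * (1 / T)) = 1 / T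
        have k4 : T - rho E e ≠ 0 := by linarith
        field_simp
      rw [← k1]
      refine Finset.sum_le_sum fun N _ => ?_
      by_cases hN : p N = 0
      · simp [hN]
      have k5 : ∑ M, p N * q N M * ind (N ∪ M) e = p N * ∑ M, q N M * ind (N ∪ M) e := by
        rw [Finset.mul_sum]
        exact Finset.sum_congr rfl fun M _ => by ring
      rw [k5]
      refine mul_le_mul_of_nonneg_left ?_ (hp.nonneg N)
      have k6 : ∀ v, cv E3 (ind N) v = if Cov N v then 1 else 0 := cv_ind (hp.supp N hN)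
      have k7 : ∀ v ∈ e, 0 ≤ cv E3 (ind N) v := fun v _ => by rw [k6]; split_ifs <;> norm_num
      by_cases hf : e ∈ F N
      · refine le_trans (mul_le_of_le_one_right a0.le (by
          have := Finset.sum_nonneg k7; linarith)) ((q3 N e hf).trans ?_)
        refine Finset.sum_le_sum fun M _ => mul_le_mul_of_nonneg_left ?_ (q0 _ _)
        unfold ind
        by_cases h : e ∈ M
        · simp [h]
        · rw [if_neg h]; split_ifs <;> norm_num
      · obtain ⟨v, hv, hc⟩ : ∃ v ∈ e, Cov N v := by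
          by_contra hc
          push Not at hc
          exact hf (Finset.mem_filter.2 ⟨he, h2, hc⟩)
        have k8 := Finset.single_le_sum k7 hv
        rw [k6, if_pos hc] at k8
        refine le_trans (mul_nonpos_of_nonneg_of_nonpos a0.le (by linarith)) ?_
        exact Finset.sum_nonneg fun M _ => mul_nonneg (q0 _ _) (by
          unfold ind; split_ifs <;> norm_num)
  refine ⟨fun M => T * r M, fun M => mul_nonneg hT0.le (hr'.nonneg M),
    fun M h => hr'.supp M (right_ne_zero_of_mul h), fun e he => ?_, ?_⟩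
  · simp only [mul_assoc, ← Finset.mul_sum]
    have := hmarg e he
    rwa [div_le_iff₀ hT0, mul_comm] at this
  · rw [← Finset.mul_sum, hr'.sum, mul_one]

end Pool.Agent.P.MP_553766_co
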