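import Mathlib
import Pool.Agent.P.MP_553766_co.Mixed

set_option autoImplicit false

/-! Definitions for the large degree case. -/

namespace Pool.Agent.P.MP_553766_co.Lg

open Finset Pool.Agent.P.MP_553766_co

noncomputable section

/-- expectation with respect to the weights p -/
def Ex {Ω : Type} [Fintype Ω] (p f : Ω → ℝ) : ℝ := ∑ ω, p ω * f ω

open Classical in
/-- indicator of a proposition -/
def I (P : Prop) : ℝ := if P then 1 else 0

/-- probability weights -/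
structure IsProb {Ω : Type} [Fintype Ω] (p : Ω → ℝ) : Prop where
  nonneg : ∀ ω, 0 ≤ p ω
  total : ∑ ω, p ω = 1

/-- a matching together with its good part -/
abbrev Om (V : Type) : Type := Finset (Finset V) × Finset (Finset V)

variable {V : Type} [Fintype V] [DecidableEq V]

/-- size minus one -/
def lam (e : Finset V) : ℝ := (e.card : ℝ) - 1

/-- pairwise disjoint family -/
def PD (J : Finset (Finset V)) : Prop := ∀ e ∈ J, ∀ f ∈ J, e ≠ f → Disjoint e f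

/-- a linear hypergraph with edges of size at least three and shadow degree at most D - 1 -/
structure Hyp (B : Finset (Finset V)) (D : ℕ) : Prop where
  big : ∀ e ∈ B, 3 ≤ e.card
  lin : ∀ e ∈ B, ∀ f ∈ B, e ≠ f → (e ∩ f).card ≤ 1
  deg : ∀ v, ∑ e ∈ B.filter (fun e => v ∈ e), lam e ≤ (D : ℝ) - 1

/-- joint bound of an edge -/
def bw (D K : ℕ) (η L : ℝ) (e : Finset V) : ℝ := if e.card ≤ K then (1 + η) / D else L / D

/-- what the first stage delivers -/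
structure Spec (B : Finset (Finset V)) (D K Λ l : ℕ) (η L θ : ℝ) (p : Om V → ℝ) : Prop where
  prob : IsProb p
  supp : ∀ ω, p ω ≠ 0 → IsM B ω.1 ∧ ω.2 ⊆ ω.1 ∧ ∀ e ∈ ω.1, e.card ≤ K → e ∈ ω.2
  marg : ∀ e ∈ B, Ex p (fun ω => I (e ∈ ω.1)) = 1 / D
  lower : ∀ J ⊆ B, (∀ e ∈ J, e.card ≤ K) → PD J → J.card ≤ 4 →
    (1 - η) * (1 / D) ^ J.card ≤ Ex p (fun ω => I (J ⊆ ω.1))
  upper : ∀ J ⊆ B, J.card ≤ l → Ex p (fun ω => I (J ⊆ ω.2)) ≤ ∏ e ∈ J, bw D K η L e
  bad : ∀ e ∈ B, Ex p (fun ω => I (e ∈ ω.1 ∧ e ∉ ω.2)) ≤ θ / D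
  cross : ∀ e ∈ B, ∀ f ∈ B, Λ + 1 < e.card → f.card ≤ K →
    Ex p (fun ω => I (e ∈ ω.1 ∧ f ∈ ω.1)) ≤ (1 + η) / D ^ 2

/-! ### constants -/

def eps : ℝ := 1 / 10 ^ 7
def kap : ℝ := 1 / 10 ^ 4
def del : ℝ := 1 / 10 ^ 16
def kp : ℝ := 1 / 10 ^ 21
def rho : ℝ := 1 / 5
def tau : ℝ := 1 / 10 ^ 100
def tau1 : ℝ := 1 / 10 ^ 50
def c0 : ℝ := 1 / 10 ^ 15
def c1 : ℝ := 1 / 10 ^ 29

/-- smallness conditions on the parameters -/
structure Good (D K Λ l : ℕ) (η L θ A0 : ℝ) : Prop where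
  eta0 : 0 ≤ η
  L1 : 1 ≤ L
  th0 : 0 ≤ θ
  A1 : 1 ≤ A0
  l4 : 4 ≤ l
  g1 : η * A0 ^ 2 ≤ tau
  g2 : A0 ≤ tau * K
  g3 : (K : ℝ) ^ 2 * A0 ^ 2 ≤ tau * D
  g4 : L ^ 2 ≤ tau * K
  g5 : θ * (D : ℝ) ^ 4 ≤ tau
  g6 : L ^ 2 * (l : ℝ) ^ 3 ≤ tau * A0
  g7 : (0.998 : ℝ) ^ l * (D : ℝ) ^ 5 ≤ tau
  g8 : 2 * Λ + 4 ≤ D
  g9 : K ≤ Λ

/-- the data of the second stage: big edges, neighbourhoods in the graph of pairs, parameters
and the law of the first stage -/
structure Dat (V : Type) where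
  B : Finset (Finset V)
  nb : V → Finset V
  D : ℕ
  K : ℕ
  Λ : ℕ
  l : ℕ
  η : ℝ
  L : ℝ
  θ : ℝ
  A0 : ℝ
  p : Om V → ℝ

namespace Dat

variable (d : Dat V)

structure Ok : Prop where
  hyp : Hyp d.B d.D
  symm : ∀ u w, w ∈ d.nb u → u ∈ d.nb w
  irr : ∀ u, u ∉ d.nb u
  sep : ∀ u w, w ∈ d.nb u → ∀ e ∈ d.B, u ∈ e → w ∉ e
  deg : ∀ v, ((d.nb v).card : ℝ) + ∑ e ∈ d.B.filter (fun e => v ∈ e), lam e ≤ (d.D : ℝ) - 1
  good : Good d.D d.K d.Λ d.l d.η d.L d.θ d.A0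
  spec : Spec d.B d.D d.K d.Λ d.l d.η d.L d.θ d.p

/-- expectation -/
def E (f : Om V → ℝ) : ℝ := Ex d.p f
/-- the small big edges -/
def sm : Finset (Finset V) := d.B.filter (fun e => e.card ≤ d.K)
/-- v is not covered -/
def free (_d : Dat V) (ω : Om V) (v : V) : Prop := ¬ ∃ e ∈ ω.1, v ∈ e
/-- v is covered by a small edge -/
def sb (ω : Om V) (v : V) : Prop := ∃ e ∈ ω.1, v ∈ e ∧ e.card ≤ d.K
/-- v is covered by an edge that is not small -/
def nsb (ω : Om V) (v : V) : Prop := ∃ e ∈ ω.1, v ∈ e ∧ d.K < e.card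
/-- probability that v is covered -/
def pv (v : V) : ℝ := ((d.B.filter (fun e => v ∈ e)).card : ℝ) / d.D
/-- probability that v is covered by a small edge -/
def ps (v : V) : ℝ := ((d.sm.filter (fun e => v ∈ e)).card : ℝ) / d.D
/-- relative deficiency -/
def A (v : V) : ℝ := ((d.D : ℝ) - 1 - (d.nb v).card) / d.D
/-- static share -/
def al (v : V) : ℝ := (d.D : ℝ) / ((d.nb v).card + 1)
def light (v : V) : Prop := d.A v ≤ eps
instance (v : V) : Decidable (d.light v) := Classical.dec _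
/-- total deficiency of a set -/
def AW (W : Finset V) : ℝ := ∑ w ∈ W, d.A w
/-- error in the product formula for small edges -/
def eta2 : ℝ := 5 * d.η + 20 * d.K / d.D
/-- error in the covariance bound -/
def eta3 : ℝ := 2 * d.η + 4 * d.L ^ 2 / d.K + d.θ * d.D
def Pf (u w : V) : ℝ := d.E (fun ω => I (d.free ω u ∧ d.free ω w))
def nn (u w : V) : ℝ := 1 / d.Pf u w
def nu (u w : V) : ℝ := d.nn u w * (d.al u / (d.al u + d.al w))
/-- target of u on the pair u w -/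
def tg (u w : V) : ℝ := if d.light u ∧ d.light w then d.al u / (d.al u + d.al w) else 1
/-- nominal value of u on the pair u w -/
def nv (u w : V) : ℝ := if d.light u ∧ d.light w then d.nu u w else d.nn u w
def eb (w : V) : ℝ := (1 - kap) * d.A w / 2
def CC (w : V) : ℝ := min 5 ((1 - kp) * d.al w)
def cb (u w : V) : ℝ := (1 + eps ^ 2 / 8) / ((1 - d.pv u) * (1 - d.pv w))
/-- light neighbours -/
def nL (u : V) : Finset V := (d.nb u).filter (fun w => d.light w)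
/-- heavy neighbours -/
def nH (u : V) : Finset V := (d.nb u).filter (fun w => ¬ d.light w)
/-- the static condition -/
def ST (u : V) : Prop :=
  ∑ w ∈ d.nb u, d.nn u w + ((d.nL u).card : ℝ) * (d.eb u + rho / d.D) ≤ d.D
/-- critical neighbours -/
def crit (u : V) : Finset V := (d.nb u).filter (fun w => 3 / 8 < d.pv w)
/-- u shifts load between the two states of its designated neighbour -/
def act (u : V) : Prop := d.A u ≤ del ∧ ¬ d.ST u ∧ Odd (d.crit u).card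
instance (u : V) : Decidable (d.act u) := Classical.dec _
instance (ω : Om V) (u : V) : Decidable (d.free ω u) := Classical.dec _
/-- designated neighbour -/
def w0 (u : V) : V := if h : (d.crit u).Nonempty then h.choose else u
def qq (u w : V) : ℝ :=
  d.E (fun ω => I (¬ d.free ω (d.w0 u) ∧ d.free ω u ∧ d.free ω w)) / d.Pf u w
/-- the shift -/
def xi (u w : V) (ω : Om V) : ℝ :=
  if d.act u then
    (if d.free ω (d.w0 u) then -(rho * d.qq u w / (1 - d.qq u w)) else rho) / d.D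
  else 0
/-- order on the points -/
def prec (u w : V) : Prop :=
  d.A u < d.A w ∨ (d.A u = d.A w ∧ Fintype.equivFin V u < Fintype.equivFin V w)
/-- u controls a part of the pair u w -/
def ctrl (u w : V) : Prop := d.light u ∨ (¬ d.light w ∧ d.prec u w)
instance (u w : V) : Decidable (d.ctrl u w) := Classical.dec _
def ctl (u : V) : Finset V := (d.nb u).filter (fun w => d.ctrl u w)
def cap (u w : V) (ω : Om V) : ℝ :=
  I (d.free ω u ∧ d.free ω w) *
    (if d.light u then (if d.light w then d.nu u w + d.eb w + d.xi u w ω else d.CC w)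
      else d.cb u w)
def hh (u w : V) (ω : Om V) : ℝ :=
  I (d.free ω u ∧ d.free ω w) *
    (if d.light u then (if d.light w then 0 else min (d.al w) (2 * d.CC w)) else 2 * d.cb u w)
def pool (u : V) (ω : Om V) : ℝ :=
  d.D - ∑ w ∈ (d.nb u).filter (fun w => d.ctrl w u), d.cap w u ω
def beta (u : V) : ℝ :=
  if ((d.nH u).card : ℝ) ≤ d.D / 20 then 1 + 10 * eps + 20 * (d.nH u).card / d.D else 5
def bud (u : V) : ℝ := if d.light u then d.D - d.beta u else 0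
/-- rank function of the region of u -/
def ff (u : V) (W : Finset V) (ω : Om V) : ℝ :=
  min (d.pool u ω) (min (∑ w ∈ W, d.cap u w ω) (d.bud u / 2 + ∑ w ∈ W, d.hh u w ω / 2))
/-- the cut condition -/
def Star (u : V) (W : Finset V) : Prop := ∑ w ∈ W, d.tg u w ≤ d.E (d.ff u W)

/-- nominal load of W -/
def nom (u : V) (W : Finset V) (ω : Om V) : ℝ := ∑ w ∈ W, I (d.free ω w) * d.nv u w
def PP (u : V) (W : Finset V) (ω : Om V) : ℝ := d.pool u ω - d.nom u W ω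
def QQ (u : V) (W : Finset V) (ω : Om V) : ℝ := ∑ w ∈ W, d.cap u w ω - d.nom u W ω
def RR (u : V) (W : Finset V) (ω : Om V) : ℝ :=
  d.bud u / 2 + ∑ w ∈ W, d.hh u w ω / 2 - d.nom u W ω
def gam (u : V) : ℝ :=
  d.D - ((d.nb u).card : ℝ) / (1 - d.pv u) - ((d.nL u).card : ℝ) * d.eb u
def Zp (u : V) (W : Finset V) (ω : Om V) : ℝ :=
  ∑ w ∈ W, (1 / (1 - d.pv u) - d.nn u w * I (d.free ω w))
def mW (u : V) (W : Finset V) : ℝ := ∑ w ∈ W, (d.nn u w - 1 / (1 - d.pv u))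
/-- shifts received by u -/
def noise (u : V) (ω : Om V) : ℝ := ∑ w ∈ d.nL u, I (d.free ω w) * d.xi w u ω
/-- shifts made by u -/
def Xi (u : V) (W : Finset V) (ω : Om V) : ℝ :=
  ∑ w ∈ W.filter (fun w => d.light w), I (d.free ω w) * d.xi u w ω
def chi (u w : V) : ℝ := if d.light w then d.nn u w + d.eb w else d.CC w
/-- excess for the values ch -/
def YY (u : V) (W : Finset V) (ch : V → ℝ) (ω : Om V) : ℝ :=
  ∑ w ∈ W, (ch w * I (d.free ω w) - 1 / (1 - d.pv u))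
/-- number of neighbours outside W -/
def out (u : V) (W : Finset V) : ℝ := ((d.nb u \ W).card : ℝ)
def core (u : V) (W : Finset V) (ω : Om V) : ℝ :=
  min (d.gam u + 0.49 * d.out u W - d.noise u ω)
    (min (d.YY u W (d.chi u) ω + d.Xi u W ω)
      (d.YY u W (d.chi u) ω / 2 + (1 - d.beta u) / 2 + d.out u W / 2))

/-- centred indicator of being covered by a small edge -/
def sv (v : V) (ω : Om V) : ℝ := I (d.sb ω v) - d.ps v
/-- the fluctuation used in the second moment bound -/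
def ZZ (W : Finset V) (co om : V → ℝ) (Cr : Finset V) (t : V → V) (Cg : ℝ) (ω : Om V) : ℝ :=
  ∑ w ∈ W, co w * d.sv w ω - ∑ a, om a * d.sv a ω + Cg / 2 * ∑ a ∈ Cr, d.sv a ω * d.sv (t a) ω
/-- linear form in the small edges -/
def Lin (b : Finset V → ℝ) (ω : Om V) : ℝ := ∑ e ∈ d.sm, b e * (I (e ∈ ω.1) - 1 / d.D)
/-- model value of the second moment -/
def Qm (b b' : Finset V → ℝ) : ℝ :=
  ∑ e ∈ d.sm, b e * b' e / d.D -
    ∑ e ∈ d.sm, ∑ f ∈ d.sm.filter (fun f => f ≠ e ∧ ¬ Disjoint e f), b e * b' f / (d.D : ℝ) ^ 2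
/-- weight of an edge -/
def JJ (_d : Dat V) (W : Finset V) (co : V → ℝ) (e : Finset V) : ℝ := ∑ w ∈ e ∩ W, co w
/-- small edges whose only heavy point in W is a -/
def E1 (W : Finset V) (a : V) : Finset (Finset V) :=
  d.sm.filter (fun e => (e ∩ W).filter (fun w => ¬ d.light w) = {a})
/-- small edges with no heavy point in W -/
def E0 (W : Finset V) : Finset (Finset V) :=
  d.sm.filter (fun e => (e ∩ W).filter (fun w => ¬ d.light w) = ∅)
def Lf (W : Finset V) (e : Finset V) : ℝ :=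
  (((e ∩ W).filter (fun w => d.light w)).card : ℝ) * lam e / (2 * d.D)
def La (W : Finset V) (a : V) : ℝ := ∑ e ∈ d.E1 W a, d.Lf W e
def L0 (W : Finset V) : ℝ := ∑ e ∈ d.E0 W, d.Lf W e
def mu (W : Finset V) (co : V → ℝ) (a : V) : ℝ :=
  ∑ e ∈ d.E1 W a, (∑ w ∈ (e ∩ W).filter (fun w => d.light w), co w) / d.D
/-- bound for the contribution of a heavy point -/
def Va (W : Finset V) (co : V → ℝ) (a : V) : ℝ :=
  co a ^ 2 * d.pv a * (1 - d.pv a) + 2 * co a * (1 - d.pv a) * d.mu W co a +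
    2 * (1 + 3 * eps) ^ 2 * d.La W a - d.mu W co a ^ 2

/-- what a point delivers -/
structure VGood (u : V) (z a : V → Om V → ℝ) : Prop where
  nonneg : ∀ w ∈ d.ctl u, ∀ ω, 0 ≤ z w ω
  le_cap : ∀ w ∈ d.ctl u, ∀ ω, z w ω ≤ d.cap u w ω
  load : ∀ ω, ∑ w ∈ d.ctl u, z w ω ≤ d.pool u ω
  mean : ∀ w ∈ d.ctl u, d.tg u w ≤ d.E (z w)
  cert : ∀ ω, ∀ J ⊆ d.nb u, ∑ w ∈ J, a w ω ≤ d.D * J.card / (J.card + 1)
  edge : ∀ w ∈ d.ctl u, ∀ ω,
    2 * z w ω ≤ a w ω + (if d.light u ∧ d.light w then 0 else d.al w)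
  heavy : ¬ d.light u → ∀ w ∈ d.nb u, ∀ ω, d.al u ≤ a w ω

/-- what the second stage delivers -/
structure ZGood (z a : V → V → Om V → ℝ) : Prop where
  symm : ∀ u w ω, z u w ω = z w u ω
  nonneg : ∀ u, ∀ w ∈ d.nb u, ∀ ω, 0 ≤ z u w ω
  zero : ∀ u, ∀ w ∈ d.nb u, ∀ ω, ¬ d.free ω u → z u w ω = 0
  load : ∀ u ω, ∑ w ∈ d.nb u, z u w ω ≤ d.D
  mean : ∀ u, ∀ w ∈ d.nb u, 1 ≤ d.E (z u w)
  cert : ∀ u ω, ∀ J ⊆ d.nb u, ∑ w ∈ J, a u w ω ≤ d.D * J.card / (J.card + 1)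
  edge : ∀ u, ∀ w ∈ d.nb u, ∀ ω, 2 * z u w ω ≤ a u w ω + a w u ω

end Dat

end

end Pool.Agent.P.MP_553766_co.Lg
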