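import Mathlib
import Pool.Agent.P.MP_553766_co.LDefs

set_option autoImplicit false

/-! Expectation toolbox, and the definitions of the first stage. -/

namespace Pool.Agent.P.MP_553766_co.Lg

open Finset Pool.Agent.P.MP_553766_co

noncomputable section

section ind
variable {P Q : Prop}

lemma I_pos (h : P) : I P = 1 := by unfold I; rw [if_pos h]
lemma I_neg (h : ¬ P) : I P = 0 := by unfold I; rw [if_neg h]
lemma I_nonneg (P : Prop) : 0 ≤ I P := by unfold I; split_ifs <;> norm_num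
lemma I_le_one (P : Prop) : I P ≤ 1 := by unfold I; split_ifs <;> norm_num
lemma I_congr (h : P ↔ Q) : I P = I Q := by rw [propext h]
lemma I_mono (h : P → Q) : I P ≤ I Q := by
  by_cases hp : P
  · rw [I_pos hp, I_pos (h hp)]
  · rw [I_neg hp]; exact I_nonneg Q
lemma I_and (P Q : Prop) : I (P ∧ Q) = I P * I Q := by
  by_cases hp : P <;> by_cases hq : Q <;> simp [I, hp, hq]
lemma I_not (P : Prop) : I (¬ P) = 1 - I P := by
  by_cases hp : P <;> simp [I, hp]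
lemma I_or_le (P Q : Prop) : I (P ∨ Q) ≤ I P + I Q := by
  by_cases hp : P <;> by_cases hq : Q <;> simp [I, hp, hq]
lemma I_mul_self (P : Prop) : I P * I P = I P := by
  by_cases hp : P <;> simp [I, hp]
lemma I_eq_ite (P : Prop) [Decidable P] : I P = if P then 1 else 0 := by
  by_cases hp : P <;> simp [I, hp]
lemma I_exists_le {ι : Type} (s : Finset ι) (R : ι → Prop) :
    I (∃ i ∈ s, R i) ≤ ∑ i ∈ s, I (R i) := by
  by_cases h : ∃ i ∈ s, R i
  · obtain ⟨i, hi, hR⟩ := h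
    rw [I_pos ⟨i, hi, hR⟩, ← I_pos hR]
    exact Finset.single_le_sum (f := fun i => I (R i)) (fun j _ => I_nonneg _) hi
  · rw [I_neg h]; exact Finset.sum_nonneg fun j _ => I_nonneg _
end ind

section ex
variable {Ω : Type} [Fintype Ω] {p : Ω → ℝ}

lemma Ex_add (f g : Ω → ℝ) : Ex p (fun ω => f ω + g ω) = Ex p f + Ex p g := by
  simp [Ex, mul_add, Finset.sum_add_distrib]
lemma Ex_sub (f g : Ω → ℝ) : Ex p (fun ω => f ω - g ω) = Ex p f - Ex p g := by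
  simp [Ex, mul_sub, Finset.sum_sub_distrib]
lemma Ex_neg (f : Ω → ℝ) : Ex p (fun ω => - f ω) = - Ex p f := by
  simp [Ex, Finset.sum_neg_distrib]
lemma Ex_const_mul (c : ℝ) (f : Ω → ℝ) : Ex p (fun ω => c * f ω) = c * Ex p f := by
  simp only [Ex, Finset.mul_sum]; exact Finset.sum_congr rfl fun ω _ => by ring
lemma Ex_mul_const (c : ℝ) (f : Ω → ℝ) : Ex p (fun ω => f ω * c) = Ex p f * c := by
  simp only [Ex, Finset.sum_mul]; exact Finset.sum_congr rfl fun ω _ => by ring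
lemma Ex_div_const (c : ℝ) (f : Ω → ℝ) : Ex p (fun ω => f ω / c) = Ex p f / c := by
  simp only [div_eq_mul_inv]; exact Ex_mul_const _ f
lemma Ex_sum {ι : Type} (s : Finset ι) (f : ι → Ω → ℝ) :
    Ex p (fun ω => ∑ i ∈ s, f i ω) = ∑ i ∈ s, Ex p (f i) := by
  simp only [Ex, Finset.mul_sum]; exact Finset.sum_comm
lemma Ex_zero : Ex p (fun _ => 0) = 0 := by simp [Ex]
lemma Ex_const (hp : IsProb p) (c : ℝ) : Ex p (fun _ => c) = c := by
  simp only [Ex]; rw [← Finset.sum_mul, hp.total, one_mul]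
lemma Ex_congr {f g : Ω → ℝ} (h : ∀ ω, p ω ≠ 0 → f ω = g ω) : Ex p f = Ex p g := by
  refine Finset.sum_congr rfl fun ω _ => ?_
  by_cases h0 : p ω = 0
  · simp [h0]
  · rw [h ω h0]
lemma Ex_mono (hp : ∀ ω, 0 ≤ p ω) {f g : Ω → ℝ} (h : ∀ ω, p ω ≠ 0 → f ω ≤ g ω) :
    Ex p f ≤ Ex p g := by
  refine Finset.sum_le_sum fun ω _ => ?_
  by_cases h0 : p ω = 0
  · simp [h0]
  · exact mul_le_mul_of_nonneg_left (h ω h0) (hp ω)
lemma Ex_nonneg (hp : ∀ ω, 0 ≤ p ω) {f : Ω → ℝ} (h : ∀ ω, p ω ≠ 0 → 0 ≤ f ω) : 0 ≤ Ex p f := by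
  have := Ex_mono hp (f := fun _ => 0) (g := f) h
  rwa [Ex_zero] at this
lemma Ex_le_const (hp : IsProb p) {f : Ω → ℝ} {c : ℝ} (h : ∀ ω, p ω ≠ 0 → f ω ≤ c) :
    Ex p f ≤ c := by
  have := Ex_mono hp.nonneg (f := f) (g := fun _ => c) h
  rwa [Ex_const hp] at this
lemma Ex_I_not (hp : IsProb p) (P : Ω → Prop) :
    Ex p (fun ω => I (¬ P ω)) = 1 - Ex p (fun ω => I (P ω)) := by
  simp only [I_not]; rw [Ex_sub, Ex_const hp]
lemma Ex_I_nonneg (hp : ∀ ω, 0 ≤ p ω) (P : Ω → Prop) : 0 ≤ Ex p (fun ω => I (P ω)) :=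
  Ex_nonneg hp fun _ _ => I_nonneg _
lemma Ex_I_le_one (hp : IsProb p) (P : Ω → Prop) : Ex p (fun ω => I (P ω)) ≤ 1 :=
  Ex_le_const hp fun _ _ => I_le_one _

/-- image of a law under a random map with finitely many outcomes -/
def pushK {Ω' Ev : Type} [Fintype Ev] (p : Ω → ℝ) (w : Ω → Ev → ℝ) (up : Ω → Ev → Ω') :
    Ω' → ℝ := fun s' => ∑ s, ∑ ev, p s * w s ev * I (s' = up s ev)

lemma Ex_pushK {Ω' Ev : Type} [Fintype Ω'] [Fintype Ev] (p : Ω → ℝ) (w : Ω → Ev → ℝ)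
    (up : Ω → Ev → Ω') (φ : Ω' → ℝ) :
    Ex (pushK p w up) φ = Ex p (fun s => ∑ ev, w s ev * φ (up s ev)) := by
  classical
  simp only [Ex, pushK, Finset.sum_mul, Finset.mul_sum]
  rw [Finset.sum_comm]
  refine Finset.sum_congr rfl fun s _ => ?_
  rw [Finset.sum_comm]
  refine Finset.sum_congr rfl fun ev _ => ?_
  simp only [I_eq_ite]
  rw [Finset.sum_eq_single (up s ev)]
  · simp; ring
  · intro b _ hb; simp [hb]
  · simp

lemma pushK_prob {Ω' Ev : Type} [Fintype Ω'] [Fintype Ev] (hp : IsProb p) (w : Ω → Ev → ℝ)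
    (hw : ∀ s, p s ≠ 0 → IsProb (w s)) (up : Ω → Ev → Ω') : IsProb (pushK p w up) := by
  constructor
  · intro s'
    refine Finset.sum_nonneg fun s _ => Finset.sum_nonneg fun ev _ => ?_
    by_cases h : p s = 0
    · simp [h]
    · exact mul_nonneg (mul_nonneg (hp.nonneg s) ((hw s h).nonneg ev)) (I_nonneg _)
  · have h1 := Ex_pushK p w up (fun _ => 1)
    have h2 : Ex p (fun s => ∑ ev, w s ev * 1) = Ex p (fun _ => 1) :=
      Ex_congr fun s hs => by simpa using (hw s hs).total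
    rw [h2, Ex_const hp] at h1
    simpa [Ex] using h1

lemma pushK_supp {Ω' Ev : Type} [Fintype Ev] (p : Ω → ℝ) (w : Ω → Ev → ℝ) (up : Ω → Ev → Ω')
    {s' : Ω'} (h : pushK p w up s' ≠ 0) : ∃ s ev, p s ≠ 0 ∧ w s ev ≠ 0 ∧ s' = up s ev := by
  obtain ⟨s, _, h1⟩ := Finset.exists_ne_zero_of_sum_ne_zero h
  obtain ⟨ev, _, h2⟩ := Finset.exists_ne_zero_of_sum_ne_zero h1
  refine ⟨s, ev, fun h3 => h2 (by simp [h3]), fun h3 => h2 (by simp [h3]), ?_⟩
  by_contra h3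
  exact h2 (by simp [I_neg h3])
end ex

variable {V : Type} [Fintype V] [DecidableEq V]

/-! ### the top stage -/

/-- e is disjoint from all chosen edges -/
def avail (e : Finset V) (s : Om V) : Prop := ∀ f ∈ s.1, Disjoint e f

/-- add e to the matching, and to its good part if g is true -/
def addE (e : Finset V) (g : Bool) (s : Om V) : Om V :=
  (insert e s.1, if g then insert e s.2 else s.2)

/-- one step: if e is available it is added with probability r -/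
def ostep (p : Om V → ℝ) (e : Finset V) (r : ℝ) (g : Bool) : Om V → ℝ :=
  pushK p (fun s (b : Bool) => if b then r * I (avail e s) else 1 - r * I (avail e s))
    (fun s b => if b then addE e g s else s)

lemma Ex_ostep (p : Om V → ℝ) (e : Finset V) (r : ℝ) (g : Bool) (φ : Om V → ℝ) :
    Ex (ostep p e r g) φ =
      Ex p φ + r * Ex p (fun s => I (avail e s) * (φ (addE e g s) - φ s)) := by
  unfold ostep
  rw [Ex_pushK, ← Ex_const_mul, ← Ex_add]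
  refine Ex_congr fun s _ => ?_
  simp only [Fintype.sum_bool, if_true, Bool.false_eq_true, if_false]
  ring

lemma ostep_prob {p : Om V → ℝ} (hp : IsProb p) (e : Finset V) {r : ℝ} (h0 : 0 ≤ r) (h1 : r ≤ 1)
    (g : Bool) : IsProb (ostep p e r g) := by
  refine pushK_prob hp _ (fun s _ => ⟨fun b => ?_, ?_⟩) _
  · have := I_nonneg (avail e s)
    have := I_le_one (avail e s)
    cases b
    · simp only [Bool.false_eq_true, if_false]; nlinarith
    · simp only [if_true]; positivity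
  · simp

lemma ostep_supp {p : Om V → ℝ} {e : Finset V} {r : ℝ} {g : Bool} {s' : Om V}
    (h : ostep p e r g s' ≠ 0) : ∃ s, p s ≠ 0 ∧ (s' = s ∨ (avail e s ∧ s' = addE e g s)) := by
  obtain ⟨s, b, h1, h2, h3⟩ := pushK_supp _ _ _ h
  refine ⟨s, h1, ?_⟩
  cases b
  · left; simpa using h3
  · right
    refine ⟨?_, by simpa using h3⟩
    by_contra h4
    exact h2 (by simp [I_neg h4])

/-- the other edges of T that meet e -/
def nbE (T : Finset (Finset V)) (e : Finset V) : Finset (Finset V) :=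
  T.filter (fun f => f ≠ e ∧ ¬ Disjoint e f)

/-- number of chosen edges that meet e, minus one, cut off at zero -/
def XX (e : Finset V) (s : Om V) : ℝ := (((nbE s.1 e).card - 1 : ℕ) : ℝ)

/-- invariant of the top stage -/
structure Inv (T : Finset (Finset V)) (p : Om V → ℝ) (M c b G : Finset V → ℝ) : Prop where
  prob : IsProb p
  supp : ∀ s, p s ≠ 0 → IsM T s.1 ∧ s.2 ⊆ s.1
  marg : ∀ e ∈ T, Ex p (fun s => I (e ∈ s.1)) = M e
  cnn : ∀ e ∈ T, 0 ≤ c e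
  joint : ∀ J ⊆ T, Ex p (fun s => I (J ⊆ s.2)) ≤ ∏ e ∈ J, c e
  bad : ∀ e ∈ T, Ex p (fun s => I (e ∈ s.1 ∧ e ∉ s.2)) ≤ b e
  gain : ∀ e, G e ≤ Ex p (XX e)

/-- gain from a block of jumps -/
def gainF (T : Finset (Finset V)) (m : Finset V → ℝ) (e : Finset V) : ℝ :=
  if ∑ f ∈ nbE T e, m f ≤ 1.01 then
    (1 / 5) * ∑ f ∈ nbE T e, ∑ g ∈ (nbE T e).filter (fun g => Disjoint f g), m f * m g
  else 0

/-- the top edges -/
def topE (B : Finset (Finset V)) (Λ : ℕ) : Finset (Finset V) := B.filter (fun e => Λ + 1 < e.card)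
/-- the low edges -/
def lowE (B : Finset (Finset V)) (Λ : ℕ) : Finset (Finset V) := B.filter (fun e => e.card ≤ Λ + 1)

/-- jump masses of the middle class -/
def muB (D Λ S : ℕ) (t : ℝ) (f : Finset V) : ℝ :=
  if 8 * (Λ : ℝ) ≤ lam f ∧ lam f < 4 * (S : ℝ) then lam f * t / D else 0
/-- jump masses of the lowest class -/
def muC (D Λ : ℕ) (t : ℝ) (f : Finset V) : ℝ :=
  if lam f < 8 * (Λ : ℝ) then lam f * t / D else 0

def cc : ℝ := 1 / 10 ^ 5
def u0 : ℝ := 8 * 10 ^ 5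

structure TopPar (D Λ S : ℕ) : Prop where
  hS : D ≤ S ^ 2
  h1 : 10 ^ 6 * S ^ 2 ≤ Λ ^ 3
  h2 : 10 ^ 4 * S * Λ ≤ D
  h3 : 10 ^ 7 ≤ Λ

structure TopSpec (B : Finset (Finset V)) (D Λ : ℕ) (L θ : ℝ) (p : Om V → ℝ) : Prop where
  prob : IsProb p
  supp : ∀ s, p s ≠ 0 → IsM (topE B Λ) s.1 ∧ s.2 ⊆ s.1
  marg : ∀ e ∈ topE B Λ, Ex p (fun s => I (e ∈ s.1)) = 1 / D
  joint : ∀ J ⊆ topE B Λ, Ex p (fun s => I (J ⊆ s.2)) ≤ (L / D) ^ J.card
  bad : ∀ e ∈ topE B Λ, Ex p (fun s => I (e ∈ s.1 ∧ e ∉ s.2)) ≤ θ / D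
  unhit : ∀ e ∈ lowE B Λ, cc ≤ Ex p (fun s => I (avail e s)) ∧
    1 - (e.card : ℝ) / Λ ≤ Ex p (fun s => I (avail e s))

/-! ### the low stage -/

/-- dead points and chosen edges -/
abbrev St (V : Type) : Type := Finset V × Finset (Finset V)

structure LowDat (V : Type) where
  Lo : Finset (Finset V)
  D : ℕ
  dt : ℝ
  nw : Finset V → ℕ
  nmax : ℕ
  E0 : ℝ

namespace LowDat

variable (c : LowDat V)

structure Ok : Prop where
  hyp : Hyp c.Lo c.D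
  Dpos : 0 < c.D
  dt0 : 0 < c.dt
  dt1 : c.dt ≤ 1 / 2
  E1 : 1 ≤ c.E0
  grow : ∀ f ∈ c.Lo, (1 / (1 - c.dt)) ^ ((f.card - 1) * c.nw f) ≤ c.E0
  win : ∀ f ∈ c.Lo, lam f * c.nw f * c.dt ≤ u0
  le_max : ∀ f ∈ c.Lo, c.nw f ≤ c.nmax
  tmax : c.nmax * c.dt ≤ 4
  pos : c.dt * (c.Lo.card * c.E0 + Fintype.card V) ≤ 1

def rate (f : Finset V) (n : ℕ) : ℝ :=
  if n < c.nw f then 3 / 4 * lam f / c.D * (1 / (1 - c.dt)) ^ ((f.card - 1) * n) else 0

/-- total rate of the living edges through v -/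
def Lv (s : St V) (n : ℕ) (v : V) : ℝ :=
  ∑ f ∈ c.Lo.filter (fun f => v ∈ f ∧ Disjoint f s.1), c.rate f n

/-- transition operator -/
def Kop (n : ℕ) (φ : St V → ℝ) (s : St V) : ℝ :=
  φ s + c.dt * (∑ f ∈ c.Lo.filter (fun f => Disjoint f s.1),
      c.rate f n * (φ (s.1 ∪ f, insert f s.2) - φ s) +
    ∑ v ∈ univ.filter (fun v => v ∉ s.1), max (1 - c.Lv s n v) 0 * (φ (insert v s.1, s.2) - φ s))

/-- expectation after n steps, started with the dead set Z -/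
def Fw (Z : Finset V) : ℕ → (St V → ℝ) → ℝ
  | 0, φ => φ (Z, ∅)
  | n + 1, φ => Fw Z n (c.Kop n φ)

/-- model probability that e is chosen at time n or later -/
def vp (e : Finset V) (n : ℕ) : ℝ :=
  if n ≤ c.nw e then
    3 / 4 * lam e / c.D * (1 / (1 - c.dt)) ^ ((e.card - 1) * n) * (1 - (1 - c.dt) ^ (c.nw e - n))
  else 0

end LowDat

structure LowPar (D Λ l : ℕ) (η' : ℝ) : Prop where
  h0 : 0 < η'
  h1 : η' ≤ 1 / 100
  l4 : 4 ≤ l
  h2 : ((l : ℝ) * (Λ + 1)) ^ 2 * u0 * Real.exp (2 * u0) / D ≤ η' / 4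
  h3 : 64 * ((Λ : ℝ) + 1) * Real.exp (2 * u0) * (0.8 : ℝ) ^ l * (D : ℝ) ^ 4 ≤ η'
  Dpos : 0 < D

structure LowSpec (Lo : Finset (Finset V)) (D l : ℕ) (η' : ℝ) (vp : Finset V → ℝ)
    (q : Finset V → Finset (Finset V) → ℝ) : Prop where
  prob : ∀ Z, IsProb (q Z)
  supp : ∀ Z C, q Z C ≠ 0 → IsM Lo C ∧ ∀ e ∈ C, Disjoint e Z
  upper : ∀ Z, ∀ J ⊆ Lo, J.card ≤ l → Ex (q Z) (fun C => I (J ⊆ C)) ≤ (1 + η') * ∏ e ∈ J, vp e
  lower : ∀ Z, ∀ J ⊆ Lo, PD J → (∀ e ∈ J, Disjoint e Z) → J.card ≤ 4 →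
    (1 - η') * ∏ e ∈ J, vp e ≤ Ex (q Z) (fun C => I (J ⊆ C))
  vp1 : ∀ e ∈ Lo, 1.19 / D ≤ vp e
  vp2 : ∀ e ∈ Lo, u0 / 4 < lam e → 1.1 / (cc * D) ≤ vp e

end

end Pool.Agent.P.MP_553766_co.Lg
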