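import Mathlib
import Pool.Agent.P.MP_553766_co.LBase

set_option autoImplicit false

/-! Toolbox for the chain of the low stage. -/

namespace Pool.Agent.P.MP_553766_co.Lg

open Finset Pool.Agent.P.MP_553766_co

variable {V : Type} [Fintype V] [DecidableEq V]

omit [Fintype V] in
lemma Hyp.two_le_lam {B : Finset (Finset V)} {D : ℕ} (h : Hyp B D) {e : Finset V} (he : e ∈ B) :
    2 ≤ lam e := by
  have : (3 : ℝ) ≤ e.card := by exact_mod_cast h.big e he
  unfold lam; linarith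

omit [Fintype V] in
lemma Hyp.lam_le {B : Finset (Finset V)} {D : ℕ} (h : Hyp B D) {e : Finset V} (he : e ∈ B) :
    lam e ≤ (D : ℝ) - 1 := by
  obtain ⟨v, hv⟩ : e.Nonempty := Finset.card_pos.1 (by have := h.big e he; omega)
  refine le_trans ?_ (h.deg v)
  exact Finset.single_le_sum (f := lam)
    (fun f hf => by linarith [h.two_le_lam (Finset.mem_filter.1 hf).1])
    (Finset.mem_filter.2 ⟨he, hv⟩)

omit [Fintype V] in
lemma Hyp.mono {B B' : Finset (Finset V)} {D : ℕ} (h : Hyp B D) (hs : B' ⊆ B) : Hyp B' D :=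
  ⟨fun e he => h.big e (hs he), fun e he f hf => h.lin e (hs he) f (hs hf), fun v =>
    le_trans (Finset.sum_le_sum_of_subset_of_nonneg (Finset.filter_subset_filter _ hs)
      fun f hf _ => by linarith [h.two_le_lam (Finset.mem_filter.1 hf).1]) (h.deg v)⟩

omit [Fintype V] in
/-- two distinct points lie in at most one edge -/
lemma Hyp.eq_of_two {B : Finset (Finset V)} {D : ℕ} (h : Hyp B D) {e f : Finset V} (he : e ∈ B)
    (hf : f ∈ B) {a b : V} (hab : a ≠ b) (h1 : a ∈ e) (h2 : b ∈ e) (h3 : a ∈ f) (h4 : b ∈ f) :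
    e = f := by
  by_contra hne
  have := h.lin e he f hf hne
  exact hab (Finset.card_le_one.1 this a (Finset.mem_inter.2 ⟨h1, h3⟩) b
    (Finset.mem_inter.2 ⟨h2, h4⟩))

namespace LowDat

variable {c : LowDat V}

lemma one_le_base (h : c.Ok) : 1 ≤ 1 / (1 - c.dt) := by
  have := h.dt0; have := h.dt1
  rw [le_div_iff₀ (by linarith)]; linarith

lemma rate_nonneg (h : c.Ok) {f : Finset V} (hf : f ∈ c.Lo) (n : ℕ) : 0 ≤ c.rate f n := by
  unfold rate
  have h1 := h.hyp.two_le_lam hf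
  have h2 := one_le_base h
  split_ifs
  · positivity
  · exact le_rfl

lemma rate_le (h : c.Ok) {f : Finset V} (hf : f ∈ c.Lo) (n : ℕ) :
    c.rate f n ≤ 3 / 4 * lam f / c.D * c.E0 := by
  unfold rate
  have h1 := h.hyp.two_le_lam hf
  have h3 := h.E1
  split_ifs with hn
  · refine mul_le_mul_of_nonneg_left (le_trans ?_ (h.grow f hf)) (by positivity)
    exact pow_le_pow_right₀ (one_le_base h) (Nat.mul_le_mul_left _ hn.le)
  · positivity

lemma rate_le_E0 (h : c.Ok) {f : Finset V} (hf : f ∈ c.Lo) (n : ℕ) : c.rate f n ≤ c.E0 := by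
  refine (rate_le h hf n).trans ?_
  have h1 := h.hyp.lam_le hf
  have h2 := h.hyp.two_le_lam hf
  have h3 := h.E1
  have hD : (0 : ℝ) < c.D := by exact_mod_cast h.Dpos
  have : 3 / 4 * lam f / c.D ≤ 1 := by rw [div_le_one hD]; linarith
  nlinarith

lemma Lv_nonneg (h : c.Ok) (s : St V) (n : ℕ) (v : V) : 0 ≤ c.Lv s n v :=
  Finset.sum_nonneg fun _ hf => rate_nonneg h (Finset.mem_filter.1 hf).1 n

/-- the total rate times dt is at most one -/
lemma total_le (h : c.Ok) (s : St V) (n : ℕ) :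
    c.dt * (∑ f ∈ c.Lo.filter (fun f => Disjoint f s.1), c.rate f n +
      ∑ v ∈ univ.filter (fun v => v ∉ s.1), max (1 - c.Lv s n v) 0) ≤ 1 := by
  refine le_trans (mul_le_mul_of_nonneg_left (add_le_add ?_ ?_) h.dt0.le) h.pos
  · refine le_trans (Finset.sum_le_sum_of_subset_of_nonneg (Finset.filter_subset _ _)
      fun f hf _ => rate_nonneg h hf n) ?_
    have := Finset.sum_le_card_nsmul c.Lo (fun f => c.rate f n) c.E0 fun f hf => rate_le_E0 h hf n
    simpa using this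
  · have := Finset.sum_le_card_nsmul (univ.filter (fun v => v ∉ s.1))
      (fun v => max (1 - c.Lv s n v) 0) 1 fun v _ =>
        max_le (by linarith [Lv_nonneg h s n v]) zero_le_one
    refine this.trans ?_
    simp only [nsmul_eq_mul, mul_one]
    exact_mod_cast Finset.card_le_univ _

lemma Kop_add (n : ℕ) (φ ψ : St V → ℝ) :
    c.Kop n (fun s => φ s + ψ s) = fun s => c.Kop n φ s + c.Kop n ψ s := by
  funext s
  unfold Kop
  have e1 : ∀ (r a b a' b' : ℝ), r * (a + b - (a' + b')) = r * (a - a') + r * (b - b') := by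
    intros; ring
  simp only [e1, Finset.sum_add_distrib]
  ring

lemma Kop_smul (n : ℕ) (a : ℝ) (φ : St V → ℝ) :
    c.Kop n (fun s => a * φ s) = fun s => a * c.Kop n φ s := by
  funext s
  unfold Kop
  have e1 : ∀ (r b b' : ℝ), r * (a * b - a * b') = a * (r * (b - b')) := by intros; ring
  simp only [e1, ← Finset.mul_sum]
  ring

lemma Kop_const (n : ℕ) (a : ℝ) : c.Kop n (fun _ => a) = fun _ => a := by
  funext s; simp [Kop]

lemma Kop_nonneg (h : c.Ok) (n : ℕ) {φ : St V → ℝ} (hφ : ∀ s, 0 ≤ φ s) (s : St V) :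
    0 ≤ c.Kop n φ s := by
  have h1 := total_le h s n
  have h2 : ∑ f ∈ c.Lo.filter (fun f => Disjoint f s.1), c.rate f n * (-φ s) ≤
      ∑ f ∈ c.Lo.filter (fun f => Disjoint f s.1),
        c.rate f n * (φ (s.1 ∪ f, insert f s.2) - φ s) :=
    Finset.sum_le_sum fun f hf => mul_le_mul_of_nonneg_left (by linarith [hφ (s.1 ∪ f, insert f s.2)])
      (rate_nonneg h (Finset.mem_filter.1 hf).1 n)
  have h3 : ∑ v ∈ univ.filter (fun v => v ∉ s.1), max (1 - c.Lv s n v) 0 * (-φ s) ≤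
      ∑ v ∈ univ.filter (fun v => v ∉ s.1),
        max (1 - c.Lv s n v) 0 * (φ (insert v s.1, s.2) - φ s) :=
    Finset.sum_le_sum fun v _ => mul_le_mul_of_nonneg_left (by linarith [hφ (insert v s.1, s.2)])
      (le_max_right _ _)
  rw [← Finset.sum_mul] at h2 h3
  unfold Kop
  have h4 := mul_le_mul_of_nonneg_left (add_le_add h2 h3) h.dt0.le
  have h5 := mul_le_mul_of_nonneg_right h1 (hφ s)
  nlinarith

lemma Fw_add (Z : Finset V) (n : ℕ) (φ ψ : St V → ℝ) :
    c.Fw Z n (fun s => φ s + ψ s) = c.Fw Z n φ + c.Fw Z n ψ := by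
  induction n generalizing φ ψ with
  | zero => rfl
  | succ n ih => simp only [Fw]; rw [Kop_add, ih]

lemma Fw_smul (Z : Finset V) (n : ℕ) (a : ℝ) (φ : St V → ℝ) :
    c.Fw Z n (fun s => a * φ s) = a * c.Fw Z n φ := by
  induction n generalizing φ with
  | zero => rfl
  | succ n ih => simp only [Fw]; rw [Kop_smul, ih]

lemma Fw_const (Z : Finset V) (n : ℕ) (a : ℝ) : c.Fw Z n (fun _ => a) = a := by
  induction n with
  | zero => rfl
  | succ n ih => simp only [Fw]; rw [Kop_const, ih]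

lemma Fw_sub (Z : Finset V) (n : ℕ) (φ ψ : St V → ℝ) :
    c.Fw Z n (fun s => φ s - ψ s) = c.Fw Z n φ - c.Fw Z n ψ := by
  have h1 := Fw_add (c := c) Z n φ (fun s => (-1) * ψ s)
  rw [Fw_smul] at h1
  have h2 : (fun s => φ s - ψ s) = fun s => φ s + (-1) * ψ s := by funext s; ring
  rw [h2, h1]; ring

lemma Fw_sum {ι : Type} (Z : Finset V) (n : ℕ) (t : Finset ι) (φ : ι → St V → ℝ) :
    c.Fw Z n (fun s => ∑ i ∈ t, φ i s) = ∑ i ∈ t, c.Fw Z n (φ i) := by
  classical
  induction t using Finset.induction_on with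
  | empty => simpa using Fw_const (c := c) Z n 0
  | insert i t hi ih => simp only [Finset.sum_insert hi]; rw [Fw_add, ih]

lemma Fw_nonneg (h : c.Ok) (Z : Finset V) (n : ℕ) {φ : St V → ℝ} (hφ : ∀ s, 0 ≤ φ s) :
    0 ≤ c.Fw Z n φ := by
  induction n generalizing φ with
  | zero => exact hφ _
  | succ n ih => exact ih (Kop_nonneg h n hφ)

lemma Fw_mono (h : c.Ok) (Z : Finset V) (n : ℕ) {φ ψ : St V → ℝ} (hφ : ∀ s, φ s ≤ ψ s) :
    c.Fw Z n φ ≤ c.Fw Z n ψ := by
  have := Fw_nonneg h Z n (φ := fun s => ψ s - φ s) fun s => sub_nonneg.2 (hφ s)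
  rw [Fw_sub] at this
  linarith

/-- the functional is the expectation for a law on the states -/
lemma Fw_eq_Ex (Z : Finset V) (n : ℕ) (φ : St V → ℝ) :
    c.Fw Z n φ = Ex (fun s' => c.Fw Z n (fun s => I (s = s'))) φ := by
  have h1 : φ = fun s => ∑ s', φ s' * I (s = s') := by
    funext s
    rw [Finset.sum_eq_single s]
    · simp [I_pos]
    · intro b _ hb; rw [I_neg (Ne.symm hb), mul_zero]
    · simp
  conv_lhs => rw [h1]
  rw [Fw_sum]
  exact Finset.sum_congr rfl fun s' _ => by rw [Fw_smul, mul_comm]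

lemma Fw_prob (h : c.Ok) (Z : Finset V) (n : ℕ) :
    IsProb (fun s' => c.Fw Z n (fun s => I (s = s'))) := by
  refine ⟨fun s' => Fw_nonneg h Z n fun _ => I_nonneg _, ?_⟩
  have := Fw_eq_Ex (c := c) Z n (fun _ => 1)
  rw [Fw_const] at this
  simpa [Ex] using this.symm

lemma vp_nonneg (h : c.Ok) {e : Finset V} (he : e ∈ c.Lo) (n : ℕ) : 0 ≤ c.vp e n := by
  unfold vp
  have h1 := h.hyp.two_le_lam he
  have h2 := one_le_base h
  have h3 := h.dt0
  have h4 := h.dt1
  have h5 : (1 - c.dt) ^ (c.nw e - n) ≤ 1 := pow_le_one₀ (by linarith) (by linarith)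
  split_ifs
  · exact mul_nonneg (by positivity) (by linarith)
  · exact le_rfl

lemma vp_end {e : Finset V} {n : ℕ} (hn : c.nw e ≤ n) : c.vp e n = 0 := by
  unfold vp
  split_ifs with h1
  · rw [Nat.sub_eq_zero_of_le hn]; simp
  · rfl

/-- the recursion of the model probability -/
lemma vp_succ (h : c.Ok) {e : Finset V} (he : e ∈ c.Lo) (n : ℕ) :
    c.vp e n = c.rate e n * c.dt + (1 - c.dt) ^ e.card * c.vp e (n + 1) := by
  by_cases hn : n < c.nw e
  · have h3 := h.dt0
    have h4 := h.dt1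
    have hq : (1 - c.dt) ≠ 0 := by linarith
    obtain ⟨k, hk⟩ : ∃ k, e.card = k + 1 := ⟨e.card - 1, by have := h.hyp.big e he; omega⟩
    obtain ⟨m, hm⟩ : ∃ m, c.nw e = n + 1 + m := ⟨c.nw e - (n + 1), by omega⟩
    unfold vp rate
    rw [if_pos hn.le, if_pos hn, if_pos (show n + 1 ≤ c.nw e from hn), hm, hk]
    have e1 : n + 1 + m - n = m + 1 := by omega
    have e2 : n + 1 + m - (n + 1) = m := by omega
    rw [e1, e2, Nat.add_sub_cancel, Nat.mul_succ, pow_add (1 / (1 - c.dt)) (k * n) k]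
    have e3 : (1 - c.dt) ^ (k + 1) * (1 / (1 - c.dt)) ^ k = 1 - c.dt := by
      rw [pow_succ, one_div, inv_pow]; field_simp
    have e4 : ∀ a b : ℝ, (1 - c.dt) ^ (k + 1) * (a * (b * (1 / (1 - c.dt)) ^ k) *
        (1 - (1 - c.dt) ^ m)) = a * b * ((1 - c.dt) ^ (k + 1) * (1 / (1 - c.dt)) ^ k) *
        (1 - (1 - c.dt) ^ m) := by intros; ring
    rw [e4, e3]; ring
  · rw [vp_end (not_lt.1 hn), vp_end (by omega)]
    unfold rate; rw [if_neg hn]; ring

end LowDat

end Pool.Agent.P.MP_553766_co.Lg
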