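import Mathlib
import Pool.Agent.P.MP_553766_co.LChain

set_option autoImplicit false

/-! Statements of the packages: general tools, first stage, numerical inequalities. -/

namespace Pool.Agent.P.MP_553766_co.Lg

open Finset Pool.Agent.P.MP_553766_co

/-- a sufficient condition for the matching polytope of a graph -/
def StEdm : Prop :=
  ∀ (V : Type) [Fintype V] [DecidableEq V] (G : Finset (Finset V)) (z : Finset V → ℝ),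
    (∀ e ∈ G, e.card = 2) → (∀ e ∈ G, 0 ≤ z e) →
    (∀ v, ∑ e ∈ G.filter (fun e => v ∈ e), z e ≤ 1) →
    (∀ U : Finset V, U.Nonempty → 2 * ∑ e ∈ G.filter (fun e => e ⊆ U), z e ≤ (U.card : ℝ) - 1) →
    ∃ p, Dist G p ∧ ∀ e ∈ G, z e ≤ ∑ M, p M * ind M e

/-- cut condition for a random polymatroid -/
def StLP : Prop :=
  ∀ (Ω ι : Type) [Fintype Ω] [DecidableEq ι] (p : Ω → ℝ) (N : Finset ι) (cap h : ι → Ω → ℝ)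
    (pool bud : Ω → ℝ) (t : ι → ℝ), (∀ ω, 0 ≤ p ω) →
    (∀ i ∈ N, ∀ ω, 0 ≤ h i ω ∧ h i ω ≤ 2 * cap i ω) → (∀ ω, 0 ≤ pool ω) → (∀ ω, 0 ≤ bud ω) →
    (∀ W ⊆ N, ∑ i ∈ W, t i ≤ Ex p (fun ω => min (pool ω)
      (min (∑ i ∈ W, cap i ω) (bud ω / 2 + ∑ i ∈ W, h i ω / 2)))) →
    ∃ z : ι → Ω → ℝ, (∀ i ∈ N, ∀ ω, 0 ≤ z i ω ∧ z i ω ≤ cap i ω) ∧
      (∀ ω, ∑ i ∈ N, z i ω ≤ pool ω) ∧ (∀ ω, ∑ i ∈ N, max (2 * z i ω - h i ω) 0 ≤ bud ω) ∧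
      ∀ i ∈ N, t i ≤ Ex p (z i)

/-- upper tail from joint bounds -/
def StTail : Prop :=
  ∀ (Ω ι : Type) [Fintype Ω] [DecidableEq ι] (p : Ω → ℝ) (R : Ω → Finset ι) (F : Finset ι)
    (b w : ι → ℝ) (c wb M T : ℝ) (j : ℕ), (∀ ω, 0 ≤ p ω) →
    (∀ i ∈ F, 0 ≤ b i ∧ 0 ≤ w i ∧ w i ≤ wb) →
    (∀ J ⊆ F, J.card ≤ j → Ex p (fun ω => I (J ⊆ R ω)) ≤ c * ∏ i ∈ J, b i) →
    ∑ i ∈ F, b i * w i ≤ M → 0 ≤ wb → j * wb < T →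
    Ex p (fun ω => I (T ≤ ∑ i ∈ F.filter (fun i => i ∈ R ω), w i)) ≤ c * (M / (T - j * wb)) ^ j

/-- a round of small steps -/
def StRound : Prop :=
  ∀ (V : Type) [Fintype V] [DecidableEq V] (T : Finset (Finset V)) (p : Om V → ℝ)
    (M c b G m a : Finset V → ℝ) (g : Finset V → Bool), (∀ e ∈ T, e.Nonempty) →
    Inv T p M c b G → (∀ e ∈ T, 0 ≤ m e) →
    (∀ e ∈ T, m e ≠ 0 → 0 < a e ∧ m e ≤ a e ∧
      a e ≤ 1 - M e - ∑ f ∈ nbE T e, (M f + m f) + G e) →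
    ∃ p', Inv T p' (fun e => M e + m e) (fun e => c e + if g e then m e / a e else 0)
      (fun e => b e + if g e then 0 else m e) G

/-- a round of jumps -/
def StBlock : Prop :=
  ∀ (V : Type) [Fintype V] [DecidableEq V] (T : Finset (Finset V)) (p : Om V → ℝ)
    (M c b G m : Finset V → ℝ), (∀ e ∈ T, e.Nonempty) →
    Inv T p M c b G → (∀ e ∈ T, 0 ≤ m e) →
    (∀ e ∈ T, m e ≠ 0 → M e = 0 ∧ m e ≤ 0.899 ∧ ∑ f ∈ nbE T e, (M f + m f) ≤ 0.101) →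
    ∃ p', Inv T p' (fun e => M e + m e) (fun e => c e + m e / 0.899) b
      (fun e => max (G e) (gainF T m e))

/-- the gain is large enough for top edges -/
def StGainTop : Prop :=
  ∀ (V : Type) [Fintype V] [DecidableEq V] (B : Finset (Finset V)) (D Λ S : ℕ) (tB tC : ℝ),
    Hyp B D → TopPar D Λ S → 1 / (41 * (S : ℝ)) ≤ tB → tB ≤ 1 / (40 * (S : ℝ)) →
    1 / (81 * (Λ : ℝ)) ≤ tC → tC ≤ 1 / (80 * (Λ : ℝ)) →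
    ∀ e ∈ topE B Λ, ∀ fl : Bool, (fl = true → lam e * tC ≤ 1) →
    0 < (D : ℝ) - 1 - lam e ^ 2 - lam e →
    lam e * ((D : ℝ) - 1) - ((D : ℝ) - 1 - lam e ^ 2 - lam e) <
      ∑ f ∈ (nbE (topE B Λ) e).filter (fun f => 8 * (Λ : ℝ) ≤ lam f ∨ fl = true),
        min (lam f) (lam e) →
    2 * ((D : ℝ) - 1 - lam e ^ 2 - lam e) / (D * lam e) ≤
      max (gainF (topE B Λ) (muB D Λ S tB) e)
        (if fl then gainF (topE B Λ) (muC D Λ tC) e else 0)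

/-- the gain is large enough for low edges -/
def StGainObs : Prop :=
  ∀ (V : Type) [Fintype V] [DecidableEq V] (B : Finset (Finset V)) (D Λ S : ℕ) (tC : ℝ),
    Hyp B D → TopPar D Λ S → 1 / (81 * (Λ : ℝ)) ≤ tC → tC ≤ 1 / (80 * (Λ : ℝ)) →
    ∀ e ∈ lowE B Λ, ((nbE (topE B Λ) e).card : ℝ) / D ≤ (e.card : ℝ) / Λ ∧
      cc ≤ 1 - ((nbE (topE B Λ) e).card : ℝ) / D + gainF (topE B Λ) (muC D Λ tC) e

/-- the top stage -/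
def StTop : Prop :=
  ∀ (V : Type) [Fintype V] [DecidableEq V] (B : Finset (Finset V)) (D Λ S : ℕ) (L θ : ℝ),
    Hyp B D → TopPar D Λ S → 0 < θ → θ ≤ 1 / 2 → 2 + 4 * Real.log (2 / θ) ≤ L →
    ∃ p, TopSpec B D Λ L θ p

/-- survival of a set of points -/
def StSurv : Prop :=
  ∀ (V : Type) [Fintype V] [DecidableEq V] (c : LowDat V), c.Ok →
    ∀ (Z S : Finset V) (n sb : ℕ), S.card ≤ sb → sb * c.dt ≤ 1 / 2 →
    c.Fw Z n (fun s => I (Disjoint S s.1)) ≤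
      (1 - c.dt) ^ (S.card * n) * Real.exp ((sb : ℝ) ^ 2 * u0 * c.E0 / c.D)

/-- joint upper bound in the chain -/
def StLowUp : Prop :=
  ∀ (V : Type) [Fintype V] [DecidableEq V] (c : LowDat V), c.Ok →
    ∀ (Z : Finset V) (J : Finset (Finset V)) (sb : ℕ), J ⊆ c.Lo → PD J →
    (J.biUnion id).card ≤ sb → sb * c.dt ≤ 1 / 2 →
    c.Fw Z c.nmax (fun s => I (J ⊆ s.2)) ≤
      Real.exp ((sb : ℝ) ^ 2 * u0 * c.E0 / c.D) * (1 + 2 * sb * c.dt) ^ J.card *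
        ∏ e ∈ J, c.vp e 0

/-- overshoot of the total rate at a point -/
def StOv : Prop :=
  ∀ (V : Type) [Fintype V] [DecidableEq V] (c : LowDat V), c.Ok → ∀ (Λ l : ℕ),
    (∀ e ∈ c.Lo, e.card ≤ Λ + 1) → 1 ≤ l → (l : ℝ) * (Λ + 1) * c.dt ≤ 1 / 2 →
    ((l : ℝ) * (Λ + 1)) ^ 2 * u0 * c.E0 / c.D ≤ 1 / 400 →
    ∀ (Z : Finset V) (n : ℕ) (v : V),
      c.Fw Z n (fun s => max (c.Lv s n v - 1) 0) ≤ 2 * c.E0 * (0.8 : ℝ) ^ l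

/-- joint lower bound in the chain -/
def StLowLo : Prop :=
  ∀ (V : Type) [Fintype V] [DecidableEq V] (c : LowDat V), c.Ok →
    ∀ (Z : Finset V) (J : Finset (Finset V)) (sb : ℕ) (ov : ℝ), J ⊆ c.Lo → PD J →
    (∀ e ∈ J, Disjoint e Z) → J.card ≤ 4 → (J.biUnion id).card ≤ sb →
    (∀ e ∈ J, ∀ n, c.vp e n ≤ 1 ∧ c.rate e n ≤ 1) → 0 ≤ ov →
    (∀ n v, c.Fw Z n (fun s => max (c.Lv s n v - 1) 0) ≤ ov) →
    ∏ e ∈ J, c.vp e 0 - 4 * c.dt * (16 + (sb : ℝ) ^ 2) - 4 * sb * ov ≤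
      c.Fw Z c.nmax (fun s => I (J ⊆ s.2))

/-- the low stage -/
def StLow : Prop :=
  ∀ (V : Type) [Fintype V] [DecidableEq V] (Lo : Finset (Finset V)) (D Λ l : ℕ) (η' : ℝ),
    Hyp Lo D → (∀ e ∈ Lo, e.card ≤ Λ + 1) → LowPar D Λ l η' →
    ∃ vp q, LowSpec Lo D l η' vp q

structure CombPar (D K Λ l : ℕ) (η η' L θ : ℝ) : Prop where
  Dpos : 0 < D
  l4 : 4 ≤ l
  hK : K ≤ Λ
  h0 : 0 ≤ η'
  h1 : 10 * η' + 10 * (K : ℝ) / Λ ≤ η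
  h2 : η ≤ 1 / 100
  h3 : 2 / cc ≤ L
  h4 : 10 * u0 ≤ Λ
  h5 : 0 ≤ θ

/-- the two stages together -/
def StComb : Prop :=
  ∀ (V : Type) [Fintype V] [DecidableEq V] (B : Finset (Finset V)) (D K Λ l : ℕ)
    (η η' L θ : ℝ) (p : Om V → ℝ) (vp : Finset V → ℝ) (q : Finset V → Finset (Finset V) → ℝ),
    Hyp B D → CombPar D K Λ l η η' L θ → TopSpec B D Λ L θ p →
    LowSpec (lowE B Λ) D l η' vp q → ∃ p', Spec B D K Λ l η L θ p'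

/-- choice of the parameters -/
def StPar : Prop :=
  ∃ D0 : ℕ, ∀ D, D0 ≤ D → ∃ (K Λ l S : ℕ) (η η' L θ A0 : ℝ), Good D K Λ l η L θ A0 ∧
    TopPar D Λ S ∧ LowPar D Λ l η' ∧ CombPar D K Λ l η η' L θ ∧ 0 < θ ∧ θ ≤ 1 / 2 ∧
    2 + 4 * Real.log (2 / θ) ≤ L

/-- left side of the numerical inequalities -/
noncomputable def vnum (p C m La : ℝ) : ℝ :=
  C ^ 2 * p * (1 - p) + 2 * C * (1 - p) * m + 2 * (1 + 3 * eps) ^ 2 * La - m ^ 2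

/-- a single heavy point -/
def StN1 : Prop :=
  ∀ p A m La : ℝ, 0 ≤ p → 2 * p ≤ A → eps < A → A < 1 → 0 ≤ m → m ≤ (1 + 3 * eps) * La →
    m ≤ (1 + 3 * eps) * A →
    ∃ C, 0 ≤ C ∧ C ≤ min 5 ((1 - kp) * (1 / (1 - A))) ∧
      (1 - kap) * (p / (1 - p)) ≤ (1 - p) * C - 1 - del ∧
      vnum p C m La ≤ 4.6 * ((1 - p) * C - 1 - del + (1 - 2 * kap) * La) ∧
      (p ≤ 3 / 8 → vnum p C m La ≤ 3.7 * ((1 - p) * C - 1 - del + (1 - 2 * kap) * La))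

/-- a member of a pair -/
def StN2 : Prop :=
  ∀ p q m La : ℝ, 3 / 8 < p → p ≤ 1 / 2 → 0 ≤ q → q ≤ 1 / 2 → 0 ≤ m → m ≤ (1 + 3 * eps) * La →
    vnum p (3.9 * q) m La + 3.9 ^ 2 / 32 ≤ 3.7 * (0.46 + (1 - 2 * kap) * La)

/-- the designated point -/
def StN3 : Prop :=
  ∀ p A m La : ℝ, 3 / 8 < p → 2 * p ≤ A → A < 1 → 0 ≤ m → m ≤ (1 + 3 * eps) * La →
    m ≤ (1 + 3 * eps) * A →
    0 ≤ (2 - m) / (1 - p) ∧
    (2 - m) / (1 - p) + rho / (1 - p) ≤ min 5 ((1 - kp) * (1 / (1 - A))) ∧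
    1.199 ≤ 1.2 - m - del + (1 - 2 * kap) * La ∧
    vnum p ((2 - m) / (1 - p)) m La ≤
      4.505 + 3.7 * (1.2 - m - del + (1 - 2 * kap) * La - 1.2)

/-- the parabola and the closing inequalities -/
def StN4 : Prop :=
  (∀ a g o y : ℝ, 0 < a → a / 4 - (a - g) / 2 ≤ o →
    y - (y + (a - g)) ^ 2 / (4 * a) ≤ min g (min y (y / 2 + o))) ∧
  (∀ c v : ℝ, 0.79 ≤ c → v ≤ 3.7 * c + 0.0065 →
    ∃ a, 2 ≤ a ∧ c - 1 ≤ a ∧ 0.022 ≤ c - ((c + (a - 1)) ^ 2 + v) / (4 * a)) ∧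
  (∀ c v : ℝ, 1.199 ≤ c → v ≤ 4.505 + 3.7 * (c - 1.2) + 0.0065 →
    ∃ a, 2.4 ≤ a ∧ c - 1 ≤ a ∧ 0.024 ≤ c - ((c + (a - 1)) ^ 2 + v) / (4 * a)) ∧
  (∀ c v : ℝ, 1.08 ≤ c → v ≤ 4.6 * c + 0.045 →
    0.05 ≤ c - ((c + c) ^ 2 + v) / (4 * (c + 1.29)))

/-- the large jumps -/
def StC1 : Prop :=
  ∀ (ι : Type) (F : Finset ι) (u : ι → ℝ) (x : ℝ), 0 < x →
    (∀ e ∈ F, 10 ^ 4 ≤ u e ∧ x * u e ≤ 0.7) →
    ∑ e ∈ F, x * max (6 + 1.011 * (u e + 1) + (if x * u e ≤ eps then 0.49 else 0.97) * (x * u e ^ 2)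
      - 0.979 * ∑ f ∈ F, (if x * u f ≤ eps then 0.49 else 0.97) * (x * u f ^ 2)) 0 ≤ 0.77

end Pool.Agent.P.MP_553766_co.Lg
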