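import Mathlib
import Pool.Agent.P.MP_553766_co.LSt1

set_option autoImplicit false
set_option linter.unusedSectionVars false

/-! Basic facts on the data of the second stage. -/

namespace Pool.Agent.P.MP_553766_co.Lg

open Finset Pool.Agent.P.MP_553766_co

variable {V : Type} [Fintype V] [DecidableEq V]

namespace Good
variable {D K Λ l : ℕ} {η L θ A0 : ℝ} (h : Good D K Λ l η L θ A0)
include h

lemma K_ge : (10 : ℝ) ^ 100 ≤ K := by
  have h1 := h.g2; have h2 := h.A1
  unfold tau at h1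
  have : (1 : ℝ) ≤ 1 / 10 ^ 100 * K := h2.trans h1
  rw [div_mul_eq_mul_div, one_mul, le_div_iff₀ (by positivity)] at this
  linarith
lemma K_pos : (0 : ℝ) < K := lt_of_lt_of_le (by positivity) h.K_ge
lemma inv_K_le : 1 / (K : ℝ) ≤ tau := by
  unfold tau; exact one_div_le_one_div_of_le (by positivity) h.K_ge
lemma K_sq_le : (K : ℝ) ^ 2 ≤ tau * D := by
  have h1 := h.g3; have h2 := h.A1
  have h3 : (1 : ℝ) ≤ A0 ^ 2 := one_le_pow₀ h2
  nlinarith [sq_nonneg (K : ℝ)]
lemma K_le : (K : ℝ) ≤ tau * D := by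
  have h1 := h.K_sq_le; have h2 := h.K_ge
  have h3 : (1 : ℝ) ≤ K := le_trans (by norm_num) h2
  nlinarith
lemma D_ge : (10 : ℝ) ^ 200 ≤ D := by
  have h1 := h.K_le; have h2 := h.K_ge
  unfold tau at h1
  have : (10 : ℝ) ^ 100 ≤ 1 / 10 ^ 100 * D := h2.trans h1
  rw [div_mul_eq_mul_div, one_mul, le_div_iff₀ (by positivity)] at this
  have e : (10 : ℝ) ^ 200 = 10 ^ 100 * 10 ^ 100 := by norm_num
  rw [e]; exact this
lemma D_pos : (0 : ℝ) < D := lt_of_lt_of_le (by positivity) h.D_ge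
lemma inv_D_le : 1 / (D : ℝ) ≤ tau := by
  unfold tau
  exact one_div_le_one_div_of_le (by positivity) (le_trans (by norm_num) h.D_ge)
lemma eta_le : η ≤ tau := by
  have h1 := h.g1; have h2 := h.A1; have h0 := h.eta0
  have h3 : (1 : ℝ) ≤ A0 ^ 2 := one_le_pow₀ h2
  nlinarith
lemma th_le : θ * D ≤ tau := by
  have h1 := h.g5; have h0 := h.th0
  have h2 : (1 : ℝ) ≤ D := le_trans (by norm_num) h.D_ge
  have h3 : (D : ℝ) ≤ (D : ℝ) ^ 4 := by
    calc (D : ℝ) = (D : ℝ) ^ 1 := (pow_one _).symm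
      _ ≤ (D : ℝ) ^ 4 := pow_le_pow_right₀ h2 (by norm_num)
  nlinarith
end Good

namespace Dat

variable {d : Dat V}

namespace Ok
variable (h : d.Ok)
include h

lemma D_pos : (0 : ℝ) < d.D := h.good.D_pos
lemma prob : IsProb d.p := h.spec.prob
lemma pnn : ∀ ω, 0 ≤ d.p ω := h.spec.prob.nonneg
lemma isM {ω : Om V} (hω : d.p ω ≠ 0) : IsM d.B ω.1 := (h.spec.supp ω hω).1

lemma eta2_le : d.eta2 ≤ 25 * tau := by
  have h1 := h.good.eta_le; have h2 := h.good.K_le; have h3 := h.D_pos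
  have : 20 * (d.K : ℝ) / d.D ≤ 20 * tau := by rw [div_le_iff₀ h3]; linarith
  unfold eta2; linarith
lemma eta2_nonneg : 0 ≤ d.eta2 := by
  have := h.good.eta0; unfold eta2; positivity
lemma eta3_le : d.eta3 ≤ 7 * tau := by
  have h1 := h.good.eta_le; have h2 := h.good.g4; have h3 := h.good.K_pos
  have h4 := h.good.th_le
  have : 4 * d.L ^ 2 / d.K ≤ 4 * tau := by rw [div_le_iff₀ h3]; linarith
  unfold eta3; linarith
lemma eta3_nonneg : 0 ≤ d.eta3 := by
  have := h.good.eta0; have := h.good.th0; unfold eta3; positivity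

/-- the shadow degree in big edges is at most the deficiency -/
lemma sum_lam_le (v : V) : (∑ e ∈ d.B.filter (fun e => v ∈ e), lam e) / d.D ≤ d.A v := by
  unfold A
  exact div_le_div_of_nonneg_right (by linarith [h.deg v]) h.D_pos.le
lemma pv_nonneg (v : V) : 0 ≤ d.pv v := by unfold pv; positivity
lemma ps_nonneg (v : V) : 0 ≤ d.ps v := by unfold ps; positivity
lemma two_pv_le (v : V) : 2 * d.pv v ≤ d.A v := by
  refine le_trans ?_ (h.sum_lam_le v)
  unfold pv
  rw [← mul_div_assoc]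
  refine div_le_div_of_nonneg_right ?_ h.D_pos.le
  have := Finset.card_nsmul_le_sum (d.B.filter (fun e => v ∈ e)) lam 2
    fun e he => h.hyp.two_le_lam (Finset.mem_filter.1 he).1
  simp only [nsmul_eq_mul] at this
  linarith
lemma A_nonneg (v : V) : 0 ≤ d.A v := by linarith [h.two_pv_le v, h.pv_nonneg v]
lemma one_sub_A (v : V) : 1 - d.A v = (((d.nb v).card : ℝ) + 1) / d.D := by
  have := h.D_pos; unfold A; field_simp; ring
lemma A_lt_one (v : V) : d.A v < 1 := by
  have h1 := h.one_sub_A v; have h2 := h.D_pos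
  have : 0 < (((d.nb v).card : ℝ) + 1) / d.D := by positivity
  linarith
lemma card_nb (v : V) : ((d.nb v).card : ℝ) = d.D * (1 - d.A v) - 1 := by
  have := h.D_pos; rw [h.one_sub_A]; field_simp; ring
lemma card_nb_le (v : V) : ((d.nb v).card : ℝ) ≤ d.D - 1 := by
  have := h.A_nonneg v; have := h.D_pos; rw [h.card_nb]; nlinarith
lemma al_eq (v : V) : d.al v = 1 / (1 - d.A v) := by
  rw [h.one_sub_A, one_div_div]; rfl
lemma one_le_al (v : V) : 1 ≤ d.al v := by
  have := h.A_nonneg v; have := h.A_lt_one v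
  rw [h.al_eq, le_div_iff₀ (by linarith)]; linarith
lemma al_pos (v : V) : 0 < d.al v := lt_of_lt_of_le one_pos (h.one_le_al v)
lemma card_mul_al (v : V) : ((d.nb v).card : ℝ) * d.al v = d.D - d.al v := by
  unfold al; field_simp; ring
lemma al_light {v : V} (hv : d.light v) : d.al v ≤ 1 + 1.01 * eps := by
  have h1 := h.A_nonneg v; have h2 : d.A v ≤ eps := hv
  have h3 := h.A_lt_one v
  rw [h.al_eq, div_le_iff₀ (by linarith)]
  unfold eps at *; nlinarith
lemma pv_lt_half (v : V) : d.pv v < 1 / 2 := by linarith [h.two_pv_le v, h.A_lt_one v]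
lemma ps_le_pv (v : V) : d.ps v ≤ d.pv v := by
  unfold ps pv
  refine div_le_div_of_nonneg_right ?_ h.D_pos.le
  exact_mod_cast Finset.card_le_card (Finset.filter_subset_filter _ (Finset.filter_subset _ _))
lemma pv_sub_ps (v : V) : d.pv v - d.ps v =
    (((d.B.filter (fun e => v ∈ e)).filter (fun e => d.K < e.card)).card : ℝ) / d.D := by
  unfold pv ps sm
  rw [← sub_div, Finset.filter_comm]
  congr 1
  have := Finset.card_filter_add_card_filter_not (s := d.B.filter (fun e => v ∈ e))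
    (fun e => e.card ≤ d.K)
  simp only [not_le] at this
  rw [← this]; push_cast; ring
lemma pv_sub_ps_le (v : V) : d.pv v - d.ps v ≤ d.A v / d.K := by
  rw [h.pv_sub_ps, le_div_iff₀ h.good.K_pos]
  refine le_trans ?_ (h.sum_lam_le v)
  rw [div_mul_eq_mul_div]
  refine div_le_div_of_nonneg_right ?_ h.D_pos.le
  have h1 := Finset.card_nsmul_le_sum ((d.B.filter (fun e => v ∈ e)).filter
    (fun e => d.K < e.card)) lam d.K fun e he => by
      have : (d.K : ℝ) + 1 ≤ e.card := by exact_mod_cast (Finset.mem_filter.1 he).2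
      unfold lam; linarith
  simp only [nsmul_eq_mul] at h1
  exact h1.trans (Finset.sum_le_sum_of_subset_of_nonneg (Finset.filter_subset _ _)
    fun e he _ => by linarith [h.hyp.two_le_lam (Finset.mem_filter.1 he).1])
lemma pv_sub_ps_le_tau (v : V) : d.pv v - d.ps v ≤ tau := by
  refine (h.pv_sub_ps_le v).trans (le_trans ?_ h.good.inv_K_le)
  exact div_le_div_of_nonneg_right (h.A_lt_one v).le h.good.K_pos.le

/-- at most one edge of a matching passes through a point -/
lemma I_cov {ω : Om V} (hω : d.p ω ≠ 0) (v : V) (R : Finset V → Prop) [DecidablePred R] :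
    I (∃ e ∈ ω.1, v ∈ e ∧ R e) =
      ∑ e ∈ (d.B.filter R).filter (fun e => v ∈ e), I (e ∈ ω.1) := by
  have hM := h.isM hω
  by_cases hc : ∃ e ∈ ω.1, v ∈ e ∧ R e
  · obtain ⟨e, he, hv, hR⟩ := hc
    rw [I_pos ⟨e, he, hv, hR⟩, Finset.sum_eq_single e, I_pos he]
    · intro f hf hfe
      exact I_neg fun hf' => hfe (hM.eq_of_mem hf' he (Finset.mem_filter.1 hf).2 hv)
    · intro h1
      exact absurd (Finset.mem_filter.2 ⟨Finset.mem_filter.2 ⟨hM.1 he, hR⟩, hv⟩) h1
  · rw [I_neg hc]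
    symm
    refine Finset.sum_eq_zero fun f hf => I_neg fun hf' => hc ⟨f, hf', (Finset.mem_filter.1 hf).2,
      (Finset.mem_filter.1 (Finset.mem_filter.1 hf).1).2⟩
lemma I_sb {ω : Om V} (hω : d.p ω ≠ 0) (v : V) :
    I (d.sb ω v) = ∑ e ∈ d.sm.filter (fun e => v ∈ e), I (e ∈ ω.1) :=
  h.I_cov hω v (fun e => e.card ≤ d.K)
lemma I_notfree {ω : Om V} (hω : d.p ω ≠ 0) (v : V) :
    I (¬ d.free ω v) = ∑ e ∈ d.B.filter (fun e => v ∈ e), I (e ∈ ω.1) := by
  have := h.I_cov hω v (fun _ => True)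
  rw [Finset.filter_true] at this
  rw [← this]; exact I_congr (by simp [free])
lemma I_free {ω : Om V} (hω : d.p ω ≠ 0) (v : V) :
    I (d.free ω v) = 1 - I (d.sb ω v) - I (d.nsb ω v) := by
  have hM := h.isM hω
  by_cases hf : d.free ω v
  · rw [I_pos hf, I_neg, I_neg]; · ring
    · rintro ⟨e, h1, h2, _⟩; exact hf ⟨e, h1, h2⟩
    · rintro ⟨e, h1, h2, _⟩; exact hf ⟨e, h1, h2⟩
  · rw [I_neg hf]
    obtain ⟨e, h1, h2⟩ := not_not.1 hf
    by_cases hk : e.card ≤ d.K
    · rw [I_pos (show d.sb ω v from ⟨e, h1, h2, hk⟩), I_neg]; · ring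
      rintro ⟨f, h3, h4, h5⟩
      rw [hM.eq_of_mem h3 h1 h4 h2] at h5; omega
    · rw [I_pos (show d.nsb ω v from ⟨e, h1, h2, not_le.1 hk⟩), I_neg]; · ring
      rintro ⟨f, h3, h4, h5⟩
      rw [hM.eq_of_mem h3 h1 h4 h2] at h5; omega
lemma E_sum_marg (F : Finset (Finset V)) (hF : F ⊆ d.B) :
    d.E (fun ω => ∑ e ∈ F, I (e ∈ ω.1)) = (F.card : ℝ) / d.D := by
  unfold E
  rw [Ex_sum, Finset.sum_congr rfl fun e he => h.spec.marg e (hF he)]
  simp [div_eq_mul_inv]
lemma E_notfree (v : V) : d.E (fun ω => I (¬ d.free ω v)) = d.pv v := by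
  rw [pv, ← h.E_sum_marg _ (Finset.filter_subset _ _)]
  exact Ex_congr fun ω hω => h.I_notfree hω v
lemma E_free (v : V) : d.E (fun ω => I (d.free ω v)) = 1 - d.pv v := by
  have h1 := h.E_notfree v
  unfold E at *
  rw [Ex_I_not h.prob] at h1; linarith
lemma E_sb (v : V) : d.E (fun ω => I (d.sb ω v)) = d.ps v := by
  rw [ps, ← h.E_sum_marg (d.sm.filter (fun e => v ∈ e))
    ((Finset.filter_subset _ _).trans (Finset.filter_subset _ _))]
  exact Ex_congr fun ω hω => h.I_sb hω v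
lemma E_nsb (v : V) : d.E (fun ω => I (d.nsb ω v)) = d.pv v - d.ps v := by
  have h1 := h.E_free v
  have h2 := h.E_sb v
  unfold E at *
  rw [Ex_congr (fun ω hω => h.I_free hω v), Ex_sub, Ex_sub, Ex_const h.prob] at h1
  linarith
lemma E_sv (v : V) : d.E (d.sv v) = 0 := by
  have h2 := h.E_sb v
  unfold E at *
  have : d.sv v = fun ω => I (d.sb ω v) - d.ps v := rfl
  rw [this, Ex_sub, Ex_const h.prob, h2, sub_self]
/-- a weighted sum of centred point indicators is a linear form in the small edges -/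
lemma sum_sv {ω : Om V} (hω : d.p ω ≠ 0) (W : Finset V) (co : V → ℝ) :
    ∑ w ∈ W, co w * d.sv w ω = d.Lin (d.JJ W co) ω := by
  have h1 : ∀ w, d.sv w ω = ∑ e ∈ d.sm, if w ∈ e then (I (e ∈ ω.1) - 1 / d.D) else 0 := by
    intro w
    rw [← Finset.sum_filter, Finset.sum_sub_distrib, sv, h.I_sb hω, ps]
    simp [div_eq_mul_inv]
  simp only [h1, Finset.mul_sum, Lin, JJ]
  rw [Finset.sum_comm]
  refine Finset.sum_congr rfl fun e _ => ?_
  rw [Finset.sum_mul, Finset.inter_comm, ← Finset.filter_mem_eq_inter, Finset.sum_filter]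
  exact Finset.sum_congr rfl fun w _ => by split_ifs <;> simp
lemma sum_JJ (W : Finset V) (co : V → ℝ) :
    ∑ e ∈ d.sm, d.JJ W co e / d.D = ∑ w ∈ W, co w * d.ps w := by
  simp only [JJ, ps]
  have h1 : ∀ e : Finset V, ∑ w ∈ e ∩ W, co w = ∑ w ∈ W, if w ∈ e then co w else 0 := by
    intro e
    rw [Finset.inter_comm, ← Finset.filter_mem_eq_inter, Finset.sum_filter]
  simp only [h1, Finset.sum_div]
  rw [Finset.sum_comm]
  refine Finset.sum_congr rfl fun w _ => ?_
  rw [← Finset.sum_div, ← Finset.sum_filter, Finset.sum_const, nsmul_eq_mul]; ring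

lemma Pf_eq (u w : V) : d.Pf u w =
    1 - d.pv u - d.pv w + d.E (fun ω => I (¬ d.free ω u ∧ ¬ d.free ω w)) := by
  have h1 := h.E_notfree u
  have h2 := h.E_notfree w
  unfold Pf E at *
  have h3 : ∀ ω, I (d.free ω u ∧ d.free ω w) = 1 - I (¬ d.free ω u) - I (¬ d.free ω w) +
      I (¬ d.free ω u ∧ ¬ d.free ω w) := fun ω => by
    rw [I_and, I_and, I_not, I_not]; ring
  simp only [h3]
  rw [Ex_add, Ex_sub, Ex_sub, Ex_const h.prob, h1, h2]
lemma Pf_ge (u w : V) : 1 - d.pv u - d.pv w ≤ d.Pf u w := by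
  rw [h.Pf_eq]
  have := Ex_I_nonneg h.pnn (fun ω => ¬ d.free ω u ∧ ¬ d.free ω w)
  unfold E; linarith
lemma Pf_pos (u w : V) : 0 < d.Pf u w := by
  linarith [h.Pf_ge u w, h.pv_lt_half u, h.pv_lt_half w]
lemma Pf_le (u w : V) : d.Pf u w ≤ 1 - d.pv u := by
  rw [← h.E_free u]
  exact Ex_mono h.pnn fun ω _ => I_mono fun hh => hh.1
omit h in
lemma _root_.Pool.Agent.P.MP_553766_co.Lg.Dat.Pf_comm (u w : V) : d.Pf u w = d.Pf w u := by
  unfold Pf; simp only [and_comm]
omit h in
lemma _root_.Pool.Agent.P.MP_553766_co.Lg.Dat.nn_comm (u w : V) : d.nn u w = d.nn w u := by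
  unfold nn; rw [Pf_comm]
lemma nn_mul (u w : V) : d.nn u w * d.Pf u w = 1 := by
  have := h.Pf_pos u w; unfold nn; field_simp
lemma nn_ge (u w : V) : 1 / (1 - d.pv u) ≤ d.nn u w :=
  one_div_le_one_div_of_le (h.Pf_pos u w) (h.Pf_le u w)
lemma one_le_inv (u : V) : 1 ≤ 1 / (1 - d.pv u) := by
  have := h.pv_nonneg u; have := h.pv_lt_half u
  rw [le_div_iff₀ (by linarith)]; linarith
lemma one_le_nn (u w : V) : 1 ≤ d.nn u w := (h.one_le_inv u).trans (h.nn_ge u w)
lemma nn_le (u w : V) : d.nn u w ≤ 1 / (1 - d.pv u - d.pv w) :=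
  one_div_le_one_div_of_le (by linarith [h.pv_lt_half u, h.pv_lt_half w]) (h.Pf_ge u w)
lemma nn_le' (u w : V) : d.nn u w ≤ 2 / (2 - d.A u - d.A w) := by
  refine (h.nn_le u w).trans ?_
  have := h.two_pv_le u; have := h.two_pv_le w; have := h.A_lt_one u; have := h.A_lt_one w
  rw [div_le_div_iff₀ (by linarith) (by linarith)]; linarith
lemma two_nn_le (u w : V) : 2 * d.nn u w ≤ d.al u + d.al w := by
  have h1 := h.nn_le' u w
  have h2 := h.A_lt_one u; have h3 := h.A_lt_one w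
  have h4 : 2 * (2 / (2 - d.A u - d.A w)) ≤ 1 / (1 - d.A u) + 1 / (1 - d.A w) := by
    rw [div_add_div _ _ (by linarith) (by linarith), ← mul_div_assoc,
      div_le_div_iff₀ (by linarith) (by nlinarith)]
    nlinarith [sq_nonneg (d.A u - d.A w)]
  rw [h.al_eq, h.al_eq]; linarith
lemma nn_light {u w : V} (hu : d.light u) (hw : d.light w) : d.nn u w ≤ 1 + 1.01 * eps := by
  linarith [h.two_nn_le u w, h.al_light hu, h.al_light hw]
lemma nu_add (u w : V) : d.nu u w + d.nu w u = d.nn u w := by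
  have := h.al_pos u; have := h.al_pos w
  unfold nu; rw [nn_comm w u]; field_simp; ring
lemma two_nu_le (u w : V) : 2 * d.nu u w ≤ d.al u := by
  have h1 := h.al_pos u; have h2 := h.al_pos w; have h3 := h.two_nn_le u w
  unfold nu
  rw [← mul_assoc, ← mul_div_assoc, div_le_iff₀ (by linarith)]; nlinarith
lemma share_ge {u w : V} (hw : d.light w) : 0.49 ≤ d.al u / (d.al u + d.al w) := by
  have h1 := h.one_le_al u; have h2 := h.one_le_al w; have h3 := h.al_light hw
  rw [le_div_iff₀ (by linarith)]; unfold eps at h3; linarith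
lemma nu_ge {u w : V} (hw : d.light w) : 0.49 ≤ d.nu u w := by
  have h1 := h.share_ge (u := u) hw; have h2 := h.one_le_nn u w
  unfold nu; nlinarith
lemma nu_le {u : V} (hu : d.light u) (w : V) : d.nu u w ≤ 0.51 := by
  have h1 := h.two_nu_le u w; have h3 := h.al_light hu
  unfold eps at h3; linarith
lemma nv_mul (u w : V) : d.nv u w * d.Pf u w = d.tg u w := by
  have := h.nn_mul u w
  unfold nv tg nu
  split_ifs
  · linear_combination (d.al u / (d.al u + d.al w)) * this
  · exact this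
lemma tg_add {u w : V} (hu : d.light u) (hw : d.light w) : d.tg u w + d.tg w u = 1 := by
  have := h.al_pos u; have := h.al_pos w
  unfold tg; rw [if_pos ⟨hu, hw⟩, if_pos ⟨hw, hu⟩]; field_simp; ring
lemma eb_nonneg (w : V) : 0 ≤ d.eb w := by
  have := h.A_nonneg w; unfold eb kap; positivity
lemma eb_le (w : V) : d.eb w ≤ d.A w / 2 := by
  have := h.A_nonneg w; unfold eb kap; nlinarith
lemma CC_le_five (w : V) : d.CC w ≤ 5 := min_le_left _ _
lemma CC_le (w : V) : d.CC w ≤ (1 - kp) * d.al w := min_le_right _ _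
lemma CC_le_al (w : V) : d.CC w ≤ d.al w := by
  have := h.al_pos w; have := h.CC_le w; unfold kp at *; nlinarith
lemma CC_ge (w : V) : 0.99 ≤ d.CC w := by
  have := h.one_le_al w
  refine le_min (by norm_num) ?_
  unfold kp; nlinarith
lemma cb_pos (u w : V) : 0 < d.cb u w := by
  have := h.pv_lt_half u; have := h.pv_lt_half w
  unfold cb; exact div_pos (by positivity) (mul_pos (by linarith) (by linarith))
lemma cb_le (u w : V) : d.cb u w ≤ 4.2 := by
  have := h.pv_lt_half u; have := h.pv_lt_half w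
  unfold cb; rw [div_le_iff₀ (mul_pos (by linarith) (by linarith))]
  unfold eps; nlinarith
lemma al_heavy {w : V} (hw : ¬ d.light w) :
    (1 + eps ^ 2 / 4) / (1 - d.A w / 2) ^ 2 ≤ d.al w := by
  have h1 : eps < d.A w := not_le.1 hw
  have h2 := h.A_lt_one w
  have h3 : 0 < eps := by unfold eps; norm_num
  rw [h.al_eq, div_le_div_iff₀ (by nlinarith) (by linarith)]
  nlinarith [mul_pos h3 h3]
lemma cb_le_CC {u w : V} (hw : ¬ d.light w) (huw : d.A u ≤ d.A w) : d.cb u w ≤ d.CC w := by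
  refine le_min ((h.cb_le u w).trans (by norm_num)) ?_
  have h1 := h.al_heavy hw
  have h2 := h.A_lt_one w; have h3 := h.two_pv_le u; have h4 := h.two_pv_le w
  have h5 : (1 - d.A w / 2) ^ 2 ≤ (1 - d.pv u) * (1 - d.pv w) := by
    rw [sq]; exact mul_le_mul (by linarith) (by linarith) (by linarith) (by linarith)
  have h6 : d.cb u w ≤ (1 + eps ^ 2 / 8) / (1 - d.A w / 2) ^ 2 :=
    div_le_div_of_nonneg_left (by positivity) (by nlinarith) h5
  have h7 : (1 + eps ^ 2 / 8) / (1 - d.A w / 2) ^ 2 ≤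
      (1 - kp) * ((1 + eps ^ 2 / 4) / (1 - d.A w / 2) ^ 2) := by
    rw [← mul_div_assoc]
    exact div_le_div_of_nonneg_right (by unfold eps kp; norm_num) (by positivity)
  exact h6.trans (h7.trans (mul_le_mul_of_nonneg_left h1 (by unfold kp; norm_num)))
lemma two_cb_le {u w : V} (hu : ¬ d.light u) (hw : ¬ d.light w) :
    2 * d.cb u w ≤ d.al u + d.al w := by
  have h1 := h.al_heavy hu; have h2 := h.al_heavy hw
  have h3 := h.A_lt_one u; have h4 := h.A_lt_one w
  have h5 := h.two_pv_le u; have h6 := h.two_pv_le w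
  have h7 : d.cb u w ≤ (1 + eps ^ 2 / 4) / ((1 - d.A u / 2) * (1 - d.A w / 2)) := by
    unfold cb
    refine div_le_div₀ (by positivity) (by nlinarith [sq_nonneg eps])
      (mul_pos (by linarith) (by linarith)) ?_
    exact mul_le_mul (by linarith) (by linarith) (by linarith) (by linarith)
  have ha : 0 < 1 - d.A u / 2 := by linarith
  have hb : 0 < 1 - d.A w / 2 := by linarith
  have h8 : 2 * ((1 + eps ^ 2 / 4) / ((1 - d.A u / 2) * (1 - d.A w / 2))) ≤
      (1 + eps ^ 2 / 4) / (1 - d.A u / 2) ^ 2 + (1 + eps ^ 2 / 4) / (1 - d.A w / 2) ^ 2 := by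
    have e1 : ∀ k a b : ℝ, 0 < a → 0 < b → k / a ^ 2 + k / b ^ 2 - 2 * (k / (a * b)) =
        k * (1 / a - 1 / b) ^ 2 := by intro k a b ha hb; field_simp; ring
    have e2 := e1 (1 + eps ^ 2 / 4) _ _ ha hb
    have e3 : 0 ≤ (1 + eps ^ 2 / 4) * (1 / (1 - d.A u / 2) - 1 / (1 - d.A w / 2)) ^ 2 := by
      positivity
    linarith
  linarith
lemma inv_le_heavy {u : V} (hu : ¬ d.light u) : 1 / (1 - d.pv u) ≤ (1 - kp) * d.al u := by
  have h1 : eps < d.A u := not_le.1 hu
  have h2 := h.A_lt_one u; have h3 := h.two_pv_le u; have h4 := h.pv_nonneg u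
  rw [h.al_eq, ← mul_div_assoc, div_le_div_iff₀ (by linarith) (by linarith)]
  unfold eps kp at *; nlinarith

end Ok

end Dat

end Pool.Agent.P.MP_553766_co.Lg
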