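import Mathlib
import Pool.Agent.P.MP_553766_co.LBasic

set_option autoImplicit false
set_option linter.unusedSectionVars false

/-! More basic facts on the data of the second stage. -/

namespace Pool.Agent.P.MP_553766_co.Lg

open Finset Pool.Agent.P.MP_553766_co

variable {V : Type} [Fintype V] [DecidableEq V]

namespace Dat

variable {d : Dat V}

lemma w0_mem {u : V} (hu : d.act u) : d.w0 u ∈ d.crit u := by
  have hne : (d.crit u).Nonempty := Finset.card_pos.1 hu.2.2.pos
  unfold w0; rw [dif_pos hne]; exact hne.choose_spec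
lemma act_light {u : V} (hu : d.act u) : d.light u :=
  le_trans hu.1 (by unfold del eps; norm_num)
lemma light_of_poor {u : V} (hu : d.A u ≤ del) : d.light u :=
  le_trans hu (by unfold del eps; norm_num)
lemma xi_not_act {u : V} (hu : ¬ d.act u) (w : V) (ω : Om V) : d.xi u w ω = 0 := by
  unfold xi; rw [if_neg hu]
lemma prec_total {u w : V} (h : u ≠ w) : d.prec u w ∨ d.prec w u := by
  unfold prec
  rcases lt_trichotomy (d.A u) (d.A w) with h1 | h1 | h1
  · exact Or.inl (Or.inl h1)
  · rcases lt_trichotomy (Fintype.equivFin V u) (Fintype.equivFin V w) with h2 | h2 | h2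
    · exact Or.inl (Or.inr ⟨h1, h2⟩)
    · exact absurd ((Fintype.equivFin V).injective h2) h
    · exact Or.inr (Or.inr ⟨h1.symm, h2⟩)
  · exact Or.inr (Or.inl h1)
lemma prec_asymm {u w : V} (h : d.prec u w) : ¬ d.prec w u := by
  unfold prec at *
  rintro (h1 | ⟨h1, h2⟩) <;> rcases h with h3 | ⟨h3, h4⟩
  · linarith
  · linarith
  · linarith
  · exact lt_asymm h2 h4
lemma prec_le {u w : V} (h : d.prec u w) : d.A u ≤ d.A w := by
  rcases h with h | h
  · exact h.le
  · exact h.1.le
lemma ctl_light {u : V} (hu : d.light u) : d.ctl u = d.nb u :=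
  Finset.filter_true_of_mem fun _ _ => Or.inl hu
lemma ctrl_heavy {u w : V} (hu : ¬ d.light u) : d.ctrl u w ↔ ¬ d.light w ∧ d.prec u w := by
  unfold ctrl; tauto
/-- the neighbours that control a pair at a light point are the light ones -/
lemma in_light {u : V} (hu : d.light u) :
    (d.nb u).filter (fun w => d.ctrl w u) = d.nL u :=
  Finset.filter_congr fun w _ => by unfold ctrl; tauto
lemma A_le_of_heavy {u w : V} (hu : d.light u) (hw : ¬ d.light w) : d.A u ≤ d.A w :=
  le_trans hu (not_le.1 hw).le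

namespace Ok
variable (h : d.Ok)
include h

lemma crit_heavy {u w : V} (hw : w ∈ d.crit u) : ¬ d.light w := by
  have h1 := (Finset.mem_filter.1 hw).2
  have h2 := h.two_pv_le w
  unfold light eps; push Not; linarith
lemma card_heavy_le (W : Finset V) :
    ((W.filter (fun w => ¬ d.light w)).card : ℝ) * eps ≤ d.AW W := by
  have h1 := Finset.card_nsmul_le_sum (W.filter (fun w => ¬ d.light w)) d.A eps
    fun w hw => (not_le.1 (Finset.mem_filter.1 hw).2).le
  simp only [nsmul_eq_mul] at h1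
  exact h1.trans (Finset.sum_le_sum_of_subset_of_nonneg (Finset.filter_subset _ _)
    fun w _ _ => h.A_nonneg w)
lemma AW_nonneg (W : Finset V) : 0 ≤ d.AW W := Finset.sum_nonneg fun w _ => h.A_nonneg w
lemma AW_le_card (W : Finset V) : d.AW W ≤ W.card := by
  have := Finset.sum_le_card_nsmul W d.A 1 fun w _ => (h.A_lt_one w).le
  simpa [AW] using this

lemma qq_nonneg (u w : V) : 0 ≤ d.qq u w :=
  div_nonneg (Ex_I_nonneg h.pnn _) (h.Pf_pos u w).le
lemma qq_le {u w : V} (hu : d.light u) (hw : d.light w) :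
    d.qq u w ≤ d.pv (d.w0 u) * (1 + 1.01 * eps) := by
  have h1 : d.E (fun ω => I (¬ d.free ω (d.w0 u) ∧ d.free ω u ∧ d.free ω w)) ≤ d.pv (d.w0 u) := by
    rw [← h.E_notfree]; exact Ex_mono h.pnn fun ω _ => I_mono fun hh => hh.1
  have h2 := h.nn_light hu hw
  have h3 := h.pv_nonneg (d.w0 u)
  have h4 := h.Pf_pos u w
  unfold qq
  calc _ ≤ d.pv (d.w0 u) / d.Pf u w := div_le_div_of_nonneg_right h1 h4.le
    _ = d.pv (d.w0 u) * d.nn u w := by unfold nn; ring
    _ ≤ _ := mul_le_mul_of_nonneg_left h2 h3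
lemma qq_le' {u w : V} (hu : d.light u) (hw : d.light w) : d.qq u w ≤ 0.501 := by
  have h1 := h.qq_le hu hw
  have h2 := h.pv_lt_half (d.w0 u); have h3 := h.pv_nonneg (d.w0 u)
  unfold eps at h1; nlinarith
/-- the downward shift is close to its model value -/
lemma shift_le {u w : V} (hu : d.light u) (hw : d.light w) :
    rho * d.qq u w / (1 - d.qq u w) ≤ rho * d.pv (d.w0 u) / (1 - d.pv (d.w0 u)) + eps := by
  have h1 := h.qq_le hu hw
  have h2 := h.pv_lt_half (d.w0 u); have h3 := h.pv_nonneg (d.w0 u)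
  have h4 := h.qq_le' hu hw; have h5 := h.qq_nonneg u w
  have he : (0 : ℝ) < eps := by unfold eps; norm_num
  set q := d.qq u w
  set p := d.pv (d.w0 u)
  have h6 : q - p ≤ 0.51 * eps := by nlinarith
  rw [div_add' _ _ _ (by linarith), div_le_div_iff₀ (by linarith) (by linarith)]
  have h7 : 0.249 ≤ (1 - p) * (1 - q) := by nlinarith
  unfold rho; nlinarith
lemma xi_le {u w : V} (ω : Om V) (hw : d.light w) : d.xi u w ω ≤ rho / d.D := by
  have hD := h.D_pos
  unfold xi
  split_ifs with h1 h2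
  · refine div_le_div_of_nonneg_right ?_ hD.le
    have h4 := h.qq_le' (act_light h1) hw; have h5 := h.qq_nonneg u w
    have : 0 ≤ rho * d.qq u w / (1 - d.qq u w) :=
      div_nonneg (mul_nonneg (by unfold rho; norm_num) h5) (by linarith)
    unfold rho at *; linarith
  · exact le_rfl
  · unfold rho; positivity
lemma xi_ge {u w : V} (ω : Om V) (hw : d.light w) : -(0.21 / d.D) ≤ d.xi u w ω := by
  have hD := h.D_pos
  unfold xi
  split_ifs with h1 h2
  · rw [← neg_div]
    refine div_le_div_of_nonneg_right (neg_le_neg ?_) hD.le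
    have h4 := h.qq_le' (act_light h1) hw; have h5 := h.qq_nonneg u w
    rw [div_le_iff₀ (by linarith)]; unfold rho; nlinarith
  · have : 0 ≤ rho / d.D := by unfold rho; positivity
    have : 0 ≤ 0.21 / (d.D : ℝ) := by positivity
    linarith
  · have : 0 ≤ 0.21 / (d.D : ℝ) := by positivity
    linarith
/-- the shift has mean zero -/
lemma E_xi {u w : V} (hw : d.light w) :
    d.E (fun ω => I (d.free ω u ∧ d.free ω w) * d.xi u w ω) = 0 := by
  by_cases ha : d.act u
  · have h4 := h.qq_le' (act_light ha) hw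
    have hP := h.Pf_pos u w
    have e1 : ∀ ω, I (d.free ω u ∧ d.free ω w) * d.xi u w ω =
        (rho / (1 - d.qq u w) * I (¬ d.free ω (d.w0 u) ∧ d.free ω u ∧ d.free ω w) -
          rho * d.qq u w / (1 - d.qq u w) * I (d.free ω u ∧ d.free ω w)) / d.D := by
      intro ω
      have hq : 1 - d.qq u w ≠ 0 := by linarith
      unfold xi; rw [if_pos ha, I_and (¬ d.free ω (d.w0 u))]
      split_ifs with h2
      · rw [I_neg (not_not.2 h2)]; ring
      · rw [I_pos h2]; field_simp
    have e2 : d.E (fun ω => I (¬ d.free ω (d.w0 u) ∧ d.free ω u ∧ d.free ω w)) =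
        d.qq u w * d.Pf u w := by unfold qq; field_simp
    unfold E at *
    simp only [e1]
    rw [Ex_div_const, Ex_sub, Ex_const_mul, Ex_const_mul, e2]
    have : Ex d.p (fun ω => I (d.free ω u ∧ d.free ω w)) = d.Pf u w := rfl
    rw [this]; ring
  · simp only [xi_not_act ha, mul_zero]; exact Ex_zero
lemma card_nL_le (u : V) : ((d.nL u).card : ℝ) ≤ d.D := by
  have h1 : ((d.nL u).card : ℝ) ≤ (d.nb u).card := by
    exact_mod_cast Finset.card_le_card (Finset.filter_subset _ _)
  linarith [h.card_nb_le u]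
lemma sum_shift_le (F : Finset V) (hF : (F.card : ℝ) ≤ d.D) (f : V → ℝ) (c : ℝ) (hc : 0 ≤ c)
    (hf : ∀ w ∈ F, f w ≤ c / d.D) (P : V → Prop) : ∑ w ∈ F, I (P w) * f w ≤ c := by
  have hD := h.D_pos
  have h1 := Finset.sum_le_card_nsmul F (fun w => I (P w) * f w) (c / d.D) fun w hw => by
    by_cases hp : P w
    · rw [I_pos hp, one_mul]; exact hf w hw
    · rw [I_neg hp, zero_mul]; positivity
  simp only [nsmul_eq_mul] at h1
  refine h1.trans ?_
  rw [← mul_div_assoc, div_le_iff₀ hD]; nlinarith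
lemma noise_le {u : V} (hu : d.light u) (ω : Om V) : d.noise u ω ≤ rho :=
  h.sum_shift_le _ (h.card_nL_le u) _ _ (by unfold rho; norm_num) (fun _ _ => h.xi_le ω hu) _
lemma E_noise {u : V} (hu : d.light u) : d.E (fun ω => I (d.free ω u) * d.noise u ω) = 0 := by
  unfold noise E
  simp only [Finset.mul_sum]
  rw [Ex_sum]
  refine Finset.sum_eq_zero fun w _ => ?_
  rw [← h.E_xi (u := w) hu]
  exact Ex_congr fun ω _ => by rw [I_and]; ring
lemma card_sub_le {u : V} {W : Finset V} (hW : W ⊆ d.nb u) (P : V → Prop) [DecidablePred P] :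
    ((W.filter P).card : ℝ) ≤ d.D := by
  have h1 : ((W.filter P).card : ℝ) ≤ (d.nb u).card := by
    exact_mod_cast Finset.card_le_card ((Finset.filter_subset _ _).trans hW)
  linarith [h.card_nb_le u]
lemma Xi_le {u : V} {W : Finset V} (hW : W ⊆ d.nb u) (ω : Om V) : d.Xi u W ω ≤ rho :=
  h.sum_shift_le _ (h.card_sub_le hW _) _ _ (by unfold rho; norm_num)
    (fun _ hw => h.xi_le ω (Finset.mem_filter.1 hw).2) _
lemma Xi_ge {u : V} {W : Finset V} (hW : W ⊆ d.nb u) (ω : Om V) : -0.21 ≤ d.Xi u W ω := by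
  have := h.sum_shift_le _ (h.card_sub_le hW (fun w => d.light w)) (fun w => - d.xi u w ω) 0.21
    (by norm_num) (fun w hw => by linarith [h.xi_ge (u := u) ω (Finset.mem_filter.1 hw).2])
    (fun w => d.free ω w)
  simp only [mul_neg, Finset.sum_neg_distrib] at this
  unfold Xi; linarith
lemma E_Xi (u : V) (W : Finset V) : d.E (fun ω => I (d.free ω u) * d.Xi u W ω) = 0 := by
  unfold Xi E
  simp only [Finset.mul_sum]
  rw [Ex_sum]
  refine Finset.sum_eq_zero fun w hw => ?_
  rw [← h.E_xi (u := u) (Finset.mem_filter.1 hw).2]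
  exact Ex_congr fun ω _ => by rw [I_and]; ring
lemma E_Zp (u : V) (W : Finset V) : d.E (fun ω => I (d.free ω u) * d.Zp u W ω) = 0 := by
  unfold Zp E
  simp only [Finset.mul_sum]
  rw [Ex_sum]
  refine Finset.sum_eq_zero fun w _ => ?_
  have e1 : ∀ ω, I (d.free ω u) * (1 / (1 - d.pv u) - d.nn u w * I (d.free ω w)) =
      1 / (1 - d.pv u) * I (d.free ω u) - d.nn u w * I (d.free ω u ∧ d.free ω w) := fun ω => by
    rw [I_and]; ring
  simp only [e1]
  rw [Ex_sub, Ex_const_mul, Ex_const_mul]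
  have e2 : Ex d.p (fun ω => I (d.free ω u)) = 1 - d.pv u := h.E_free u
  have e3 : Ex d.p (fun ω => I (d.free ω u ∧ d.free ω w)) = d.Pf u w := rfl
  have e4 : 1 - d.pv u ≠ 0 := by linarith [h.pv_lt_half u]
  rw [e2, e3, h.nn_mul]; field_simp; ring

/-- value of a light pair for its controller -/
lemma capL_ge {u w : V} (hw : d.light w) (ω : Om V) :
    0.48 ≤ d.nu u w + d.eb w + d.xi u w ω := by
  have h1 := h.nu_ge (u := u) hw; have h2 := h.eb_nonneg w; have h3 := h.xi_ge (u := u) ω hw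
  have h4 := h.good.inv_D_le
  have h5 : 0.21 / (d.D : ℝ) = 0.21 * (1 / d.D) := by ring
  unfold tau at h4; linarith
lemma capL_le {u w : V} (hu : d.light u) (hw : d.light w) (ω : Om V) :
    2 * (d.nu u w + d.eb w + d.xi u w ω) ≤ 1 + 3 * eps := by
  have h1 := h.two_nu_le u w; have h2 := h.eb_le w; have h3 := h.xi_le (u := u) ω hw
  have h4 := h.good.inv_D_le; have h6 := h.al_light hu; have h7 : d.A w ≤ eps := hw
  have h5 : rho / (d.D : ℝ) = rho * (1 / d.D) := by ring
  unfold tau at h4; unfold rho eps at *; linarith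
lemma cap_nonneg (u w : V) (ω : Om V) : 0 ≤ d.cap u w ω := by
  refine mul_nonneg (I_nonneg _) ?_
  split_ifs with h1 h2
  · linarith [h.capL_ge (u := u) h2 ω]
  · linarith [h.CC_ge w]
  · exact (h.cb_pos u w).le
lemma hh_nonneg (u w : V) (ω : Om V) : 0 ≤ d.hh u w ω := by
  refine mul_nonneg (I_nonneg _) ?_
  split_ifs with h1 h2
  · exact le_rfl
  · exact le_min (h.al_pos w).le (by linarith [h.CC_ge w])
  · linarith [h.cb_pos u w]
lemma hh_le (u w : V) (ω : Om V) : d.hh u w ω ≤ 2 * d.cap u w ω := by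
  unfold hh cap
  rw [mul_left_comm]
  refine mul_le_mul_of_nonneg_left ?_ (I_nonneg _)
  split_ifs with h1 h2
  · linarith [h.capL_ge (u := u) h2 ω]
  · exact min_le_right _ _
  · exact le_rfl
lemma cap_not_free {u : V} {ω : Om V} (hu : ¬ d.free ω u) (w : V) : d.cap u w ω = 0 := by
  unfold cap; rw [I_neg fun hh => hu hh.1, zero_mul]
/-- what a heavy point grants to a neighbour -/
lemma cap_in_heavy {u w : V} (hu : ¬ d.light u) (hc : d.ctrl w u) (ω : Om V) :
    d.cap w u ω ≤ d.CC u := by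
  have h0 : 0 ≤ d.CC u := by linarith [h.CC_ge u]
  unfold cap
  refine le_trans (mul_le_mul_of_nonneg_left (c := d.CC u) ?_ (I_nonneg _)) ?_
  · split_ifs with h1
    · exact le_rfl
    · exact h.cb_le_CC hu (prec_le ((ctrl_heavy h1).1 hc).2)
  · nlinarith [I_le_one (d.free ω w ∧ d.free ω u)]
lemma cap_in_light {u w : V} (hu : d.light u) (hw : d.light w) (ω : Om V) :
    d.cap w u ω ≤ 0.51 := by
  have h1 := h.capL_le hw hu ω; have h2 := h.capL_ge (u := w) hu ω
  unfold cap; rw [if_pos hw, if_pos hu]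
  unfold eps at h1
  nlinarith [I_le_one (d.free ω w ∧ d.free ω u), I_nonneg (d.free ω w ∧ d.free ω u)]
lemma pool_le (u : V) (ω : Om V) : d.pool u ω ≤ d.D := by
  have : 0 ≤ ∑ w ∈ (d.nb u).filter (fun w => d.ctrl w u), d.cap w u ω :=
    Finset.sum_nonneg fun w _ => h.cap_nonneg w u ω
  unfold pool; linarith
lemma pool_light {u : V} (hu : d.light u) (ω : Om V) :
    d.D - 0.51 * (d.nL u).card ≤ d.pool u ω := by
  have := Finset.sum_le_card_nsmul (d.nL u) (fun w => d.cap w u ω) 0.51
    fun w hw => h.cap_in_light hu (Finset.mem_filter.1 hw).2 ω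
  simp only [nsmul_eq_mul] at this
  unfold pool; rw [in_light hu]; linarith
lemma pool_heavy {u : V} (hu : ¬ d.light u) (ω : Om V) :
    d.D - ((d.nb u).filter (fun w => d.ctrl w u)).card * d.CC u ≤ d.pool u ω := by
  have := Finset.sum_le_card_nsmul ((d.nb u).filter (fun w => d.ctrl w u))
    (fun w => d.cap w u ω) (d.CC u) fun w hw => h.cap_in_heavy hu (Finset.mem_filter.1 hw).2 ω
  simp only [nsmul_eq_mul] at this
  unfold pool; linarith
lemma pool_nonneg (u : V) (ω : Om V) : 0 ≤ d.pool u ω := by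
  by_cases hu : d.light u
  · linarith [h.pool_light hu ω, h.card_nL_le u, h.D_pos]
  · refine le_trans ?_ (h.pool_heavy hu ω)
    have h1 : (((d.nb u).filter (fun w => d.ctrl w u)).card : ℝ) ≤ (d.nb u).card := by
      exact_mod_cast Finset.card_le_card (Finset.filter_subset _ _)
    have h2 := h.card_mul_al u; have h3 := h.CC_le_al u; have h4 := h.CC_ge u
    have h5 := h.al_pos u
    have h6 : (((d.nb u).filter (fun w => d.ctrl w u)).card : ℝ) * d.CC u ≤
        (d.nb u).card * d.al u := mul_le_mul h1 h3 (by linarith) (by positivity)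
    linarith
lemma one_le_beta (u : V) : 1 ≤ d.beta u := by
  have := h.D_pos
  unfold beta; split_ifs
  · have : 0 ≤ 20 * ((d.nH u).card : ℝ) / d.D := by positivity
    unfold eps; linarith
  · norm_num
lemma beta_le_five (u : V) : d.beta u ≤ 5 := by
  have hD := h.D_pos
  unfold beta; split_ifs with h1
  · have : 20 * ((d.nH u).card : ℝ) / d.D ≤ 1 := by rw [div_le_one hD]; linarith
    unfold eps; linarith
  · exact le_rfl
lemma beta_le (u : V) : d.beta u ≤ 1 + 10 * eps + 80 * (d.nH u).card / d.D := by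
  have hD := h.D_pos
  unfold beta; split_ifs with h1
  · have : 20 * ((d.nH u).card : ℝ) / d.D ≤ 80 * (d.nH u).card / d.D :=
      div_le_div_of_nonneg_right (by have : (0 : ℝ) ≤ (d.nH u).card := by positivity
                                     linarith) hD.le
    linarith
  · have : 4 ≤ 80 * ((d.nH u).card : ℝ) / d.D := by rw [le_div_iff₀ hD]; linarith
    unfold eps; linarith
lemma bud_nonneg (u : V) : 0 ≤ d.bud u := by
  unfold bud; split_ifs
  · have := h.beta_le_five u; have := h.good.D_ge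
    have : (5 : ℝ) ≤ 10 ^ 200 := by norm_num
    linarith
  · exact le_rfl
lemma ff_nonneg (u : V) (W : Finset V) (ω : Om V) : 0 ≤ d.ff u W ω :=
  le_min (h.pool_nonneg u ω) (le_min (Finset.sum_nonneg fun w _ => h.cap_nonneg u w ω)
    (add_nonneg (by linarith [h.bud_nonneg u])
      (Finset.sum_nonneg fun w _ => by linarith [h.hh_nonneg u w ω])))
lemma E_nom (u : V) (W : Finset V) :
    d.E (fun ω => I (d.free ω u) * d.nom u W ω) = ∑ w ∈ W, d.tg u w := by
  unfold nom E
  simp only [Finset.mul_sum]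
  rw [Ex_sum]
  refine Finset.sum_congr rfl fun w _ => ?_
  rw [← h.nv_mul, Pf, E, ← Ex_const_mul]
  exact Ex_congr fun ω _ => by rw [I_and]; ring
/-- the cut condition follows from a lower bound for the three slacks -/
lemma star_of (u : V) (W : Finset V) (F : Om V → ℝ)
    (hF : ∀ ω, d.p ω ≠ 0 → d.free ω u → F ω ≤ d.PP u W ω ∧ F ω ≤ d.QQ u W ω ∧ F ω ≤ d.RR u W ω)
    (h0 : 0 ≤ d.E (fun ω => I (d.free ω u) * F ω)) : d.Star u W := by
  unfold Star
  rw [← h.E_nom]
  have h1 : d.E (fun ω => I (d.free ω u) * d.nom u W ω + I (d.free ω u) * F ω) ≤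
      d.E (d.ff u W) := by
    refine Ex_mono h.pnn fun ω hω => ?_
    by_cases hu : d.free ω u
    · obtain ⟨h2, h3, h4⟩ := hF ω hω hu
      rw [I_pos hu, one_mul, one_mul]
      unfold PP QQ RR at *
      exact le_min (by linarith) (le_min (by linarith) (by linarith))
    · rw [I_neg hu, zero_mul, zero_mul, add_zero]; exact h.ff_nonneg u W ω
  unfold E at *
  rw [Ex_add] at h1; linarith
lemma slack_ge (u : V) : 1 + d.D * d.A u / (2 - d.A u) ≤
    d.D - ((d.nb u).card : ℝ) / (1 - d.pv u) := by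
  have h1 := h.two_pv_le u; have h2 := h.A_lt_one u; have h3 := h.A_nonneg u
  have h4 : ((d.nb u).card : ℝ) / (1 - d.pv u) ≤ ((d.nb u).card : ℝ) / (1 - d.A u / 2) :=
    div_le_div_of_nonneg_left (by positivity) (by linarith) (by linarith)
  have h5 : ((d.nb u).card : ℝ) / (1 - d.A u / 2) =
      d.D - d.D * d.A u / (2 - d.A u) - 2 / (2 - d.A u) := by
    have : 2 - d.A u ≠ 0 := by linarith
    rw [h.card_nb]; field_simp; ring
  have h6 : 1 ≤ 2 / (2 - d.A u) := by rw [le_div_iff₀ (by linarith)]; linarith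
  linarith
lemma gam_ge (u : V) : 1 + kap * (d.D * d.A u) / 2 ≤ d.gam u := by
  have h1 := h.slack_ge u
  have h2 := h.A_lt_one u; have h3 := h.A_nonneg u; have hD := h.D_pos
  have h4 : d.D * d.A u / 2 ≤ d.D * d.A u / (2 - d.A u) :=
    div_le_div_of_nonneg_left (by positivity) (by linarith) (by linarith)
  have h5 : ((d.nL u).card : ℝ) * d.eb u ≤ d.D * d.eb u :=
    mul_le_mul_of_nonneg_right (h.card_nL_le u) (h.eb_nonneg u)
  unfold gam; unfold eb at *; linarith
lemma one_le_gam (u : V) : 1 ≤ d.gam u := by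
  have h1 := h.gam_ge u; have h3 := h.A_nonneg u; have hD := h.D_pos
  have : 0 ≤ kap * (d.D * d.A u) / 2 := by unfold kap; positivity
  linarith
lemma not_ST {u : V} (hu : ¬ d.ST u) : d.gam u - rho < d.mW u (d.nb u) := by
  have hD := h.D_pos
  have h1 := h.card_nL_le u
  have h2 : ((d.nL u).card : ℝ) * (rho / d.D) ≤ rho := by
    rw [← mul_div_assoc, div_le_iff₀ hD]; unfold rho; linarith
  unfold ST at hu
  unfold gam mW
  rw [Finset.sum_sub_distrib, Finset.sum_const, nsmul_eq_mul, mul_one_div]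
  push Not at hu
  linarith
lemma mW_term_le (u w : V) : d.nn u w - 1 / (1 - d.pv u) ≤
    d.pv w / ((1 - d.pv u) * (1 - d.pv u - d.pv w)) := by
  have h1 := h.nn_le u w
  have h2 := h.pv_lt_half u; have h3 := h.pv_lt_half w
  have e : 1 / (1 - d.pv u - d.pv w) - 1 / (1 - d.pv u) =
      d.pv w / ((1 - d.pv u) * (1 - d.pv u - d.pv w)) := by
    have : 1 - d.pv u ≠ 0 := by linarith
    have : 1 - d.pv u - d.pv w ≠ 0 := by linarith
    field_simp; ring
  linarith
lemma mW_term_light {u : V} (hu : d.light u) (w : V) :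
    d.nn u w - 1 / (1 - d.pv u) ≤ 1.1 * d.A w := by
  refine (h.mW_term_le u w).trans ?_
  have h1 := h.two_pv_le u; have h2 : d.A u ≤ eps := hu; have h3 := h.pv_lt_half w
  have h4 := h.two_pv_le w; have h5 := h.pv_nonneg w; have h6 := h.pv_nonneg u
  unfold eps at h2
  have h7 : 0.49 ≤ (1 - d.pv u) * (1 - d.pv u - d.pv w) := by nlinarith
  rw [div_le_iff₀ (by linarith)]; nlinarith
lemma mW_term_poor {u : V} (hu : d.A u ≤ del) (w : V) :
    d.nn u w - 1 / (1 - d.pv u) ≤ (1 + 5 * del) * (d.pv w / (1 - d.pv w)) := by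
  refine (h.mW_term_le u w).trans ?_
  have h1 := h.two_pv_le u; have h3 := h.pv_lt_half w
  have h5 := h.pv_nonneg w; have h6 := h.pv_nonneg u
  unfold del at *
  have h7 : 0.49 ≤ (1 - d.pv u) * (1 - d.pv u - d.pv w) := by nlinarith
  have h8 : 1 - d.pv w ≤ (1 + 5 * (1 / 10 ^ 16)) * ((1 - d.pv u) * (1 - d.pv u - d.pv w)) := by
    nlinarith
  rw [← mul_div_assoc, div_le_div_iff₀ (by linarith) (by linarith)]; nlinarith
lemma inv_poor {u : V} (hu : d.A u ≤ del) : 1 / (1 - d.pv u) ≤ 1 + del := by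
  have h1 := h.two_pv_le u; have h6 := h.pv_nonneg u
  unfold del at *
  rw [div_le_iff₀ (by linarith)]; nlinarith
lemma chi_light {u w : V} (hu : d.light u) (hw : d.light w) :
    1 ≤ d.chi u w ∧ d.chi u w ≤ 1 + 3 * eps := by
  have h1 := h.nn_light hu hw; have h2 := h.one_le_nn u w
  have h3 := h.eb_nonneg w; have h4 := h.eb_le w; have h5 : d.A w ≤ eps := hw
  unfold chi; rw [if_pos hw]; unfold eps at *; constructor <;> linarith

end Ok

end Dat

end Pool.Agent.P.MP_553766_co.Lg
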