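import Mathlib
import Pool.Agent.P.MP_553766_co.LBasic2

set_option autoImplicit false

/-! Statements of the packages of the second stage. -/

namespace Pool.Agent.P.MP_553766_co.Lg

open Finset Pool.Agent.P.MP_553766_co

namespace Dat

variable {V : Type} [Fintype V] [DecidableEq V] (d : Dat V)

/-- threshold for large jumps -/
noncomputable def J0 (W : Finset V) : ℝ := d.AW W / (1600 * d.l)
/-- edges that meet W in many points -/
noncomputable def lg (W : Finset V) : Finset (Finset V) :=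
  d.B.filter (fun e => d.J0 W ≤ ((e ∩ W).card : ℝ))
/-- weight of the points of W' that are covered by edges that meet W in few points -/
noncomputable def Bs (W W' : Finset V) (ch : V → ℝ) (ω : Om V) : ℝ :=
  ∑ w ∈ W', ch w * I (∃ f ∈ ω.1, w ∈ f ∧ f ∉ d.lg W)
/-- the good event -/
def goodC (W : Finset V) (ch : V → ℝ) (ω : Om V) : Prop :=
  ∀ W', (W' = W ∨ ∃ e ∈ d.lg W, W' = W \ e) →
    d.Bs W W' ch ω ≤ ∑ w ∈ W', ch w * d.pv w + d.AW W / 100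

end Dat

/-- product formula for small edges and points covered by small edges -/
def StL3 : Prop :=
  ∀ (V : Type) [Fintype V] [DecidableEq V] (d : Dat V), d.Ok →
    ∀ (J : Finset (Finset V)) (S : Finset V), J ⊆ d.sm → PD J → (∀ e ∈ J, Disjoint e S) →
    J.card + S.card ≤ 4 →
    |d.E (fun ω => I (J ⊆ ω.1 ∧ ∀ a ∈ S, d.sb ω a)) - (1 / d.D) ^ J.card * ∏ a ∈ S, d.ps a| ≤
      d.eta2 * (1 / d.D) ^ J.card

/-- covariance of adjacent points and its consequences -/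
def StCov : Prop :=
  ∀ (V : Type) [Fintype V] [DecidableEq V] (d : Dat V), d.Ok → ∀ u, ∀ w ∈ d.nb u,
    d.nn u w ≤ d.cb u w ∧
    (d.light u → d.light w →
      (1 - 2 * kap) * d.A w / 2 ≤ (1 - d.pv w) * d.chi u w - 1 / (1 - d.pv u))

/-- second moment of a linear form in the small edges -/
def StL5 : Prop :=
  ∀ (V : Type) [Fintype V] [DecidableEq V] (d : Dat V), d.Ok → ∀ b : Finset V → ℝ,
    d.E (fun ω => d.Lin b ω ^ 2) ≤ d.Qm b b + 3 * d.η * (∑ e ∈ d.sm, |b e| / d.D) ^ 2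

/-- the model second moment: noise terms -/
def StQn : Prop :=
  ∀ (V : Type) [Fintype V] [DecidableEq V] (d : Dat V), d.Ok → ∀ (J : Finset V → ℝ)
    (om : V → ℝ), (∀ e, 0 ≤ J e) → (∀ a, 0 ≤ om a) →
    d.Qm (fun e => J e - d.JJ univ om e) (fun e => J e - d.JJ univ om e) ≤
      d.Qm J J + ∑ a, om a ^ 2 * d.ps a * (1 - d.ps a) + 2 * (∑ a, om a) ^ 2 / d.D +
        2 * (d.K / d.D) * (∑ a, om a) * ∑ e ∈ d.sm, J e / d.D

/-- the model second moment: main term -/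
def StQm : Prop :=
  ∀ (V : Type) [Fintype V] [DecidableEq V] (d : Dat V), d.Ok → ∀ (W : Finset V) (co : V → ℝ),
    d.AW W ≤ d.A0 → (∀ w ∈ W, 0 ≤ co w ∧ co w ≤ 5) →
    (∀ w ∈ W, d.light w → co w ≤ 1 + 3 * eps) →
    d.Qm (d.JJ W co) (d.JJ W co) ≤ ∑ a ∈ W.filter (fun w => ¬ d.light w), d.Va W co a +
      3 * (1 + 3 * eps) ^ 2 * d.L0 W + tau1 / 10

/-- facts on the quantities of the second moment bound -/
def StQf : Prop :=
  ∀ (V : Type) [Fintype V] [DecidableEq V] (d : Dat V), d.Ok → ∀ (W : Finset V) (co : V → ℝ),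
    (∀ w ∈ W, d.light w → 0 ≤ co w ∧ co w ≤ 1 + 3 * eps) →
    0 ≤ d.L0 W ∧
    d.L0 W + ∑ a ∈ W.filter (fun w => ¬ d.light w), d.La W a ≤
      ∑ w ∈ W.filter (fun w => d.light w), d.A w / 2 ∧
    ∀ a, 0 ≤ d.La W a ∧ 0 ≤ d.mu W co a ∧ d.mu W co a ≤ (1 + 3 * eps) * d.La W a ∧
      d.mu W co a ≤ (1 + 3 * eps) * d.A a

/-- the second moment bound -/
def StV : Prop :=
  ∀ (V : Type) [Fintype V] [DecidableEq V] (d : Dat V), d.Ok →
    ∀ (W : Finset V) (co om : V → ℝ) (Cr : Finset V) (t : V → V) (Cg : ℝ),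
    d.AW W ≤ d.A0 → (∀ w ∈ W, 0 ≤ co w ∧ co w ≤ 5) →
    (∀ w ∈ W, d.light w → co w ≤ 1 + 3 * eps) → (∀ a, 0 ≤ om a) → ∑ a, om a ≤ 1 →
    Cr ⊆ W → (∀ a ∈ Cr, ¬ d.light a ∧ t a ∈ Cr ∧ t a ≠ a ∧ t (t a) = a) → 0 ≤ Cg → Cg ≤ 4 →
    |d.E (d.ZZ W co om Cr t Cg)| ≤ tau1 ∧
    d.E (fun ω => d.ZZ W co om Cr t Cg ω ^ 2) ≤
      ∑ a ∈ W.filter (fun w => ¬ d.light w), d.Va W co a + 3 * (1 + 3 * eps) ^ 2 * d.L0 W +
        ∑ a, om a ^ 2 * d.ps a * (1 - d.ps a) + Cr.card * Cg ^ 2 / 32 + tau1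

/-- the cut condition for a light point follows from the core inequality -/
def StCore : Prop :=
  ∀ (V : Type) [Fintype V] [DecidableEq V] (d : Dat V), d.Ok → ∀ u W, d.light u → W ⊆ d.nb u →
    0 ≤ d.E (fun ω => I (d.free ω u) * d.core u W ω) → d.Star u W

/-- small proper subsets -/
def StSmall : Prop :=
  ∀ (V : Type) [Fintype V] [DecidableEq V] (d : Dat V), d.Ok → ∀ u W, d.light u → W ⊆ d.nb u →
    W ≠ d.nb u → d.mW u W ≤ d.gam u + 0.09 →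
    ((W.filter (fun w => ¬ d.light w)).card : ℝ) ≤ d.D / 1000 → d.Star u W

/-- much slack -/
def StR : Prop :=
  ∀ (V : Type) [Fintype V] [DecidableEq V] (d : Dat V), d.Ok → ∀ (u : V) (W : Finset V)
    (ch : V → ℝ), (W.card : ℝ) ≤ d.D → (∀ w ∈ W, 0 ≤ ch w ∧ ch w ≤ 5) →
    c0 * d.AW W ≤ ∑ w ∈ W, ((1 - d.pv w) * ch w - 1 / (1 - d.pv u)) → c1 * d.D ≤ d.AW W →
    0 ≤ d.E (fun ω => I (d.free ω u) *
      min (c0 * c1 * d.D / 10) (min (d.YY u W ch ω) (d.YY u W ch ω / 2 - 3)))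

/-- points with much slack -/
def StRich : Prop :=
  ∀ (V : Type) [Fintype V] [DecidableEq V] (d : Dat V), d.Ok → ∀ u,
    (¬ d.light u ∨ (del < d.A u ∧ ¬ d.ST u)) → ∀ W ⊆ d.ctl u, d.Star u W

/-- the full neighbourhood, small total deficiency -/
def StB1 : Prop :=
  ∀ (V : Type) [Fintype V] [DecidableEq V] (d : Dat V), d.Ok → ∀ u, d.A u ≤ del → ¬ d.ST u →
    d.AW (d.nb u) ≤ d.A0 → 0 ≤ d.E (fun ω => I (d.free ω u) * d.core u (d.nb u) ω)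

/-- proper subsets, small total deficiency -/
def StB2 : Prop :=
  ∀ (V : Type) [Fintype V] [DecidableEq V] (d : Dat V), d.Ok → ∀ u W, d.A u ≤ del →
    W ⊆ d.nb u → W ≠ d.nb u → d.AW W ≤ d.A0 → d.gam u + 0.09 < d.mW u W →
    0 ≤ d.E (fun ω => I (d.free ω u) * d.core u W ω)

/-- the good event and pairs of large jumps -/
def StC2 : Prop :=
  ∀ (V : Type) [Fintype V] [DecidableEq V] (d : Dat V), d.Ok → ∀ (W : Finset V) (ch : V → ℝ),
    (W.card : ℝ) ≤ d.D → d.A0 < d.AW W → (∀ w ∈ W, 0 ≤ ch w ∧ ch w ≤ 4) →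
    d.E (fun ω => I (¬ d.goodC W ch ω)) ≤ tau1 / d.D ∧
    d.E (fun ω => ∑ e ∈ d.lg W, ∑ f ∈ (d.lg W).erase e,
      ((e ∩ W).card : ℝ) * I (e ∈ ω.1 ∧ f ∈ ω.1)) ≤ tau1

/-- large total deficiency, no giant edge -/
def StC : Prop :=
  ∀ (V : Type) [Fintype V] [DecidableEq V] (d : Dat V), d.Ok → ∀ u W, d.A u ≤ del →
    W ⊆ d.nb u → d.A0 < d.AW W → (∀ e ∈ d.B, ((e ∩ W).card : ℝ) ≤ 0.7 * d.D) →
    0 ≤ d.E (fun ω => I (d.free ω u) * d.core u W ω)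

/-- two estimates for a giant edge -/
def StD1 : Prop :=
  ∀ (V : Type) [Fintype V] [DecidableEq V] (d : Dat V), d.Ok → ∀ e ∈ d.B, ∀ W1 ⊆ e,
    0.7 * d.D < (W1.card : ℝ) →
    d.E (fun ω => I (0.3 * (W1.card : ℝ) ≤
      ∑ w ∈ W1, I (∃ f ∈ ω.1, w ∈ f ∧ f ≠ e))) ≤ tau1 / (d.D : ℝ) ^ 2 ∧
    ∀ v, v ∉ e → d.E (fun ω => I (¬ d.free ω v ∧ e ∈ ω.1)) ≤ (d.pv v + 0.01) / d.D

/-- a giant edge -/
def StD : Prop :=
  ∀ (V : Type) [Fintype V] [DecidableEq V] (d : Dat V), d.Ok → ∀ u W, d.A u ≤ del → ¬ d.ST u →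
    W ⊆ d.nb u → (∃ e ∈ d.B, 0.7 * d.D < ((e ∩ W).card : ℝ)) → d.Star u W

/-- static points -/
def StVStat : Prop :=
  ∀ (V : Type) [Fintype V] [DecidableEq V] (d : Dat V), d.Ok → ∀ u, d.light u → d.ST u →
    ∃ z a, d.VGood u z a

/-- dynamic points -/
def StVDyn : Prop :=
  ∀ (V : Type) [Fintype V] [DecidableEq V] (d : Dat V), d.Ok → ∀ u,
    (∀ W ⊆ d.ctl u, d.Star u W) → ∃ z a, d.VGood u z a

/-- from the points to the pairs -/
def StZ : Prop :=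
  ∀ (V : Type) [Fintype V] [DecidableEq V] (d : Dat V), d.Ok →
    (∀ u, ∃ z a, d.VGood u z a) → ∃ z a, d.ZGood z a

/-- the fractional colouring -/
def StFin : Prop :=
  ∀ (V : Type) [Fintype V] [DecidableEq V] (E : Finset (Finset V)) (d : Dat V), d.Ok →
    (∀ e ∈ E, e.Nonempty) → d.B = E.filter (fun e => 3 ≤ e.card) →
    (∀ u w, w ∈ d.nb u ↔ w ≠ u ∧ ({u, w} : Finset V) ∈ E) → ∀ z a, d.ZGood z a →
    ∃ w : Finset (Finset V) → ℝ, (∀ M, 0 ≤ w M) ∧ (∀ M, w M ≠ 0 → IsM E M) ∧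
      (∀ e ∈ E, 1 ≤ ∑ M, w M * ind M e) ∧ ∑ M, w M ≤ d.D

end Pool.Agent.P.MP_553766_co.Lg
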