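import Mathlib
import Pool.Agent.P.MP_553766_co.LSt1
import Pool.Agent.P.MP_553766_co.LSt2

set_option autoImplicit false
set_option linter.unusedSectionVars false

/-! Two more statements and three tools. -/

namespace Pool.Agent.P.MP_553766_co.Lg

open Finset Pool.Agent.P.MP_553766_co

/-- the shifts received by a light point -/
def StSh1 : Prop :=
  ∀ (V : Type) [Fintype V] [DecidableEq V] (d : Dat V), d.Ok → ∀ u, d.light u →
    ∃ (om : V → ℝ) (R : Om V → ℝ), (∀ a, 0 ≤ om a) ∧ ∑ a, om a ≤ 1 ∧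
      ∑ a, om a ^ 2 * d.ps a * (1 - d.ps a) ≤ 0.006 ∧ (∀ ω, 0 ≤ R ω) ∧ d.E R ≤ 2 * eps ∧
      ∀ ω, ∑ a, om a * d.sv a ω - R ω ≤ d.noise u ω

/-- the shifts made by a point -/
def StSh2 : Prop :=
  ∀ (V : Type) [Fintype V] [DecidableEq V] (d : Dat V), d.Ok → ∀ u W, d.act u → W ⊆ d.nb u →
    ∃ R : Om V → ℝ, (∀ ω, 0 ≤ R ω) ∧ d.E R ≤ 2 * eps ∧
      ∀ ω, ((W.filter (fun w => d.light w)).card : ℝ) / d.D * (rho / (1 - d.pv (d.w0 u))) *
        (I (¬ d.free ω (d.w0 u)) - d.pv (d.w0 u)) - R ω ≤ d.Xi u W ω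

/-- the closing step of the second moment argument -/
lemma close {Ω : Type} [Fintype Ω] {p : Ω → ℝ} (hp : IsProb p) (Fr : Ω → Prop)
    (Z R Φ : Ω → ℝ) (c v a g o r δ ζ : ℝ)
    (h4 : ∀ y : ℝ, y - (y + (a - g)) ^ 2 / (4 * a) ≤ min g (min y (y / 2 + o)))
    (ha : 0 < a) (hg : 0 ≤ g) (h1 : 0 ≤ c + (a - g)) (h2 : c + (a - g) ≤ 2 * a)
    (hZ : |Ex p Z| ≤ ζ) (hZ2 : Ex p (fun ω => Z ω ^ 2) ≤ v) (hR : ∀ ω, 0 ≤ R ω)
    (hR2 : Ex p R ≤ r) (hF : Ex p (fun ω => I (¬ Fr ω)) ≤ δ)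
    (hΦ : ∀ ω, p ω ≠ 0 → Fr ω → min g (min (c - Z ω) ((c - Z ω) / 2 + o)) - R ω ≤ Φ ω) :
    c - ((c + (a - g)) ^ 2 + v) / (4 * a) - 2 * ζ - r - g * δ ≤
      Ex p (fun ω => I (Fr ω) * Φ ω) := by
  set b := c + (a - g) with hb
  have e1 : ∀ ω, (c - Z ω) - ((c - Z ω) + (a - g)) ^ 2 / (4 * a) =
      (c - b ^ 2 / (4 * a)) + (b / (2 * a) - 1) * Z ω - Z ω ^ 2 / (4 * a) := by
    intro ω; rw [hb]; field_simp; ring
  have hpt : Ex p (fun ω => (c - b ^ 2 / (4 * a)) + (b / (2 * a) - 1) * Z ω - Z ω ^ 2 / (4 * a)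
      - R ω - g * I (¬ Fr ω)) ≤ Ex p (fun ω => I (Fr ω) * Φ ω) := by
    refine Ex_mono hp.nonneg fun ω hω => ?_
    rw [← e1]
    have h5 := h4 (c - Z ω)
    by_cases hf : Fr ω
    · rw [I_pos hf, I_neg (not_not.2 hf)]
      have := hΦ ω hω hf
      linarith
    · rw [I_neg hf, I_pos hf]
      have := min_le_left g (min (c - Z ω) ((c - Z ω) / 2 + o))
      have := hR ω
      linarith
  rw [Ex_sub, Ex_sub, Ex_sub, Ex_add, Ex_const hp, Ex_const_mul, Ex_div_const,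
    Ex_const_mul] at hpt
  have h6 : 0 ≤ b / (2 * a) := by positivity
  have h7 : b / (2 * a) ≤ 1 := by rw [div_le_one (by positivity)]; exact h2
  have h8 : Ex p (fun ω => Z ω ^ 2) / (4 * a) ≤ v / (4 * a) :=
    div_le_div_of_nonneg_right hZ2 (by positivity)
  have h9 := abs_le.1 hZ
  have h10 : -ζ ≤ (b / (2 * a) - 1) * Ex p (fun ω => Z ω) := by
    have : Ex p (fun ω => Z ω) = Ex p Z := rfl
    rw [this]; nlinarith [h9.1, h9.2]
  have h11 : g * Ex p (fun ω => I (¬ Fr ω)) ≤ g * δ := mul_le_mul_of_nonneg_left hF hg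
  have h12 : Ex p (fun ω => R ω) = Ex p R := rfl
  have h13 : 0 ≤ ζ := (abs_nonneg _).trans hZ
  rw [add_div]
  linarith

/-- a set of even size has an involution without fixed points -/
lemma exists_invol {V : Type} [DecidableEq V] (n : ℕ) : ∀ s : Finset V, s.card = 2 * n →
    ∃ t : V → V, ∀ a ∈ s, t a ∈ s ∧ t a ≠ a ∧ t (t a) = a := by
  induction n with
  | zero =>
    intro s hs
    refine ⟨id, fun a ha => ?_⟩
    rw [Finset.card_eq_zero.1 hs] at ha; simp at ha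
  | succ n ih =>
    intro s hs
    obtain ⟨x, hx, y, hy, hxy⟩ := Finset.one_lt_card.1 (show 1 < s.card by omega)
    have hc : ((s.erase x).erase y).card = 2 * n := by
      rw [Finset.card_erase_of_mem (Finset.mem_erase.2 ⟨hxy.symm, hy⟩),
        Finset.card_erase_of_mem hx]; omega
    obtain ⟨t, ht⟩ := ih _ hc
    refine ⟨fun a => if a = x then y else if a = y then x else t a, fun a ha => ?_⟩
    by_cases h1 : a = x
    · subst h1; simp [hy, hxy.symm]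
    · by_cases h2 : a = y
      · subst h2; simp [hx, h1, hxy]
      · obtain ⟨h3, h4, h5⟩ := ht a (by simp [h1, h2, ha])
        simp only [Finset.mem_erase] at h3
        simp [h1, h2, h3.1, h3.2.1, h3.2.2, h4, h5]

lemma Dat.Ok.noise_ge {V : Type} [Fintype V] [DecidableEq V] {d : Dat V} (h : d.Ok) {u : V}
    (hu : d.light u) (ω : Om V) : -0.21 ≤ d.noise u ω := by
  have := h.sum_shift_le _ (h.card_nL_le u) (fun w => - d.xi w u ω) 0.21
    (by norm_num) (fun w _ => by linarith [h.xi_ge (u := w) ω hu]) (fun w => d.free ω w)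
  simp only [mul_neg, Finset.sum_neg_distrib] at this
  unfold Dat.noise; linarith

end Pool.Agent.P.MP_553766_co.Lg
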