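import Mathlib
import Pool.Agent.P.MP_553766_co.LSt3

set_option autoImplicit false
set_option linter.unusedSectionVars false

/-! Proper subsets, small total deficiency. -/

namespace Pool.Agent.P.MP_553766_co.Lg

open Finset Pool.Agent.P.MP_553766_co

namespace LB2

variable {V : Type} [Fintype V] [DecidableEq V] {d : Dat V}

lemma min_shift {g o y z R : ℝ} (hR : 0 ≤ R) (h : z - R ≤ y) :
    min g (min z (z / 2 + o)) - R ≤ min g (min y (y / 2 + o)) := by
  have h1 := min_le_left g (min z (z / 2 + o))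
  have h2 := min_le_right g (min z (z / 2 + o))
  have h3 := min_le_left z (z / 2 + o)
  have h4 := min_le_right z (z / 2 + o)
  exact le_min (by linarith) (le_min (by linarith) (by linarith))

lemma A0_le (h : d.Ok) : d.A0 ≤ tau * tau * d.D := by
  have h1 := h.good.g2
  have h2 := h.good.K_le
  have h3 : (0 : ℝ) ≤ tau := by unfold tau; norm_num
  calc d.A0 ≤ tau * d.K := h1
    _ ≤ tau * (tau * d.D) := mul_le_mul_of_nonneg_left h2 h3
    _ = _ := by ring

/-- the core is bounded below by a function of the excess -/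
lemma core_ge (h : d.Ok) {u : V} {W : Finset V} (hu : d.light u) (hW : W ⊆ d.nb u)
    (hne : W ≠ d.nb u) (hA : d.AW W ≤ d.A0) (ω : Om V) :
    min 1.29 (min (d.YY u W (d.chi u) ω + d.Xi u W ω)
      ((d.YY u W (d.chi u) ω + d.Xi u W ω) / 2 + 0.38)) ≤ d.core u W ω := by
  have hout : 1 ≤ d.out u W := by
    unfold Dat.out
    have : (d.nb u \ W).Nonempty := by
      rw [nonempty_iff_ne_empty]
      intro h0
      exact hne (Subset.antisymm hW (sdiff_eq_empty_iff_subset.1 h0))
    exact_mod_cast this.card_pos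
  have hD := h.D_pos
  have hD' := h.good.D_ge
  have hH : ((d.nH u).card : ℝ) ≤
      ((W.filter (fun w => ¬ d.light w)).card : ℝ) + d.out u W := by
    unfold Dat.out
    have : d.nH u ⊆ W.filter (fun w => ¬ d.light w) ∪ (d.nb u \ W) := by
      intro w hw
      obtain ⟨h1, h2⟩ := mem_filter.1 hw
      by_cases h3 : w ∈ W
      · exact mem_union_left _ (mem_filter.2 ⟨h3, h2⟩)
      · exact mem_union_right _ (mem_sdiff.2 ⟨h1, h3⟩)
    exact_mod_cast (card_le_card this).trans (card_union_le _ _)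
  have h1 := h.card_heavy_le W
  have h2 := A0_le h
  have h3 : 80 * ((d.nH u).card : ℝ) / d.D ≤ 0.001 + 0.001 * d.out u W := by
    rw [div_le_iff₀ hD]
    have h4 : 80 * d.out u W ≤ 0.001 * d.out u W * d.D := by
      have h9 : (80000 : ℝ) ≤ d.D := le_trans (by norm_num) hD'
      have : (80 : ℝ) ≤ 0.001 * d.D := by linarith
      nlinarith
    unfold eps at h1
    unfold tau at h2
    norm_num at h1 h2 h4 ⊢
    linarith
  have h5 := h.beta_le u
  have h6 := h.one_le_gam u
  have h7 := h.noise_le hu ω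
  have h8 := h.Xi_le hW ω
  unfold rho at h7 h8
  unfold eps at h5
  unfold Dat.core
  refine le_min ((min_le_left _ _).trans (by linarith)) (le_min
    ((min_le_right _ _).trans (min_le_left _ _))
    (((min_le_right _ _).trans (min_le_right _ _)).trans ?_))
  norm_num at h3 h5 ⊢
  linarith

/-- the shifts made by u -/
lemma shifts (s2 : StSh2) (h : d.Ok) {u : V} {W : Finset V} (hW : W ⊆ d.nb u) :
    ∃ (om : V → ℝ) (R : Om V → ℝ), (∀ a, 0 ≤ om a) ∧ ∑ a, om a ≤ 1 ∧
      ∑ a, om a ^ 2 * d.ps a * (1 - d.ps a) ≤ 0.04 ∧ (∀ ω, 0 ≤ R ω) ∧ d.E R ≤ 2 * eps ∧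
      ∀ ω, d.p ω ≠ 0 → ∑ a, om a * d.sv a ω - tau - R ω ≤ d.Xi u W ω := by
  have ht : (0 : ℝ) ≤ tau := by unfold tau; norm_num
  by_cases ha : d.act u
  · obtain ⟨R, hR0, hR1, hR2⟩ := s2 V d h u W ha hW
    obtain ⟨o, ho⟩ : ∃ o : ℝ, o = ((W.filter (fun w => d.light w)).card : ℝ) / d.D *
      (rho / (1 - d.pv (d.w0 u))) := ⟨_, rfl⟩
    have hp := h.pv_lt_half (d.w0 u)
    have a1 : ((W.filter (fun w => d.light w)).card : ℝ) / d.D ≤ 1 := by
      rw [div_le_one h.D_pos]
      exact h.card_sub_le hW _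
    have a2 : rho / (1 - d.pv (d.w0 u)) ≤ 0.4 := by
      rw [div_le_iff₀ (by linarith)]
      unfold rho
      linarith
    have a3 : 0 ≤ rho / (1 - d.pv (d.w0 u)) :=
      div_nonneg (by unfold rho; norm_num) (by linarith)
    have o0 : 0 ≤ o := by
      rw [ho]
      exact mul_nonneg (div_nonneg (Nat.cast_nonneg _) h.D_pos.le) a3
    have o1 : o ≤ 0.4 := by
      rw [ho]
      calc _ ≤ 1 * (rho / (1 - d.pv (d.w0 u))) := mul_le_mul_of_nonneg_right a1 a3
        _ ≤ _ := by linarith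
    obtain ⟨om, hom⟩ : ∃ om : V → ℝ, ∀ a, om a = if a = d.w0 u then o else 0 :=
      ⟨_, fun _ => rfl⟩
    refine ⟨om, R, fun a => ?_, ?_, ?_, hR0, hR1, ?_⟩
    · rw [hom]
      split_ifs
      · exact o0
      · exact le_rfl
    · simp only [hom]
      rw [sum_ite_eq', if_pos (mem_univ _)]
      linarith
    · rw [sum_eq_single (d.w0 u) (fun b _ hb => by rw [hom, if_neg hb]; ring)
        (fun hb => absurd (mem_univ _) hb), hom, if_pos rfl]
      have b1 : d.ps (d.w0 u) * (1 - d.ps (d.w0 u)) ≤ 1 / 4 := by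
        nlinarith [sq_nonneg (d.ps (d.w0 u) - 1 / 2)]
      have b2 : o ^ 2 * (d.ps (d.w0 u) * (1 - d.ps (d.w0 u))) ≤ o ^ 2 * (1 / 4) :=
        mul_le_mul_of_nonneg_left b1 (sq_nonneg _)
      have b3 : o ^ 2 ≤ 0.16 := by nlinarith
      rw [mul_assoc]
      linarith
    · intro ω hω
      rw [sum_eq_single (d.w0 u) (fun b _ hb => by rw [hom, if_neg hb]; ring)
        (fun hb => absurd (mem_univ _) hb), hom, if_pos rfl]
      have c1 := hR2 ω
      rw [← ho, I_not, h.I_free hω] at c1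
      have c2 := h.pv_sub_ps_le_tau (d.w0 u)
      have c3 := I_nonneg (d.nsb ω (d.w0 u))
      have c4 : o * (d.sv (d.w0 u) ω - tau) ≤ o * (1 - (1 - I (d.sb ω (d.w0 u)) -
          I (d.nsb ω (d.w0 u))) - d.pv (d.w0 u)) := by
        refine mul_le_mul_of_nonneg_left ?_ o0
        unfold Dat.sv
        linarith
      have c5 : o * tau ≤ tau := by nlinarith
      linarith
  · refine ⟨fun _ => 0, fun _ => 0, fun _ => le_rfl, by simp, by simp; norm_num,
      fun _ => le_rfl, ?_, fun ω _ => ?_⟩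
    · unfold Dat.E
      rw [Ex_zero]
      unfold eps
      norm_num
    · have : d.Xi u W ω = 0 := by
        unfold Dat.Xi
        exact sum_eq_zero fun w _ => by rw [Dat.xi_not_act ha, mul_zero]
      rw [this]
      simp [ht]

lemma term_ge (h : d.Ok) {ω : Om V} (hω : d.p ω ≠ 0) (w : V) {C χ : ℝ} (h0 : 0 ≤ C)
    (h1 : C ≤ χ) (h5 : C ≤ 5) :
    (1 - d.pv w) * C - C * d.sv w ω - 5 * I (d.nsb ω w) ≤ χ * I (d.free ω w) := by
  have a1 : C * I (d.free ω w) ≤ χ * I (d.free ω w) :=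
    mul_le_mul_of_nonneg_right h1 (I_nonneg _)
  have a2 : C * I (d.nsb ω w) ≤ 5 * I (d.nsb ω w) :=
    mul_le_mul_of_nonneg_right h5 (I_nonneg _)
  have a3 : C * d.ps w ≤ C * d.pv w := mul_le_mul_of_nonneg_left (h.ps_le_pv w) h0
  rw [h.I_free hω] at a1
  rw [h.I_free hω]
  unfold Dat.sv
  linarith

end LB2

open LB2

theorem b2 (hV : StV) (hf : StQf) (n1 : StN1) (n4 : StN4) (hc : StCov) (s2 : StSh2) : StB2 := by
  intro V _ _ d h u W hu hW hne hA hm
  have hul : d.light u := Dat.light_of_poor hu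
  obtain ⟨hL0, hLs, hLa⟩ := hf V d h W (d.chi u) (fun w _ hw =>
    ⟨by linarith [(h.chi_light hul hw).1], (h.chi_light hul hw).2⟩)
  have hch := fun (a : V) (ha : ¬ d.light a) =>
    n1 (d.pv a) (d.A a) (d.mu W (d.chi u) a) (d.La W a) (h.pv_nonneg a) (h.two_pv_le a)
      (not_le.1 ha) (h.A_lt_one a) (hLa a).2.1 (hLa a).2.2.1 (hLa a).2.2.2
  choose! C hC0 hC1 hC2 hC3 _ using hch
  obtain ⟨co, hco⟩ : ∃ co : V → ℝ, ∀ w, co w = if d.light w then d.chi u w else C w :=
    ⟨_, fun _ => rfl⟩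
  obtain ⟨k, hk⟩ : ∃ k : V → ℝ, ∀ w, k w = if d.light w then (1 - 2 * kap) * d.A w / 2
    else (1 - d.pv w) * C w - 1 - del := ⟨_, fun _ => rfl⟩
  have he3 : 1 + 3 * eps ≤ 5 := by unfold eps; norm_num
  have hcoL : ∀ w, d.light w → co w ≤ 1 + 3 * eps := fun w hw => by
    rw [hco, if_pos hw]; exact (h.chi_light hul hw).2
  have hco5 : ∀ w, 0 ≤ co w ∧ co w ≤ 5 := by
    intro w
    by_cases hw : d.light w
    · refine ⟨?_, (hcoL w hw).trans he3⟩
      rw [hco, if_pos hw]
      linarith [(h.chi_light hul hw).1]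
    · rw [hco, if_neg hw]
      exact ⟨hC0 w hw, (hC1 w hw).trans (min_le_left _ _)⟩
  have hcochi : ∀ w, co w ≤ d.chi u w := by
    intro w
    by_cases hw : d.light w
    · rw [hco, if_pos hw]
    · rw [hco, if_neg hw]
      unfold Dat.chi Dat.CC
      rw [if_neg hw, h.al_eq]
      exact hC1 w hw
  have hkco : ∀ w ∈ W, k w ≤ (1 - d.pv w) * co w - 1 / (1 - d.pv u) := by
    intro w hw
    by_cases hl : d.light w
    · rw [hk, hco, if_pos hl, if_pos hl]
      exact (hc V d h u w (hW hw)).2 hul hl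
    · rw [hk, hco, if_neg hl, if_neg hl]
      linarith [h.inv_poor hu]
  obtain ⟨om, R, ho0, ho1, ho2, hR0, hR1, hR2⟩ := shifts s2 h hW
  obtain ⟨hZ1, hZ2⟩ := hV V d h W co om ∅ id 0 hA (fun w _ => hco5 w) (fun w _ hw => hcoL w hw)
    ho0 ho1 (empty_subset _) (fun a ha => absurd ha (notMem_empty a)) le_rfl (by norm_num)
  obtain ⟨c, hcdef⟩ : ∃ c, c = ∑ w ∈ W, k w := ⟨_, rfl⟩
  -- the size of c
  have hc1 : 1.08 ≤ c := by
    have a1 : ∀ w ∈ W, (1 - 3 * kap) * (d.pv w / (1 - d.pv w)) ≤ k w := by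
      intro w _
      have p0 := h.pv_nonneg w
      have p1 := h.pv_lt_half w
      have p2 := h.two_pv_le w
      by_cases hl : d.light w
      · rw [hk, if_pos hl, ← mul_div_assoc, div_le_iff₀ (by linarith)]
        have hl' : d.A w ≤ 1 / 10 ^ 7 := hl
        have b1 : d.pv w * d.A w ≤ 1 / 10 ^ 7 * d.A w :=
          mul_le_mul_of_nonneg_right (by linarith) (by linarith)
        unfold kap
        nlinarith
      · rw [hk, if_neg hl]
        refine le_trans (mul_le_mul_of_nonneg_right ?_ (div_nonneg p0 (by linarith))) (hC2 w hl)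
        unfold kap
        norm_num
    have a2 : d.mW u W ≤ (1 + 5 * del) * ∑ w ∈ W, d.pv w / (1 - d.pv w) := by
      rw [mul_sum]
      exact sum_le_sum fun w _ => h.mW_term_poor hu w
    have a3 := sum_le_sum a1
    rw [← mul_sum, ← hcdef] at a3
    have a4 := h.one_le_gam u
    unfold del at a2
    unfold kap at a3
    norm_num at a2 a3 hm ⊢
    linarith
  -- the second moment
  have hv : d.E (fun ω => d.ZZ W co om ∅ id 0 ω ^ 2) ≤ 4.6 * c + 0.045 := by
    have a1 : ∀ a ∈ W.filter (fun w => ¬ d.light w),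
        d.Va W co a ≤ 4.6 * (k a + (1 - 2 * kap) * d.La W a) := by
      intro a ha
      have hl := (mem_filter.1 ha).2
      have e1 : d.mu W co a = d.mu W (d.chi u) a := by
        unfold Dat.mu
        refine sum_congr rfl fun e _ => ?_
        rw [sum_congr rfl fun w hw => by rw [hco, if_pos (mem_filter.1 hw).2]]
      have e2 : d.Va W co a = vnum (d.pv a) (C a) (d.mu W (d.chi u) a) (d.La W a) := by
        unfold Dat.Va vnum
        rw [e1, hco, if_neg hl]
      rw [e2, hk, if_neg hl]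
      exact hC3 a hl
    have a2 := sum_le_sum a1
    rw [← mul_sum, sum_add_distrib, ← mul_sum] at a2
    have a3 : c = ∑ w ∈ W.filter (fun w => ¬ d.light w), k w +
        (1 - 2 * kap) * ∑ w ∈ W.filter (fun w => d.light w), d.A w / 2 := by
      rw [hcdef, ← sum_filter_add_sum_filter_not W (fun w => d.light w), add_comm, mul_sum]
      congr 1
      exact sum_congr rfl fun w hw => by rw [hk, if_pos (mem_filter.1 hw).2]; ring
    unfold kap at a2 a3
    unfold eps tau1 at hZ2
    norm_num at a2 a3 hZ2 ho2 ⊢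
    linarith
  have hRE : d.E (fun ω => 5 * ∑ w ∈ W, I (d.nsb ω w) + R ω + tau) ≤ 0.001 := by
    unfold Dat.E
    rw [Ex_add, Ex_add, Ex_const h.prob, Ex_const_mul, Ex_sum]
    have a1 : ∑ w ∈ W, Ex d.p (fun ω => I (d.nsb ω w)) ≤ d.AW W / d.K := by
      unfold Dat.AW
      rw [sum_div]
      exact sum_le_sum fun w _ => (h.E_nsb w).le.trans (h.pv_sub_ps_le w)
    have a2 : d.AW W / d.K ≤ tau := by
      rw [div_le_iff₀ h.good.K_pos]
      exact hA.trans h.good.g2
    have a3 : Ex d.p (fun ω => R ω) ≤ 2 * eps := hR1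
    unfold tau at a2 ⊢
    unfold eps at a3
    norm_num at a2 a3 ⊢
    linarith
  have hF : Ex d.p (fun ω => I (¬ d.free ω u)) ≤ 0.001 := by
    have a1 : Ex d.p (fun ω => I (¬ d.free ω u)) = d.pv u := h.E_notfree u
    have a2 := h.two_pv_le u
    unfold del at hu
    rw [a1]
    norm_num at hu ⊢
    linarith
  have ht : (0 : ℝ) ≤ tau := by unfold tau; norm_num
  have hR' : ∀ ω, 0 ≤ 5 * ∑ w ∈ W, I (d.nsb ω w) + R ω + tau := by
    intro ω
    have := sum_nonneg fun w (_ : w ∈ W) => I_nonneg (d.nsb ω w)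
    have := hR0 ω
    linarith
  have key := close h.prob (fun ω => d.free ω u) (d.ZZ W co om ∅ id 0)
    (fun ω => 5 * ∑ w ∈ W, I (d.nsb ω w) + R ω + tau) (d.core u W) c (4.6 * c + 0.045)
    (c + 1.29) 1.29 0.38 0.001 0.001 tau1
    (fun y => n4.1 (c + 1.29) 1.29 0.38 y (by linarith) (by linarith))
    (by linarith) (by norm_num) (by linarith) (by linarith) hZ1 hv hR' hRE hF ?_
  · have a1 := n4.2.2.2 c (4.6 * c + 0.045) hc1 le_rfl
    have e : c + (c + 1.29 - 1.29) = c + c := by ring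
    rw [e] at key
    unfold tau1 at key
    refine le_trans ?_ key
    norm_num at a1 ⊢
    linarith
  · intro ω hω _
    refine le_trans (min_shift (hR' ω) ?_) (core_ge h hul hW hne hA ω)
    have a1 : ∑ w ∈ W, (k w - co w * d.sv w ω - 5 * I (d.nsb ω w)) ≤
        d.YY u W (d.chi u) ω := by
      refine sum_le_sum fun w hw => ?_
      have := term_ge h hω w (hco5 w).1 (hcochi w) (hco5 w).2
      linarith [hkco w hw]
    rw [sum_sub_distrib, sum_sub_distrib, ← mul_sum, ← hcdef] at a1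
    have a2 := hR2 ω hω
    unfold Dat.ZZ
    rw [sum_empty, mul_zero]
    linarith

end Pool.Agent.P.MP_553766_co.Lg
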