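import Mathlib
import Pool.Agent.P.MP_553766_co.LB2

set_option autoImplicit false
set_option linter.unusedSectionVars false

/-! The full neighbourhood, small total deficiency. -/

namespace Pool.Agent.P.MP_553766_co.Lg

open Finset Pool.Agent.P.MP_553766_co

namespace LB1

open LB2

variable {V : Type} [Fintype V] [DecidableEq V] {d : Dat V}

lemma sum_ite_sub {S H : Finset V} (hS : S ⊆ H) (f : V → ℝ) :
    ∑ a ∈ H, (if a ∈ S then f a else 0) = ∑ a ∈ S, f a := by
  rw [sum_ite_mem, inter_eq_right.2 hS]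

lemma beta_small (h : d.Ok) {u : V} (hA : d.AW (d.nb u) ≤ d.A0) : d.beta u ≤ 1 + 11 * eps := by
  have hD := h.D_pos
  have h1 := h.card_heavy_le (d.nb u)
  have h2 := A0_le h
  have h3 : 80 * ((d.nH u).card : ℝ) / d.D ≤ eps := by
    rw [div_le_iff₀ hD]
    unfold Dat.nH
    unfold eps at h1 ⊢
    unfold tau at h2
    norm_num at h1 h2 ⊢
    linarith
  linarith [h.beta_le u]

/-- most neighbours are light -/
lemma light_many (h : d.Ok) {u : V} (hu : d.A u ≤ del) (hA : d.AW (d.nb u) ≤ d.A0) :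
    1 - 2 * del ≤ (((d.nb u).filter (fun w => d.light w)).card : ℝ) / d.D := by
  have hD := h.D_pos
  have h1 := h.card_heavy_le (d.nb u)
  have h2 := A0_le h
  have h3 := h.card_nb u
  have h4 : (((d.nb u).filter (fun w => d.light w)).card : ℝ) +
      (((d.nb u).filter (fun w => ¬ d.light w)).card : ℝ) = (d.nb u).card := by
    exact_mod_cast card_filter_add_card_filter_not (s := d.nb u) (fun w => d.light w)
  have h5 : d.A u * d.D ≤ del * d.D := mul_le_mul_of_nonneg_right hu hD.le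
  have h6 := h.good.D_ge
  have h7 : (10 : ℝ) ^ 17 ≤ d.D := le_trans (by norm_num) h6
  rw [le_div_iff₀ hD]
  unfold eps at h1
  unfold tau at h2
  unfold del at h5 ⊢
  norm_num at h1 h2 h5 h7 ⊢
  linarith

/-- the closing argument -/
lemma closing (hV : StV) (hf : StQf) (n4 : StN4) (s1 : StSh1) (h : d.Ok) {u : V}
    (hu : d.A u ≤ del) (hA : d.AW (d.nb u) ≤ d.A0) (co : V → ℝ) (Cr : Finset V) (t : V → V)
    (hco : ∀ w ∈ d.nb u, 0 ≤ co w ∧ co w ≤ 5)
    (hcoL : ∀ w ∈ d.nb u, d.light w → co w ≤ 1 + 3 * eps) (hCr : Cr ⊆ d.nb u)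
    (ht : ∀ a ∈ Cr, ¬ d.light a ∧ t a ∈ Cr ∧ t a ≠ a ∧ t (t a) = a) (c o v a : ℝ)
    (R : Om V → ℝ) (hR0 : ∀ ω, 0 ≤ R ω) (hR1 : d.E R ≤ 0.0001)
    (hy : ∀ ω, d.p ω ≠ 0 → c - ∑ w ∈ d.nb u, co w * d.sv w ω -
      3.9 / 2 * ∑ a ∈ Cr, d.sv a ω * d.sv (t a) ω - R ω ≤
        d.YY u (d.nb u) (d.chi u) ω + d.Xi u (d.nb u) ω)
    (hXi : ∀ ω, d.Xi u (d.nb u) ω ≤ -2 * o)
    (hv : ∑ a ∈ (d.nb u).filter (fun w => ¬ d.light w), d.Va (d.nb u) co a +
      3 * (1 + 3 * eps) ^ 2 * d.L0 (d.nb u) + Cr.card * 3.9 ^ 2 / 32 + 0.0065 ≤ v)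
    (ha : 2 ≤ a) (hao : 1 / 2 - a / 4 ≤ o) (hc0 : 0 ≤ c) (hca : c - 1 ≤ a)
    (hnum : 0.022 ≤ c - ((c + (a - 1)) ^ 2 + v) / (4 * a)) :
    0 ≤ d.E (fun ω => I (d.free ω u) * d.core u (d.nb u) ω) := by
  have hul : d.light u := Dat.light_of_poor hu
  obtain ⟨om, R1, ho0, ho1, ho2, hR10, hR11, hR12⟩ := s1 V d h u hul
  obtain ⟨hZ1, hZ2⟩ := hV V d h (d.nb u) co om Cr t 3.9 hA hco hcoL ho0 ho1 hCr ht
    (by norm_num) (by norm_num)
  -- the noise
  obtain ⟨nt, hnt⟩ : ∃ nt : Om V → ℝ, ∀ ω, nt ω = ∑ a, om a * d.sv a ω := ⟨_, fun _ => rfl⟩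
  have hA0 : d.AW ∅ ≤ d.A0 := by
    unfold Dat.AW
    rw [sum_empty]
    linarith [h.good.A1]
  obtain ⟨hN1, hN2⟩ := hV V d h ∅ co om ∅ t 0 hA0 (fun w hw => absurd hw (notMem_empty w))
    (fun w hw => absurd hw (notMem_empty w)) ho0 ho1 subset_rfl
    (fun w hw => absurd hw (notMem_empty w)) le_rfl (by norm_num)
  have hL0 : d.L0 ∅ ≤ 0 := by
    have := (hf V d h ∅ co (fun w hw => absurd hw (notMem_empty w))).2.1
    simpa using this
  have eZ : d.ZZ ∅ co om ∅ t 0 = fun ω => - nt ω := by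
    funext ω
    unfold Dat.ZZ
    rw [hnt]
    simp
  rw [eZ] at hN1 hN2
  have hN3 : -tau1 ≤ Ex d.p nt := by
    unfold Dat.E at hN1
    rw [Ex_neg] at hN1
    linarith [(abs_le.1 hN1).2]
  have hN4 : Ex d.p (fun ω => nt ω ^ 2) ≤ 0.0061 := by
    unfold Dat.E at hN2
    simp only [neg_sq, filter_empty, sum_empty, card_empty] at hN2
    have e3 : (0 : ℝ) ≤ 3 * (1 + 3 * eps) ^ 2 := by positivity
    have := mul_le_mul_of_nonneg_left hL0 e3
    unfold tau1 at hN2
    norm_num at hN2 ho2 ⊢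
    linarith
  have he : (0 : ℝ) ≤ eps := by unfold eps; norm_num
  have hq1 : ∀ ω, 0 ≤ nt ω ^ 2 / 0.156 + 0.039 - nt ω := by
    intro ω
    have e : nt ω ^ 2 / 0.156 + 0.039 - nt ω = (nt ω - 0.078) ^ 2 / 0.156 := by ring
    rw [e]
    positivity
  have hq2 : ∀ ω, 0 ≤ nt ω ^ 2 / 0.156 + 0.039 + nt ω := by
    intro ω
    have e : nt ω ^ 2 / 0.156 + 0.039 + nt ω = (nt ω + 0.078) ^ 2 / 0.156 := by ring
    rw [e]
    positivity
  have hR' : ∀ ω, 0 ≤ R ω + 2 * R1 ω + (nt ω ^ 2 / 0.156 + 0.039 - nt ω) / 4 + 6 * eps := by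
    intro ω
    have := hR0 ω
    have := hR10 ω
    have := hq1 ω
    linarith
  have hRE : Ex d.p (fun ω => R ω + 2 * R1 ω + (nt ω ^ 2 / 0.156 + 0.039 - nt ω) / 4 + 6 * eps)
      ≤ 0.02 := by
    rw [Ex_add, Ex_add, Ex_add, Ex_const h.prob, Ex_const_mul, Ex_div_const, Ex_sub, Ex_add,
      Ex_const h.prob, Ex_div_const]
    have a1 : Ex d.p (fun ω => R ω) ≤ 0.0001 := hR1
    have a2 : Ex d.p (fun ω => R1 ω) ≤ 2 * eps := hR11
    have a3 : -tau1 ≤ Ex d.p (fun ω => nt ω) := hN3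
    unfold eps at a2 ⊢
    unfold tau1 at a3
    norm_num at a1 a2 a3 hN4 ⊢
    linarith
  have hF : Ex d.p (fun ω => I (¬ d.free ω u)) ≤ 0.001 := by
    have a1 : Ex d.p (fun ω => I (¬ d.free ω u)) = d.pv u := h.E_notfree u
    have a2 := h.two_pv_le u
    unfold del at hu
    rw [a1]
    norm_num at hu ⊢
    linarith
  have hv' : Ex d.p (fun ω => d.ZZ (d.nb u) co om Cr t 3.9 ω ^ 2) ≤ v := by
    have a1 : Ex d.p (fun ω => d.ZZ (d.nb u) co om Cr t 3.9 ω ^ 2) ≤ _ := hZ2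
    have a2 : tau1 ≤ 0.0005 := by unfold tau1; norm_num
    linarith
  have key := close h.prob (fun ω => d.free ω u) (d.ZZ (d.nb u) co om Cr t 3.9)
    (fun ω => R ω + 2 * R1 ω + (nt ω ^ 2 / 0.156 + 0.039 - nt ω) / 4 + 6 * eps)
    (fun ω => d.core u (d.nb u) ω + d.noise u ω) c v a 1 o 0.02 0.001 tau1
    (fun y => n4.1 a 1 o y (by linarith) (by linarith))
    (by linarith) (by norm_num) (by linarith) (by linarith) hZ1 hv' hR' hRE hF ?_
  · have a1 : Ex d.p (fun ω => I (d.free ω u) * d.noise u ω) = 0 := h.E_noise hul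
    simp only [mul_add] at key
    rw [Ex_add, a1, add_zero] at key
    have a2 : tau1 ≤ 0.0005 := by unfold tau1; norm_num
    refine le_trans ?_ key
    linarith
  · intro ω hω _
    have hout : d.out u (d.nb u) = 0 := by
      unfold Dat.out
      simp
    have b1 := hy ω hω
    have b2 := hXi ω
    have b3 := hR12 ω
    have b4 := h.one_le_gam u
    have b5 := beta_small h hA
    have b6 := hq1 ω
    have b7 := hq2 ω
    have b8 := hR0 ω
    have b9 := hR10 ω
    rw [← hnt] at b3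
    have eZ' : d.ZZ (d.nb u) co om Cr t 3.9 ω = ∑ w ∈ d.nb u, co w * d.sv w ω - nt ω +
        3.9 / 2 * ∑ a ∈ Cr, d.sv a ω * d.sv (t a) ω := by
      unfold Dat.ZZ
      rw [hnt]
    have m1 := min_le_left 1 (min (c - d.ZZ (d.nb u) co om Cr t 3.9 ω)
      ((c - d.ZZ (d.nb u) co om Cr t 3.9 ω) / 2 + o))
    have m2 := (min_le_right 1 _).trans (min_le_left (c - d.ZZ (d.nb u) co om Cr t 3.9 ω)
      ((c - d.ZZ (d.nb u) co om Cr t 3.9 ω) / 2 + o))
    have m3 := (min_le_right 1 _).trans (min_le_right (c - d.ZZ (d.nb u) co om Cr t 3.9 ω)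
      ((c - d.ZZ (d.nb u) co om Cr t 3.9 ω) / 2 + o))
    rw [← sub_le_iff_le_add]
    unfold Dat.core
    rw [hout]
    generalize min 1 (min (c - d.ZZ (d.nb u) co om Cr t 3.9 ω)
      ((c - d.ZZ (d.nb u) co om Cr t 3.9 ω) / 2 + o)) = M at m1 m2 m3 ⊢
    exact le_min (by linarith) (le_min (by linarith) (by linarith))

lemma CC_crit (h : d.Ok) {w : V} (hw : 3 / 8 < d.pv w) : 3.9 ≤ d.CC w := by
  have h1 := h.two_pv_le w
  have h2 := h.A_lt_one w
  have h3 : 4 ≤ d.al w := by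
    rw [h.al_eq, le_div_iff₀ (by linarith)]
    linarith
  unfold Dat.CC
  refine le_min (by norm_num) ?_
  unfold kp
  norm_num
  linarith

/-- the critical points that come in pairs -/
lemma pairs (h : d.Ok) {u : V} (hu : d.A u ≤ del) {Cr : Finset V} (hCr : Cr ⊆ d.crit u)
    {t : V → V} (ht : ∀ a ∈ Cr, t a ∈ Cr ∧ t a ≠ a ∧ t (t a) = a) {ω : Om V} (hω : d.p ω ≠ 0) :
    ∑ a ∈ Cr, (0.46 - 3.9 * d.ps (t a) * d.sv a ω - 5 * I (d.nsb ω a)) -
        3.9 / 2 * ∑ a ∈ Cr, d.sv a ω * d.sv (t a) ω ≤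
      ∑ a ∈ Cr, (d.chi u a * I (d.free ω a) - 1 / (1 - d.pv u)) := by
  have h0 : ∑ a ∈ Cr, (3.9 / 2 * (I (d.sb ω (t a)) - I (d.sb ω a) + d.ps (t a) * d.sv a ω -
      d.ps a * d.sv (t a) ω)) = 0 := by
    refine sum_involution (fun a _ => t a) (fun a ha => ?_) (fun a ha _ => (ht a ha).2.1)
      (fun a ha => (ht a ha).1) (fun a ha => (ht a ha).2.2)
    rw [(ht a ha).2.2]
    ring
  rw [mul_sum, ← sum_sub_distrib, ← add_zero (∑ a ∈ Cr, _), ← h0, ← sum_add_distrib]
  refine sum_le_sum fun a ha => ?_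
  have hcr := hCr ha
  have hp : 3 / 8 < d.pv a := (mem_filter.1 hcr).2
  have e1 : d.chi u a = d.CC a := by
    unfold Dat.chi
    rw [if_neg (h.crit_heavy hcr)]
  have a1 : 3.9 * I (d.free ω a) ≤ d.CC a * I (d.free ω a) :=
    mul_le_mul_of_nonneg_right (CC_crit h hp) (I_nonneg _)
  have a2 := h.I_free hω a
  have a3 := I_nonneg (d.nsb ω a)
  have a4 : 0 ≤ (1 - I (d.sb ω a)) * (1 - I (d.sb ω (t a))) :=
    mul_nonneg (by linarith [I_le_one (d.sb ω a)]) (by linarith [I_le_one (d.sb ω (t a))])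
  have a5 : d.ps a * d.ps (t a) ≤ 1 / 2 * (1 / 2) :=
    mul_le_mul (by linarith [h.ps_le_pv a, h.pv_lt_half a])
      (by linarith [h.ps_le_pv (t a), h.pv_lt_half (t a)]) (h.ps_nonneg _) (by norm_num)
  have a6 := h.inv_poor hu
  have a7 : del ≤ 0.002 := by unfold del; norm_num
  rw [e1]
  unfold Dat.sv
  rw [a2] at a1 ⊢
  nlinarith

/-- the coefficients of the fluctuation and the constant term -/
lemma coeffs (hf : StQf) (n1 : StN1) (n2 : StN2) (n3 : StN3) (hc : StCov) (h : d.Ok) {u : V}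
    (hu : d.A u ≤ del) {Cr : Finset V} (hCr : Cr ⊆ d.crit u) {t : V → V}
    (ht : ∀ a ∈ Cr, t a ∈ Cr ∧ t a ≠ a ∧ t (t a) = a) :
    ∃ (co : V → ℝ) (c : ℝ), (∀ w ∈ d.nb u, 0 ≤ co w ∧ co w ≤ 5) ∧
      (∀ w ∈ d.nb u, d.light w → co w ≤ 1 + 3 * eps) ∧
      ∑ a ∈ (d.nb u).filter (fun w => ¬ d.light w), d.Va (d.nb u) co a +
        3 * (1 + 3 * eps) ^ 2 * d.L0 (d.nb u) + Cr.card * 3.9 ^ 2 / 32 ≤
          3.7 * c + (d.crit u \ Cr).card * (4.505 - 3.7 * 1.2) ∧
      (∀ ω, d.p ω ≠ 0 → c - ∑ w ∈ d.nb u, co w * d.sv w ω -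
        3.9 / 2 * ∑ a ∈ Cr, d.sv a ω * d.sv (t a) ω - 5 * ∑ w ∈ d.nb u, I (d.nsb ω w) ≤
          d.YY u (d.nb u) (d.chi u) ω + ∑ w ∈ d.crit u \ Cr,
            rho / (1 - d.pv w) * (I (¬ d.free ω w) - d.pv w)) ∧
      0.46 * Cr.card + 1.199 * (d.crit u \ Cr).card ≤ c ∧
      (d.crit u = ∅ → (1 - 3 * kap) * ∑ w ∈ d.nb u, d.pv w / (1 - d.pv w) ≤ c) := by
  have hul : d.light u := Dat.light_of_poor hu
  obtain ⟨hL0, hLs, hLa⟩ := hf V d h (d.nb u) (d.chi u) (fun w _ hw =>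
    ⟨by linarith [(h.chi_light hul hw).1], (h.chi_light hul hw).2⟩)
  obtain ⟨m, hm⟩ : ∃ m : V → ℝ, ∀ a, m a = d.mu (d.nb u) (d.chi u) a := ⟨_, fun _ => rfl⟩
  simp only [← hm] at hLa
  have hch := fun (a : V) (ha : ¬ d.light a) =>
    n1 (d.pv a) (d.A a) (m a) (d.La (d.nb u) a) (h.pv_nonneg a) (h.two_pv_le a)
      (not_le.1 ha) (h.A_lt_one a) (hLa a).2.1 (hLa a).2.2.1 (hLa a).2.2.2
  choose! C hC0 hC1 hC2 _ hC3 using hch
  have hn3 := fun (a : V) (ha : a ∈ d.crit u) =>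
    n3 (d.pv a) (d.A a) (m a) (d.La (d.nb u) a) (mem_filter.1 ha).2 (h.two_pv_le a)
      (h.A_lt_one a) (hLa a).2.1 (hLa a).2.2.1 (hLa a).2.2.2
  obtain ⟨co, hco⟩ : ∃ co : V → ℝ, ∀ w, co w = if d.light w then d.chi u w else
      if w ∈ Cr then 3.9 * d.ps (t w) else
        if w ∈ d.crit u then (2 - m w) / (1 - d.pv w) else C w := ⟨_, fun _ => rfl⟩
  obtain ⟨k, hk⟩ : ∃ k : V → ℝ, ∀ w, k w = if d.light w then (1 - 2 * kap) * d.A w / 2 else
      if w ∈ Cr then 0.46 else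
        if w ∈ d.crit u then 1.2 - m w - del else (1 - d.pv w) * C w - 1 - del :=
    ⟨_, fun _ => rfl⟩
  have hcrW : d.crit u ⊆ d.nb u := filter_subset _ _
  have hcrH : d.crit u ⊆ (d.nb u).filter (fun w => ¬ d.light w) := fun a ha =>
    mem_filter.2 ⟨hcrW ha, h.crit_heavy ha⟩
  have hrho : ∀ w, 0 ≤ rho / (1 - d.pv w) := fun w =>
    div_nonneg (by unfold rho; norm_num) (by linarith [h.pv_lt_half w])
  have hCC : ∀ w, d.CC w = min 5 ((1 - kp) * (1 / (1 - d.A w))) := fun w => by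
    unfold Dat.CC
    rw [h.al_eq]
  have he3 : 1 + 3 * eps ≤ 5 := by unfold eps; norm_num
  have hk2 : (0 : ℝ) ≤ 1 - 2 * kap := by unfold kap; norm_num
  have hcoL : ∀ w, d.light w → co w ≤ 1 + 3 * eps := fun w hw => by
    rw [hco, if_pos hw]; exact (h.chi_light hul hw).2
  have hco5 : ∀ w, 0 ≤ co w ∧ co w ≤ 5 := by
    intro w
    by_cases hw : d.light w
    · refine ⟨?_, (hcoL w hw).trans he3⟩
      rw [hco, if_pos hw]
      linarith [(h.chi_light hul hw).1]
    rw [hco, if_neg hw]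
    by_cases h1 : w ∈ Cr
    · rw [if_pos h1]
      constructor
      · linarith [h.ps_nonneg (t w)]
      · linarith [h.ps_le_pv (t w), h.pv_lt_half (t w)]
    rw [if_neg h1]
    by_cases h2 : w ∈ d.crit u
    · rw [if_pos h2]
      refine ⟨(hn3 w h2).1, ?_⟩
      linarith [(hn3 w h2).2.1.trans (min_le_left _ _), hrho w]
    · rw [if_neg h2]
      exact ⟨hC0 w hw, (hC1 w hw).trans (min_le_left _ _)⟩
  have hcs : ∑ w ∈ d.nb u, k w = ∑ w ∈ (d.nb u).filter (fun w => ¬ d.light w), k w +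
      (1 - 2 * kap) * ∑ w ∈ (d.nb u).filter (fun w => d.light w), d.A w / 2 := by
    rw [← sum_filter_add_sum_filter_not (d.nb u) (fun w => d.light w), add_comm, mul_sum]
    congr 1
    exact sum_congr rfl fun w hw => by rw [hk, if_pos (mem_filter.1 hw).2]; ring
  have hLs' := mul_le_mul_of_nonneg_left hLs hk2
  refine ⟨co, ∑ w ∈ d.nb u, k w, fun w _ => hco5 w, fun w _ => hcoL w, ?_, ?_, ?_, ?_⟩
  · have a1 : ∀ a ∈ (d.nb u).filter (fun w => ¬ d.light w),
        d.Va (d.nb u) co a + (if a ∈ Cr then 3.9 ^ 2 / 32 else 0) ≤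
          3.7 * (k a + (1 - 2 * kap) * d.La (d.nb u) a) +
            (if a ∈ d.crit u \ Cr then 4.505 - 3.7 * 1.2 else 0) := by
      intro a ha
      have hl := (mem_filter.1 ha).2
      have e1 : d.mu (d.nb u) co a = m a := by
        rw [hm]
        unfold Dat.mu
        refine sum_congr rfl fun e _ => ?_
        rw [sum_congr rfl fun w hw => by rw [hco, if_pos (mem_filter.1 hw).2]]
      have e2 : d.Va (d.nb u) co a = vnum (d.pv a) (co a) (m a) (d.La (d.nb u) a) := by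
        unfold Dat.Va vnum
        rw [e1]
      rw [e2, hk, hco, if_neg hl, if_neg hl]
      by_cases h1 : a ∈ Cr
      · rw [if_pos h1, if_pos h1, if_pos h1, if_neg (fun h3 => (mem_sdiff.1 h3).2 h1), add_zero]
        exact n2 (d.pv a) (d.ps (t a)) (m a) (d.La (d.nb u) a) (mem_filter.1 (hCr h1)).2
          (h.pv_lt_half a).le (h.ps_nonneg _)
          (by linarith [h.ps_le_pv (t a), h.pv_lt_half (t a)]) (hLa a).2.1 (hLa a).2.2.1
      rw [if_neg h1, if_neg h1, if_neg h1, add_zero]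
      by_cases h2 : a ∈ d.crit u
      · rw [if_pos h2, if_pos h2, if_pos (mem_sdiff.2 ⟨h2, h1⟩)]
        linarith [(hn3 a h2).2.2.2]
      · rw [if_neg h2, if_neg h2, if_neg (fun h3 => h2 (mem_sdiff.1 h3).1), add_zero]
        refine hC3 a hl (not_lt.1 fun h3 => h2 ?_)
        exact mem_filter.2 ⟨(mem_filter.1 ha).1, h3⟩
    have a2 := sum_le_sum a1
    rw [sum_add_distrib, sum_add_distrib, ← mul_sum, sum_add_distrib, ← mul_sum,
      sum_ite_sub (hCr.trans hcrH), sum_ite_sub (sdiff_subset.trans hcrH), sum_const, sum_const,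
      nsmul_eq_mul, nsmul_eq_mul] at a2
    have a3 : 3 * (1 + 3 * eps) ^ 2 * d.L0 (d.nb u) ≤ 3.7 * (1 - 2 * kap) * d.L0 (d.nb u) := by
      refine mul_le_mul_of_nonneg_right ?_ hL0
      unfold eps kap
      norm_num
    rw [hcs]
    linarith
  · intro ω hω
    have a1 : ∀ w ∈ d.nb u \ Cr, k w - co w * d.sv w ω - 5 * I (d.nsb ω w) ≤
        d.chi u w * I (d.free ω w) - 1 / (1 - d.pv u) + (if w ∈ d.crit u \ Cr then
          rho / (1 - d.pv w) * (I (¬ d.free ω w) - d.pv w) else 0) := by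
      intro w hw
      obtain ⟨hw1, h1⟩ := mem_sdiff.1 hw
      have b0 := h.inv_poor hu
      by_cases hl : d.light w
      · have h2 : w ∉ d.crit u := fun h3 => h.crit_heavy h3 hl
        have b1 := term_ge h hω w (hco5 w).1 le_rfl (hco5 w).2
        have b2 := (hc V d h u w hw1).2 hul hl
        rw [if_neg (fun h3 => h2 (mem_sdiff.1 h3).1), hk, if_pos hl]
        rw [hco, if_pos hl] at b1 ⊢
        linarith
      have e1 : d.chi u w = d.CC w := by
        unfold Dat.chi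
        rw [if_neg hl]
      rw [e1]
      by_cases h2 : w ∈ d.crit u
      · have e2 : co w = (2 - m w) / (1 - d.pv w) := by
          rw [hco, if_neg hl, if_neg h1, if_pos h2]
        have b1 := term_ge h hω w (χ := d.CC w - rho / (1 - d.pv w)) (hco5 w).1
          (by rw [e2, hCC]; linarith [(hn3 w h2).2.1]) (hco5 w).2
        have hp : 1 - d.pv w ≠ 0 := by linarith [h.pv_lt_half w]
        have e3 : (1 - d.pv w) * co w = 2 - m w := by
          rw [e2]
          field_simp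
        have e4 : rho / (1 - d.pv w) * (1 - d.pv w) = 0.2 := by
          unfold rho
          field_simp
          norm_num
        rw [if_pos (mem_sdiff.2 ⟨h2, h1⟩), hk, if_neg hl, if_neg h1, if_pos h2, I_not]
        linarith
      · have e2 : co w = C w := by
          rw [hco, if_neg hl, if_neg h1, if_neg h2]
        have b1 := term_ge h hω w (χ := d.CC w) (hco5 w).1
          (by rw [e2, hCC]; exact hC1 w hl) (hco5 w).2
        rw [if_neg (fun h3 => h2 (mem_sdiff.1 h3).1), hk, if_neg hl, if_neg h1, if_neg h2, ← e2]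
        linarith
    have a2 := sum_le_sum a1
    rw [sum_add_distrib, sum_ite_sub (sdiff_subset_sdiff hcrW subset_rfl)] at a2
    have a3 := pairs h hu hCr ht hω
    have a4 : ∑ a ∈ Cr, (k a - co a * d.sv a ω - 5 * I (d.nsb ω a)) =
        ∑ a ∈ Cr, (0.46 - 3.9 * d.ps (t a) * d.sv a ω - 5 * I (d.nsb ω a)) := by
      refine sum_congr rfl fun a ha => ?_
      have hl := h.crit_heavy (hCr ha)
      rw [hk, hco, if_neg hl, if_neg hl, if_pos ha, if_pos ha]
    have a5 := sum_sdiff (f := fun w => k w - co w * d.sv w ω - 5 * I (d.nsb ω w))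
      (hCr.trans hcrW)
    have a6 := sum_sdiff (f := fun w => d.chi u w * I (d.free ω w) - 1 / (1 - d.pv u))
      (hCr.trans hcrW)
    have a7 : ∑ w ∈ d.nb u, (k w - co w * d.sv w ω - 5 * I (d.nsb ω w)) =
        ∑ w ∈ d.nb u, k w - ∑ w ∈ d.nb u, co w * d.sv w ω -
          5 * ∑ w ∈ d.nb u, I (d.nsb ω w) := by
      rw [sum_sub_distrib, sum_sub_distrib, ← mul_sum]
    unfold Dat.YY
    linarith
  · have a1 : ∀ a ∈ (d.nb u).filter (fun w => ¬ d.light w),
        (if a ∈ Cr then 0.46 else 0) + (if a ∈ d.crit u \ Cr then 1.199 else 0) ≤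
          k a + (1 - 2 * kap) * d.La (d.nb u) a := by
      intro a ha
      have hl := (mem_filter.1 ha).2
      have b1 := mul_nonneg hk2 (hLa a).1
      rw [hk, if_neg hl]
      by_cases h1 : a ∈ Cr
      · rw [if_pos h1, if_pos h1, if_neg (fun h3 => (mem_sdiff.1 h3).2 h1)]
        linarith
      rw [if_neg h1, if_neg h1]
      by_cases h2 : a ∈ d.crit u
      · rw [if_pos h2, if_pos (mem_sdiff.2 ⟨h2, h1⟩)]
        linarith [(hn3 a h2).2.2.1]
      · rw [if_neg h2, if_neg (fun h3 => h2 (mem_sdiff.1 h3).1)]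
        have b2 : 0 ≤ (1 - kap) * (d.pv a / (1 - d.pv a)) :=
          mul_nonneg (by unfold kap; norm_num)
            (div_nonneg (h.pv_nonneg a) (by linarith [h.pv_lt_half a]))
        linarith [hC2 a hl]
    have a2 := sum_le_sum a1
    rw [sum_add_distrib, sum_add_distrib, ← mul_sum,
      sum_ite_sub (hCr.trans hcrH), sum_ite_sub (sdiff_subset.trans hcrH), sum_const, sum_const,
      nsmul_eq_mul, nsmul_eq_mul] at a2
    have a3 := mul_nonneg hk2 hL0
    rw [hcs]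
    linarith
  · intro h0
    rw [mul_sum]
    refine sum_le_sum fun w _ => ?_
    have p0 := h.pv_nonneg w
    have p1 := h.pv_lt_half w
    have p2 := h.two_pv_le w
    by_cases hl : d.light w
    · rw [hk, if_pos hl, ← mul_div_assoc, div_le_iff₀ (by linarith)]
      have hl' : d.A w ≤ 1 / 10 ^ 7 := hl
      have b1 : d.pv w * d.A w ≤ 1 / 10 ^ 7 * d.A w :=
        mul_le_mul_of_nonneg_right (by linarith) (by linarith)
      unfold kap
      nlinarith
    · have h2 : w ∉ d.crit u := by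
        rw [h0]
        exact notMem_empty w
      rw [hk, if_neg hl, if_neg (fun h3 => h2 (hCr h3)), if_neg h2]
      refine le_trans (mul_le_mul_of_nonneg_right ?_ (div_nonneg p0 (by linarith))) (hC2 w hl)
      unfold kap
      norm_num

lemma nsb_small (h : d.Ok) {W : Finset V} (hA : d.AW W ≤ d.A0) :
    Ex d.p (fun ω => ∑ w ∈ W, I (d.nsb ω w)) ≤ tau := by
  rw [Ex_sum]
  have a1 : ∑ w ∈ W, Ex d.p (fun ω => I (d.nsb ω w)) ≤ d.AW W / d.K := by
    unfold Dat.AW
    rw [sum_div]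
    exact sum_le_sum fun w _ => (h.E_nsb w).le.trans (h.pv_sub_ps_le w)
  have a2 : d.AW W / d.K ≤ tau := by
    rw [div_le_iff₀ h.good.K_pos]
    exact hA.trans h.good.g2
  exact a1.trans a2

end LB1

open LB1

theorem b1 (hV : StV) (hf : StQf) (n1 : StN1) (n2 : StN2) (n3 : StN3) (n4 : StN4) (hc : StCov)
    (s1 : StSh1) (s2 : StSh2) : StB1 := by
  intro V _ _ d h u hu hST hA
  have hcrW : d.crit u ⊆ d.nb u := filter_subset _ _
  have hns := nsb_small h hA
  have hns0 : ∀ ω, 0 ≤ ∑ w ∈ d.nb u, I (d.nsb ω w) := fun ω =>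
    sum_nonneg fun w _ => I_nonneg _
  rcases Nat.even_or_odd (d.crit u).card with hev | hodd
  · have hact : ¬ d.act u := fun ha => Nat.not_odd_iff_even.2 hev ha.2.2
    have hXi : ∀ ω, d.Xi u (d.nb u) ω = 0 := fun ω => by
      unfold Dat.Xi
      exact sum_eq_zero fun w _ => by rw [Dat.xi_not_act hact, mul_zero]
    obtain ⟨n, hn⟩ := hev
    obtain ⟨t, ht⟩ := exists_invol n (d.crit u) (by omega)
    obtain ⟨co, c, hc1, hc2, hc3, hc4, hc5, hc6⟩ := coeffs hf n1 n2 n3 hc h hu subset_rfl ht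
    simp only [sdiff_self, bot_eq_empty, card_empty, sum_empty, Nat.cast_zero, zero_mul, mul_zero,
      add_zero] at hc3 hc4 hc5
    have hc79 : 0.79 ≤ c := by
      rcases Nat.eq_zero_or_pos n with h0 | h0
      · have a1 := hc6 (card_eq_zero.1 (by omega))
        have a2 : d.mW u (d.nb u) ≤ (1 + 5 * del) * ∑ w ∈ d.nb u, d.pv w / (1 - d.pv w) := by
          rw [mul_sum]
          exact sum_le_sum fun w _ => h.mW_term_poor hu w
        have a3 := h.not_ST hST
        have a4 := h.one_le_gam u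
        unfold del at a2
        unfold kap at a1
        unfold rho at a3
        norm_num at a1 a2 a3 ⊢
        linarith
      · have a1 : (2 : ℝ) ≤ (d.crit u).card := by exact_mod_cast (show 2 ≤ (d.crit u).card by omega)
        linarith
    obtain ⟨a, ha1, ha2, ha3⟩ := n4.2.1 c (3.7 * c + 0.0065) hc79 le_rfl
    refine closing hV hf n4 s1 h hu hA co (d.crit u) t hc1 hc2 hcrW
      (fun a ha => ⟨h.crit_heavy ha, ht a ha⟩) c 0 (3.7 * c + 0.0065) a
      (fun ω => 5 * ∑ w ∈ d.nb u, I (d.nsb ω w)) (fun ω => by linarith [hns0 ω]) ?_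
      (fun ω hω => ?_) (fun ω => by rw [hXi]; norm_num) (by linarith) ha1 (by linarith)
      (by linarith) ha2 ha3
    · unfold Dat.E
      rw [Ex_const_mul]
      unfold tau at hns
      norm_num at hns ⊢
      linarith
    · rw [hXi, add_zero]
      exact hc4 ω hω
  · have hact : d.act u := ⟨hu, hST, hodd⟩
    have hw0 := Dat.w0_mem hact
    obtain ⟨n, hn⟩ := hodd
    obtain ⟨t, ht⟩ := exists_invol n ((d.crit u).erase (d.w0 u))
      (by rw [card_erase_of_mem hw0]; omega)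
    obtain ⟨co, c, hc1, hc2, hc3, hc4, hc5, _⟩ :=
      coeffs hf n1 n2 n3 hc h hu (erase_subset _ _) ht
    have hsd : d.crit u \ (d.crit u).erase (d.w0 u) = {d.w0 u} := sdiff_erase_self hw0
    simp only [hsd, card_singleton, sum_singleton, Nat.cast_one, one_mul, mul_one] at hc3 hc4 hc5
    have hc12 : 1.199 ≤ c := by
      have : (0 : ℝ) ≤ ((d.crit u).erase (d.w0 u)).card := Nat.cast_nonneg _
      linarith
    obtain ⟨a, ha1, ha2, ha3⟩ :=
      n4.2.2.1 c (4.505 + 3.7 * (c - 1.2) + 0.0065) hc12 le_rfl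
    obtain ⟨R, hR0, hR1, hR2⟩ := s2 V d h u (d.nb u) hact subset_rfl
    have hd0 : (0 : ℝ) ≤ del := by unfold del; norm_num
    refine closing hV hf n4 s1 h hu hA co ((d.crit u).erase (d.w0 u)) t hc1 hc2
      ((erase_subset _ _).trans hcrW)
      (fun a ha => ⟨h.crit_heavy (mem_of_mem_erase ha), ht a ha⟩) c (-0.1)
      (4.505 + 3.7 * (c - 1.2) + 0.0065) a
      (fun ω => 5 * ∑ w ∈ d.nb u, I (d.nsb ω w) + R ω + del)
      (fun ω => by linarith [hns0 ω, hR0 ω]) ?_ (fun ω hω => ?_) (fun ω => ?_) (by linarith)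
      (by linarith) (by linarith) (by linarith) ha2 (by linarith)
    · unfold Dat.E
      rw [Ex_add, Ex_add, Ex_const h.prob, Ex_const_mul]
      have a3 : Ex d.p (fun ω => R ω) ≤ 2 * eps := hR1
      unfold tau at hns
      unfold eps at a3
      unfold del
      norm_num at hns a3 ⊢
      linarith
    · have b1 := hc4 ω hω
      have b2 := hR2 ω
      have b3 := light_many h hu hA
      have b4 : (((d.nb u).filter (fun w => d.light w)).card : ℝ) / d.D ≤ 1 := by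
        rw [div_le_one h.D_pos]
        exact h.card_sub_le subset_rfl _
      have hp : 0 < 1 - d.pv (d.w0 u) := by linarith [h.pv_lt_half (d.w0 u)]
      have b5 : rho / (1 - d.pv (d.w0 u)) * (I (¬ d.free ω (d.w0 u)) - d.pv (d.w0 u)) ≤ 0.2 := by
        rw [div_mul_eq_mul_div, div_le_iff₀ hp]
        unfold rho
        linarith [I_le_one (¬ d.free ω (d.w0 u))]
      rw [mul_assoc] at b2
      generalize rho / (1 - d.pv (d.w0 u)) * (I (¬ d.free ω (d.w0 u)) - d.pv (d.w0 u)) = x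
        at b1 b2 b5
      generalize (((d.nb u).filter (fun w => d.light w)).card : ℝ) / d.D = l at b2 b3 b4
      have b6 : (1 - l) * x ≤ (1 - l) * 0.2 := mul_le_mul_of_nonneg_left b5 (by linarith)
      linarith
    · have := h.Xi_le (subset_refl (d.nb u)) ω
      unfold rho at this
      linarith

end Pool.Agent.P.MP_553766_co.Lg
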