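import Mathlib
import Pool.Agent.P.MP_553766_co.LSt3

set_option autoImplicit false
set_option linter.unusedSectionVars false

/-! Large total deficiency without a giant edge. -/

namespace Pool.Agent.P.MP_553766_co.Lg

open Finset Pool.Agent.P.MP_553766_co

namespace LC

variable {V : Type} [Fintype V] [DecidableEq V] {d : Dat V}

/-- number of points in W minus one -/
noncomputable def uu (W e : Finset V) : ℝ := ((e ∩ W).card : ℝ) - 1

/-- the constant of an edge -/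
noncomputable def tt (d : Dat V) (W e : Finset V) : ℝ :=
  if 1 / (d.D : ℝ) * uu W e ≤ eps then 0.49 else 0.97

lemma tt_nonneg (W e : Finset V) : 0 ≤ tt d W e := by unfold tt; split_ifs <;> norm_num
lemma tt_le (W e : Finset V) : tt d W e ≤ 0.97 := by unfold tt; split_ifs <;> norm_num

lemma uu_le (W e : Finset V) : uu W e ≤ lam e := by
  have : ((e ∩ W).card : ℝ) ≤ e.card := by exact_mod_cast card_le_card inter_subset_left
  unfold uu lam; linarith

lemma core_ge (h : d.Ok) {u : V} {W : Finset V} (hu : d.light u) (hW : W ⊆ d.nb u) (ω : Om V)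
    {Y : ℝ} (hY : Y ≤ d.YY u W (d.chi u) ω) : 0.8 - max (6 - Y) 0 ≤ d.core u W ω := by
  have h1 := h.one_le_gam u
  have h2 := h.noise_le hu ω
  have h3 := h.Xi_ge hW ω
  have h4 := h.beta_le_five u
  have h5 : 0 ≤ d.out u W := Nat.cast_nonneg _
  have h6 := le_max_left (6 - Y) 0
  have h7 := le_max_right (6 - Y) 0
  unfold rho at h2
  refine le_min (by linarith) (le_min (by linarith) (by linarith))

lemma big (h : d.Ok) {W : Finset V} (hA : d.A0 < d.AW W) :
    100 ≤ d.AW W ∧ ∀ e ∈ d.lg W, 10 ^ 4 ≤ uu W e := by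
  have h1 := h.good.g6
  have h2 := h.good.L1
  have h3 : (4 : ℝ) ≤ d.l := by exact_mod_cast h.good.l4
  have h4 : (1 : ℝ) ≤ d.L ^ 2 := one_le_pow₀ h2
  have h5 : (d.l : ℝ) ≤ d.l ^ 3 := le_self_pow₀ (by linarith) (by norm_num)
  have h6 : (d.l : ℝ) ≤ d.L ^ 2 * d.l ^ 3 := by nlinarith
  have h7 := h.good.A1
  have h8 : tau * d.A0 ≤ 1 / 10 ^ 8 * d.A0 :=
    mul_le_mul_of_nonneg_right (by unfold tau; norm_num) (by linarith)
  refine ⟨by linarith, fun e he => ?_⟩
  have h9 := (mem_filter.1 he).2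
  unfold Dat.J0 at h9
  rw [div_le_iff₀ (by linarith)] at h9
  unfold uu
  by_contra hc
  nlinarith

lemma exists_ch (h : d.Ok) (h3 : StCov) {u : V} {W : Finset V} (hu : d.A u ≤ del)
    (hW : W ⊆ d.nb u) (hA : d.A0 < d.AW W) : ∃ ch : V → ℝ, ∀ w ∈ W,
    (0 ≤ ch w ∧ ch w ≤ 4) ∧ ch w ≤ d.chi u w ∧
      0.48 * d.A w ≤ (1 - d.pv w) * ch w - 1 / (1 - d.pv u) - d.A w / 100 ∧
      0.979 * ∑ f ∈ (d.lg W).filter (fun f => w ∈ f), tt d W f * (1 / d.D * uu W f) ≤
        (1 - d.pv w) * ch w - 1 / (1 - d.pv u) - d.A w / 100 := by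
  have hl := Dat.light_of_poor hu
  have hD := h.D_pos
  have hx : 0 < 1 / (d.D : ℝ) := by positivity
  refine ⟨fun w => if d.light w then d.chi u w else (1 + 0.99 * (d.A w - d.pv w)) / (1 - d.pv w),
    fun w hw => ?_⟩
  have a0 := h.A_nonneg w
  have sub : (d.lg W).filter (fun f => w ∈ f) ⊆ d.B.filter (fun f => w ∈ f) :=
    filter_subset_filter _ (filter_subset _ _)
  have l2 : ∀ f ∈ d.B.filter (fun f => w ∈ f), 2 ≤ lam f := fun f hf => by
    have : (3 : ℝ) ≤ f.card := by exact_mod_cast h.hyp.big f (mem_filter.1 hf).1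
    unfold lam; linarith
  have sl := h.sum_lam_le w
  rw [div_eq_mul_one_div, sum_mul] at sl
  beta_reduce
  by_cases hw' : d.light w
  · rw [if_pos hw']
    obtain ⟨c1, c2⟩ := h.chi_light hl hw'
    have c3 := (h3 V d h u w (hW hw)).2 hl hw'
    have c4 : d.A w ≤ eps := hw'
    have c5 : ∑ f ∈ (d.lg W).filter (fun f => w ∈ f), tt d W f * (1 / d.D * uu W f) ≤
        0.49 * d.A w := by
      refine le_trans (sum_le_sum (g := fun f => 0.49 * (lam f * (1 / d.D))) fun f hf => ?_) ?_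
      · have e1 : 1 / d.D * uu W f ≤ lam f * (1 / d.D) := by nlinarith [uu_le W f]
        have e2 : lam f * (1 / d.D) ≤ _ :=
          single_le_sum (f := fun f => lam f * (1 / (d.D : ℝ)))
            (fun g hg => by have := l2 g hg; positivity) (sub hf)
        unfold tt
        rw [if_pos (by linarith)]
        linarith
      · rw [← mul_sum]
        have := sum_le_sum_of_subset_of_nonneg (f := fun f => lam f * (1 / (d.D : ℝ))) sub
          fun g hg _ => by have := l2 g hg; positivity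
        linarith
    unfold eps at c2
    unfold kap at c3
    exact ⟨⟨by linarith, by linarith⟩, le_rfl, by linarith, by linarith⟩
  · rw [if_neg hw']
    have c1 : eps < d.A w := not_le.1 hw'
    have c2 := h.two_pv_le w
    have c3 := h.pv_lt_half w
    have c4 := h.A_lt_one w
    have c5 := h.pv_nonneg w
    have c6 := h.inv_poor hu
    have c7 : (1 + 0.99 * (d.A w - d.pv w)) / (1 - d.pv w) ≤ 4 := by
      rw [div_le_iff₀ (by linarith)]; linarith
    have c8 : ∑ f ∈ (d.lg W).filter (fun f => w ∈ f), tt d W f * (1 / d.D * uu W f) ≤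
        0.971 * (d.A w - d.pv w) := by
      refine le_trans (sum_le_sum (g := fun f => 0.971 * ((lam f - 1) * (1 / d.D)))
        fun f hf => ?_) ?_
      · have e0 := (big h hA).2 f (mem_filter.1 hf).1
        have e1 := uu_le W f
        have e2 : tt d W f * uu W f ≤ 0.971 * (lam f - 1) := by nlinarith [tt_le (d := d) W f]
        nlinarith
      · rw [← mul_sum]
        have e1 := sum_le_sum_of_subset_of_nonneg (f := fun f => (lam f - 1) * (1 / (d.D : ℝ))) sub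
          fun g hg _ => mul_nonneg (by linarith [l2 g hg]) hx.le
        have e2 : ∑ f ∈ d.B.filter (fun f => w ∈ f), (lam f - 1) * (1 / (d.D : ℝ)) =
            ∑ f ∈ d.B.filter (fun f => w ∈ f), lam f * (1 / (d.D : ℝ)) - d.pv w := by
          simp only [sub_mul, sum_sub_distrib, one_mul, sum_const, nsmul_eq_mul, Dat.pv]
          ring
        linarith
    rw [mul_div_cancel₀ _ (by linarith)]
    unfold eps at c1
    unfold del at c6
    refine ⟨⟨div_nonneg (by linarith) (by linarith), c7⟩, ?_, by linarith, by linarith⟩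
    unfold Dat.chi
    rw [if_neg hw']
    refine le_min (by linarith) ?_
    rw [h.al_eq, ← mul_div_assoc, div_le_div_iff₀ (by linarith) (by linarith)]
    unfold kp
    nlinarith

/-- the value of the part `W'` on the good event -/
lemma part_ge {u : V} {W W' : Finset V} {ch : V → ℝ} {ω : Om V} (hc : ∀ w ∈ W', 0 ≤ ch w)
    (hg : d.Bs W W' ch ω ≤ ∑ w ∈ W', ch w * d.pv w + d.AW W / 100) :
    ∑ w ∈ W', ((1 - d.pv w) * ch w - 1 / (1 - d.pv u)) - d.AW W / 100 -
      ∑ w ∈ W', ch w * I (∃ f ∈ ω.1, w ∈ f ∧ f ∈ d.lg W) ≤ d.YY u W' ch ω := by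
  have : ∑ w ∈ W', (((1 - d.pv w) * ch w - 1 / (1 - d.pv u)) + ch w * d.pv w -
      ch w * I (∃ f ∈ ω.1, w ∈ f ∧ f ∉ d.lg W) - ch w * I (∃ f ∈ ω.1, w ∈ f ∧ f ∈ d.lg W)) ≤
      d.YY u W' ch ω := by
    refine sum_le_sum fun w hw => ?_
    have h1 : 1 - I (∃ f ∈ ω.1, w ∈ f ∧ f ∉ d.lg W) - I (∃ f ∈ ω.1, w ∈ f ∧ f ∈ d.lg W) ≤
        I (d.free ω w) := by
      have a := I_nonneg (∃ f ∈ ω.1, w ∈ f ∧ f ∉ d.lg W)
      have b := I_nonneg (∃ f ∈ ω.1, w ∈ f ∧ f ∈ d.lg W)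
      by_cases hf : d.free ω w
      · rw [I_pos hf]; linarith
      · rw [I_neg hf]
        obtain ⟨f, f1, f2⟩ := not_not.1 hf
        by_cases f3 : f ∈ d.lg W
        · rw [I_pos (P := ∃ f ∈ ω.1, w ∈ f ∧ f ∈ d.lg W) ⟨f, f1, f2, f3⟩]; linarith
        · rw [I_pos (P := ∃ f ∈ ω.1, w ∈ f ∧ f ∉ d.lg W) ⟨f, f1, f2, f3⟩]; linarith
    nlinarith [hc w hw]
  rw [sum_sub_distrib, sum_sub_distrib, sum_add_distrib] at this
  unfold Dat.Bs at hg
  linarith

lemma sum_swap (F : Finset (Finset V)) (W : Finset V) (g : Finset V → ℝ) :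
    ∑ w ∈ W, ∑ f ∈ F.filter (fun f => w ∈ f), g f = ∑ f ∈ F, ((f ∩ W).card : ℝ) * g f := by
  simp only [sum_filter]
  rw [sum_comm]
  refine sum_congr rfl fun f _ => ?_
  rw [← sum_filter, sum_const, nsmul_eq_mul, filter_mem_eq_inter, inter_comm]

lemma low (h : d.Ok) {u : V} (hu : d.A u ≤ del) (W : Finset V) {ch : V → ℝ}
    (hc : ∀ w ∈ W, 0 ≤ ch w) (ω : Om V) : -(W.card * 1.001) ≤ d.YY u W ch ω := by
  have := card_nsmul_le_sum W (fun w => ch w * I (d.free ω w) - 1 / (1 - d.pv u)) (-1.001)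
    fun w hw => by
      have a := h.inv_poor hu
      have b := mul_nonneg (hc w hw) (I_nonneg (d.free ω w))
      unfold del at a
      linarith
  rw [nsmul_eq_mul] at this
  unfold Dat.YY
  linarith

lemma point (h : d.Ok) {u : V} {W : Finset V} (hu : d.A u ≤ del) (hW : W ⊆ d.nb u)
    (hA : d.A0 < d.AW W) {ch : V → ℝ} (hc : ∀ w ∈ W, 0 ≤ ch w ∧ ch w ≤ 4)
    (k1 : ∀ w ∈ W, 0.48 * d.A w ≤ (1 - d.pv w) * ch w - 1 / (1 - d.pv u) - d.A w / 100)
    (k2 : ∀ w ∈ W,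
      0.979 * ∑ f ∈ (d.lg W).filter (fun f => w ∈ f), tt d W f * (1 / d.D * uu W f) ≤
        (1 - d.pv w) * ch w - 1 / (1 - d.pv u) - d.A w / 100) (ω : Om V) :
    max (6 - d.YY u W ch ω) 0 ≤
      ∑ e ∈ d.lg W, I (e ∈ ω.1) * max (6 + 1.011 * (uu W e + 1) + tt d W e * (1 / d.D * uu W e ^ 2)
        - 0.979 * ∑ f ∈ d.lg W, tt d W f * (1 / d.D * uu W f ^ 2)) 0 +
      4 * ∑ e ∈ d.lg W, ∑ f ∈ (d.lg W).erase e, ((e ∩ W).card : ℝ) * I (e ∈ ω.1 ∧ f ∈ ω.1) +
      3 * d.D * I (¬ d.goodC W ch ω) := by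
  have hD := h.D_pos
  have hx : 0 < 1 / (d.D : ℝ) := by positivity
  obtain ⟨b1, b2⟩ := big h hA
  have t1 : ∀ e ∈ d.lg W, 0 ≤ I (e ∈ ω.1) * max (6 + 1.011 * (uu W e + 1) +
      tt d W e * (1 / d.D * uu W e ^ 2)
        - 0.979 * ∑ f ∈ d.lg W, tt d W f * (1 / d.D * uu W f ^ 2)) 0 :=
    fun e _ => mul_nonneg (I_nonneg _) (le_max_right _ _)
  have t2 : ∀ e f : Finset V, 0 ≤ ((e ∩ W).card : ℝ) * I (e ∈ ω.1 ∧ f ∈ ω.1) :=
    fun e f => mul_nonneg (Nat.cast_nonneg _) (I_nonneg _)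
  have n1 := sum_nonneg t1
  have n2 : 0 ≤ ∑ e ∈ d.lg W, ∑ f ∈ (d.lg W).erase e,
      ((e ∩ W).card : ℝ) * I (e ∈ ω.1 ∧ f ∈ ω.1) :=
    sum_nonneg fun e _ => sum_nonneg fun f _ => t2 e f
  have n3 : 0 ≤ 3 * d.D * I (¬ d.goodC W ch ω) := mul_nonneg (by linarith) (I_nonneg _)
  refine max_le ?_ (by linarith)
  by_cases hg : d.goodC W ch ω
  swap
  · have a := low h hu W (fun w hw => (hc w hw).1) ω
    have b : (W.card : ℝ) ≤ (d.nb u).card := by exact_mod_cast card_le_card hW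
    have c := h.card_nb_le u
    have e : (10 : ℝ) ≤ d.D := le_trans (by norm_num) h.good.D_ge
    rw [I_pos hg]
    linarith
  by_cases hs : ∃ e ∈ d.lg W, e ∈ ω.1 ∧ ∀ f ∈ d.lg W, f ∈ ω.1 → f = e
  · obtain ⟨e, he, heM, hs⟩ := hs
    have a := part_ge (u := u) (fun w hw => (hc w (mem_sdiff.1 hw).1).1)
      (hg (W \ e) (Or.inr ⟨e, he, rfl⟩))
    have a1 : ∑ w ∈ W \ e, ch w * I (∃ f ∈ ω.1, w ∈ f ∧ f ∈ d.lg W) = 0 :=
      sum_eq_zero fun w hw => by
        rw [I_neg, mul_zero]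
        rintro ⟨f, f1, f2, f3⟩
        exact (mem_sdiff.1 hw).2 (hs f f3 f1 ▸ f2)
    have a2 := low h hu (W ∩ e) (fun w hw => (hc w (mem_inter.1 hw).1).1) ω
    have a3 : d.YY u W ch ω = d.YY u (W ∩ e) ch ω + d.YY u (W \ e) ch ω :=
      (sum_inter_add_sum_sdiff _ _ _).symm
    have a4 : d.AW W = d.AW (W ∩ e) + d.AW (W \ e) := (sum_inter_add_sum_sdiff _ _ _).symm
    have a5 := h.AW_le_card (W ∩ e)
    have a6 := sum_le_sum fun w (hw : w ∈ W \ e) => k2 w (mem_sdiff.1 hw).1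
    rw [← mul_sum, sum_swap, sum_sub_distrib, ← sum_div] at a6
    have a7 : ∑ f ∈ (d.lg W).erase e, tt d W f * (1 / d.D * uu W f ^ 2) ≤
        ∑ f ∈ d.lg W, ((f ∩ (W \ e)).card : ℝ) * (tt d W f * (1 / d.D * uu W f)) := by
      have p : ∀ f ∈ d.lg W, 0 ≤ tt d W f * (1 / d.D * uu W f) := fun f hf =>
        mul_nonneg (tt_nonneg W f) (mul_nonneg hx.le (le_trans (by norm_num) (b2 f hf)))
      refine le_trans (sum_le_sum fun f hf => ?_) (sum_le_sum_of_subset_of_nonneg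
        (erase_subset e _) fun f hf _ => mul_nonneg (Nat.cast_nonneg _) (p f hf))
      obtain ⟨f1, f2⟩ := mem_erase.1 hf
      have q1 := h.hyp.lin f (mem_filter.1 f2).1 e (mem_filter.1 he).1 f1
      have q2 : (f ∩ W).card ≤ (f ∩ (W \ e)).card + (f ∩ e).card :=
        le_trans (card_le_card fun x hx => by
          simp only [mem_union, mem_inter, mem_sdiff] at hx ⊢
          tauto) (card_union_le _ _)
      have q3 : ((f ∩ W).card : ℝ) ≤ (f ∩ (W \ e)).card + 1 := by exact_mod_cast (by omega)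
      have q4 : uu W f ≤ (f ∩ (W \ e)).card := by unfold uu; linarith
      have := mul_le_mul_of_nonneg_right q4 (p f f2)
      linarith
    have a8 := add_sum_erase (d.lg W) (fun f => tt d W f * (1 / d.D * uu W f ^ 2)) he
    have a9 := single_le_sum t1 he
    rw [I_pos heM, one_mul] at a9
    have a10 := (le_max_left _ _).trans a9
    have a11 : 0 ≤ tt d W e * (1 / d.D * uu W e ^ 2) := mul_nonneg (tt_nonneg W e) (by positivity)
    have a12 : ((W ∩ e).card : ℝ) = uu W e + 1 := by rw [inter_comm]; unfold uu; ring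
    have a13 : ∑ w ∈ W \ e, d.A w = d.AW (W \ e) := rfl
    beta_reduce at a8
    linarith
  · have a := part_ge (u := u) (fun w hw => (hc w hw).1) (hg W (Or.inl rfl))
    have a1 := sum_le_sum k1
    rw [← mul_sum, sum_sub_distrib, ← sum_div] at a1
    have a2 : ∑ w ∈ W, d.A w = d.AW W := rfl
    have a3 : ∑ w ∈ W, ch w * I (∃ f ∈ ω.1, w ∈ f ∧ f ∈ d.lg W) ≤
        ∑ w ∈ W, 4 * ∑ f ∈ (d.lg W).filter (fun f => w ∈ f), I (f ∈ ω.1) :=
      sum_le_sum fun w hw => mul_le_mul (hc w hw).2 (le_trans (I_mono fun ⟨f, f1, f2, f3⟩ =>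
        ⟨f, mem_filter.2 ⟨f3, f2⟩, f1⟩) (I_exists_le _ fun f => f ∈ ω.1)) (I_nonneg _) (by norm_num)
    rw [← mul_sum, sum_swap] at a3
    have a4 : ∑ e ∈ d.lg W, ((e ∩ W).card : ℝ) * I (e ∈ ω.1) ≤
        ∑ e ∈ d.lg W, ∑ f ∈ (d.lg W).erase e, ((e ∩ W).card : ℝ) * I (e ∈ ω.1 ∧ f ∈ ω.1) := by
      refine sum_le_sum fun e he => ?_
      by_cases heM : e ∈ ω.1
      · have : ∃ f ∈ d.lg W, f ∈ ω.1 ∧ f ≠ e := by
          by_contra hc
          exact hs ⟨e, he, heM, fun f f1 f2 => by_contra fun f3 => hc ⟨f, f1, f2, f3⟩⟩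
        obtain ⟨f, f1, f2, f3⟩ := this
        refine le_trans ?_ (single_le_sum (fun f _ => t2 e f) (mem_erase.2 ⟨f3, f1⟩))
        rw [I_pos heM, I_pos ⟨heM, f2⟩]
      · rw [I_neg heM, mul_zero]
        exact sum_nonneg fun f _ => t2 e f
    linarith

end LC

open LC in
theorem stc (h1 : StC2) (h2 : StC1) (h3 : StCov) : StC := by
  intro V _ _ d h u W hu hW hA he
  have hD := h.D_pos
  have hl := Dat.light_of_poor hu
  obtain ⟨ch, hch⟩ := exists_ch h h3 hu hW hA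
  have cW : (W.card : ℝ) ≤ d.D := by
    have b : (W.card : ℝ) ≤ (d.nb u).card := by exact_mod_cast card_le_card hW
    linarith [h.card_nb_le u]
  obtain ⟨e1, e2⟩ := h1 V d h W ch cW hA fun w hw => (hch w hw).1
  have e3 := h2 _ (d.lg W) (uu W) (1 / d.D) (by positivity) fun e hx => ⟨(big h hA).2 e hx, by
    have := he e (mem_filter.1 hx).1
    rw [one_div_mul_eq_div, div_le_iff₀ hD]
    unfold uu
    linarith⟩
  have e4 := Ex_mono h.pnn fun ω _ => point h hu hW hA (fun w hw => (hch w hw).1)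
    (fun w hw => (hch w hw).2.2.1) (fun w hw => (hch w hw).2.2.2) ω
  rw [Ex_add, Ex_add, Ex_const_mul, Ex_const_mul, Ex_sum,
    sum_congr rfl fun e hx => by rw [Ex_mul_const, h.spec.marg e (mem_filter.1 hx).1]] at e4
  have e5 : Ex d.p (fun ω => 0.8 * I (d.free ω u) - max (6 - d.YY u W ch ω) 0) ≤
      d.E (fun ω => I (d.free ω u) * d.core u W ω) := by
    refine Ex_mono h.pnn fun ω _ => ?_
    by_cases hf : d.free ω u
    · rw [I_pos hf, mul_one, one_mul]
      exact core_ge h hl hW ω (sum_le_sum fun w hw => sub_le_sub_right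
        (mul_le_mul_of_nonneg_right (hch w hw).2.1 (I_nonneg _)) _)
    · rw [I_neg hf]
      linarith [le_max_right (6 - d.YY u W ch ω) 0]
  rw [Ex_sub, Ex_const_mul] at e5
  have e6 := h.E_free u
  have e7 := h.two_pv_le u
  have e8 : 3 * d.D * d.E (fun ω => I (¬ d.goodC W ch ω)) ≤ 3 * tau1 := by
    rw [le_div_iff₀ hD] at e1
    linarith
  unfold Dat.E at e2 e6 e8
  unfold tt at e4
  unfold del at hu
  have : tau1 ≤ 1 / 1000 := by unfold tau1; norm_num
  linarith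

end Pool.Agent.P.MP_553766_co.Lg
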