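import Mathlib
import Pool.Agent.P.MP_553766_co.LSt3

set_option autoImplicit false
set_option linter.unusedSectionVars false

/-! The good event and pairs of large jumps. -/

namespace Pool.Agent.P.MP_553766_co.Lg

open Finset Pool.Agent.P.MP_553766_co

namespace LC2

variable {V : Type} [Fintype V] [DecidableEq V] {d : Dat V}

lemma swap (F : Finset (Finset V)) (W : Finset V) (a : Finset V → ℝ) (c : V → ℝ) :
    ∑ f ∈ F, a f * ∑ w ∈ f ∩ W, c w = ∑ w ∈ W, c w * ∑ f ∈ F.filter (fun f => w ∈ f), a f := by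
  have h1 : ∀ f : Finset V, ∑ w ∈ f ∩ W, c w = ∑ w ∈ W, if w ∈ f then c w else 0 := by
    intro f
    rw [← Finset.sum_filter, Finset.filter_mem_eq_inter, Finset.inter_comm]
  simp only [h1, Finset.mul_sum, Finset.sum_filter]
  rw [Finset.sum_comm]
  refine Finset.sum_congr rfl fun w _ => Finset.sum_congr rfl fun f _ => ?_
  split_ifs <;> ring

lemma one_le_D (h : d.Ok) : (1 : ℝ) ≤ d.D := le_trans (by norm_num) h.good.D_ge

lemma bw_nonneg (h : d.Ok) (e : Finset V) : 0 ≤ bw d.D d.K d.η d.L e := by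
  have := h.good.eta0; have := h.good.L1
  unfold bw; split_ifs <;> positivity

lemma bw_le (h : d.Ok) (e : Finset V) : bw d.D d.K d.η d.L e ≤ 2 * d.L / d.D := by
  have h1 := h.good.eta_le; have h2 := h.good.L1
  unfold tau at h1
  unfold bw
  split_ifs <;> exact div_le_div_of_nonneg_right (by linarith) h.D_pos.le

lemma sum_bw (h : d.Ok) (w : V) : ∑ f ∈ d.B.filter (fun f => w ∈ f), bw d.D d.K d.η d.L f ≤
    (1 + d.η) * d.pv w + d.L / d.K * d.A w := by
  have hD := h.D_pos; have hK := h.good.K_pos; have hL := h.good.L1; have he := h.good.eta0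
  have h1 : ∀ f ∈ d.B.filter (fun f => w ∈ f),
      bw d.D d.K d.η d.L f ≤ (1 + d.η) / d.D + d.L / d.K * (lam f / d.D) := by
    intro f hf
    have h2 := h.hyp.two_le_lam (Finset.mem_filter.1 hf).1
    unfold bw
    split_ifs with hc
    · have : 0 ≤ d.L / d.K * (lam f / d.D) := by positivity
      linarith
    · have h3 : (d.K : ℝ) ≤ lam f := by
        have : (d.K : ℝ) + 1 ≤ f.card := by exact_mod_cast not_le.1 hc
        unfold lam; linarith
      have h4 : d.L / d.K * (d.K / d.D) ≤ d.L / d.K * (lam f / d.D) := by gcongr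
      have h5 : d.L / d.K * (d.K / d.D) = d.L / d.D := by field_simp
      have : 0 ≤ (1 + d.η) / d.D := by positivity
      linarith
  refine (Finset.sum_le_sum h1).trans ?_
  rw [Finset.sum_add_distrib, Finset.sum_const, nsmul_eq_mul, ← Finset.mul_sum, ← Finset.sum_div]
  have h6 : d.L / d.K * ((∑ f ∈ d.B.filter (fun f => w ∈ f), lam f) / d.D) ≤
      d.L / d.K * d.A w := mul_le_mul_of_nonneg_left (h.sum_lam_le w) (by positivity)
  have h7 : ((d.B.filter (fun f => w ∈ f)).card : ℝ) * ((1 + d.η) / d.D) = (1 + d.η) * d.pv w := by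
    unfold Dat.pv; ring
  linarith

lemma pair (h : d.Ok) {e f : Finset V} (he : e ∈ d.B) (hf : f ∈ d.B) (hef : f ≠ e) :
    d.E (fun ω => I (e ∈ ω.1 ∧ f ∈ ω.1)) ≤ 4 * d.L ^ 2 / d.D ^ 2 + 2 * d.θ / d.D := by
  have h1 := h.spec.upper {e, f} (by
    intro x hx
    rcases Finset.mem_insert.1 hx with rfl | hx
    · exact he
    · rw [Finset.mem_singleton.1 hx]; exact hf)
    (Finset.card_le_two.trans (le_trans (by norm_num) h.good.l4))
  rw [Finset.prod_pair hef.symm] at h1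
  have h2 := h.spec.bad e he
  have h3 := h.spec.bad f hf
  have h4 : bw d.D d.K d.η d.L e * bw d.D d.K d.η d.L f ≤ 2 * d.L / d.D * (2 * d.L / d.D) :=
    mul_le_mul (bw_le h e) (bw_le h f) (bw_nonneg h f) ((bw_nonneg h e).trans (bw_le h e))
  have h5 : d.E (fun ω => I (e ∈ ω.1 ∧ f ∈ ω.1)) ≤ d.E (fun ω => I (({e, f} : Finset _) ⊆ ω.2) +
      I (e ∈ ω.1 ∧ e ∉ ω.2) + I (f ∈ ω.1 ∧ f ∉ ω.2)) := by
    refine Ex_mono h.pnn fun ω _ => ?_
    refine le_trans (I_mono (Q := (({e, f} : Finset _) ⊆ ω.2 ∨ (e ∈ ω.1 ∧ e ∉ ω.2)) ∨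
      (f ∈ ω.1 ∧ f ∉ ω.2)) fun hh => ?_) ((I_or_le _ _).trans (add_le_add (I_or_le _ _) le_rfl))
    rw [Finset.insert_subset_iff, Finset.singleton_subset_iff]
    tauto
  unfold Dat.E at *
  rw [Ex_add, Ex_add] at h5
  have h6 : 2 * d.L / d.D * (2 * d.L / d.D) = 4 * d.L ^ 2 / d.D ^ 2 := by ring
  have h7 : 2 * d.θ / d.D = d.θ / d.D + d.θ / d.D := by ring
  linarith

/-- double counting of incidences -/
lemma inc (h : d.Ok) (W : Finset V) {F : Finset (Finset V)} (hF : F ⊆ d.B) :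
    ∑ e ∈ F, lam e * ((e ∩ W).card : ℝ) ≤ d.D * d.AW W := by
  have h1 := swap F W lam (fun _ => 1)
  simp only [Finset.sum_const, nsmul_eq_mul, mul_one, one_mul] at h1
  rw [h1, Dat.AW, Finset.mul_sum]
  refine Finset.sum_le_sum fun w _ => ?_
  have h2 := h.sum_lam_le w
  rw [div_le_iff₀ h.D_pos, mul_comm] at h2
  refine le_trans (Finset.sum_le_sum_of_subset_of_nonneg (Finset.filter_subset_filter _ hF)
    fun f hf _ => ?_) h2
  linarith [h.hyp.two_le_lam (Finset.mem_filter.1 hf).1]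

lemma card_le (h : d.Ok) {W : Finset V} (hW : (W.card : ℝ) ≤ d.D) {F : Finset (Finset V)}
    (hF : F ⊆ d.B) (h1 : ∀ e ∈ F, (1 : ℝ) ≤ (e ∩ W).card) :
    (F.card : ℝ) ≤ ∑ e ∈ F, ((e ∩ W).card : ℝ) ∧ ∑ e ∈ F, ((e ∩ W).card : ℝ) ≤ (d.D : ℝ) ^ 2 := by
  constructor
  · simpa using Finset.card_nsmul_le_sum F (fun e => ((e ∩ W).card : ℝ)) 1 h1
  · have h2 := inc h W hF
    have h3 : ∑ e ∈ F, ((e ∩ W).card : ℝ) ≤ ∑ e ∈ F, lam e * ((e ∩ W).card : ℝ) :=
      Finset.sum_le_sum fun e he => by nlinarith [h.hyp.two_le_lam (hF he), h1 e he]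
    have h4 := (h.AW_le_card W).trans hW
    nlinarith [h.D_pos]

lemma l_ge (h : d.Ok) : (4 : ℝ) ≤ d.l := by exact_mod_cast h.good.l4

lemma J0_ge (h : d.Ok) {W : Finset V} (hA : d.A0 < d.AW W) : 2 ≤ d.J0 W := by
  have h1 := h.good.g6; have h2 := h.good.L1; have h3 := l_ge h
  have h4 : (1 : ℝ) ≤ d.L ^ 2 := one_le_pow₀ h2
  have h5 : (d.l : ℝ) ≤ d.L ^ 2 * (d.l : ℝ) ^ 3 := by
    have : (d.l : ℝ) ≤ (d.l : ℝ) ^ 3 := le_self_pow₀ (by linarith) (by norm_num)
    nlinarith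
  unfold Dat.J0
  rw [le_div_iff₀ (by positivity)]
  unfold tau at h1
  linarith [h.good.A1]

lemma pairs (h : d.Ok) {W : Finset V} (hW : (W.card : ℝ) ≤ d.D) (hA : d.A0 < d.AW W) :
    d.E (fun ω => ∑ e ∈ d.lg W, ∑ f ∈ (d.lg W).erase e,
      ((e ∩ W).card : ℝ) * I (e ∈ ω.1 ∧ f ∈ ω.1)) ≤ tau1 := by
  have hD := h.D_pos; have hD1 := one_le_D h; have hl := l_ge h; have hJ := J0_ge h hA
  have hth := h.good.th0
  have ha : 0 < d.AW W := by linarith [h.good.A1]
  have hB : d.lg W ⊆ d.B := Finset.filter_subset _ _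
  have hm : ∀ e ∈ d.lg W, d.J0 W ≤ ((e ∩ W).card : ℝ) := fun e he => (Finset.mem_filter.1 he).2
  obtain ⟨c1, c2⟩ := card_le h hW hB fun e he => by linarith [hm e he]
  set N := ∑ e ∈ d.lg W, ((e ∩ W).card : ℝ) with hN
  set n := ((d.lg W).card : ℝ) with hn
  have hn0 : 0 ≤ n := Nat.cast_nonneg _
  have c3 : d.J0 W / 2 * N ≤ d.D * d.AW W := by
    refine le_trans ?_ (inc h W hB)
    rw [hN, Finset.mul_sum]
    refine Finset.sum_le_sum fun e he => mul_le_mul_of_nonneg_right ?_ (Nat.cast_nonneg _)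
    have : ((e ∩ W).card : ℝ) ≤ e.card := by
      exact_mod_cast Finset.card_le_card Finset.inter_subset_left
    unfold lam; linarith [hm e he]
  have c4 : n * d.J0 W ≤ N := by
    simpa using Finset.card_nsmul_le_sum (d.lg W) (fun e => ((e ∩ W).card : ℝ)) _ hm
  have e1 : d.AW W = 1600 * d.l * d.J0 W := by unfold Dat.J0; field_simp
  have c5 : N ≤ 3200 * d.l * d.D := by
    rw [e1] at c3
    exact le_of_mul_le_mul_left (a := d.J0 W / 2) (by linarith) (by linarith)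
  have c6 : n * d.AW W ≤ 1600 * d.l * (3200 * d.l * d.D) := by
    rw [e1]
    have : 1600 * (d.l : ℝ) * (n * d.J0 W) ≤ 1600 * d.l * (3200 * d.l * d.D) :=
      mul_le_mul_of_nonneg_left (c4.trans c5) (by positivity)
    linarith
  set q := 4 * d.L ^ 2 / d.D ^ 2 + 2 * d.θ / d.D with hq
  have hq0 : 0 ≤ q := by positivity
  have s1 : d.E (fun ω => ∑ e ∈ d.lg W, ∑ f ∈ (d.lg W).erase e,
      ((e ∩ W).card : ℝ) * I (e ∈ ω.1 ∧ f ∈ ω.1)) ≤ N * (n * q) := by
    unfold Dat.E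
    rw [Ex_sum, hN, Finset.sum_mul]
    refine Finset.sum_le_sum fun e he => ?_
    rw [Ex_sum]
    simp only [Ex_const_mul]
    rw [← Finset.mul_sum]
    refine mul_le_mul_of_nonneg_left ?_ (Nat.cast_nonneg _)
    refine (Finset.sum_le_card_nsmul _ _ q fun f hf => pair h (hB he)
      (hB (Finset.mem_of_mem_erase hf)) (Finset.ne_of_mem_erase hf)).trans ?_
    rw [nsmul_eq_mul]
    refine mul_le_mul_of_nonneg_right ?_ hq0
    rw [hn]
    exact_mod_cast Finset.card_erase_le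
  have s2 : N * (n * (4 * d.L ^ 2 / d.D ^ 2)) ≤ 10 ^ 11 * tau := by
    have t1 : N * (n * d.AW W) ≤ 3200 * d.l * d.D * (1600 * d.l * (3200 * d.l * d.D)) :=
      mul_le_mul c5 c6 (by positivity) (by positivity)
    have t2 : d.L ^ 2 * (d.l : ℝ) ^ 3 ≤ tau * d.AW W :=
      h.good.g6.trans (mul_le_mul_of_nonneg_left hA.le (by unfold tau; positivity))
    have t3 : N * (n * d.AW W) * (4 * d.L ^ 2 / d.D ^ 2) ≤
        3200 * d.l * d.D * (1600 * d.l * (3200 * d.l * d.D)) * (4 * d.L ^ 2 / d.D ^ 2) :=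
      mul_le_mul_of_nonneg_right t1 (by positivity)
    have t4 : 3200 * d.l * d.D * (1600 * d.l * (3200 * d.l * d.D)) * (4 * d.L ^ 2 / d.D ^ 2) =
        65536000000 * (d.L ^ 2 * (d.l : ℝ) ^ 3) := by field_simp; ring
    have t5 : 0 ≤ tau * d.AW W := mul_nonneg (by unfold tau; positivity) ha.le
    refine le_of_mul_le_mul_left (a := d.AW W) ?_ ha
    nlinarith
  have s3 : N * (n * (2 * d.θ / d.D)) ≤ 2 * tau := by
    have t1 : N * n ≤ (d.D : ℝ) ^ 2 * (d.D : ℝ) ^ 2 := mul_le_mul c2 (c1.trans c2) hn0 (by positivity)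
    have t2 : 2 * d.θ / d.D ≤ 2 * d.θ := div_le_self (by positivity) hD1
    have t3 : N * n * (2 * d.θ / d.D) ≤ (d.D : ℝ) ^ 2 * (d.D : ℝ) ^ 2 * (2 * d.θ) :=
      mul_le_mul t1 t2 (by positivity) (by positivity)
    nlinarith [h.good.g5]
  have s4 : N * (n * q) = N * (n * (4 * d.L ^ 2 / d.D ^ 2)) + N * (n * (2 * d.θ / d.D)) := by
    rw [hq]; ring
  unfold tau at s2 s3
  unfold tau1
  linarith

/-- the edges that meet W in few points -/
noncomputable def fw (d : Dat V) (W : Finset V) : Finset (Finset V) :=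
  d.B.filter (fun f => f ∉ d.lg W ∧ (f ∩ W).Nonempty)

lemma tail (h1 : StTail) (h : d.Ok) {W : Finset V} (hA : d.A0 < d.AW W) {ch : V → ℝ}
    (hch : ∀ w ∈ W, 0 ≤ ch w ∧ ch w ≤ 4) {W' : Finset V} (hW' : W' ⊆ W) :
    d.E (fun ω => I (∑ w ∈ W', ch w * d.pv w + d.AW W / 100 ≤
      ∑ f ∈ (fw d W).filter (fun f => f ∈ ω.2), ∑ w ∈ f ∩ W', ch w)) ≤ (0.998 : ℝ) ^ d.l := by
  have hl := l_ge h
  have ha : 0 < d.AW W := by linarith [h.good.A1]
  have hB : fw d W ⊆ d.B := Finset.filter_subset _ _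
  set m := ∑ w ∈ W', ch w * d.pv w with hm
  have m0 : 0 ≤ m := Finset.sum_nonneg fun w hw => mul_nonneg (hch w (hW' hw)).1 (h.pv_nonneg w)
  have m1 : ∑ w ∈ W', ch w * d.A w ≤ 4 * d.AW W := by
    rw [Dat.AW, Finset.mul_sum]
    refine (Finset.sum_le_sum fun w hw => mul_le_mul_of_nonneg_right (hch w (hW' hw)).2
      (h.A_nonneg w)).trans (Finset.sum_le_sum_of_subset_of_nonneg hW' fun w _ _ => ?_)
    linarith [h.A_nonneg w]
  have m2 : 2 * m ≤ ∑ w ∈ W', ch w * d.A w := by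
    rw [hm, Finset.mul_sum]
    exact Finset.sum_le_sum fun w hw => by nlinarith [h.two_pv_le w, (hch w (hW' hw)).1]
  have e1 : (d.l : ℝ) * (4 * d.J0 W) = d.AW W / 400 := by unfold Dat.J0; field_simp; ring
  have hJ := J0_ge h hA
  have key := h1 (Om V) (Finset V) d.p (fun ω => ω.2) (fw d W) (bw d.D d.K d.η d.L)
    (fun f => ∑ w ∈ f ∩ W', ch w) 1 (4 * d.J0 W) (m + d.AW W / 400) (m + d.AW W / 100) d.l h.pnn
    (fun f hf => ⟨bw_nonneg h f, Finset.sum_nonneg fun w hw =>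
      (hch w (hW' (Finset.mem_inter.1 hw).2)).1, by
        have h2 := Finset.sum_le_card_nsmul (f ∩ W') ch 4
          fun w hw => (hch w (hW' (Finset.mem_inter.1 hw).2)).2
        have h3 : ((f ∩ W').card : ℝ) ≤ (f ∩ W).card := by
          exact_mod_cast Finset.card_le_card (Finset.inter_subset_inter_left hW')
        have h4 : ¬ d.J0 W ≤ ((f ∩ W).card : ℝ) := fun hh =>
          (Finset.mem_filter.1 hf).2.1 (Finset.mem_filter.2 ⟨hB hf, hh⟩)
        rw [nsmul_eq_mul] at h2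
        linarith [not_le.1 h4]⟩)
    (fun J hJ hc => by rw [one_mul]; exact h.spec.upper J (hJ.trans hB) hc)
    (by
      rw [swap]
      have h2 : ∀ w ∈ W', ch w * ∑ f ∈ (fw d W).filter (fun f => w ∈ f), bw d.D d.K d.η d.L f ≤
          (1 + d.η) * (ch w * d.pv w) + d.L / d.K * (ch w * d.A w) := by
        intro w hw
        have h3 := (Finset.sum_le_sum_of_subset_of_nonneg
          (Finset.filter_subset_filter (fun f => w ∈ f) hB) fun f _ _ => bw_nonneg h f).trans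
          (sum_bw h w)
        nlinarith [(hch w (hW' hw)).1]
      refine (Finset.sum_le_sum h2).trans ?_
      rw [Finset.sum_add_distrib, ← Finset.mul_sum, ← Finset.mul_sum, ← hm]
      have h4 : d.L / d.K ≤ tau := by
        rw [div_le_iff₀ h.good.K_pos]
        nlinarith [h.good.g4, h.good.L1]
      have h5 : d.L / d.K * ∑ w ∈ W', ch w * d.A w ≤ tau * (4 * d.AW W) :=
        mul_le_mul h4 m1 (by linarith) (by unfold tau; positivity)
      have h6 : d.η * m ≤ tau * (2 * d.AW W) :=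
        mul_le_mul h.good.eta_le (by linarith) m0 (by unfold tau; positivity)
      unfold tau at h5 h6
      linarith)
    (by linarith) (by linarith)
  rw [one_mul, e1] at key
  refine key.trans (pow_le_pow_left₀ (div_nonneg (by linarith) (by linarith)) ?_ _)
  rw [div_le_iff₀ (by linarith)]
  linarith

lemma Bs_le (h : d.Ok) {W : Finset V} {ch : V → ℝ} (hch : ∀ w ∈ W, 0 ≤ ch w ∧ ch w ≤ 4)
    {W' : Finset V} (hW' : W' ⊆ W) {ω : Om V} (hω : d.p ω ≠ 0)
    (hb : ¬ ∃ f ∈ fw d W, f ∈ ω.1 ∧ f ∉ ω.2) :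
    d.Bs W W' ch ω ≤ ∑ f ∈ (fw d W).filter (fun f => f ∈ ω.2), ∑ w ∈ f ∩ W', ch w := by
  have h1 := swap ((fw d W).filter (fun f => f ∈ ω.2)) W' (fun _ => 1) ch
  simp only [one_mul] at h1
  rw [h1, Dat.Bs]
  refine Finset.sum_le_sum fun w hw => mul_le_mul_of_nonneg_left ?_ (hch w (hW' hw)).1
  by_cases hx : ∃ f ∈ ω.1, w ∈ f ∧ f ∉ d.lg W
  · rw [I_pos hx]
    obtain ⟨f, hf, hwf, hl⟩ := hx
    have h2 : f ∈ fw d W := Finset.mem_filter.2 ⟨(h.isM hω).1 hf, hl,
      w, Finset.mem_inter.2 ⟨hwf, hW' hw⟩⟩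
    have h3 : f ∈ ω.2 := by
      by_contra h4
      exact hb ⟨f, h2, hf, h4⟩
    exact Finset.single_le_sum (f := fun _ => (1 : ℝ)) (fun _ _ => zero_le_one)
      (Finset.mem_filter.2 ⟨Finset.mem_filter.2 ⟨h2, h3⟩, hwf⟩)
  · rw [I_neg hx]
    exact Finset.sum_nonneg fun _ _ => zero_le_one

end LC2

open LC2

theorem c2 (h1 : StTail) : StC2 := by
  intro V _ _ d h W ch hW hA hch
  refine ⟨?_, pairs h hW hA⟩
  have hD := h.D_pos; have hD1 := one_le_D h; have hJ := J0_ge h hA; have hth := h.good.th0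
  have hB : fw d W ⊆ d.B := Finset.filter_subset _ _
  obtain ⟨c1, c2⟩ := card_le h hW hB fun e he => by
    exact_mod_cast Finset.card_pos.2 (Finset.mem_filter.1 he).2.2
  obtain ⟨c3, c4⟩ := card_le h hW (F := d.lg W) (Finset.filter_subset _ _) fun e he => by
    linarith [(Finset.mem_filter.1 he).2]
  set S := insert W ((d.lg W).image fun e => W \ e) with hS
  have hsub : ∀ W' ∈ S, W' ⊆ W := by
    intro W' hW'
    rcases Finset.mem_insert.1 hW' with rfl | hW'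
    · exact Finset.Subset.refl _
    · obtain ⟨e, -, rfl⟩ := Finset.mem_image.1 hW'
      exact Finset.sdiff_subset
  have c5 : (S.card : ℝ) ≤ 2 * (d.D : ℝ) ^ 2 := by
    have t1 : S.card ≤ (d.lg W).card + 1 :=
      (Finset.card_insert_le _ _).trans (Nat.succ_le_succ Finset.card_image_le)
    have t2 : (S.card : ℝ) ≤ (d.lg W).card + 1 := by exact_mod_cast t1
    nlinarith
  have s1 : d.E (fun ω => I (¬ d.goodC W ch ω)) ≤
      d.E (fun ω => ∑ f ∈ fw d W, I (f ∈ ω.1 ∧ f ∉ ω.2) +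
        ∑ W' ∈ S, I (∑ w ∈ W', ch w * d.pv w + d.AW W / 100 ≤
          ∑ f ∈ (fw d W).filter (fun f => f ∈ ω.2), ∑ w ∈ f ∩ W', ch w)) := by
    refine Ex_mono h.pnn fun ω hω => ?_
    refine le_trans ?_ (add_le_add (I_exists_le _ _) (I_exists_le _ _))
    refine le_trans (I_mono fun hh => ?_) (I_or_le _ _)
    by_contra hc
    rw [not_or] at hc
    refine hh fun W' hW' => ?_
    have t1 : W' ∈ S := by
      rcases hW' with rfl | ⟨e, he, rfl⟩
      · exact Finset.mem_insert_self _ _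
      · exact Finset.mem_insert_of_mem (Finset.mem_image_of_mem _ he)
    exact (Bs_le h hch (hsub W' t1) hω hc.1).trans (not_le.1 fun t2 => hc.2 ⟨W', t1, t2⟩).le
  unfold Dat.E at s1
  rw [Ex_add, Ex_sum, Ex_sum] at s1
  have s2 := Finset.sum_le_card_nsmul (fw d W) _ _ fun f hf => h.spec.bad f (hB hf)
  have s3 := Finset.sum_le_card_nsmul S _ _ fun W' hW' => tail h1 h hA hch (hsub W' hW')
  rw [nsmul_eq_mul] at s2 s3
  have s4 : ((fw d W).card : ℝ) * (d.θ / d.D) ≤ tau / d.D := by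
    rw [← mul_div_assoc]
    refine div_le_div_of_nonneg_right ?_ hD.le
    have t1 : (d.D : ℝ) ^ 2 ≤ (d.D : ℝ) ^ 4 := pow_le_pow_right₀ hD1 (by norm_num)
    nlinarith [h.good.g5]
  have s5 : (S.card : ℝ) * (0.998 : ℝ) ^ d.l ≤ 2 * tau / d.D := by
    rw [le_div_iff₀ hD]
    have t0 : (0 : ℝ) ≤ (0.998 : ℝ) ^ d.l := by positivity
    have t1 : (d.D : ℝ) ^ 3 ≤ (d.D : ℝ) ^ 5 := pow_le_pow_right₀ hD1 (by norm_num)
    have t2 : (S.card : ℝ) * d.D ≤ 2 * (d.D : ℝ) ^ 5 := by nlinarith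
    nlinarith [h.good.g7]
  have s6 : tau / d.D + 2 * tau / d.D ≤ tau1 / d.D := by
    rw [← add_div]
    exact div_le_div_of_nonneg_right (by unfold tau tau1; norm_num) hD.le
  unfold Dat.E at *
  linarith

end Pool.Agent.P.MP_553766_co.Lg
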