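import Mathlib
import Pool.Agent.P.MP_553766_co.LSt3

set_option autoImplicit false
set_option linter.unusedSectionVars false

/-! Covariance of adjacent points. -/

namespace Pool.Agent.P.MP_553766_co.Lg

open Finset Pool.Agent.P.MP_553766_co

namespace LCov

variable {V : Type} [Fintype V] [DecidableEq V] {d : Dat V}

lemma tau_pos : 0 < tau := by unfold tau; positivity
lemma tau_le : tau ≤ 1 / 10 ^ 30 := by
  unfold tau
  exact one_div_le_one_div_of_le (by positivity) (pow_le_pow_right₀ (by norm_num) (by norm_num))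

/-- lower bound for the probability that two distinct points are covered -/
lemma both_ge (h1 : StL3) (h : d.Ok) {u w : V} (huw : u ≠ w) :
    d.pv u * d.pv w - 26 * tau ≤ d.E (fun ω => I (¬ d.free ω u ∧ ¬ d.free ω w)) := by
  have h2 := h1 V d h ∅ {u, w} (Finset.empty_subset _) (fun e he => absurd he (by simp))
    (fun e he => absurd he (by simp)) (by rw [Finset.card_pair huw]; simp)
  rw [Finset.card_empty, pow_zero, one_mul, mul_one, Finset.prod_pair huw] at h2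
  have h3 := (abs_le.1 h2).1
  have h4 : d.E (fun ω => I ((∅ : Finset (Finset V)) ⊆ ω.1 ∧ ∀ a ∈ ({u, w} : Finset V), d.sb ω a))
      ≤ d.E (fun ω => I (¬ d.free ω u ∧ ¬ d.free ω w)) := by
    refine Ex_mono h.pnn fun ω _ => I_mono fun hh => ?_
    obtain ⟨e, he1, he2, _⟩ := hh.2 u (by simp)
    obtain ⟨f, hf1, hf2, _⟩ := hh.2 w (by simp)
    exact ⟨fun hn => hn ⟨e, he1, he2⟩, fun hn => hn ⟨f, hf1, hf2⟩⟩
  have h5 := h.eta2_le
  have a1 := h.pv_sub_ps_le_tau u
  have a2 := h.pv_sub_ps_le_tau w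
  have a3 := h.ps_le_pv u
  have a4 := h.ps_le_pv w
  have a5 := h.ps_nonneg u
  have a6 := h.pv_nonneg w
  have a7 := h.pv_lt_half u
  have a8 := h.pv_lt_half w
  have t0 := tau_pos
  have b1 : (d.pv u - d.ps u) * d.pv w ≤ tau * (1 / 2) :=
    mul_le_mul a1 a8.le a6 t0.le
  have b2 : d.ps u * (d.pv w - d.ps w) ≤ (1 / 2) * tau :=
    mul_le_mul (by linarith) a2 (by linarith) (by norm_num)
  nlinarith

lemma bw_nonneg (h : d.Ok) (e : Finset V) : 0 ≤ bw d.D d.K d.η d.L e := by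
  have := h.good.eta0; have := h.good.L1; have := h.D_pos
  unfold bw; split_ifs <;> positivity

/-- joint probability of two distinct edges -/
lemma pair_le (h : d.Ok) {e f : Finset V} (he : e ∈ d.B) (hf : f ∈ d.B) (hef : e ≠ f) :
    d.E (fun ω => I (e ∈ ω.1) * I (f ∈ ω.1)) ≤
      bw d.D d.K d.η d.L e * bw d.D d.K d.η d.L f + 2 * (d.θ / d.D) := by
  have h2 := h.spec.upper {e, f}
    (by intro x hx; rcases Finset.mem_insert.1 hx with rfl | hx
        · exact he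
        · rw [Finset.mem_singleton.1 hx]; exact hf)
    (by rw [Finset.card_pair hef]; linarith [h.good.l4])
  rw [Finset.prod_pair hef] at h2
  have h3 := h.spec.bad e he
  have h4 := h.spec.bad f hf
  have h5 : d.E (fun ω => I (e ∈ ω.1) * I (f ∈ ω.1)) ≤
      Ex d.p (fun ω => I (({e, f} : Finset (Finset V)) ⊆ ω.2) + I (e ∈ ω.1 ∧ e ∉ ω.2) +
        I (f ∈ ω.1 ∧ f ∉ ω.2)) := by
    refine Ex_mono h.pnn fun ω _ => ?_
    rw [← I_and]
    have n1 := I_nonneg (({e, f} : Finset (Finset V)) ⊆ ω.2)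
    have n2 := I_nonneg (e ∈ ω.1 ∧ e ∉ ω.2)
    have n3 := I_nonneg (f ∈ ω.1 ∧ f ∉ ω.2)
    by_cases hb : e ∈ ω.1 ∧ f ∈ ω.1
    · rw [I_pos hb]
      by_cases c1 : e ∈ ω.2
      · by_cases c2 : f ∈ ω.2
        · have : I (({e, f} : Finset (Finset V)) ⊆ ω.2) = 1 := I_pos (by
            intro x hx; rcases Finset.mem_insert.1 hx with rfl | hx
            · exact c1
            · rw [Finset.mem_singleton.1 hx]; exact c2)
          linarith
        · have : I (f ∈ ω.1 ∧ f ∉ ω.2) = 1 := I_pos ⟨hb.2, c2⟩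
          linarith
      · have : I (e ∈ ω.1 ∧ e ∉ ω.2) = 1 := I_pos ⟨hb.1, c1⟩
        linarith
    · rw [I_neg hb]; linarith
  rw [Ex_add, Ex_add] at h5
  linarith

/-- total weight of the edges through a point -/
lemma sum_bw_le (h : d.Ok) (v : V) :
    ∑ e ∈ d.B.filter (fun e => v ∈ e), bw d.D d.K d.η d.L e ≤
      (1 + tau) * d.pv v + tau * d.A v := by
  have hD := h.D_pos
  have hK := h.good.K_pos
  have e1 : ∑ e ∈ d.B.filter (fun e => v ∈ e), bw d.D d.K d.η d.L e =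
      (1 + d.η) * d.ps v + d.L * (d.pv v - d.ps v) := by
    rw [h.pv_sub_ps]
    unfold bw Dat.ps Dat.sm
    rw [Finset.sum_ite, Finset.sum_const, Finset.sum_const, nsmul_eq_mul, nsmul_eq_mul,
      Finset.filter_comm (fun e : Finset V => e.card ≤ d.K)]
    simp only [not_le]
    ring
  rw [e1]
  have a1 := h.pv_sub_ps_le v
  have a2 := h.good.eta_le
  have a3 := h.good.eta0
  have a4 := h.ps_le_pv v
  have a5 := h.ps_nonneg v
  have a6 := h.A_nonneg v
  have a7 := h.good.L1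
  have a8 : d.L / d.K ≤ tau := by
    rw [div_le_iff₀ hK]
    have := h.good.g4
    nlinarith
  have b1 : (1 + d.η) * d.ps v ≤ (1 + tau) * d.pv v :=
    mul_le_mul (by linarith) a4 a5 (by linarith)
  have b2 : d.L * (d.pv v - d.ps v) ≤ d.L * (d.A v / d.K) :=
    mul_le_mul_of_nonneg_left a1 (by linarith)
  have b3 : d.L * (d.A v / d.K) = d.L / d.K * d.A v := by ring
  have b4 : d.L / d.K * d.A v ≤ tau * d.A v := mul_le_mul_of_nonneg_right a8 a6
  linarith

/-- upper bound for the probability that two adjacent points are covered -/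
lemma both_le (h : d.Ok) {u w : V} (hw : w ∈ d.nb u) :
    d.E (fun ω => I (¬ d.free ω u ∧ ¬ d.free ω w)) ≤ d.pv u * d.pv w + 10 * tau * d.A w := by
  have hD := h.D_pos
  set Fu := d.B.filter (fun e => u ∈ e) with hFu
  set Fw := d.B.filter (fun e => w ∈ e) with hFw
  have e1 : d.E (fun ω => I (¬ d.free ω u ∧ ¬ d.free ω w)) =
      ∑ e ∈ Fu, ∑ f ∈ Fw, d.E (fun ω => I (e ∈ ω.1) * I (f ∈ ω.1)) := by
    unfold Dat.E
    rw [Ex_congr (g := fun ω => ∑ e ∈ Fu, ∑ f ∈ Fw, I (e ∈ ω.1) * I (f ∈ ω.1))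
      (fun ω hω => by rw [I_and, h.I_notfree hω, h.I_notfree hω, Finset.sum_mul_sum])]
    rw [Ex_sum]
    exact Finset.sum_congr rfl fun e _ => Ex_sum _ _
  have e2 : ∑ e ∈ Fu, ∑ f ∈ Fw, d.E (fun ω => I (e ∈ ω.1) * I (f ∈ ω.1)) ≤
      ∑ e ∈ Fu, ∑ f ∈ Fw, (bw d.D d.K d.η d.L e * bw d.D d.K d.η d.L f + 2 * (d.θ / d.D)) := by
    refine Finset.sum_le_sum fun e he => Finset.sum_le_sum fun f hf => ?_
    have he' := Finset.mem_filter.1 he
    have hf' := Finset.mem_filter.1 hf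
    refine pair_le h he'.1 hf'.1 fun hef => ?_
    exact h.sep u w hw e he'.1 he'.2 (hef ▸ hf'.2)
  have cu : (Fu.card : ℝ) = d.pv u * d.D := by
    unfold Dat.pv; rw [div_mul_cancel₀ _ hD.ne']
  have cw : (Fw.card : ℝ) = d.pv w * d.D := by
    unfold Dat.pv; rw [div_mul_cancel₀ _ hD.ne']
  have e3 : ∑ e ∈ Fu, ∑ f ∈ Fw,
      (bw d.D d.K d.η d.L e * bw d.D d.K d.η d.L f + 2 * (d.θ / d.D)) =
      (∑ e ∈ Fu, bw d.D d.K d.η d.L e) * (∑ f ∈ Fw, bw d.D d.K d.η d.L f) +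
        2 * (d.θ * d.D) * (d.pv u * d.pv w) := by
    simp only [Finset.sum_add_distrib, Finset.sum_const, nsmul_eq_mul]
    rw [Finset.sum_mul_sum, cu, cw]
    congr 1
    field_simp
  have s1 := sum_bw_le h u
  have s2 := sum_bw_le h w
  have n1 : 0 ≤ ∑ e ∈ Fu, bw d.D d.K d.η d.L e := Finset.sum_nonneg fun e _ => bw_nonneg h e
  have n2 : 0 ≤ ∑ e ∈ Fw, bw d.D d.K d.η d.L e := Finset.sum_nonneg fun e _ => bw_nonneg h e
  have t0 := tau_pos
  have t1 : tau ≤ 1 := tau_le.trans (by norm_num)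
  have a1 := h.pv_nonneg u
  have a2 := h.pv_nonneg w
  have a3 := h.pv_lt_half u
  have a4 := h.two_pv_le w
  have a5 := h.A_nonneg u
  have a6 := h.A_nonneg w
  have a7 := h.A_lt_one u
  have a8 := h.good.th_le
  have a9 : 0 ≤ d.θ * d.D := mul_nonneg h.good.th0 hD.le
  have s3 : (∑ e ∈ Fu, bw d.D d.K d.η d.L e) ≤ d.pv u + 2 * tau := by
    have : tau * d.pv u ≤ tau * 1 := mul_le_mul_of_nonneg_left (by linarith) t0.le
    have : tau * d.A u ≤ tau * 1 := mul_le_mul_of_nonneg_left (by linarith) t0.le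
    linarith
  have s4 : (∑ e ∈ Fw, bw d.D d.K d.η d.L e) ≤ d.pv w + 2 * tau * d.A w := by
    have : tau * d.pv w ≤ tau * d.A w := mul_le_mul_of_nonneg_left (by linarith) t0.le
    linarith
  have s5 : (∑ e ∈ Fu, bw d.D d.K d.η d.L e) * (∑ f ∈ Fw, bw d.D d.K d.η d.L f) ≤
      (d.pv u + 2 * tau) * (d.pv w + 2 * tau * d.A w) :=
    mul_le_mul s3 s4 n2 (by linarith)
  have tA : 0 ≤ tau * d.A w := mul_nonneg t0.le a6
  have s6 : d.pv u * (tau * d.A w) ≤ 1 * (tau * d.A w) :=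
    mul_le_mul_of_nonneg_right (by linarith) tA
  have s7 : tau * d.pv w ≤ tau * d.A w := mul_le_mul_of_nonneg_left (by linarith) t0.le
  have s8 : tau * (tau * d.A w) ≤ 1 * (tau * d.A w) := mul_le_mul_of_nonneg_right t1 tA
  have s9 : d.pv u * d.pv w ≤ 1 * d.A w := mul_le_mul (by linarith) (by linarith) a2 (by norm_num)
  have s10 : (d.θ * d.D) * (d.pv u * d.pv w) ≤ tau * (1 * d.A w) :=
    mul_le_mul a8 s9 (mul_nonneg a1 a2) t0.le
  rw [e1]
  refine e2.trans ?_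
  rw [e3]
  nlinarith

end LCov

theorem cov (h1 : StL3) : StCov := by
  intro V _ _ d h u w hw
  have huw : u ≠ w := fun hh => h.irr u (hh ▸ hw)
  have lo := LCov.both_ge h1 h huw
  have up := LCov.both_le h hw
  have hP := h.Pf_eq u w
  have hP0 := h.Pf_pos u w
  have t0 := LCov.tau_pos
  have t1 := LCov.tau_le
  have a1 := h.pv_nonneg u
  have a2 := h.pv_nonneg w
  have a3 := h.pv_lt_half u
  have a4 := h.pv_lt_half w
  have hX : (1 / 4 : ℝ) ≤ (1 - d.pv u) * (1 - d.pv w) := by nlinarith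
  have l1 : (1 - d.pv u) * (1 - d.pv w) - 26 * tau ≤ d.Pf u w := by nlinarith
  have l2 : d.Pf u w ≤ (1 - d.pv u) * (1 - d.pv w) + 10 * tau * d.A w := by nlinarith
  constructor
  · unfold Dat.nn Dat.cb
    rw [div_le_div_iff₀ hP0 (by linarith)]
    have e0 : (1 : ℝ) / 10 ^ 16 ≤ eps ^ 2 / 8 := by unfold eps; norm_num
    have e1 : (1 : ℝ) / 5 ≤ d.Pf u w := by
      have : 26 * tau ≤ 1 / 20 := by linarith [t1, show (1 : ℝ) / 10 ^ 30 ≤ 1 / 1000 by norm_num]
      linarith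
    have e2 : (1 / 10 ^ 16 : ℝ) * (1 / 5) ≤ eps ^ 2 / 8 * d.Pf u w :=
      mul_le_mul e0 e1 (by norm_num) (by positivity)
    have e3 : 26 * tau ≤ (1 / 10 ^ 16 : ℝ) * (1 / 5) := by
      linarith [t1, show 26 * ((1 : ℝ) / 10 ^ 30) ≤ (1 / 10 ^ 16 : ℝ) * (1 / 5) by norm_num]
    nlinarith
  · intro hu hw'
    have b1 : d.A u ≤ eps := hu
    have b2 : d.A w ≤ eps := hw'
    have b3 := h.two_pv_le u
    have b4 := h.two_pv_le w
    have b5 := h.A_nonneg w
    have b6 := h.Pf_ge u w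
    have hn := h.nn_mul u w
    have hn1 := h.nn_light hu hw'
    have hn0 := h.one_le_nn u w
    have he : eps = 1 / 10 ^ 7 := rfl
    have hk : kap = 1 / 10 ^ 4 := rfl
    have c1 : 1 / (1 - d.pv u) ≤ (1 - d.pv w) * d.nn u w + 40 * tau * d.A w := by
      rw [div_le_iff₀ (by linarith)]
      have tA : 0 ≤ tau * d.A w := mul_nonneg t0.le b5
      have c2 : d.nn u w * d.Pf u w ≤
          d.nn u w * ((1 - d.pv u) * (1 - d.pv w) + 10 * tau * d.A w) :=
        mul_le_mul_of_nonneg_left l2 (by linarith)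
      have c3 : d.nn u w * (tau * d.A w) ≤ 2 * (tau * d.A w) :=
        mul_le_mul_of_nonneg_right (by rw [he] at hn1; linarith) tA
      have c4 : (1 / 2) * (tau * d.A w) ≤ (1 - d.pv u) * (tau * d.A w) :=
        mul_le_mul_of_nonneg_right (by linarith) tA
      nlinarith
    unfold Dat.chi Dat.eb
    rw [if_pos hw']
    have c5 : (1 - 2 * kap) / 2 + 40 * tau ≤ (1 - d.pv w) * ((1 - kap) / 2) := by
      have : d.pv w ≤ 1 / 10 ^ 7 := by rw [he] at b2; linarith
      rw [hk]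
      have t2 : 40 * tau ≤ 1 / 10 ^ 7 := by
        linarith [t1, show 40 * ((1 : ℝ) / 10 ^ 30) ≤ 1 / 10 ^ 7 by norm_num]
      nlinarith
    have c6 := mul_le_mul_of_nonneg_right c5 b5
    nlinarith

end Pool.Agent.P.MP_553766_co.Lg
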