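import Mathlib
import Pool.Agent.P.MP_553766_co.LSt3

set_option autoImplicit false
set_option linter.unusedSectionVars false

/-! The case of a giant edge. -/

namespace Pool.Agent.P.MP_553766_co.Lg

open Finset Pool.Agent.P.MP_553766_co

namespace LD

variable {V : Type} [Fintype V] [DecidableEq V] {d : Dat V}

lemma sum_inter (F : Finset (Finset V)) (W : Finset V) (g : Finset V → ℝ) :
    ∑ f ∈ F, g f * ((f ∩ W).card : ℝ) = ∑ w ∈ W, ∑ f ∈ F.filter (fun f => w ∈ f), g f := by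
  simp only [Finset.sum_filter]
  rw [Finset.sum_comm]
  refine Finset.sum_congr rfl fun f _ => ?_
  rw [← Finset.sum_filter, Finset.filter_mem_eq_inter, Finset.inter_comm, Finset.sum_const,
    nsmul_eq_mul, mul_comm]

lemma one_le_D (h : d.Ok) : (10 : ℝ) ^ 10 ≤ d.D := le_trans (by norm_num) h.good.D_ge

lemma other_le (h : d.Ok) {e : Finset V} (he : e ∈ d.B) {w : V} (hw : w ∈ e) :
    ((d.nb w).card : ℝ) + ∑ f ∈ (d.B.filter (fun f => f ≠ e)).filter (fun f => w ∈ f), lam f ≤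
      d.D - e.card := by
  have h1 := h.deg w
  have h2 : (d.B.filter (fun f => f ≠ e)).filter (fun f => w ∈ f) =
      (d.B.filter (fun f => w ∈ f)).erase e := by
    ext f; simp only [Finset.mem_filter, Finset.mem_erase]; tauto
  have h3 := Finset.add_sum_erase (d.B.filter (fun f => w ∈ f)) lam
    (Finset.mem_filter.2 ⟨he, hw⟩)
  rw [h2]
  have h4 : lam e = (e.card : ℝ) - 1 := rfl
  linarith

lemma L_sq_le (h : d.Ok) {f : Finset V} (hK : ¬ f.card ≤ d.K) : d.L ^ 2 ≤ tau * lam f := by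
  have h1 : (d.K : ℝ) + 1 ≤ f.card := by exact_mod_cast not_le.1 hK
  have h2 := h.good.g4
  have h3 : (0 : ℝ) < tau := by unfold tau; positivity
  unfold lam; nlinarith

lemma bw_le (h : d.Ok) {f : Finset V} (hf : f ∈ d.B) :
    bw d.D d.K d.η d.L f ≤ 0.51 * lam f / d.D := by
  have h1 := h.hyp.two_le_lam hf
  have h2 := h.good.eta_le
  have h3 := h.good.L1
  unfold bw
  split_ifs with hK
  · refine div_le_div_of_nonneg_right ?_ h.D_pos.le
    unfold tau at h2; linarith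
  · refine div_le_div_of_nonneg_right ?_ h.D_pos.le
    have h4 := L_sq_le h hK
    unfold tau at h4; nlinarith

lemma bw_nonneg (h : d.Ok) (f : Finset V) : 0 ≤ bw d.D d.K d.η d.L f := by
  have h2 := h.good.eta0
  have h3 := h.good.L1
  unfold bw
  split_ifs <;> positivity

lemma l_le (h : d.Ok) : (d.l : ℝ) ≤ d.D / 1000 := by
  have h1 := h.good.g6; have h2 := h.good.g2; have h3 := h.good.K_le
  have h4 := h.good.L1; have h5 := h.good.A1; have h6 := h.good.K_pos
  have h7 : (1 : ℝ) ≤ d.l := by exact_mod_cast le_trans (by norm_num) h.good.l4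
  have h8 : (d.l : ℝ) ≤ (d.l : ℝ) ^ 3 := le_self_pow₀ h7 (by norm_num)
  have h9 : (1 : ℝ) ≤ d.L ^ 2 := one_le_pow₀ h4
  have h10 : (d.l : ℝ) ^ 3 ≤ d.L ^ 2 * (d.l : ℝ) ^ 3 := le_mul_of_one_le_left (by positivity) h9
  have hD := h.D_pos
  unfold tau at *
  linarith

lemma part1 (h1 : StTail) (h : d.Ok) {e : Finset V} (he : e ∈ d.B) {W1 : Finset V} (hW : W1 ⊆ e)
    (hj : 0.7 * d.D < (W1.card : ℝ)) :
    d.E (fun ω => I (0.3 * (W1.card : ℝ) ≤
      ∑ w ∈ W1, I (∃ f ∈ ω.1, w ∈ f ∧ f ≠ e))) ≤ tau1 / (d.D : ℝ) ^ 2 := by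
  have hD := h.D_pos
  have hD1 := one_le_D h
  set F := d.B.filter (fun f => f ≠ e) with hF
  have hFB : F ⊆ d.B := Finset.filter_subset _ _
  have hec : (W1.card : ℝ) ≤ e.card := by exact_mod_cast Finset.card_le_card hW
  have hw1 : ∀ f ∈ F, ((f ∩ W1).card : ℝ) ≤ 1 := fun f hf => by
    have h2 := h.hyp.lin f (hFB hf) e he (Finset.mem_filter.1 hf).2
    have h3 := Finset.card_le_card (Finset.inter_subset_inter_left (s := f) hW)
    exact_mod_cast h3.trans h2
  have hoth : ∀ w ∈ W1, ∑ f ∈ F.filter (fun f => w ∈ f), lam f ≤ 0.3 * d.D := fun w hw => by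
    have h2 := other_le h he (hW hw)
    have h3 : (0 : ℝ) ≤ (d.nb w).card := by positivity
    linarith
  have hM : ∑ f ∈ F, bw d.D d.K d.η d.L f * ((f ∩ W1).card : ℝ) ≤ 0.16 * W1.card := by
    rw [sum_inter]
    have h2 := Finset.sum_le_card_nsmul W1
      (fun w => ∑ f ∈ F.filter (fun f => w ∈ f), bw d.D d.K d.η d.L f) 0.16 fun w hw => by
        refine le_trans (Finset.sum_le_sum fun f hf =>
          bw_le h (hFB (Finset.mem_filter.1 hf).1)) ?_
        rw [← Finset.sum_div, ← Finset.mul_sum, div_le_iff₀ hD]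
        linarith [hoth w hw]
    simp only [nsmul_eq_mul] at h2
    linarith
  have hl := l_le h
  have ht := h1 (Om V) (Finset V) d.p (fun ω => ω.2) F (bw d.D d.K d.η d.L)
    (fun f => ((f ∩ W1).card : ℝ)) 1 1 (0.16 * W1.card) (0.3 * W1.card) d.l h.pnn
    (fun f hf => ⟨bw_nonneg h f, by positivity, hw1 f hf⟩)
    (fun J hJ hc => by rw [one_mul]; exact h.spec.upper J (hJ.trans hFB) hc) hM zero_le_one
    (by linarith)
  have hr : (0.16 * W1.card / (0.3 * W1.card - d.l * 1) : ℝ) ^ d.l ≤ 0.998 ^ d.l := by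
    refine pow_le_pow_left₀ (div_nonneg (by positivity) (by linarith)) ?_ _
    rw [div_le_iff₀ (by linarith)]; linarith
  have hpt : d.E (fun ω => I (0.3 * (W1.card : ℝ) ≤
      ∑ w ∈ W1, I (∃ f ∈ ω.1, w ∈ f ∧ f ≠ e))) ≤
      d.E (fun ω => I (0.3 * (W1.card : ℝ) ≤
        ∑ f ∈ F.filter (fun f => f ∈ ω.2), ((f ∩ W1).card : ℝ)) +
        ∑ f ∈ F, ((f ∩ W1).card : ℝ) * I (f ∈ ω.1 ∧ f ∉ ω.2)) := by
    refine Ex_mono h.pnn fun ω hω => ?_
    have h0 : ∀ f ∈ F, 0 ≤ ((f ∩ W1).card : ℝ) * I (f ∈ ω.1 ∧ f ∉ ω.2) := fun f _ =>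
      mul_nonneg (by positivity) (I_nonneg _)
    by_cases hb : ∃ f ∈ F, (f ∩ W1).card ≠ 0 ∧ f ∈ ω.1 ∧ f ∉ ω.2
    · obtain ⟨f, hf, h2, h3⟩ := hb
      have h4 := Finset.single_le_sum h0 hf
      have h5 : (1 : ℝ) ≤ (f ∩ W1).card := by exact_mod_cast Nat.one_le_iff_ne_zero.2 h2
      rw [I_pos h3] at h4
      have h6 := I_le_one (0.3 * (W1.card : ℝ) ≤ ∑ w ∈ W1, I (∃ f ∈ ω.1, w ∈ f ∧ f ≠ e))
      have h7 := I_nonneg (0.3 * (W1.card : ℝ) ≤
        ∑ f ∈ F.filter (fun f => f ∈ ω.2), ((f ∩ W1).card : ℝ))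
      linarith
    · have h00 := Finset.sum_nonneg h0
      suffices hk : ∑ w ∈ W1, I (∃ f ∈ ω.1, w ∈ f ∧ f ≠ e) ≤
          ∑ f ∈ F.filter (fun f => f ∈ ω.2), ((f ∩ W1).card : ℝ) by
        have h2 := I_mono (P := 0.3 * (W1.card : ℝ) ≤ ∑ w ∈ W1, I (∃ f ∈ ω.1, w ∈ f ∧ f ≠ e))
          fun h2 => h2.trans hk
        linarith
      rw [Finset.sum_congr rfl fun w _ => h.I_cov hω w (fun f => f ≠ e), ← sum_inter, ← hF,
        Finset.sum_filter (s := F)]
      refine Finset.sum_le_sum fun f hf => ?_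
      split_ifs with h3
      · exact mul_le_of_le_one_left (by positivity) (I_le_one _)
      · by_cases h4 : f ∈ ω.1
        · have h5 : (f ∩ W1).card = 0 := by
            by_contra h5; exact hb ⟨f, hf, h5, h4, h3⟩
          rw [h5]; simp
        · rw [I_neg h4, zero_mul]
  refine hpt.trans ?_
  unfold Dat.E
  rw [Ex_add, Ex_sum]
  have hb : ∑ f ∈ F, Ex d.p (fun ω => ((f ∩ W1).card : ℝ) * I (f ∈ ω.1 ∧ f ∉ ω.2)) ≤
      d.θ * d.D := by
    have h0 := h.good.th0
    calc _ ≤ ∑ f ∈ F, d.θ / d.D * lam f * ((f ∩ W1).card : ℝ) := by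
          refine Finset.sum_le_sum fun f hf => ?_
          rw [Ex_const_mul, mul_comm]
          refine mul_le_mul_of_nonneg_right ((h.spec.bad f (hFB hf)).trans ?_) (by positivity)
          exact le_mul_of_one_le_right (by positivity)
            (by linarith [h.hyp.two_le_lam (hFB hf)])
      _ ≤ W1.card * (d.θ / d.D * d.D) := by
          rw [sum_inter, ← nsmul_eq_mul]
          refine Finset.sum_le_card_nsmul _ _ _ fun w hw => ?_
          rw [← Finset.mul_sum]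
          exact mul_le_mul_of_nonneg_left (by linarith [hoth w hw]) (by positivity)
      _ ≤ d.θ * d.D := by
          have h2 := h.hyp.lam_le he
          have h3 : lam e = (e.card : ℝ) - 1 := rfl
          rw [div_mul_cancel₀ _ hD.ne', mul_comm]
          exact mul_le_mul_of_nonneg_left (by linarith) h0
  have h7 := h.good.g7
  have h5 := h.good.g5
  have h0 := h.good.th0
  have h8 : (0.998 : ℝ) ^ d.l * (d.D : ℝ) ^ 2 ≤ 0.998 ^ d.l * (d.D : ℝ) ^ 5 :=
    mul_le_mul_of_nonneg_left (pow_le_pow_right₀ (by linarith) (by norm_num)) (by positivity)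
  have h9 : d.θ * (d.D : ℝ) ^ 3 ≤ d.θ * (d.D : ℝ) ^ 4 :=
    mul_le_mul_of_nonneg_left (pow_le_pow_right₀ (by linarith) (by norm_num)) h0
  rw [one_mul] at ht
  refine le_trans (add_le_add (ht.trans hr) hb) ?_
  rw [le_div_iff₀ (by positivity)]
  have h10 : ((0.998 : ℝ) ^ d.l + d.θ * d.D) * (d.D : ℝ) ^ 2 =
      0.998 ^ d.l * (d.D : ℝ) ^ 2 + d.θ * (d.D : ℝ) ^ 3 := by ring
  rw [h10]
  unfold tau at *; unfold tau1
  linarith

lemma pair_le (h : d.Ok) {e f : Finset V} (he : e ∈ d.B) (hf : f ∈ d.B) (hef : e ≠ f)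
    (hj : 0.7 * d.D < (e.card : ℝ)) :
    d.E (fun ω => I (e ∈ ω.1 ∧ f ∈ ω.1)) ≤
      (1 + d.η) / (d.D : ℝ) ^ 2 + tau * lam f / (d.D : ℝ) ^ 2 + 2 * d.θ / d.D := by
  have hD := h.D_pos
  have h0 := h.good.th0
  have h1 := h.good.eta0
  have h2 := h.hyp.two_le_lam hf
  have h3 : (0 : ℝ) < tau := by unfold tau; positivity
  have h4 : d.Λ + 1 < e.card := by
    have h5 : (2 * d.Λ + 4 : ℝ) ≤ d.D := by exact_mod_cast h.good.g8
    have h6 : (d.Λ : ℝ) + 1 < e.card := by
      have : (0 : ℝ) ≤ d.Λ := by positivity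
      linarith
    exact_mod_cast h6
  have h5 : 0 ≤ tau * lam f / (d.D : ℝ) ^ 2 := by positivity
  have h6 : 0 ≤ 2 * d.θ / d.D := by positivity
  have h7 : 0 ≤ (1 + d.η) / (d.D : ℝ) ^ 2 := by positivity
  by_cases hK : f.card ≤ d.K
  · have := h.spec.cross e he f hf h4 hK
    unfold Dat.E; linarith
  · have h8 : d.E (fun ω => I (e ∈ ω.1 ∧ f ∈ ω.1)) ≤
        d.E (fun ω => I (({e, f} : Finset (Finset V)) ⊆ ω.2) + I (e ∈ ω.1 ∧ e ∉ ω.2) +
          I (f ∈ ω.1 ∧ f ∉ ω.2)) := by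
      refine Ex_mono h.pnn fun ω _ => ?_
      refine le_trans (I_mono (Q := (({e, f} : Finset (Finset V)) ⊆ ω.2 ∨ (e ∈ ω.1 ∧ e ∉ ω.2)) ∨
        (f ∈ ω.1 ∧ f ∉ ω.2)) fun hh => ?_)
        ((I_or_le _ _).trans (add_le_add (I_or_le _ _) le_rfl))
      simp only [Finset.insert_subset_iff, Finset.singleton_subset_iff]
      tauto
    have h9 := h.spec.upper {e, f} (by
      simp only [Finset.insert_subset_iff, Finset.singleton_subset_iff]; exact ⟨he, hf⟩)
      (Finset.card_le_two.trans (le_trans (by norm_num) h.good.l4))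
    have hKe : ¬ e.card ≤ d.K := by have := h.good.g9; omega
    rw [Finset.prod_pair hef, bw, bw, if_neg hK, if_neg hKe] at h9
    have h10 := h.spec.bad e he
    have h11 := h.spec.bad f hf
    have h12 : d.L / d.D * (d.L / d.D) ≤ tau * lam f / (d.D : ℝ) ^ 2 := by
      rw [div_mul_div_comm, ← sq, ← sq]
      exact div_le_div_of_nonneg_right (L_sq_le h hK) (by positivity)
    unfold Dat.E at *
    rw [Ex_add, Ex_add] at h8
    have h13 : 2 * d.θ / d.D = d.θ / d.D + d.θ / d.D := by ring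
    linarith

lemma part2 (h : d.Ok) {e : Finset V} (he : e ∈ d.B) (hj : 0.7 * d.D < (e.card : ℝ)) {v : V}
    (hv : v ∉ e) : d.E (fun ω => I (¬ d.free ω v ∧ e ∈ ω.1)) ≤ (d.pv v + 0.01) / d.D := by
  have hD := h.D_pos
  have h1 : d.E (fun ω => I (¬ d.free ω v ∧ e ∈ ω.1)) =
      ∑ f ∈ d.B.filter (fun f => v ∈ f), d.E (fun ω => I (e ∈ ω.1 ∧ f ∈ ω.1)) := by
    unfold Dat.E
    rw [← Ex_sum]
    refine Ex_congr fun ω hω => ?_
    rw [I_and, h.I_notfree hω, Finset.sum_mul]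
    exact Finset.sum_congr rfl fun f _ => by rw [I_and, mul_comm]
  rw [h1]
  refine le_trans (Finset.sum_le_sum fun f hf => pair_le h he (Finset.mem_filter.1 hf).1
    (fun h2 => hv (h2 ▸ (Finset.mem_filter.1 hf).2)) hj) ?_
  have h2 : ((d.B.filter (fun f => v ∈ f)).card : ℝ) = d.pv v * d.D := by
    unfold Dat.pv; field_simp
  have h3 := h.hyp.deg v
  have h4 := h.pv_lt_half v
  have h5 := h.pv_nonneg v
  have h6 := h.good.eta_le
  have h7 := h.good.th_le
  have h8 := h.good.th0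
  have h9 := h.good.eta0
  rw [Finset.sum_add_distrib, Finset.sum_add_distrib, Finset.sum_const, Finset.sum_const,
    nsmul_eq_mul, nsmul_eq_mul, h2, ← Finset.sum_div, ← Finset.mul_sum, le_div_iff₀ hD]
  set S := ∑ f ∈ d.B.filter (fun f => v ∈ f), lam f
  have e1 : (d.pv v * d.D * ((1 + d.η) / (d.D : ℝ) ^ 2) + tau * S / (d.D : ℝ) ^ 2 +
      d.pv v * d.D * (2 * d.θ / d.D)) * d.D =
      d.pv v * (1 + d.η) + tau * (S / d.D) + 2 * d.pv v * (d.θ * d.D) := by field_simp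
  have e2 : S / d.D ≤ 1 := by rw [div_le_one hD]; linarith
  have e3 : 0 ≤ d.θ * d.D := by positivity
  rw [e1]
  unfold tau at *
  nlinarith

end LD

theorem d1 (h1 : StTail) : StD1 := fun _ _ _ _ h _ he _ hW hj =>
  ⟨LD.part1 h1 h he hW hj, fun _ hv => LD.part2 h he
    (hj.trans_le (by exact_mod_cast Finset.card_le_card hW)) hv⟩

namespace LD

variable {V : Type} [Fintype V] [DecidableEq V] {d : Dat V}

lemma A_ge (h : d.Ok) {e : Finset V} (he : e ∈ d.B) (hj : 0.7 * d.D < (e.card : ℝ)) {w : V}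
    (hw : w ∈ e) : 0.69 ≤ d.A w := by
  have h1 := other_le h he hw
  have h2 : 0 ≤ ∑ f ∈ (d.B.filter (fun f => f ≠ e)).filter (fun f => w ∈ f), lam f :=
    Finset.sum_nonneg fun f hf => by
      linarith [h.hyp.two_le_lam (Finset.mem_filter.1 (Finset.mem_filter.1 hf).1).1]
  have hD1 := one_le_D h
  unfold Dat.A
  rw [le_div_iff₀ h.D_pos]
  linarith

lemma heavy (h : d.Ok) {w : V} (hw : 0.69 ≤ d.A w) : ¬ d.light w ∧ 3.2 ≤ d.CC w := by
  refine ⟨by unfold Dat.light eps; push Not; linarith, le_min (by norm_num) ?_⟩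
  have h1 := h.A_lt_one w
  have h2 : 3.22 ≤ d.al w := by
    rw [h.al_eq, le_div_iff₀ (by linarith)]; linarith
  unfold kp; linarith

/-- if the giant edge contains D - 1 neighbours of u then u is static -/
lemma static (h : d.Ok) {e : Finset V} (he : e ∈ d.B) {u : V} (hs : d.nb u ⊆ e)
    (hc : ((d.nb u).card : ℝ) = d.D - 1) : d.ST u := by
  have hD := h.D_pos
  have hD1 := one_le_D h
  have hec : (d.D : ℝ) - 1 ≤ e.card := by
    rw [← hc]; exact_mod_cast Finset.card_le_card hs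
  have hA : d.A u = 0 := by unfold Dat.A; rw [hc]; simp
  have hp : d.pv u = 0 := le_antisymm (by linarith [h.two_pv_le u]) (h.pv_nonneg u)
  have hL : d.nL u = ∅ := Finset.filter_eq_empty_iff.2 fun w hw =>
    (heavy h (A_ge h he (by linarith) (hs hw))).1
  have hn : ∀ w ∈ d.nb u, d.nn u w ≤ d.D / (d.D - 1) := fun w hw => by
    have h1 := other_le h he (hs hw)
    have h2 : (1 : ℝ) ≤ (d.nb w).card := by
      exact_mod_cast Finset.card_pos.2 ⟨u, h.symm u w hw⟩
    have h3 : d.B.filter (fun f => w ∈ f) ⊆ {e} := fun f hf => by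
      by_contra h4
      have h5 := Finset.single_le_sum (f := lam)
        (s := (d.B.filter (fun f => f ≠ e)).filter (fun f => w ∈ f))
        (fun f hf => by
          linarith [h.hyp.two_le_lam (Finset.mem_filter.1 (Finset.mem_filter.1 hf).1).1])
        (Finset.mem_filter.2 ⟨Finset.mem_filter.2 ⟨(Finset.mem_filter.1 hf).1,
          fun h6 => h4 (Finset.mem_singleton.2 h6)⟩, (Finset.mem_filter.1 hf).2⟩)
      linarith [h.hyp.two_le_lam (Finset.mem_filter.1 hf).1]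
    have h4 : d.pv w ≤ 1 / d.D := by
      refine div_le_div_of_nonneg_right ?_ hD.le
      exact_mod_cast (Finset.card_le_card h3).trans_eq (Finset.card_singleton e)
    refine (h.nn_le u w).trans ?_
    have h5 := h.pv_lt_half w
    rw [hp, div_le_div_iff₀ (by linarith) (by linarith)]
    rw [le_div_iff₀ hD] at h4
    linarith
  have h6 := Finset.sum_le_card_nsmul _ _ _ hn
  rw [nsmul_eq_mul, hc, mul_div_cancel₀ _ (by linarith)] at h6
  unfold Dat.ST
  rw [hL]
  simpa using h6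

/-- lower values for the neighbours outside the giant edge -/
noncomputable def ch (d : Dat V) (u w : V) : ℝ :=
  if d.light w then 1 else 1 / ((1 - d.pv u) * (1 - d.pv w))

lemma ch_facts (h : d.Ok) {u : V} (hu : d.A u ≤ del) (w : V) :
    0 ≤ ch d u w ∧ ch d u w ≤ d.chi u w ∧ ch d u w ≤ 2.1 ∧
      1 / (1 - d.pv u) - 0.001 ≤ ch d u w * (1 - d.pv w) := by
  have hl := Dat.light_of_poor hu
  have h1 := h.inv_poor hu
  have h2 := h.two_pv_le u
  have h3 := h.two_pv_le w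
  have h4 := h.pv_lt_half w
  have h5 := h.pv_nonneg w
  have h6 := h.pv_nonneg u
  unfold ch
  split_ifs with hw
  · have h7 : d.A w ≤ eps := hw
    unfold eps at h7; unfold del at h1
    exact ⟨zero_le_one, (h.chi_light hl hw).1, by norm_num, by linarith⟩
  · unfold del at hu
    have h7 : 0 < 1 - d.pv u := by linarith
    have h8 : 0 < 1 - d.pv w := by linarith
    refine ⟨by positivity, ?_, ?_, ?_⟩
    · unfold Dat.chi
      rw [if_neg hw]
      refine le_trans ?_ (h.cb_le_CC hw (Dat.A_le_of_heavy hl hw))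
      exact div_le_div_of_nonneg_right (le_add_of_nonneg_right (by positivity)) (by positivity)
    · rw [div_le_iff₀ (by positivity)]; nlinarith
    · have : 1 / ((1 - d.pv u) * (1 - d.pv w)) * (1 - d.pv w) = 1 / (1 - d.pv u) := by field_simp
      rw [this]; linarith

lemma ptw {D j m a o g Q S Y N X β T U : ℝ} {Fr M : Prop} (hD : 10 ^ 10 ≤ D) (hj : 0.7 * D < j)
    (hsum : a + o + m + j = D - 1) (ha0 : 0 ≤ a) (ha1 : a ≤ del * D) (ho0 : 0 ≤ o)
    (hg0 : 1 ≤ g) (hg2 : g ≤ 1 + a) (hQ1 : j + m ≤ Q) (hQ2 : Q ≤ (j + m) * 1.01) (h3 : 0 ≤ S)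
    (h4 : S ≤ m * 2.1) (h9 : 0 ≤ T) (h2 : 3.2 * T + S - Q ≤ Y) (h5 : N ≤ rho) (h6 : -0.21 ≤ N)
    (h7 : -0.21 ≤ X) (h8 : β ≤ 5) (hc : ¬ M → j ≤ T + U) :
    (g + 0.49 * o) * I Fr - I Fr * N - ((g + 0.49 * o + 0.42 + Q) * I M - I M * S) -
      3 * D * I (0.3 * j ≤ U) ≤
      I Fr * min (g + 0.49 * o - N) (min (Y + X) (Y / 2 + (1 - β) / 2 + o / 2)) := by
  have h11 : 0 ≤ 3 * D * I (0.3 * j ≤ U) := mul_nonneg (by linarith) (I_nonneg _)
  unfold del at ha1
  unfold rho at h5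
  have hlow : S - Q - 0.21 ≤
      min (g + 0.49 * o - N) (min (Y + X) (Y / 2 + (1 - β) / 2 + o / 2)) :=
    le_min (by linarith) (le_min (by linarith) (by linarith))
  by_cases hf : Fr
  · rw [I_pos hf]
    by_cases hm : M
    · rw [I_pos hm]; linarith
    · rw [I_neg hm]
      by_cases hbad : 0.3 * j ≤ U
      · rw [I_pos hbad]; linarith
      · rw [I_neg hbad]
        have h12 := hc hm
        have h13 := not_le.1 hbad
        have : g + 0.49 * o - N ≤
            min (g + 0.49 * o - N) (min (Y + X) (Y / 2 + (1 - β) / 2 + o / 2)) :=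
          le_min le_rfl (le_min (by linarith) (by linarith))
        linarith
  · rw [I_neg hf]
    by_cases hm : M
    · rw [I_pos hm]; linarith
    · rw [I_neg hm]; linarith

lemma total {D j m A o g q p : ℝ} (hD : 10 ^ 10 ≤ D) (hj : 0.7 * D < j) (hr : j ≤ D - 2)
    (hsum : D * A + o + m + j = D - 1) (hA0 : 0 ≤ A) (hA1 : A ≤ del) (ho0 : 0 ≤ o)
    (hg1 : 1 + kap * (D * A) / 2 ≤ g) (hq3 : q ≤ 1 + A) (hp1 : 2 * p ≤ A) :
    0 ≤ (g + 0.49 * o) * (1 - p) - (g + 0.49 * o + 0.42 + (j + m) * q) * (1 / D) +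
      m * ((q - 0.022) / D) - 0.01 / D := by
  have hD0 : 0 < D := by linarith
  have ha0 : 0 ≤ D * A := by positivity
  have ha1 : D * A ≤ D * del := mul_le_mul_of_nonneg_left hA1 hD0.le
  have k1 : j * q ≤ j + D * A := by
    have : j * q ≤ j * (1 + A) := mul_le_mul_of_nonneg_left hq3 (by linarith)
    have : j * A ≤ D * A := mul_le_mul_of_nonneg_right (by linarith) hA0
    linarith
  have k2 : D - 1 - D * A / 2 ≤ (1 - p) * D - 1 := by
    have : D * (2 * p) ≤ D * A := mul_le_mul_of_nonneg_left hp1 hD0.le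
    linarith
  generalize D * A = a at *
  unfold del at ha1
  unfold kap at hg1
  have k3 : (1 + 1 / 10 ^ 4 * a / 2) * (D - 1 - a / 2) ≤ (g + 0.49 * o) * ((1 - p) * D - 1) :=
    mul_le_mul (by linarith) k2 (by linarith) (by linarith)
  have k4 : a * 30000 ≤ a * (D - 1 - a / 2) := mul_le_mul_of_nonneg_left (by linarith) ha0
  have e1 : (g + 0.49 * o) * (1 - p) - (g + 0.49 * o + 0.42 + (j + m) * q) * (1 / D) +
      m * ((q - 0.022) / D) - 0.01 / D = ((g + 0.49 * o) * (1 - p) * D -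
        (g + 0.49 * o + 0.42 + (j + m) * q) + m * (q - 0.022) - 0.01) / D := by field_simp
  rw [e1]
  exact div_nonneg (by linarith) hD0.le

lemma main (h1 : StD1) (h : d.Ok) {u : V} {W : Finset V} (hu : d.A u ≤ del) (hW : W ⊆ d.nb u)
    {e : Finset V} (he : e ∈ d.B) (hj : 0.7 * d.D < ((e ∩ W).card : ℝ))
    (hr : ((e ∩ W).card : ℝ) ≤ d.D - 2) :
    0 ≤ d.E (fun ω => I (d.free ω u) * d.core u W ω) := by
  have hD := h.D_pos
  have hD1 := one_le_D h
  have hl := Dat.light_of_poor hu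
  obtain ⟨hb, hc⟩ := h1 V d h e he (e ∩ W) Finset.inter_subset_left hj
  have hec : 0.7 * d.D < (e.card : ℝ) :=
    hj.trans_le (by exact_mod_cast Finset.card_le_card Finset.inter_subset_left)
  set j : ℝ := ((e ∩ W).card : ℝ) with hjd
  set m : ℝ := ((W \ e).card : ℝ) with hmd
  set a : ℝ := d.D * d.A u with had
  set o : ℝ := d.out u W with hod
  set q : ℝ := 1 / (1 - d.pv u) with hqd
  have hm0 : 0 ≤ m := by positivity
  have ho0 : 0 ≤ o := by rw [hod]; unfold Dat.out; positivity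
  have ha0 : 0 ≤ a := mul_nonneg hD.le (h.A_nonneg u)
  have ha1 : a ≤ del * d.D := by rw [had, mul_comm]; exact mul_le_mul_of_nonneg_right hu hD.le
  have hWc : (W.card : ℝ) = j + m := by
    rw [hjd, hmd, Finset.inter_comm]; exact_mod_cast (Finset.card_inter_add_card_sdiff W e).symm
  have hnb : ((d.nb u).card : ℝ) = o + (j + m) := by
    rw [← hWc, hod]; unfold Dat.out
    exact_mod_cast (Finset.card_sdiff_add_card_eq_card hW).symm
  have hnb2 := h.card_nb u
  have hsum : a + o + m + j = d.D - 1 := by rw [had]; linarith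
  have hq1 : 1 ≤ q := h.one_le_inv u
  have hq2 : q ≤ 1 + del := h.inv_poor hu
  have hp0 := h.pv_nonneg u
  have hp1 := h.two_pv_le u
  have hp2 := h.pv_lt_half u
  have hq3 : q ≤ 1 + d.A u := by
    rw [hqd, div_le_iff₀ (by linarith)]; nlinarith
  have hg1 := h.gam_ge u
  have hg0 := h.one_le_gam u
  have hg2 : d.gam u ≤ 1 + a := by
    have h2 : 0 ≤ ((d.nL u).card : ℝ) * d.eb u := mul_nonneg (by positivity) (h.eb_nonneg u)
    have h3 : ((d.nb u).card : ℝ) ≤ ((d.nb u).card : ℝ) / (1 - d.pv u) := by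
      rw [le_div_iff₀ (by linarith)]
      have : (0 : ℝ) ≤ (d.nb u).card := by positivity
      nlinarith
    unfold Dat.gam; linarith
  set S : Om V → ℝ := fun ω => ∑ w ∈ W \ e, ch d u w * I (d.free ω w) with hS
  have hS0 : ∀ ω, 0 ≤ S ω := fun ω => Finset.sum_nonneg fun w _ =>
    mul_nonneg (ch_facts h hu w).1 (I_nonneg _)
  have hS1 : ∀ ω, S ω ≤ m * 2.1 := fun ω => by
    rw [hmd, ← nsmul_eq_mul]
    exact Finset.sum_le_card_nsmul _ _ _ fun w _ =>
      (mul_le_of_le_one_right (ch_facts h hu w).1 (I_le_one _)).trans (ch_facts h hu w).2.2.1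
  have hY : ∀ ω, 3.2 * ∑ w ∈ e ∩ W, I (d.free ω w) + S ω - (j + m) * q ≤
      d.YY u W (d.chi u) ω := fun ω => by
    unfold Dat.YY
    rw [Finset.sum_sub_distrib, Finset.sum_const, nsmul_eq_mul, hWc,
      ← Finset.sum_inter_add_sum_sdiff W e, Finset.inter_comm W e, Finset.mul_sum]
    refine sub_le_sub_right (add_le_add (Finset.sum_le_sum fun w hw => ?_)
      (Finset.sum_le_sum fun w _ =>
        mul_le_mul_of_nonneg_right (ch_facts h hu w).2.1 (I_nonneg _))) _
    have h2 := heavy h (A_ge h he hec (Finset.mem_inter.1 hw).1)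
    unfold Dat.chi
    rw [if_neg h2.1]
    exact mul_le_mul_of_nonneg_right h2.2 (I_nonneg _)
  have hjq1 : j + m ≤ (j + m) * q := le_mul_of_one_le_right (by linarith) hq1
  have hjq2 : (j + m) * q ≤ (j + m) * 1.01 :=
    mul_le_mul_of_nonneg_left (by unfold del at hq2; linarith) (by linarith)
  set c : ℝ := d.gam u + 0.49 * o with hcd
  have hpt : ∀ ω, c * I (d.free ω u) - I (d.free ω u) * d.noise u ω -
      ((c + 0.42 + (j + m) * q) * I (e ∈ ω.1) - I (e ∈ ω.1) * S ω) -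
      3 * d.D * I (0.3 * j ≤ ∑ w ∈ e ∩ W, I (∃ f ∈ ω.1, w ∈ f ∧ f ≠ e)) ≤
      I (d.free ω u) * d.core u W ω := fun ω => by
    refine ptw hD1 hj hsum ha0 ha1 ho0 hg0 hg2 hjq1 hjq2 (hS0 ω) (hS1 ω)
      (Finset.sum_nonneg fun w _ => I_nonneg _) (hY ω) (h.noise_le hl ω) (h.noise_ge hl ω)
      (h.Xi_ge hW ω) (h.beta_le_five u) fun hm => ?_
    rw [← Finset.sum_add_distrib, hjd, Finset.card_eq_sum_ones]
    push_cast
    refine Finset.sum_le_sum fun w _ => le_trans ?_ (I_or_le _ _)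
    refine (I_pos ?_).ge
    by_cases h13 : d.free ω w
    · exact Or.inl h13
    · obtain ⟨f, h14, h15⟩ := not_not.1 h13
      exact Or.inr ⟨f, h14, h15, fun h16 => hm (h16 ▸ h14)⟩
  have hE1 : d.E (fun ω => I (e ∈ ω.1)) = 1 / d.D := h.spec.marg e he
  have hE2 : m * ((q - 0.022) / d.D) ≤ d.E (fun ω => I (e ∈ ω.1) * S ω) := by
    rw [hmd, ← nsmul_eq_mul]
    simp only [hS, Finset.mul_sum]
    unfold Dat.E
    rw [Ex_sum]
    refine Finset.card_nsmul_le_sum _ _ _ fun w hw => ?_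
    have h2 := hc w (Finset.mem_sdiff.1 hw).2
    obtain ⟨h3, -, h4, h5⟩ := ch_facts h hu w
    have h6 : ∀ ω : Om V, I (e ∈ ω.1) * (ch d u w * I (d.free ω w)) =
        ch d u w * (I (e ∈ ω.1) - I (¬ d.free ω w ∧ e ∈ ω.1)) := fun ω => by
      rw [I_and, I_not]; ring
    simp only [h6]
    unfold Dat.E at h2 hE1
    rw [Ex_const_mul, Ex_sub, hE1]
    refine le_trans ?_ (mul_le_mul_of_nonneg_left (sub_le_sub_left h2 _) h3)
    rw [← sub_div, ← mul_div_assoc]
    exact div_le_div_of_nonneg_right (by linarith only [h4, h5, hqd]) hD.le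
  have hE3 := h.E_free u
  have hE4 := h.E_noise hl
  refine le_trans ?_ (Ex_mono h.pnn fun ω _ => hpt ω)
  unfold Dat.E at *
  rw [Ex_sub, Ex_sub, Ex_sub, Ex_sub, Ex_const_mul, Ex_const_mul, Ex_const_mul, hE1, hE3, hE4]
  have hb2 : 3 * d.D * Ex d.p (fun ω =>
      I (0.3 * j ≤ ∑ w ∈ e ∩ W, I (∃ f ∈ ω.1, w ∈ f ∧ f ≠ e))) ≤ 0.01 / d.D := by
    refine (mul_le_mul_of_nonneg_left hb (by positivity)).trans ?_
    have : 3 * d.D * (tau1 / (d.D : ℝ) ^ 2) = 3 * tau1 / d.D := by field_simp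
    rw [this]
    exact div_le_div_of_nonneg_right (by unfold tau1; norm_num) hD.le
  have key := total hD1 hj hr hsum (h.A_nonneg u) hu ho0 hg1 hq3 hp1
  rw [← hcd] at key
  linarith only [key, hb2, hE2]

end LD

theorem std (h1 : StD1) (h2 : StCore) : StD := by
  intro V _ _ d h u W hu hs hW ⟨e, he, hj⟩
  refine h2 V d h u W (Dat.light_of_poor hu) hW (LD.main h1 h hu hW he hj ?_)
  by_contra hr
  have h3 : d.D ≤ (e ∩ W).card + 1 := by
    have : (d.D : ℝ) < ((e ∩ W).card : ℝ) + 2 := by linarith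
    have : d.D < (e ∩ W).card + 2 := by exact_mod_cast this
    omega
  have h4 : (d.D : ℝ) ≤ ((e ∩ W).card : ℝ) + 1 := by exact_mod_cast h3
  have h5 := h.card_nb_le u
  have h6 : e ∩ W ⊆ d.nb u := Finset.inter_subset_right.trans hW
  have h7 : e ∩ W = d.nb u := Finset.eq_of_subset_of_card_le h6 (by
    have : ((d.nb u).card : ℝ) ≤ (e ∩ W).card := by linarith
    exact_mod_cast this)
  refine hs (LD.static h he (h7 ▸ Finset.inter_subset_left) (le_antisymm h5 ?_))
  rw [← h7]; linarith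

end Pool.Agent.P.MP_553766_co.Lg
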