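import Mathlib
import Pool.Agent.P.MP_553766_co.LSt1

set_option autoImplicit false

/-! A sufficient condition for the matching polytope of a graph. -/

namespace Pool.Agent.P.MP_553766_co.Lg

open Finset Pool.Agent.P.MP_553766_co

namespace LEdm

variable {V : Type} [DecidableEq V]

variable {E : Finset (Finset V)} {y : Finset V → ℝ} {ν : ℝ}

/-- two points on one edge -/
def Adj (E : Finset (Finset V)) (u v : V) : Prop := ∃ e ∈ E, u ∈ e ∧ v ∈ e

omit [DecidableEq V] in
lemma Adj.symm' {u v : V} (h : Adj E u v) : Adj E v u := by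
  obtain ⟨e, he, h1, h2⟩ := h
  exact ⟨e, he, h2, h1⟩

omit [DecidableEq V] in
lemma walk_symm {u v : V} (h : Relation.ReflTransGen (Adj E) u v) :
    Relation.ReflTransGen (Adj E) v u := by
  induction h with
  | refl => exact Relation.ReflTransGen.refl
  | tail _ hbc ih => exact Relation.ReflTransGen.head hbc.symm' ih

lemma adj_free (h2 : ∀ e ∈ E, e.card = 2) {M : Finset (Finset V)} (h : Opt E y ν M) {u v : V}
    (ha : Adj E u v) (hu : ¬ Cov M u) (hv : ¬ Cov M v) : u = v := by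
  by_contra hne
  obtain ⟨e, he, hu', hv'⟩ := ha
  have k := erase_pair (h2 e he) hu' (Finset.mem_erase.2 ⟨Ne.symm hne, hv'⟩)
  obtain ⟨g, hg, hd⟩ := h.maximal he
  obtain ⟨x, hx1, hx2⟩ := Finset.not_disjoint_iff.1 hd
  rw [k] at hx2
  rcases Finset.mem_insert.1 hx2 with rfl | hx
  · exact hu ⟨g, hg, hx1⟩
  · rw [Finset.mem_singleton.1 hx] at hx1
    exact hv ⟨g, hg, hx1⟩

/-- An optimal matching misses at most one point of a component. -/
lemma gallai (h2 : ∀ e ∈ E, e.card = 2)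
    (hmiss : ∀ e ∈ E, ∀ t ∈ e, ∃ M', Opt E y ν M' ∧ ¬ Cov M' t) {u v : V}
    (huv : Relation.ReflTransGen (Adj E) u v) :
    ∀ M, Opt E y ν M → ¬ Cov M u → ¬ Cov M v → u = v := by
  induction huv using Relation.ReflTransGen.head_induction_on with
  | refl => intros; rfl
  | @head u t hut _ ih =>
    intro M h hu hv
    by_contra hne
    by_cases ht : Cov M t
    · obtain ⟨e0, he0, hte0⟩ := ht
      obtain ⟨M', h', ht'⟩ := hmiss e0 (h.isM.1 he0) t hte0
      have hD : e0 ∈ DD M M' := mem_DD.2 (Or.inl ⟨he0, fun hc => ht' ⟨e0, hc, hte0⟩⟩)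
      have hN := h.swap h' (comp_closed (M := M) (M' := M') e0)
      have hNt : ¬ Cov (M \ comp M M' e0 ∪ M' ∩ comp M M' e0) t := by
        rintro ⟨g, hg, htg⟩
        rcases Finset.mem_union.1 hg with hg | hg
        · obtain ⟨k1, k2⟩ := Finset.mem_sdiff.1 hg
          exact k2 (h.isM.eq_of_mem he0 k1 hte0 htg ▸ self_mem_comp hD)
        · exact ht' ⟨g, (Finset.mem_inter.1 hg).1, htg⟩
      have hL : ∀ w, ¬ Cov M w → Cov (M \ comp M M' e0 ∪ M' ∩ comp M M' e0) w →
          w ∈ (comp M M' e0).biUnion (lv M M') := by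
        rintro w hw ⟨g, hg, hwg⟩
        rcases Finset.mem_union.1 hg with hg | hg
        · exact absurd ⟨g, (Finset.mem_sdiff.1 hg).1, hwg⟩ hw
        · exact Finset.mem_biUnion.2 ⟨g, (Finset.mem_inter.1 hg).2,
            Finset.mem_filter.2 ⟨hwg, fun hc => hw hc.1⟩⟩
      have htu : t ≠ u := fun hc => hu (hc ▸ ⟨e0, he0, hte0⟩)
      have htv : t ≠ v := fun hc => hv (hc ▸ ⟨e0, he0, hte0⟩)
      have k1 := hL v hv (by
        by_contra hc
        exact htv (ih _ hN hNt hc))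
      have k2 := hL u hu (by
        by_contra hc
        exact htu (adj_free h2 hN hut hc hNt).symm)
      have k3 : t ∈ (comp M M' e0).biUnion (lv M M') := Finset.mem_biUnion.2
        ⟨e0, self_mem_comp hD, Finset.mem_filter.2 ⟨hte0, fun hc => ht' hc.2⟩⟩
      have hle := leaves_le (fun e he => (h2 e he).le) h h' hD
      have k5 : ({t, u, v} : Finset V) ⊆ (comp M M' e0).biUnion (lv M M') :=
        Finset.insert_subset k3 (Finset.insert_subset k2 (Finset.singleton_subset_iff.2 k1))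
      have k6 := Finset.card_le_card k5
      rw [Finset.card_eq_three.2 ⟨t, u, v, htu, htv, hne, rfl⟩] at k6
      omega
    · have k := ih M h ht hv
      subst k
      exact hne (adj_free h2 h hut hu hv)

lemma core [Fintype V] {Ω : Type} [Fintype Ω] (E : Finset (Finset V)) (h2 : ∀ e ∈ E, e.card = 2)
    (hE : E.Nonempty) (z : Finset V → ℝ) (lam : ℝ) (hlam : lam < 1) (hz : ∀ e ∈ E, 0 < z e)
    (hpt : ∀ v, ∑ e ∈ E.filter (fun e => v ∈ e), z e ≤ 1)
    (hodd : ∀ U : Finset V, U.Nonempty →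
      2 * ∑ e ∈ E.filter (fun e => e ⊆ U), z e ≤ (U.card : ℝ) - 1)
    (y : Finset V → ℝ) (ν : ℝ) (p : Ω → ℝ) (hp0 : ∀ ω, 0 ≤ p ω) (hp : ∑ ω, p ω = 1)
    (M : Ω → Finset (Finset V)) (hM : ∀ ω, p ω ≠ 0 → Opt E y ν (M ω))
    (hmarg : ∀ e ∈ E, ∑ ω, p ω * ind (M ω) e = lam * z e) : False := by
  classical
  have hcv : ∀ v, ∑ ω, p ω * cv E (ind (M ω)) v =
      lam * ∑ f ∈ E.filter (fun f => v ∈ f), z f := by
    intro v
    have h1 := aff_cv (E := E) (p := p) (X := fun ω => ind (M ω)) v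
    unfold Aff at h1
    beta_reduce at h1
    rw [h1, Finset.mul_sum]
    exact Finset.sum_congr rfl fun e he => hmarg e (Finset.mem_filter.1 he).1
  have hmiss : ∀ e ∈ E, ∀ t ∈ e, ∃ M', Opt E y ν M' ∧ ¬ Cov M' t := by
    intro e _ t _
    by_contra hc
    push Not at hc
    have k1 : ∑ ω, p ω * cv E (ind (M ω)) t = 1 := by
      rw [← hp]
      refine Finset.sum_congr rfl fun ω _ => ?_
      by_cases h : p ω = 0
      · simp [h]
      · rw [cv_ind (hM ω h).isM, if_pos (hc _ (hM ω h)), mul_one]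
    rw [hcv] at k1
    have k2 := hpt t
    have k3 : 0 ≤ ∑ f ∈ E.filter (fun f => t ∈ f), z f :=
      Finset.sum_nonneg fun f hf => (hz f (Finset.mem_filter.1 hf).1).le
    rcases k3.eq_or_lt with k4 | k4
    · rw [← k4] at k1
      norm_num at k1
    · nlinarith
  obtain ⟨e0, he0⟩ := hE
  obtain ⟨u0, hu0⟩ : e0.Nonempty := Finset.card_pos.1 (by rw [h2 e0 he0]; norm_num)
  set U : Finset V := Finset.univ.filter (fun v => Relation.ReflTransGen (Adj E) u0 v) with hU
  have hUm : ∀ v, v ∈ U ↔ Relation.ReflTransGen (Adj E) u0 v := fun v => by simp [hU]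
  have hu0U : u0 ∈ U := (hUm u0).2 Relation.ReflTransGen.refl
  have hcl : ∀ e ∈ E, ∀ v ∈ e, v ∈ U → e ⊆ U := fun e he v hv hvU w hw =>
    (hUm w).2 (((hUm v).1 hvU).tail ⟨e, he, hv, hw⟩)
  have k1 : ∀ ω, p ω ≠ 0 → (U.card : ℝ) - 1 ≤ ∑ v ∈ U, cv E (ind (M ω)) v := by
    intro ω h
    have a1 : (U.filter (fun v => ¬ Cov (M ω) v)).card ≤ 1 := by
      refine Finset.card_le_one.2 fun v hv w hw => ?_
      obtain ⟨b1, b2⟩ := Finset.mem_filter.1 hv
      obtain ⟨b3, b4⟩ := Finset.mem_filter.1 hw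
      exact gallai h2 hmiss ((walk_symm ((hUm v).1 b1)).trans ((hUm w).1 b3)) _ (hM ω h) b2 b4
    have a2 := Finset.card_filter_add_card_filter_not (s := U) (fun v => Cov (M ω) v)
    simp only [cv_ind (hM ω h).isM]
    rw [Finset.sum_boole]
    have a3 : U.card ≤ (U.filter (fun v => Cov (M ω) v)).card + 1 := by omega
    have a4 : (U.card : ℝ) ≤ (U.filter (fun v => Cov (M ω) v)).card + 1 := by exact_mod_cast a3
    linarith
  have k2 : (U.card : ℝ) - 1 ≤ ∑ ω, p ω * ∑ v ∈ U, cv E (ind (M ω)) v := by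
    calc (U.card : ℝ) - 1 = ∑ ω, p ω * ((U.card : ℝ) - 1) := by
          rw [← Finset.sum_mul, hp, one_mul]
      _ ≤ _ := by
          refine Finset.sum_le_sum fun ω _ => ?_
          by_cases h : p ω = 0
          · simp [h]
          · exact mul_le_mul_of_nonneg_left (k1 ω h) (hp0 ω)
  have k3 : ∑ ω, p ω * ∑ v ∈ U, cv E (ind (M ω)) v =
      lam * ∑ v ∈ U, ∑ f ∈ E.filter (fun f => v ∈ f), z f := by
    simp only [Finset.mul_sum (s := U)]
    rw [Finset.sum_comm]
    exact Finset.sum_congr rfl fun v _ => hcv v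
  have k4 : ∑ v ∈ U, ∑ f ∈ E.filter (fun f => v ∈ f), z f =
      2 * ∑ e ∈ E.filter (fun e => e ⊆ U), z e := by
    simp only [Finset.sum_filter]
    rw [Finset.sum_comm, Finset.mul_sum]
    refine Finset.sum_congr rfl fun e he => ?_
    rw [← Finset.sum_filter, Finset.sum_const, nsmul_eq_mul]
    split_ifs with hs
    · have : U.filter (fun v => v ∈ e) = e := by
        ext v
        simp only [Finset.mem_filter]
        exact ⟨fun h => h.2, fun h => ⟨hs h, h⟩⟩
      rw [this, h2 e he]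
      norm_num
    · have : U.filter (fun v => v ∈ e) = ∅ := by
        refine Finset.eq_empty_of_forall_notMem fun v hv => ?_
        obtain ⟨b1, b2⟩ := Finset.mem_filter.1 hv
        exact hs (hcl e he v b2 b1)
      rw [this]
      simp
  have k5 : 0 < ∑ e ∈ E.filter (fun e => e ⊆ U), z e :=
    Finset.sum_pos (fun e he => hz e (Finset.mem_filter.1 he).1)
      ⟨e0, Finset.mem_filter.2 ⟨he0, hcl e0 he0 u0 hu0 hu0U⟩⟩
  have k6 := hodd U ⟨u0, hu0U⟩
  rw [k3, k4] at k2
  nlinarith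

lemma pos_case [Fintype V] (E : Finset (Finset V)) (h2 : ∀ e ∈ E, e.card = 2)
    (a : Finset V → ℝ) (ha0 : ∀ e ∈ E, 0 < a e)
    (hpt : ∀ v, ∑ e ∈ E.filter (fun e => v ∈ e), a e ≤ 1)
    (hodd : ∀ U : Finset V, U.Nonempty →
      2 * ∑ e ∈ E.filter (fun e => e ⊆ U), a e ≤ (U.card : ℝ) - 1) :
    ∃ p, Dist E p ∧ ∀ e ∈ E, a e ≤ ∑ M, p M * ind M e := by
  classical
  have hne : ∀ e ∈ E, e.Nonempty := fun e he => Finset.card_pos.1 (by rw [h2 e he]; norm_num)
  rcases Finset.eq_empty_or_nonempty E with rfl | hE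
  · refine ⟨fun M => if M = ∅ then 1 else 0,
      ⟨fun M => by split_ifs <;> norm_num, by simp, fun M hM => ?_⟩, by simp⟩
    have : M = ∅ := by
      by_contra hc
      exact hM (by simp [hc])
    simp [this, IsM]
  obtain ⟨y, p, ν, h1, h3, h4, h5, h6, h7, h8, h9, h10⟩ := game_fin E
    (Finset.univ.filter (fun M => IsM E M)) hE
    ⟨∅, Finset.mem_filter.2 ⟨Finset.mem_univ _, by simp [IsM]⟩⟩ (fun M e => ind M e / a e)
  have hdiv : ∀ e, ∑ M, p M * (ind M e / a e) = (∑ M, p M * ind M e) / a e := fun e => by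
    rw [Finset.sum_div]
    exact Finset.sum_congr rfl fun M _ => by ring
  by_cases hc : 1 ≤ ν
  · refine ⟨p, ⟨h4, h5, fun M hM => (Finset.mem_filter.1 (h6 M hM)).2⟩, fun e he => ?_⟩
    have := hc.trans (h9 e he)
    rwa [hdiv, le_div_iff₀ (ha0 e he), one_mul] at this
  exfalso
  push Not at hc
  have hw : ∀ N, N ⊆ E → ∑ e ∈ E, y e * (ind N e / a e) = ∑ e ∈ N, y e / a e := fun N hN => by
    rw [← Finset.sum_subset hN (fun e _ he => by simp [ind, he])]
    exact Finset.sum_congr rfl fun e he => by simp [ind, he, div_eq_mul_inv]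
  have hle : ∀ N, IsM E N → ∑ e ∈ N, y e / a e ≤ ν := fun N hN => by
    rw [← hw N hN.1]; exact h7 N (Finset.mem_filter.2 ⟨Finset.mem_univ _, hN⟩)
  obtain ⟨e0, he0, hy0⟩ : ∃ e ∈ E, 0 < y e := by
    by_contra hc
    push Not at hc
    have := Finset.sum_nonpos hc
    linarith
  set E' := E.filter (fun e => 0 < y e) with hE'
  have hsub : E' ⊆ E := Finset.filter_subset _ _
  have hopt : ∀ M, p M ≠ 0 → Opt E' (fun e => y e / a e) ν (M ∩ E') := fun M hM => by
    have hM' := (Finset.mem_filter.1 (h6 M hM)).2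
    refine ⟨fun e he => div_pos (Finset.mem_filter.1 he).2 (ha0 e (hsub he)),
      fun e he => hne e (hsub he),
      fun N hN => hle N ⟨hN.1.trans hsub, hN.2⟩, ⟨Finset.inter_subset_right, fun e he f hf =>
        hM'.2 e (Finset.mem_inter.1 he).1 f (Finset.mem_inter.1 hf).1⟩, ?_⟩
    rw [← h8 M hM, hw M hM'.1]
    refine Finset.sum_subset Finset.inter_subset_left fun e he hn => ?_
    have : y e = 0 := by
      by_contra h0
      exact hn (Finset.mem_inter.2 ⟨he, Finset.mem_filter.2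
        ⟨hM'.1 he, lt_of_le_of_ne (h1 e) (Ne.symm h0)⟩⟩)
    simp [this]
  refine core E' (fun e he => h2 e (hsub he)) ⟨e0, Finset.mem_filter.2 ⟨he0, hy0⟩⟩
    a ν hc (fun e he => ha0 e (hsub he)) (fun v => le_trans ?_ (hpt v))
    (fun U hU => le_trans ?_ (hodd U hU))
    (fun e => y e / a e) ν p h4 h5 (fun M => M ∩ E') hopt ?_
  · exact Finset.sum_le_sum_of_subset_of_nonneg (Finset.filter_subset_filter _ hsub)
      fun f hf _ => (ha0 f (Finset.mem_filter.1 hf).1).le
  · refine mul_le_mul_of_nonneg_left ?_ (by norm_num)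
    exact Finset.sum_le_sum_of_subset_of_nonneg (Finset.filter_subset_filter _ hsub)
      fun f hf _ => (ha0 f (Finset.mem_filter.1 hf).1).le
  · intro e he
    have k1 := h10 e (hsub he) (Finset.mem_filter.1 he).2.ne'
    rw [hdiv, div_eq_iff (ha0 e (hsub he)).ne'] at k1
    rw [← k1]
    exact Finset.sum_congr rfl fun M _ => by simp [ind, he]

end LEdm

theorem edm : StEdm := by
  intro V _ _ G z h2 hz hpt hodd
  classical
  have hsub : G.filter (fun e => 0 < z e) ⊆ G := Finset.filter_subset _ _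
  obtain ⟨p, hp, hm⟩ := LEdm.pos_case (G.filter (fun e => 0 < z e)) (fun e he => h2 e (hsub he)) z
    (fun e he => (Finset.mem_filter.1 he).2)
    (fun v => le_trans (Finset.sum_le_sum_of_subset_of_nonneg
      (Finset.filter_subset_filter _ hsub) fun f hf _ => hz f (Finset.mem_filter.1 hf).1) (hpt v))
    (fun U hU => le_trans (mul_le_mul_of_nonneg_left (Finset.sum_le_sum_of_subset_of_nonneg
      (Finset.filter_subset_filter _ hsub) fun f hf _ => hz f (Finset.mem_filter.1 hf).1)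
      (by norm_num)) (hodd U hU))
  refine ⟨p, ⟨hp.nonneg, hp.sum, fun M hM => ⟨(hp.supp M hM).1.trans hsub, (hp.supp M hM).2⟩⟩,
    fun e he => ?_⟩
  by_cases h0 : 0 < z e
  · exact hm e (Finset.mem_filter.2 ⟨he, h0⟩)
  · refine (not_lt.1 h0).trans (Finset.sum_nonneg fun M _ => mul_nonneg (hp.nonneg M) ?_)
    unfold ind
    split_ifs <;> norm_num

end Pool.Agent.P.MP_553766_co.Lg
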