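import Mathlib
import Pool.Agent.P.MP_553766_co.LSt3

set_option autoImplicit false
set_option linter.unusedSectionVars false

/-! The fractional colouring is put together. -/

namespace Pool.Agent.P.MP_553766_co.Lg

open Finset Pool.Agent.P.MP_553766_co

namespace LFin

variable {V : Type} [Fintype V] [DecidableEq V]

lemma pair_of_mem {e : Finset V} (h2 : e.card = 2) {u : V} (hu : u ∈ e) :
    ∃ y, y ≠ u ∧ e = {u, y} := by
  obtain ⟨a, b, hab, rfl⟩ := Finset.card_eq_two.1 h2
  rcases Finset.mem_insert.1 hu with rfl | hu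
  · exact ⟨b, hab.symm, rfl⟩
  · rw [Finset.mem_singleton.1 hu]
    exact ⟨a, hab, Finset.pair_comm a b⟩

lemma sum_star {E F : Finset (Finset V)} {nb : V → Finset V}
    (hnb : ∀ u w, w ∈ nb u ↔ w ≠ u ∧ ({u, w} : Finset V) ∈ E) (hF : F ⊆ E)
    (h2 : ∀ e ∈ F, e.card = 2) (u : V) (φ : Finset V → ℝ) :
    ∑ e ∈ F.filter (fun e => u ∈ e), φ e =
      ∑ y ∈ (nb u).filter (fun y => ({u, y} : Finset V) ∈ F), φ {u, y} := by
  symm
  refine Finset.sum_bij (fun y _ => ({u, y} : Finset V)) (fun y hy => ?_) (fun y hy y' hy' h => ?_)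
    (fun e he => ?_) fun _ _ => rfl
  · exact Finset.mem_filter.2 ⟨(Finset.mem_filter.1 hy).2, by simp⟩
  · have h1 : y ∈ ({u, y'} : Finset V) := h ▸ by simp
    have h3 := ((hnb u y).1 (Finset.mem_filter.1 hy).1).1
    simpa [h3] using h1
  · obtain ⟨h1, h3⟩ := Finset.mem_filter.1 he
    obtain ⟨y, hy, rfl⟩ := pair_of_mem (h2 e h1) h3
    exact ⟨y, Finset.mem_filter.2 ⟨(hnb u y).2 ⟨hy, hF h1⟩, h1⟩, rfl⟩

/-- sum over the ordered pairs of points of an edge -/
noncomputable def sp (f : V → V → ℝ) (e : Finset V) : ℝ := ∑ u ∈ e, ∑ y ∈ e.erase u, f u y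

lemma sp_pair (f : V → V → ℝ) {u y : V} (h : y ≠ u) : sp f {u, y} = f u y + f y u := by
  have h1 : ({u, y} : Finset V).erase u = {y} := by
    rw [Finset.erase_insert (by simpa using h.symm)]
  have h2 : ({u, y} : Finset V).erase y = {u} := by
    rw [Finset.pair_comm, Finset.erase_insert (by simpa using h)]
  rw [sp, Finset.sum_pair h.symm, h1, h2, Finset.sum_singleton, Finset.sum_singleton]

lemma ind_nonneg (M : Finset (Finset V)) (e : Finset V) : 0 ≤ ind M e := by
  unfold ind; split_ifs <;> norm_num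

lemma ind_mono {M N : Finset (Finset V)} (h : M ⊆ N) (e : Finset V) : ind M e ≤ ind N e := by
  by_cases he : e ∈ M
  · simp [ind, he, h he]
  · simpa [ind, he] using ind_nonneg N e

variable {E : Finset (Finset V)} {d : Dat V} {z a : V → V → Om V → ℝ}

/-- the pairs of free points -/
noncomputable def G (E : Finset (Finset V)) (d : Dat V) (ω : Om V) : Finset (Finset V) :=
  E.filter (fun e => e.card = 2 ∧ ∀ v ∈ e, d.free ω v)

lemma zz_pair (h : d.Ok) (hz : d.ZGood z a) (ω : Om V) {u y : V} (hy : y ≠ u) :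
    sp (fun u y => z u y ω) {u, y} / (2 * d.D) = z u y ω / d.D := by
  have := h.D_pos
  rw [sp_pair _ hy, hz.symm y u]
  field_simp
  ring

lemma second (h1 : StEdm) (h : d.Ok)
    (hnb : ∀ u w, w ∈ d.nb u ↔ w ≠ u ∧ ({u, w} : Finset V) ∈ E) (hz : d.ZGood z a) (ω : Om V) :
    ∃ q, Dist (G E d ω) q ∧
      ∀ e ∈ G E d ω, sp (fun u y => z u y ω) e / (2 * d.D) ≤ ∑ M, q M * ind M e := by
  have hD := h.D_pos
  have hs : G E d ω ⊆ E := Finset.filter_subset _ _
  have h2 : ∀ e ∈ G E d ω, e.card = 2 := fun e he => (Finset.mem_filter.1 he).2.1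
  refine h1 V _ _ h2 (fun e he => ?_) (fun v => ?_) fun U hU => ?_
  · obtain ⟨u, y, hy, rfl⟩ := Finset.card_eq_two.1 (h2 e he)
    rw [zz_pair h hz ω hy.symm]
    exact div_nonneg (hz.nonneg u y ((hnb u y).2 ⟨hy.symm, hs he⟩) ω) hD.le
  · rw [sum_star hnb hs h2, Finset.sum_congr rfl fun y hy =>
      zz_pair h hz ω ((hnb v y).1 (Finset.mem_filter.1 hy).1).1, ← Finset.sum_div,
      div_le_one hD]
    exact (Finset.sum_le_sum_of_subset_of_nonneg (Finset.filter_subset _ _)
      fun y hy _ => hz.nonneg v y hy ω).trans (hz.load v ω)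
  · set F := (G E d ω).filter (fun e => e ⊆ U) with hF
    have hs' : F ⊆ E := (Finset.filter_subset _ _).trans hs
    have h2' : ∀ e ∈ F, e.card = 2 := fun e he => h2 e (Finset.mem_filter.1 he).1
    have hU0 : (0 : ℝ) < U.card := by exact_mod_cast hU.card_pos
    have k1 : ∑ e ∈ F, sp (fun u y => z u y ω) e ≤ ∑ e ∈ F, sp (fun u y => a u y ω) e := by
      refine Finset.sum_le_sum fun e he => ?_
      obtain ⟨u, y, hy, rfl⟩ := Finset.card_eq_two.1 (h2' e he)
      rw [sp_pair _ hy.symm, sp_pair _ hy.symm, hz.symm y u]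
      have := hz.edge u y ((hnb u y).2 ⟨hy.symm, hs' he⟩) ω
      linarith
    have k2 : ∑ e ∈ F, sp (fun u y => a u y ω) e =
        ∑ u ∈ U, ∑ e ∈ F.filter (fun e => u ∈ e), ∑ y ∈ e.erase u, a u y ω := by
      unfold sp
      refine Finset.sum_comm' fun e u => ⟨fun k => ?_, fun k => ?_⟩
      · exact ⟨Finset.mem_filter.2 k, (Finset.mem_filter.1 k.1).2 k.2⟩
      · exact Finset.mem_filter.1 k.1
    have k3 : ∀ u ∈ U, ∑ e ∈ F.filter (fun e => u ∈ e), ∑ y ∈ e.erase u, a u y ω ≤
        d.D * ((U.card : ℝ) - 1) / U.card := by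
      intro u hu
      rw [sum_star hnb hs' h2']
      set J := (d.nb u).filter (fun y => ({u, y} : Finset V) ∈ F) with hJ
      have k4 : ∑ y ∈ J, ∑ y' ∈ ({u, y} : Finset V).erase u, a u y' ω = ∑ y ∈ J, a u y ω := by
        refine Finset.sum_congr rfl fun y hy => ?_
        have := ((hnb u y).1 (Finset.mem_filter.1 hy).1).1
        rw [Finset.erase_insert (by simpa using this.symm), Finset.sum_singleton]
      have k5 : J ⊆ U.erase u := fun y hy => Finset.mem_erase.2
        ⟨((hnb u y).1 (Finset.mem_filter.1 hy).1).1,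
          (Finset.mem_filter.1 (Finset.mem_filter.1 hy).2).2 (by simp)⟩
      have k6 : (J.card : ℝ) + 1 ≤ U.card := by
        have := Finset.card_le_card k5
        rw [Finset.card_erase_of_mem hu] at this
        have := hU.card_pos
        exact_mod_cast (by omega : J.card + 1 ≤ U.card)
      rw [k4]
      refine (hz.cert u ω J (Finset.filter_subset _ _)).trans ?_
      rw [mul_div_assoc, mul_div_assoc]
      refine mul_le_mul_of_nonneg_left ?_ hD.le
      rw [div_le_div_iff₀ (by positivity) hU0]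
      nlinarith
    have k7 := Finset.sum_le_sum k3
    rw [Finset.sum_const, nsmul_eq_mul, ← k2, mul_div_cancel₀ _ hU0.ne'] at k7
    rw [← Finset.sum_div, ← mul_div_assoc, div_le_iff₀ (by positivity)]
    linarith

lemma both (h1 : StEdm) (h : d.Ok) (hB : d.B = E.filter (fun e => 3 ≤ e.card))
    (hnb : ∀ u w, w ∈ d.nb u ↔ w ≠ u ∧ ({u, w} : Finset V) ∈ E) (hz : d.ZGood z a) :
    ∃ r, Dist (E.filter (fun e => 2 ≤ e.card)) r ∧
      ∀ e ∈ E.filter (fun e => 2 ≤ e.card), 1 / (d.D : ℝ) ≤ ∑ M, r M * ind M e := by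
  have hD := h.D_pos
  choose q hq hm using second h1 h hnb hz
  obtain ⟨r, hr, hrF⟩ := dist_push (E.filter (fun e => 2 ≤ e.card))
    (fun s : Om V × Finset (Finset V) => d.p s.1 * q s.1 s.2)
    (fun s => mul_nonneg (h.pnn _) ((hq _).nonneg _))
    (by
      rw [Fintype.sum_prod_type]
      simp only [← Finset.mul_sum, (hq _).sum, mul_one, h.prob.total])
    (fun s => s.1.1 ∪ s.2)
    (fun s hs => by
      have k1 := h.isM (left_ne_zero_of_mul hs)
      have k2 := (hq s.1).supp s.2 (right_ne_zero_of_mul hs)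
      have k3 : ∀ e ∈ s.1.1, ∀ f ∈ s.2, Disjoint e f := fun e he f hf =>
        Finset.disjoint_left.2 fun v hv hv' =>
          (Finset.mem_filter.1 (k2.1 hf)).2.2 v hv' ⟨e, he, hv⟩
      refine ⟨Finset.union_subset (fun e he => ?_) fun e he => ?_, fun e he f hf hef => ?_⟩
      · have := k1.1 he
        rw [hB, Finset.mem_filter] at this
        exact Finset.mem_filter.2 ⟨this.1, by omega⟩
      · have := Finset.mem_filter.1 (k2.1 he)
        exact Finset.mem_filter.2 ⟨this.1, this.2.1.ge⟩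
      · rcases Finset.mem_union.1 he with he | he <;> rcases Finset.mem_union.1 hf with hf | hf
        · exact k1.2 e he f hf hef
        · exact k3 e he f hf
        · exact (k3 f hf e he).symm
        · exact k2.2 e he f hf hef)
  refine ⟨r, hr, fun e he => ?_⟩
  obtain ⟨he, he2⟩ := Finset.mem_filter.1 he
  have k0 : ∑ M, r M * ind M e = Ex d.p fun ω => ∑ M, q ω M * ind (ω.1 ∪ M) e := by
    rw [hrF (fun M => ind M e), Fintype.sum_prod_type]
    simp only [Ex, Finset.mul_sum, mul_assoc]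
  rw [k0]
  by_cases h3 : 3 ≤ e.card
  · rw [← h.spec.marg e (hB ▸ Finset.mem_filter.2 ⟨he, h3⟩)]
    refine Ex_mono h.pnn fun ω _ => ?_
    have k1 : I (e ∈ ω.1) = ∑ M, q ω M * ind ω.1 e := by
      rw [← Finset.sum_mul, (hq ω).sum, one_mul, I_eq_ite, ind]
    rw [k1]
    exact Finset.sum_le_sum fun M _ =>
      mul_le_mul_of_nonneg_left (ind_mono Finset.subset_union_left e) ((hq ω).nonneg M)
  · obtain ⟨u, y, hy, rfl⟩ := Finset.card_eq_two.1 (show e.card = 2 by omega)
    have hyu := (hnb u y).2 ⟨hy.symm, he⟩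
    refine (div_le_div_of_nonneg_right (hz.mean u y hyu) hD.le).trans ?_
    rw [Dat.E, ← Ex_div_const]
    refine Ex_mono h.pnn fun ω _ => ?_
    by_cases hG : ({u, y} : Finset V) ∈ G E d ω
    · rw [← zz_pair h hz ω hy.symm]
      exact (hm ω _ hG).trans (Finset.sum_le_sum fun M _ =>
        mul_le_mul_of_nonneg_left (ind_mono Finset.subset_union_right _) ((hq ω).nonneg M))
    · have k1 : z u y ω = 0 := by
        by_cases hu : d.free ω u
        · rw [hz.symm]
          refine hz.zero y u (h.symm u y hyu) ω fun hf => hG (Finset.mem_filter.2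
            ⟨he, Finset.card_pair hy, fun v hv => ?_⟩)
          rcases Finset.mem_insert.1 hv with rfl | hv
          · exact hu
          · rw [Finset.mem_singleton.1 hv]; exact hf
        · exact hz.zero u y hyu ω hu
      rw [k1, zero_div]
      exact Finset.sum_nonneg fun M _ => mul_nonneg ((hq ω).nonneg M) (ind_nonneg _ _)

lemma deg_le (h : d.Ok) (hB : d.B = E.filter (fun e => 3 ≤ e.card))
    (hnb : ∀ u w, w ∈ d.nb u ↔ w ≠ u ∧ ({u, w} : Finset V) ∈ E) (v : V) :
    (((E.filter (fun e => 2 ≤ e.card)).filter (fun e => v ∈ e)).card : ℝ) ≤ d.D - 1 := by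
  have k1 : (E.filter (fun e => 2 ≤ e.card)).filter (fun e => v ∈ e) ⊆
      (d.nb v).image (fun y => ({v, y} : Finset V)) ∪ d.B.filter (fun e => v ∈ e) := by
    intro e he
    obtain ⟨k2, hv⟩ := Finset.mem_filter.1 he
    obtain ⟨he, k3⟩ := Finset.mem_filter.1 k2
    by_cases h3 : 3 ≤ e.card
    · exact Finset.mem_union_right _
        (Finset.mem_filter.2 ⟨hB ▸ Finset.mem_filter.2 ⟨he, h3⟩, hv⟩)
    · obtain ⟨y, hy, rfl⟩ := pair_of_mem (show e.card = 2 by omega) hv
      exact Finset.mem_union_left _ (Finset.mem_image_of_mem _ ((hnb v y).2 ⟨hy, he⟩))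
  have k2 := (Finset.card_le_card k1).trans ((Finset.card_union_le _ _).trans
    (Nat.add_le_add_right Finset.card_image_le _))
  have k3 : ((d.B.filter (fun e => v ∈ e)).card : ℝ) ≤
      ∑ e ∈ d.B.filter (fun e => v ∈ e), lam e := by
    rw [Finset.card_eq_sum_ones, Nat.cast_sum]
    refine Finset.sum_le_sum fun e he => ?_
    have : (3 : ℝ) ≤ e.card := by exact_mod_cast h.hyp.big e (Finset.mem_filter.1 he).1
    unfold lam
    push_cast
    linarith
  have k4 : (((E.filter (fun e => 2 ≤ e.card)).filter (fun e => v ∈ e)).card : ℝ) ≤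
      (d.nb v).card + (d.B.filter (fun e => v ∈ e)).card := by exact_mod_cast k2
  linarith [h.deg v]

end LFin

open LFin in
theorem fin (h1 : StEdm) : StFin := by
  intro V _ _ E d h hne hB hnb z a hz
  have hD := h.D_pos
  obtain ⟨r0, hr0, hm0⟩ := both h1 h hB hnb hz
  obtain ⟨r, hr, -, hm⟩ := thin _ (1 / (d.D : ℝ)) (by positivity) r0 hr0 hm0 _ le_rfl
  obtain ⟨s, hs, hsF⟩ := dist_push E r hr.nonneg hr.sum
    (fun M => M ∪ E.filter (fun e => e.card = 1 ∧ ∀ v ∈ e, ¬ Cov M v))
    (fun M hM => by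
      have k1 := hr.supp M hM
      have k3 : ∀ e ∈ M, ∀ f ∈ E.filter (fun e => e.card = 1 ∧ ∀ v ∈ e, ¬ Cov M v),
          Disjoint e f := fun e he f hf =>
        Finset.disjoint_left.2 fun v hv hv' => (Finset.mem_filter.1 hf).2.2 v hv' ⟨e, he, hv⟩
      refine ⟨Finset.union_subset (k1.1.trans (Finset.filter_subset _ _))
        (Finset.filter_subset _ _), fun e he f hf hef => ?_⟩
      rcases Finset.mem_union.1 he with he | he <;> rcases Finset.mem_union.1 hf with hf | hf
      · exact k1.2 e he f hf hef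
      · exact k3 e he f hf
      · exact (k3 f hf e he).symm
      · obtain ⟨x, rfl⟩ := Finset.card_eq_one.1 (Finset.mem_filter.1 he).2.1
        obtain ⟨y, rfl⟩ := Finset.card_eq_one.1 (Finset.mem_filter.1 hf).2.1
        exact Finset.disjoint_singleton.2 fun k => hef (by rw [k]))
  have hmarg : ∀ e ∈ E, 1 / (d.D : ℝ) ≤ ∑ M, s M * ind M e := by
    intro e he
    rw [hsF (fun M => ind M e)]
    by_cases h2 : 2 ≤ e.card
    · rw [← hm e (Finset.mem_filter.2 ⟨he, h2⟩)]
      exact Finset.sum_le_sum fun M _ =>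
        mul_le_mul_of_nonneg_left (ind_mono Finset.subset_union_left e) (hr.nonneg M)
    · have k0 := (hne e he).card_pos
      obtain ⟨v, rfl⟩ := Finset.card_eq_one.1 (show e.card = 1 by omega)
      have k1 : ∑ M, r M * (1 - cv (E.filter (fun e => 2 ≤ e.card)) (ind M) v) =
          1 - (((E.filter (fun e => 2 ≤ e.card)).filter (fun e => v ∈ e)).card : ℝ) *
            (1 / d.D) := by
        simp only [mul_sub, mul_one, Finset.sum_sub_distrib, hr.sum, cv, Finset.mul_sum]
        rw [Finset.sum_comm, Finset.sum_congr rfl fun e he => hm e (Finset.mem_filter.1 he).1,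
          Finset.sum_const, nsmul_eq_mul]
      have k2 := mul_le_mul_of_nonneg_right (deg_le h hB hnb v) (one_div_pos.2 hD).le
      rw [sub_mul, mul_one_div_cancel hD.ne', one_mul] at k2
      refine le_trans (by linarith) (k1.ge.trans (Finset.sum_le_sum fun M _ => ?_))
      by_cases hM : r M = 0
      · simp [hM]
      refine mul_le_mul_of_nonneg_left ?_ (hr.nonneg M)
      rw [cv_ind (hr.supp M hM)]
      split_ifs with hc
      · simpa using ind_nonneg _ _
      · have : ({v} : Finset V) ∈ M ∪ E.filter (fun e => e.card = 1 ∧ ∀ v ∈ e, ¬ Cov M v) :=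
          Finset.mem_union_right _ (Finset.mem_filter.2 ⟨he, by simp, by simpa using hc⟩)
        rw [ind, if_pos this, sub_zero]
  refine ⟨fun M => d.D * s M, fun M => mul_nonneg hD.le (hs.nonneg M),
    fun M k => hs.supp M (right_ne_zero_of_mul k), fun e he => ?_, ?_⟩
  · simp only [mul_assoc, ← Finset.mul_sum]
    have := hmarg e he
    rwa [div_le_iff₀ hD, mul_comm] at this
  · rw [← Finset.mul_sum, hs.sum, mul_one]

end Pool.Agent.P.MP_553766_co.Lg
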