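import Mathlib
import Pool.Agent.P.MP_553766_co.LSt3

set_option autoImplicit false

/-! The product formula for small edges and points covered by small edges. -/

namespace Pool.Agent.P.MP_553766_co.Lg

open Finset Pool.Agent.P.MP_553766_co

namespace LL3

variable {V : Type} [Fintype V] [DecidableEq V] {d : Dat V}

lemma pow_le (h : d.Ok) {n : ℕ} (hn : n ≤ 4) : (1 + d.η) ^ n ≤ 1 + 5 * d.η := by
  have h0 := h.good.eta0
  have h1 : d.η ≤ 1 / 100 := h.good.eta_le.trans (by unfold tau; norm_num)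
  have h2 : (1 + d.η) ^ n ≤ (1 + d.η) ^ 4 := pow_le_pow_right₀ (by linarith) hn
  have h3 : (1 + d.η) ^ 2 ≤ 1 + 2.1 * d.η := by nlinarith
  have h4 : (1 + d.η) ^ 4 = ((1 + d.η) ^ 2) ^ 2 := by ring
  have h5 : ((1 + d.η) ^ 2) ^ 2 ≤ (1 + 2.1 * d.η) ^ 2 :=
    pow_le_pow_left₀ (by positivity) h3 2
  nlinarith

lemma upper (h : d.Ok) {J : Finset (Finset V)} (hJ : J ⊆ d.sm) (hc : J.card ≤ 4) :
    d.E (fun ω => I (J ⊆ ω.1)) ≤ (1 + 5 * d.η) * (1 / d.D) ^ J.card := by
  have hB : J ⊆ d.B := hJ.trans (Finset.filter_subset _ _)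
  have hK : ∀ e ∈ J, e.card ≤ d.K := fun e he => (Finset.mem_filter.1 (hJ he)).2
  have h1 := h.spec.upper J hB (hc.trans h.good.l4)
  have h2 : d.E (fun ω => I (J ⊆ ω.1)) ≤ Ex d.p (fun ω => I (J ⊆ ω.2)) :=
    Ex_mono h.pnn fun ω hω => I_mono fun hh e he =>
      (h.spec.supp ω hω).2.2 e (hh he) (hK e he)
  have h3 : ∏ e ∈ J, bw d.D d.K d.η d.L e = (1 + d.η) ^ J.card * (1 / d.D) ^ J.card := by
    rw [← mul_pow, ← Finset.prod_const]
    refine Finset.prod_congr rfl fun e he => ?_
    unfold bw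
    rw [if_pos (hK e he), mul_one_div]
  have h4 : (0 : ℝ) ≤ (1 / d.D) ^ J.card := by positivity
  have h5 := mul_le_mul_of_nonneg_right (pow_le h hc) h4
  linarith

lemma prod_ps (h : d.Ok) (S : Finset V) : 0 ≤ ∏ a ∈ S, d.ps a ∧ ∏ a ∈ S, d.ps a ≤ 1 :=
  ⟨Finset.prod_nonneg fun a _ => h.ps_nonneg a,
    Finset.prod_le_one (fun a _ => h.ps_nonneg a) fun a _ => by
      linarith [h.ps_le_pv a, h.pv_lt_half a]⟩

lemma crude (h : d.Ok) {J : Finset (Finset V)} (S : Finset V) (hJ : J ⊆ d.sm) (hc : J.card ≤ 4) :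
    |d.E (fun ω => I (J ⊆ ω.1 ∧ ∀ a ∈ S, d.sb ω a)) - (1 / d.D) ^ J.card * ∏ a ∈ S, d.ps a| ≤
      3 / 2 * (1 / d.D) ^ J.card := by
  have h1 := upper h hJ hc
  have h2 : d.E (fun ω => I (J ⊆ ω.1 ∧ ∀ a ∈ S, d.sb ω a)) ≤ d.E (fun ω => I (J ⊆ ω.1)) :=
    Ex_mono h.pnn fun ω _ => I_mono fun hh => hh.1
  have h3 : 0 ≤ d.E (fun ω => I (J ⊆ ω.1 ∧ ∀ a ∈ S, d.sb ω a)) := Ex_I_nonneg h.pnn _
  have h4 : (0 : ℝ) ≤ (1 / d.D) ^ J.card := by positivity
  have h5 : d.η ≤ 1 / 100 := h.good.eta_le.trans (by unfold tau; norm_num)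
  obtain ⟨h6, h7⟩ := prod_ps h S
  have h8 := mul_le_mul_of_nonneg_left h7 h4
  have h9 := mul_nonneg h4 h6
  have h10 := mul_le_mul_of_nonneg_right h5 h4
  rw [abs_le]
  constructor <;> nlinarith

lemma split (h : d.Ok) (J : Finset (Finset V)) (S : Finset V) (a : V) :
    d.E (fun ω => I (J ⊆ ω.1 ∧ ∀ b ∈ insert a S, d.sb ω b)) =
      ∑ e ∈ d.sm.filter (fun e => a ∈ e),
        d.E (fun ω => I (insert e J ⊆ ω.1 ∧ ∀ b ∈ S, d.sb ω b)) := by
  unfold Dat.E
  rw [← Ex_sum]
  refine Ex_congr fun ω hω => ?_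
  have h1 : I (J ⊆ ω.1 ∧ ∀ b ∈ insert a S, d.sb ω b) =
      I (d.sb ω a) * I (J ⊆ ω.1 ∧ ∀ b ∈ S, d.sb ω b) := by
    rw [← I_and]
    refine I_congr ?_
    rw [Finset.forall_mem_insert]
    tauto
  rw [h1, h.I_sb hω, Finset.sum_mul]
  refine Finset.sum_congr rfl fun e _ => ?_
  rw [← I_and]
  refine I_congr ?_
  rw [Finset.insert_subset_iff, and_assoc]

lemma card_bad (h : d.Ok) (U : Finset V) {a : V} (ha : a ∉ U) :
    ((d.sm.filter (fun e => a ∈ e)).filter (fun e => ¬ Disjoint e U)).card ≤ U.card := by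
  have h1 : (d.sm.filter (fun e => a ∈ e)).filter (fun e => ¬ Disjoint e U) ⊆
      U.biUnion (fun b => (d.sm.filter (fun e => a ∈ e)).filter (fun e => b ∈ e)) := by
    intro e he
    obtain ⟨he1, he2⟩ := Finset.mem_filter.1 he
    obtain ⟨b, hb1, hb2⟩ := Finset.not_disjoint_iff.1 he2
    exact Finset.mem_biUnion.2 ⟨b, hb2, Finset.mem_filter.2 ⟨he1, hb1⟩⟩
  refine (Finset.card_le_card h1).trans ?_
  have h2 := Finset.card_biUnion_le_card_mul U
    (fun b => (d.sm.filter (fun e => a ∈ e)).filter (fun e => b ∈ e)) 1 (by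
      intro b hb
      refine Finset.card_le_one.2 fun e he f hf => ?_
      obtain ⟨he1, he2⟩ := Finset.mem_filter.1 he
      obtain ⟨hf1, hf2⟩ := Finset.mem_filter.1 hf
      obtain ⟨he3, he4⟩ := Finset.mem_filter.1 he1
      obtain ⟨hf3, hf4⟩ := Finset.mem_filter.1 hf1
      exact h.hyp.eq_of_two (Finset.mem_filter.1 he3).1 (Finset.mem_filter.1 hf3).1
        (a := a) (b := b) (fun hab => ha (hab ▸ hb)) he4 he2 hf4 hf2)
  rwa [mul_one] at h2

lemma aux (h : d.Ok) (S : Finset V) : ∀ J : Finset (Finset V), J ⊆ d.sm → PD J →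
    (∀ e ∈ J, Disjoint e S) → J.card + S.card ≤ 4 →
    |d.E (fun ω => I (J ⊆ ω.1 ∧ ∀ a ∈ S, d.sb ω a)) - (1 / d.D) ^ J.card * ∏ a ∈ S, d.ps a| ≤
      (5 * d.η + 5 * d.K * S.card / d.D) * (1 / d.D) ^ J.card := by
  induction S using Finset.induction_on with
  | empty =>
    intro J hJ hP _ hc
    have hc' : J.card ≤ 4 := by omega
    have h1 := upper h hJ hc'
    have h2 := h.spec.lower J (hJ.trans (Finset.filter_subset _ _))
      (fun e he => (Finset.mem_filter.1 (hJ he)).2) hP hc'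
    have h3 : d.E (fun ω => I (J ⊆ ω.1 ∧ ∀ a ∈ (∅ : Finset V), d.sb ω a)) =
        d.E (fun ω => I (J ⊆ ω.1)) := by
      refine Ex_congr fun ω _ => I_congr ?_
      simp
    have h4 : (0 : ℝ) ≤ (1 / d.D) ^ J.card := by positivity
    have h5 := mul_nonneg h.good.eta0 h4
    rw [h3, Finset.prod_empty, Finset.card_empty, abs_le]
    unfold Dat.E at *
    constructor <;> simp only [Nat.cast_zero, mul_zero, zero_div, add_zero] <;> nlinarith
  | insert a S haS ih =>
    intro J hJ hP hS hc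
    rw [Finset.card_insert_of_notMem haS] at hc
    have hD := h.D_pos
    have hK1 : 1 ≤ d.K := by
      have := h.good.K_pos
      exact_mod_cast this
    set N := d.sm.filter (fun e => a ∈ e) with hN
    set U : Finset V := J.biUnion id ∪ S with hU
    set x : ℝ := 1 / d.D with hx
    set P := ∏ b ∈ S, d.ps b with hPdef
    set er : ℝ := 5 * d.η + 5 * d.K * S.card / d.D with her
    have hx0 : 0 ≤ x := by positivity
    have her0 : 0 ≤ er := by have := h.good.eta0; positivity
    have haJ : ∀ e ∈ J, a ∉ e := fun e he hae =>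
      Finset.disjoint_left.1 (hS e he) hae (Finset.mem_insert_self a S)
    have haU : a ∉ U := by
      rw [hU, Finset.mem_union, Finset.mem_biUnion]
      rintro (⟨e, he, hae⟩ | hh)
      · exact haJ e he hae
      · exact haS hh
    have hUc : U.card ≤ 3 * d.K := by
      have h1 : (J.biUnion id).card ≤ J.card * d.K :=
        Finset.card_biUnion_le_card_mul J id d.K fun e he => (Finset.mem_filter.1 (hJ he)).2
      have h2 : U.card ≤ (J.biUnion id).card + S.card := Finset.card_union_le (J.biUnion id) S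
      have h3 : S.card ≤ S.card * d.K := Nat.le_mul_of_pos_right _ hK1
      have h4 : (J.card + S.card) * d.K ≤ 3 * d.K := Nat.mul_le_mul_right _ (by omega)
      rw [add_mul] at h4
      omega
    have hps : d.ps a = (N.card : ℝ) * x := by
      rw [hx, mul_one_div]
      rfl
    have hps1 : (N.card : ℝ) * x ≤ 1 := by
      rw [← hps]
      linarith [h.ps_le_pv a, h.pv_lt_half a]
    have hterm : ∀ e ∈ N,
        |d.E (fun ω => I (insert e J ⊆ ω.1 ∧ ∀ b ∈ S, d.sb ω b)) - x ^ (J.card + 1) * P| ≤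
          er * x ^ (J.card + 1) + if ¬ Disjoint e U then 3 / 2 * x ^ (J.card + 1) else 0 := by
      intro e he
      obtain ⟨he1, he2⟩ := Finset.mem_filter.1 he
      have heJ : e ∉ J := fun hh => haJ e hh he2
      have hcard : (insert e J).card = J.card + 1 := Finset.card_insert_of_notMem heJ
      have hsub : insert e J ⊆ d.sm := Finset.insert_subset he1 hJ
      by_cases hb : Disjoint e U
      · rw [if_neg (not_not.2 hb), add_zero, ← hcard]
        have hdJ : ∀ f ∈ J, Disjoint e f := fun f hf =>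
          hb.mono_right ((Finset.subset_biUnion_of_mem id hf).trans Finset.subset_union_left)
        refine ih (insert e J) hsub ?_ ?_ (by omega)
        · intro f hf g hg hfg
          rcases Finset.mem_insert.1 hf with rfl | hf' <;> rcases Finset.mem_insert.1 hg with rfl | hg'
          · exact absurd rfl hfg
          · exact hdJ g hg'
          · exact (hdJ f hf').symm
          · exact hP f hf' g hg' hfg
        · intro f hf
          rcases Finset.mem_insert.1 hf with rfl | hf'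
          · exact hb.mono_right Finset.subset_union_right
          · exact (hS f hf').mono_right (Finset.subset_insert a S)
      · rw [if_pos hb]
        have h1 := crude h S hsub (by omega)
        rw [hcard] at h1
        have h2 : 0 ≤ er * x ^ (J.card + 1) := by positivity
        linarith
    have hsum : x ^ J.card * ∏ b ∈ insert a S, d.ps b = ∑ _e ∈ N, x ^ (J.card + 1) * P := by
      rw [Finset.prod_insert haS, hps, Finset.sum_const, nsmul_eq_mul]
      ring
    rw [split h J S a, hsum, ← Finset.sum_sub_distrib]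
    refine (Finset.abs_sum_le_sum_abs _ _).trans ((Finset.sum_le_sum hterm).trans ?_)
    rw [Finset.sum_add_distrib, Finset.sum_const, nsmul_eq_mul, ← Finset.sum_filter,
      Finset.sum_const, nsmul_eq_mul, Finset.card_insert_of_notMem haS]
    have hbad : ((N.filter (fun e => ¬ Disjoint e U)).card : ℝ) ≤ 3 * d.K := by
      exact_mod_cast (card_bad h U haU).trans hUc
    have hxp : 0 ≤ x ^ J.card := by positivity
    have h1 : (N.card : ℝ) * (er * x ^ (J.card + 1)) ≤ er * x ^ J.card := by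
      have := mul_le_mul_of_nonneg_left hps1 (mul_nonneg her0 hxp)
      calc (N.card : ℝ) * (er * x ^ (J.card + 1)) = er * x ^ J.card * (N.card * x) := by ring
        _ ≤ er * x ^ J.card := by linarith
    have h2 : ((N.filter (fun e => ¬ Disjoint e U)).card : ℝ) * (3 / 2 * x ^ (J.card + 1)) ≤
        3 * d.K * (3 / 2 * x ^ (J.card + 1)) :=
      mul_le_mul_of_nonneg_right hbad (by positivity)
    have h3 : (5 * d.η + 5 * d.K * ((S.card + 1 : ℕ) : ℝ) / d.D) * x ^ J.card =
        er * x ^ J.card + 5 * (d.K * x ^ (J.card + 1)) := by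
      rw [her, pow_succ, hx]
      push_cast
      ring
    have h4 : 0 ≤ (d.K : ℝ) * x ^ (J.card + 1) := by positivity
    rw [h3]
    nlinarith

end LL3

theorem l3 : StL3 := by
  intro V _ _ d h J S hJ hP hS hc
  refine (LL3.aux h S J hJ hP hS hc).trans (mul_le_mul_of_nonneg_right ?_ (by positivity))
  have h1 : (S.card : ℝ) ≤ 4 := by exact_mod_cast (by omega : S.card ≤ 4)
  have h2 : (0 : ℝ) ≤ d.K := by positivity
  have h3 : 5 * (d.K : ℝ) * S.card / d.D ≤ 20 * d.K / d.D :=
    div_le_div_of_nonneg_right (by nlinarith) h.D_pos.le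
  unfold Dat.eta2
  linarith

end Pool.Agent.P.MP_553766_co.Lg
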