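import Mathlib
import Pool.Agent.P.MP_553766_co.LSt3

set_option autoImplicit false
set_option linter.unusedSectionVars false

/-! The second moment of a linear form in the small edges, and the noise terms of its model. -/

namespace Pool.Agent.P.MP_553766_co.Lg

open Finset Pool.Agent.P.MP_553766_co

namespace LL5

variable {V : Type} [Fintype V] [DecidableEq V]

/-- the kernel of the model second moment -/
noncomputable def T (x : ℝ) (e f : Finset V) : ℝ :=
  if f = e then x else if Disjoint e f then 0 else -x ^ 2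

lemma T_symm (x : ℝ) (e f : Finset V) : T x e f = T x f e := by
  unfold T
  by_cases h : f = e
  · subst h; rfl
  · rw [if_neg h, if_neg (Ne.symm h)]
    by_cases h2 : Disjoint e f
    · rw [if_pos h2, if_pos h2.symm]
    · rw [if_neg h2, if_neg fun h3 => h2 h3.symm]

lemma T_le (x : ℝ) (e f : Finset V) : T x e f ≤ if f = e then x else 0 := by
  unfold T
  split_ifs
  · exact le_rfl
  · exact le_rfl
  · nlinarith [sq_nonneg x]

lemma Qm_eq (d : Dat V) (b b' : Finset V → ℝ) :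
    d.Qm b b' = ∑ e ∈ d.sm, ∑ f ∈ d.sm, b e * b' f * T (1 / (d.D : ℝ)) e f := by
  unfold Dat.Qm
  rw [← Finset.sum_sub_distrib]
  refine Finset.sum_congr rfl fun e he => ?_
  have h1 : b e * b' e / d.D = ∑ f ∈ d.sm, if f = e then b e * b' f / d.D else 0 := by
    rw [Finset.sum_ite_eq' d.sm e, if_pos he]
  rw [h1, Finset.sum_filter, ← Finset.sum_sub_distrib]
  refine Finset.sum_congr rfl fun f _ => ?_
  unfold T
  by_cases h2 : f = e
  · rw [if_pos h2, if_pos h2, if_neg fun h3 => h3.1 h2]; ring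
  · rw [if_neg h2, if_neg h2]
    by_cases h3 : Disjoint e f
    · rw [if_pos h3, if_neg fun h4 => h4.2 h3]; ring
    · rw [if_neg h3, if_pos ⟨h2, h3⟩]; ring

variable {d : Dat V}

lemma sm_B {e : Finset V} (he : e ∈ d.sm) : e ∈ d.B := (Finset.mem_filter.1 he).1
lemma sm_K {e : Finset V} (he : e ∈ d.sm) : e.card ≤ d.K := (Finset.mem_filter.1 he).2

/-- joint probability of two disjoint small edges -/
lemma pair_close (h : d.Ok) {e f : Finset V} (he : e ∈ d.sm) (hf : f ∈ d.sm) (hne : f ≠ e)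
    (hd : Disjoint e f) :
    |Ex d.p (fun ω => I (e ∈ ω.1 ∧ f ∈ ω.1)) - (1 / (d.D : ℝ)) ^ 2| ≤
      3 * d.η * (1 / (d.D : ℝ)) ^ 2 := by
  have hsub : ({e, f} : Finset (Finset V)) ⊆ d.B := by
    intro g hg
    rcases Finset.mem_insert.1 hg with h1 | h1
    · rw [h1]; exact sm_B he
    · rw [Finset.mem_singleton.1 h1]; exact sm_B hf
  have hc : ({e, f} : Finset (Finset V)).card = 2 := Finset.card_pair hne.symm
  have hlo := h.spec.lower {e, f} hsub (by
      intro g hg
      rcases Finset.mem_insert.1 hg with h1 | h1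
      · rw [h1]; exact sm_K he
      · rw [Finset.mem_singleton.1 h1]; exact sm_K hf) (by
      intro g hg g' hg' hgg
      simp only [Finset.mem_insert, Finset.mem_singleton] at hg hg'
      rcases hg with h1 | h1 <;> rcases hg' with h2 | h2
      · exact absurd (h1.trans h2.symm) hgg
      · rw [h1, h2]; exact hd
      · rw [h1, h2]; exact hd.symm
      · exact absurd (h1.trans h2.symm) hgg) (by rw [hc]; norm_num)
  have hup := h.spec.upper {e, f} hsub (by rw [hc]; have := h.good.l4; omega)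
  rw [Finset.prod_pair hne.symm] at hup
  unfold bw at hup
  rw [if_pos (sm_K he), if_pos (sm_K hf)] at hup
  rw [hc] at hlo
  have e1 : Ex d.p (fun ω => I (({e, f} : Finset (Finset V)) ⊆ ω.1)) =
      Ex d.p (fun ω => I (e ∈ ω.1 ∧ f ∈ ω.1)) :=
    Ex_congr fun ω _ => I_congr (by simp [Finset.insert_subset_iff])
  have e2 : Ex d.p (fun ω => I (e ∈ ω.1 ∧ f ∈ ω.1)) ≤
      Ex d.p (fun ω => I (({e, f} : Finset (Finset V)) ⊆ ω.2)) :=
    Ex_mono h.pnn fun ω hω => I_mono fun hh => by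
      have h3 := (h.spec.supp ω hω).2.2
      simp only [Finset.insert_subset_iff, Finset.singleton_subset_iff]
      exact ⟨h3 e hh.1 (sm_K he), h3 f hh.2 (sm_K hf)⟩
  rw [e1] at hlo
  have h0 := h.good.eta0
  have h1 : d.η ≤ 1 := h.good.eta_le.trans (by unfold tau; norm_num)
  have hx : 0 ≤ (1 / (d.D : ℝ)) ^ 2 := by positivity
  have e3 : (1 + d.η) / d.D * ((1 + d.η) / d.D) = (1 + d.η) ^ 2 * (1 / (d.D : ℝ)) ^ 2 := by ring
  rw [e3] at hup
  have h4 : (1 + d.η) ^ 2 ≤ 1 + 3 * d.η := by nlinarith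
  have h5 := mul_le_mul_of_nonneg_right h4 hx
  have h6 := mul_nonneg h0 hx
  rw [abs_le]
  constructor <;> nlinarith

lemma pair_term (h : d.Ok) {e f : Finset V} (he : e ∈ d.sm) (hf : f ∈ d.sm) (s t : ℝ)
    (hst : f = e → 0 ≤ s * t) :
    s * t * (Ex d.p (fun ω => I (e ∈ ω.1 ∧ f ∈ ω.1)) - (1 / (d.D : ℝ)) ^ 2) ≤
      s * t * T (1 / (d.D : ℝ)) e f + 3 * d.η * (|s| / d.D * (|t| / d.D)) := by
  have h0 := h.good.eta0
  have hD := h.D_pos
  have hr : 0 ≤ 3 * d.η * (|s| / d.D * (|t| / d.D)) := by positivity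
  unfold T
  by_cases h1 : f = e
  · rw [if_pos h1]
    have e1 : Ex d.p (fun ω => I (e ∈ ω.1 ∧ f ∈ ω.1)) = 1 / d.D := by
      rw [← h.spec.marg e (sm_B he), h1]
      exact Ex_congr fun ω _ => I_congr (and_self_iff)
    rw [e1]
    have := mul_nonneg (hst h1) (sq_nonneg (1 / (d.D : ℝ)))
    nlinarith
  · rw [if_neg h1]
    by_cases h2 : Disjoint e f
    · rw [if_pos h2]
      have h3 := pair_close h he hf h1 h2
      have h4 := le_abs_self
        (s * t * (Ex d.p (fun ω => I (e ∈ ω.1 ∧ f ∈ ω.1)) - (1 / (d.D : ℝ)) ^ 2))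
      rw [abs_mul, abs_mul] at h4
      have h5 := mul_le_mul_of_nonneg_left h3 (mul_nonneg (abs_nonneg s) (abs_nonneg t))
      have e2 : 3 * d.η * (|s| / d.D * (|t| / d.D)) =
          |s| * |t| * (3 * d.η * (1 / (d.D : ℝ)) ^ 2) := by ring
      rw [e2]; linarith
    · rw [if_neg h2]
      have e1 : Ex d.p (fun ω => I (e ∈ ω.1 ∧ f ∈ ω.1)) = 0 := by
        rw [← Ex_zero (p := d.p)]
        exact Ex_congr fun ω hω => I_neg fun hh =>
          h2 ((h.isM hω).2 e hh.1 f hh.2 (Ne.symm h1))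
      rw [e1]; linarith

lemma E_sq (h : d.Ok) (b : Finset V → ℝ) :
    d.E (fun ω => d.Lin b ω ^ 2) = ∑ e ∈ d.sm, ∑ f ∈ d.sm,
      b e * b f * (Ex d.p (fun ω => I (e ∈ ω.1 ∧ f ∈ ω.1)) - (1 / (d.D : ℝ)) ^ 2) := by
  have e1 : ∀ ω : Om V, d.Lin b ω ^ 2 = ∑ e ∈ d.sm, ∑ f ∈ d.sm, b e * b f *
      (I (e ∈ ω.1 ∧ f ∈ ω.1) - 1 / (d.D : ℝ) * I (e ∈ ω.1) - 1 / (d.D : ℝ) * I (f ∈ ω.1) +
        (1 / (d.D : ℝ)) ^ 2) := by
    intro ω
    unfold Dat.Lin
    rw [sq, Finset.sum_mul_sum]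
    refine Finset.sum_congr rfl fun e _ => Finset.sum_congr rfl fun f _ => ?_
    rw [I_and]; ring
  unfold Dat.E
  simp only [e1]
  rw [Ex_sum]
  refine Finset.sum_congr rfl fun e he => ?_
  rw [Ex_sum]
  refine Finset.sum_congr rfl fun f hf => ?_
  rw [Ex_const_mul, Ex_add, Ex_sub, Ex_sub, Ex_const_mul, Ex_const_mul, Ex_const h.prob,
    h.spec.marg e (sm_B he), h.spec.marg f (sm_B hf)]
  ring

/-- at most one edge passes through two points -/
lemma card_two (h : d.Ok) {a b : V} (hab : a ≠ b) :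
    (((d.sm.filter (fun e => a ∈ e)).filter (fun e => b ∈ e)).card : ℝ) ≤ 1 := by
  have : ((d.sm.filter (fun e => a ∈ e)).filter (fun e => b ∈ e)).card ≤ 1 := by
    refine Finset.card_le_one.2 fun e he f hf => ?_
    by_contra hne
    simp only [Finset.mem_filter] at he hf
    have h1 := h.hyp.lin e (sm_B he.1.1) f (sm_B hf.1.1) hne
    exact hab (Finset.card_le_one.1 h1 a (Finset.mem_inter.2 ⟨he.1.2, hf.1.2⟩) b
      (Finset.mem_inter.2 ⟨he.2, hf.2⟩))
  exact_mod_cast this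

/-- the kernel summed over the small edges through a point -/
noncomputable def R (d : Dat V) (e : Finset V) (a : V) : ℝ :=
  ∑ f ∈ d.sm.filter (fun f => a ∈ f), T (1 / (d.D : ℝ)) e f

lemma R_mem {e : Finset V} (he : e ∈ d.sm) {a : V} (ha : a ∈ e) :
    R d e a = 1 / (d.D : ℝ) * (1 - d.ps a + 1 / d.D) := by
  have h1 : ∀ f ∈ d.sm.filter (fun f => a ∈ f), T (1 / (d.D : ℝ)) e f =
      (if f = e then 1 / (d.D : ℝ) + (1 / (d.D : ℝ)) ^ 2 else 0) - (1 / (d.D : ℝ)) ^ 2 := by
    intro f hf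
    unfold T
    by_cases h2 : f = e
    · rw [if_pos h2, if_pos h2]; ring
    · rw [if_neg h2, if_neg h2, if_neg fun h3 =>
        Finset.disjoint_left.1 h3 ha (Finset.mem_filter.1 hf).2]
      ring
  unfold R
  rw [Finset.sum_congr rfl h1, Finset.sum_sub_distrib, Finset.sum_ite_eq',
    if_pos (Finset.mem_filter.2 ⟨he, ha⟩), Finset.sum_const, nsmul_eq_mul]
  unfold Dat.ps
  ring

lemma R_ge (h : d.Ok) {e : Finset V} (he : e ∈ d.sm) (a : V) :
    -(d.K / d.D * (1 / (d.D : ℝ))) ≤ R d e a := by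
  have hD := h.D_pos
  by_cases ha : a ∈ e
  · rw [R_mem he ha]
    have h1 := h.ps_le_pv a
    have h2 := h.pv_lt_half a
    have h3 : 0 < 1 / (d.D : ℝ) := by positivity
    have h4 : 0 ≤ 1 / (d.D : ℝ) * (1 - d.ps a + 1 / d.D) := mul_nonneg h3.le (by linarith)
    have h5 : 0 ≤ d.K / d.D * (1 / (d.D : ℝ)) := by positivity
    linarith
  · have h1 : ∀ f ∈ d.sm.filter (fun f => a ∈ f),
        -((1 / (d.D : ℝ)) ^ 2 * ∑ v ∈ e, if v ∈ f then (1 : ℝ) else 0) ≤
          T (1 / (d.D : ℝ)) e f := by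
      intro f hf
      have h0 : (0 : ℝ) ≤ ∑ v ∈ e, if v ∈ f then (1 : ℝ) else 0 :=
        Finset.sum_nonneg fun v _ => by split_ifs <;> norm_num
      have hx : 0 ≤ (1 / (d.D : ℝ)) ^ 2 := by positivity
      unfold T
      have hfe : ¬ f = e := fun h2 => ha (h2 ▸ (Finset.mem_filter.1 hf).2)
      rw [if_neg hfe]
      by_cases h2 : Disjoint e f
      · rw [if_pos h2]; nlinarith
      · rw [if_neg h2]
        obtain ⟨v, hv, hv'⟩ := Finset.not_disjoint_iff.1 h2
        have h3 : (1 : ℝ) ≤ ∑ v ∈ e, if v ∈ f then (1 : ℝ) else 0 := by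
          have := Finset.single_le_sum (f := fun v => if v ∈ f then (1 : ℝ) else 0)
            (fun v _ => by split_ifs <;> norm_num) hv
          simpa [hv'] using this
        nlinarith
    refine le_trans ?_ (Finset.sum_le_sum h1)
    rw [Finset.sum_neg_distrib, ← Finset.mul_sum, Finset.sum_comm, neg_le_neg_iff]
    have h2 : ∑ v ∈ e, ∑ f ∈ d.sm.filter (fun f => a ∈ f), (if v ∈ f then (1 : ℝ) else 0) ≤
        d.K := by
      have h3 := Finset.sum_le_card_nsmul e
        (fun v => ∑ f ∈ d.sm.filter (fun f => a ∈ f), (if v ∈ f then (1 : ℝ) else 0)) 1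
        fun v hv => by
          rw [← Finset.sum_filter, Finset.sum_const, nsmul_eq_mul, mul_one]
          exact card_two h fun h4 => ha (h4 ▸ hv)
      rw [nsmul_eq_mul, mul_one] at h3
      exact h3.trans (by exact_mod_cast sm_K he)
    have hx : 0 ≤ (1 / (d.D : ℝ)) ^ 2 := by positivity
    have h4 := mul_le_mul_of_nonneg_left h2 hx
    have e1 : d.K / d.D * (1 / (d.D : ℝ)) = (1 / (d.D : ℝ)) ^ 2 * d.K := by ring
    rw [e1]; exact h4

lemma sum_R_le (h : d.Ok) (a b : V) :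
    ∑ e ∈ d.sm.filter (fun e => a ∈ e), R d e b ≤
      (if b = a then d.ps a * (1 - d.ps a) else 0) + 1 / d.D := by
  have hD := h.D_pos
  have hx : 0 < 1 / (d.D : ℝ) := by positivity
  by_cases hab : b = a
  · subst hab
    rw [if_pos rfl, Finset.sum_congr rfl fun e he =>
      R_mem (Finset.mem_filter.1 he).1 (Finset.mem_filter.1 he).2, Finset.sum_const, nsmul_eq_mul]
    have e1 : ((d.sm.filter (fun e => b ∈ e)).card : ℝ) *
        (1 / (d.D : ℝ) * (1 - d.ps b + 1 / d.D)) = d.ps b * (1 - d.ps b + 1 / d.D) := by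
      have : d.ps b = ((d.sm.filter (fun e => b ∈ e)).card : ℝ) / d.D := rfl
      rw [← mul_assoc, mul_one_div, ← this]
    rw [e1]
    have h1 := h.ps_le_pv b
    have h2 := h.pv_lt_half b
    nlinarith
  · rw [if_neg hab, zero_add]
    have h1 : ∀ e ∈ d.sm.filter (fun e => a ∈ e),
        R d e b ≤ if b ∈ e then 1 / (d.D : ℝ) else 0 := by
      intro e he
      refine (Finset.sum_le_sum fun f _ => T_le _ e f).trans ?_
      rw [Finset.sum_ite_eq']
      by_cases hb : b ∈ e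
      · rw [if_pos hb, if_pos (Finset.mem_filter.2 ⟨(Finset.mem_filter.1 he).1, hb⟩)]
      · have hb' : e ∉ d.sm.filter (fun f => b ∈ f) := fun h2 => hb (Finset.mem_filter.1 h2).2
        rw [if_neg hb, if_neg hb']
    refine (Finset.sum_le_sum h1).trans ?_
    rw [← Finset.sum_filter, Finset.sum_const, nsmul_eq_mul]
    have h2 := card_two h (Ne.symm hab)
    nlinarith

lemma sum_JJ_mul (om : V → ℝ) (g : Finset V → ℝ) :
    ∑ f ∈ d.sm, d.JJ univ om f * g f = ∑ a, om a * ∑ f ∈ d.sm.filter (fun f => a ∈ f), g f := by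
  have h1 : ∀ f : Finset V, d.JJ univ om f = ∑ a, if a ∈ f then om a else 0 := by
    intro f
    unfold Dat.JJ
    rw [Finset.inter_comm, ← Finset.filter_mem_eq_inter, Finset.sum_filter]
  simp only [h1, Finset.sum_mul]
  rw [Finset.sum_comm]
  refine Finset.sum_congr rfl fun a _ => ?_
  rw [Finset.mul_sum, Finset.sum_filter]
  exact Finset.sum_congr rfl fun f _ => by split_ifs <;> simp

lemma Qm_right (b : Finset V → ℝ) (om : V → ℝ) :
    d.Qm b (d.JJ univ om) = ∑ e ∈ d.sm, b e * ∑ a, om a * R d e a := by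
  rw [Qm_eq]
  refine Finset.sum_congr rfl fun e _ => ?_
  unfold R
  rw [← sum_JJ_mul, Finset.mul_sum]
  exact Finset.sum_congr rfl fun f _ => by ring

lemma Qm_sub (b c : Finset V → ℝ) :
    d.Qm (fun e => b e - c e) (fun e => b e - c e) = d.Qm b b - 2 * d.Qm b c + d.Qm c c := by
  have h1 : d.Qm c b = d.Qm b c := by
    rw [Qm_eq, Qm_eq, Finset.sum_comm]
    exact Finset.sum_congr rfl fun e _ => Finset.sum_congr rfl fun f _ => by
      rw [T_symm]; ring
  have h2 : d.Qm (fun e => b e - c e) (fun e => b e - c e) =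
      d.Qm b b - d.Qm b c - d.Qm c b + d.Qm c c := by
    simp only [Qm_eq, ← Finset.sum_sub_distrib, ← Finset.sum_add_distrib]
    exact Finset.sum_congr rfl fun e _ => Finset.sum_congr rfl fun f _ => by ring
  rw [h2, h1]; ring

end LL5

theorem l5 : StL5 := by
  intro V _ _ d h b
  rw [LL5.E_sq h, LL5.Qm_eq, sq (∑ e ∈ d.sm, |b e| / d.D), Finset.sum_mul_sum, Finset.mul_sum,
    ← Finset.sum_add_distrib]
  refine Finset.sum_le_sum fun e he => ?_
  rw [Finset.mul_sum, ← Finset.sum_add_distrib]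
  refine Finset.sum_le_sum fun f hf => ?_
  exact LL5.pair_term h he hf _ _ fun h1 => by rw [h1]; exact mul_self_nonneg _

theorem qn : StQn := by
  intro V _ _ d h J om hJ hom
  have hD := h.D_pos
  rw [LL5.Qm_sub]
  have h1 : -((d.K / d.D) * (∑ a, om a) * ∑ e ∈ d.sm, J e / d.D) ≤ d.Qm J (d.JJ univ om) := by
    rw [LL5.Qm_right, Finset.mul_sum, ← Finset.sum_neg_distrib]
    refine Finset.sum_le_sum fun e he => ?_
    have h2 : -(d.K / d.D * (1 / (d.D : ℝ))) * ∑ a, om a ≤ ∑ a, om a * LL5.R d e a := by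
      rw [Finset.mul_sum]
      refine Finset.sum_le_sum fun a _ => ?_
      rw [mul_comm]
      exact mul_le_mul_of_nonneg_left (LL5.R_ge h he a) (hom a)
    have h3 := mul_le_mul_of_nonneg_left h2 (hJ e)
    refine le_trans (le_of_eq ?_) h3
    ring
  have h2 : d.Qm (d.JJ univ om) (d.JJ univ om) ≤
      ∑ a, om a ^ 2 * d.ps a * (1 - d.ps a) + (∑ a, om a) ^ 2 / d.D := by
    rw [LL5.Qm_right, LL5.sum_JJ_mul, sq (∑ a, om a), Finset.sum_mul_sum, Finset.sum_div,
      ← Finset.sum_add_distrib]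
    refine Finset.sum_le_sum fun a _ => ?_
    rw [Finset.sum_comm]
    have h3 : ∑ b, ∑ e ∈ d.sm.filter (fun e => a ∈ e), om b * LL5.R d e b ≤
        ∑ b, ((if b = a then om b * (d.ps a * (1 - d.ps a)) else 0) + om b / d.D) := by
      refine Finset.sum_le_sum fun b _ => ?_
      rw [← Finset.mul_sum]
      refine (mul_le_mul_of_nonneg_left (LL5.sum_R_le h a b) (hom b)).trans (le_of_eq ?_)
      split_ifs <;> ring
    rw [Finset.sum_add_distrib, Finset.sum_ite_eq', if_pos (Finset.mem_univ a)] at h3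
    refine (mul_le_mul_of_nonneg_left h3 (hom a)).trans (le_of_eq ?_)
    rw [← Finset.sum_div, ← Finset.mul_sum]
    ring
  have h3 : 0 ≤ (∑ a, om a) ^ 2 / d.D := by positivity
  have e1 : 2 * (∑ a, om a) ^ 2 / d.D = 2 * ((∑ a, om a) ^ 2 / d.D) := by ring
  have e2 : 2 * (d.K / d.D) * (∑ a, om a) * ∑ e ∈ d.sm, J e / d.D =
      2 * ((d.K / d.D) * (∑ a, om a) * ∑ e ∈ d.sm, J e / d.D) := by ring
  rw [e1, e2]
  linarith

end Pool.Agent.P.MP_553766_co.Lg
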