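import Mathlib
import Pool.Agent.P.MP_553766_co.LSt1

set_option autoImplicit false

/-! The cut condition for a random polymatroid: greedy vectors and the minimax theorem. -/

namespace Pool.Agent.P.MP_553766_co.Lg

open Finset Pool.Agent.P.MP_553766_co

namespace LLP

/-- predecessor sets of an ordering with decreasing weights -/
lemma greedy {ι : Type} [DecidableEq ι] (y : ι → ℝ) (W : Finset ι) :
    ∃ P : ι → Finset ι, (∀ i ∈ W, i ∉ P i) ∧
      (∀ g : Finset ι → ℝ, ∑ i ∈ W, (g (insert i (P i)) - g (P i)) = g W - g ∅) ∧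
      (∀ (g : Finset ι → ℝ) (c : ℝ), g ∅ = 0 → (∀ U, 0 ≤ g U) → (∀ i ∈ W, c ≤ y i) →
        c * g W ≤ ∑ i ∈ W, y i * (g (insert i (P i)) - g (P i))) := by
  induction W using Finset.induction_on_min_value y with
  | empty => exact ⟨fun _ => ∅, by simp, by simp, fun g c h0 _ _ => by simp [h0]⟩
  | insert a s ha hmin ih =>
    obtain ⟨P, h1, h2, h3⟩ := ih
    have hne : ∀ i ∈ s, Function.update P a s i = P i := fun i hi =>
      Function.update_of_ne (fun e : i = a => ha (e ▸ hi)) _ _
    refine ⟨Function.update P a s, ?_, ?_, ?_⟩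
    · intro i hi
      rcases Finset.mem_insert.1 hi with rfl | hi
      · rw [Function.update_self]; exact ha
      · rw [hne i hi]; exact h1 i hi
    · intro g
      rw [Finset.sum_insert ha, Function.update_self,
        Finset.sum_congr rfl (fun i hi => by rw [hne i hi]), h2 g]
      ring
    · intro g c h0 hg hc
      rw [Finset.sum_insert ha, Function.update_self,
        Finset.sum_congr rfl (fun i hi => by rw [hne i hi])]
      have h4 := h3 g (y a) h0 hg hmin
      have h5 := mul_le_mul_of_nonneg_right (hc a (Finset.mem_insert_self a s)) (hg (insert a s))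
      linarith

lemma incr (P A B b c e : ℝ) (h0 : 0 ≤ e) (h1 : e ≤ c) :
    0 ≤ min P (min (c + A) (b + (e + B))) - min P (min A (b + B)) ∧
    min P (min (c + A) (b + (e + B))) - min P (min A (b + B)) ≤ c ∧
    max (2 * (min P (min (c + A) (b + (e + B))) - min P (min A (b + B))) - 2 * e) 0 ≤
      2 * min (c + A - (e + B)) b - 2 * min (A - B) b := by
  simp only [min_def, max_def]
  split_ifs <;> refine ⟨?_, ?_, ?_⟩ <;> linarith

lemma fin_case {Ω ι : Type} [Fintype Ω] [Fintype ι] [DecidableEq ι] [Nonempty ι] (p : Ω → ℝ)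
    (cap h : ι → Ω → ℝ) (pool bud : Ω → ℝ) (t : ι → ℝ)
    (hh : ∀ i ω, 0 ≤ h i ω ∧ h i ω ≤ 2 * cap i ω) (hpool : ∀ ω, 0 ≤ pool ω)
    (hbud : ∀ ω, 0 ≤ bud ω)
    (hcut : ∀ W : Finset ι, ∑ i ∈ W, t i ≤ Ex p (fun ω => min (pool ω)
      (min (∑ i ∈ W, cap i ω) (bud ω / 2 + ∑ i ∈ W, h i ω / 2)))) :
    ∃ z : ι → Ω → ℝ, (∀ i ω, 0 ≤ z i ω ∧ z i ω ≤ cap i ω) ∧
      (∀ ω, ∑ i, z i ω ≤ pool ω) ∧ (∀ ω, ∑ i, max (2 * z i ω - h i ω) 0 ≤ bud ω) ∧
      ∀ i, t i ≤ Ex p (z i) := by
  classical
  let F : Finset ι → Ω → ℝ := fun W ω => min (pool ω)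
    (min (∑ i ∈ W, cap i ω) (bud ω / 2 + ∑ i ∈ W, h i ω / 2))
  let G : Finset ι → Ω → ℝ := fun W ω =>
    2 * min (∑ i ∈ W, cap i ω - ∑ i ∈ W, h i ω / 2) (bud ω / 2)
  have hF0 : ∀ ω, F ∅ ω = 0 := fun ω => by
    have h1 := hpool ω
    have h2 := hbud ω
    simp only [F, Finset.sum_empty, add_zero]
    rw [min_eq_left (a := (0 : ℝ)) (by linarith), min_eq_right h1]
  have hG0 : ∀ ω, G ∅ ω = 0 := fun ω => by
    have h2 := hbud ω
    simp only [G, Finset.sum_empty, sub_zero]
    rw [min_eq_left (a := (0 : ℝ)) (by linarith), mul_zero]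
  have hinc : ∀ (i : ι) (W : Finset ι) (ω : Ω), i ∉ W →
      0 ≤ F (insert i W) ω - F W ω ∧ F (insert i W) ω - F W ω ≤ cap i ω ∧
      max (2 * (F (insert i W) ω - F W ω) - h i ω) 0 ≤ G (insert i W) ω - G W ω := by
    intro i W ω hi
    have h1 := hh i ω
    have := incr (pool ω) (∑ i ∈ W, cap i ω) (∑ i ∈ W, h i ω / 2) (bud ω / 2) (cap i ω)
      (h i ω / 2) (by linarith) (by linarith)
    rw [show 2 * (h i ω / 2) = h i ω by ring] at this
    simp only [F, G, Finset.sum_insert hi]
    exact this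
  let Ok : (ι → Finset ι) → Prop := fun P => (∀ i, i ∉ P i) ∧
    ∀ g : Finset ι → ℝ, ∑ i, (g (insert i (P i)) - g (P i)) = g Finset.univ - g ∅
  let zz : {P // Ok P} → ι → Ω → ℝ := fun P i ω => F (insert i (P.1 i)) ω - F (P.1 i) ω
  have : Nonempty {P // Ok P} := by
    obtain ⟨P, h1, h2, -⟩ := greedy (fun _ : ι => (0 : ℝ)) Finset.univ
    exact ⟨⟨P, fun i => h1 i (Finset.mem_univ i), h2⟩⟩
  obtain ⟨y, q, ν, hy, -, hq, hq1, hle, -, hge, -⟩ :=
    game (ι := ι) (κ := {P // Ok P}) (fun k i => Ex p (zz k i) - t i)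
  have hν : 0 ≤ ν := by
    obtain ⟨P, h1, h2, h3⟩ := greedy y Finset.univ
    refine le_trans ?_ (hle ⟨P, fun i => h1 i (Finset.mem_univ i), h2⟩)
    have h4 := h3 (fun W => Ex p (F W) - ∑ i ∈ W, t i) 0
      (by
        have : F ∅ = fun _ => 0 := funext hF0
        simp only [this, Ex_zero, Finset.sum_empty, sub_zero])
      (fun U => sub_nonneg.2 (hcut U)) (fun i _ => hy i)
    rw [zero_mul] at h4
    refine h4.trans (le_of_eq (Finset.sum_congr rfl fun i _ => ?_))
    rw [Finset.sum_insert (h1 i (Finset.mem_univ i))]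
    simp only [zz]
    rw [Ex_sub]
    ring
  refine ⟨fun i ω => ∑ k, q k * zz k i ω, fun i ω => ⟨?_, ?_⟩, fun ω => ?_, fun ω => ?_,
    fun i => ?_⟩
  · exact Finset.sum_nonneg fun k _ => mul_nonneg (hq k) (hinc i _ ω (k.2.1 i)).1
  · calc ∑ k, q k * zz k i ω ≤ ∑ k, q k * cap i ω :=
          Finset.sum_le_sum fun k _ =>
            mul_le_mul_of_nonneg_left (hinc i _ ω (k.2.1 i)).2.1 (hq k)
      _ = cap i ω := by rw [← Finset.sum_mul, hq1, one_mul]
  · rw [Finset.sum_comm]
    calc ∑ k, ∑ i, q k * zz k i ω ≤ ∑ k, q k * pool ω := by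
          refine Finset.sum_le_sum fun k _ => ?_
          rw [← Finset.mul_sum]
          refine mul_le_mul_of_nonneg_left ?_ (hq k)
          have := k.2.2 (fun W => F W ω)
          simp only [zz]
          rw [this, hF0, sub_zero]
          exact min_le_left _ _
      _ = pool ω := by rw [← Finset.sum_mul, hq1, one_mul]
  · calc ∑ i, max (2 * (∑ k, q k * zz k i ω) - h i ω) 0
        ≤ ∑ i, ∑ k, q k * (G (insert i (k.1 i)) ω - G (k.1 i) ω) := by
          refine Finset.sum_le_sum fun i _ => max_le ?_ ?_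
          · have e : 2 * (∑ k, q k * zz k i ω) - h i ω =
                ∑ k, q k * (2 * zz k i ω - h i ω) := by
              simp only [mul_sub, Finset.sum_sub_distrib, ← Finset.sum_mul, hq1, one_mul,
                Finset.mul_sum]
              congr 1
              exact Finset.sum_congr rfl fun k _ => by ring
            rw [e]
            exact Finset.sum_le_sum fun k _ => mul_le_mul_of_nonneg_left
              ((le_max_left _ _).trans (hinc i _ ω (k.2.1 i)).2.2) (hq k)
          · exact Finset.sum_nonneg fun k _ => mul_nonneg (hq k)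
              ((le_max_right _ _).trans (hinc i _ ω (k.2.1 i)).2.2)
      _ ≤ ∑ k, q k * bud ω := by
          rw [Finset.sum_comm]
          refine Finset.sum_le_sum fun k _ => ?_
          rw [← Finset.mul_sum]
          refine mul_le_mul_of_nonneg_left ?_ (hq k)
          have := k.2.2 (fun W => G W ω)
          rw [this, hG0, sub_zero]
          have h5 := min_le_right (∑ i, cap i ω - ∑ i, h i ω / 2) (bud ω / 2)
          simp only [G]
          linarith
      _ = bud ω := by rw [← Finset.sum_mul, hq1, one_mul]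
  · have h1 := hν.trans (hge i)
    simp only [mul_sub, Finset.sum_sub_distrib, ← Finset.sum_mul, hq1, one_mul] at h1
    rw [Ex_sum]
    simp only [Ex_const_mul]
    linarith

end LLP

theorem lp : StLP := by
  intro Ω ι _ _ p N cap h pool bud t _ hh hpool hbud hcut
  rcases N.eq_empty_or_nonempty with rfl | hN
  · exact ⟨fun _ _ => 0, by simp, fun ω => by simpa using hpool ω,
      fun ω => by simpa using hbud ω, by simp⟩
  have : Nonempty N := hN.to_subtype
  obtain ⟨z, h1, h2, h3, h4⟩ := LLP.fin_case (ι := N) p (fun i => cap i) (fun i => h i) pool bud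
    (fun i => t i) (fun i ω => hh i i.2 ω) hpool hbud (by
      intro W
      have := hcut (W.map (Function.Embedding.subtype _)) (by
        intro i hi
        obtain ⟨j, -, rfl⟩ := Finset.mem_map.1 hi
        exact j.2)
      simpa only [Finset.sum_map, Function.Embedding.coe_subtype] using this)
  refine ⟨fun i ω => if hi : i ∈ N then z ⟨i, hi⟩ ω else 0, fun i hi ω => ?_, fun ω => ?_,
    fun ω => ?_, fun i hi => ?_⟩
  · simp only [dif_pos hi]
    exact h1 ⟨i, hi⟩ ω
  · rw [← Finset.sum_coe_sort N]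
    simpa only [Finset.coe_mem, dif_pos, Subtype.coe_eta] using h2 ω
  · rw [← Finset.sum_coe_sort N]
    simpa only [Finset.coe_mem, dif_pos, Subtype.coe_eta] using h3 ω
  · simp only [dif_pos hi]
    exact h4 ⟨i, hi⟩

end Pool.Agent.P.MP_553766_co.Lg
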