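import Mathlib
import Pool.Agent.P.MP_553766_co.LSt1

set_option autoImplicit false

/-! The two stages together: thinning of the low stage, and the product law. -/

namespace Pool.Agent.P.MP_553766_co.Lg

open Finset Pool.Agent.P.MP_553766_co

namespace LComb

section thin

variable {α : Type} [Fintype α] [DecidableEq α]

/-- product weights on subsets -/
noncomputable def wt (t : α → ℝ) (R : Finset α) : ℝ := (∏ i ∈ R, t i) * ∏ i ∈ univ \ R, (1 - t i)

lemma wt_sum (t : α → ℝ) (J : Finset α) : ∑ R, wt t R * I (J ⊆ R) = ∏ i ∈ J, t i := by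
  have h := Finset.prod_add t (fun i => if i ∈ J then 0 else 1 - t i) (univ : Finset α)
  have h1 : ∏ i, (t i + if i ∈ J then 0 else 1 - t i) = ∏ i ∈ J, t i := by
    rw [← Finset.prod_subset (Finset.subset_univ J) (fun i _ hi => by simp [hi])]
    exact Finset.prod_congr rfl fun i hi => by simp [hi]
  rw [← h1, h, Finset.powerset_univ]
  refine Finset.sum_congr rfl fun R _ => ?_
  rw [wt, mul_assoc]
  congr 1
  by_cases hJ : J ⊆ R
  · rw [I_pos hJ, mul_one]
    refine Finset.prod_congr rfl fun i hi => ?_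
    rw [if_neg fun h => (Finset.mem_sdiff.mp hi).2 (hJ h)]
  · rw [I_neg hJ, mul_zero]
    obtain ⟨i, hi, hR⟩ := Finset.not_subset.mp hJ
    symm
    exact Finset.prod_eq_zero (Finset.mem_sdiff.mpr ⟨Finset.mem_univ i, hR⟩) (if_pos hi)

lemma wt_prob {t : α → ℝ} (h0 : ∀ i, 0 ≤ t i) (h1 : ∀ i, t i ≤ 1) : IsProb (wt t) := by
  refine ⟨fun R => mul_nonneg (Finset.prod_nonneg fun i _ => h0 i)
    (Finset.prod_nonneg fun i _ => sub_nonneg.mpr (h1 i)), ?_⟩
  have := wt_sum t ∅
  simpa [I_pos] using this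

/-- every element is kept independently with probability t -/
noncomputable def thin (t : α → ℝ) (q : Finset α → ℝ) : Finset α → ℝ :=
  pushK q (fun _ R => wt t R) (fun C R => C ∩ R)

lemma thin_prob {t : α → ℝ} (h0 : ∀ i, 0 ≤ t i) (h1 : ∀ i, t i ≤ 1) {q : Finset α → ℝ}
    (hq : IsProb q) : IsProb (thin t q) :=
  pushK_prob hq _ (fun _ _ => wt_prob h0 h1) _

lemma thin_supp {t : α → ℝ} {q : Finset α → ℝ} {C : Finset α} (h : thin t q C ≠ 0) :
    ∃ C', q C' ≠ 0 ∧ C ⊆ C' := by
  obtain ⟨s, ev, h1, -, rfl⟩ := pushK_supp _ _ _ h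
  exact ⟨s, h1, Finset.inter_subset_left⟩

lemma thin_Ex (t : α → ℝ) (q : Finset α → ℝ) (J : Finset α) :
    Ex (thin t q) (fun C => I (J ⊆ C)) = (∏ i ∈ J, t i) * Ex q (fun C => I (J ⊆ C)) := by
  rw [thin, Ex_pushK, ← Ex_const_mul]
  refine Ex_congr fun C _ => ?_
  rw [← wt_sum, Finset.sum_mul]
  refine Finset.sum_congr rfl fun R _ => ?_
  rw [I_congr Finset.subset_inter_iff, I_and]
  ring

end thin

variable {V : Type} [Fintype V] [DecidableEq V]

/-- the points covered by the top stage -/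
def cov (s : Om V) : Finset V := s.1.biUnion id

omit [Fintype V] in
lemma avail_iff (e : Finset V) (s : Om V) : avail e s ↔ Disjoint e (cov s) := by
  rw [cov, Finset.disjoint_biUnion_right]
  rfl

/-- the low stage after thinning -/
structure Mid (B : Finset (Finset V)) (D K Λ l : ℕ) (η η' L : ℝ) (p : Om V → ℝ)
    (r : Finset V → Finset (Finset V) → ℝ) : Prop where
  prob : ∀ Z, IsProb (r Z)
  supp : ∀ Z C, r Z C ≠ 0 → IsM (lowE B Λ) C ∧ ∀ e ∈ C, Disjoint e Z
  marg : ∀ e ∈ lowE B Λ, Ex p (fun s => Ex (r (cov s)) (fun C => I (e ∈ C))) = 1 / D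
  upper : ∀ Z, ∀ J ⊆ lowE B Λ, J.card ≤ l →
    Ex (r Z) (fun C => I (J ⊆ C)) ≤ ∏ e ∈ J, bw D K η L e
  lower : ∀ Z, ∀ J ⊆ lowE B Λ, PD J → (∀ e ∈ J, Disjoint e Z) → J.card ≤ 4 →
    (1 - 5 * η') * (1 / D) ^ J.card ≤ Ex (r Z) (fun C => I (J ⊆ C))

variable {B : Finset (Finset V)} {D K Λ l : ℕ} {η η' L θ : ℝ} {p : Om V → ℝ}
  {vp : Finset V → ℝ} {q r : Finset V → Finset (Finset V) → ℝ}

lemma par_facts (hP : CombPar D K Λ l η η' L θ) :
    (0 : ℝ) < D ∧ (8000000 : ℝ) ≤ Λ ∧ 0 ≤ (K : ℝ) / Λ ∧ 10 * η' + 10 * ((K : ℝ) / Λ) ≤ η ∧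
      η' ≤ 1 / 1000 ∧ 200000 ≤ L := by
  have h1 := hP.h1
  have h2 := hP.h2
  have h3 := hP.h3
  have h4 := hP.h4
  have h5 : 0 ≤ (K : ℝ) / Λ := by positivity
  rw [mul_div_assoc] at h1
  unfold cc at h3
  unfold u0 at h4
  refine ⟨Nat.cast_pos.mpr hP.Dpos, by linarith, h5, h1, by linarith, ?_⟩
  norm_num at h3
  exact h3

/-- probability that a low edge is chosen before thinning -/
noncomputable def Pb (p : Om V → ℝ) (q : Finset V → Finset (Finset V) → ℝ) (e : Finset V) : ℝ :=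
  Ex p (fun s => Ex (q (cov s)) (fun C => I ({e} ⊆ C)))

lemma Pb_bounds (hP : CombPar D K Λ l η η' L θ) (hT : TopSpec B D Λ L θ p)
    (hL : LowSpec (lowE B Λ) D l η' vp q) {e : Finset V} (he : e ∈ lowE B Λ) :
    (1 - η') * vp e * Ex p (fun s => I (avail e s)) ≤ Pb p q e ∧ Pb p q e ≤ (1 + η') * vp e := by
  have hs : ({e} : Finset (Finset V)) ⊆ lowE B Λ := Finset.singleton_subset_iff.mpr he
  constructor
  · rw [← Ex_const_mul]
    refine Ex_mono hT.prob.nonneg fun s _ => ?_
    by_cases h : avail e s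
    · rw [I_pos h, mul_one]
      have := hL.lower (cov s) {e} hs (fun a ha b hb hab => absurd
        ((Finset.mem_singleton.mp ha).trans (Finset.mem_singleton.mp hb).symm) hab)
        (fun a ha => by rw [Finset.mem_singleton.mp ha]; exact (avail_iff e s).mp h) (by simp)
      rwa [Finset.prod_singleton] at this
    · rw [I_neg h, mul_zero]
      exact Ex_I_nonneg (hL.prob _).nonneg _
  · refine Ex_le_const hT.prob fun s _ => ?_
    have := hL.upper (cov s) {e} hs (by rw [Finset.card_singleton]; linarith [hP.l4])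
    rwa [Finset.prod_singleton] at this

lemma Pb_ge (hP : CombPar D K Λ l η η' L θ) (hT : TopSpec B D Λ L θ p)
    (hL : LowSpec (lowE B Λ) D l η' vp q) {e : Finset V} (he : e ∈ lowE B Λ) :
    1 / (D : ℝ) ≤ Pb p q e := by
  obtain ⟨hD, hΛ, -, -, hη, -⟩ := par_facts hP
  refine le_trans ?_ (Pb_bounds hP hT hL he).1
  obtain ⟨a1, a2⟩ := hT.unhit e he
  set a := Ex p (fun s => I (avail e s))
  have hx : 0 < 1 / (D : ℝ) := by positivity
  by_cases h : u0 / 4 < lam e
  · have v2 := hL.vp2 e he h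
    have e1 : 1.1 / (cc * (D : ℝ)) = 110000 * (1 / D) := by unfold cc; field_simp; norm_num
    rw [e1] at v2
    unfold cc at a1
    have b1 : 110000 * (1 / (D : ℝ)) * (1 / 10 ^ 5) ≤ vp e * a :=
      mul_le_mul v2 a1 (by norm_num) (by linarith)
    have b2 : 0.999 * (vp e * a) ≤ (1 - η') * (vp e * a) :=
      mul_le_mul_of_nonneg_right (by linarith) (by nlinarith)
    nlinarith
  · have v1 := hL.vp1 e he
    have e1 : 1.19 / (D : ℝ) = 1.19 * (1 / D) := by ring
    rw [e1] at v1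
    have c1 : (e.card : ℝ) / Λ ≤ 0.03 := by
      rw [div_le_iff₀ (by linarith)]
      unfold u0 lam at h
      linarith [not_lt.mp h]
    have b1 : 1.19 * (1 / (D : ℝ)) * 0.97 ≤ vp e * a :=
      mul_le_mul v1 (by linarith) (by norm_num) (by linarith)
    have b2 : 0.999 * (vp e * a) ≤ (1 - η') * (vp e * a) :=
      mul_le_mul_of_nonneg_right (by linarith) (by nlinarith)
    nlinarith

/-- bounds for the thinned weight -/
lemma tv_bounds (hP : CombPar D K Λ l η η' L θ) (hT : TopSpec B D Λ L θ p)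
    (hL : LowSpec (lowE B Λ) D l η' vp q) {e : Finset V} (he : e ∈ lowE B Λ) :
    (1 - η') * (1 / D) ≤ 1 / D / Pb p q e * vp e ∧
      (1 + η') * (1 / D / Pb p q e * vp e) ≤ bw D K η L e := by
  obtain ⟨hD, hΛ, hκ, hη1, hη, hL0⟩ := par_facts hP
  have h0 := hP.h0
  have h2 := hP.h2
  obtain ⟨b1, b2⟩ := Pb_bounds hP hT hL he
  have b3 := Pb_ge hP hT hL he
  obtain ⟨a1, a2⟩ := hT.unhit e he
  set a := Ex p (fun s => I (avail e s))
  have hx : 0 < 1 / (D : ℝ) := by positivity
  have hb : 0 < Pb p q e := hx.trans_le b3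
  have hv : 0 < vp e := lt_of_lt_of_le (by positivity) (hL.vp1 e he)
  set P := Pb p q e
  set v := vp e
  have e1 : 1 / (D : ℝ) / P * v = v / P * (1 / D) := by ring
  rw [e1]
  constructor
  · refine mul_le_mul_of_nonneg_right ?_ hx.le
    rw [le_div_iff₀ hb]
    have := mul_le_mul_of_nonneg_left b2 (show 0 ≤ 1 - η' by linarith)
    nlinarith [mul_nonneg (sq_nonneg η') hv.le]
  · have key : ∀ c : ℝ, 0 ≤ c → 1 + η' ≤ c * ((1 - η') * a) →
        (1 + η') * (v / P * (1 / D)) ≤ c / D := by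
      intro c hc h
      rw [← mul_assoc, div_eq_mul_one_div c]
      refine mul_le_mul_of_nonneg_right ?_ hx.le
      rw [← mul_div_assoc, div_le_iff₀ hb]
      have d1 := mul_le_mul_of_nonneg_right h hv.le
      have d2 := mul_le_mul_of_nonneg_left b1 hc
      nlinarith
    unfold bw
    split_ifs with hK
    · refine key _ (by linarith) ?_
      have c1 : (e.card : ℝ) / Λ ≤ K / Λ :=
        div_le_div_of_nonneg_right (Nat.cast_le.mpr hK) (by linarith)
      have c2 : (1 - η') * (1 - (K : ℝ) / Λ) ≤ (1 - η') * a :=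
        mul_le_mul_of_nonneg_left (by linarith) (by linarith)
      have c3 : 1 - η / 10 ≤ (1 - η') * a := by nlinarith [mul_nonneg h0 hκ]
      have c4 : 0 ≤ η := by linarith
      have c5 := mul_le_mul_of_nonneg_left c3 (show 0 ≤ 1 + η by linarith)
      nlinarith
    · refine key _ (by linarith) ?_
      unfold cc at a1
      have c1 : 0.999 * (1 / 10 ^ 5) ≤ (1 - η') * a :=
        mul_le_mul (by linarith) a1 (by norm_num) (by linarith)
      have c2 : 200000 * (0.999 * (1 / 10 ^ 5)) ≤ L * ((1 - η') * a) :=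
        mul_le_mul hL0 c1 (by norm_num) (by linarith)
      linarith

lemma exists_mid (hP : CombPar D K Λ l η η' L θ) (hT : TopSpec B D Λ L θ p)
    (hL : LowSpec (lowE B Λ) D l η' vp q) : ∃ r, Mid B D K Λ l η η' L p r := by
  obtain ⟨hD, hΛ, hκ, hη1, hη, hL0⟩ := par_facts hP
  have h0 := hP.h0
  have hx : 0 < 1 / (D : ℝ) := by positivity
  have hb : ∀ e ∈ lowE B Λ, 0 < Pb p q e := fun e he => hx.trans_le (Pb_ge hP hT hL he)
  have hv : ∀ e ∈ lowE B Λ, 0 < vp e := fun e he =>
    lt_of_lt_of_le (by positivity) (hL.vp1 e he)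
  obtain ⟨t, ht, t0, t1⟩ : ∃ t : Finset V → ℝ, (∀ e ∈ lowE B Λ, t e = 1 / D / Pb p q e) ∧
      (∀ e, 0 ≤ t e) ∧ ∀ e, t e ≤ 1 := by
    refine ⟨fun e => if e ∈ lowE B Λ then 1 / D / Pb p q e else 0, fun e he => if_pos he,
      fun e => ?_, fun e => ?_⟩
    · dsimp only
      split_ifs with he
      exacts [(div_pos hx (hb e he)).le, le_rfl]
    · dsimp only
      split_ifs with he
      exacts [(div_le_one (hb e he)).mpr (Pb_ge hP hT hL he), zero_le_one]
  have tv := fun e (he : e ∈ lowE B Λ) => ht e he ▸ tv_bounds hP hT hL he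
  refine ⟨fun Z => thin t (q Z), fun Z => thin_prob t0 t1 (hL.prob Z), fun Z C hC => ?_,
    fun e he => ?_, fun Z J hJ hc => ?_, fun Z J hJ hd hZ hc => ?_⟩
  · obtain ⟨C', h1, h2⟩ := thin_supp hC
    obtain ⟨h3, h4⟩ := hL.supp Z C' h1
    exact ⟨⟨h2.trans h3.1, fun e he f hf => h3.2 e (h2 he) f (h2 hf)⟩, fun e he => h4 e (h2 he)⟩
  · simp only [← Finset.singleton_subset_iff, thin_Ex, Finset.prod_singleton]
    rw [Ex_const_mul, ht e he]
    exact div_mul_cancel₀ _ (hb e he).ne'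
  · rcases J.eq_empty_or_nonempty with rfl | hne
    · rw [Finset.prod_empty]
      exact Ex_I_le_one (thin_prob t0 t1 (hL.prob Z)) _
    · rw [thin_Ex]
      have a0 : 0 ≤ ∏ e ∈ J, t e * vp e :=
        Finset.prod_nonneg fun e he => mul_nonneg (t0 e) (hv e (hJ he)).le
      calc (∏ e ∈ J, t e) * Ex (q Z) (fun C => I (J ⊆ C))
          ≤ (∏ e ∈ J, t e) * ((1 + η') * ∏ e ∈ J, vp e) :=
            mul_le_mul_of_nonneg_left (hL.upper Z J hJ hc) (Finset.prod_nonneg fun e _ => t0 e)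
        _ = (1 + η') * ∏ e ∈ J, t e * vp e := by rw [Finset.prod_mul_distrib]; ring
        _ ≤ (1 + η') ^ J.card * ∏ e ∈ J, t e * vp e :=
            mul_le_mul_of_nonneg_right (le_self_pow₀ (by linarith) hne.card_pos.ne') a0
        _ = ∏ e ∈ J, (1 + η') * (t e * vp e) := by
            rw [Finset.prod_mul_distrib (f := fun _ => 1 + η'), Finset.prod_const]
        _ ≤ ∏ e ∈ J, bw D K η L e := Finset.prod_le_prod
            (fun e he => mul_nonneg (by linarith) (mul_nonneg (t0 e) (hv e (hJ he)).le))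
            fun e he => (tv e (hJ he)).2
  · rw [thin_Ex]
    have a1 : 1 - 4 * η' ≤ (1 - η') ^ J.card := by
      have b1 := one_add_mul_le_pow (show (-2 : ℝ) ≤ -η' by linarith) J.card
      have b2 : (J.card : ℝ) ≤ 4 := by exact_mod_cast hc
      rw [← sub_eq_add_neg] at b1
      nlinarith
    calc (1 - 5 * η') * (1 / (D : ℝ)) ^ J.card
        ≤ (1 - η') * (1 - η') ^ J.card * (1 / (D : ℝ)) ^ J.card := by
          refine mul_le_mul_of_nonneg_right ?_ (by positivity)
          have := mul_le_mul_of_nonneg_left a1 (show 0 ≤ 1 - η' by linarith)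
          nlinarith [sq_nonneg η']
      _ = (1 - η') * ∏ _e ∈ J, (1 - η') * (1 / (D : ℝ)) := by
          rw [Finset.prod_const, mul_pow]; ring
      _ ≤ (1 - η') * ∏ e ∈ J, t e * vp e := by
          refine mul_le_mul_of_nonneg_left (Finset.prod_le_prod (fun e _ => ?_)
            fun e he => (tv e (hJ he)).1) (by linarith)
          exact mul_nonneg (by linarith) hx.le
      _ = (∏ e ∈ J, t e) * ((1 - η') * ∏ e ∈ J, vp e) := by rw [Finset.prod_mul_distrib]; ring
      _ ≤ _ := mul_le_mul_of_nonneg_left (hL.lower Z J hJ hd hZ hc)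
          (Finset.prod_nonneg fun e _ => t0 e)

/-- the product law -/
noncomputable def prodL (p : Om V → ℝ) (r : Finset V → Finset (Finset V) → ℝ) : Om V → ℝ :=
  pushK p (fun s C => r (cov s) C) (fun s C => (s.1 ∪ C, s.2 ∪ C))

lemma Ex_prodL (φ : Om V → ℝ) :
    Ex (prodL p r) φ = Ex p (fun s => Ex (r (cov s)) (fun C => φ (s.1 ∪ C, s.2 ∪ C))) :=
  Ex_pushK _ _ _ _

omit [Fintype V] [DecidableEq V] in
lemma mem_top {e : Finset V} : e ∈ topE B Λ ↔ e ∈ B ∧ Λ + 1 < e.card := Finset.mem_filter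

omit [Fintype V] [DecidableEq V] in
lemma mem_low {e : Finset V} : e ∈ lowE B Λ ↔ e ∈ B ∧ e.card ≤ Λ + 1 := Finset.mem_filter

omit [DecidableEq V] in
lemma all_avail (hT : TopSpec B D Λ L θ p) {J : Finset (Finset V)} (hJ : J ⊆ lowE B Λ)
    (hK : ∀ e ∈ J, e.card ≤ K) (hc : J.card ≤ 4) :
    1 - 4 * ((K : ℝ) / Λ) ≤ Ex p (fun s => I (∀ e ∈ J, avail e s)) := by
  have hκ : 0 ≤ (K : ℝ) / Λ := by positivity
  have a1 : Ex p (fun s => 1 - ∑ e ∈ J, I (¬ avail e s)) ≤
      Ex p (fun s => I (∀ e ∈ J, avail e s)) := by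
    refine Ex_mono hT.prob.nonneg fun s _ => ?_
    have b1 := I_exists_le J fun e => ¬ avail e s
    have b2 : I (∃ e ∈ J, ¬ avail e s) = 1 - I (∀ e ∈ J, avail e s) := by
      rw [← I_not]
      exact I_congr (by push Not; rfl)
    linarith
  rw [Ex_sub, Ex_const hT.prob, Ex_sum] at a1
  have a2 : ∑ e ∈ J, Ex p (fun s => I (¬ avail e s)) ≤ J.card • ((K : ℝ) / Λ) := by
    refine Finset.sum_le_card_nsmul _ _ _ fun e he => ?_
    rw [Ex_I_not hT.prob]
    have c1 : (e.card : ℝ) / Λ ≤ K / Λ :=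
      div_le_div_of_nonneg_right (Nat.cast_le.mpr (hK e he)) (Nat.cast_nonneg _)
    linarith [(hT.unhit e (hJ he)).2]
  have a3 : (J.card : ℝ) ≤ 4 := by exact_mod_cast hc
  rw [nsmul_eq_mul] at a2
  nlinarith

lemma spec (hP : CombPar D K Λ l η η' L θ) (hT : TopSpec B D Λ L θ p)
    (hM : Mid B D K Λ l η η' L p r) : Spec B D K Λ l η L θ (prodL p r) := by
  obtain ⟨hD, hΛ, hκ, hη1, hη, hL0⟩ := par_facts hP
  have h0 := hP.h0
  have hK := hP.hK
  have top : ∀ s, p s ≠ 0 → ∀ e ∈ s.1, Λ + 1 < e.card := fun s hs e he =>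
    (mem_top.mp ((hT.supp s hs).1.1 he)).2
  have low : ∀ Z C, r Z C ≠ 0 → ∀ e ∈ C, e.card ≤ Λ + 1 := fun Z C hC e he =>
    (mem_low.mp ((hM.supp Z C hC).1.1 he)).2
  have bw0 : ∀ e : Finset V, 0 ≤ bw D K η L e := by
    intro e
    unfold bw
    split_ifs
    exacts [div_nonneg (by linarith) hD.le, div_nonneg (by linarith) hD.le]
  refine ⟨pushK_prob hT.prob _ (fun s _ => hM.prob _) _, fun ω hω => ?_, fun e he => ?_,
    fun J hJ hs hd hc => ?_, fun J hJ hc => ?_, fun e he => ?_, fun e he f hf h1 h2 => ?_⟩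
  · obtain ⟨s, C, hs, hC, rfl⟩ := pushK_supp _ _ _ hω
    obtain ⟨a1, a2⟩ := hT.supp s hs
    obtain ⟨b1, b2⟩ := hM.supp _ C hC
    have c : ∀ e ∈ s.1, ∀ f ∈ C, Disjoint f e := fun e he f hf =>
      (avail_iff f s).mpr (b2 f hf) e he
    refine ⟨⟨Finset.union_subset (a1.1.trans (Finset.filter_subset _ _))
      (b1.1.trans (Finset.filter_subset _ _)), fun e he f hf hef => ?_⟩,
      Finset.union_subset_union a2 le_rfl, fun e he hk => ?_⟩
    · rcases Finset.mem_union.mp he with he | he <;> rcases Finset.mem_union.mp hf with hf | hf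
      exacts [a1.2 e he f hf hef, (c e he f hf).symm, c f hf e he, b1.2 e he f hf hef]
    · rcases Finset.mem_union.mp he with he | he
      · have := top s hs e he
        omega
      · exact Finset.mem_union_right _ he
  · rw [Ex_prodL]
    by_cases h : Λ + 1 < e.card
    · rw [← hT.marg e (mem_top.mpr ⟨he, h⟩)]
      refine Ex_congr fun s _ => ?_
      rw [← Ex_const (hM.prob (cov s)) (I (e ∈ s.1))]
      refine Ex_congr fun C hC => I_congr ?_
      rw [Finset.mem_union]
      exact or_iff_left fun h' => absurd (low _ C hC e h') (by omega)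
    · rw [← hM.marg e (mem_low.mpr ⟨he, not_lt.mp h⟩)]
      refine Ex_congr fun s hs => Ex_congr fun C _ => I_congr ?_
      rw [Finset.mem_union]
      exact or_iff_right fun h' => h (top s hs e h')
  · have hJ' : J ⊆ lowE B Λ := fun e he => mem_low.mpr ⟨hJ he, by have := hs e he; omega⟩
    have a1 := all_avail hT hJ' hs hc
    have hx : 0 ≤ (1 / (D : ℝ)) ^ J.card := by positivity
    rw [Ex_prodL]
    calc (1 - η) * (1 / (D : ℝ)) ^ J.card
        ≤ (1 - 5 * η') * (1 - 4 * ((K : ℝ) / Λ)) * (1 / (D : ℝ)) ^ J.card :=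
          mul_le_mul_of_nonneg_right (by nlinarith [mul_nonneg h0 hκ]) hx
      _ = (1 - 5 * η') * (1 / (D : ℝ)) ^ J.card * (1 - 4 * ((K : ℝ) / Λ)) := by ring
      _ ≤ (1 - 5 * η') * (1 / (D : ℝ)) ^ J.card * Ex p (fun s => I (∀ e ∈ J, avail e s)) :=
          mul_le_mul_of_nonneg_left a1 (mul_nonneg (by linarith) hx)
      _ ≤ _ := by
          rw [← Ex_const_mul]
          refine Ex_mono hT.prob.nonneg fun s _ => ?_
          by_cases h : ∀ e ∈ J, avail e s
          · rw [I_pos h, mul_one]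
            refine (hM.lower (cov s) J hJ' hd (fun e he => (avail_iff e s).mp (h e he)) hc).trans
              (Ex_mono (hM.prob _).nonneg fun C _ => I_mono fun h' => ?_)
            exact h'.trans Finset.subset_union_right
          · rw [I_neg h, mul_zero]
            exact Ex_I_nonneg (hM.prob _).nonneg _
  · rw [Ex_prodL, ← Finset.prod_filter_mul_prod_filter_not J (fun e => Λ + 1 < e.card)]
    set Jt := J.filter (fun e => Λ + 1 < e.card) with hJt
    set Jl := J.filter (fun e => ¬ Λ + 1 < e.card) with hJl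
    have a1 : Jt ⊆ topE B Λ := fun e he =>
      mem_top.mpr ⟨hJ (Finset.mem_filter.mp he).1, (Finset.mem_filter.mp he).2⟩
    have a2 : Jl ⊆ lowE B Λ := fun e he =>
      mem_low.mpr ⟨hJ (Finset.mem_filter.mp he).1, not_lt.mp (Finset.mem_filter.mp he).2⟩
    have a3 : ∏ e ∈ Jt, bw D K η L e = (L / D) ^ Jt.card := by
      rw [← Finset.prod_const]
      refine Finset.prod_congr rfl fun e he => if_neg ?_
      have := (Finset.mem_filter.mp he).2
      omega
    refine le_trans ?_ (mul_le_mul_of_nonneg_right (a3 ▸ hT.joint Jt a1)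
      (Finset.prod_nonneg fun e _ => bw0 e))
    rw [← Ex_mul_const]
    refine Ex_mono hT.prob.nonneg fun s hs => ?_
    refine le_trans ?_ (mul_le_mul_of_nonneg_left
      (hM.upper (cov s) Jl a2 ((Finset.card_filter_le _ _).trans hc)) (I_nonneg _))
    rw [← Ex_const_mul]
    refine Ex_mono (hM.prob _).nonneg fun C hC => ?_
    rw [← I_and]
    refine I_mono fun h => ⟨fun e he => ?_, fun e he => ?_⟩
    · obtain ⟨b1, b2⟩ := Finset.mem_filter.mp he
      exact (Finset.mem_union.mp (h b1)).resolve_right fun h' => absurd (low _ C hC e h') (by omega)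
    · obtain ⟨b1, b2⟩ := Finset.mem_filter.mp he
      exact (Finset.mem_union.mp (h b1)).resolve_left fun h' =>
        b2 (top s hs e ((hT.supp s hs).2 h'))
  · rw [Ex_prodL]
    have a1 : Ex p (fun s => I (e ∈ s.1 ∧ e ∉ s.2)) ≤ θ / D := by
      by_cases h : Λ + 1 < e.card
      · exact hT.bad e (mem_top.mpr ⟨he, h⟩)
      · refine Ex_le_const hT.prob fun s hs => ?_
        rw [I_neg fun h' => h (top s hs e h'.1)]
        exact div_nonneg hP.h5 hD.le
    refine le_trans (Ex_mono hT.prob.nonneg fun s _ => ?_) a1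
    refine Ex_le_const (hM.prob _) fun C _ => I_mono fun h => ?_
    simp only [Finset.mem_union, not_or] at h
    exact ⟨h.1.resolve_right h.2.2, h.2.1⟩
  · have a1 : bw D K η L f = (1 + η) / D := if_pos h2
    have a2 : (1 + η) / (D : ℝ) ^ 2 = Ex p (fun s => I (e ∈ s.1) * bw D K η L f) := by
      rw [Ex_mul_const, hT.marg e (mem_top.mpr ⟨he, h1⟩), a1]
      field_simp
    rw [Ex_prodL, a2]
    refine Ex_mono hT.prob.nonneg fun s hs => ?_
    have a3 := hM.upper (cov s) {f}
      (Finset.singleton_subset_iff.mpr (mem_low.mpr ⟨hf, by omega⟩))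
      (by rw [Finset.card_singleton]; linarith [hP.l4])
    rw [Finset.prod_singleton] at a3
    refine le_trans ?_ (mul_le_mul_of_nonneg_left a3 (I_nonneg _))
    rw [← Ex_const_mul]
    refine Ex_mono (hM.prob _).nonneg fun C hC => ?_
    rw [← I_and]
    refine I_mono fun h => ⟨?_, Finset.singleton_subset_iff.mpr ?_⟩
    · exact (Finset.mem_union.mp h.1).resolve_right fun h' => absurd (low _ C hC e h') (by omega)
    · exact (Finset.mem_union.mp h.2).resolve_left fun h' => absurd (top s hs f h') (by omega)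

end LComb

theorem comb : StComb := by
  intro V _ _ B D K Λ l η η' L θ p vp q _ hP hT hL
  obtain ⟨r, hr⟩ := LComb.exists_mid hP hT hL
  exact ⟨_, LComb.spec hP hT hr⟩

end Pool.Agent.P.MP_553766_co.Lg
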