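import Mathlib
import Pool.Agent.P.MP_553766_co.LSt1

set_option autoImplicit false
set_option linter.unusedSectionVars false
set_option linter.unusedVariables false

/-! The gain from a block of jumps is large enough. -/

namespace Pool.Agent.P.MP_553766_co.Lg

open Finset Pool.Agent.P.MP_553766_co

namespace LGain

variable {V : Type} [DecidableEq V]

lemma mem_nbE {T : Finset (Finset V)} {e f : Finset V} :
    f ∈ nbE T e ↔ f ∈ T ∧ f ≠ e ∧ ¬ Disjoint e f := by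
  unfold nbE; rw [mem_filter]

lemma nbE_mono {T B : Finset (Finset V)} (h : T ⊆ B) (e : Finset V) : nbE T e ⊆ nbE B e :=
  filter_subset_filter _ h

lemma lam_nonneg {B : Finset (Finset V)} {D : ℕ} (h : Hyp B D) {e : Finset V} (he : e ∈ B) :
    0 ≤ lam e := by linarith [h.two_le_lam he]

/-- the other edges through a point of e -/
lemma sum_at {B : Finset (Finset V)} {D : ℕ} (h : Hyp B D) {e : Finset V} (he : e ∈ B)
    {F : Finset (Finset V)} (hF : F ⊆ nbE B e) {v : V} (hv : v ∈ e) :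
    ∑ g ∈ F.filter (fun g => v ∈ g), lam g ≤ (D : ℝ) - 1 - lam e := by
  have h1 := h.deg v
  have h2 : e ∈ B.filter (fun g => v ∈ g) := mem_filter.2 ⟨he, hv⟩
  rw [← add_sum_erase _ _ h2] at h1
  have h3 : ∑ g ∈ F.filter (fun g => v ∈ g), lam g ≤
      ∑ g ∈ (B.filter (fun g => v ∈ g)).erase e, lam g := by
    refine sum_le_sum_of_subset_of_nonneg (fun g hg => ?_) fun g hg _ => ?_
    · obtain ⟨hg1, hg2⟩ := mem_filter.1 hg
      obtain ⟨a, b, -⟩ := mem_nbE.1 (hF hg1)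
      exact mem_erase.2 ⟨b, mem_filter.2 ⟨a, hg2⟩⟩
    · exact lam_nonneg h (mem_filter.1 (mem_erase.1 hg).2).1
  linarith

/-- counting lemma 1 -/
lemma sum_nb {B : Finset (Finset V)} {D : ℕ} (h : Hyp B D) {e : Finset V} (he : e ∈ B)
    {F : Finset (Finset V)} (hF : F ⊆ nbE B e) :
    ∑ g ∈ F, lam g ≤ (lam e + 1) * ((D : ℝ) - 1 - lam e) := by
  have h1 : ∑ g ∈ F, lam g ≤ ∑ v ∈ e, ∑ g ∈ F.filter (fun g => v ∈ g), lam g := by
    simp only [sum_filter]
    rw [sum_comm]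
    refine sum_le_sum fun g hg => ?_
    obtain ⟨a, -, c⟩ := mem_nbE.1 (hF hg)
    obtain ⟨v, hv1, hv2⟩ := not_disjoint_iff.1 c
    have h0 := lam_nonneg h a
    have := single_le_sum (f := fun v => if v ∈ g then lam g else 0) (s := e)
      (fun i _ => by split_ifs; exacts [h0, le_rfl]) hv1
    simpa [hv2] using this
  refine h1.trans ?_
  have h2 := sum_le_card_nsmul e (fun v => ∑ g ∈ F.filter (fun g => v ∈ g), lam g)
    ((D : ℝ) - 1 - lam e) fun v hv => sum_at h he hF hv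
  rw [nsmul_eq_mul] at h2
  have h3 : lam e + 1 = (e.card : ℝ) := by unfold lam; ring
  rw [h3]; exact h2

lemma card_cross {B : Finset (Finset V)} {D : ℕ} (h : Hyp B D) {e : Finset V} (he : e ∈ B)
    {F : Finset (Finset V)} (hF : F ⊆ nbE B e) {f : Finset V} (hf : f ∈ F) {v : V} (hv : v ∈ e)
    (hvf : v ∈ f) :
    ((F.filter (fun g => ¬ Disjoint f g ∧ v ∉ g)).card : ℝ) ≤ lam f * lam e := by
  obtain ⟨hfB, hfe, -⟩ := mem_nbE.1 (hF hf)
  have h1 : F.filter (fun g => ¬ Disjoint f g ∧ v ∉ g) ⊆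
      ((f.erase v) ×ˢ (e.erase v)).biUnion
        (fun x => B.filter (fun g => x.1 ≠ x.2 ∧ x.1 ∈ g ∧ x.2 ∈ g)) := by
    intro g hg
    obtain ⟨hg1, hg2, hg3⟩ := mem_filter.1 hg
    obtain ⟨a, -, c⟩ := mem_nbE.1 (hF hg1)
    obtain ⟨v', p1, p2⟩ := not_disjoint_iff.1 c
    obtain ⟨y, q1, q2⟩ := not_disjoint_iff.1 hg2
    have n1 : v' ≠ v := fun e => hg3 (e ▸ p2)
    have n2 : y ≠ v := fun e => hg3 (e ▸ q2)
    refine mem_biUnion.2 ⟨(y, v'), mem_product.2 ⟨mem_erase.2 ⟨n2, q1⟩, mem_erase.2 ⟨n1, p1⟩⟩,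
      mem_filter.2 ⟨a, ?_, q2, p2⟩⟩
    intro e'
    have e'' : y = v' := e'
    exact hfe (h.eq_of_two hfB he n2 q1 hvf (e'' ▸ p1) hv)
  have h2 := card_biUnion_le_card_mul ((f.erase v) ×ˢ (e.erase v))
    (fun x => B.filter (fun g => x.1 ≠ x.2 ∧ x.1 ∈ g ∧ x.2 ∈ g)) 1 (fun x _ => by
      refine card_le_one.2 fun a ha b hb => ?_
      obtain ⟨a1, a2, a3, a4⟩ := mem_filter.1 ha
      obtain ⟨b1, -, b3, b4⟩ := mem_filter.1 hb
      exact h.eq_of_two a1 b1 a2 a3 a4 b3 b4)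
  have h3 := (card_le_card h1).trans h2
  rw [mul_one, card_product] at h3
  have h4 : ((f.erase v).card : ℝ) = lam f := by
    have := card_erase_add_one hvf
    unfold lam; rw [← this]; push_cast; ring
  have h5 : ((e.erase v).card : ℝ) = lam e := by
    have := card_erase_add_one hv
    unfold lam; rw [← this]; push_cast; ring
  rw [← h4, ← h5]
  exact_mod_cast h3

/-- counting lemma 2 -/
lemma partners {B : Finset (Finset V)} {D : ℕ} (h : Hyp B D) {e : Finset V} (he : e ∈ B)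
    {F : Finset (Finset V)} (hF : F ⊆ nbE B e) {w : Finset V → ℝ} {wb R : ℝ}
    (hw : ∀ g ∈ F, 0 ≤ w g ∧ w g ≤ wb)
    (hR : ∀ v ∈ e, ∑ g ∈ F.filter (fun g => v ∈ g), w g ≤ R) {f : Finset V} (hf : f ∈ F) :
    ∑ g ∈ F, w g - R - lam f * lam e * wb ≤ ∑ g ∈ F.filter (fun g => Disjoint f g), w g := by
  obtain ⟨-, -, c⟩ := mem_nbE.1 (hF hf)
  obtain ⟨v, hv, hvf⟩ := not_disjoint_iff.1 c
  have hwb : 0 ≤ wb := (hw f hf).1.trans (hw f hf).2
  have h1 := card_cross h he hF hf hv hvf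
  have h2 := sum_le_card_nsmul (F.filter (fun g => ¬ Disjoint f g ∧ v ∉ g)) w wb
    fun g hg => (hw g (mem_filter.1 hg).1).2
  rw [nsmul_eq_mul] at h2
  have h3 := mul_le_mul_of_nonneg_right h1 hwb
  have h4 : ∑ g ∈ F, w g ≤ ∑ g ∈ F.filter (fun g => Disjoint f g), w g +
      ∑ g ∈ F.filter (fun g => v ∈ g), w g +
      ∑ g ∈ F.filter (fun g => ¬ Disjoint f g ∧ v ∉ g), w g := by
    simp only [sum_filter, ← sum_add_distrib]
    refine sum_le_sum fun g hg => ?_
    have := (hw g hg).1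
    by_cases a : Disjoint f g <;> by_cases b : v ∈ g <;> simp [a, b, this]
  linarith [hR v hv]

lemma gainF_nonneg {T : Finset (Finset V)} {m : Finset V → ℝ} {e : Finset V}
    (hm : ∀ f ∈ nbE T e, 0 ≤ m f) : 0 ≤ gainF T m e := by
  unfold gainF
  split_ifs
  · refine mul_nonneg (by norm_num) (sum_nonneg fun f hf => sum_nonneg fun g hg => ?_)
    exact mul_nonneg (hm f hf) (hm g (mem_filter.1 hg).1)
  · exact le_rfl

lemma gain_ge {T : Finset (Finset V)} {m : Finset V → ℝ} {e : Finset V}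
    (hm : ∀ f ∈ nbE T e, 0 ≤ m f) (hs : ∑ f ∈ nbE T e, m f ≤ 1.01) {F : Finset (Finset V)}
    (hF : F ⊆ nbE T e) {w P : Finset V → ℝ} {k : ℝ} (hk : 0 ≤ k) (hw : ∀ f ∈ F, 0 ≤ w f)
    (hkw : ∀ f ∈ F, k * w f ≤ m f)
    (hP : ∀ f ∈ F, P f ≤ ∑ g ∈ F.filter (fun g => Disjoint f g), w g) :
    k ^ 2 / 5 * ∑ f ∈ F, w f * P f ≤ gainF T m e := by
  unfold gainF
  rw [if_pos hs]
  have h1 : k ^ 2 * ∑ f ∈ F, w f * P f ≤
      ∑ f ∈ F, ∑ g ∈ (nbE T e).filter (fun g => Disjoint f g), m f * m g := by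
    rw [mul_sum]
    refine sum_le_sum fun f hf => ?_
    rw [← mul_sum]
    have a1 : k * P f ≤ ∑ g ∈ (nbE T e).filter (fun g => Disjoint f g), m g := by
      refine (mul_le_mul_of_nonneg_left (hP f hf) hk).trans ?_
      rw [mul_sum]
      refine (sum_le_sum fun g hg => hkw g (mem_filter.1 hg).1).trans ?_
      exact sum_le_sum_of_subset_of_nonneg (filter_subset_filter _ hF)
        fun g hg _ => hm g (mem_filter.1 hg).1
    have a2 : 0 ≤ ∑ g ∈ (nbE T e).filter (fun g => Disjoint f g), m g :=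
      sum_nonneg fun g hg => hm g (mem_filter.1 hg).1
    calc k ^ 2 * (w f * P f) = (k * w f) * (k * P f) := by ring
      _ ≤ (k * w f) * ∑ g ∈ (nbE T e).filter (fun g => Disjoint f g), m g :=
        mul_le_mul_of_nonneg_left a1 (mul_nonneg hk (hw f hf))
      _ ≤ _ := mul_le_mul_of_nonneg_right (hkw f hf) a2
  have h2 : ∑ f ∈ F, ∑ g ∈ (nbE T e).filter (fun g => Disjoint f g), m f * m g ≤
      ∑ f ∈ nbE T e, ∑ g ∈ (nbE T e).filter (fun g => Disjoint f g), m f * m g :=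
    sum_le_sum_of_subset_of_nonneg hF fun f hf _ => sum_nonneg fun g hg =>
      mul_nonneg (hm f hf) (hm g (mem_filter.1 hg).1)
  linarith

/-- the parameters as real inequalities -/
lemma par {D Λ S : ℕ} (h : TopPar D Λ S) (hD : (0 : ℝ) < D) :
    (10 : ℝ) ^ 7 ≤ Λ ∧ (D : ℝ) ≤ (S : ℝ) ^ 2 ∧ 10 ^ 6 * (S : ℝ) ^ 2 ≤ (Λ : ℝ) ^ 3 ∧
      10 ^ 4 * (S : ℝ) * Λ ≤ D ∧ 10 ^ 4 * (Λ : ℝ) ≤ S ∧ 10 ^ 8 * (Λ : ℝ) ^ 2 ≤ D := by
  have h3 : (10 : ℝ) ^ 7 ≤ Λ := by exact_mod_cast h.h3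
  have hS : (D : ℝ) ≤ (S : ℝ) ^ 2 := by exact_mod_cast h.hS
  have h1 : 10 ^ 6 * (S : ℝ) ^ 2 ≤ (Λ : ℝ) ^ 3 := by exact_mod_cast h.h1
  have h2 : 10 ^ 4 * (S : ℝ) * Λ ≤ D := by exact_mod_cast h.h2
  have hS0 : (0 : ℝ) < S := by
    rcases (Nat.cast_nonneg S : (0 : ℝ) ≤ S).lt_or_eq with a | a
    · exact a
    · rw [← a] at hS; linarith
  have h4 : 10 ^ 4 * (Λ : ℝ) ≤ S := by
    refine le_of_mul_le_mul_left ?_ hS0
    nlinarith
  refine ⟨h3, hS, h1, h2, h4, ?_⟩
  have : 10 ^ 4 * (Λ : ℝ) * Λ ≤ S * Λ := mul_le_mul_of_nonneg_right h4 (by linarith)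
  nlinarith

lemma lam_top {B : Finset (Finset V)} {Λ : ℕ} {e : Finset V} (he : e ∈ topE B Λ) :
    e ∈ B ∧ (Λ : ℝ) ≤ lam e := by
  obtain ⟨a, b⟩ := mem_filter.1 he
  have : ((Λ + 1 : ℕ) : ℝ) < e.card := by exact_mod_cast b
  push_cast at this
  exact ⟨a, by unfold lam; linarith⟩

lemma nb_top {B : Finset (Finset V)} {Λ : ℕ} (e : Finset V) : nbE (topE B Λ) e ⊆ nbE B e :=
  nbE_mono (filter_subset _ _) e

/-- masses bounded by lam * t / D have a small sum -/
lemma mass_le {B : Finset (Finset V)} {D : ℕ} (h : Hyp B D) {e : Finset V} (he : e ∈ B)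
    {F : Finset (Finset V)} (hF : F ⊆ nbE B e) {m : Finset V → ℝ} {t : ℝ} (ht : 0 ≤ t)
    (hm : ∀ f ∈ F, m f ≤ lam f * t / D) : ∑ f ∈ F, m f ≤ (lam e + 1) * t := by
  have h0 := h.two_le_lam he
  have h1 := h.lam_le he
  have hD : (0 : ℝ) < D := by linarith
  refine (sum_le_sum hm).trans ?_
  rw [← sum_div, ← sum_mul, div_le_iff₀ hD]
  have h2 := sum_nb h he hF
  have h3 : (lam e + 1) * ((D : ℝ) - 1 - lam e) ≤ (lam e + 1) * D :=
    mul_le_mul_of_nonneg_left (by linarith) (by linarith)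
  have h4 := mul_le_mul_of_nonneg_right (h2.trans h3) ht
  linarith

lemma muB_bd {D Λ S : ℕ} {t : ℝ} (ht : 0 ≤ t) {f : Finset V} (hf : 0 ≤ lam f) :
    0 ≤ muB D Λ S t f ∧ muB D Λ S t f ≤ lam f * t / D := by
  have : 0 ≤ lam f * t / D := by positivity
  unfold muB
  split_ifs
  exacts [⟨this, le_rfl⟩, ⟨le_rfl, this⟩]

lemma muC_bd {D Λ : ℕ} {t : ℝ} (ht : 0 ≤ t) {f : Finset V} (hf : 0 ≤ lam f) :
    0 ≤ muC D Λ t f ∧ muC D Λ t f ≤ lam f * t / D := by
  have : 0 ≤ lam f * t / D := by positivity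
  unfold muC
  split_ifs
  exacts [⟨this, le_rfl⟩, ⟨le_rfl, this⟩]

/-- the weight of the members with lam < 4 S -/
lemma weight {ι : Type} (Str : Finset ι) (a : ι → ℝ) {l S O X : ℝ} (hl : 0 ≤ l) (hS : l ≤ S)
    (hO : 0 < O) (h1 : X - O < ∑ f ∈ Str, min (a f) l) (h2 : ∑ f ∈ Str, a f ≤ X + O) :
    X - 2 * O ≤ ∑ f ∈ Str.filter (fun f => a f < 4 * S), min (a f) l ∧
      ∑ f ∈ Str.filter (fun f => a f < 4 * S), (a f - min (a f) l) ≤ 2 * O := by
  have h3 : ∑ f ∈ Str, (a f - min (a f) l) ≤ 2 * O := by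
    rw [sum_sub_distrib]; linarith
  constructor
  · have h4 : ∑ f ∈ Str, min (a f) l ≤ ∑ f ∈ Str.filter (fun f => a f < 4 * S), min (a f) l +
        (∑ f ∈ Str, (a f - min (a f) l)) / 3 := by
      rw [sum_filter, sum_div, ← sum_add_distrib]
      refine sum_le_sum fun f _ => ?_
      have := min_le_left (a f) l
      have := min_le_right (a f) l
      split_ifs with c
      · linarith
      · push Not at c
        linarith
    linarith
  · refine le_trans (sum_le_sum_of_subset_of_nonneg (filter_subset _ _) fun f _ _ => ?_) h3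
    linarith [min_le_left (a f) l]

/-- the case of the middle class only -/
lemma caseB {B : Finset (Finset V)} {D : ℕ} (h : Hyp B D) {e : Finset V} (he : e ∈ B)
    {F : Finset (Finset V)} (hF : F ⊆ nbE B e) {O : ℝ} (hO : O = (D : ℝ) - 1 - lam e ^ 2 - lam e)
    (hO0 : 0 < O) (hl : 100 ≤ lam e)
    (h1 : lam e * ((D : ℝ) - 1) - 2 * O ≤ ∑ f ∈ F, min (lam f) (lam e))
    (h2 : ∑ f ∈ F, (lam f - min (lam f) (lam e)) ≤ 2 * O) :
    ∃ P : Finset V → ℝ,
      (∀ f ∈ F, P f ≤ ∑ g ∈ F.filter (fun g => Disjoint f g), min (lam g) (lam e)) ∧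
      O * lam e ^ 2 * D / 2 ≤ ∑ f ∈ F, min (lam f) (lam e) * P f := by
  have hB : ∀ g ∈ F, 0 ≤ lam g := fun g hg => lam_nonneg h (mem_nbE.1 (hF hg)).1
  have hw : ∀ g ∈ F, 0 ≤ min (lam g) (lam e) ∧ min (lam g) (lam e) ≤ lam e := fun g hg =>
    ⟨le_min (hB g hg) (by linarith), min_le_right _ _⟩
  have hR : ∀ v ∈ e, ∑ g ∈ F.filter (fun g => v ∈ g), min (lam g) (lam e) ≤
      (D : ℝ) - 1 - lam e := fun v hv =>
    (sum_le_sum fun g _ => min_le_left _ _).trans (sum_at h he hF hv)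
  generalize hl' : lam e = l at *
  refine ⟨fun f => (l - 3) * O - (lam f - min (lam f) l) * l ^ 2, fun f hf => ?_, ?_⟩
  · have a1 := partners h he hF hw hR hf
    rw [hl'] at a1
    have a2 : min (lam f) l * l ^ 2 ≤ l * l ^ 2 :=
      mul_le_mul_of_nonneg_right (min_le_right _ _) (by positivity)
    have a3 : (D : ℝ) - 1 = O + l ^ 2 + l := by linarith
    rw [a3] at h1 a1
    nlinarith
  · have a1 : ∑ f ∈ F, ((l - 3) * O * min (lam f) l - l ^ 3 * (lam f - min (lam f) l)) ≤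
        ∑ f ∈ F, min (lam f) l * ((l - 3) * O - (lam f - min (lam f) l) * l ^ 2) := by
      refine sum_le_sum fun f hf => ?_
      have b1 : 0 ≤ (lam f - min (lam f) l) * l ^ 2 :=
        mul_nonneg (by linarith [min_le_left (lam f) l]) (by positivity)
      have b2 := mul_le_mul_of_nonneg_right (hw f hf).2 b1
      nlinarith
    rw [sum_sub_distrib, ← mul_sum, ← mul_sum] at a1
    refine le_trans ?_ a1
    have b1 := mul_le_mul_of_nonneg_left h1 (mul_nonneg (by linarith : 0 ≤ l - 3) hO0.le)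
    have b2 := mul_le_mul_of_nonneg_left h2 (by positivity : 0 ≤ l ^ 3)
    have c0 : l ^ 2 + l ≤ (D : ℝ) - 1 := by linarith
    have c1 : 10000 ≤ l ^ 2 := by nlinarith
    have c2 : l ^ 2 * D / 2 ≤ (l - 3) * (l * ((D : ℝ) - 1) - 2 * O) - 2 * l ^ 3 := by
      have d1 : (l - 2) * ((D : ℝ) - 1) ≤ l * ((D : ℝ) - 1) - 2 * O := by nlinarith
      have d2 := mul_le_mul_of_nonneg_left d1 (by linarith : 0 ≤ l - 3)
      have d3 : l * l ^ 2 ≤ l * ((D : ℝ) - 1) :=
        mul_le_mul_of_nonneg_left (by linarith) (by linarith)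
      have d4 : 0.9 * l ^ 2 ≤ l ^ 2 - 7 * l + 6 := by nlinarith
      have d5 := mul_le_mul_of_nonneg_right d4 (by linarith : 0 ≤ (D : ℝ) - 1)
      have d6 : l ^ 2 * (0.9 * D) ≤ l ^ 2 * ((D : ℝ) - 1) :=
        mul_le_mul_of_nonneg_left (by linarith) (by positivity)
      have d7 : 0 ≤ l ^ 2 * D := by positivity
      nlinarith
    have c3 := mul_le_mul_of_nonneg_left c2 hO0.le
    nlinarith

/-- the case of a heavy class -/
lemma caseC {B : Finset (Finset V)} {D : ℕ} (h : Hyp B D) {e : Finset V} (he : e ∈ B)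
    {F : Finset (Finset V)} (hF : F ⊆ nbE B e) {Y : ℝ} (hl : 1000 ≤ lam e)
    (hY : ∀ f ∈ F, lam f ≤ Y) (hY2 : Y * lam e ≤ 0.035 * D)
    (h1 : 0.49 * (lam e * D) ≤ ∑ f ∈ F, min (lam f) (lam e)) :
    (∀ f ∈ F, 0.45 * (lam e * D) ≤
      ∑ g ∈ F.filter (fun g => Disjoint f g), min (lam g) (lam e)) ∧
      0.22 * (lam e * D) ^ 2 ≤ ∑ f ∈ F, min (lam f) (lam e) * (0.45 * (lam e * D)) := by
  have hB : ∀ g ∈ F, 0 ≤ lam g := fun g hg => lam_nonneg h (mem_nbE.1 (hF hg)).1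
  have hw : ∀ g ∈ F, 0 ≤ min (lam g) (lam e) ∧ min (lam g) (lam e) ≤ lam e := fun g hg =>
    ⟨le_min (hB g hg) (by linarith), min_le_right _ _⟩
  have hR : ∀ v ∈ e, ∑ g ∈ F.filter (fun g => v ∈ g), min (lam g) (lam e) ≤
      (D : ℝ) - 1 - lam e := fun v hv =>
    (sum_le_sum fun g _ => min_le_left _ _).trans (sum_at h he hF hv)
  have hD : (0 : ℝ) ≤ D := Nat.cast_nonneg D
  generalize hl' : lam e = l at *
  refine ⟨fun f hf => ?_, ?_⟩
  · have a1 := partners h he hF hw hR hf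
    rw [hl'] at a1
    have a2 : lam f * l ≤ 0.035 * D :=
      (mul_le_mul_of_nonneg_right (hY f hf) (by linarith)).trans hY2
    have a3 := mul_le_mul_of_nonneg_right a2 (by linarith : 0 ≤ l)
    have a4 := mul_le_mul_of_nonneg_right hl hD
    nlinarith
  · rw [← sum_mul]
    have a0 : 0 ≤ l * D := mul_nonneg (by linarith) hD
    have a1 := mul_le_mul_of_nonneg_right h1 (by linarith : 0 ≤ 0.45 * (l * D))
    nlinarith [sq_nonneg (l * D)]

end LGain

open LGain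

theorem gainTop : StGainTop := by
  intro V _ _ B D Λ S tB tC h hp b1 b2 c1 c2 e he fl hfl hO0 hsum
  obtain ⟨heB, hl⟩ := lam_top he
  have l2 := h.two_le_lam heB
  have l3 := h.lam_le heB
  have hD : (0 : ℝ) < D := by linarith
  obtain ⟨p1, p2, p3, p4, p5, p6⟩ := par hp hD
  have hΛ : (0 : ℝ) < Λ := by linarith
  have hS : (0 : ℝ) < S := by linarith
  have hlS : lam e ≤ S := by
    refine (abs_le_of_sq_le_sq' ?_ hS.le).2
    linarith
  have tB0 : 0 < tB := lt_of_lt_of_le (by positivity) b1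
  have tC0 : 0 < tC := lt_of_lt_of_le (by positivity) c1
  have tBC : tB ≤ tC := by
    refine b2.trans (le_trans ?_ c1)
    exact one_div_le_one_div_of_le (by positivity) (by linarith)
  have key : 500 ≤ tB ^ 2 * lam e ^ 3 := by
    have a1 : 1 ≤ tB * (41 * S) := (div_le_iff₀ (by positivity)).1 b1
    have a2 : 1 ≤ (tB * (41 * S)) ^ 2 := one_le_pow₀ a1
    have a3 : (Λ : ℝ) ^ 3 ≤ lam e ^ 3 := pow_le_pow_left₀ hΛ.le hl 3
    have a4 := mul_le_mul_of_nonneg_left (p3.trans a3) (sq_nonneg tB)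
    nlinarith
  set N := nbE (topE B Λ) e with hN
  have hNB : N ⊆ nbE B e := nb_top e
  have hN0 : ∀ f ∈ N, 0 ≤ lam f := fun f hf => lam_nonneg h (mem_nbE.1 (hNB hf)).1
  obtain ⟨O, hO⟩ : ∃ O, O = (D : ℝ) - 1 - lam e ^ 2 - lam e := ⟨_, rfl⟩
  rw [← hO] at hO0 hsum ⊢
  have hStr : N.filter (fun f => 8 * (Λ : ℝ) ≤ lam f ∨ fl = true) ⊆ nbE B e :=
    (filter_subset _ _).trans hNB
  have s1 := sum_nb h heB hStr
  have s2 : (lam e + 1) * ((D : ℝ) - 1 - lam e) = lam e * ((D : ℝ) - 1) + O := by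
    rw [hO]; ring
  rw [s2] at s1
  obtain ⟨w1, w2⟩ := weight _ lam (by linarith) hlS hO0 hsum s1
  have hmB : ∀ f ∈ N, 0 ≤ muB D Λ S tB f := fun f hf => (muB_bd tB0.le (hN0 f hf)).1
  have hsB : ∑ f ∈ N, muB D Λ S tB f ≤ 1.01 := by
    refine (mass_le h heB hNB tB0.le fun f hf => (muB_bd tB0.le (hN0 f hf)).2).trans ?_
    have a1 : tB * (40 * S) ≤ 1 := (le_div_iff₀ (by positivity)).1 b2
    have a2 : (lam e + 1) * tB ≤ (40 * S) * tB :=
      mul_le_mul_of_nonneg_right (by linarith) tB0.le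
    linarith
  have hk : 0 ≤ tB / D := by positivity
  have hkB : ∀ f ∈ N, 8 * (Λ : ℝ) ≤ lam f → lam f < 4 * S →
      tB / D * min (lam f) (lam e) ≤ muB D Λ S tB f := by
    intro f _ a1 a2
    unfold muB
    rw [if_pos ⟨a1, a2⟩]
    have := mul_le_mul_of_nonneg_left (min_le_left (lam f) (lam e)) hk
    refine this.trans (le_of_eq ?_)
    ring
  have hl0 : 0 < lam e := by linarith
  cases fl
  · refine le_trans ?_ (le_max_left _ _)
    set F := (N.filter (fun f => 8 * (Λ : ℝ) ≤ lam f ∨ false = true)).filter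
      (fun f => lam f < 4 * (S : ℝ)) with hF
    have hFN : F ⊆ N := (filter_subset _ _).trans (filter_subset _ _)
    obtain ⟨P, hP, hP2⟩ := caseB h heB (hFN.trans hNB) hO hO0 (by linarith) w1 w2
    have g := gain_ge hmB hsB hFN hk (fun f hf => le_min (hN0 f (hFN hf)) hl0.le)
      (fun f hf => by
        obtain ⟨a1, a2⟩ := mem_filter.1 hf
        obtain ⟨a3, a4⟩ := mem_filter.1 a1
        exact hkB f a3 (by simpa using a4) a2) hP
    refine le_trans ?_ g
    refine le_trans ?_ (mul_le_mul_of_nonneg_left hP2 (by positivity))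
    have e1 : (tB / D) ^ 2 / 5 * (O * lam e ^ 2 * D / 2) =
        (tB ^ 2 * lam e ^ 3 / 10) * O / (D * lam e) := by
      field_simp
      ring
    rw [e1]
    refine div_le_div_of_nonneg_right ?_ (by positivity)
    exact mul_le_mul_of_nonneg_right (by linarith) hO0.le
  · have hl81 : lam e ≤ 81 * Λ := by
      have a1 : 1 ≤ tC * (81 * Λ) := (div_le_iff₀ (by positivity)).1 c1
      have a2 := hfl rfl
      refine le_of_mul_le_mul_right ?_ tC0
      linarith
    have hY2 : 4 * (S : ℝ) * lam e ≤ 0.035 * D := by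
      have := mul_le_mul_of_nonneg_left hl81 hS.le
      have := mul_pos hS hΛ
      nlinarith
    have fin : ∀ {G : ℝ}, (tB / D) ^ 2 / 5 * (0.22 * (lam e * D) ^ 2) ≤ G →
        2 * O / (D * lam e) ≤ G := by
      intro G hG
      refine le_trans ?_ hG
      have e1 : (tB / D) ^ 2 / 5 * (0.22 * (lam e * D) ^ 2) =
          (0.044 * (tB ^ 2 * lam e ^ 3)) * D / (D * lam e) := by
        field_simp
        ring
      rw [e1]
      refine div_le_div_of_nonneg_right ?_ (by positivity)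
      have a1 : O ≤ D := by nlinarith
      have a2 : 2 * (D : ℝ) ≤ (0.044 * (tB ^ 2 * lam e ^ 3)) * D :=
        mul_le_mul_of_nonneg_right (by linarith) hD.le
      linarith
    set F := (N.filter (fun f => 8 * (Λ : ℝ) ≤ lam f ∨ true = true)).filter
      (fun f => lam f < 4 * (S : ℝ)) with hF
    have hFN : F ⊆ N := (filter_subset _ _).trans (filter_subset _ _)
    have hF4 : ∀ f ∈ F, lam f < 4 * (S : ℝ) := fun f hf => (mem_filter.1 hf).2
    have split := sum_filter_add_sum_filter_not F (fun f => lam f < 8 * (Λ : ℝ))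
      (fun f => min (lam f) (lam e))
    have big : 0.98 * (lam e * D) ≤ lam e * ((D : ℝ) - 1) - 2 * O := by
      have a1 : O ≤ D := by nlinarith
      have a2 : 1000 * (D : ℝ) ≤ lam e * D := mul_le_mul_of_nonneg_right (by linarith) hD.le
      nlinarith
    by_cases hc : 0.49 * (lam e * D) ≤
        ∑ f ∈ F.filter (fun f => lam f < 8 * (Λ : ℝ)), min (lam f) (lam e)
    · refine le_trans ?_ (le_max_right _ _)
      rw [if_pos rfl]
      have hF2 : F.filter (fun f => lam f < 8 * (Λ : ℝ)) ⊆ N := (filter_subset _ _).trans hFN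
      obtain ⟨hP, hP2⟩ := caseC h heB (hF2.trans hNB) (by linarith)
        (fun f hf => (hF4 f (mem_filter.1 hf).1).le) hY2 hc
      have hmC : ∀ f ∈ N, 0 ≤ muC D Λ tC f := fun f hf => (muC_bd tC0.le (hN0 f hf)).1
      have hsC : ∑ f ∈ N, muC D Λ tC f ≤ 1.01 := by
        refine (mass_le h heB hNB tC0.le fun f hf => (muC_bd tC0.le (hN0 f hf)).2).trans ?_
        have a1 : tC * (80 * Λ) ≤ 1 := (le_div_iff₀ (by positivity)).1 c2
        have a2 := hfl rfl
        have a3 : tC * 100 ≤ tC * (80 * Λ) := mul_le_mul_of_nonneg_left (by linarith) tC0.le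
        linarith
      have g := gain_ge hmC hsC hF2 hk (fun f hf => le_min (hN0 f (hF2 hf)) hl0.le)
        (fun f hf => by
          unfold muC
          rw [if_pos (mem_filter.1 hf).2]
          have a1 := mul_le_mul_of_nonneg_left (min_le_left (lam f) (lam e)) hk
          refine a1.trans ?_
          have a2 := mul_le_mul_of_nonneg_left tBC (hN0 f (hF2 hf))
          calc tB / D * lam f = lam f * tB / D := by ring
            _ ≤ _ := div_le_div_of_nonneg_right a2 hD.le) hP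
      exact fin ((mul_le_mul_of_nonneg_left hP2 (by positivity)).trans g)
    · refine le_trans ?_ (le_max_left _ _)
      have hc2 : 0.49 * (lam e * D) ≤
          ∑ f ∈ F.filter (fun f => ¬ lam f < 8 * (Λ : ℝ)), min (lam f) (lam e) := by
        push Not at hc
        linarith
      have hF2 : F.filter (fun f => ¬ lam f < 8 * (Λ : ℝ)) ⊆ N := (filter_subset _ _).trans hFN
      obtain ⟨hP, hP2⟩ := caseC h heB (hF2.trans hNB) (by linarith)
        (fun f hf => (hF4 f (mem_filter.1 hf).1).le) hY2 hc2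
      have g := gain_ge hmB hsB hF2 hk (fun f hf => le_min (hN0 f (hF2 hf)) hl0.le)
        (fun f hf => hkB f (hF2 hf) (not_lt.1 (mem_filter.1 hf).2) (hF4 f (mem_filter.1 hf).1)) hP
      exact fin ((mul_le_mul_of_nonneg_left hP2 (by positivity)).trans g)

theorem gainObs : StGainObs := by
  intro V _ _ B D Λ S tC h hp c1 c2 e he
  obtain ⟨heB, hcard⟩ := mem_filter.1 he
  have hk : (e.card : ℝ) ≤ Λ + 1 := by exact_mod_cast hcard
  have hlam : lam e + 1 = e.card := by unfold lam; ring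
  have l2 := h.two_le_lam heB
  have l3 := h.lam_le heB
  have hD : (0 : ℝ) < D := by linarith
  obtain ⟨p1, p2, p3, p4, p5, p6⟩ := par hp hD
  have hΛ : (0 : ℝ) < Λ := by linarith
  have tC0 : 0 < tC := lt_of_lt_of_le (by positivity) c1
  set N := nbE (topE B Λ) e with hN
  have hNB : N ⊆ nbE B e := nb_top e
  have hNl : ∀ f ∈ N, (Λ : ℝ) ≤ lam f := fun f hf => (lam_top (mem_nbE.1 hf).1).2
  have hN0 : ∀ f ∈ N, 0 ≤ lam f := fun f hf => hΛ.le.trans (hNl f hf)
  have cnt : ∀ (F : Finset (Finset V)) (y : ℝ), (∀ f ∈ F, y ≤ lam f) →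
      (F.card : ℝ) * y ≤ ∑ f ∈ F, lam f := fun F y hy => by
    have := card_nsmul_le_sum F lam y hy
    rwa [nsmul_eq_mul] at this
  have tot : ∀ F ⊆ N, ∑ f ∈ F, lam f ≤ (e.card : ℝ) * D := fun F hF => by
    refine (sum_nb h heB (hF.trans hNB)).trans ?_
    rw [hlam]
    exact mul_le_mul_of_nonneg_left (by linarith) (Nat.cast_nonneg _)
  have first : (N.card : ℝ) / D ≤ (e.card : ℝ) / Λ := by
    rw [div_le_div_iff₀ hD hΛ]
    exact (cnt N Λ hNl).trans (tot N subset_rfl)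
  refine ⟨first, ?_⟩
  have hmC : ∀ f ∈ N, 0 ≤ muC D Λ tC f := fun f hf => (muC_bd tC0.le (hN0 f hf)).1
  by_cases hc : (N.card : ℝ) / D ≤ 1 - cc
  · linarith [gainF_nonneg hmC]
  push Not at hc
  rw [lt_div_iff₀ hD] at hc
  unfold cc at hc ⊢
  have hsC : ∑ f ∈ N, muC D Λ tC f ≤ 1.01 := by
    refine (mass_le h heB hNB tC0.le fun f hf => (muC_bd tC0.le (hN0 f hf)).2).trans ?_
    have a1 : tC * (80 * Λ) ≤ 1 := (le_div_iff₀ (by positivity)).1 c2
    have a2 : (lam e + 1) * tC ≤ (80 * Λ) * tC :=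
      mul_le_mul_of_nonneg_right (by linarith) tC0.le
    linarith
  have split : ((N.filter (fun f => lam f < 8 * (Λ : ℝ))).card : ℝ) +
      ((N.filter (fun f => ¬ lam f < 8 * (Λ : ℝ))).card : ℝ) = N.card := by
    exact_mod_cast card_filter_add_card_filter_not (s := N) (fun f => lam f < 8 * (Λ : ℝ))
  have few : ((N.filter (fun f => ¬ lam f < 8 * (Λ : ℝ))).card : ℝ) ≤ D / 7 := by
    have a1 := (cnt _ (8 * Λ) fun f hf => not_lt.1 (mem_filter.1 hf).2).trans
      (tot _ (filter_subset (fun f => ¬ lam f < 8 * (Λ : ℝ)) N))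
    have a2 : (e.card : ℝ) * D ≤ (8 / 7 * Λ) * D :=
      mul_le_mul_of_nonneg_right (by linarith) hD.le
    refine le_of_mul_le_mul_right ?_ (by positivity : (0 : ℝ) < 8 * Λ)
    linarith
  set F := N.filter (fun f => lam f < 8 * (Λ : ℝ)) with hF
  have hFN : F ⊆ N := filter_subset _ _
  have many : 0.85 * (D : ℝ) ≤ F.card := by linarith
  have hR : ∀ v ∈ e, ∑ g ∈ F.filter (fun g => v ∈ g), (1 : ℝ) ≤ D / 100 := by
    intro v hv
    rw [sum_const, nsmul_eq_mul, mul_one]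
    have a1 := (cnt (F.filter (fun g => v ∈ g)) 100 fun f hf => by
      linarith [hNl f (hFN (mem_filter.1 hf).1)]).trans (sum_at h heB (hFN.trans hNB) hv)
    linarith
  have hP : ∀ f ∈ F, 0.8 * (D : ℝ) ≤ ∑ g ∈ F.filter (fun g => Disjoint f g), (1 : ℝ) := by
    intro f hf
    have a1 := partners h heB (hFN.trans hNB) (w := fun _ => (1 : ℝ)) (wb := 1)
      (fun _ _ => ⟨zero_le_one, le_rfl⟩) hR hf
    rw [sum_const, nsmul_eq_mul, mul_one] at a1
    have a2 : lam f * lam e ≤ 8 * Λ * Λ :=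
      mul_le_mul (mem_filter.1 hf).2.le (by linarith) (by linarith) (by linarith)
    nlinarith
  have g := gain_ge hmC hsC hFN (w := fun _ => (1 : ℝ)) (P := fun _ => 0.8 * (D : ℝ))
    (k := 1 / (81 * D)) (by positivity) (fun _ _ => zero_le_one) (fun f hf => by
      unfold muC
      rw [if_pos (mem_filter.1 hf).2, mul_one]
      have a1 : 1 ≤ tC * (81 * Λ) := (div_le_iff₀ (by positivity)).1 c1
      have a2 := mul_le_mul_of_nonneg_right (hNl f (hFN hf)) tC0.le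
      rw [div_le_div_iff₀ (by positivity) hD]
      have a3 : 1 ≤ 81 * (lam f * tC) := by linarith
      have a4 := mul_le_mul_of_nonneg_right a3 hD.le
      linarith) hP
  rw [sum_const, nsmul_eq_mul, one_mul] at g
  have a1 : 0.85 * (D : ℝ) * (0.8 * D) ≤ F.card * (0.8 * (D : ℝ)) :=
    mul_le_mul_of_nonneg_right many (by positivity)
  have a2 := mul_le_mul_of_nonneg_left a1 (by positivity : 0 ≤ (1 / (81 * (D : ℝ))) ^ 2 / 5)
  have a3 : (1 / (81 * (D : ℝ))) ^ 2 / 5 * (0.85 * (D : ℝ) * (0.8 * D)) = 0.68 / 32805 := by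
    field_simp
    norm_num
  have a4 : (e.card : ℝ) / Λ ≤ 1 + 1 / 10 ^ 7 := by
    rw [div_le_iff₀ hΛ]
    linarith
  rw [a3] at a2
  norm_num at a2 a4 g ⊢
  linarith

end Pool.Agent.P.MP_553766_co.Lg
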