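import Mathlib
import Pool.Agent.P.MP_553766_co.LSt3

set_option autoImplicit false
set_option linter.unusedSectionVars false

/-! Assembly of the packages. -/

namespace Pool.Agent.P.MP_553766_co.Lg

open Finset Pool.Agent.P.MP_553766_co

/-- the first stage -/
def StOne : Prop :=
  ∃ D0 : ℕ, ∀ D, D0 ≤ D → ∃ (K Λ l : ℕ) (η L θ A0 : ℝ), Good D K Λ l η L θ A0 ∧
    ∀ (V : Type) [Fintype V] [DecidableEq V] (B : Finset (Finset V)), Hyp B D →
      ∃ p, Spec B D K Λ l η L θ p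

theorem stOne (h1 : StTop) (h2 : StLow) (h3 : StComb) (h4 : StPar) : StOne := by
  obtain ⟨D0, hD0⟩ := h4
  refine ⟨D0, fun D hD => ?_⟩
  obtain ⟨K, Λ, l, S, η, η', L, θ, A0, g1, g2, g3, g4, g5, g6, g7⟩ := hD0 D hD
  refine ⟨K, Λ, l, η, L, θ, A0, g1, fun V _ _ B hB => ?_⟩
  obtain ⟨p, hp⟩ := h1 V B D Λ S L θ hB g2 g5 g6 g7
  obtain ⟨vp, q, hq⟩ := h2 V (lowE B Λ) D Λ l η' (hB.mono (Finset.filter_subset _ _))
    (fun e he => (Finset.mem_filter.1 he).2) g3
  exact h3 V B D K Λ l η η' L θ p vp q hB g4 hp hq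

/-- points with little slack -/
def StPoor : Prop :=
  ∀ (V : Type) [Fintype V] [DecidableEq V] (d : Dat V), d.Ok → ∀ u, d.A u ≤ del → ¬ d.ST u →
    ∀ W ⊆ d.nb u, d.Star u W

theorem poor (h1 : StCore) (h2 : StSmall) (h3 : StB1) (h4 : StB2) (h5 : StC) (h6 : StD) :
    StPoor := by
  intro V _ _ d h u hu hs W hW
  have hl := Dat.light_of_poor hu
  by_cases hA : d.AW W ≤ d.A0
  · by_cases hW' : W = d.nb u
    · subst hW'
      exact h1 V d h u _ hl hW (h3 V d h u hu hs hA)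
    · by_cases hm : d.mW u W ≤ d.gam u + 0.09
      · refine h2 V d h u W hl hW hW' hm ?_
        have k1 := h.card_heavy_le W
        have k2 := h.good.g2
        have k3 := h.good.K_le
        have k4 := h.D_pos
        unfold eps at k1
        unfold tau at k2 k3
        linarith
      · exact h1 V d h u W hl hW (h4 V d h u W hu hW hW' hA (not_le.1 hm))
  · by_cases hg : ∃ e ∈ d.B, 0.7 * d.D < ((e ∩ W).card : ℝ)
    · exact h6 V d h u W hu hs hW hg
    · push Not at hg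
      exact h1 V d h u W hl hW (h5 V d h u W hu hW (not_le.1 hA) hg)

theorem vgood (h1 : StPoor) (h2 : StRich) (h3 : StVStat) (h4 : StVDyn)
    {V : Type} [Fintype V] [DecidableEq V] (d : Dat V) (h : d.Ok) (u : V) :
    ∃ z a, d.VGood u z a := by
  by_cases hl : d.light u
  · by_cases hs : d.ST u
    · exact h3 V d h u hl hs
    · by_cases hu : d.A u ≤ del
      · exact h4 V d h u fun W hW => h1 V d h u hu hs W (by rwa [Dat.ctl_light hl] at hW)
      · exact h4 V d h u (h2 V d h u (Or.inr ⟨not_le.1 hu, hs⟩))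
  · exact h4 V d h u (h2 V d h u (Or.inl hl))

/-- degree count at a point -/
lemma deg_le {V : Type} [Fintype V] [DecidableEq V] (E : Finset (Finset V))
    (hlin : ∀ e ∈ E, ∀ f ∈ E, e ≠ f → (e ∩ f).card ≤ 1) (D : ℕ) (hD1 : 1 ≤ D) (v : V)
    (hD : ((E.filter (fun e => v ∈ e)).biUnion id).card ≤ D) :
    ((univ.filter (fun w => w ≠ v ∧ ({v, w} : Finset V) ∈ E)).card : ℝ) +
      ∑ e ∈ (E.filter (fun e => 3 ≤ e.card)).filter (fun e => v ∈ e), lam e ≤ (D : ℝ) - 1 := by
  have h0 : ∑ e ∈ E.filter (fun e => v ∈ e), (e.card - 1) + 1 ≤ D := by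
    rcases (E.filter (fun e => v ∈ e)).eq_empty_or_nonempty with he | he
    · rw [he]; simpa using hD1
    · exact (nbhd_card E hlin v _ le_rfl he).trans hD
  have h1 : ∑ e ∈ E.filter (fun e => v ∈ e), lam e ≤ (D : ℝ) - 1 := by
    have h2 : ∑ e ∈ E.filter (fun e => v ∈ e), lam e =
        ((∑ e ∈ E.filter (fun e => v ∈ e), (e.card - 1) : ℕ) : ℝ) := by
      rw [Nat.cast_sum]
      refine Finset.sum_congr rfl fun e he => ?_
      have : 1 ≤ e.card := Finset.card_pos.2 ⟨v, (Finset.mem_filter.1 he).2⟩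
      unfold lam; rw [Nat.cast_sub this, Nat.cast_one]
    have h3 : ((∑ e ∈ E.filter (fun e => v ∈ e), (e.card - 1) + 1 : ℕ) : ℝ) ≤ D := by
      exact_mod_cast h0
    rw [h2]; push_cast at h3 ⊢; linarith
  set N := univ.filter (fun w => w ≠ v ∧ ({v, w} : Finset V) ∈ E) with hN
  have hinj : Set.InjOn (fun w => ({v, w} : Finset V)) N := by
    intro a ha b _ hab
    have ha' : a ≠ v := (Finset.mem_filter.1 (Finset.mem_coe.1 ha)).2.1
    have : a ∈ ({v, b} : Finset V) := by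
      have hab' : ({v, a} : Finset V) = {v, b} := hab
      rw [← hab']; simp
    simpa [ha'] using this
  have h4 : (N.card : ℝ) = ∑ e ∈ N.image (fun w => ({v, w} : Finset V)), lam e := by
    rw [Finset.sum_image hinj, Finset.card_eq_sum_ones, Nat.cast_sum]
    refine Finset.sum_congr rfl fun w hw => ?_
    have : v ≠ w := (Finset.mem_filter.1 hw).2.1.symm
    unfold lam; rw [Finset.card_pair this]; norm_num
  have h5 : Disjoint (N.image (fun w => ({v, w} : Finset V)))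
      ((E.filter (fun e => 3 ≤ e.card)).filter (fun e => v ∈ e)) := by
    rw [Finset.disjoint_left]
    intro e he he'
    obtain ⟨w, _, rfl⟩ := Finset.mem_image.1 he
    have h6 := (Finset.mem_filter.1 (Finset.mem_filter.1 he').1).2
    have h7 : ({v, w} : Finset V).card ≤ 2 := Finset.card_le_two
    omega
  rw [h4, ← Finset.sum_union h5]
  refine le_trans (Finset.sum_le_sum_of_subset_of_nonneg ?_ fun e he _ => ?_) h1
  · intro e he
    rcases Finset.mem_union.1 he with he | he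
    · obtain ⟨w, hw, rfl⟩ := Finset.mem_image.1 he
      exact Finset.mem_filter.2 ⟨(Finset.mem_filter.1 hw).2.2, by simp⟩
    · exact Finset.mem_filter.2 ⟨(Finset.mem_filter.1 (Finset.mem_filter.1 he).1).1,
        (Finset.mem_filter.1 he).2⟩
  · have : (1 : ℝ) ≤ e.card := by
      exact_mod_cast Finset.card_pos.2 ⟨v, (Finset.mem_filter.1 he).2⟩
    unfold lam; linarith

theorem large_of (h1 : StOne) (h2 : StPoor) (h3 : StRich) (h4 : StVStat) (h5 : StVDyn)
    (h6 : StZ) (h7 : StFin) :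
    ∃ D0 : ℕ, ∀ (V : Type) [Fintype V] [DecidableEq V] (E : Finset (Finset V)),
      (∀ e ∈ E, e.Nonempty) → (∀ e ∈ E, ∀ f ∈ E, e ≠ f → (e ∩ f).card ≤ 1) →
      ∀ D : ℕ, D0 ≤ D → (∀ v, ((E.filter (fun e => v ∈ e)).biUnion id).card ≤ D) →
      ∃ w : Finset (Finset V) → ℝ, (∀ M, 0 ≤ w M) ∧ (∀ M, w M ≠ 0 → IsM E M) ∧
        (∀ e ∈ E, 1 ≤ ∑ M, w M * ind M e) ∧ ∑ M, w M ≤ D := by
  obtain ⟨D0, hD0⟩ := h1
  refine ⟨D0, fun V _ _ E hne hlin D hD hN => ?_⟩
  obtain ⟨K, Λ, l, η, L, θ, A0, g, hp⟩ := hD0 D hD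
  have hD1 : 1 ≤ D := by have := g.g8; omega
  have hdeg := fun v => deg_le E hlin D hD1 v (hN v)
  have hB : Hyp (E.filter (fun e => 3 ≤ e.card)) D :=
    ⟨fun e he => (Finset.mem_filter.1 he).2,
      fun e he f hf => hlin e (Finset.mem_filter.1 he).1 f (Finset.mem_filter.1 hf).1,
      fun v => le_trans (le_add_of_nonneg_left (Nat.cast_nonneg _)) (hdeg v)⟩
  obtain ⟨p, hp⟩ := hp V _ hB
  let d : Dat V := ⟨E.filter (fun e => 3 ≤ e.card),
    fun v => univ.filter (fun w => w ≠ v ∧ ({v, w} : Finset V) ∈ E), D, K, Λ, l, η, L, θ, A0, p⟩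
  have hnb : ∀ u w, w ∈ d.nb u ↔ w ≠ u ∧ ({u, w} : Finset V) ∈ E := fun u w => by simp [d]
  have hd : d.Ok := by
    refine ⟨hB, fun u w hw => ?_, fun u hu => ((hnb u u).1 hu).1 rfl, fun u w hw e he hu hw' => ?_,
      hdeg, g, hp⟩
    · obtain ⟨k1, k2⟩ := (hnb u w).1 hw
      exact (hnb w u).2 ⟨k1.symm, by rwa [Finset.pair_comm]⟩
    · obtain ⟨k1, k2⟩ := (hnb u w).1 hw
      obtain ⟨k3, k4⟩ := Finset.mem_filter.1 he
      have k5 : ({u, w} : Finset V).card = 2 := Finset.card_pair k1.symm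
      have k6 : e ≠ {u, w} := fun hh => by rw [hh] at k4; omega
      have k7 := hlin e k3 _ k2 k6
      have k8 : ({u, w} : Finset V) ⊆ e ∩ {u, w} := by
        intro x hx
        refine Finset.mem_inter.2 ⟨?_, hx⟩
        rcases Finset.mem_insert.1 hx with rfl | hx
        · exact hu
        · rw [Finset.mem_singleton.1 hx]; exact hw'
      have := Finset.card_le_card k8
      omega
  obtain ⟨z, a, hz⟩ := h6 V d hd (vgood h2 h3 h4 h5 d hd)
  exact h7 V E d hd hne rfl hnb z a hz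

end Pool.Agent.P.MP_553766_co.Lg
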