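import Mathlib
import Pool.Agent.P.MP_553766_co.LSt1

set_option autoImplicit false

/-! The low stage: choice of the time step, support and the two bounds. -/

namespace Pool.Agent.P.MP_553766_co.Lg

open Finset Pool.Agent.P.MP_553766_co

namespace LLow

open Filter Topology

lemma small (A : ℝ) {B : ℝ} (hB : 0 < B) : ∀ᶠ t in 𝓝[>] (0 : ℝ), t * A ≤ B := by
  have h : Tendsto (fun t : ℝ => t * A) (𝓝 0) (𝓝 (0 * A)) := tendsto_id.mul_const A
  rw [zero_mul] at h
  exact (h.eventually (ge_mem_nhds hB)).filter_mono nhdsWithin_le_nhds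

lemma u0_one : (1 : ℝ) ≤ u0 := by unfold u0; norm_num

lemma inv_le_exp {t : ℝ} (h0 : 0 ≤ t) (h1 : t ≤ 1 / 2) : 1 / (1 - t) ≤ Real.exp (2 * t) := by
  have h := Real.add_one_le_exp (2 * t)
  rw [div_le_iff₀ (by linarith)]
  nlinarith

lemma one_sub_pow {t : ℝ} (h0 : 0 ≤ t) (h1 : t ≤ 1) (n : ℕ) :
    (1 - t) ^ n * (1 + n * t) ≤ 1 := by
  have h2 : (1 - t) ^ n ≤ Real.exp (-t) ^ n :=
    pow_le_pow_left₀ (by linarith) (by linarith [Real.add_one_le_exp (-t)]) n
  have h3 : 1 + n * t ≤ Real.exp (n * t) := by linarith [Real.add_one_le_exp (n * t)]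
  calc (1 - t) ^ n * (1 + n * t) ≤ Real.exp (-t) ^ n * Real.exp (n * t) :=
        mul_le_mul h2 h3 (by positivity) (by positivity)
    _ = 1 := by
        rw [← Real.exp_nat_mul, ← Real.exp_add]
        simp

lemma exp_half {η : ℝ} (h0 : 0 ≤ η) (h1 : η ≤ 1 / 100) : Real.exp (η / 2) ≤ 1 + η := by
  refine (Real.exp_bound_div_one_sub_of_interval (by linarith) (by linarith)).trans ?_
  rw [div_le_iff₀ (by linarith)]
  nlinarith

variable {V : Type} [Fintype V] [DecidableEq V]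

/-- the length of the window of an edge -/
noncomputable def TT (e : Finset V) : ℝ := min 4 (u0 / lam e)

/-- the data of the chain -/
noncomputable def dat (Lo : Finset (Finset V)) (D : ℕ) (dt : ℝ) : LowDat V :=
  ⟨Lo, D, dt, fun e => ⌊TT e / dt⌋₊, ⌊4 / dt⌋₊, Real.exp (2 * u0)⟩

omit [Fintype V] [DecidableEq V] in
lemma TT_nonneg {e : Finset V} (h : 2 ≤ lam e) : 0 ≤ TT e :=
  le_min (by norm_num) (div_nonneg (by linarith [u0_one]) (by linarith))

omit [Fintype V] [DecidableEq V] in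
lemma nw_le {e : Finset V} (h : 2 ≤ lam e) {dt : ℝ} (h0 : 0 < dt) :
    (⌊TT e / dt⌋₊ : ℝ) * dt ≤ TT e := by
  rw [← le_div_iff₀ h0]
  exact Nat.floor_le (div_nonneg (TT_nonneg h) h0.le)

omit [Fintype V] [DecidableEq V] in
lemma le_nw (e : Finset V) {dt : ℝ} (h0 : 0 < dt) : TT e - dt ≤ (⌊TT e / dt⌋₊ : ℝ) * dt := by
  have h := Nat.lt_floor_add_one (TT e / dt)
  rw [div_lt_iff₀ h0] at h
  linarith

omit [Fintype V] [DecidableEq V] in
lemma win {e : Finset V} (h : 2 ≤ lam e) {dt : ℝ} (h0 : 0 < dt) :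
    lam e * (⌊TT e / dt⌋₊ : ℝ) * dt ≤ u0 := by
  have h1 := nw_le h h0
  have h2 : TT e ≤ u0 / lam e := min_le_right _ _
  rw [le_div_iff₀ (by linarith)] at h2
  rw [mul_assoc]
  nlinarith

lemma dat_ok {Lo : Finset (Finset V)} {D : ℕ} {dt : ℝ} (hB : Hyp Lo D) (hD : 0 < D) (h0 : 0 < dt)
    (h1 : dt ≤ 1 / 2) (h2 : dt * (Lo.card * Real.exp (2 * u0) + Fintype.card V) ≤ 1) :
    (dat Lo D dt).Ok where
  hyp := hB
  Dpos := hD
  dt0 := h0
  dt1 := h1
  E1 := Real.one_le_exp (by linarith [u0_one])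
  grow f hf := by
    have hl := hB.two_le_lam hf
    have h3 : 1 ≤ f.card := by have := hB.big f hf; omega
    change (1 / (1 - dt)) ^ ((f.card - 1) * ⌊TT f / dt⌋₊) ≤ Real.exp (2 * u0)
    refine (pow_le_pow_left₀ (div_nonneg zero_le_one (by linarith)) (inv_le_exp h0.le h1) _).trans ?_
    rw [← Real.exp_nat_mul, Real.exp_le_exp, Nat.cast_mul, Nat.cast_sub h3, Nat.cast_one]
    have := win hl h0
    unfold lam at this
    linarith
  win f hf := win (hB.two_le_lam hf) h0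
  le_max f _ := Nat.floor_le_floor (div_le_div_of_nonneg_right (min_le_left _ _) h0.le)
  tmax := by
    change (⌊4 / dt⌋₊ : ℝ) * dt ≤ 4
    rw [← le_div_iff₀ h0]
    exact Nat.floor_le (by positivity)
  pos := h2

omit [Fintype V] [DecidableEq V] in
lemma vp_zero (Lo : Finset (Finset V)) (D : ℕ) (dt : ℝ) (e : Finset V) :
    (dat Lo D dt).vp e 0 = 3 / 4 * lam e / D * (1 - (1 - dt) ^ ⌊TT e / dt⌋₊) := by
  simp [LowDat.vp, dat]

omit [Fintype V] [DecidableEq V] in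
lemma vp_big {Lo : Finset (Finset V)} {D : ℕ} {dt : ℝ} {e : Finset V} (hD : 0 < D)
    (hl : 2 ≤ lam e) (hl' : lam e ≤ D) (h0 : 0 < dt) (h1 : dt * 1000 ≤ 1)
    (h2 : dt * (100 * D) ≤ u0) (h : u0 / lam e ≤ 4) : 1.1 / (cc * D) ≤ (dat Lo D dt).vp e 0 := by
  have hD' : (0 : ℝ) < D := by exact_mod_cast hD
  have hT : TT e = u0 / lam e := min_eq_right h
  have a1 := nw_le hl h0
  have a2 := le_nw e h0
  have a3 := one_sub_pow h0.le (by linarith) ⌊TT e / dt⌋₊
  rw [vp_zero]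
  set y : ℝ := (⌊TT e / dt⌋₊ : ℝ) * dt with hy
  set Q : ℝ := (1 - dt) ^ ⌊TT e / dt⌋₊
  have hy0 : 0 ≤ y := by positivity
  have hy4 : y ≤ 4 := a1.trans (min_le_left _ _)
  have b1 : y / 5 ≤ 1 - Q := by
    by_contra hc
    push Not at hc
    nlinarith
  have b2 : lam e * TT e = u0 := by rw [hT]; field_simp
  have b3 : lam e * dt * 100 ≤ u0 := by nlinarith
  have b4 : 0.99 * u0 ≤ lam e * y := by nlinarith
  have b5 : 1.1 / (cc * D) = 110000 / D := by unfold cc; field_simp; norm_num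
  rw [b5, div_mul_eq_mul_div]
  refine div_le_div_of_nonneg_right ?_ hD'.le
  have b6 : lam e * (y / 5) ≤ lam e * (1 - Q) := mul_le_mul_of_nonneg_left b1 (by linarith)
  unfold u0 at b4
  nlinarith

omit [Fintype V] [DecidableEq V] in
lemma vp_small {Lo : Finset (Finset V)} {D : ℕ} {dt : ℝ} {e : Finset V} (hD : 0 < D)
    (hl : 2 ≤ lam e) (h0 : 0 < dt) (h1 : dt * 1000 ≤ 1) (h : 4 ≤ u0 / lam e) :
    1.19 / D ≤ (dat Lo D dt).vp e 0 := by
  have hD' : (0 : ℝ) < D := by exact_mod_cast hD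
  have hT : TT e = 4 := min_eq_left h
  have a2 := le_nw e h0
  have a3 := one_sub_pow h0.le (by linarith) ⌊TT e / dt⌋₊
  have a4 : 0 ≤ (1 - dt) ^ ⌊TT e / dt⌋₊ := pow_nonneg (by linarith) _
  rw [vp_zero]
  set y : ℝ := (⌊TT e / dt⌋₊ : ℝ) * dt with hy
  set Q : ℝ := (1 - dt) ^ ⌊TT e / dt⌋₊
  have b1 : 0.799 ≤ 1 - Q := by nlinarith
  rw [div_mul_eq_mul_div]
  refine div_le_div_of_nonneg_right ?_ hD'.le
  nlinarith

/-- the states that the chain can reach -/
def Reach (Lo : Finset (Finset V)) (Z : Finset V) (s : St V) : Prop :=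
  IsM Lo s.2 ∧ Z ⊆ s.1 ∧ ∀ e ∈ s.2, e ⊆ s.1 ∧ Disjoint e Z

lemma Fw_eq_zero (c : LowDat V) (Z : Finset V) (n : ℕ) {φ : St V → ℝ}
    (h : ∀ s, Reach c.Lo Z s → φ s = 0) : c.Fw Z n φ = 0 := by
  induction n generalizing φ with
  | zero => exact h _ ⟨⟨Finset.empty_subset _, by simp⟩, Finset.Subset.refl _, by simp⟩
  | succ n ih =>
    refine ih fun s hs => ?_
    obtain ⟨⟨h1, h2⟩, h3, h4⟩ := hs
    have e0 := h s ⟨⟨h1, h2⟩, h3, h4⟩
    have e1 : ∀ f ∈ c.Lo.filter (fun f => Disjoint f s.1),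
        c.rate f n * (φ (s.1 ∪ f, insert f s.2) - φ s) = 0 := by
      intro f hf
      obtain ⟨hf1, hf2⟩ := Finset.mem_filter.1 hf
      have k : ∀ g ∈ s.2, Disjoint f g := fun g hg => hf2.mono_right (h4 g hg).1
      rw [e0, h (s.1 ∪ f, insert f s.2) ⟨⟨Finset.insert_subset hf1 h1, ?_⟩,
        h3.trans Finset.subset_union_left, ?_⟩, sub_self, mul_zero]
      · intro a ha b hb hab
        rcases Finset.mem_insert.1 ha with ha1 | ha1 <;> rcases Finset.mem_insert.1 hb with hb1 | hb1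
        exacts [absurd (ha1.trans hb1.symm) hab, ha1 ▸ k b hb1, hb1 ▸ (k a ha1).symm,
          h2 a ha1 b hb1 hab]
      · intro a ha
        rcases Finset.mem_insert.1 ha with rfl | ha
        exacts [⟨Finset.subset_union_right, hf2.mono_right h3⟩,
          ⟨(h4 a ha).1.trans Finset.subset_union_left, (h4 a ha).2⟩]
    have e2 : ∀ v ∈ univ.filter (fun v => v ∉ s.1),
        max (1 - c.Lv s n v) 0 * (φ (insert v s.1, s.2) - φ s) = 0 := by
      intro v _
      rw [e0, h (insert v s.1, s.2) ⟨⟨h1, h2⟩, h3.trans (Finset.subset_insert _ _),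
        fun a ha => ⟨(h4 a ha).1.trans (Finset.subset_insert _ _), (h4 a ha).2⟩⟩, sub_self, mul_zero]
    unfold LowDat.Kop
    rw [Finset.sum_eq_zero e1, Finset.sum_eq_zero e2, e0]
    simp

/-- the law of the chosen matching -/
noncomputable def law (c : LowDat V) (Z : Finset V) (C : Finset (Finset V)) : ℝ :=
  c.Fw Z c.nmax fun s => I (s.2 = C)

lemma Ex_law (c : LowDat V) (Z : Finset V) (F : Finset (Finset V) → ℝ) :
    Ex (law c Z) F = c.Fw Z c.nmax fun s => F s.2 := by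
  have h1 : (fun s : St V => F s.2) = fun s => ∑ C, F C * I (s.2 = C) := by
    funext s
    rw [Finset.sum_eq_single s.2]
    · simp [I_pos]
    · intro b _ hb; rw [I_neg (Ne.symm hb), mul_zero]
    · simp
  rw [h1, LowDat.Fw_sum]
  exact Finset.sum_congr rfl fun C _ => by rw [LowDat.Fw_smul, mul_comm]; rfl

lemma law_prob {c : LowDat V} (h : c.Ok) (Z : Finset V) : IsProb (law c Z) := by
  refine ⟨fun C => LowDat.Fw_nonneg h Z _ fun _ => I_nonneg _, ?_⟩
  have := Ex_law c Z fun _ => 1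
  rw [LowDat.Fw_const] at this
  simpa [Ex] using this

lemma law_supp (c : LowDat V) (Z : Finset V) (C : Finset (Finset V)) (h : law c Z C ≠ 0) :
    IsM c.Lo C ∧ ∀ e ∈ C, Disjoint e Z := by
  by_contra hc
  refine h (Fw_eq_zero c Z _ fun s hs => I_neg fun e => hc ?_)
  subst e
  exact ⟨hs.1, fun e he => (hs.2.2 e he).2⟩

omit [Fintype V] in
lemma card_biUnion {J : Finset (Finset V)} {Λ k : ℕ} (h : ∀ e ∈ J, e.card ≤ Λ + 1)
    (hJ : J.card ≤ k) : (J.biUnion id).card ≤ k * (Λ + 1) :=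
  (Finset.card_biUnion_le_card_mul J id (Λ + 1) h).trans (Nat.mul_le_mul_right _ hJ)

lemma vp_le {c : LowDat V} (h : c.Ok) {e : Finset V} (he : e ∈ c.Lo) (n : ℕ) :
    c.vp e n ≤ 3 / 4 * lam e / c.D * c.E0 := by
  unfold LowDat.vp
  have h1 := h.hyp.two_le_lam he
  have h2 := LowDat.one_le_base h
  have h3 := h.E1
  have h4 : 0 ≤ (1 - c.dt) ^ (c.nw e - n) := pow_nonneg (by linarith [h.dt1]) _
  split_ifs with hn
  · have h5 : (1 / (1 - c.dt)) ^ ((e.card - 1) * n) ≤ c.E0 :=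
      (pow_le_pow_right₀ h2 (Nat.mul_le_mul_left _ hn)).trans (h.grow e he)
    calc 3 / 4 * lam e / c.D * (1 / (1 - c.dt)) ^ ((e.card - 1) * n)
          * (1 - (1 - c.dt) ^ (c.nw e - n))
        ≤ 3 / 4 * lam e / c.D * (1 / (1 - c.dt)) ^ ((e.card - 1) * n) * 1 :=
          mul_le_mul_of_nonneg_left (by linarith) (by positivity)
      _ ≤ _ := by
          rw [mul_one]
          exact mul_le_mul_of_nonneg_left h5 (by positivity)
  · positivity

end LLow

open LLow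

theorem low (h1 : StLowUp) (h2 : StOv) (h3 : StLowLo) : StLow := by
  intro V _ _ Lo D Λ l η hB hΛ hP
  have hD : (0 : ℝ) < D := by exact_mod_cast hP.Dpos
  have hD1 : (1 : ℝ) ≤ D := by exact_mod_cast hP.Dpos
  have hη := hP.h0
  have hη1 := hP.h1
  have hl : (4 : ℝ) ≤ l := by exact_mod_cast hP.l4
  have hΛ0 : (0 : ℝ) ≤ Λ := Nat.cast_nonneg _
  have hu := u0_one
  obtain ⟨dt, ⟨⟨⟨⟨a1, a2⟩, a3⟩, a4⟩, a5⟩, a0⟩ := ((((((small 1000 one_pos).and
    (small (Lo.card * Real.exp (2 * u0) + Fintype.card V) one_pos)).and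
    (small (2 * (l * (Λ + 1)) * l) (B := η / 4) (by positivity))).and
    (small (4 * (16 + (4 * (Λ + 1)) ^ 2)) (B := η / (2 * D ^ 4)) (by positivity))).and
    (small (100 * D) (B := u0) (by linarith))).and self_mem_nhdsWithin).exists
  have a0 : 0 < dt := a0
  have hc := dat_ok hB hP.Dpos a0 (by linarith) a2
  have hsb : (0 : ℝ) ≤ l * (Λ + 1) * dt := by positivity
  have hsb1 : (l : ℝ) * (Λ + 1) * dt ≤ 1 / 2 := by nlinarith
  have v2 : ∀ e ∈ Lo, u0 / lam e ≤ 4 → 1.1 / (cc * D) ≤ (dat Lo D dt).vp e 0 := fun e he h =>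
    vp_big hP.Dpos (hB.two_le_lam he) (by linarith [hB.lam_le he]) a0 a1 a5 h
  have v1 : ∀ e ∈ Lo, 1.19 / D ≤ (dat Lo D dt).vp e 0 := by
    intro e he
    rcases le_total (u0 / lam e) 4 with h | h
    · refine le_trans ?_ (v2 e he h)
      rw [mul_comm, ← div_div, div_right_comm]
      refine div_le_div_of_nonneg_right ?_ hD.le
      unfold cc
      norm_num
    · exact vp_small hP.Dpos (hB.two_le_lam he) a0 a1 h
  have v0 : ∀ J ⊆ Lo, 0 ≤ ∏ e ∈ J, (dat Lo D dt).vp e 0 := fun J hJ =>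
    Finset.prod_nonneg fun e he => LowDat.vp_nonneg hc (hJ he) 0
  refine ⟨fun e => (dat Lo D dt).vp e 0, law (dat Lo D dt), law_prob hc, law_supp _, ?_, ?_, v1,
    fun e he h => v2 e he ?_⟩
  · intro Z J hJ hJl
    by_cases hpd : PD J
    · have k := h1 V (dat Lo D dt) hc Z J (l * (Λ + 1)) hJ hpd
        (card_biUnion (fun e he => hΛ e (hJ he)) hJl) (by push_cast; exact hsb1)
      rw [Ex_law]
      refine k.trans (mul_le_mul_of_nonneg_right (le_trans ?_ (exp_half hη.le hη1)) (v0 J hJ))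
      have b1 : Real.exp (((l * (Λ + 1) : ℕ) : ℝ) ^ 2 * u0 * (dat Lo D dt).E0 / (dat Lo D dt).D)
          ≤ Real.exp (η / 4) := by
        rw [Real.exp_le_exp]
        push_cast
        exact hP.h2
      have b2 : (1 + 2 * ((l * (Λ + 1) : ℕ) : ℝ) * (dat Lo D dt).dt) ^ J.card
          ≤ Real.exp (η / 4) := by
        push_cast
        change (1 + 2 * ((l : ℝ) * (Λ + 1)) * dt) ^ J.card ≤ _
        have b3 : (1 + 2 * ((l : ℝ) * (Λ + 1)) * dt) ≤ Real.exp (2 * ((l : ℝ) * (Λ + 1)) * dt) := by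
          linarith [Real.add_one_le_exp (2 * ((l : ℝ) * (Λ + 1)) * dt)]
        refine (pow_le_pow_left₀ (by positivity) b3 _).trans ?_
        rw [← Real.exp_nat_mul, Real.exp_le_exp]
        have b4 : (J.card : ℝ) ≤ l := by exact_mod_cast hJl
        nlinarith
      calc _ ≤ Real.exp (η / 4) * Real.exp (η / 4) :=
            mul_le_mul b1 b2 (by change 0 ≤ (1 + 2 * _ * dt) ^ _; positivity) (by positivity)
        _ = _ := by rw [← Real.exp_add]; congr 1; ring
    · rw [Ex_congr (g := fun _ => 0) fun C hC => I_neg fun h => hpd fun e he f hf =>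
        (law_supp _ Z C hC).1.2 e (h he) f (h hf), Ex_zero]
      exact mul_nonneg (by linarith) (v0 J hJ)
  · intro Z J hJ hpd hZ hJ4
    have hE := Real.exp_pos (2 * u0)
    have c1 : ∀ e ∈ Lo, 3 / 4 * lam e / D * Real.exp (2 * u0) ≤ 1 := by
      intro e he
      have d1 : lam e ≤ Λ := by
        have : (e.card : ℝ) ≤ Λ + 1 := by exact_mod_cast hΛ e he
        unfold lam; linarith
      have d2 := hP.h2
      rw [div_le_iff₀ hD] at d2
      rw [div_mul_eq_mul_div, div_le_one hD]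
      have d3 : (Λ : ℝ) + 1 ≤ l * (Λ + 1) := by nlinarith
      have d4 : (Λ : ℝ) + 1 ≤ (l * (Λ + 1)) ^ 2 := by nlinarith
      have d5 : (Λ : ℝ) + 1 ≤ (l * (Λ + 1)) ^ 2 * u0 := by nlinarith
      have d6 := mul_le_mul_of_nonneg_right d5 hE.le
      have d7 := mul_le_mul_of_nonneg_right d1 hE.le
      nlinarith
    have k0 := h2 V (dat Lo D dt) hc Λ l hΛ (by have := hP.l4; omega) hsb1
      (hP.h2.trans (by linarith))
    have k := h3 V (dat Lo D dt) hc Z J (4 * (Λ + 1)) (2 * Real.exp (2 * u0) * (0.8 : ℝ) ^ l) hJ hpd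
      hZ hJ4 (card_biUnion (fun e he => hΛ e (hJ he)) hJ4)
      (fun e he n => ⟨(vp_le hc (hJ he) n).trans (c1 e (hJ he)),
        (LowDat.rate_le hc (hJ he) n).trans (c1 e (hJ he))⟩) (by positivity) (k0 Z)
    rw [Ex_law]
    refine le_trans ?_ k
    have c2 : 1 / (D : ℝ) ^ 4 ≤ ∏ e ∈ J, (dat Lo D dt).vp e 0 := by
      have d1 : ∏ _e ∈ J, 1 / (D : ℝ) ≤ ∏ e ∈ J, (dat Lo D dt).vp e 0 :=
        Finset.prod_le_prod (fun _ _ => by positivity) fun e he =>
          le_trans (div_le_div_of_nonneg_right (by norm_num) hD.le) (v1 e (hJ he))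
      rw [Finset.prod_const, one_div_pow] at d1
      exact le_trans (one_div_le_one_div_of_le (by positivity) (pow_le_pow_right₀ hD1 hJ4)) d1
    have c3 : 4 * (4 * ((Λ : ℝ) + 1)) * (2 * Real.exp (2 * u0) * (0.8 : ℝ) ^ l)
        ≤ η / (2 * D ^ 4) := by
      rw [le_div_iff₀ (by positivity)]
      linarith [hP.h3]
    have c4 : η / (2 * D ^ 4) + η / (2 * D ^ 4) = η * (1 / (D : ℝ) ^ 4) := by
      field_simp
      norm_num
    have c5 := mul_le_mul_of_nonneg_left c2 hη.le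
    push_cast
    change _ ≤ _ - 4 * dt * _ - _
    linarith
  · rw [div_le_iff₀ (by linarith [hB.two_le_lam he])]
    linarith

end Pool.Agent.P.MP_553766_co.Lg
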