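import Mathlib
import Pool.Agent.P.MP_553766_co.LSt1

set_option autoImplicit false

/-! Overshoot of the rates and the joint lower bound in the chain. -/

namespace Pool.Agent.P.MP_553766_co.Lg

open Finset Pool.Agent.P.MP_553766_co

namespace LLowLo

variable {V : Type} [Fintype V] [DecidableEq V] {c : LowDat V}

lemma sum_lam_le (h : c.Ok) (v : V) :
    ∑ f ∈ c.Lo.filter (fun f => v ∈ f), 3 / 4 * lam f / c.D ≤ 3 / 4 := by
  have hD : (0 : ℝ) < c.D := by exact_mod_cast h.Dpos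
  have h1 := h.hyp.deg v
  rw [← Finset.sum_div, ← Finset.mul_sum, div_le_iff₀ hD]
  linarith

lemma Lv_le (h : c.Ok) (s : St V) (n : ℕ) (v : V) : c.Lv s n v ≤ c.E0 := by
  have h1 : c.Lv s n v ≤ ∑ f ∈ c.Lo.filter (fun f => v ∈ f), c.rate f n :=
    Finset.sum_le_sum_of_subset_of_nonneg
      (fun f hf => Finset.mem_filter.2 ⟨(Finset.mem_filter.1 hf).1, (Finset.mem_filter.1 hf).2.1⟩)
      fun f hf _ => LowDat.rate_nonneg h (Finset.mem_filter.1 hf).1 n
  have h2 : ∑ f ∈ c.Lo.filter (fun f => v ∈ f), c.rate f n ≤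
      ∑ f ∈ c.Lo.filter (fun f => v ∈ f), 3 / 4 * lam f / c.D * c.E0 :=
    Finset.sum_le_sum fun f hf => LowDat.rate_le h (Finset.mem_filter.1 hf).1 n
  rw [← Finset.sum_mul] at h2
  have h3 := sum_lam_le h v
  have h4 := h.E1
  nlinarith

lemma card_star (h : c.Ok) (v : V) {J : Finset (Finset V)}
    (hJ : J ⊆ c.Lo.filter (fun f => v ∈ f)) : ∑ f ∈ J, (f.card - 1) ≤ (J.biUnion id).card := by
  have h1 : (J.biUnion fun f => f.erase v).card = ∑ f ∈ J, (f.erase v).card := by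
    refine Finset.card_biUnion fun e he f hf hef => ?_
    have he' := Finset.mem_filter.1 (hJ he)
    have hf' := Finset.mem_filter.1 (hJ hf)
    refine Finset.disjoint_left.2 fun a ha hb => hef ?_
    exact h.hyp.eq_of_two he'.1 hf'.1 (Finset.ne_of_mem_erase ha) (Finset.mem_of_mem_erase ha)
      he'.2 (Finset.mem_of_mem_erase hb) hf'.2
  have h2 : ∑ f ∈ J, (f.card - 1) = ∑ f ∈ J, (f.erase v).card :=
    Finset.sum_congr rfl fun f hf =>
      (Finset.card_erase_of_mem (Finset.mem_filter.1 (hJ hf)).2).symm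
  rw [h2, ← h1]
  exact Finset.card_le_card (Finset.biUnion_mono fun f _ => Finset.erase_subset _ _)

lemma prod_le {ι : Type} [DecidableEq ι] (t : Finset ι) (a b : ι → ℝ) {d : ℝ} (hd : 0 ≤ d)
    (ha : ∀ i ∈ t, 0 ≤ a i ∧ a i ≤ d) (hb : ∀ i ∈ t, 0 ≤ b i ∧ b i ≤ 1) :
    ∏ i ∈ t, (a i + b i) ≤ ∏ i ∈ t, b i + ∑ i ∈ t, a i * ∏ j ∈ t.erase i, b j +
      ((1 + d) ^ t.card - 1 - t.card * d) := by
  induction t using Finset.induction_on with
  | empty => simp
  | insert i t hi ih =>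
    have ih' := ih (fun j hj => ha j (Finset.mem_insert_of_mem hj))
      (fun j hj => hb j (Finset.mem_insert_of_mem hj))
    have hai := ha i (Finset.mem_insert_self _ _)
    have hbi := hb i (Finset.mem_insert_self _ _)
    have e1 : ∑ j ∈ t, a j * ∏ k ∈ (insert i t).erase j, b k =
        b i * ∑ j ∈ t, a j * ∏ k ∈ t.erase j, b k := by
      rw [Finset.mul_sum]
      refine Finset.sum_congr rfl fun j hj => ?_
      have hij : i ≠ j := fun e => hi (e ▸ hj)
      rw [Finset.erase_insert_of_ne hij, Finset.prod_insert fun hk => hi (Finset.mem_of_mem_erase hk)]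
      ring
    have e2 : ∑ j ∈ t, a j * ∏ k ∈ t.erase j, b k ≤ t.card * d := by
      have := Finset.sum_le_card_nsmul t (fun j => a j * ∏ k ∈ t.erase j, b k) d fun j hj => by
        have h1 := ha j (Finset.mem_insert_of_mem hj)
        have h2 : ∏ k ∈ t.erase j, b k ≤ 1 := Finset.prod_le_one
          (fun k hk => (hb k (Finset.mem_insert_of_mem (Finset.mem_of_mem_erase hk))).1)
          (fun k hk => (hb k (Finset.mem_insert_of_mem (Finset.mem_of_mem_erase hk))).2)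
        nlinarith
      simpa using this
    have e3 : 0 ≤ ∑ j ∈ t, a j * ∏ k ∈ t.erase j, b k := Finset.sum_nonneg fun j hj =>
      mul_nonneg (ha j (Finset.mem_insert_of_mem hj)).1 (Finset.prod_nonneg fun k hk =>
        (hb k (Finset.mem_insert_of_mem (Finset.mem_of_mem_erase hk))).1)
    have e4 : 0 ≤ (1 + d) ^ t.card - 1 - t.card * d := by
      have := one_add_mul_le_pow (show (-2 : ℝ) ≤ d by linarith) t.card
      linarith
    rw [Finset.prod_insert hi, Finset.prod_insert hi, Finset.sum_insert hi, e1,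
      Finset.erase_insert hi, Finset.card_insert_of_notMem hi, pow_succ]
    push_cast
    have e5 := mul_le_mul_of_nonneg_left ih' (add_nonneg hai.1 hbi.1)
    have e6 := mul_le_mul hai.2 e2 e3 hd
    have e7 := mul_le_mul_of_nonneg_right (show a i + b i ≤ 1 + d by linarith [hai.2, hbi.2]) e4
    nlinarith

lemma err_le {d : ℝ} (h0 : 0 ≤ d) (h1 : d ≤ 1) {k : ℕ} (hk : k ≤ 4) :
    (1 + d) ^ k - 1 - k * d ≤ 16 * d ^ 2 := by
  have h2 : d ^ 3 ≤ d ^ 2 := pow_le_pow_of_le_one h0 h1 (by norm_num)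
  have h3 : d ^ 4 ≤ d ^ 2 := pow_le_pow_of_le_one h0 h1 (by norm_num)
  have h4 : 0 ≤ d ^ 2 := by positivity
  interval_cases k <;> push_cast <;> nlinarith

lemma pow_le_quad {d : ℝ} (h0 : 0 ≤ d) (h1 : d ≤ 1) (m : ℕ) :
    (1 - d) ^ m ≤ 1 - m * d + (m : ℝ) ^ 2 * d ^ 2 := by
  induction m with
  | zero => simp
  | succ m ih =>
    rw [pow_succ]
    push_cast
    have h2 := mul_le_mul_of_nonneg_right ih (sub_nonneg.2 h1)
    have h3 : 0 ≤ (m : ℝ) ^ 2 * d ^ 3 := by positivity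
    have h4 : 0 ≤ ((m : ℝ) + 1) * d ^ 2 := by positivity
    nlinarith

/-- model value of the event that all members of J are chosen in the end -/
noncomputable def HH (c : LowDat V) (J : Finset (Finset V)) (n : ℕ) (s : St V) : ℝ :=
  I (∀ e ∈ J \ s.2, Disjoint e s.1) * ∏ e ∈ J \ s.2, c.vp e n

lemma HH_nonneg (h : c.Ok) {J : Finset (Finset V)} (hJ : J ⊆ c.Lo) (n : ℕ) (s : St V) :
    0 ≤ HH c J n s :=
  mul_nonneg (I_nonneg _) (Finset.prod_nonneg fun _ he =>
    LowDat.vp_nonneg h (hJ (Finset.mem_sdiff.1 he).1) n)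

lemma edge_step (h : c.Ok) {J : Finset (Finset V)} (hJ : J ⊆ c.Lo) (hPD : PD J) (n : ℕ) (s : St V)
    (hal : ∀ e ∈ J \ s.2, Disjoint e s.1) (f : Finset V) :
    (if f ∈ J \ s.2 then ∏ e ∈ (J \ s.2).erase f, c.vp e n else 0) -
      (∏ e ∈ J \ s.2, c.vp e n) * ∑ v ∈ (J \ s.2).biUnion id, I (v ∈ f) ≤
    HH c J n (s.1 ∪ f, insert f s.2) - ∏ e ∈ J \ s.2, c.vp e n := by
  have hP : 0 ≤ ∏ e ∈ J \ s.2, c.vp e n := Finset.prod_nonneg fun _ he =>
    LowDat.vp_nonneg h (hJ (Finset.mem_sdiff.1 he).1) n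
  have hone : ∀ v ∈ (J \ s.2).biUnion id, v ∈ f → 1 ≤ ∑ v ∈ (J \ s.2).biUnion id, I (v ∈ f) := by
    intro v hv hvf
    rw [← I_pos hvf]
    exact Finset.single_le_sum (f := fun v => I (v ∈ f)) (fun _ _ => I_nonneg _) hv
  by_cases hf : f ∈ J \ s.2
  · rw [if_pos hf]
    have hfJ := (Finset.mem_sdiff.1 hf).1
    obtain ⟨v, hv⟩ : f.Nonempty := Finset.card_pos.1 (by have := h.hyp.big f (hJ hfJ); omega)
    have h1 := hone v (Finset.mem_biUnion.2 ⟨f, hf, hv⟩) hv
    have h2 : HH c J n (s.1 ∪ f, insert f s.2) = ∏ e ∈ (J \ s.2).erase f, c.vp e n := by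
      unfold HH
      simp only [Finset.sdiff_insert]
      rw [I_pos, one_mul]
      intro e he
      have he' := Finset.mem_of_mem_erase he
      exact Finset.disjoint_union_right.2 ⟨hal e he',
        hPD e (Finset.mem_sdiff.1 he').1 f hfJ (Finset.ne_of_mem_erase he)⟩
    rw [h2]
    nlinarith
  · rw [if_neg hf]
    by_cases hd : ∃ v ∈ (J \ s.2).biUnion id, v ∈ f
    · obtain ⟨v, hv, hvf⟩ := hd
      have h1 := hone v hv hvf
      have h2 := HH_nonneg h hJ n (s.1 ∪ f, insert f s.2)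
      nlinarith
    · have h1 : 0 ≤ ∑ v ∈ (J \ s.2).biUnion id, I (v ∈ f) := Finset.sum_nonneg fun _ _ => I_nonneg _
      have h2 : HH c J n (s.1 ∪ f, insert f s.2) = ∏ e ∈ J \ s.2, c.vp e n := by
        unfold HH
        simp only [Finset.sdiff_insert, Finset.erase_eq_of_notMem hf]
        rw [I_pos, one_mul]
        intro e he
        exact Finset.disjoint_union_right.2 ⟨hal e he, Finset.disjoint_left.2 fun v hv hvf =>
          hd ⟨v, Finset.mem_biUnion.2 ⟨e, he, hv⟩, hvf⟩⟩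
      rw [h2]
      nlinarith

lemma point_step (h : c.Ok) {J : Finset (Finset V)} (hJ : J ⊆ c.Lo) (n : ℕ) (s : St V)
    (hal : ∀ e ∈ J \ s.2, Disjoint e s.1) (v : V) :
    -((∏ e ∈ J \ s.2, c.vp e n) * I (v ∈ (J \ s.2).biUnion id)) ≤
    HH c J n (insert v s.1, s.2) - ∏ e ∈ J \ s.2, c.vp e n := by
  by_cases hv : v ∈ (J \ s.2).biUnion id
  · rw [I_pos hv]
    have := HH_nonneg h hJ n (insert v s.1, s.2)
    linarith
  · rw [I_neg hv]
    have h2 : HH c J n (insert v s.1, s.2) = ∏ e ∈ J \ s.2, c.vp e n := by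
      unfold HH
      rw [I_pos, one_mul]
      intro e he
      exact Finset.disjoint_insert_right.2
        ⟨fun hve => hv (Finset.mem_biUnion.2 ⟨e, he, hve⟩), hal e he⟩
    rw [h2]; simp

lemma Kop_ge (h : c.Ok) {J : Finset (Finset V)} (hJ : J ⊆ c.Lo) (hPD : PD J) (n : ℕ) (s : St V)
    (hal : ∀ e ∈ J \ s.2, Disjoint e s.1) (hv : ∀ e ∈ J, c.vp e (n + 1) ≤ 1) :
    (∏ e ∈ J \ s.2, c.vp e (n + 1)) * (1 - ((J \ s.2).biUnion id).card * c.dt) +
      ∑ f ∈ J \ s.2, c.rate f n * c.dt * ∏ e ∈ (J \ s.2).erase f, c.vp e (n + 1) -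
      c.dt * ∑ v ∈ (J \ s.2).biUnion id, max (c.Lv s n v - 1) 0 ≤ c.Kop n (HH c J (n + 1)) s := by
  have hP : 0 ≤ ∏ e ∈ J \ s.2, c.vp e (n + 1) := Finset.prod_nonneg fun _ he =>
    LowDat.vp_nonneg h (hJ (Finset.mem_sdiff.1 he).1) _
  have hP1 : ∏ e ∈ J \ s.2, c.vp e (n + 1) ≤ 1 := Finset.prod_le_one (fun _ he =>
    LowDat.vp_nonneg h (hJ (Finset.mem_sdiff.1 he).1) _) fun e he => hv e (Finset.mem_sdiff.1 he).1
  have hH : HH c J (n + 1) s = ∏ e ∈ J \ s.2, c.vp e (n + 1) := by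
    unfold HH; rw [I_pos hal, one_mul]
  have hA := Finset.sum_le_sum (s := c.Lo.filter (fun f => Disjoint f s.1)) fun f hf =>
    mul_le_mul_of_nonneg_left (edge_step h hJ hPD (n + 1) s hal f)
      (LowDat.rate_nonneg h (Finset.mem_filter.1 hf).1 n)
  have hB := Finset.sum_le_sum (s := univ.filter (fun v => v ∉ s.1)) fun v _ =>
    mul_le_mul_of_nonneg_left (point_step h hJ (n + 1) s hal v)
      (le_max_right (1 - c.Lv s n v) 0)
  unfold LowDat.Kop
  rw [hH]
  generalize ∏ e ∈ J \ s.2, c.vp e (n + 1) = P at *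
  have hsub : J \ s.2 ⊆ c.Lo.filter (fun f => Disjoint f s.1) := fun f hf =>
    Finset.mem_filter.2 ⟨hJ (Finset.mem_sdiff.1 hf).1, hal f hf⟩
  generalize J \ s.2 = J' at *
  generalize J'.biUnion id = S at *
  have e1 : ∑ f ∈ c.Lo.filter (fun f => Disjoint f s.1), c.rate f n *
      ((if f ∈ J' then ∏ e ∈ J'.erase f, c.vp e (n + 1) else 0) - P * ∑ v ∈ S, I (v ∈ f)) =
      ∑ f ∈ J', c.rate f n * ∏ e ∈ J'.erase f, c.vp e (n + 1) - P * ∑ v ∈ S, c.Lv s n v := by
    simp only [mul_sub, Finset.sum_sub_distrib]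
    congr 1
    · rw [← Finset.sum_subset hsub fun f _ hf => by rw [if_neg hf, mul_zero]]
      exact Finset.sum_congr rfl fun f hf => by rw [if_pos hf]
    · simp only [Finset.mul_sum, LowDat.Lv]
      rw [Finset.sum_comm]
      refine Finset.sum_congr rfl fun v _ => ?_
      simp only [Finset.sum_filter, I_eq_ite]
      refine Finset.sum_congr rfl fun f _ => ?_
      by_cases h1 : v ∈ f <;> by_cases h2 : Disjoint f s.1 <;> simp [h1, h2, mul_comm]
  have e2 : ∑ v ∈ univ.filter (fun v => v ∉ s.1), max (1 - c.Lv s n v) 0 * I (v ∈ S) ≤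
      ∑ v ∈ S, max (1 - c.Lv s n v) 0 := by
    refine le_trans (Finset.sum_le_sum_of_subset_of_nonneg (Finset.filter_subset _ _)
      fun v _ _ => mul_nonneg (le_max_right _ _) (I_nonneg _)) (le_of_eq ?_)
    simp [I_eq_ite]
  have e3 : ∑ v ∈ univ.filter (fun v => v ∉ s.1), max (1 - c.Lv s n v) 0 * -(P * I (v ∈ S)) =
      -(P * ∑ v ∈ univ.filter (fun v => v ∉ s.1), max (1 - c.Lv s n v) 0 * I (v ∈ S)) := by
    rw [Finset.mul_sum, ← Finset.sum_neg_distrib]
    exact Finset.sum_congr rfl fun v _ => by ring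
  have e4 : ∑ v ∈ S, c.Lv s n v + ∑ v ∈ S, max (1 - c.Lv s n v) 0 =
      S.card + ∑ v ∈ S, max (c.Lv s n v - 1) 0 := by
    rw [← Finset.sum_add_distrib, Finset.card_eq_sum_ones]
    push_cast
    rw [← Finset.sum_add_distrib]
    refine Finset.sum_congr rfl fun v _ => ?_
    rcases le_total (c.Lv s n v) 1 with h1 | h1
    · rw [max_eq_left (by linarith), max_eq_right (by linarith)]; ring
    · rw [max_eq_right (by linarith), max_eq_left (by linarith)]; ring
  have e5 : ∑ f ∈ J', c.rate f n * c.dt * ∏ e ∈ J'.erase f, c.vp e (n + 1) =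
      c.dt * ∑ f ∈ J', c.rate f n * ∏ e ∈ J'.erase f, c.vp e (n + 1) := by
    rw [Finset.mul_sum]
    exact Finset.sum_congr rfl fun f _ => by ring
  have e6 : 0 ≤ ∑ v ∈ S, max (c.Lv s n v - 1) 0 := Finset.sum_nonneg fun v _ => le_max_right _ _
  rw [e1] at hA
  rw [e3] at hB
  rw [e5]
  have e7 := mul_le_mul_of_nonneg_left e2 hP
  have e8 := mul_le_mul_of_nonneg_right hP1 e6
  have e9 : P * (∑ v ∈ S, c.Lv s n v + ∑ v ∈ S, max (1 - c.Lv s n v) 0) =
      P * (S.card + ∑ v ∈ S, max (c.Lv s n v - 1) 0) := by rw [e4]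
  have e10 : ∑ f ∈ J', c.rate f n * ∏ e ∈ J'.erase f, c.vp e (n + 1) - P * S.card -
      ∑ v ∈ S, max (c.Lv s n v - 1) 0 ≤
      ∑ f ∈ c.Lo.filter (fun f => Disjoint f s.1),
        c.rate f n * (HH c J (n + 1) (s.1 ∪ f, insert f s.2) - P) +
      ∑ v ∈ univ.filter (fun v => v ∉ s.1),
        max (1 - c.Lv s n v) 0 * (HH c J (n + 1) (insert v s.1, s.2) - P) := by
    nlinarith
  have e11 := mul_le_mul_of_nonneg_left e10 h.dt0.le
  nlinarith

lemma model_le (h : c.Ok) {J : Finset (Finset V)} (hJ : J ⊆ c.Lo) (n : ℕ) {sb : ℕ}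
    (h4 : J.card ≤ 4) (hsb : (J.biUnion id).card ≤ sb)
    (hv : ∀ e ∈ J, c.vp e (n + 1) ≤ 1 ∧ c.rate e n ≤ 1) :
    ∏ e ∈ J, c.vp e n ≤ (∏ e ∈ J, c.vp e (n + 1)) * (1 - (J.biUnion id).card * c.dt) +
      ∑ f ∈ J, c.rate f n * c.dt * ∏ e ∈ J.erase f, c.vp e (n + 1) +
      (16 + (sb : ℝ) ^ 2) * c.dt ^ 2 := by
  have d0 := h.dt0
  have d1 := h.dt1
  have hq : ∀ k : ℕ, 0 ≤ (1 - c.dt) ^ k ∧ (1 - c.dt) ^ k ≤ 1 := fun k =>
    ⟨pow_nonneg (by linarith) _, pow_le_one₀ (by linarith) (by linarith)⟩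
  have hvp : ∀ e ∈ J, 0 ≤ c.vp e (n + 1) := fun e he => LowDat.vp_nonneg h (hJ he) _
  have h1 := prod_le J (fun e => c.rate e n * c.dt)
    (fun e => (1 - c.dt) ^ e.card * c.vp e (n + 1)) d0.le
    (fun e he => ⟨mul_nonneg (LowDat.rate_nonneg h (hJ he) n) d0.le,
      mul_le_of_le_one_left d0.le (hv e he).2⟩)
    (fun e he => ⟨mul_nonneg (hq _).1 (hvp e he), mul_le_one₀ (hq _).2 (hvp e he) (hv e he).1⟩)
  have h2 : ∏ e ∈ J, c.vp e n =
      ∏ e ∈ J, (c.rate e n * c.dt + (1 - c.dt) ^ e.card * c.vp e (n + 1)) :=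
    Finset.prod_congr rfl fun e he => LowDat.vp_succ h (hJ he) n
  have h3 := err_le d0.le (by linarith) h4
  have h5 : ∑ f ∈ J, c.rate f n * c.dt * ∏ e ∈ J.erase f, (1 - c.dt) ^ e.card * c.vp e (n + 1) ≤
      ∑ f ∈ J, c.rate f n * c.dt * ∏ e ∈ J.erase f, c.vp e (n + 1) :=
    Finset.sum_le_sum fun f hf => mul_le_mul_of_nonneg_left
      (Finset.prod_le_prod (fun e he => mul_nonneg (hq _).1 (hvp e (Finset.mem_of_mem_erase he)))
        fun e he => mul_le_of_le_one_left (hvp e (Finset.mem_of_mem_erase he)) (hq _).2)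
      (mul_nonneg (LowDat.rate_nonneg h (hJ hf) n) d0.le)
  have h6 : ∏ e ∈ J, (1 - c.dt) ^ e.card ≤ (1 - c.dt) ^ (J.biUnion id).card := by
    rw [Finset.prod_pow_eq_pow_sum]
    exact pow_le_pow_of_le_one (by linarith) (by linarith) Finset.card_biUnion_le
  have h7 := pow_le_quad d0.le (by linarith) (J.biUnion id).card
  have h8 : ((J.biUnion id).card : ℝ) ^ 2 * c.dt ^ 2 ≤ (sb : ℝ) ^ 2 * c.dt ^ 2 := by
    have : ((J.biUnion id).card : ℝ) ≤ sb := by exact_mod_cast hsb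
    gcongr
  have hP : 0 ≤ ∏ e ∈ J, c.vp e (n + 1) := Finset.prod_nonneg hvp
  have hP1 : ∏ e ∈ J, c.vp e (n + 1) ≤ 1 := Finset.prod_le_one hvp fun e he => (hv e he).1
  have h9 : 0 ≤ (sb : ℝ) ^ 2 * c.dt ^ 2 := by positivity
  rw [Finset.prod_mul_distrib] at h1
  have h10 := mul_le_mul_of_nonneg_right (h6.trans (h7.trans (add_le_add le_rfl h8))) hP
  have h11 := mul_le_mul_of_nonneg_left hP1 h9
  rw [h2]
  nlinarith

lemma step (h : c.Ok) {J : Finset (Finset V)} (hJ : J ⊆ c.Lo) (hPD : PD J) (n : ℕ) {sb : ℕ}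
    (h4 : J.card ≤ 4) (hsb : (J.biUnion id).card ≤ sb)
    (hv : ∀ e ∈ J, c.vp e (n + 1) ≤ 1 ∧ c.rate e n ≤ 1) (s : St V) :
    HH c J n s - (16 + (sb : ℝ) ^ 2) * c.dt ^ 2 -
      c.dt * ∑ v ∈ J.biUnion id, max (c.Lv s n v - 1) 0 ≤ c.Kop n (HH c J (n + 1)) s := by
  have d0 := h.dt0
  have hs : (J \ s.2).biUnion id ⊆ J.biUnion id :=
    Finset.biUnion_subset_biUnion_of_subset_left _ Finset.sdiff_subset
  by_cases hal : ∀ e ∈ J \ s.2, Disjoint e s.1
  · have h1 := Kop_ge h hJ hPD n s hal fun e he => (hv e he).1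
    have h2 := model_le h (Finset.sdiff_subset.trans hJ : J \ s.2 ⊆ c.Lo) n
      ((Finset.card_le_card Finset.sdiff_subset).trans h4) ((Finset.card_le_card hs).trans hsb)
      fun e he => hv e (Finset.mem_sdiff.1 he).1
    have h3 : ∑ v ∈ (J \ s.2).biUnion id, max (c.Lv s n v - 1) 0 ≤
        ∑ v ∈ J.biUnion id, max (c.Lv s n v - 1) 0 :=
      Finset.sum_le_sum_of_subset_of_nonneg hs fun v _ _ => le_max_right _ _
    have h5 := mul_le_mul_of_nonneg_left h3 d0.le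
    have h6 : HH c J n s = ∏ e ∈ J \ s.2, c.vp e n := by unfold HH; rw [I_pos hal, one_mul]
    linarith
  · have h1 := LowDat.Kop_nonneg h n (HH_nonneg h hJ (n + 1)) s
    have h2 : HH c J n s = 0 := by unfold HH; rw [I_neg hal, zero_mul]
    have h3 : 0 ≤ c.dt * ∑ v ∈ J.biUnion id, max (c.Lv s n v - 1) 0 :=
      mul_nonneg d0.le (Finset.sum_nonneg fun v _ => le_max_right _ _)
    have h5 : 0 ≤ (16 + (sb : ℝ) ^ 2) * c.dt ^ 2 := by positivity
    linarith

end LLowLo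

open LLowLo

theorem lowLo : StLowLo := by
  intro V _ _ c h Z J sb ov hJ hPD hZ h4 hsb hv hov hmax
  have d0 := h.dt0
  have key : ∀ n : ℕ, ∏ e ∈ J, c.vp e 0 - n * ((16 + (sb : ℝ) ^ 2) * c.dt ^ 2 + c.dt * (sb * ov)) ≤
      c.Fw Z n (HH c J n) := by
    intro n
    induction n with
    | zero =>
      simp only [LowDat.Fw, HH, Finset.sdiff_empty]
      rw [I_pos hZ]; simp
    | succ n ih =>
      have h1 := LowDat.Fw_mono h Z n
        (step h hJ hPD n h4 hsb fun e he => ⟨(hv e he (n + 1)).1, (hv e he n).2⟩)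
      rw [LowDat.Fw_sub, LowDat.Fw_sub, LowDat.Fw_const, LowDat.Fw_smul, LowDat.Fw_sum] at h1
      have h2 : ∑ v ∈ J.biUnion id, c.Fw Z n (fun s => max (c.Lv s n v - 1) 0) ≤ sb * ov := by
        have h3 := Finset.sum_le_card_nsmul (J.biUnion id)
          (fun v => c.Fw Z n (fun s => max (c.Lv s n v - 1) 0)) ov fun v _ => hmax n v
        rw [nsmul_eq_mul] at h3
        exact h3.trans (mul_le_mul_of_nonneg_right (by exact_mod_cast hsb) hov)
      have h3 := mul_le_mul_of_nonneg_left h2 d0.le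
      show _ ≤ c.Fw Z n (c.Kop n (HH c J (n + 1)))
      push_cast
      have h5 : c.Fw Z n (fun s => HH c J n s) = c.Fw Z n (HH c J n) := rfl
      have h6 : c.Fw Z n (fun s => c.Kop n (HH c J (n + 1)) s) =
        c.Fw Z n (c.Kop n (HH c J (n + 1))) := rfl
      linarith
  have h1 : c.Fw Z c.nmax (HH c J c.nmax) ≤ c.Fw Z c.nmax (fun s => I (J ⊆ s.2)) := by
    refine LowDat.Fw_mono h Z _ fun s => ?_
    unfold HH
    by_cases hs : J ⊆ s.2
    · rw [I_pos hs, Finset.sdiff_eq_empty_iff_subset.2 hs]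
      simpa using I_le_one _
    · obtain ⟨e, he, hes⟩ := Finset.not_subset.1 hs
      rw [Finset.prod_eq_zero (Finset.mem_sdiff.2 ⟨he, hes⟩) (LowDat.vp_end (h.le_max e (hJ he))),
        mul_zero]
      exact I_nonneg _
  have h2 := mul_le_mul_of_nonneg_right h.tmax
    (show 0 ≤ (16 + (sb : ℝ) ^ 2) * c.dt + sb * ov by positivity)
  have h3 := key c.nmax
  nlinarith

theorem ov (h1 : StSurv) (h2 : StTail) : StOv := by
  intro V _ _ c h Λ l hΛ hl hdt hD Z n v
  have d0 := h.dt0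
  have d1 := h.dt1
  have hE := h.E1
  have hDp : (0 : ℝ) < c.D := by exact_mod_cast h.Dpos
  have hq : 0 < 1 - c.dt := by linarith
  have hwb : 0 ≤ 3 / 4 * (Λ : ℝ) / c.D * c.E0 := by positivity
  have hj : (l : ℝ) * (3 / 4 * (Λ : ℝ) / c.D * c.E0) ≤ 1 / 400 := by
    refine le_trans ?_ hD
    have e1 : (l : ℝ) * (3 / 4 * (Λ : ℝ) / c.D * c.E0) = l * (3 / 4 * Λ) * c.E0 / c.D := by ring
    rw [e1]
    refine div_le_div_of_nonneg_right (mul_le_mul_of_nonneg_right ?_ (by linarith)) hDp.le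
    have a1 : (1 : ℝ) ≤ l := by exact_mod_cast hl
    have a2 : (0 : ℝ) ≤ Λ := Nat.cast_nonneg _
    have a3 : (1 : ℝ) ≤ l * (Λ + 1) := by nlinarith
    have a4 : (1 : ℝ) ≤ u0 := by unfold u0; norm_num
    have a5 : (l : ℝ) * (Λ + 1) ≤ (l * (Λ + 1)) ^ 2 := by nlinarith
    have a6 : ((l : ℝ) * (Λ + 1)) ^ 2 ≤ (l * (Λ + 1)) ^ 2 * u0 :=
      le_mul_of_one_le_right (by positivity) a4
    nlinarith
  have key := h2 (St V) (Finset V) (fun s' => c.Fw Z n (fun s => I (s = s')))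
    (fun s => c.Lo.filter (fun f => v ∈ f ∧ Disjoint f s.1)) (c.Lo.filter (fun f => v ∈ f))
    (fun f => (1 - c.dt) ^ ((f.card - 1) * n)) (fun f => c.rate f n) 2
    (3 / 4 * (Λ : ℝ) / c.D * c.E0) (3 / 4) 1 l (LowDat.Fw_prob h Z n).nonneg ?_ ?_ ?_ hwb
    (by linarith)
  · rw [← LowDat.Fw_eq_Ex] at key
    have e1 : c.Fw Z n (fun s => max (c.Lv s n v - 1) 0) ≤ c.Fw Z n (fun s => c.E0 *
        I (1 ≤ ∑ i ∈ (c.Lo.filter (fun f => v ∈ f)).filter
          (fun i => i ∈ c.Lo.filter (fun f => v ∈ f ∧ Disjoint f s.1)), c.rate i n)) := by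
      refine LowDat.Fw_mono h Z n fun s => ?_
      have e2 : (c.Lo.filter (fun f => v ∈ f)).filter
          (fun i => i ∈ c.Lo.filter (fun f => v ∈ f ∧ Disjoint f s.1)) =
          c.Lo.filter (fun f => v ∈ f ∧ Disjoint f s.1) := by
        ext f
        simp only [Finset.mem_filter]
        tauto
      rw [e2]
      show _ ≤ c.E0 * I (1 ≤ c.Lv s n v)
      by_cases h3 : 1 ≤ c.Lv s n v
      · rw [I_pos h3]
        have := Lv_le h s n v
        exact max_le (by linarith) (by linarith)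
      · rw [I_neg h3, max_eq_right (by linarith [not_le.1 h3]), mul_zero]
    rw [LowDat.Fw_smul] at e1
    have e3 : (3 / 4 / (1 - (l : ℝ) * (3 / 4 * (Λ : ℝ) / c.D * c.E0))) ^ l ≤ (0.8 : ℝ) ^ l := by
      refine pow_le_pow_left₀ (div_nonneg (by norm_num) (by linarith)) ?_ l
      rw [div_le_iff₀ (by linarith)]
      linarith
    have e4 := mul_le_mul_of_nonneg_left
      (key.trans (mul_le_mul_of_nonneg_left e3 (by norm_num))) (show 0 ≤ c.E0 by linarith)
    linarith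
  · intro f hf
    have hf' := (Finset.mem_filter.1 hf).1
    refine ⟨by positivity, LowDat.rate_nonneg h hf' n, (LowDat.rate_le h hf' n).trans ?_⟩
    have : lam f ≤ Λ := by
      have : (f.card : ℝ) ≤ Λ + 1 := by exact_mod_cast hΛ f hf'
      unfold lam; linarith
    gcongr
  · intro J hJ hc
    rw [← LowDat.Fw_eq_Ex]
    have hcard : (J.biUnion id).card ≤ l * (Λ + 1) := by
      refine Finset.card_biUnion_le.trans ?_
      have := Finset.sum_le_card_nsmul J (fun f => (id f).card) (Λ + 1) fun f hf =>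
        hΛ f (Finset.mem_filter.1 (hJ hf)).1
      exact this.trans (Nat.mul_le_mul_right _ hc)
    have e1 := h1 V c h Z (J.biUnion id) n (l * (Λ + 1)) hcard (by push_cast; exact hdt)
    have e2 : c.Fw Z n (fun s => I (J ⊆ c.Lo.filter (fun f => v ∈ f ∧ Disjoint f s.1))) ≤
        c.Fw Z n (fun s => I (Disjoint (J.biUnion id) s.1)) :=
      LowDat.Fw_mono h Z n fun s => I_mono fun hs =>
        (Finset.disjoint_biUnion_left _ _ _).2 fun f hf => (Finset.mem_filter.1 (hs hf)).2.2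
    have e3 : Real.exp (((l * (Λ + 1) : ℕ) : ℝ) ^ 2 * u0 * c.E0 / c.D) ≤ 2 := by
      push_cast
      refine (Real.exp_le_exp.2 (hD.trans (show (1 : ℝ) / 400 ≤ Real.log 2 by
        linarith [Real.log_two_gt_d9]))).trans ?_
      rw [Real.exp_log (by norm_num)]
    have e4 : (1 - c.dt) ^ ((J.biUnion id).card * n) ≤ ∏ f ∈ J, (1 - c.dt) ^ ((f.card - 1) * n) := by
      rw [Finset.prod_pow_eq_pow_sum, ← Finset.sum_mul]
      exact pow_le_pow_of_le_one hq.le (by linarith) (Nat.mul_le_mul_right _ (card_star h v hJ))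
    have e5 := mul_le_mul e4 e3 (Real.exp_pos _).le
      (Finset.prod_nonneg fun f _ => by positivity)
    linarith
  · refine le_trans (Finset.sum_le_sum fun f hf => ?_) (sum_lam_le h v)
    have a1 := h.hyp.two_le_lam (Finset.mem_filter.1 hf).1
    unfold LowDat.rate
    split_ifs
    · rw [mul_left_comm, ← mul_pow, mul_one_div_cancel hq.ne', one_pow, mul_one]
    · rw [mul_zero]; positivity

end Pool.Agent.P.MP_553766_co.Lg
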