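import Mathlib
import Pool.Agent.P.MP_553766_co.LSt1

set_option autoImplicit false

/-! The choice of the parameters. -/

namespace Pool.Agent.P.MP_553766_co.Lg

open Filter Topology

namespace LPar

lemma key {y c : ℝ} (hy : 10 ^ 200 ≤ y) (hc : c ≤ 10 ^ 200) {a b : ℕ} (h : a < b) :
    c * y ^ a ≤ y ^ b := by
  have h1 : (1 : ℝ) ≤ y := le_trans (by norm_num) hy
  calc c * y ^ a ≤ y * y ^ a := mul_le_mul_of_nonneg_right (hc.trans hy) (by positivity)
    _ = y ^ (a + 1) := by ring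
    _ ≤ y ^ b := pow_le_pow_right₀ h1 h

lemma succ_pow {y : ℝ} (hy : 10 ^ 200 ≤ y) : (y + 1) ^ 100 ≤ 2 * y ^ 100 := by
  have h0 : (200 : ℝ) ≤ y := le_trans (by norm_num) hy
  have h1 : (0 : ℝ) < y + 1 := by linarith
  have h2 := one_add_mul_le_pow (a := -(1 / (y + 1))) (by
    have : 1 / (y + 1) ≤ 1 := by rw [div_le_one h1]; linarith
    linarith) 100
  have h3 : 1 + -(1 / (y + 1)) = y / (y + 1) := by field_simp; ring
  have h4 : 1 / (y + 1) ≤ 1 / 200 := one_div_le_one_div_of_le (by norm_num) (by linarith)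
  rw [h3, div_pow, le_div_iff₀ (by positivity)] at h2
  have h5 : (0 : ℝ) < (y + 1) ^ 100 := by positivity
  push_cast at h2
  nlinarith

lemma log_bound {y : ℝ} (hy : 10 ^ 200 ≤ y) : 2 + 4 * Real.log (2 / (1 / y ^ 500)) ≤ y := by
  have h0 : (0 : ℝ) < y := lt_of_lt_of_le (by norm_num) hy
  have hs : 10 ^ 4 ≤ Real.sqrt y := Real.le_sqrt_of_sq_le (le_trans (by norm_num) hy)
  have h1 : Real.log y ≤ 2 * Real.sqrt y := by
    have h2 := Real.log_le_sub_one_of_pos (Real.sqrt_pos.2 h0)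
    rw [Real.log_sqrt h0.le] at h2
    linarith
  have h2 : Real.log 2 ≤ 1 := by
    have := Real.log_le_sub_one_of_pos (x := 2) (by norm_num)
    linarith
  have h3 := Real.mul_self_sqrt h0.le
  rw [div_div_eq_mul_div, div_one, Real.log_mul (by norm_num) (by positivity), Real.log_pow]
  push_cast
  nlinarith

lemma exists_l0 : ∃ l0 : ℕ, ∀ l : ℕ, l0 ≤ l → (10 : ℝ) ^ 200 ≤ l ∧
    u0 * Real.exp (2 * u0) ≤ l ∧ (l : ℝ) ^ 600 * (0.998 : ℝ) ^ l ≤ 1 := by
  have h1 := (tendsto_pow_const_mul_const_pow_of_abs_lt_one 600 (r := 0.998)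
    (by rw [abs_of_pos] <;> norm_num)).eventually_le_const one_pos
  have h2 := tendsto_natCast_atTop_atTop (R := ℝ)
  exact eventually_atTop.1 ((h2.eventually_ge_atTop _).and ((h2.eventually_ge_atTop _).and h1))

lemma exists_root (l0 D : ℕ) (h : l0 ^ 100 ≤ D) :
    ∃ l, l0 ≤ l ∧ l ^ 100 ≤ D ∧ D < (l + 1) ^ 100 := by
  classical
  have hex : ∃ l, D < (l + 1) ^ 100 :=
    ⟨D, (Nat.lt_succ_self D).trans_le (Nat.le_self_pow (by norm_num) _)⟩
  refine ⟨Nat.find hex, ?_, ?_, Nat.find_spec hex⟩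
  · by_contra hc
    have h1 : (Nat.find hex + 1) ^ 100 ≤ l0 ^ 100 := Nat.pow_le_pow_left (by omega) _
    exact absurd (Nat.find_spec hex) (not_lt.2 (h1.trans h))
  · rcases hk : Nat.find hex with _ | k
    · simp
    · exact not_lt.1 (Nat.find_min hex (m := k) (by omega))

end LPar

open LPar

theorem par : StPar := by
  obtain ⟨l0, hl0⟩ := exists_l0
  refine ⟨l0 ^ 100, fun D hD => ?_⟩
  obtain ⟨l, h1, h2, h3⟩ := exists_root l0 D hD
  obtain ⟨hy, hu, hg⟩ := hl0 l h1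
  have d1 : (l : ℝ) ^ 100 ≤ D := by exact_mod_cast h2
  have d2 : (D : ℝ) ≤ 2 * (l : ℝ) ^ 100 :=
    le_trans (by exact_mod_cast h3.le) (succ_pow hy)
  clear h1 h2 h3 hD hl0
  have y0 : (0 : ℝ) < l := lt_of_lt_of_le (by norm_num) hy
  have y1 : (1 : ℝ) ≤ l := le_trans (by norm_num) hy
  have l4 : 4 ≤ l := by exact_mod_cast (le_trans (by norm_num) hy : (4 : ℝ) ≤ l)
  have dpos : (0 : ℝ) < D := (pow_pos y0 100).trans_le d1
  have Dpos : 0 < D := by exact_mod_cast dpos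
  have hK : l ^ 12 ≤ l ^ 36 := Nat.pow_le_pow_right (by omega) (by norm_num)
  have d4 : (D : ℝ) ^ 4 ≤ 16 * (l : ℝ) ^ 400 :=
    (pow_le_pow_left₀ dpos.le d2 4).trans_eq (by ring)
  have d5 : (D : ℝ) ^ 5 ≤ 32 * (l : ℝ) ^ 500 :=
    (pow_le_pow_left₀ dpos.le d2 5).trans_eq (by ring)
  have p36 : (l : ℝ) ^ 36 + 1 ≤ 2 * (l : ℝ) ^ 36 := by
    have := one_le_pow₀ (n := 36) y1
    linarith
  have e0 : 0 < Real.exp (2 * u0) := Real.exp_pos _
  have eu : Real.exp (2 * u0) ≤ l := by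
    have : (1 : ℝ) ≤ u0 := by norm_num [u0]
    exact (le_mul_of_one_le_left e0.le this).trans hu
  have k := fun (c : ℝ) (hc : c ≤ 10 ^ 200) (a b : ℕ) (h : a < b) => key hy hc h
  refine ⟨l ^ 12, l ^ 36, l, 2 * l ^ 50, 1 / (l : ℝ) ^ 20, 1 / (l : ℝ) ^ 22, l,
    1 / (l : ℝ) ^ 500, (l : ℝ) ^ 8,
    ⟨by positivity, y1, by positivity, one_le_pow₀ y1, l4, ?_, ?_, ?_, ?_, ?_, ?_, ?_, ?_, hK⟩,
    ⟨?_, ?_, ?_, ?_⟩, ⟨by positivity, ?_, l4, ?_, ?_, Dpos⟩,
    ⟨Dpos, l4, hK, by positivity, ?_, ?_, ?_, ?_, by positivity⟩, by positivity, ?_,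
    log_bound hy⟩
  · rw [tau, div_mul_eq_mul_div, div_le_div_iff₀ (by positivity) (by positivity)]
    have := k (10 ^ 100) (by norm_num) 16 20 (by norm_num)
    linarith
  · have := k (10 ^ 100) (by norm_num) 8 12 (by norm_num)
    rw [tau]
    push_cast
    linarith
  · have := k (10 ^ 100) (by norm_num) 40 100 (by norm_num)
    rw [tau]
    push_cast
    linarith
  · have := k (10 ^ 100) (by norm_num) 2 12 (by norm_num)
    rw [tau]
    push_cast
    linarith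
  · rw [tau, div_mul_eq_mul_div, div_le_div_iff₀ (by positivity) (by positivity)]
    have := k (16 * 10 ^ 100) (by norm_num) 400 500 (by norm_num)
    linarith
  · have := k (10 ^ 100) (by norm_num) 5 8 (by norm_num)
    rw [tau]
    linarith
  · have h4 := k (32 * 10 ^ 100) (by norm_num) 500 600 (by norm_num)
    have h5 : (0 : ℝ) < 0.998 ^ l := by positivity
    have h6 := mul_le_mul_of_nonneg_left d5 h5.le
    have h7 := mul_le_mul_of_nonneg_left h4 h5.le
    rw [tau]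
    linarith
  · have h4 := k 6 (by norm_num) 36 100 (by norm_num)
    have h5 := one_le_pow₀ (n := 36) y1
    have : 2 * (l : ℝ) ^ 36 + 4 ≤ D := by linarith
    exact_mod_cast this
  · have h4 : (0 : ℝ) < (l : ℝ) ^ 100 := by positivity
    have : (D : ℝ) ≤ (2 * (l : ℝ) ^ 50) ^ 2 := by linarith
    exact_mod_cast this
  · have h4 := k (4 * 10 ^ 6) (by norm_num) 100 108 (by norm_num)
    have : 10 ^ 6 * (2 * (l : ℝ) ^ 50) ^ 2 ≤ ((l : ℝ) ^ 36) ^ 3 := by linarith
    exact_mod_cast this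
  · have h4 := k (2 * 10 ^ 4) (by norm_num) 86 100 (by norm_num)
    have : 10 ^ 4 * (2 * (l : ℝ) ^ 50) * (l : ℝ) ^ 36 ≤ D := by linarith
    exact_mod_cast this
  · have h4 := k (10 ^ 7) (by norm_num) 0 36 (by norm_num)
    have : (10 : ℝ) ^ 7 ≤ (l : ℝ) ^ 36 := by linarith
    exact_mod_cast this
  · have h4 := k 100 (by norm_num) 0 22 (by norm_num)
    exact one_div_le_one_div_of_le (by norm_num) (by linarith)
  · have h4 := k 16 (by norm_num) 97 100 (by norm_num)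
    have h5 : ((l : ℝ) * ((l : ℝ) ^ 36 + 1)) ^ 2 ≤ 4 * (l : ℝ) ^ 74 :=
      (pow_le_pow_left₀ (by positivity) (mul_le_mul_of_nonneg_left p36 y0.le) 2).trans_eq
        (by ring)
    have h6 : ((l : ℝ) * ((l : ℝ) ^ 36 + 1)) ^ 2 * (u0 * Real.exp (2 * u0))
        ≤ 4 * (l : ℝ) ^ 74 * l :=
      mul_le_mul h5 hu (by have : (0 : ℝ) < u0 := by norm_num [u0]
                           positivity) (by positivity)
    have h7 := mul_le_mul_of_nonneg_right h6 (by positivity : (0 : ℝ) ≤ (l : ℝ) ^ 22 * 4)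
    rw [div_div, div_le_div_iff₀ dpos (by positivity)]
    push_cast
    linarith
  · have h4 := k 2048 (by norm_num) 459 600 (by norm_num)
    have h5 : (0.8 : ℝ) ^ l ≤ 0.998 ^ l := pow_le_pow_left₀ (by norm_num) (by norm_num) l
    have h6 : 64 * ((l : ℝ) ^ 36 + 1) * Real.exp (2 * u0) * (0.8 : ℝ) ^ l * (D : ℝ) ^ 4
        ≤ 64 * (2 * (l : ℝ) ^ 36) * l * (0.998 : ℝ) ^ l * (16 * (l : ℝ) ^ 400) := by
      gcongr
    have h7 := mul_le_mul_of_nonneg_right h6 (by positivity : (0 : ℝ) ≤ (l : ℝ) ^ 22)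
    have h8 := mul_le_mul_of_nonneg_right h4 (by positivity : (0 : ℝ) ≤ 0.998 ^ l)
    rw [le_div_iff₀ (by positivity)]
    push_cast
    linarith
  · have h4 := k 20 (by norm_num) 0 2 (by norm_num)
    have h5 := k 20 (by norm_num) 0 4 (by norm_num)
    have h6 : 10 * (1 / (l : ℝ) ^ 22) ≤ 1 / 2 * (1 / (l : ℝ) ^ 20) := by
      have := k 20 (by norm_num) 20 22 (by norm_num)
      rw [mul_one_div, mul_one_div, div_le_div_iff₀ (by positivity) (by positivity)]
      linarith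
    have h7 : 10 * (l : ℝ) ^ 12 / (l : ℝ) ^ 36 ≤ 1 / 2 * (1 / (l : ℝ) ^ 20) := by
      have := k 20 (by norm_num) 32 36 (by norm_num)
      rw [mul_one_div, div_le_div_iff₀ (by positivity) (by positivity)]
      linarith
    push_cast
    linarith
  · have h4 := k 100 (by norm_num) 0 20 (by norm_num)
    exact one_div_le_one_div_of_le (by norm_num) (by linarith)
  · exact le_trans (by norm_num [cc]) hy
  · have h4 := k (10 * u0) (by norm_num [u0]) 0 36 (by norm_num)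
    push_cast
    linarith
  · have h4 := k 2 (by norm_num) 0 500 (by norm_num)
    exact one_div_le_one_div_of_le (by norm_num) (by linarith)

end Pool.Agent.P.MP_553766_co.Lg
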