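import Mathlib
import Pool.Agent.P.MP_553766_co.LSt1

set_option autoImplicit false
set_option linter.unusedSectionVars false

/-! One selection step, and the round of small steps. -/

namespace Pool.Agent.P.MP_553766_co.Lg

open Finset Pool.Agent.P.MP_553766_co

namespace LRound

variable {V : Type} [Fintype V] [DecidableEq V]

lemma sum_I_mem {α : Type} [DecidableEq α] (S A : Finset α) :
    ∑ h ∈ S, I (h ∈ A) = ((S.filter (fun h => h ∈ A)).card : ℝ) := by
  rw [Finset.card_filter]
  push_cast
  exact Finset.sum_congr rfl fun h _ => by rw [I_eq_ite]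

lemma not_disj_self {e : Finset V} (he : e.Nonempty) : ¬ Disjoint e e := by
  intro h
  obtain ⟨v, hv⟩ := he
  exact Finset.disjoint_left.1 h hv hv

lemma not_mem_of_avail {e : Finset V} (he : e.Nonempty) {s : Om V} (h : avail e s) :
    e ∉ s.1 := fun h1 => not_disj_self he (h e h1)

lemma mem_nbE {T : Finset (Finset V)} {e f : Finset V} :
    f ∈ nbE T e ↔ f ∈ T ∧ f ≠ e ∧ ¬ Disjoint e f := by
  unfold nbE; rw [Finset.mem_filter]

lemma nb_card {T : Finset (Finset V)} (e : Finset V) {s : Om V} (hs : s.1 ⊆ T) :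
    ∑ f ∈ nbE T e, I (f ∈ s.1) = ((nbE s.1 e).card : ℝ) := by
  rw [sum_I_mem]
  congr 2
  ext f
  rw [Finset.mem_filter, mem_nbE, mem_nbE]
  constructor
  · rintro ⟨⟨_, h2⟩, h3⟩; exact ⟨h3, h2⟩
  · rintro ⟨h1, h2⟩; exact ⟨⟨hs h1, h2⟩, h1⟩

lemma XX_nonneg (e : Finset V) (s : Om V) : 0 ≤ XX e s := Nat.cast_nonneg _

lemma avail_eq {T : Finset (Finset V)} {e : Finset V} (he : e.Nonempty) {s : Om V}
    (hs : IsM T s.1) :
    I (avail e s) = 1 - I (e ∈ s.1) - ∑ f ∈ nbE T e, I (f ∈ s.1) + XX e s := by
  rw [nb_card e hs.1]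
  unfold XX
  by_cases h : e ∈ s.1
  · have h1 : nbE s.1 e = ∅ := by
      refine Finset.eq_empty_of_forall_notMem fun f hf => ?_
      obtain ⟨h2, h3, h4⟩ := mem_nbE.1 hf
      exact h4 (hs.2 e h f h2 h3.symm)
    rw [h1, I_pos h, I_neg (fun h2 => not_mem_of_avail he h2 h)]
    simp
  · rw [I_neg h]
    rcases Nat.eq_zero_or_pos (nbE s.1 e).card with h1 | h1
    · have h2 : avail e s := by
        intro f hf
        by_contra h3
        have : f ∈ nbE s.1 e := mem_nbE.2 ⟨hf, fun h4 => h (h4 ▸ hf), h3⟩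
        rw [Finset.card_eq_zero.1 h1] at this
        exact absurd this (Finset.notMem_empty _)
      rw [I_pos h2, h1]; simp
    · obtain ⟨f, hf⟩ := Finset.card_pos.1 h1
      obtain ⟨h2, _, h4⟩ := mem_nbE.1 hf
      rw [I_neg (fun h5 => h4 (h5 f h2)), Nat.cast_sub h1]
      simp

lemma av_eq {T : Finset (Finset V)} {p : Om V → ℝ} {M c b G : Finset V → ℝ}
    (h : Inv T p M c b G) {e : Finset V} (he : e ∈ T) (hne : e.Nonempty) :
    Ex p (fun s => I (avail e s)) = 1 - M e - ∑ f ∈ nbE T e, M f + Ex p (XX e) := by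
  rw [Ex_congr (g := fun s => 1 - I (e ∈ s.1) - ∑ f ∈ nbE T e, I (f ∈ s.1) + XX e s)
    (fun s hs => avail_eq hne (h.supp s hs).1)]
  rw [Ex_add (fun s : Om V => 1 - I (e ∈ s.1) - ∑ f ∈ nbE T e, I (f ∈ s.1)) (XX e),
    Ex_sub (fun s : Om V => 1 - I (e ∈ s.1)) (fun s : Om V => ∑ f ∈ nbE T e, I (f ∈ s.1)),
    Ex_sub (fun _ => 1) (fun s : Om V => I (e ∈ s.1)), Ex_const h.prob, h.marg e he,
    Ex_sum (nbE T e) (fun f (s : Om V) => I (f ∈ s.1))]
  congr 2
  exact Finset.sum_congr rfl fun f hf => h.marg f (mem_nbE.1 hf).1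

lemma M_nonneg {T : Finset (Finset V)} {p : Om V → ℝ} {M c b G : Finset V → ℝ}
    (h : Inv T p M c b G) {e : Finset V} (he : e ∈ T) : 0 ≤ M e := by
  rw [← h.marg e he]; exact Ex_I_nonneg h.prob.nonneg _

lemma inv_mono {T : Finset (Finset V)} {p : Om V → ℝ} {M c b G M' c' b' G' : Finset V → ℝ}
    (h : Inv T p M c b G) (hM : ∀ e ∈ T, M e = M' e) (hc : ∀ e ∈ T, c e ≤ c' e)
    (hb : ∀ e ∈ T, b e ≤ b' e) (hG : ∀ e, G' e ≤ Ex p (XX e)) : Inv T p M' c' b' G' where
  prob := h.prob
  supp := h.supp
  marg := fun e he => (h.marg e he).trans (hM e he)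
  cnn := fun e he => (h.cnn e he).trans (hc e he)
  joint := fun J hJ => (h.joint J hJ).trans
    (Finset.prod_le_prod (fun e he => h.cnn e (hJ he)) (fun e he => hc e (hJ he)))
  bad := fun e he => (h.bad e he).trans (hb e he)
  gain := hG

lemma joint_step {p : Om V → ℝ} (hp : ∀ s, 0 ≤ p s) {e : Finset V} {r : ℝ} (h0 : 0 ≤ r)
    {g : Bool} (π : Om V → Finset (Finset V)) (hπ : ∀ s, π (addE e g s) = insert e (π s))
    {U : Finset (Finset V)} {c : Finset V → ℝ}
    (hj : ∀ J ⊆ U, Ex p (fun s => I (J ⊆ π s)) ≤ ∏ f ∈ J, c f) :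
    ∀ J ⊆ U, Ex (ostep p e r g) (fun s => I (J ⊆ π s)) ≤
      ∏ f ∈ J, (c f + if f = e then r else 0) := by
  intro J hJ
  rw [Ex_ostep]
  by_cases he : e ∈ J
  · have h1 : Ex p (fun s => I (avail e s) * (I (J ⊆ π (addE e g s)) - I (J ⊆ π s))) ≤
        Ex p (fun s => I (J.erase e ⊆ π s)) := by
      refine Ex_mono hp fun s _ => ?_
      rw [hπ, I_congr (Finset.subset_insert_iff (a := e) (s := J) (t := π s))]
      have a1 := I_nonneg (avail e s)
      have a2 := I_le_one (avail e s)
      have a3 := I_nonneg (J ⊆ π s)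
      have a4 := I_nonneg (J.erase e ⊆ π s)
      nlinarith [mul_nonneg a1 a3, mul_nonneg (sub_nonneg.2 a2) a4]
    have h2 := hj (J.erase e) ((Finset.erase_subset _ _).trans hJ)
    have h3 := hj J hJ
    have h4 : ∏ f ∈ J.erase e, (c f + if f = e then r else 0) = ∏ f ∈ J.erase e, c f :=
      Finset.prod_congr rfl fun f hf => by rw [if_neg (Finset.ne_of_mem_erase hf), add_zero]
    rw [← Finset.mul_prod_erase J _ he, h4, if_pos rfl]
    rw [← Finset.mul_prod_erase J _ he] at h3
    have h5 := mul_le_mul_of_nonneg_left (h1.trans h2) h0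
    linarith
  · have h1 : Ex p (fun s => I (avail e s) * (I (J ⊆ π (addE e g s)) - I (J ⊆ π s))) = 0 := by
      rw [← Ex_zero (p := p)]
      refine Ex_congr fun s _ => ?_
      rw [hπ, I_congr (Finset.subset_insert_iff_of_notMem he), sub_self, mul_zero]
    have h4 : ∏ f ∈ J, (c f + if f = e then r else 0) = ∏ f ∈ J, c f :=
      Finset.prod_congr rfl fun f hf => by
        rw [if_neg (fun h : f = e => he (h ▸ hf)), add_zero]
    rw [h1, h4, mul_zero, add_zero]
    exact hj J hJ

lemma XX_mono (e f : Finset V) (g : Bool) (s : Om V) : XX f s ≤ XX f (addE e g s) := by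
  unfold XX
  have : (nbE s.1 f).card ≤ (nbE (addE e g s).1 f).card := by
    refine Finset.card_le_card fun h hh => ?_
    obtain ⟨h1, h2⟩ := mem_nbE.1 hh
    exact mem_nbE.2 ⟨Finset.mem_insert_of_mem h1, h2⟩
  exact_mod_cast Nat.sub_le_sub_right this 1

lemma step {T : Finset (Finset V)} {p : Om V → ℝ} {M c b G : Finset V → ℝ}
    (h : Inv T p M c b G) {e : Finset V} (he : e ∈ T) (hne : e.Nonempty) {r : ℝ} (h0 : 0 ≤ r)
    (h1 : r ≤ 1) (g : Bool) :
    Inv T (ostep p e r g)
      (fun f => M f + if f = e then r * Ex p (fun s => I (avail e s)) else 0)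
      (fun f => c f + if f = e then (if g then r else 0) else 0)
      (fun f => b f + if f = e then (if g then 0 else r * Ex p (fun s => I (avail e s))) else 0)
      G where
  prob := ostep_prob h.prob e h0 h1 g
  supp := by
    intro s' hs'
    obtain ⟨s, hs, h2⟩ := ostep_supp hs'
    obtain ⟨h3, h4⟩ := h.supp s hs
    rcases h2 with rfl | ⟨h2, rfl⟩
    · exact ⟨h3, h4⟩
    · refine ⟨⟨Finset.insert_subset he h3.1, ?_⟩, ?_⟩
      · intro f hf f' hf' hne'
        rcases Finset.mem_insert.1 hf with a1 | a1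
        · rcases Finset.mem_insert.1 hf' with a2 | a2
          · exact absurd (a1.trans a2.symm) hne'
          · rw [a1]; exact h2 f' a2
        · rcases Finset.mem_insert.1 hf' with a2 | a2
          · rw [a2]; exact (h2 f a1).symm
          · exact h3.2 f a1 f' a2 hne'
      · cases g
        · exact h4.trans (Finset.subset_insert _ _)
        · exact Finset.insert_subset_insert _ h4
  marg := by
    intro f hf
    rw [Ex_ostep, h.marg f hf]
    by_cases hfe : f = e
    · subst hfe
      rw [if_pos rfl]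
      congr 2
      refine Ex_congr fun s _ => ?_
      by_cases ha : avail f s
      · have : f ∈ (addE f g s).1 := Finset.mem_insert_self _ _
        rw [I_pos this, I_neg (not_mem_of_avail hne ha)]; ring
      · rw [I_neg ha, zero_mul]
    · rw [if_neg hfe]
      have : Ex p (fun s => I (avail e s) * (I (f ∈ (addE e g s).1) - I (f ∈ s.1))) = 0 := by
        rw [← Ex_zero (p := p)]
        refine Ex_congr fun s _ => ?_
        have : f ∈ (addE e g s).1 ↔ f ∈ s.1 := by
          show f ∈ insert e s.1 ↔ _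
          rw [Finset.mem_insert]; tauto
        rw [I_congr this, sub_self, mul_zero]
      rw [this, mul_zero]
  cnn := by
    intro f hf
    have := h.cnn f hf
    split_ifs <;> linarith
  joint := by
    cases g
    · intro J hJ
      rw [Ex_ostep]
      have h2 : Ex p (fun s => I (avail e s) * (I (J ⊆ (addE e false s).2) - I (J ⊆ s.2))) = 0 := by
        rw [← Ex_zero (p := p)]
        refine Ex_congr fun s _ => ?_
        have : (addE e false s).2 = s.2 := rfl
        rw [this, sub_self, mul_zero]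
      rw [h2, mul_zero, add_zero]
      refine (h.joint J hJ).trans (le_of_eq (Finset.prod_congr rfl fun f _ => ?_))
      simp
    · have := joint_step h.prob.nonneg (e := e) h0 (g := true) (fun s => s.2) (fun s => rfl)
        h.joint
      simpa using this
  bad := by
    intro f hf
    rw [Ex_ostep]
    have hb := h.bad f hf
    by_cases hfe : f = e
    · subst hfe
      rw [if_pos rfl]
      cases g
      · have : Ex p (fun s => I (avail f s) * (I (f ∈ (addE f false s).1 ∧ f ∉ (addE f false s).2)
            - I (f ∈ s.1 ∧ f ∉ s.2))) ≤ Ex p (fun s => I (avail f s)) := by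
          refine Ex_mono h.prob.nonneg fun s _ => ?_
          have a1 := I_nonneg (avail f s)
          have a2 := I_le_one (f ∈ (addE f false s).1 ∧ f ∉ (addE f false s).2)
          have a3 := I_nonneg (f ∈ s.1 ∧ f ∉ s.2)
          nlinarith [mul_nonneg a1 a3, mul_nonneg a1 (sub_nonneg.2 a2)]
        have := mul_le_mul_of_nonneg_left this h0
        simp only [Bool.false_eq_true, if_false]
        linarith
      · have : Ex p (fun s => I (avail f s) * (I (f ∈ (addE f true s).1 ∧ f ∉ (addE f true s).2)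
            - I (f ∈ s.1 ∧ f ∉ s.2))) ≤ Ex p (fun _ => 0) := by
          refine Ex_mono h.prob.nonneg fun s _ => ?_
          have a1 := I_nonneg (avail f s)
          have a2 : f ∈ (addE f true s).2 := Finset.mem_insert_self _ _
          have a3 := I_nonneg (f ∈ s.1 ∧ f ∉ s.2)
          rw [I_neg (P := f ∈ (addE f true s).1 ∧ f ∉ (addE f true s).2) (fun h5 => h5.2 a2)]
          nlinarith [mul_nonneg a1 a3]
        rw [Ex_zero] at this
        have := mul_nonpos_of_nonneg_of_nonpos h0 this
        simp only [if_true]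
        linarith
    · rw [if_neg hfe]
      have : Ex p (fun s => I (avail e s) * (I (f ∈ (addE e g s).1 ∧ f ∉ (addE e g s).2)
            - I (f ∈ s.1 ∧ f ∉ s.2))) = 0 := by
        rw [← Ex_zero (p := p)]
        refine Ex_congr fun s _ => ?_
        have a1 : f ∈ (addE e g s).1 ↔ f ∈ s.1 := by
          show f ∈ insert e s.1 ↔ _
          rw [Finset.mem_insert]; tauto
        have a2 : f ∈ (addE e g s).2 ↔ f ∈ s.2 := by
          cases g
          · exact Iff.rfl
          · show f ∈ insert e s.2 ↔ _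
            rw [Finset.mem_insert]; tauto
        rw [a1, a2, sub_self, mul_zero]
      rw [this]; linarith
  gain := by
    intro f
    rw [Ex_ostep]
    have h2 : 0 ≤ Ex p (fun s => I (avail e s) * (XX f (addE e g s) - XX f s)) :=
      Ex_nonneg h.prob.nonneg fun s _ =>
        mul_nonneg (I_nonneg _) (sub_nonneg.2 (XX_mono e f g s))
    have h3 := h.gain f
    have := mul_nonneg h0 h2
    linarith

/-- the step for an edge that is not yet processed -/
lemma step_mass {T P : Finset (Finset V)} {p : Om V → ℝ} {M c b G m : Finset V → ℝ}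
    {g : Finset V → Bool} {a : Finset V → ℝ}
    (h : Inv T p (fun e => M e + if e ∈ P then m e else 0)
      (fun e => c e + if e ∈ P then (if g e then m e / a e else 0) else 0)
      (fun e => b e + if e ∈ P then (if g e then 0 else m e) else 0) G)
    {e : Finset V} (he : e ∈ T) (hP : e ∉ P) (hne : e.Nonempty) (hm : 0 ≤ m e) (ha : 0 < a e)
    (hma : m e ≤ a e) (hav : a e ≤ Ex p (fun s => I (avail e s))) :
    ∃ r : ℝ, m e ≤ r ∧ r ≤ m e / a e ∧ r ≤ 1 ∧
      Inv T (ostep p e r (g e)) (fun f => M f + if f ∈ insert e P then m f else 0)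
      (fun f => c f + if f ∈ insert e P then (if g f then m f / a f else 0) else 0)
      (fun f => b f + if f ∈ insert e P then (if g f then 0 else m f) else 0) G := by
  have hav0 : 0 < Ex p (fun s => I (avail e s)) := lt_of_lt_of_le ha hav
  have hav1 : Ex p (fun s => I (avail e s)) ≤ 1 := Ex_I_le_one h.prob _
  have r0 : 0 ≤ m e / Ex p (fun s => I (avail e s)) := div_nonneg hm hav0.le
  have r1 : m e / Ex p (fun s => I (avail e s)) ≤ m e / a e :=
    div_le_div_of_nonneg_left hm ha hav
  have r2 : m e / a e ≤ 1 := (div_le_one ha).2 hma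
  have r3 : m e / Ex p (fun s => I (avail e s)) * Ex p (fun s => I (avail e s)) = m e :=
    div_mul_cancel₀ _ hav0.ne'
  have hs := step h he hne r0 (r1.trans r2) (g e)
  refine ⟨m e / Ex p (fun s => I (avail e s)), ?_, r1, r1.trans r2, ?_⟩
  · rw [le_div_iff₀ hav0]; nlinarith
  · refine inv_mono hs (fun f _ => ?_) (fun f _ => ?_) (fun f _ => ?_) hs.gain
    · by_cases hf : f = e
      · subst hf; simp [hP, r3]
      · simp [hf]
    · by_cases hf : f = e
      · subst hf
        simp only [hP, if_false, if_true, Finset.mem_insert_self, add_zero]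
        split_ifs <;> linarith
      · simp [hf]
    · by_cases hf : f = e
      · subst hf; simp [hP, r3]
      · simp [hf]

lemma sum_le_mass {T P : Finset (Finset V)} {M m : Finset V → ℝ} (hm : ∀ e ∈ T, 0 ≤ m e)
    (e : Finset V) :
    ∑ f ∈ nbE T e, (M f + if f ∈ P then m f else 0) ≤ ∑ f ∈ nbE T e, (M f + m f) := by
  refine Finset.sum_le_sum fun f hf => ?_
  have := hm f (mem_nbE.1 hf).1
  split_ifs <;> linarith

end LRound

open LRound in
theorem round : StRound := by
  intro V _ _ T p M c b G m a g hne h hm ha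
  have key : ∀ P : Finset (Finset V), P ⊆ T.filter (fun e => m e ≠ 0) →
      ∃ p', Inv T p' (fun e => M e + if e ∈ P then m e else 0)
      (fun e => c e + if e ∈ P then (if g e then m e / a e else 0) else 0)
      (fun e => b e + if e ∈ P then (if g e then 0 else m e) else 0) G := by
    intro P
    induction P using Finset.induction_on with
    | empty => intro _; exact ⟨p, by simpa using h⟩
    | insert e P hP ih =>
      intro hs
      obtain ⟨p', h'⟩ := ih ((Finset.subset_insert _ _).trans hs)
      obtain ⟨he, hme⟩ := Finset.mem_filter.1 (hs (Finset.mem_insert_self _ _))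
      obtain ⟨a0, a1, a2⟩ := ha e he hme
      have hav : a e ≤ Ex p' (fun s => I (avail e s)) := by
        rw [av_eq h' he (hne e he)]
        have h1 := sum_le_mass (P := P) (M := M) hm e
        have h2 := h'.gain e
        simp only [hP, if_false, add_zero]
        linarith
      obtain ⟨r, _, _, _, h2⟩ := step_mass h' he hP (hne e he) (hm e he) a0 a1 hav
      exact ⟨_, h2⟩
  obtain ⟨p', h'⟩ := key _ (Finset.Subset.refl _)
  refine ⟨p', inv_mono h' (fun e he => ?_) (fun e he => ?_) (fun e he => ?_) h'.gain⟩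
  · by_cases h0 : m e = 0 <;> simp [he, h0]
  · by_cases h0 : m e = 0 <;> simp [he, h0]
  · by_cases h0 : m e = 0 <;> simp [he, h0]

end Pool.Agent.P.MP_553766_co.Lg
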