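import Mathlib
import Pool.Agent.P.MP_553766_co.LRoundA

set_option autoImplicit false
set_option linter.unusedSectionVars false

/-! The round of jumps and the pair gain. -/

namespace Pool.Agent.P.MP_553766_co.Lg

open Finset Pool.Agent.P.MP_553766_co

namespace LRound

variable {V : Type} [Fintype V] [DecidableEq V]

/-- processed edges are chosen, the others are available -/
def pt (P : Finset (Finset V)) (f : Finset V) (s : Om V) : Prop :=
  (f ∈ P → f ∈ s.1) ∧ (f ∉ P → avail f s)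

lemma ostep_ge {p : Om V → ℝ} (hp : ∀ s, 0 ≤ p s) {e : Finset V} {r : ℝ} {g : Bool}
    {φ ψ : Om V → ℝ} (h : ∀ s, ψ s ≤ φ s + r * (I (avail e s) * (φ (addE e g s) - φ s))) :
    Ex p ψ ≤ Ex (ostep p e r g) φ := by
  rw [Ex_ostep, ← Ex_const_mul, ← Ex_add]
  exact Ex_mono hp fun s _ => h s

lemma pt_add {P : Finset (Finset V)} {e f : Finset V} {g : Bool} {s : Om V} (h : pt P f s)
    (hd : Disjoint f e) : pt P f (addE e g s) := by
  refine ⟨fun h1 => Finset.mem_insert_of_mem (h.1 h1), fun h1 f' hf' => ?_⟩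
  rcases Finset.mem_insert.1 hf' with a | a
  · rw [a]; exact hd
  · exact h.2 h1 f' a

lemma pt_insert {P : Finset (Finset V)} {e f : Finset V} {s : Om V} (h : f ≠ e) :
    pt (insert e P) f s ↔ pt P f s := by
  unfold pt
  rw [Finset.mem_insert]
  tauto

lemma B_step {p : Om V → ℝ} (hp : IsProb p) {T P J : Finset (Finset V)} {e : Finset V}
    (he : e ∈ T) (hP : e ∉ P) {ρ : ℝ} (h0 : 0 ≤ ρ) (h1 : ρ ≤ 1) {g : Bool} {M r : Finset V → ℝ}
    (hM : ∀ f ∈ T, 0 ≤ M f) (hr : ∀ f, 0 ≤ r f) (hre : r e = 0) (hJ : PD J)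
    (hB : (∏ f ∈ J, if f ∈ P then r f else 1) * (1 - ∑ f ∈ J, ∑ h ∈ nbE T f, (M h + r h)) ≤
      Ex p (fun s => I (∀ f ∈ J, pt P f s))) :
    (∏ f ∈ J, if f ∈ insert e P then r f + (if f = e then ρ else 0) else 1) *
      (1 - ∑ f ∈ J, ∑ h ∈ nbE T f, (M h + (r h + if h = e then ρ else 0))) ≤
      Ex (ostep p e ρ g) (fun s => I (∀ f ∈ J, pt (insert e P) f s)) := by
  have w0 : 0 ≤ ∏ f ∈ J, if f ∈ P then r f else 1 :=
    Finset.prod_nonneg fun f _ => by
      have := hr f
      split_ifs <;> linarith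
  have b1 : 0 ≤ ∑ f ∈ J, ∑ h ∈ nbE T f, (M h + r h) :=
    Finset.sum_nonneg fun f _ => Finset.sum_nonneg fun h hh =>
      add_nonneg (hM h (mem_nbE.1 hh).1) (hr h)
  have b2 : ∑ f ∈ J, ∑ h ∈ nbE T f, (M h + (r h + if h = e then ρ else 0)) =
      ∑ f ∈ J, ∑ h ∈ nbE T f, (M h + r h) + ∑ f ∈ J, if e ∈ nbE T f then ρ else 0 := by
    rw [← Finset.sum_add_distrib]
    refine Finset.sum_congr rfl fun f _ => ?_
    rw [← Finset.sum_ite_eq' (nbE T f) e (fun _ => ρ), ← Finset.sum_add_distrib]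
    exact Finset.sum_congr rfl fun h _ => by ring
  have b3 : ∀ f ∈ J, 0 ≤ if e ∈ nbE T f then ρ else 0 := fun f _ => by
    split_ifs <;> linarith
  have b4 : 0 ≤ ∑ f ∈ J, if e ∈ nbE T f then ρ else 0 := Finset.sum_nonneg b3
  have hw : ∀ K : Finset (Finset V), e ∉ K →
      (∏ f ∈ K, if f ∈ insert e P then r f + (if f = e then ρ else 0) else 1) =
        ∏ f ∈ K, if f ∈ P then r f else 1 := by
    intro K hK
    refine Finset.prod_congr rfl fun f hf => ?_
    have : f ≠ e := fun h => hK (h ▸ hf)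
    simp [this]
  rw [b2]
  by_cases heJ : e ∈ J
  · have a1 : (∏ f ∈ J, if f ∈ insert e P then r f + (if f = e then ρ else 0) else 1) =
        ρ * ∏ f ∈ J, if f ∈ P then r f else 1 := by
      rw [← Finset.mul_prod_erase J _ heJ, hw _ (Finset.notMem_erase e J),
        ← Finset.mul_prod_erase J _ heJ]
      simp [hP, hre]
    have a2 : Ex p (fun s => ρ * I (∀ f ∈ J, pt P f s)) ≤
        Ex (ostep p e ρ g) (fun s => I (∀ f ∈ J, pt (insert e P) f s)) := by
      refine ostep_ge hp.nonneg fun s => ?_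
      have c1 := I_nonneg (∀ f ∈ J, pt (insert e P) f s)
      have c2 := I_nonneg (∀ f ∈ J, pt (insert e P) f (addE e g s))
      have c3 := I_nonneg (avail e s)
      have c4 := I_le_one (avail e s)
      by_cases hE : ∀ f ∈ J, pt P f s
      · have c5 : avail e s := (hE e heJ).2 hP
        have c6 : ∀ f ∈ J, pt (insert e P) f (addE e g s) := by
          intro f hf
          by_cases hfe : f = e
          · rw [hfe]
            exact ⟨fun _ => Finset.mem_insert_self _ _,
              fun h => absurd (Finset.mem_insert_self _ _) h⟩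
          · exact (pt_insert hfe).2 (pt_add (hE f hf) (hJ f hf e heJ hfe))
        rw [I_pos hE, I_pos c5, I_pos c6]
        nlinarith [mul_nonneg (sub_nonneg.2 h1) c1]
      · rw [I_neg hE]
        have c7 : 0 ≤ 1 - ρ * I (avail e s) := by nlinarith
        nlinarith [mul_nonneg c7 c1, mul_nonneg h0 (mul_nonneg c3 c2)]
    rw [Ex_const_mul] at a2
    rw [a1]
    have a3 := mul_le_mul_of_nonneg_left hB h0
    nlinarith [mul_nonneg (mul_nonneg h0 w0) b4]
  · have a0 : ∀ s : Om V, I (∀ f ∈ J, pt (insert e P) f s) = I (∀ f ∈ J, pt P f s) := fun s =>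
      I_congr (forall₂_congr fun f hf => pt_insert (fun h => heJ (h ▸ hf)))
    rw [hw J heJ]
    simp only [a0]
    by_cases hx : ∃ f ∈ J, e ∈ nbE T f
    · obtain ⟨f, hf, hef⟩ := hx
      have a1 : ρ ≤ ∑ f ∈ J, if e ∈ nbE T f then ρ else 0 := by
        have := Finset.single_le_sum b3 hf
        rwa [if_pos hef] at this
      have a2 : Ex p (fun s => (1 - ρ) * I (∀ f ∈ J, pt P f s)) ≤
          Ex (ostep p e ρ g) (fun s => I (∀ f ∈ J, pt P f s)) := by
        refine ostep_ge hp.nonneg fun s => ?_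
        have c1 := I_nonneg (∀ f ∈ J, pt P f s)
        have c2 := I_nonneg (∀ f ∈ J, pt P f (addE e g s))
        have c3 := I_nonneg (avail e s)
        have c4 := I_le_one (avail e s)
        nlinarith [mul_nonneg h0 (mul_nonneg c3 c2),
          mul_nonneg h0 (mul_nonneg (sub_nonneg.2 c4) c1)]
      rw [Ex_const_mul] at a2
      have a3 := mul_le_mul_of_nonneg_left hB (sub_nonneg.2 h1)
      nlinarith [mul_nonneg w0 (sub_nonneg.2 a1), mul_nonneg (mul_nonneg h0 w0) b1]
    · have a2 : Ex p (fun s => I (∀ f ∈ J, pt P f s)) ≤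
          Ex (ostep p e ρ g) (fun s => I (∀ f ∈ J, pt P f s)) := by
        refine ostep_ge hp.nonneg fun s => ?_
        have c1 : I (∀ f ∈ J, pt P f s) ≤ I (∀ f ∈ J, pt P f (addE e g s)) := by
          refine I_mono fun hE f hf => pt_add (hE f hf) ?_
          by_contra hd
          exact hx ⟨f, hf, mem_nbE.2 ⟨he, fun h => heJ (h ▸ hf), hd⟩⟩
        have := mul_nonneg h0 (mul_nonneg (I_nonneg (avail e s)) (sub_nonneg.2 c1))
        linarith
      nlinarith [mul_nonneg w0 b4]

lemma cubic (k : ℕ) :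
    (k : ℝ) * ((k : ℝ) - 1) * (1 / 2 - ((k : ℝ) - 2) / 6) ≤ ((k - 1 : ℕ) : ℝ) := by
  rcases k with _ | _ | _ | k
  · simp
  · simp
  · norm_num
  · have : (0 : ℝ) ≤ k := Nat.cast_nonneg k
    simp only [Nat.add_sub_cancel]
    push_cast
    nlinarith [mul_nonneg this this, mul_nonneg (mul_nonneg this this) this]

/-- the pointwise inclusion exclusion bound -/
lemma XX_ge {T F : Finset (Finset V)} {e : Finset V} (hne : ∀ f ∈ T, f.Nonempty)
    (hF : F ⊆ nbE T e) {s : Om V} (hs : IsM T s.1) :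
    ∑ f ∈ F, ∑ g ∈ F.filter (fun g => Disjoint f g), (I (f ∈ s.1 ∧ g ∈ s.1) / 2 -
      (∑ h ∈ (F.erase f).erase g, I (insert h {f, g} ⊆ s.1)) / 6) ≤ XX e s := by
  set N := F.filter (fun h => h ∈ s.1) with hN
  have a1 : ∀ f ∈ F, ∀ g ∈ F.filter (fun g => Disjoint f g), I (f ∈ s.1 ∧ g ∈ s.1) / 2 -
      (∑ h ∈ (F.erase f).erase g, I (insert h {f, g} ⊆ s.1)) / 6 =
      I (f ∈ s.1) * (1 / 2 - ((N.card : ℝ) - 2) / 6) * I (g ∈ s.1) := by
    intro f hf g hg
    obtain ⟨hg, hd⟩ := Finset.mem_filter.1 hg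
    have hfg : g ≠ f := fun h => not_disj_self (hne f (mem_nbE.1 (hF hf)).1) (by rwa [h] at hd)
    by_cases h1 : f ∈ s.1 ∧ g ∈ s.1
    · have c1 : ∀ h ∈ (F.erase f).erase g, I (insert h {f, g} ⊆ s.1) = I (h ∈ s.1) := by
        intro h _
        refine I_congr ?_
        simp [Finset.insert_subset_iff, h1.1, h1.2]
      have c2 : ((F.erase f).erase g).filter (fun h => h ∈ s.1) = (N.erase f).erase g := by
        ext h
        simp only [hN, Finset.mem_filter, Finset.mem_erase]
        tauto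
      have c3 : f ∈ N := Finset.mem_filter.2 ⟨hf, h1.1⟩
      have c4 : g ∈ N.erase f := Finset.mem_erase.2 ⟨hfg, Finset.mem_filter.2 ⟨hg, h1.2⟩⟩
      have c5 := Finset.card_erase_add_one c3
      have c6 := Finset.card_erase_add_one c4
      have c7 : ((((N.erase f).erase g).card : ℕ) : ℝ) = (N.card : ℝ) - 2 := by
        rw [← c5, ← c6]; push_cast; ring
      rw [Finset.sum_congr rfl c1, sum_I_mem, c2, c7, I_pos h1, I_pos h1.1, I_pos h1.2]
      ring
    · have c1 : ∀ h ∈ (F.erase f).erase g, I (insert h {f, g} ⊆ s.1) = 0 := by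
        intro h _
        refine I_neg fun h2 => h1 ⟨h2 (by simp), h2 (by simp)⟩
      rw [Finset.sum_eq_zero c1, mul_right_comm, ← I_and, I_neg h1]
      ring
  have a2 : ∀ f ∈ F, ∑ g ∈ F.filter (fun g => Disjoint f g), (I (f ∈ s.1 ∧ g ∈ s.1) / 2 -
      (∑ h ∈ (F.erase f).erase g, I (insert h {f, g} ⊆ s.1)) / 6) =
      I (f ∈ s.1) * (((N.card : ℝ) - 1) * (1 / 2 - ((N.card : ℝ) - 2) / 6)) := by
    intro f hf
    rw [Finset.sum_congr rfl (a1 f hf), ← Finset.mul_sum, sum_I_mem]
    by_cases h1 : f ∈ s.1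
    · have c2 : (F.filter (fun g => Disjoint f g)).filter (fun h => h ∈ s.1) = N.erase f := by
        ext h
        simp only [hN, Finset.mem_filter, Finset.mem_erase]
        constructor
        · rintro ⟨⟨d1, d2⟩, d3⟩
          exact ⟨fun h4 => not_disj_self (hne f (hs.1 h1)) (by rwa [h4] at d2), d1, d3⟩
        · rintro ⟨d1, d2, d3⟩
          exact ⟨⟨d2, hs.2 f h1 h d3 (Ne.symm d1)⟩, d3⟩
      have c3 : f ∈ N := Finset.mem_filter.2 ⟨hf, h1⟩
      have c5 := Finset.card_erase_add_one c3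
      have c7 : (((N.erase f).card : ℕ) : ℝ) = (N.card : ℝ) - 1 := by
        rw [← c5]; push_cast; ring
      rw [c2, c7]; ring
    · rw [I_neg h1]; ring
  rw [Finset.sum_congr rfl a2, ← Finset.sum_mul, sum_I_mem, ← hN, ← mul_assoc]
  refine (cubic N.card).trans ?_
  unfold XX
  have : N.card ≤ (nbE s.1 e).card := by
    refine Finset.card_le_card fun h hh => ?_
    obtain ⟨h1, h2⟩ := Finset.mem_filter.1 hh
    exact mem_nbE.2 ⟨h2, (mem_nbE.1 (hF h1)).2⟩
  exact_mod_cast Nat.sub_le_sub_right this 1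

/-- the gain from pair lower bounds and triple upper bounds -/
lemma gain_ge {T F : Finset (Finset V)} {e : Finset V} (hne : ∀ f ∈ T, f.Nonempty)
    (hF : F ⊆ nbE T e) {p : Om V → ℝ} (hp : ∀ s, 0 ≤ p s) (hs : ∀ s, p s ≠ 0 → IsM T s.1)
    {r : Finset V → ℝ} (hr : ∀ f, 0 ≤ r f)
    (hA : ∀ J ⊆ F, Ex p (fun s => I (J ⊆ s.1)) ≤ ∏ f ∈ J, r f)
    (hB : ∀ f ∈ F, ∀ g ∈ F, Disjoint f g →
      r f * r g * 0.7753 ≤ Ex p (fun s => I (f ∈ s.1 ∧ g ∈ s.1)))
    (hsum : ∑ f ∈ F, r f ≤ 1.1235) :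
    (1 / 5) * ∑ f ∈ F, ∑ g ∈ F.filter (fun g => Disjoint f g), r f * r g ≤ Ex p (XX e) := by
  refine le_trans ?_ (Ex_mono hp fun s h => XX_ge hne hF (hs s h))
  rw [Ex_sum, Finset.mul_sum]
  refine Finset.sum_le_sum fun f hf => ?_
  rw [Ex_sum, Finset.mul_sum]
  refine Finset.sum_le_sum fun g hg => ?_
  obtain ⟨hg, hd⟩ := Finset.mem_filter.1 hg
  have hfg : f ≠ g := fun h => not_disj_self (hne f (mem_nbE.1 (hF hf)).1) (by rwa [← h] at hd)
  rw [Ex_sub, Ex_div_const, Ex_div_const, Ex_sum]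
  have a1 : ∑ h ∈ (F.erase f).erase g, Ex p (fun s => I (insert h {f, g} ⊆ s.1)) ≤
      ∑ h ∈ (F.erase f).erase g, r h * (r f * r g) := by
    refine Finset.sum_le_sum fun h hh => ?_
    obtain ⟨h1, hh⟩ := Finset.mem_erase.1 hh
    obtain ⟨h2, hh⟩ := Finset.mem_erase.1 hh
    have := hA (insert h {f, g}) (by simp [Finset.insert_subset_iff, hf, hg, hh])
    rwa [Finset.prod_insert (by simp [h1, h2]), Finset.prod_pair hfg] at this
  have a2 : ∑ h ∈ (F.erase f).erase g, r h ≤ ∑ h ∈ F, r h :=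
    Finset.sum_le_sum_of_subset_of_nonneg ((Finset.erase_subset _ _).trans (Finset.erase_subset _ _))
      fun h _ _ => hr h
  rw [← Finset.sum_mul] at a1
  have a3 := hB f hf g hg hd
  have a4 := mul_nonneg (hr f) (hr g)
  have a5 := mul_le_mul_of_nonneg_right (a2.trans hsum) a4
  linarith

end LRound

open LRound in
theorem block : StBlock := by
  intro V _ _ T p M c b G m hne h hm ha
  have hM : ∀ f ∈ T, 0 ≤ M f := fun f hf => M_nonneg h hf
  set U := T.filter (fun e => m e ≠ 0) with hU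
  have key : ∀ P : Finset (Finset V), P ⊆ U →
      ∃ (p' : Om V → ℝ) (r : Finset V → ℝ), Inv T p' (fun e => M e + if e ∈ P then m e else 0)
      (fun e => c e + if e ∈ P then (if (fun _ => true) e then m e / (fun _ => 0.899) e else 0)
        else 0)
      (fun e => b e + if e ∈ P then (if (fun _ => true) e then 0 else m e) else 0) G ∧
      (∀ f, f ∉ P → r f = 0) ∧ (∀ f ∈ P, m f ≤ r f ∧ r f ≤ m f / 0.899) ∧
      (∀ J ⊆ U, Ex p' (fun s => I (J ⊆ s.1)) ≤ ∏ f ∈ J, r f) ∧
      ∀ J ⊆ U, PD J → (∏ f ∈ J, if f ∈ P then r f else 1) *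
        (1 - ∑ f ∈ J, ∑ h ∈ nbE T f, (M h + r h)) ≤ Ex p' (fun s => I (∀ f ∈ J, pt P f s)) := by
    intro P
    induction P using Finset.induction_on with
    | empty =>
      intro _
      refine ⟨p, fun _ => 0, by simpa using h, fun _ _ => rfl,
        fun f hf => absurd hf (Finset.notMem_empty _), fun J hJ => ?_, fun J hJ _ => ?_⟩
      · rcases J.eq_empty_or_nonempty with rfl | ⟨f, hf⟩
        · simpa using Ex_I_le_one h.prob _
        · obtain ⟨h1, h2⟩ := Finset.mem_filter.1 (hJ hf)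
          rw [Finset.prod_eq_zero hf rfl, ← (ha f h1 h2).1, ← h.marg f h1]
          exact Ex_mono h.prob.nonneg fun s _ => I_mono fun h3 => h3 hf
      · have a1 : Ex p (fun s => 1 - ∑ f ∈ J, (1 - I (avail f s))) ≤
            Ex p (fun s => I (∀ f ∈ J, pt ∅ f s)) := by
          refine Ex_mono h.prob.nonneg fun s _ => ?_
          by_cases hE : ∀ f ∈ J, pt ∅ f s
          · rw [I_pos hE]
            have : 0 ≤ ∑ f ∈ J, (1 - I (avail f s)) :=
              Finset.sum_nonneg fun f _ => sub_nonneg.2 (I_le_one _)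
            linarith
          · rw [I_neg hE]
            obtain ⟨f, hf⟩ := not_forall.1 hE
            obtain ⟨hf, h2⟩ := Classical.not_imp.1 hf
            have h3 : ¬ avail f s := fun h4 =>
              h2 ⟨fun h5 => absurd h5 (Finset.notMem_empty _), fun _ => h4⟩
            have := Finset.single_le_sum (f := fun f => 1 - I (avail f s))
              (fun f _ => sub_nonneg.2 (I_le_one _)) hf
            simp only [I_neg h3] at this
            linarith
        refine le_trans ?_ a1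
        rw [Ex_sub, Ex_const h.prob, Ex_sum]
        simp only [Finset.notMem_empty, if_false, Finset.prod_const_one, one_mul, add_zero]
        refine sub_le_sub_left (Finset.sum_le_sum fun f hf => ?_) 1
        obtain ⟨h1, h2⟩ := Finset.mem_filter.1 (hJ hf)
        rw [Ex_sub, Ex_const h.prob, av_eq h h1 (hne f h1), (ha f h1 h2).1]
        have := Ex_nonneg h.prob.nonneg (f := XX f) fun s _ => XX_nonneg f s
        linarith
    | insert e P hP ih =>
      intro hs
      obtain ⟨p', r, h', r0, r1, hA, hB⟩ := ih ((Finset.subset_insert _ _).trans hs)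
      obtain ⟨he, hme⟩ := Finset.mem_filter.1 (hs (Finset.mem_insert_self _ _))
      obtain ⟨a0, a1, a2⟩ := ha e he hme
      have hr : ∀ f, 0 ≤ r f := by
        intro f
        by_cases hf : f ∈ P
        · exact (hm f (Finset.mem_filter.1 (hs (Finset.mem_insert_of_mem hf))).1).trans
            (r1 f hf).1
        · exact (r0 f hf).ge
      have hav : (0.899 : ℝ) ≤ Ex p' (fun s => I (avail e s)) := by
        rw [av_eq h' he (hne e he)]
        have h1 := sum_le_mass (P := P) (M := M) hm e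
        have h2 := Ex_nonneg h'.prob.nonneg (f := XX e) fun s _ => XX_nonneg e s
        simp only [hP, if_false, add_zero]
        linarith
      obtain ⟨ρ, q1, q2, q3, h2⟩ := step_mass (a := fun _ => 0.899) (g := fun _ => true) h' he hP
        (hne e he) (hm e he) (by norm_num) a1 hav
      have q0 : 0 ≤ ρ := (hm e he).trans q1
      refine ⟨_, fun f => r f + if f = e then ρ else 0, h2, fun f hf => ?_, fun f hf => ?_,
        joint_step h'.prob.nonneg q0 (fun s => s.1) (fun s => rfl) hA, fun J hJ hd => ?_⟩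
      · rw [Finset.mem_insert, not_or] at hf
        simp [hf.1, r0 f hf.2]
      · by_cases hfe : f = e
        · subst hfe
          simp only [r0 f hP, if_true, zero_add]
          exact ⟨q1, q2⟩
        · simpa [hfe] using r1 f ((Finset.mem_insert.1 hf).resolve_left hfe)
      · exact B_step h'.prob he hP q0 q3 hM hr (r0 e hP) hd (hB J hJ hd)
  obtain ⟨p', r, h', r0, r1, hA, hB⟩ := key U (Finset.Subset.refl _)
  have hrT : ∀ f ∈ T, m f ≤ r f ∧ r f ≤ m f / 0.899 := by
    intro f hf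
    by_cases h0 : m f = 0
    · rw [r0 f (fun h1 => (Finset.mem_filter.1 h1).2 h0), h0]; norm_num
    · exact r1 f (Finset.mem_filter.2 ⟨hf, h0⟩)
  have hr : ∀ f, 0 ≤ r f := by
    intro f
    by_cases hf : f ∈ U
    · exact (hm f (Finset.mem_filter.1 hf).1).trans (r1 f hf).1
    · exact (r0 f hf).ge
  refine ⟨p', inv_mono h' (fun e he => ?_) (fun e he => ?_) (fun e he => ?_) fun e => ?_⟩
  · by_cases h0 : m e = 0 <;> simp [hU, he, h0]
  · by_cases h0 : m e = 0 <;> simp [hU, he, h0]
  · simp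
  refine max_le (h'.gain e) ?_
  unfold gainF
  split_ifs with hc
  swap
  · exact Ex_nonneg h'.prob.nonneg (f := XX e) fun s _ => XX_nonneg e s
  set F := (nbE T e).filter (fun f => m f ≠ 0) with hF
  have hFU : F ⊆ U := fun f hf =>
    Finset.mem_filter.2 ⟨(mem_nbE.1 (Finset.mem_filter.1 hf).1).1, (Finset.mem_filter.1 hf).2⟩
  have hbr : ∀ f ∈ U, ∑ h ∈ nbE T f, (M h + r h) ≤ 0.101 / 0.899 := by
    intro f hf
    obtain ⟨h1, h2⟩ := Finset.mem_filter.1 hf
    refine le_trans ?_ (div_le_div_of_nonneg_right (ha f h1 h2).2.2 (by norm_num))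
    rw [Finset.sum_div]
    refine Finset.sum_le_sum fun h hh => ?_
    have c1 := hM h (mem_nbE.1 hh).1
    have c2 := (hrT h (mem_nbE.1 hh).1).2
    rw [add_div]
    have : M h ≤ M h / 0.899 := by rw [le_div_iff₀ (by norm_num)]; linarith
    linarith
  refine le_trans ?_ (gain_ge (F := F) hne (Finset.filter_subset _ _) h'.prob.nonneg
    (fun s hs => (h'.supp s hs).1) hr (fun J hJ => hA J (hJ.trans hFU)) ?_ ?_)
  · refine mul_le_mul_of_nonneg_left ?_ (by norm_num)
    have a1 : ∑ f ∈ nbE T e, ∑ g ∈ (nbE T e).filter (fun g => Disjoint f g), m f * m g =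
        ∑ f ∈ F, ∑ g ∈ F.filter (fun g => Disjoint f g), m f * m g := by
      symm
      refine Finset.sum_subset_zero_on_sdiff (Finset.filter_subset _ _) (fun f hf => ?_)
        (fun f _ => ?_)
      · obtain ⟨h1, h2⟩ := Finset.mem_sdiff.1 hf
        have : m f = 0 := by
          by_contra h3
          exact h2 (Finset.mem_filter.2 ⟨h1, h3⟩)
        simp [this]
      · refine Finset.sum_subset (Finset.filter_subset_filter _ (Finset.filter_subset _ _))
          fun g h1 h2 => ?_
        obtain ⟨h1, h4⟩ := Finset.mem_filter.1 h1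
        have : m g = 0 := by
          by_contra h3
          exact h2 (Finset.mem_filter.2 ⟨Finset.mem_filter.2 ⟨h1, h3⟩, h4⟩)
        simp [this]
    rw [a1]
    refine Finset.sum_le_sum fun f hf => Finset.sum_le_sum fun g hg => ?_
    have hg' := hFU (Finset.mem_filter.1 hg).1
    exact mul_le_mul (r1 f (hFU hf)).1 (r1 g hg').1 (hm g (Finset.mem_filter.1 hg').1) (hr f)
  · intro f hf g hg hd
    have hfU := hFU hf
    have hgU := hFU hg
    have hfg : f ≠ g := fun h1 =>
      not_disj_self (hne f (Finset.mem_filter.1 hfU).1) (by rwa [← h1] at hd)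
    have hPD : PD {f, g} := by
      intro x hx y hy hxy
      rw [Finset.mem_insert, Finset.mem_singleton] at hx hy
      rcases hx with d1 | d1 <;> rcases hy with d2 | d2
      · exact absurd (d1.trans d2.symm) hxy
      · rw [d1, d2]; exact hd
      · rw [d1, d2]; exact hd.symm
      · exact absurd (d1.trans d2.symm) hxy
    have a1 := hB {f, g} (by simp [Finset.insert_subset_iff, hfU, hgU]) hPD
    rw [Finset.prod_pair hfg, Finset.sum_pair hfg, if_pos hfU, if_pos hgU] at a1
    have a2 : Ex p' (fun s => I (∀ x ∈ ({f, g} : Finset (Finset V)), pt U x s)) ≤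
        Ex p' (fun s => I (f ∈ s.1 ∧ g ∈ s.1)) :=
      Ex_mono h'.prob.nonneg fun s _ => I_mono fun h1 =>
        ⟨(h1 f (by simp)).1 hfU, (h1 g (by simp)).1 hgU⟩
    have a3 := hbr f hfU
    have a4 := hbr g hgU
    refine le_trans (mul_le_mul_of_nonneg_left ?_ (mul_nonneg (hr f) (hr g))) (a1.trans a2)
    have : (0.101 : ℝ) / 0.899 ≤ 0.11235 := by norm_num
    linarith
  · have a1 : ∑ f ∈ F, r f ≤ ∑ f ∈ nbE T e, m f / 0.899 :=
      le_trans (Finset.sum_le_sum_of_subset_of_nonneg (Finset.filter_subset _ _) fun f _ _ => hr f)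
        (Finset.sum_le_sum fun f hf => (hrT f (mem_nbE.1 hf).1).2)
    rw [← Finset.sum_div] at a1
    refine a1.trans ?_
    rw [div_le_iff₀ (by norm_num)]
    linarith

end Pool.Agent.P.MP_553766_co.Lg
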