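import Mathlib
import Pool.Agent.P.MP_553766_co.LSt1

set_option autoImplicit false

/-! Survival of a set of points and the joint upper bound in the chain of the low stage. -/

namespace Pool.Agent.P.MP_553766_co.Lg

open Finset Pool.Agent.P.MP_553766_co

namespace LSurv

variable {V : Type} [Fintype V] [DecidableEq V] {c : LowDat V}

/-- total rate of the overlaps with S -/
noncomputable def br (c : LowDat V) (S : Finset V) (m : ℕ) : ℝ :=
  ∑ f ∈ c.Lo, c.rate f m * (((f ∩ S).card - 1 : ℕ) : ℝ)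

/-- the rate at which a point of S dies -/
noncomputable def dr (c : LowDat V) (S : Finset V) (s : St V) (m : ℕ) : ℝ :=
  ∑ f ∈ c.Lo.filter (fun f => Disjoint f s.1), c.rate f m * I (¬ Disjoint f S) +
    ∑ v ∈ univ.filter (fun v => v ∉ s.1), max (1 - c.Lv s m v) 0 * I (v ∈ S)

lemma br_nonneg (h : c.Ok) (S : Finset V) (m : ℕ) : 0 ≤ br c S m :=
  Finset.sum_nonneg fun _ hf => mul_nonneg (LowDat.rate_nonneg h hf m) (Nat.cast_nonneg _)

lemma br_mono (h : c.Ok) {S S' : Finset V} (hs : S' ⊆ S) (m : ℕ) : br c S' m ≤ br c S m := by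
  refine Finset.sum_le_sum fun f hf => mul_le_mul_of_nonneg_left ?_ (LowDat.rate_nonneg h hf m)
  have : (f ∩ S').card ≤ (f ∩ S).card :=
    Finset.card_le_card (Finset.inter_subset_inter_left hs)
  exact_mod_cast Nat.sub_le_sub_right this 1

lemma sum_Lv (S : Finset V) (s : St V) (m : ℕ) :
    ∑ v ∈ S, c.Lv s m v =
      ∑ f ∈ c.Lo.filter (fun f => Disjoint f s.1), c.rate f m * ((f ∩ S).card : ℝ) := by
  have h1 : ∀ v, c.Lv s m v =
      ∑ f ∈ c.Lo.filter (fun f => Disjoint f s.1), c.rate f m * (if v ∈ f then 1 else 0) := by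
    intro v
    unfold LowDat.Lv
    rw [Finset.sum_filter, Finset.sum_filter]
    refine Finset.sum_congr rfl fun f _ => ?_
    by_cases h1 : v ∈ f <;> by_cases h2 : Disjoint f s.1 <;> simp [h1, h2]
  simp only [h1]
  rw [Finset.sum_comm]
  refine Finset.sum_congr rfl fun f _ => ?_
  rw [← Finset.mul_sum, Finset.sum_boole, Finset.filter_mem_eq_inter, Finset.inter_comm]

omit [Fintype V] in
lemma card_inter_eq (f S : Finset V) :
    ((f ∩ S).card : ℝ) = I (¬ Disjoint f S) + (((f ∩ S).card - 1 : ℕ) : ℝ) := by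
  by_cases h : Disjoint f S
  · rw [I_neg (not_not.2 h), Finset.disjoint_iff_inter_eq_empty.1 h]; simp
  · rw [I_pos h]
    have : 1 ≤ (f ∩ S).card :=
      Finset.card_pos.2 (Finset.not_disjoint_iff_nonempty_inter.1 h)
    rw [Nat.cast_sub this]; simp

lemma dr_ge (h : c.Ok) {S : Finset V} {s : St V} (hS : Disjoint S s.1) (m : ℕ) :
    (S.card : ℝ) - br c S m ≤ dr c S s m := by
  have h1 : ∑ v ∈ univ.filter (fun v => v ∉ s.1), max (1 - c.Lv s m v) 0 * I (v ∈ S) =
      ∑ v ∈ S, max (1 - c.Lv s m v) 0 := by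
    simp only [I_eq_ite, mul_ite, mul_one, mul_zero]
    rw [← Finset.sum_filter]
    refine Finset.sum_congr ?_ fun _ _ => rfl
    ext v
    simp only [Finset.mem_filter, Finset.mem_univ, true_and]
    exact ⟨fun hv => hv.2, fun hv => ⟨Finset.disjoint_left.1 hS hv, hv⟩⟩
  have h2 : ∑ v ∈ S, (1 - c.Lv s m v) ≤ ∑ v ∈ S, max (1 - c.Lv s m v) 0 :=
    Finset.sum_le_sum fun v _ => le_max_left _ _
  rw [Finset.sum_sub_distrib, sum_Lv] at h2
  simp only [card_inter_eq _ S, mul_add, Finset.sum_add_distrib] at h2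
  have h3 : ∑ f ∈ c.Lo.filter (fun f => Disjoint f s.1),
      c.rate f m * (((f ∩ S).card - 1 : ℕ) : ℝ) ≤ br c S m :=
    Finset.sum_le_sum_of_subset_of_nonneg (Finset.filter_subset _ _)
      fun f hf _ => mul_nonneg (LowDat.rate_nonneg h hf m) (Nat.cast_nonneg _)
  unfold dr
  rw [h1]
  simp only [Finset.sum_const, nsmul_eq_mul, mul_one] at h2
  linarith

lemma bern (h : c.Ok) (j : ℕ) : 1 - j * c.dt ≤ (1 - c.dt) ^ j := by
  have := one_add_mul_le_pow (a := -c.dt) (by linarith [h.dt1]) j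
  simpa [sub_eq_add_neg] using this

lemma one_sub_dr_le (h : c.Ok) {S S' : Finset V} {s : St V} (hS : Disjoint S' s.1) (hs : S' ⊆ S)
    {sb : ℕ} (h1 : S.card ≤ sb) (h2 : sb * c.dt ≤ 1 / 2) (m : ℕ) :
    1 - c.dt * dr c S' s m ≤ (1 + 2 * (c.dt * br c S m)) * (1 - c.dt) ^ S'.card := by
  have h3 := dr_ge h hS m
  have h4 := br_mono h hs m
  have h5 := bern h S'.card
  have h6 := br_nonneg h S m
  have h7 := h.dt0
  have h8 : (S'.card : ℝ) ≤ sb := by exact_mod_cast (Finset.card_le_card hs).trans h1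
  have h9 : (S'.card : ℝ) * c.dt ≤ 1 / 2 := le_trans (mul_le_mul_of_nonneg_right h8 h7.le) h2
  have h10 : 0 ≤ c.dt * br c S m := mul_nonneg h7.le h6
  have h11 : c.dt * ((S'.card : ℝ) - br c S m) ≤ c.dt * dr c S' s m :=
    mul_le_mul_of_nonneg_left (by linarith) h7.le
  have h12 : c.dt * br c S m * 1 ≤ c.dt * br c S m * (2 * (1 - c.dt) ^ S'.card) :=
    mul_le_mul_of_nonneg_left (by linarith) h10
  nlinarith

/-- a supermartingale bound -/
lemma Fw_le_prod (h : c.Ok) (Z : Finset V) (Φ : ℕ → St V → ℝ) (g : ℕ → ℝ) (hg : ∀ m, 0 ≤ g m)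
    (hK : ∀ m s, c.Kop m (Φ (m + 1)) s ≤ g m * Φ m s) (n : ℕ) :
    c.Fw Z n (Φ n) ≤ (∏ m ∈ range n, g m) * Φ 0 (Z, ∅) := by
  induction n with
  | zero => simp [LowDat.Fw]
  | succ n ih =>
    have h1 : c.Fw Z (n + 1) (Φ (n + 1)) ≤ c.Fw Z n (fun s => g n * Φ n s) :=
      LowDat.Fw_mono h Z n (hK n)
    rw [LowDat.Fw_smul] at h1
    rw [Finset.prod_range_succ]
    have := mul_le_mul_of_nonneg_left ih (hg n)
    linarith

omit [Fintype V] in
lemma sum_over_le {B : Finset (Finset V)} {D : ℕ} (h : Hyp B D) (S : Finset V) :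
    2 * ∑ f ∈ B, ((f ∩ S).card - 1) ≤ S.card ^ 2 := by
  have h1 : ∀ k : ℕ, 2 * (k - 1) ≤ k * k - k := by
    intro k
    rcases k with _ | _ | k
    · simp
    · simp
    · refine Nat.le_sub_of_add_le ?_
      have : k + 1 + 1 - 1 = k + 1 := by omega
      rw [this]; nlinarith
  have h2 : (B.biUnion fun f => (f ∩ S).offDiag).card = ∑ f ∈ B, (f ∩ S).offDiag.card := by
    refine Finset.card_biUnion fun e he f hf hef => ?_
    refine Finset.disjoint_left.2 fun p h3 h4 => hef ?_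
    rw [Finset.mem_offDiag] at h3 h4
    exact h.eq_of_two he hf h3.2.2 (Finset.mem_inter.1 h3.1).1 (Finset.mem_inter.1 h3.2.1).1
      (Finset.mem_inter.1 h4.1).1 (Finset.mem_inter.1 h4.2.1).1
  have h3 : (B.biUnion fun f => (f ∩ S).offDiag) ⊆ S ×ˢ S := by
    intro p hp
    obtain ⟨f, _, h4⟩ := Finset.mem_biUnion.1 hp
    rw [Finset.mem_offDiag] at h4
    exact Finset.mem_product.2 ⟨(Finset.mem_inter.1 h4.1).2, (Finset.mem_inter.1 h4.2.1).2⟩
  have h4 := Finset.card_le_card h3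
  rw [h2, Finset.card_product] at h4
  rw [Finset.mul_sum, sq]
  refine le_trans (Finset.sum_le_sum fun f _ => ?_) h4
  rw [Finset.offDiag_card]
  exact h1 _

omit [Fintype V] [DecidableEq V] in
lemma u0_nonneg : (0 : ℝ) ≤ u0 := by unfold u0; norm_num

lemma sum_rate_le (h : c.Ok) {f : Finset V} (hf : f ∈ c.Lo) (n : ℕ) :
    ∑ m ∈ range n, c.dt * c.rate f m ≤ 3 / 4 * (u0 * c.E0 / c.D) := by
  have h0 := h.dt0
  have hl := h.hyp.two_le_lam hf
  have hE := h.E1
  have hD : (0 : ℝ) < c.D := by exact_mod_cast h.Dpos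
  have h1 : ∑ m ∈ range n, c.dt * c.rate f m ≤ ∑ m ∈ range (c.nw f), c.dt * c.rate f m := by
    rw [← Finset.sum_filter_add_sum_filter_not (range n) (fun m => m < c.nw f)]
    have h2 : ∑ m ∈ (range n).filter (fun m => ¬ m < c.nw f), c.dt * c.rate f m = 0 := by
      refine Finset.sum_eq_zero fun m hm => ?_
      unfold LowDat.rate
      rw [if_neg (Finset.mem_filter.1 hm).2, mul_zero]
    rw [h2, add_zero]
    exact Finset.sum_le_sum_of_subset_of_nonneg
      (fun m hm => Finset.mem_range.2 (Finset.mem_filter.1 hm).2)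
      fun m _ _ => mul_nonneg h0.le (LowDat.rate_nonneg h hf m)
  have h2 := Finset.sum_le_card_nsmul (range (c.nw f)) (fun m => c.dt * c.rate f m)
    (c.dt * (3 / 4 * lam f / c.D * c.E0))
    fun m _ => mul_le_mul_of_nonneg_left (LowDat.rate_le h hf m) h0.le
  rw [Finset.card_range, nsmul_eq_mul] at h2
  have h3 : (c.nw f : ℝ) * (c.dt * (3 / 4 * lam f / c.D * c.E0)) =
      3 / 4 * ((lam f * c.nw f * c.dt) * c.E0 / c.D) := by ring
  have h4 : (lam f * c.nw f * c.dt) * c.E0 / c.D ≤ u0 * c.E0 / c.D :=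
    div_le_div_of_nonneg_right (mul_le_mul_of_nonneg_right (h.win f hf) (by linarith)) hD.le
  linarith

lemma prod_br_le (h : c.Ok) (S : Finset V) {sb : ℕ} (h1 : S.card ≤ sb) (n : ℕ) :
    ∏ m ∈ range n, (1 + 2 * (c.dt * br c S m)) ≤
      Real.exp ((sb : ℝ) ^ 2 * u0 * c.E0 / c.D) := by
  have h0 := h.dt0
  have hE := h.E1
  have hD : (0 : ℝ) < c.D := by exact_mod_cast h.Dpos
  have hu := u0_nonneg
  have h2 : ∏ m ∈ range n, (1 + 2 * (c.dt * br c S m)) ≤
      ∏ m ∈ range n, Real.exp (2 * (c.dt * br c S m)) := by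
    refine Finset.prod_le_prod (fun m _ => ?_) fun m _ => ?_
    · have := mul_nonneg h0.le (br_nonneg h S m); linarith
    · have := Real.add_one_le_exp (2 * (c.dt * br c S m)); linarith
  rw [← Real.exp_sum] at h2
  refine h2.trans (Real.exp_le_exp.2 ?_)
  have h3 : ∑ m ∈ range n, c.dt * br c S m =
      ∑ f ∈ c.Lo, (∑ m ∈ range n, c.dt * c.rate f m) * (((f ∩ S).card - 1 : ℕ) : ℝ) := by
    unfold br
    simp only [Finset.mul_sum, Finset.sum_mul]
    rw [Finset.sum_comm]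
    exact Finset.sum_congr rfl fun f _ => Finset.sum_congr rfl fun m _ => by ring
  have h4 : ∑ f ∈ c.Lo, (∑ m ∈ range n, c.dt * c.rate f m) * (((f ∩ S).card - 1 : ℕ) : ℝ) ≤
      ∑ f ∈ c.Lo, 3 / 4 * (u0 * c.E0 / c.D) * (((f ∩ S).card - 1 : ℕ) : ℝ) :=
    Finset.sum_le_sum fun f hf =>
      mul_le_mul_of_nonneg_right (sum_rate_le h hf n) (Nat.cast_nonneg _)
  rw [← Finset.mul_sum] at h4
  have h5 : 2 * ∑ f ∈ c.Lo, (((f ∩ S).card - 1 : ℕ) : ℝ) ≤ (sb : ℝ) ^ 2 := by
    have h6 := (sum_over_le h.hyp S).trans (Nat.pow_le_pow_left h1 2)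
    exact_mod_cast h6
  have h6 : 0 ≤ u0 * c.E0 / c.D := by positivity
  have h7 := mul_le_mul_of_nonneg_left h5 h6
  have h8 : (sb : ℝ) ^ 2 * u0 * c.E0 / c.D = u0 * c.E0 / c.D * (sb : ℝ) ^ 2 := by ring
  have h9 : 0 ≤ u0 * c.E0 / c.D * (sb : ℝ) ^ 2 := by positivity
  rw [← Finset.mul_sum, h3, h8]
  nlinarith

/-- one step for the survival of S -/
lemma Kop_alive (h : c.Ok) {S : Finset V} {sb : ℕ} (h1 : S.card ≤ sb) (h2 : sb * c.dt ≤ 1 / 2)
    (m : ℕ) (s : St V) :
    c.Kop m (fun s => I (Disjoint S s.1)) s ≤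
      ((1 + 2 * (c.dt * br c S m)) * (1 - c.dt) ^ S.card) * I (Disjoint S s.1) := by
  by_cases hS : Disjoint S s.1
  · have h3 : c.Kop m (fun s => I (Disjoint S s.1)) s = 1 - c.dt * dr c S s m := by
      unfold LowDat.Kop dr
      have e1 : ∀ f : Finset V, I (Disjoint S (s.1 ∪ f)) - I (Disjoint S s.1) =
          -I (¬ Disjoint f S) := by
        intro f
        rw [I_pos hS, I_not, I_congr (Q := Disjoint f S)]
        · ring
        · rw [Finset.disjoint_union_right, disjoint_comm (a := f)]; simp [hS]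
      have e2 : ∀ v : V, I (Disjoint S (insert v s.1)) - I (Disjoint S s.1) = -I (v ∈ S) := by
        intro v
        rw [I_pos hS, I_congr (Q := ¬ v ∈ S), I_not]
        · ring
        · rw [Finset.disjoint_insert_right]; simp [hS]
      simp only [e1, e2, mul_neg, Finset.sum_neg_distrib]
      rw [I_pos hS]; ring
    rw [h3, I_pos hS, mul_one]
    exact one_sub_dr_le h hS (Finset.Subset.refl _) h1 h2 m
  · have h3 : c.Kop m (fun s => I (Disjoint S s.1)) s = 0 := by
      unfold LowDat.Kop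
      have e1 : ∀ f : Finset V, I (Disjoint S (s.1 ∪ f)) = 0 := fun f =>
        I_neg fun h4 => hS (Finset.disjoint_union_right.1 h4).1
      have e2 : ∀ v : V, I (Disjoint S (insert v s.1)) = 0 := fun v =>
        I_neg fun h4 => hS (Finset.disjoint_insert_right.1 h4).2
      simp only [e1, e2, I_neg hS]
      simp
    rw [h3, I_neg hS, mul_zero]

lemma prod_add_ge {ι : Type} [DecidableEq ι] (J : Finset ι) (a b : ι → ℝ)
    (ha : ∀ i ∈ J, 0 ≤ a i) (hb : ∀ i ∈ J, 0 ≤ b i) :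
    ∏ i ∈ J, b i + ∑ i ∈ J, a i * ∏ j ∈ J.erase i, b j ≤ ∏ i ∈ J, (a i + b i) := by
  induction J using Finset.induction_on with
  | empty => simp
  | insert k J hk ih =>
    have ha' : ∀ i ∈ J, 0 ≤ a i := fun i hi => ha i (Finset.mem_insert_of_mem hi)
    have hb' : ∀ i ∈ J, 0 ≤ b i := fun i hi => hb i (Finset.mem_insert_of_mem hi)
    have hak := ha k (Finset.mem_insert_self _ _)
    have hbk := hb k (Finset.mem_insert_self _ _)
    have ih' := ih ha' hb'
    rw [Finset.prod_insert hk, Finset.prod_insert hk, Finset.sum_insert hk,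
      Finset.erase_insert hk]
    have h1 : ∑ i ∈ J, a i * ∏ j ∈ (insert k J).erase i, b j =
        b k * ∑ i ∈ J, a i * ∏ j ∈ J.erase i, b j := by
      rw [Finset.mul_sum]
      refine Finset.sum_congr rfl fun i hi => ?_
      have hik : k ≠ i := fun h => hk (h ▸ hi)
      rw [Finset.erase_insert_of_ne hik,
        Finset.prod_insert fun h => hk (Finset.mem_of_mem_erase h)]
      ring
    have h2 : 0 ≤ ∑ i ∈ J, a i * ∏ j ∈ J.erase i, b j :=
      Finset.sum_nonneg fun i hi => mul_nonneg (ha' i hi)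
        (Finset.prod_nonneg fun j hj => hb' j (Finset.mem_of_mem_erase hj))
    rw [h1]
    have h3 := mul_le_mul_of_nonneg_left ih' (add_nonneg hak hbk)
    have h4 := mul_nonneg hak h2
    nlinarith

/-- the comparison function -/
noncomputable def Ph (c : LowDat V) (J : Finset (Finset V)) (k : ℝ) (n : ℕ) (s : St V) : ℝ :=
  I (∀ e ∈ J \ s.2, Disjoint e s.1) * ∏ e ∈ J \ s.2, k * c.vp e n

omit [Fintype V] in
lemma card_bi {J : Finset (Finset V)} (hJ : PD J) : (J.biUnion id).card = ∑ e ∈ J, e.card :=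
  Finset.card_biUnion fun e he f hf hef => hJ e he f hf hef

omit [Fintype V] [DecidableEq V] in
lemma PD_mono {J J' : Finset (Finset V)} (hJ : PD J) (hs : J' ⊆ J) : PD J' :=
  fun e he f hf => hJ e (hs he) f (hs hf)

lemma Kop_Ph_le (h : c.Ok) {J : Finset (Finset V)} (hJ : J ⊆ c.Lo) {k : ℝ} (hk : 0 ≤ k)
    (m n : ℕ) {s : St V} (hs : ∀ e ∈ J \ s.2, Disjoint e s.1) :
    c.Kop m (Ph c J k n) s ≤
      (1 - c.dt * dr c ((J \ s.2).biUnion id) s m) * ∏ e ∈ J \ s.2, k * c.vp e n +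
        ∑ f ∈ J \ s.2, c.rate f m * c.dt * ∏ e ∈ (J \ s.2).erase f, k * c.vp e n := by
  set J' := J \ s.2 with hJ'
  set S' := J'.biUnion id with hS'
  set P := ∏ e ∈ J', k * c.vp e n with hP
  have hJ'L : J' ⊆ c.Lo := fun e he => hJ (Finset.mem_sdiff.1 he).1
  have hpos : ∀ T ⊆ J', 0 ≤ ∏ e ∈ T, k * c.vp e n := fun T hT =>
    Finset.prod_nonneg fun e he => mul_nonneg hk (LowDat.vp_nonneg h (hJ'L (hT he)) n)
  have hP0 : 0 ≤ P := hpos _ (Finset.Subset.refl _)
  have e0 : Ph c J k n s = P := by unfold Ph; rw [I_pos hs, one_mul]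
  have e1 : ∀ f ∈ c.Lo, Ph c J k n (s.1 ∪ f, insert f s.2) - Ph c J k n s ≤
      I (f ∈ J') * (∏ e ∈ J'.erase f, k * c.vp e n) - I (¬ Disjoint f S') * P := by
    intro f hf
    rw [e0]
    unfold Ph
    have e3 : J \ insert f s.2 = J'.erase f := by rw [Finset.sdiff_insert]
    simp only [e3]
    have e4 := hpos _ (Finset.erase_subset f J')
    by_cases hf' : f ∈ J'
    · have e5 : ¬ Disjoint f S' := by
        obtain ⟨v, hv⟩ : f.Nonempty := Finset.card_pos.1 (by have := h.hyp.big f hf; omega)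
        exact Finset.not_disjoint_iff.2 ⟨v, hv, Finset.mem_biUnion.2 ⟨f, hf', hv⟩⟩
      rw [I_pos hf', I_pos e5]
      have := mul_le_mul_of_nonneg_right
        (I_le_one (∀ e ∈ J'.erase f, Disjoint e (s.1 ∪ f))) e4
      linarith
    · rw [I_neg hf', Finset.erase_eq_of_notMem hf', ← hP]
      by_cases e5 : Disjoint f S'
      · rw [I_neg (not_not.2 e5)]
        have := mul_le_mul_of_nonneg_right (I_le_one (∀ e ∈ J', Disjoint e (s.1 ∪ f))) hP0
        linarith
      · rw [I_pos e5, I_neg]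
        · linarith
        · intro h5
          obtain ⟨v, hv, hv'⟩ := Finset.not_disjoint_iff.1 e5
          obtain ⟨e, he, hve⟩ := Finset.mem_biUnion.1 hv'
          exact Finset.disjoint_left.1 (h5 e he) hve (Finset.mem_union_right _ hv)
  have e2 : ∀ v : V, Ph c J k n (insert v s.1, s.2) - Ph c J k n s ≤ -(I (v ∈ S') * P) := by
    intro v
    rw [e0]
    unfold Ph
    simp only [← hJ', ← hP]
    by_cases e5 : v ∈ S'
    · rw [I_pos e5, I_neg]
      · linarith
      · intro h5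
        obtain ⟨e, he, hve⟩ := Finset.mem_biUnion.1 e5
        exact Finset.disjoint_left.1 (h5 e he) hve (Finset.mem_insert_self _ _)
    · rw [I_neg e5]
      have := mul_le_mul_of_nonneg_right (I_le_one (∀ e ∈ J', Disjoint e (insert v s.1))) hP0
      linarith
  have s1 : ∑ f ∈ c.Lo.filter (fun f => Disjoint f s.1),
      c.rate f m * (Ph c J k n (s.1 ∪ f, insert f s.2) - Ph c J k n s) ≤
      ∑ f ∈ c.Lo.filter (fun f => Disjoint f s.1), c.rate f m *
        (I (f ∈ J') * (∏ e ∈ J'.erase f, k * c.vp e n) - I (¬ Disjoint f S') * P) :=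
    Finset.sum_le_sum fun f hf => mul_le_mul_of_nonneg_left (e1 f (Finset.mem_filter.1 hf).1)
      (LowDat.rate_nonneg h (Finset.mem_filter.1 hf).1 m)
  have s2 : ∑ v ∈ univ.filter (fun v => v ∉ s.1), max (1 - c.Lv s m v) 0 *
      (Ph c J k n (insert v s.1, s.2) - Ph c J k n s) ≤
      ∑ v ∈ univ.filter (fun v => v ∉ s.1), max (1 - c.Lv s m v) 0 * -(I (v ∈ S') * P) :=
    Finset.sum_le_sum fun v _ => mul_le_mul_of_nonneg_left (e2 v) (le_max_right _ _)
  have s3 : ∑ f ∈ c.Lo.filter (fun f => Disjoint f s.1),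
      c.rate f m * (I (f ∈ J') * ∏ e ∈ J'.erase f, k * c.vp e n) =
      ∑ f ∈ J', c.rate f m * ∏ e ∈ J'.erase f, k * c.vp e n := by
    simp only [I_eq_ite, ite_mul, one_mul, zero_mul, mul_ite, mul_zero]
    rw [← Finset.sum_filter]
    refine Finset.sum_congr ?_ fun _ _ => rfl
    ext f
    simp only [Finset.mem_filter]
    exact ⟨fun hf => hf.2, fun hf => ⟨⟨hJ'L hf, hs f hf⟩, hf⟩⟩
  have s4 : ∀ r x y : ℝ, r * (x - y * P) = r * x - r * y * P := by intros; ring
  have s5 : ∀ r y : ℝ, r * -(y * P) = -(r * y * P) := by intros; ring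
  simp only [s4, Finset.sum_sub_distrib, s3, ← Finset.sum_mul] at s1
  simp only [s5, Finset.sum_neg_distrib, ← Finset.sum_mul] at s2
  have s6 : ∑ f ∈ J', c.rate f m * c.dt * ∏ e ∈ J'.erase f, k * c.vp e n =
      c.dt * ∑ f ∈ J', c.rate f m * ∏ e ∈ J'.erase f, k * c.vp e n := by
    rw [Finset.mul_sum]; exact Finset.sum_congr rfl fun f _ => by ring
  have s7 := mul_le_mul_of_nonneg_left (add_le_add s1 s2) h.dt0.le
  rw [s6]
  unfold LowDat.Kop dr
  rw [e0] at s7 ⊢
  linarith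

lemma Kop_Ph (h : c.Ok) {J : Finset (Finset V)} (hJ : J ⊆ c.Lo) (hP : PD J) {sb : ℕ}
    (h1 : (J.biUnion id).card ≤ sb) (h2 : sb * c.dt ≤ 1 / 2) (m : ℕ) (s : St V) :
    c.Kop m (Ph c J (1 + 2 * sb * c.dt) (m + 1)) s ≤
      (1 + 2 * (c.dt * br c (J.biUnion id) m)) * Ph c J (1 + 2 * sb * c.dt) m s := by
  have h0 := h.dt0
  have h01 := h.dt1
  set k : ℝ := 1 + 2 * sb * c.dt with hk
  have hy : 0 ≤ (sb : ℝ) * c.dt := by positivity
  have hk0 : 0 ≤ k := by rw [hk]; linarith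
  by_cases hs : ∀ e ∈ J \ s.2, Disjoint e s.1
  · refine (Kop_Ph_le h hJ hk0 m (m + 1) hs).trans ?_
    have e0 : Ph c J k m s = ∏ e ∈ J \ s.2, k * c.vp e m := by
      unfold Ph; rw [I_pos hs, one_mul]
    rw [e0]
    set J' := J \ s.2 with hJ'
    have hJJ : J' ⊆ J := Finset.sdiff_subset
    have hJ'L : J' ⊆ c.Lo := hJJ.trans hJ
    have hq : 0 ≤ 1 - c.dt := by linarith
    have hpos : ∀ T ⊆ J', 0 ≤ ∏ e ∈ T, k * c.vp e (m + 1) := fun T hT =>
      Finset.prod_nonneg fun e he => mul_nonneg hk0 (LowDat.vp_nonneg h (hJ'L (hT he)) _)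
    have hS : Disjoint (J'.biUnion id) s.1 := by
      rw [Finset.disjoint_biUnion_left]; exact hs
    have a1 := one_sub_dr_le h hS (Finset.biUnion_subset_biUnion_of_subset_left id hJJ) h1 h2 m
    have a2 := prod_add_ge J' (fun e => k * (c.rate e m * c.dt))
      (fun e => (1 - c.dt) ^ e.card * (k * c.vp e (m + 1)))
      (fun e he => mul_nonneg hk0 (mul_nonneg (LowDat.rate_nonneg h (hJ'L he) m) h0.le))
      (fun e he => mul_nonneg (pow_nonneg hq _)
        (mul_nonneg hk0 (LowDat.vp_nonneg h (hJ'L he) _)))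
    have a3 : ∏ e ∈ J', (k * (c.rate e m * c.dt) + (1 - c.dt) ^ e.card * (k * c.vp e (m + 1))) =
        ∏ e ∈ J', k * c.vp e m :=
      Finset.prod_congr rfl fun e he => by rw [LowDat.vp_succ h (hJ'L he) m]; ring
    have a4 : ∀ T ⊆ J', ∏ e ∈ T, (1 - c.dt) ^ e.card * (k * c.vp e (m + 1)) =
        (1 - c.dt) ^ (T.biUnion id).card * ∏ e ∈ T, k * c.vp e (m + 1) := by
      intro T hT
      rw [Finset.prod_mul_distrib, Finset.prod_pow_eq_pow_sum,
        card_bi (PD_mono hP (hT.trans hJJ))]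
    have a5 : ∑ f ∈ J', c.rate f m * c.dt * ∏ e ∈ J'.erase f, k * c.vp e (m + 1) ≤
        ∑ f ∈ J', k * (c.rate f m * c.dt) *
          ∏ e ∈ J'.erase f, (1 - c.dt) ^ e.card * (k * c.vp e (m + 1)) := by
      refine Finset.sum_le_sum fun f hf => ?_
      rw [a4 _ (Finset.erase_subset f J')]
      have b1 : (((J'.erase f).biUnion id).card : ℝ) ≤ sb := by
        exact_mod_cast (Finset.card_le_card (Finset.biUnion_subset_biUnion_of_subset_left id
          ((Finset.erase_subset f J').trans hJJ))).trans h1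
      have b2 := bern h ((J'.erase f).biUnion id).card
      have b3 := mul_le_mul_of_nonneg_right b1 h0.le
      have b4 : 1 ≤ k * (1 - c.dt) ^ ((J'.erase f).biUnion id).card := by
        have b5 : k * (1 - sb * c.dt) ≤ k * (1 - c.dt) ^ ((J'.erase f).biUnion id).card :=
          mul_le_mul_of_nonneg_left (by linarith) hk0
        have b6 : 1 ≤ k * (1 - sb * c.dt) := by
          have : 0 ≤ (sb * c.dt) * (1 - 2 * (sb * c.dt)) := mul_nonneg hy (by linarith)
          rw [hk]; nlinarith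
        linarith
      have b7 : 0 ≤ c.rate f m * c.dt * ∏ e ∈ J'.erase f, k * c.vp e (m + 1) :=
        mul_nonneg (mul_nonneg (LowDat.rate_nonneg h (hJ'L hf) m) h0.le)
          (hpos _ (Finset.erase_subset f J'))
      have b8 := mul_le_mul_of_nonneg_left b4 b7
      linarith
    have a6 : 0 ≤ ∑ f ∈ J', c.rate f m * c.dt * ∏ e ∈ J'.erase f, k * c.vp e (m + 1) :=
      Finset.sum_nonneg fun f hf =>
        mul_nonneg (mul_nonneg (LowDat.rate_nonneg h (hJ'L hf) m) h0.le)
          (hpos _ (Finset.erase_subset f J'))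
    rw [a3, a4 _ (Finset.Subset.refl _)] at a2
    have a7 := mul_le_mul_of_nonneg_right a1 (hpos _ (Finset.Subset.refl _))
    have a8 : 0 ≤ c.dt * br c (J.biUnion id) m := mul_nonneg h0.le (br_nonneg h _ m)
    have a9 := mul_le_mul_of_nonneg_left ((add_le_add_right a5 _).trans a2)
      (show 0 ≤ 1 + 2 * (c.dt * br c (J.biUnion id) m) by linarith)
    have a10 := mul_nonneg a8 a6
    nlinarith
  · have e0 : ∀ n, Ph c J k n s = 0 := fun n => by unfold Ph; rw [I_neg hs, zero_mul]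
    have h3 : c.Kop m (Ph c J k (m + 1)) s = 0 := by
      unfold LowDat.Kop
      have e1 : ∀ f ∈ c.Lo.filter (fun f => Disjoint f s.1),
          c.rate f m * (Ph c J k (m + 1) (s.1 ∪ f, insert f s.2) - Ph c J k (m + 1) s) = 0 := by
        intro f hf
        rw [e0]
        unfold Ph
        rw [I_neg]
        · simp
        · intro h4
          refine hs fun e he => ?_
          by_cases hef : e = f
          · rw [hef]; exact (Finset.mem_filter.1 hf).2
          · refine (Finset.disjoint_union_right.1 (h4 e ?_)).1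
            rw [Finset.mem_sdiff] at he ⊢
            exact ⟨he.1, fun h5 => (Finset.mem_insert.1 h5).elim hef he.2⟩
      have e2 : ∀ v ∈ univ.filter (fun v => v ∉ s.1), max (1 - c.Lv s m v) 0 *
          (Ph c J k (m + 1) (insert v s.1, s.2) - Ph c J k (m + 1) s) = 0 := by
        intro v _
        rw [e0]
        unfold Ph
        rw [I_neg]
        · simp
        · intro h4
          exact hs fun e he => (Finset.disjoint_insert_right.1 (h4 e he)).2
      rw [Finset.sum_eq_zero e1, Finset.sum_eq_zero e2, e0]; simp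
    rw [h3, e0, mul_zero]

end LSurv

open LSurv

theorem surv : StSurv := by
  intro V _ _ c h Z S n sb h1 h2
  have hq : 0 ≤ 1 - c.dt := by linarith [h.dt1]
  have h3 := Fw_le_prod h Z (fun _ s => I (Disjoint S s.1))
    (fun m => (1 + 2 * (c.dt * br c S m)) * (1 - c.dt) ^ S.card)
    (fun m => mul_nonneg (by linarith [mul_nonneg h.dt0.le (br_nonneg h S m)]) (pow_nonneg hq _))
    (fun m s => Kop_alive h h1 h2 m s) n
  rw [Finset.prod_mul_distrib, Finset.prod_const, Finset.card_range, ← pow_mul] at h3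
  refine h3.trans ?_
  have h4 := prod_br_le h S h1 n
  have h5 : 0 ≤ (1 - c.dt) ^ (S.card * n) := pow_nonneg hq _
  have h6 := mul_le_mul_of_nonneg_right h4 h5
  have h7 : 0 ≤ (∏ m ∈ range n, (1 + 2 * (c.dt * br c S m))) * (1 - c.dt) ^ (S.card * n) :=
    mul_nonneg (Finset.prod_nonneg fun m _ => by
      linarith [mul_nonneg h.dt0.le (br_nonneg h S m)]) h5
  have h8 := mul_le_mul_of_nonneg_left (I_le_one (Disjoint S (Z, (∅ : Finset (Finset V))).1)) h7
  linarith

theorem lowUp : StLowUp := by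
  intro V _ _ c h Z J sb hJ hP h1 h2
  have h0 := h.dt0
  have hk0 : (0 : ℝ) ≤ 1 + 2 * sb * c.dt := by positivity
  have h3 := Fw_le_prod h Z (Ph c J (1 + 2 * sb * c.dt))
    (fun m => 1 + 2 * (c.dt * br c (J.biUnion id) m))
    (fun m => by linarith [mul_nonneg h.dt0.le (br_nonneg h (J.biUnion id) m)])
    (fun m s => Kop_Ph h hJ hP h1 h2 m s) c.nmax
  have h4 : c.Fw Z c.nmax (fun s => I (J ⊆ s.2)) ≤
      c.Fw Z c.nmax (Ph c J (1 + 2 * sb * c.dt) c.nmax) := by
    refine LowDat.Fw_mono h Z _ fun s => ?_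
    unfold Ph
    by_cases h5 : J ⊆ s.2
    · rw [I_pos h5, Finset.sdiff_eq_empty_iff_subset.2 h5, I_pos (by simp)]; simp
    · rw [I_neg h5]
      exact mul_nonneg (I_nonneg _) (Finset.prod_nonneg fun e he =>
        mul_nonneg hk0 (LowDat.vp_nonneg h (hJ (Finset.mem_sdiff.1 he).1) _))
  have h5 : 0 ≤ (1 + 2 * sb * c.dt) ^ J.card * ∏ e ∈ J, c.vp e 0 :=
    mul_nonneg (pow_nonneg hk0 _) (Finset.prod_nonneg fun e he => LowDat.vp_nonneg h (hJ he) _)
  have h6 : Ph c J (1 + 2 * sb * c.dt) 0 (Z, ∅) ≤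
      (1 + 2 * sb * c.dt) ^ J.card * ∏ e ∈ J, c.vp e 0 := by
    unfold Ph
    simp only [Finset.sdiff_empty]
    rw [Finset.prod_mul_distrib, Finset.prod_const]
    have := mul_le_mul_of_nonneg_right (I_le_one (∀ e ∈ J, Disjoint e Z)) h5
    linarith
  have h7 := prod_br_le h (J.biUnion id) h1 c.nmax
  have h8 : 0 ≤ ∏ m ∈ range c.nmax, (1 + 2 * (c.dt * br c (J.biUnion id) m)) :=
    Finset.prod_nonneg fun m _ => by
      linarith [mul_nonneg h.dt0.le (br_nonneg h (J.biUnion id) m)]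
  have h9 := mul_le_mul_of_nonneg_left h6 h8
  have h10 := mul_le_mul_of_nonneg_right h7 h5
  rw [mul_assoc]
  linarith

end Pool.Agent.P.MP_553766_co.Lg
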