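import Mathlib
import Pool.Agent.P.MP_553766_co.LSt1

set_option autoImplicit false

/-! Tail bound and numerical inequalities. -/

namespace Pool.Agent.P.MP_553766_co.Lg

open Finset Pool.Agent.P.MP_553766_co

namespace LTail

/-- sum over ordered tuples of distinct elements -/
noncomputable def S {ι : Type} [DecidableEq ι] (w : ι → ℝ) : ℕ → Finset ι → ℝ
  | 0, _ => 1
  | j + 1, F => ∑ i ∈ F, w i * S w j (F.erase i)

lemma S_ge {ι : Type} [DecidableEq ι] (w : ι → ℝ) {wb : ℝ} (hwb : 0 ≤ wb) (j : ℕ) :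
    ∀ (G : Finset ι) (T : ℝ), (∀ i ∈ G, 0 ≤ w i ∧ w i ≤ wb) → j * wb ≤ T → T ≤ ∑ i ∈ G, w i →
      (T - j * wb) ^ j ≤ S w j G := by
  induction j with
  | zero => intro G T _ _ _; simp [S]
  | succ j ih =>
    intro G T hG h1 h2
    push_cast at h1 ⊢
    have hj : 0 ≤ (j : ℝ) * wb := mul_nonneg (Nat.cast_nonneg j) hwb
    have h3 : 0 ≤ T - (j + 1) * wb := by linarith
    have h4 : ∀ i ∈ G, w i * (T - (j + 1) * wb) ^ j ≤ w i * S w j (G.erase i) := by
      intro i hi
      refine mul_le_mul_of_nonneg_left ?_ (hG i hi).1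
      have := ih (G.erase i) (T - wb) (fun k hk => hG k (mem_of_mem_erase hk)) (by linarith)
        (by rw [sum_erase_eq_sub hi]; linarith [(hG i hi).2])
      have e : T - wb - j * wb = T - (j + 1) * wb := by ring
      rwa [e] at this
    calc (T - (j + 1) * wb) ^ (j + 1) = (T - (j + 1) * wb) * (T - (j + 1) * wb) ^ j := by ring
      _ ≤ (∑ i ∈ G, w i) * (T - (j + 1) * wb) ^ j :=
          mul_le_mul_of_nonneg_right (by linarith) (pow_nonneg h3 j)
      _ = ∑ i ∈ G, w i * (T - (j + 1) * wb) ^ j := sum_mul _ _ _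
      _ ≤ _ := sum_le_sum h4

lemma S_nonneg {ι : Type} [DecidableEq ι] (w : ι → ℝ) (j : ℕ) :
    ∀ G : Finset ι, (∀ i ∈ G, 0 ≤ w i) → 0 ≤ S w j G := by
  induction j with
  | zero => intro G _; simp [S]
  | succ j ih =>
    intro G hG
    exact sum_nonneg fun i hi =>
      mul_nonneg (hG i hi) (ih _ fun k hk => hG k (mem_of_mem_erase hk))

lemma S_ex {Ω ι : Type} [Fintype Ω] [DecidableEq ι] (p : Ω → ℝ) (R : Ω → Finset ι)
    (F : Finset ι) (b w : ι → ℝ) (c M : ℝ) (j : ℕ)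
    (hb : ∀ i ∈ F, 0 ≤ b i ∧ 0 ≤ w i) (hc : 0 ≤ c)
    (hJ : ∀ J ⊆ F, J.card ≤ j → Ex p (fun ω => I (J ⊆ R ω)) ≤ c * ∏ i ∈ J, b i)
    (hM : ∑ i ∈ F, b i * w i ≤ M) (k : ℕ) :
    ∀ J0 F' : Finset ι, J0 ⊆ F → F' ⊆ F → Disjoint J0 F' → J0.card + k ≤ j →
      Ex p (fun ω => I (J0 ⊆ R ω) * S w k (F'.filter (fun i => i ∈ R ω))) ≤
        c * (∏ i ∈ J0, b i) * M ^ k := by
  have hM0 : 0 ≤ M := (sum_nonneg fun i hi => mul_nonneg (hb i hi).1 (hb i hi).2).trans hM
  induction k with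
  | zero =>
    intro J0 F' h1 _ _ h4
    simpa [S] using hJ J0 h1 (by omega)
  | succ k ih =>
    intro J0 F' h1 h2 h3 h4
    have e : ∀ ω, I (J0 ⊆ R ω) * S w (k + 1) (F'.filter (fun i => i ∈ R ω)) =
        ∑ i ∈ F', w i * (I (insert i J0 ⊆ R ω) *
          S w k ((F'.erase i).filter (fun i => i ∈ R ω))) := by
      intro ω
      rw [S, sum_filter, mul_sum]
      refine sum_congr rfl fun i _ => ?_
      rw [filter_erase, I_congr (insert_subset_iff (a := i) (s := J0) (t := R ω)), I_and]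
      by_cases hi : i ∈ R ω
      · rw [if_pos hi, I_pos hi]; ring
      · rw [if_neg hi, I_neg hi]; ring
    simp only [e]
    rw [Ex_sum]
    have hP : 0 ≤ c * (∏ i ∈ J0, b i) * M ^ k :=
      mul_nonneg (mul_nonneg hc (prod_nonneg fun i hi => (hb i (h1 hi)).1)) (pow_nonneg hM0 k)
    have h5 : ∀ i ∈ F', Ex p (fun ω => w i * (I (insert i J0 ⊆ R ω) *
          S w k ((F'.erase i).filter (fun i => i ∈ R ω)))) ≤
        (c * (∏ i ∈ J0, b i) * M ^ k) * (b i * w i) := by
      intro i hi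
      have hi0 : i ∉ J0 := fun h => disjoint_left.1 h3 h hi
      rw [Ex_const_mul]
      have := ih (insert i J0) (F'.erase i) (insert_subset (h2 hi) h1)
        ((erase_subset _ _).trans h2)
        (by
          rw [disjoint_insert_left]
          exact ⟨notMem_erase i F', h3.mono_right (erase_subset _ _)⟩)
        (by rw [card_insert_of_notMem hi0]; omega)
      rw [prod_insert hi0] at this
      calc _ ≤ w i * (c * (b i * ∏ i ∈ J0, b i) * M ^ k) :=
            mul_le_mul_of_nonneg_left this (hb i (h2 hi)).2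
        _ = _ := by ring
    refine (sum_le_sum h5).trans ?_
    rw [← mul_sum, pow_succ, ← mul_assoc]
    refine mul_le_mul_of_nonneg_left ?_ hP
    exact (sum_le_sum_of_subset_of_nonneg h2 fun i hi _ =>
      mul_nonneg (hb i hi).1 (hb i hi).2).trans hM

lemma core37 {s q m : ℝ} (h1 : 0.1 ≤ s) (h2 : s ≤ 0.6) (h4 : q ≤ 1.0002 * s) :
    (1 + s) ^ 2 * q + 2 * (1 + s) * m - m ^ 2 ≤ 3.7 * s - 0.001 + 1.699 * m := by
  have a1 : (1 + s) ^ 2 * q ≤ (1 + s) ^ 2 * (1.0002 * s) :=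
    mul_le_mul_of_nonneg_left h4 (sq_nonneg _)
  have a2 : 0 ≤ (m - (s + 0.1505)) ^ 2 := sq_nonneg _
  have a3 : 0 ≤ (s - 0.1) * (0.6 - s) := mul_nonneg (by linarith) (by linarith)
  have a4 : 0 ≤ s * ((s - 0.1) * (0.6 - s)) := mul_nonneg (by linarith) a3
  nlinarith

lemma core46 {s m : ℝ} (h1 : 0.5 ≤ s) (h2 : s ≤ 1) :
    (1 + s) ^ 2 * s + 2 * (1 + s) * m - m ^ 2 ≤ 4.6 * s - 0.001 + 2.599 * m := by
  have a2 : 0 ≤ (m - (s - 0.2995)) ^ 2 := sq_nonneg _
  have a3 : 0 ≤ (s - 0.5) * (1 - s) := mul_nonneg (by linarith) (by linarith)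
  have a4 : 0 ≤ s * ((s - 0.5) * (1 - s)) := mul_nonneg (by linarith) a3
  nlinarith

lemma coreS {s σ q m : ℝ} (h0 : 0 ≤ s) (h2 : s ≤ 0.1) (hσ : 0 ≤ σ) (h4 : q ≤ 1.0002 * σ)
    (hm : 0 ≤ m) (hm' : m ≤ 2.001 * σ) :
    (1 + s) ^ 2 * q + 2 * (1 + s) * m - m ^ 2 ≤ 3.7 * σ + 1.699 * m := by
  have a0 : (1 + s) ^ 2 ≤ 1.21 := by nlinarith
  have a1 : (1 + s) ^ 2 * q ≤ (1 + s) ^ 2 * (1.0002 * σ) :=
    mul_le_mul_of_nonneg_left h4 (sq_nonneg _)
  have a2 : (1 + s) ^ 2 * (1.0002 * σ) ≤ 1.21 * (1.0002 * σ) :=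
    mul_le_mul_of_nonneg_right a0 (by linarith)
  have a3 : s * m ≤ 0.1 * m := mul_le_mul_of_nonneg_right h2 hm
  nlinarith [sq_nonneg m]

lemma vnum_eq {p s m La : ℝ} (hp : p < 1) :
    vnum p ((1 + s) / (1 - p)) m La =
      (1 + s) ^ 2 * (p / (1 - p)) + 2 * (1 + s) * m - m ^ 2 + 2 * (1 + 3 * eps) ^ 2 * La := by
  have : (1 - p) ≠ 0 := by linarith
  unfold vnum
  field_simp
  ring

lemma pos_part_le {t S : ℝ} (hS : 0 < S) : max (t - S) 0 ≤ t ^ 2 / (4 * S) := by
  refine max_le ?_ (by positivity)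
  rw [le_div_iff₀ (by positivity)]
  nlinarith [sq_nonneg (t - 2 * S)]

end LTail

open LTail

theorem tail : StTail := by
  intro Ω ι _ _ p R F b w c wb M T j hp hb hJ hM hwb hT
  have hc : 0 ≤ c := by
    have := hJ ∅ (empty_subset _) (by simp)
    rw [prod_empty, mul_one] at this
    exact (Ex_I_nonneg hp _).trans this
  have h1 := S_ex p R F b w c M j (fun i hi => ⟨(hb i hi).1, (hb i hi).2.1⟩) hc hJ hM j ∅ F
    (empty_subset _) Subset.rfl (disjoint_empty_left _) (by simp)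
  have hpos : 0 < (T - j * wb) ^ j := pow_pos (by linarith) j
  rw [div_pow, ← mul_div_assoc, le_div_iff₀ hpos, ← Ex_mul_const]
  rw [prod_empty, mul_one] at h1
  refine le_trans (Ex_mono hp fun ω _ => ?_) h1
  rw [I_pos (empty_subset _), one_mul]
  by_cases h : T ≤ ∑ i ∈ F.filter (fun i => i ∈ R ω), w i
  · rw [I_pos h, one_mul]
    exact S_ge w hwb j _ T (fun i hi => (hb i (mem_filter.1 hi).1).2) hT.le h
  · rw [I_neg h, zero_mul]
    exact S_nonneg w j _ fun i hi => (hb i (mem_filter.1 hi).1).2.1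

theorem n1 : StN1 := by
  intro p A m La hp hA he hA1 hm hLa hmA
  have hp2 : p < 1 / 2 := by linarith
  have hp1 : p < 1 := by linarith
  have h1p : 0 < 1 - p := by linarith
  have h1A : 0 < 1 - A := by linarith
  have heps : eps = 1 / 10 ^ 7 := rfl
  have hkap : kap = 1 / 10 ^ 4 := rfl
  have hdel : del = 1 / 10 ^ 16 := rfl
  have hkp : kp = 1 / 10 ^ 21 := rfl
  have hLa0 : 0 ≤ La := by
    by_contra h
    have : (1 + 3 * eps) * La < 0 := mul_neg_of_pos_of_neg (by rw [heps]; norm_num) (not_le.1 h)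
    linarith
  obtain ⟨q, hq⟩ : ∃ q, q = p / (1 - p) := ⟨_, rfl⟩
  have hqp : q * (1 - p) = p := by rw [hq]; field_simp
  have hq0 : 0 ≤ q := by rw [hq]; positivity
  -- the final reduction
  have fin : ∀ s : ℝ, 0 ≤ s → (1 + s) / (1 - p) ≤ 5 →
      (1 + s) / (1 - p) ≤ (1 - kp) * (1 / (1 - A)) → (1 - kap) * q ≤ s - del →
      ((1 + s) ^ 2 * q + 2 * (1 + s) * m - m ^ 2 ≤ 3.7 * (s - del) + 1.699 * m ∨
        (3 / 8 < p ∧
          (1 + s) ^ 2 * q + 2 * (1 + s) * m - m ^ 2 ≤ 4.6 * (s - del) + 2.599 * m)) →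
      ∃ C, 0 ≤ C ∧ C ≤ min 5 ((1 - kp) * (1 / (1 - A))) ∧
      (1 - kap) * (p / (1 - p)) ≤ (1 - p) * C - 1 - del ∧
      vnum p C m La ≤ 4.6 * ((1 - p) * C - 1 - del + (1 - 2 * kap) * La) ∧
      (p ≤ 3 / 8 → vnum p C m La ≤ 3.7 * ((1 - p) * C - 1 - del + (1 - 2 * kap) * La)) := by
    intro s hs h5 hC h3 h4
    have e : (1 - p) * ((1 + s) / (1 - p)) - 1 = s := by field_simp; ring
    refine ⟨(1 + s) / (1 - p), by positivity, le_min h5 hC, ?_, ?_, ?_⟩
    · rw [e, ← hq]; exact h3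
    · rw [e, vnum_eq hp1, ← hq]
      have h6 : 0 ≤ s - del := le_trans (mul_nonneg (by rw [hkap]; norm_num) hq0) h3
      rw [heps] at hLa ⊢
      rw [hkap]
      rcases h4 with h4 | ⟨_, h4⟩
      · norm_num at hLa h4 ⊢
        linarith
      · norm_num at hLa h4 ⊢
        linarith
    · intro h38
      rw [e, vnum_eq hp1, ← hq]
      rw [heps] at hLa ⊢
      rw [hkap]
      rcases h4 with h4 | ⟨h, _⟩
      · norm_num at hLa h4 ⊢
        linarith
      · linarith
  rcases le_or_gt p (1 / 3) with h13 | h13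
  · have hq2 : q ≤ 1 / 2 := by rw [hq, div_le_iff₀ h1p]; linarith
    obtain ⟨t, ht⟩ : ∃ t, t = (A - p) / (1 - A) := ⟨_, rfl⟩
    have htq : q ≤ t := by
      rw [hq, ht]
      exact div_le_div₀ (by linarith) (by linarith) h1A (by linarith)
    have htA : A / 2 ≤ t := by
      rw [ht, le_div_iff₀ h1A]
      have : 0 ≤ A := by linarith
      nlinarith
    have hC : (1 + (t - kp * (1 + t))) / (1 - p) = (1 - kp) * (1 / (1 - A)) := by
      rw [ht]
      field_simp
      ring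
    have hte : 1 / 10 ^ 7 / 2 ≤ t := by rw [heps] at he; linarith
    rcases le_total (t - kp * (1 + t)) (1 / 2) with hs | hs
    · have h3 : (1 - kap) * t ≤ t - kp * (1 + t) - del := by
        rw [hkap, hkp, hdel]; norm_num at hte ⊢; linarith
      have h4 : (1 - kap) * q ≤ (1 - kap) * t :=
        mul_le_mul_of_nonneg_left htq (by rw [hkap]; norm_num)
      have hd0 : 0 < del := by rw [hdel]; norm_num
      have hd1 : del ≤ 1 / 10 ^ 16 := hdel.le
      have h7 : t ≤ 1.0002 * (t - kp * (1 + t) - del) := by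
        rw [hkap] at h3; norm_num at h3 hte ⊢; linarith
      have hσ : 0 ≤ t - kp * (1 + t) - del := by norm_num at h7 hte; linarith
      refine fin (t - kp * (1 + t)) (by linarith) ?_ hC.le (h4.trans h3) (Or.inl ?_)
      · rw [div_le_iff₀ h1p]; linarith
      · rcases le_total (t - kp * (1 + t)) 0.1 with h01 | h01
        · refine coreS (by linarith) h01 hσ (htq.trans h7) hm ?_
          rw [heps] at hmA
          norm_num at hmA h7 ⊢
          linarith
        · have := core37 (m := m) h01 (by linarith) (q := q) (by linarith)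
          norm_num at this hd1 ⊢
          linarith
    · refine fin (1 / 2) (by norm_num) ?_ ?_ ?_ (Or.inl ?_)
      · rw [div_le_iff₀ h1p]; linarith
      · rw [← hC]
        exact div_le_div_of_nonneg_right (by linarith) h1p.le
      · rw [hkap, hdel]; norm_num; linarith
      · have := core37 (s := 1 / 2) (m := m) (q := q) (by norm_num) (by norm_num) (by linarith)
        rw [hdel]
        norm_num at this ⊢
        linarith
  · have hq2 : 1 / 2 ≤ q := by rw [hq, le_div_iff₀ h1p]; linarith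
    have hq1 : q ≤ 1 := by rw [hq, div_le_iff₀ h1p]; linarith
    have e1 : 1 + q = 1 / (1 - p) := by rw [hq]; field_simp; ring
    refine fin q hq0 ?_ ?_ ?_ ?_
    · rw [div_le_iff₀ h1p]; linarith
    · rw [e1, div_div, mul_one_div, div_le_div_iff₀ (by positivity) h1A, hkp]
      nlinarith
    · rw [hkap, hdel]; norm_num; linarith
    · rcases le_or_gt p (3 / 8) with h38 | h38
      · left
        have hq6 : q ≤ 0.6 := by rw [hq, div_le_iff₀ h1p]; linarith
        have := core37 (s := q) (m := m) (q := q) (by linarith) hq6 (by linarith)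
        rw [hdel]
        norm_num at this ⊢
        linarith
      · right
        refine ⟨h38, ?_⟩
        have := core46 (s := q) (m := m) (by linarith) hq1
        rw [hdel]
        norm_num at this ⊢
        linarith

theorem n2 : StN2 := by
  intro p q m La h1 h2 h3 h4 hm hLa
  have a1 : p * (1 - p) ≤ 1 / 4 := by nlinarith [sq_nonneg (p - 1 / 2)]
  have a2 : q ^ 2 ≤ 1 / 4 := by nlinarith
  have a3 : q ^ 2 * (p * (1 - p)) ≤ 1 / 4 * (1 / 4) :=
    mul_le_mul a2 a1 (mul_nonneg (by linarith) (by linarith)) (by norm_num)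
  have a4 : q * (1 - p) ≤ 1 / 2 * (5 / 8) :=
    mul_le_mul h4 (by linarith) (by linarith) (by norm_num)
  have a5 : q * (1 - p) * m ≤ 1 / 2 * (5 / 8) * m := mul_le_mul_of_nonneg_right a4 hm
  have a6 : 0 ≤ (m - 0.37) ^ 2 := sq_nonneg _
  have hLa0 : 0 ≤ La := by
    by_contra h
    have : (1 + 3 * eps) * La < 0 :=
      mul_neg_of_pos_of_neg (by unfold eps; norm_num) (not_le.1 h)
    linarith
  unfold vnum
  unfold eps at hLa ⊢
  unfold kap
  norm_num at hLa ⊢
  nlinarith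

theorem n3 : StN3 := by
  intro p A m La h1 h2 h3 hm hLa hmA
  have h1p : 0 < 1 - p := by linarith
  have h1A : 0 < 1 - A := by linarith
  have hm1 : m ≤ 1.001 := by
    unfold eps at hmA
    norm_num at hmA ⊢
    linarith
  have hLa0 : 0 ≤ La := by
    by_contra h
    have : (1 + 3 * eps) * La < 0 :=
      mul_neg_of_pos_of_neg (by unfold eps; norm_num) (not_le.1 h)
    linarith
  refine ⟨div_nonneg (by linarith) h1p.le, ?_, ?_, ?_⟩
  · rw [← add_div]
    unfold rho kp
    refine le_min ?_ ?_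
    · rw [div_le_iff₀ h1p]; linarith
    · rw [mul_one_div, div_le_div_iff₀ h1p h1A]
      have : m * (1 - A) ≥ 0 := mul_nonneg hm h1A.le
      nlinarith
  · unfold eps at hLa
    unfold del kap
    norm_num at hLa hm1 ⊢
    linarith
  · have e : (2 - m) / (1 - p) = (1 + (1 - m)) / (1 - p) := by ring
    rw [e, vnum_eq (by linarith)]
    have hq1 : p / (1 - p) ≤ 1 := by rw [div_le_iff₀ h1p]; linarith
    have a1 : (1 + (1 - m)) ^ 2 * (p / (1 - p)) ≤ (1 + (1 - m)) ^ 2 * 1 :=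
      mul_le_mul_of_nonneg_left hq1 (sq_nonneg _)
    have a2 : 0 ≤ (m - 1 / 2) ^ 2 := sq_nonneg _
    unfold eps at hLa ⊢
    unfold del kap
    norm_num at hLa hm1 ⊢
    nlinarith

theorem n4 : StN4 := by
  refine ⟨?_, ?_, ?_, ?_⟩
  · intro a g o y ha ho
    have h4 : 0 < 4 * a := by linarith
    have k1 : y - g ≤ (y + (a - g)) ^ 2 / (4 * a) := by
      rw [le_div_iff₀ h4]
      nlinarith [sq_nonneg (y + (a - g) - 2 * a)]
    have k2 : 0 ≤ (y + (a - g)) ^ 2 / (4 * a) := by positivity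
    have k3 : (y + (a - g)) / 2 - a / 4 ≤ (y + (a - g)) ^ 2 / (4 * a) := by
      rw [le_div_iff₀ h4]
      nlinarith [sq_nonneg (y + (a - g) - a)]
    exact le_min (by linarith) (le_min (by linarith) (by linarith))
  · intro c v hc hv
    rcases le_total c 1 with h | h
    · refine ⟨2, le_rfl, by linarith, ?_⟩
      have : ((c + (2 - 1)) ^ 2 + v) / (4 * 2) ≤ c - 0.022 := by
        rw [div_le_iff₀ (by norm_num)]
        nlinarith [mul_nonneg (sub_nonneg.2 hc) (sub_nonneg.2 h)]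
      linarith
    · refine ⟨c + 1, by linarith, by linarith, ?_⟩
      have : ((c + (c + 1 - 1)) ^ 2 + v) / (4 * (c + 1)) ≤ c - 0.022 := by
        rw [div_le_iff₀ (by linarith)]
        nlinarith
      linarith
  · intro c v hc hv
    rcases le_total c 1.4 with h | h
    · refine ⟨2.4, le_rfl, by linarith, ?_⟩
      have : ((c + (2.4 - 1)) ^ 2 + v) / (4 * 2.4) ≤ c - 0.024 := by
        rw [div_le_iff₀ (by norm_num)]
        nlinarith [mul_nonneg (sub_nonneg.2 hc) (sub_nonneg.2 h)]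
      linarith
    · refine ⟨c + 1, by linarith, by linarith, ?_⟩
      have : ((c + (c + 1 - 1)) ^ 2 + v) / (4 * (c + 1)) ≤ c - 0.024 := by
        rw [div_le_iff₀ (by linarith)]
        nlinarith
      linarith
  · intro c v hc hv
    have : ((c + c) ^ 2 + v) / (4 * (c + 1.29)) ≤ c - 0.05 := by
      rw [div_le_iff₀ (by linarith)]
      nlinarith
    linarith

theorem stc1 : StC1 := by
  intro ι F u x hx hu
  rcases F.eq_empty_or_nonempty with rfl | hF
  · norm_num
  obtain ⟨τ, hτ⟩ : ∃ τ : ι → ℝ, ∀ e, τ e = if x * u e ≤ eps then 0.49 else 0.97 :=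
    ⟨_, fun _ => rfl⟩
  simp only [← hτ]
  have hτ0 : ∀ e, 0 < τ e := by
    intro e
    rw [hτ]
    split_ifs <;> norm_num
  obtain ⟨S, hS⟩ : ∃ S, S = ∑ f ∈ F, τ f * (x * u f ^ 2) := ⟨_, rfl⟩
  have hS0 : 0 < S := by
    rw [hS]
    refine sum_pos (fun f hf => ?_) hF
    have : 0 < u f := lt_of_lt_of_le (by norm_num) (hu f hf).1
    exact mul_pos (hτ0 f) (by positivity)
  rw [← hS]
  have key : ∀ e ∈ F, x * max (6 + 1.011 * (u e + 1) + τ e * (x * u e ^ 2) - 0.979 * S) 0 ≤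
      2.95 / (4 * (0.979 * S)) * (τ e * (x * u e ^ 2)) := by
    intro e he
    obtain ⟨h1, h2⟩ := hu e he
    have hu0 : 0 < u e := lt_of_lt_of_le (by norm_num) h1
    have hxu : 0 < x * u e := mul_pos hx hu0
    have t0 : 0 ≤ 6 + 1.011 * (u e + 1) + τ e * (x * u e ^ 2) := by
      have := hτ0 e
      positivity
    have t1 : 6 + 1.011 * (u e + 1) + τ e * (x * u e ^ 2) ≤
        u e * (1.012 + τ e * (x * u e)) := by
      have : u e * (1.012 + τ e * (x * u e)) = 1.012 * u e + τ e * (x * u e ^ 2) := by ring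
      rw [this]
      norm_num at h1 ⊢
      linarith
    have t2 : (1.012 + τ e * (x * u e)) ^ 2 ≤ 2.95 * τ e := by
      rw [hτ]
      split_ifs with h
      · unfold eps at h
        nlinarith
      · nlinarith
    have t3 : (6 + 1.011 * (u e + 1) + τ e * (x * u e ^ 2)) ^ 2 ≤ u e ^ 2 * (2.95 * τ e) := by
      refine (pow_le_pow_left₀ t0 t1 2).trans ?_
      rw [mul_pow]
      exact mul_le_mul_of_nonneg_left t2 (sq_nonneg _)
    have hS' : 0 < 0.979 * S := by positivity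
    calc _ ≤ x * ((6 + 1.011 * (u e + 1) + τ e * (x * u e ^ 2)) ^ 2 / (4 * (0.979 * S))) :=
          mul_le_mul_of_nonneg_left (pos_part_le hS') hx.le
      _ ≤ x * (u e ^ 2 * (2.95 * τ e) / (4 * (0.979 * S))) :=
          mul_le_mul_of_nonneg_left (div_le_div_of_nonneg_right t3 (by positivity)) hx.le
      _ = _ := by ring
  refine (sum_le_sum key).trans ?_
  rw [← mul_sum, ← hS, div_mul_eq_mul_div, div_le_iff₀ (by positivity)]
  nlinarith

end Pool.Agent.P.MP_553766_co.Lg
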