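import Mathlib
import Pool.Agent.P.MP_553766_co.LSt1

set_option autoImplicit false

/-! The schedule of the top stage. -/

namespace Pool.Agent.P.MP_553766_co.Lg

open Finset Pool.Agent.P.MP_553766_co

namespace LTop

variable {V : Type} [Fintype V] [DecidableEq V]

lemma inv_mono {T : Finset (Finset V)} {p : Om V → ℝ} {M c b G M' c' b' G' : Finset V → ℝ}
    (h : Inv T p M c b G) (hM : ∀ e ∈ T, M e = M' e) (hc : ∀ e ∈ T, c e ≤ c' e)
    (hb : ∀ e ∈ T, b e ≤ b' e) (hG : ∀ e, G' e ≤ G e) : Inv T p M' c' b' G' where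
  prob := h.prob
  supp := h.supp
  marg := fun e he => (h.marg e he).trans (hM e he)
  cnn := fun e he => (h.cnn e he).trans (hc e he)
  joint := fun J hJ => (h.joint J hJ).trans
    (Finset.prod_le_prod (fun e he => h.cnn e (hJ he)) fun e he => hc e (hJ he))
  bad := fun e he => (h.bad e he).trans (hb e he)
  gain := fun e => (hG e).trans (h.gain e)

omit [Fintype V] in
lemma XX_nonneg (e : Finset V) (s : Om V) : 0 ≤ XX e s := Nat.cast_nonneg _

/-- the point mass at the empty matching -/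
lemma inv_zero (T : Finset (Finset V)) :
    ∃ p, Inv T p (fun _ => 0) (fun _ => 0) (fun _ => 0) (fun _ => 0) := by
  classical
  have hE : ∀ φ : Om V → ℝ, Ex (fun s : Om V => I (s = (∅, ∅))) φ = φ (∅, ∅) := by
    intro φ
    unfold Ex
    rw [Finset.sum_eq_single ((∅, ∅) : Om V)]
    · beta_reduce; rw [I_pos rfl, one_mul]
    · intro s _ hs; beta_reduce; rw [I_neg hs, zero_mul]
    · intro h; exact absurd (Finset.mem_univ _) h
  refine ⟨fun s => I (s = (∅, ∅)), ⟨fun s => I_nonneg _, ?_⟩, ?_, ?_, ?_, ?_, ?_, ?_⟩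
  · have := hE (fun _ => 1)
    simpa [Ex] using this
  · intro s hs
    have : s = (∅, ∅) := by
      by_contra h
      exact hs (I_neg h)
    subst this
    exact ⟨⟨Finset.empty_subset _, fun e he => absurd he (Finset.notMem_empty _)⟩,
      Finset.Subset.refl _⟩
  · intro e _
    rw [hE]; exact I_neg (Finset.notMem_empty _)
  · intro e _; exact le_rfl
  · intro J _
    rw [hE]
    rcases J.eq_empty_or_nonempty with rfl | hJ
    · simp [I_le_one]
    · rw [I_neg]
      · exact Finset.prod_nonneg fun _ _ => le_rfl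
      · intro h
        exact hJ.ne_empty (Finset.subset_empty.1 h)
  · intro e _
    rw [hE]
    exact le_of_eq (I_neg fun h => Finset.notMem_empty _ h.1)
  · intro e
    rw [hE]; exact XX_nonneg _ _

omit [Fintype V] in
/-- total size of the edges that meet e -/
lemma sum_nb {T : Finset (Finset V)} {D : ℕ} (h : Hyp T D) {e : Finset V} (he : e ∈ T) :
    ∑ f ∈ nbE T e, lam f ≤ (lam e + 1) * ((D : ℝ) - 1 - lam e) := by
  have h1 : ∀ f ∈ nbE T e, lam f ≤ ∑ v ∈ e, if v ∈ f then lam f else 0 := by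
    intro f hf
    obtain ⟨hfT, _, hd⟩ := Finset.mem_filter.1 hf
    obtain ⟨v, hv, hvf⟩ := Finset.not_disjoint_iff.1 hd
    have h2 := h.two_le_lam hfT
    have := Finset.single_le_sum (f := fun v => if v ∈ f then lam f else 0)
      (fun w _ => by split_ifs <;> linarith) hv
    simpa [hvf] using this
  refine (Finset.sum_le_sum h1).trans ?_
  rw [Finset.sum_comm]
  have h3 : ∀ v ∈ e, (∑ f ∈ nbE T e, if v ∈ f then lam f else 0) ≤ (D : ℝ) - 1 - lam e := by
    intro v hv
    rw [← Finset.sum_filter]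
    have h4 := h.deg v
    rw [← Finset.add_sum_erase _ _ (Finset.mem_filter.2 ⟨he, hv⟩)] at h4
    have h5 : ∑ f ∈ (nbE T e).filter (fun f => v ∈ f), lam f ≤
        ∑ f ∈ (T.filter (fun f => v ∈ f)).erase e, lam f := by
      refine Finset.sum_le_sum_of_subset_of_nonneg ?_ fun f hf _ => ?_
      · intro f hf
        obtain ⟨hf1, hf2⟩ := Finset.mem_filter.1 hf
        obtain ⟨hfT, hne, _⟩ := Finset.mem_filter.1 hf1
        exact Finset.mem_erase.2 ⟨hne, Finset.mem_filter.2 ⟨hfT, hf2⟩⟩
      · linarith [h.two_le_lam (Finset.mem_filter.1 (Finset.mem_of_mem_erase hf)).1]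
    linarith
  refine (Finset.sum_le_card_nsmul _ _ _ h3).trans (le_of_eq ?_)
  simp only [nsmul_eq_mul, lam]
  ring

omit [Fintype V] in
/-- the indicator of being available, for an edge outside T -/
lemma avail_eq {T : Finset (Finset V)} {e : Finset V} (he : e ∉ T) {s : Om V} (hs : s.1 ⊆ T) :
    I (avail e s) = 1 - ∑ f ∈ nbE T e, I (f ∈ s.1) + XX e s := by
  classical
  have h1 : ∑ f ∈ nbE T e, I (f ∈ s.1) = ((nbE s.1 e).card : ℝ) := by
    simp only [I_eq_ite]
    rw [Finset.sum_boole]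
    congr 2
    ext f
    simp only [nbE, Finset.mem_filter]
    constructor
    · rintro ⟨⟨_, h2⟩, h3⟩; exact ⟨h3, h2⟩
    · rintro ⟨h3, h2⟩; exact ⟨⟨hs h3, h2⟩, h3⟩
  rw [h1]
  unfold XX
  by_cases ha : avail e s
  · have : nbE s.1 e = ∅ := by
      refine Finset.filter_eq_empty_iff.2 fun f hf h => h.2 (ha f hf)
    rw [I_pos ha, this]; simp
  · have : (nbE s.1 e).Nonempty := by
      unfold avail at ha
      push Not at ha
      obtain ⟨f, hf, hd⟩ := ha
      exact ⟨f, Finset.mem_filter.2 ⟨hf, fun h => he (h ▸ hs hf), hd⟩⟩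
    have h2 : 1 ≤ (nbE s.1 e).card := Finset.card_pos.2 this
    rw [I_neg ha, Nat.cast_sub h2]; simp

/-- the parameters of the schedule -/
structure Sch (V : Type) where
  B : Finset (Finset V)
  D : ℕ
  Λ : ℕ
  S : ℕ
  θ : ℝ
  n : ℕ
  mB : ℕ
  mC : ℕ

namespace Sch

variable (z : Sch V)

noncomputable section

def T : Finset (Finset V) := topE z.B z.Λ

structure Ok : Prop where
  hyp : Hyp z.B z.D
  top : TopPar z.D z.Λ z.S
  th0 : 0 < z.θ
  th1 : z.θ ≤ 1 / 2
  Dpos : 0 < z.D
  npos : 0 < z.n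
  hB : z.n = 40 * z.S * z.mB
  hC : z.n = 80 * z.Λ * z.mC
  dvd : ∀ e ∈ z.T, (e.card - 1) ∣ z.n
  hn : 2 * (z.D : ℝ) ≤ z.θ * z.n

def ta (e : Finset V) (m : ℕ) : ℝ := min (lam e * m / z.n) 1
def cl (e : Finset V) : ℕ :=
  if 4 * (z.S : ℝ) ≤ lam e then 0 else if 8 * (z.Λ : ℝ) ≤ lam e then z.mB else z.mC
def tB : ℝ := 1 / (40 * (z.S : ℝ))
def tC : ℝ := 1 / (80 * (z.Λ : ℝ))
def gB (e : Finset V) : ℝ := gainF z.T (muB z.D z.Λ z.S z.tB) e
def gC (e : Finset V) : ℝ := gainF z.T (muC z.D z.Λ z.tC) e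
def M (j m : ℕ) (e : Finset V) : ℝ := if z.cl e ≤ j then z.ta e m / z.D else 0
def c (j m : ℕ) (e : Finset V) : ℝ :=
  ((if z.cl e ≤ j then 1.2 else 0) - 4 * Real.log (max (1 - z.ta e m) (z.θ / 2))) / z.D
def b (m : ℕ) (e : Finset V) : ℝ := max (z.ta e m - (1 - z.θ)) 0 / z.D
def G (j : ℕ) (e : Finset V) : ℝ :=
  max 0 (max (if z.mB ≤ j then z.gB e else 0) (if z.mC ≤ j then z.gC e else 0))
def Cl (j m : ℕ) : Prop := ∃ p, Inv z.T p (z.M j m) (z.c j m) (z.b m) (z.G j)

end

variable {z}

omit [Fintype V] in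
lemma Ok.hypT (h : z.Ok) : Hyp z.T z.D := h.hyp.mono (Finset.filter_subset _ _)

omit [Fintype V] in
lemma Ok.big (h : z.Ok) {e : Finset V} (he : e ∈ z.T) : (10 : ℝ) ^ 7 ≤ lam e := by
  have h1 : z.Λ + 1 < e.card := (Finset.mem_filter.1 he).2
  have h2 := h.top.h3
  have h3 : 10 ^ 7 + 1 ≤ e.card := by omega
  have h4 : ((10 ^ 7 + 1 : ℕ) : ℝ) ≤ e.card := by exact_mod_cast h3
  unfold lam
  push_cast at h4
  linarith

omit [Fintype V] in
lemma Ok.SL (h : z.Ok) : 10 ^ 4 * z.Λ ≤ z.S := by
  have h1 := h.top.hS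
  have h2 := h.top.h2
  have h3 := h.Dpos
  have hS : 0 < z.S := by
    rcases Nat.eq_zero_or_pos z.S with h0 | h0
    · rw [h0] at h1; omega
    · exact h0
  have : z.S * (10 ^ 4 * z.Λ) ≤ z.S * z.S := by nlinarith
  exact Nat.le_of_mul_le_mul_left this hS

omit [Fintype V] in
lemma Ok.mBpos (h : z.Ok) : 0 < z.mB := by
  have h1 := h.npos
  rw [h.hB] at h1
  exact Nat.pos_of_mul_pos_left h1

omit [Fintype V] in
lemma Ok.mBC (h : z.Ok) : z.mB < z.mC := by
  have h1 := h.SL
  have h2 := h.top.h3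
  have h3 := h.mBpos
  have h4 : 40 * z.S * z.mB = 80 * z.Λ * z.mC := h.hB.symm.trans h.hC
  by_contra h5
  push Not at h5
  have h6 : 80 * z.Λ * z.mC ≤ 80 * z.Λ * z.mB := Nat.mul_le_mul_left _ h5
  have h7 : 80 * z.Λ * z.mB < 40 * z.S * z.mB := Nat.mul_lt_mul_of_pos_right (by omega) h3
  omega

omit [Fintype V] in
lemma Ok.mCn (h : z.Ok) : z.mC ≤ z.n := by
  have h2 := h.top.h3
  rw [h.hC]
  exact Nat.le_mul_of_pos_left _ (by omega)

omit [Fintype V] in
lemma Ok.Lr (h : z.Ok) : (10 : ℝ) ^ 7 ≤ z.Λ := by exact_mod_cast h.top.h3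

omit [Fintype V] in
lemma Ok.Sr (h : z.Ok) : (10 : ℝ) ^ 4 * z.Λ ≤ z.S := by exact_mod_cast h.SL

omit [Fintype V] in
lemma Ok.nr (h : z.Ok) : (0 : ℝ) < z.n := by exact_mod_cast h.npos

omit [Fintype V] in
lemma Ok.Dr (h : z.Ok) : (0 : ℝ) < z.D := by exact_mod_cast h.Dpos

omit [Fintype V] in
lemma Ok.tB_eq (h : z.Ok) : (z.mB : ℝ) / z.n = z.tB := by
  have h1 : (z.n : ℝ) = 40 * z.S * z.mB := by exact_mod_cast h.hB
  have h2 := h.Lr
  have h3 := h.Sr
  have h4 : (0 : ℝ) < z.mB := by exact_mod_cast h.mBpos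
  have h5 : (0 : ℝ) < z.S := by linarith
  unfold tB
  rw [h1]
  field_simp

omit [Fintype V] in
lemma Ok.tC_eq (h : z.Ok) : (z.mC : ℝ) / z.n = z.tC := by
  have h1 : (z.n : ℝ) = 80 * z.Λ * z.mC := by exact_mod_cast h.hC
  have h2 := h.Lr
  have h4 : (0 : ℝ) < z.mC := by exact_mod_cast lt_trans h.mBpos h.mBC
  have h5 : (0 : ℝ) < z.Λ := by linarith
  unfold tC
  rw [h1]
  field_simp

omit [Fintype V] [DecidableEq V] in
lemma ta_le_one (e : Finset V) (m : ℕ) : z.ta e m ≤ 1 := min_le_right _ _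

omit [Fintype V] [DecidableEq V] in
lemma ta_le (e : Finset V) (m : ℕ) : z.ta e m ≤ lam e * (m / z.n) := by
  rw [← mul_div_assoc]; exact min_le_left _ _

omit [Fintype V] in
lemma Ok.ta_nonneg (h : z.Ok) {e : Finset V} (he : e ∈ z.T) (m : ℕ) : 0 ≤ z.ta e m := by
  have := h.big he
  exact le_min (by positivity) zero_le_one

omit [Fintype V] in
lemma Ok.ta_mono (h : z.Ok) {e : Finset V} (he : e ∈ z.T) (m : ℕ) :
    z.ta e m ≤ z.ta e (m + 1) := by
  have h1 := h.big he
  have h2 := h.nr
  refine min_le_min_right _ (div_le_div_of_nonneg_right ?_ h2.le)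
  push_cast
  nlinarith

omit [Fintype V] in
lemma Ok.ta_step (h : z.Ok) {e : Finset V} (he : e ∈ z.T) (m : ℕ) :
    z.ta e (m + 1) ≤ z.ta e m + z.θ / 2 := by
  have h1 := h.big he
  have h2 := h.nr
  have h3 := h.hypT.lam_le he
  have h4 := h.hn
  have h5 : lam e / z.n ≤ z.θ / 2 := by
    rw [div_le_iff₀ h2]; linarith
  have h6 : lam e * ((m + 1 : ℕ) : ℝ) / z.n = lam e * m / z.n + lam e / z.n := by
    push_cast; ring
  have h7 := h.th0
  unfold ta
  rw [h6]
  rcases le_total (lam e * m / z.n) 1 with h8 | h8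
  · rw [min_eq_left h8]
    exact (min_le_left _ _).trans (by linarith)
  · rw [min_eq_right h8]
    exact (min_le_right _ _).trans (by linarith)

omit [Fintype V] in
lemma Ok.ta_eq (h : z.Ok) {e : Finset V} (he : e ∈ z.T) {m : ℕ}
    (hm : z.ta e m ≠ z.ta e (m + 1)) : z.ta e (m + 1) = lam e * (((m + 1 : ℕ) : ℝ) / z.n) := by
  have h2 := h.nr
  have h3 : z.ta e m < 1 :=
    lt_of_lt_of_le (lt_of_le_of_ne (h.ta_mono he m) hm) (ta_le_one e _)
  have h4 : lam e * m / z.n < 1 := by
    rcases min_lt_iff.1 h3 with h5 | h5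
    · exact h5
    · exact absurd h5 (lt_irrefl _)
  obtain ⟨q, hq⟩ := h.dvd e he
  have h5 : 1 ≤ e.card := by have := h.hypT.big e he; omega
  have h6 : lam e = ((e.card - 1 : ℕ) : ℝ) := by rw [Nat.cast_sub h5]; simp [lam]
  rw [div_lt_one h2, h6] at h4
  have h7 : (e.card - 1) * m < z.n := by exact_mod_cast h4
  have h8 : m < q := by
    rw [hq] at h7
    exact Nat.lt_of_mul_lt_mul_left h7
  have h9 : (e.card - 1) * (m + 1) ≤ z.n := by
    rw [hq]; exact Nat.mul_le_mul_left _ h8
  unfold ta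
  rw [mul_div_assoc]
  refine min_eq_left ?_
  rw [← mul_div_assoc, div_le_one h2, h6]
  exact_mod_cast h9

omit [Fintype V] in
lemma Ok.M_le (h : z.Ok) {e : Finset V} (he : e ∈ z.T) (j m : ℕ) :
    z.M j m e ≤ (m / z.n) / z.D * lam e := by
  have h1 := h.big he
  have h2 := h.Dr
  have h3 := ta_le (z := z) e m
  unfold M
  split_ifs
  · calc z.ta e m / z.D ≤ lam e * (m / z.n) / z.D := div_le_div_of_nonneg_right h3 h2.le
      _ = _ := by ring
  · positivity

omit [Fintype V] in
lemma Ok.sumM_le (h : z.Ok) {e : Finset V} (he : e ∈ z.T) (j m : ℕ) :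
    ∑ f ∈ nbE z.T e, z.M j m f ≤
      (m / z.n) / z.D * ((lam e + 1) * ((z.D : ℝ) - 1 - lam e)) := by
  refine (Finset.sum_le_sum fun f hf => h.M_le (Finset.mem_filter.1 hf).1 j m).trans ?_
  rw [← Finset.mul_sum]
  exact mul_le_mul_of_nonneg_left (sum_nb h.hypT he) (by positivity)

omit [Fintype V] in
lemma G_nonneg (j : ℕ) (e : Finset V) : 0 ≤ z.G j e := le_max_left _ _

omit [Fintype V] in
lemma Ok.log_nonpos (h : z.Ok) {e : Finset V} (he : e ∈ z.T) (m : ℕ) :
    Real.log (max (1 - z.ta e m) (z.θ / 2)) ≤ 0 := by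
  have h1 := h.th0
  have h2 := h.th1
  have h3 := h.ta_nonneg he m
  exact Real.log_nonpos (le_max_of_le_right (by linarith)) (max_le (by linarith) (by linarith))

lemma Ok.start (h : z.Ok) : z.Cl 0 0 := by
  obtain ⟨p, hp⟩ := inv_zero z.T
  have hD := h.Dr
  refine ⟨p, inv_mono hp (fun e _ => ?_) (fun e he => ?_) (fun e _ => ?_) fun e => ?_⟩
  · simp [M, ta]
  · have := h.log_nonpos he 0
    unfold c
    refine div_nonneg ?_ hD.le
    split_ifs <;> linarith
  · exact div_nonneg (le_max_right _ _) hD.le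
  · have h1 := h.mBpos
    have h2 := h.mBC
    unfold G
    rw [if_neg (by omega), if_neg (by omega)]
    simp

/-- enough room for a small step -/
lemma Ok.room (h : z.Ok) (h3 : StGainTop) {e : Finset V} (he : e ∈ z.T) {m : ℕ}
    (hm : z.ta e m ≠ z.ta e (m + 1)) :
    (1 - z.ta e (m + 1)) / 2 ≤
      1 - z.ta e (m + 1) / z.D - ∑ f ∈ nbE z.T e, z.M m (m + 1) f + z.G m e := by
  have hD := h.Dr
  have hn := h.nr
  have hl := h.big he
  have hτ := h.ta_eq he hm
  have hτ1 := ta_le_one (z := z) e (m + 1)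
  have hτ0 := h.ta_nonneg he (m + 1)
  have hU := h.sumM_le he m (m + 1)
  have hG := G_nonneg (z := z) m e
  have hL := h.Lr
  have hS := h.Sr
  set t : ℝ := ((m + 1 : ℕ) : ℝ) / z.n with ht
  set τ := z.ta e (m + 1) with hτd
  set l := lam e with hld
  set U := ∑ f ∈ nbE z.T e, z.M m (m + 1) f with hUd
  set O : ℝ := (z.D : ℝ) - 1 - l ^ 2 - l with hO
  set o : ℝ := O / (z.D * l) with ho
  have hl0 : 0 < l := by linarith
  have key : τ / z.D + U ≤ τ * (1 + o) := by
    have : τ / z.D + t / z.D * ((l + 1) * ((z.D : ℝ) - 1 - l)) = τ * (1 + o) := by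
      rw [hτ, ho, hO]; field_simp; ring
    linarith
  by_cases h1 : o ≤ 0
  · nlinarith
  push Not at h1
  by_cases h2 : τ ≤ 1 - 2 * o
  · nlinarith
  push Not at h2
  have hO0 : 0 < O := by
    by_contra h4
    push Not at h4
    have : o ≤ 0 := div_nonpos_of_nonpos_of_nonneg h4 (by positivity)
    linarith
  have ho1 : o ≤ 1 / 4 := by
    rw [ho, div_le_iff₀ (by positivity)]
    nlinarith
  have hlS : l < z.S := by
    have h5 : (z.D : ℝ) ≤ (z.S : ℝ) ^ 2 := by exact_mod_cast h.top.hS
    by_contra h6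
    push Not at h6
    nlinarith
  have ht0 : 0 ≤ t := by positivity
  have htB : z.tB < t := by
    unfold tB
    rw [div_lt_iff₀ (by linarith)]
    nlinarith
  have hmB : z.mB ≤ m := by
    rw [← h.tB_eq, ht, div_lt_div_iff_of_pos_right hn] at htB
    have : z.mB < m + 1 := by exact_mod_cast htB
    omega
  have hUb : U ≤ (∑ f ∈ (nbE z.T e).filter
      (fun f => 8 * (z.Λ : ℝ) ≤ lam f ∨ decide (z.mC ≤ m) = true), min (lam f) l) /
        (z.D * l) := by
    rw [Finset.sum_filter, Finset.sum_div]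
    refine Finset.sum_le_sum fun f hf => ?_
    have hf1 := h.big (Finset.mem_filter.1 hf).1
    unfold M
    by_cases hc : z.cl f ≤ m
    · have hs : 8 * (z.Λ : ℝ) ≤ lam f ∨ decide (z.mC ≤ m) = true := by
        by_cases h8 : 8 * (z.Λ : ℝ) ≤ lam f
        · exact Or.inl h8
        · right
          unfold cl at hc
          rw [if_neg (by linarith), if_neg h8] at hc
          simpa using hc
      rw [if_pos hc, if_pos hs, div_le_div_iff₀ hD (by positivity)]
      have h7 : z.ta f (m + 1) * l ≤ min (lam f) l := by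
        refine le_min ?_ ?_
        · have := ta_le (z := z) f (m + 1)
          calc z.ta f (m + 1) * l ≤ lam f * t * l := mul_le_mul_of_nonneg_right this hl0.le
            _ = lam f * τ := by rw [hτ]; ring
            _ ≤ lam f := by nlinarith
        · have := ta_le_one (z := z) f (m + 1)
          nlinarith
      nlinarith
    · rw [if_neg hc]
      split_ifs
      · have : 0 ≤ min (lam f) l := le_min (by linarith) hl0.le
        positivity
      · simp
  by_cases h4 : l * ((z.D : ℝ) - 1) - O < ∑ f ∈ (nbE z.T e).filter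
      (fun f => 8 * (z.Λ : ℝ) ≤ lam f ∨ decide (z.mC ≤ m) = true), min (lam f) l
  · have hS0 : (0 : ℝ) < z.S := by linarith
    have hL0 : (0 : ℝ) < z.Λ := by linarith
    have h5 := h3 V z.B z.D z.Λ z.S z.tB z.tC h.hyp h.top
      (one_div_le_one_div_of_le (by positivity) (by linarith)) le_rfl
      (one_div_le_one_div_of_le (by positivity) (by linarith)) le_rfl e he (decide (z.mC ≤ m))
      (fun hfl => by
        have h6 : z.mC ≤ m := by simpa using hfl
        have h7 : z.tC ≤ t := by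
          rw [← h.tC_eq, ht]
          refine div_le_div_of_nonneg_right ?_ hn.le
          exact_mod_cast Nat.le_succ_of_le h6
        nlinarith) hO0 h4
    have h6 : 2 * o ≤ z.G m e := by
      have h7 : 2 * o = 2 * O / (z.D * l) := by rw [ho]; ring
      rw [h7]
      refine h5.trans (le_max_of_le_right ?_)
      rw [if_pos hmB]
      refine max_le_max le_rfl (le_of_eq ?_)
      by_cases h8 : z.mC ≤ m <;> simp [h8, gC, T]
    nlinarith
  · push Not at h4
    have h5 : U ≤ 1 - 1 / z.D - o := by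
      refine hUb.trans ((div_le_div_of_nonneg_right h4 (by positivity)).trans (le_of_eq ?_))
      rw [ho]; field_simp
    have h6 : τ / z.D ≤ 1 / z.D := div_le_div_of_nonneg_right hτ1 hD.le
    linarith

lemma coin {a b th : ℝ} (h0 : 0 < th) (h1 : a ≤ b) (h2 : b ≤ a + th) (h3 : th ≤ 1 - b) :
    (b - a) / ((1 - b) / 2) ≤ 4 * (Real.log (1 - a) - Real.log (1 - b)) := by
  have h4 : 0 < 1 - b := by linarith
  have h5 : 0 < 1 - a := by linarith
  rw [← Real.log_div h5.ne' h4.ne']
  have h6 := Real.one_sub_inv_le_log_of_pos (div_pos h5 h4)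
  have h7 : 1 - ((1 - a) / (1 - b))⁻¹ = (b - a) / (1 - a) := by field_simp; ring
  rw [h7] at h6
  have h8 : (b - a) / ((1 - b) / 2) ≤ 4 * ((b - a) / (1 - a)) := by
    rw [← mul_div_assoc, div_le_div_iff₀ (by positivity) h5]
    nlinarith [mul_nonneg (sub_nonneg.2 h1) (show 0 ≤ 2 * (1 - b) - (1 - a) by linarith)]
  linarith

lemma Ok.flow (h : z.Ok) (h1 : StRound) (h3 : StGainTop) {m : ℕ} (hP : z.Cl m m) :
    z.Cl m (m + 1) := by
  classical
  obtain ⟨p, hp⟩ := hP
  have hD := h.Dr
  have hth := h.th0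
  have hth1 := h.th1
  have hd0 : ∀ e ∈ z.T, 0 ≤ z.M m (m + 1) e - z.M m m e := by
    intro e he
    unfold M
    split_ifs
    · exact sub_nonneg.2 (div_le_div_of_nonneg_right (h.ta_mono he m) hD.le)
    · simp
  obtain ⟨p', hp'⟩ := h1 V z.T p _ _ _ _ (fun e => z.M m (m + 1) e - z.M m m e)
    (fun e => z.M m (m + 1) e - z.M m m e + (1 - z.ta e (m + 1)) / 2)
    (fun e => decide (z.θ / 2 ≤ 1 - z.ta e (m + 1)))
    (fun e he => Finset.card_pos.1 (by have := h.hypT.big e he; omega)) hp hd0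
    (fun e he hne => by
      have a1 := hd0 e he
      have a2 := ta_le_one (z := z) e (m + 1)
      have a3 : 0 < z.M m (m + 1) e - z.M m m e := lt_of_le_of_ne a1 (Ne.symm hne)
      have hc : z.cl e ≤ m := by
        by_contra hc
        exact hne (by simp [M, hc])
      have a4 : z.ta e m ≠ z.ta e (m + 1) := by
        intro a5
        exact hne (by simp [M, hc, a5])
      have a5 := h.room h3 he a4
      have a6 : z.M m (m + 1) e = z.ta e (m + 1) / z.D := if_pos hc
      refine ⟨by linarith, by linarith, ?_⟩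
      simp only [add_sub_cancel]
      linarith)
  refine ⟨p', inv_mono hp' (fun e _ => by ring) (fun e he => ?_) (fun e he => ?_) fun e => le_rfl⟩
  · have a1 := h.ta_mono he m
    have a2 := h.ta_step he m
    have a3 := hd0 e he
    have a4 : z.M m (m + 1) e - z.M m m e ≤ (z.ta e (m + 1) - z.ta e m) / z.D := by
      unfold M
      split_ifs
      · rw [sub_div]
      · simpa using div_nonneg (sub_nonneg.2 a1) hD.le
    by_cases hg : z.θ / 2 ≤ 1 - z.ta e (m + 1)
    · simp only [hg, decide_true, if_true]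
      have a5 := coin (half_pos hth) a1 a2 hg
      have a6 : (z.M m (m + 1) e - z.M m m e) /
          (z.M m (m + 1) e - z.M m m e + (1 - z.ta e (m + 1)) / 2) ≤
          (z.ta e (m + 1) - z.ta e m) / ((1 - z.ta e (m + 1)) / 2) / z.D := by
        rw [div_right_comm]
        exact div_le_div₀ (a3.trans a4) a4 (by linarith) (by linarith)
      have a7 := div_le_div_of_nonneg_right a5 hD.le
      unfold c
      rw [max_eq_left hg, max_eq_left (by linarith : z.θ / 2 ≤ 1 - z.ta e m)]
      refine (add_le_add_right (a6.trans a7) _).trans (le_of_eq ?_)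
      ring
    · simp only [hg, decide_false, Bool.false_eq_true, if_false, add_zero]
      unfold c
      refine div_le_div_of_nonneg_right ?_ hD.le
      have : Real.log (max (1 - z.ta e (m + 1)) (z.θ / 2)) ≤
          Real.log (max (1 - z.ta e m) (z.θ / 2)) :=
        Real.log_le_log (lt_max_of_lt_right (half_pos hth)) (max_le_max (by linarith) le_rfl)
      linarith
  · have a1 := h.ta_mono he m
    have a2 := h.ta_step he m
    have a4 : z.M m (m + 1) e - z.M m m e ≤ (z.ta e (m + 1) - z.ta e m) / z.D := by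
      unfold M
      split_ifs
      · rw [sub_div]
      · simpa using div_nonneg (sub_nonneg.2 a1) hD.le
    by_cases hg : z.θ / 2 ≤ 1 - z.ta e (m + 1)
    · simp only [hg, decide_true, if_true, add_zero]
      exact div_le_div_of_nonneg_right (max_le_max (by linarith) le_rfl) hD.le
    · simp only [hg, decide_false, Bool.false_eq_true, if_false]
      push Not at hg
      unfold b
      rw [max_eq_left (by linarith), max_eq_left (by linarith)]
      refine (add_le_add_right a4 _).trans (le_of_eq ?_)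
      ring

/-- a jump of one class -/
lemma Ok.jump1 (h : z.Ok) (h2 : StBlock) {m : ℕ} (hP : z.Cl m (m + 1)) (mu : Finset V → ℝ)
    (hmu : ∀ e ∈ z.T, mu e = if z.cl e = m + 1 then z.ta e (m + 1) / z.D else 0)
    (hs : ∀ e ∈ z.T, z.cl e = m + 1 → (lam e + 1) * (((m + 1 : ℕ) : ℝ) / z.n) ≤ 0.101)
    (hG : ∀ e, z.G (m + 1) e ≤ max (z.G m e) (gainF z.T mu e)) : z.Cl (m + 1) (m + 1) := by
  obtain ⟨p, hp⟩ := hP
  have hD := h.Dr
  have hD1 : (1 : ℝ) ≤ z.D := by exact_mod_cast h.Dpos
  have hM : ∀ e ∈ z.T, z.M m (m + 1) e + mu e = z.M (m + 1) (m + 1) e := by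
    intro e he
    rw [hmu e he]
    unfold M
    by_cases a1 : z.cl e ≤ m
    · rw [if_pos a1, if_neg (by omega), if_pos (by omega), add_zero]
    · by_cases a2 : z.cl e = m + 1
      · rw [if_neg a1, if_pos a2, if_pos (by omega), zero_add]
      · rw [if_neg a1, if_neg a2, if_neg (by omega), add_zero]
  have ht0 : (0 : ℝ) ≤ ((m + 1 : ℕ) : ℝ) / z.n := by positivity
  have hta : ∀ e ∈ z.T, z.cl e = m + 1 → z.ta e (m + 1) ≤ 0.101 := by
    intro e he a2
    have a3 := hs e he a2
    have a4 := ta_le (z := z) e (m + 1)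
    nlinarith
  obtain ⟨p', hp'⟩ := h2 V z.T p _ _ _ _ mu
    (fun e he => Finset.card_pos.1 (by have := h.hypT.big e he; omega)) hp
    (fun e he => by
      rw [hmu e he]
      split_ifs
      · exact div_nonneg (h.ta_nonneg he _) hD.le
      · exact le_rfl)
    (fun e he hne => by
      have a2 : z.cl e = m + 1 := by
        by_contra a2
        exact hne (by rw [hmu e he, if_neg a2])
      refine ⟨if_neg (by omega), ?_, ?_⟩
      · rw [hmu e he, if_pos a2, div_le_iff₀ hD]
        have := hta e he a2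
        nlinarith
      · rw [Finset.sum_congr (rfl : nbE z.T e = nbE z.T e)
          fun f hf => hM f (Finset.mem_filter.1 hf).1]
        refine (h.sumM_le he _ _).trans (le_trans ?_ (hs e he a2))
        have a3 := h.big he
        have a4 : ((z.D : ℝ) - 1 - lam e) / z.D ≤ 1 := by rw [div_le_one hD]; linarith
        have a5 : 0 ≤ (lam e + 1) * (((m + 1 : ℕ) : ℝ) / z.n) := by positivity
        calc _ = (lam e + 1) * (((m + 1 : ℕ) : ℝ) / z.n) * (((z.D : ℝ) - 1 - lam e) / z.D) := by
              ring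
          _ ≤ _ := by nlinarith)
  refine ⟨p', inv_mono hp' hM (fun e he => ?_) (fun e _ => le_rfl) hG⟩
  rw [hmu e he]
  unfold c
  by_cases a1 : z.cl e ≤ m
  · rw [if_pos a1, if_neg (by omega), if_pos (by omega), zero_div, add_zero]
  · by_cases a2 : z.cl e = m + 1
    · rw [if_neg a1, if_pos a2, if_pos (by omega), div_right_comm, ← add_div]
      refine div_le_div_of_nonneg_right ?_ hD.le
      have a3 := hta e he a2
      have a4 : z.ta e (m + 1) / 0.899 ≤ 1.2 := by
        rw [div_le_iff₀ (by norm_num)]; linarith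
      linarith
    · rw [if_neg a1, if_neg a2, if_neg (by omega), zero_div, add_zero]

lemma Ok.jump (h : z.Ok) (h2 : StBlock) {m : ℕ} (hP : z.Cl m (m + 1)) :
    z.Cl (m + 1) (m + 1) := by
  have hL := h.Lr
  have hS := h.Sr
  have b1 := h.mBpos
  have b2 := h.mBC
  have hS0 : (0 : ℝ) < z.S := by linarith
  have hL0 : (0 : ℝ) < z.Λ := by linarith
  by_cases hB : m + 1 = z.mB
  · have hcl : ∀ e : Finset V, z.cl e = m + 1 ↔
        8 * (z.Λ : ℝ) ≤ lam e ∧ lam e < 4 * (z.S : ℝ) := by
      intro e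
      unfold cl
      by_cases a1 : 4 * (z.S : ℝ) ≤ lam e
      · rw [if_pos a1]
        exact ⟨fun a => by omega, fun a => by linarith [a.2]⟩
      · rw [if_neg a1]
        by_cases a2 : 8 * (z.Λ : ℝ) ≤ lam e
        · rw [if_pos a2]
          exact ⟨fun _ => ⟨a2, not_le.1 a1⟩, fun _ => hB.symm⟩
        · rw [if_neg a2]
          exact ⟨fun a => by omega, fun a => absurd a.1 a2⟩
    have ht : (((m + 1 : ℕ) : ℝ) / z.n) = z.tB := by rw [hB]; exact h.tB_eq
    have hs : ∀ e : Finset V, z.cl e = m + 1 → (lam e + 1) * z.tB ≤ 0.101 := by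
      intro e a
      have := ((hcl e).1 a).2
      unfold tB
      rw [mul_one_div, div_le_iff₀ (by positivity)]
      linarith
    refine h.jump1 h2 hP (muB z.D z.Λ z.S z.tB) (fun e he => ?_)
      (fun e _ a => by rw [ht]; exact hs e a) fun e => ?_
    · unfold muB
      by_cases a : z.cl e = m + 1
      · rw [if_pos a, if_pos ((hcl e).1 a)]
        have a1 := hs e a
        have a2 : 0 ≤ z.tB := by unfold tB; positivity
        unfold ta
        rw [mul_div_assoc (lam e) _ (z.n : ℝ), ht, min_eq_left (by nlinarith)]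
      · rw [if_neg a, if_neg fun a' => a ((hcl e).2 a')]
    · unfold G
      rw [if_pos (by omega), if_neg (by omega)]
      exact max_le (le_max_of_le_left (le_max_left _ _))
        (max_le (le_max_right _ _) (le_max_of_le_left (le_max_left _ _)))
  by_cases hC : m + 1 = z.mC
  · have hcl : ∀ e : Finset V, z.cl e = m + 1 ↔ lam e < 8 * (z.Λ : ℝ) := by
      intro e
      unfold cl
      by_cases a1 : 4 * (z.S : ℝ) ≤ lam e
      · rw [if_pos a1]
        exact ⟨fun a => by omega, fun a => by linarith⟩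
      · rw [if_neg a1]
        by_cases a2 : 8 * (z.Λ : ℝ) ≤ lam e
        · rw [if_pos a2]
          exact ⟨fun a => by omega, fun a => by linarith⟩
        · rw [if_neg a2]
          exact ⟨fun _ => not_le.1 a2, fun _ => hC.symm⟩
    have ht : (((m + 1 : ℕ) : ℝ) / z.n) = z.tC := by rw [hC]; exact h.tC_eq
    have hs : ∀ e : Finset V, z.cl e = m + 1 → (lam e + 1) * z.tC ≤ 0.101 := by
      intro e a
      have := (hcl e).1 a
      unfold tC
      rw [mul_one_div, div_le_iff₀ (by positivity)]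
      linarith
    refine h.jump1 h2 hP (muC z.D z.Λ z.tC) (fun e he => ?_)
      (fun e _ a => by rw [ht]; exact hs e a) fun e => ?_
    · unfold muC
      by_cases a : z.cl e = m + 1
      · rw [if_pos a, if_pos ((hcl e).1 a)]
        have a1 := hs e a
        have a2 : 0 ≤ z.tC := by unfold tC; positivity
        unfold ta
        rw [mul_div_assoc (lam e) _ (z.n : ℝ), ht, min_eq_left (by nlinarith)]
      · rw [if_neg a, if_neg fun a' => a ((hcl e).2 a')]
    · unfold G
      rw [if_pos (by omega : z.mB ≤ m + 1), if_pos (by omega : z.mC ≤ m + 1),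
        if_pos (by omega : z.mB ≤ m)]
      exact max_le (le_max_of_le_left (le_max_left _ _))
        (max_le (le_max_of_le_left (le_max_of_le_right (le_max_left _ _))) (le_max_right _ _))
  have hcl : ∀ e : Finset V, z.cl e ≠ m + 1 := by
    intro e
    unfold cl
    split_ifs <;> omega
  refine h.jump1 h2 hP (fun _ => 0) (fun e _ => (if_neg (hcl e)).symm)
    (fun e _ a => absurd a (hcl e)) fun e => le_max_of_le_left (le_of_eq ?_)
  have e1 : z.mB ≤ m + 1 ↔ z.mB ≤ m := by omega
  have e2 : z.mC ≤ m + 1 ↔ z.mC ≤ m := by omega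
  simp only [G, e1, e2]

lemma Ok.all (h : z.Ok) (h1 : StRound) (h2 : StBlock) (h3 : StGainTop) (m : ℕ) : z.Cl m m := by
  induction m with
  | zero => exact h.start
  | succ m ih => exact h.jump h2 (h.flow h1 h3 ih)

lemma Ok.fin (h : z.Ok) (h4 : StGainObs) (hP : z.Cl z.n z.n) {L : ℝ}
    (hL : 2 + 4 * Real.log (2 / z.θ) ≤ L) : ∃ p, TopSpec z.B z.D z.Λ L z.θ p := by
  obtain ⟨p, hp⟩ := hP
  have hD := h.Dr
  have hn := h.nr
  have hth := h.th0
  have b1 := h.mBC
  have b2 := h.mCn
  have hcl : ∀ e : Finset V, z.cl e ≤ z.n := by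
    intro e
    unfold cl
    split_ifs <;> omega
  have hta : ∀ e ∈ z.T, z.ta e z.n = 1 := by
    intro e he
    have := h.big he
    unfold ta
    rw [mul_div_assoc, div_self hn.ne', mul_one]
    exact min_eq_right (by linarith)
  have hM : ∀ e ∈ z.T, Ex p (fun s => I (e ∈ s.1)) = 1 / z.D := by
    intro e he
    rw [hp.marg e he]
    unfold M
    rw [if_pos (hcl e), hta e he]
  refine ⟨p, hp.prob, hp.supp, hM, fun J hJ => ?_, fun e he => ?_, fun e he => ?_⟩
  · refine (hp.joint J hJ).trans ?_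
    rw [← Finset.prod_const]
    refine Finset.prod_le_prod (fun e he => hp.cnn e (hJ he)) fun e he => ?_
    unfold c
    rw [if_pos (hcl e), hta e (hJ he), sub_self, max_eq_right (half_pos hth).le]
    refine div_le_div_of_nonneg_right ?_ hD.le
    have : Real.log (2 / z.θ) = - Real.log (z.θ / 2) := by
      rw [← Real.log_inv, inv_div]
    linarith
  · refine (hp.bad e he).trans (le_of_eq ?_)
    unfold b
    rw [hta e he, sub_sub_cancel, max_eq_left hth.le]
  · have heT : e ∉ z.T := by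
      intro a
      have a1 := (Finset.mem_filter.1 a).2
      have a2 := (Finset.mem_filter.1 he).2
      omega
    have hL0 : (0 : ℝ) < z.Λ := by linarith [h.Lr]
    obtain ⟨a1, a2⟩ := h4 V z.B z.D z.Λ z.S z.tC h.hyp h.top
      (one_div_le_one_div_of_le (by positivity) (by linarith)) le_rfl e he
    have a3 : Ex p (fun s => I (avail e s)) =
        1 - ((nbE z.T e).card : ℝ) / z.D + Ex p (XX e) := by
      rw [Ex_congr fun s hs => avail_eq heT (hp.supp s hs).1.1, Ex_add, Ex_sub, Ex_const hp.prob,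
        Ex_sum, Finset.sum_congr (rfl : nbE z.T e = nbE z.T e)
          fun f hf => hM f (Finset.mem_filter.1 hf).1]
      simp only [Finset.sum_const, nsmul_eq_mul, mul_one_div]
    have a4 := hp.gain e
    have a5 := G_nonneg (z := z) z.n e
    have a6 : z.gC e ≤ z.G z.n e := by
      unfold G
      rw [if_pos b2]
      exact le_max_of_le_right (le_max_right _ _)
    rw [a3]
    unfold gC at a6
    unfold T at a4 a6 ⊢
    constructor <;> linarith

end Sch

end LTop

open LTop in
theorem top (h1 : StRound) (h2 : StBlock) (h3 : StGainTop) (h4 : StGainObs) : StTop := by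
  intro V _ _ B D Λ S L θ hyp hpar h0 hθ hL
  rcases Nat.eq_zero_or_pos D with hD | hD
  · have hB : B = ∅ := by
      refine Finset.eq_empty_of_forall_notMem fun e he => ?_
      have a1 := hyp.two_le_lam he
      have a2 := hyp.lam_le he
      rw [hD] at a2
      push_cast at a2
      linarith
    obtain ⟨p, hp⟩ := inv_zero (topE B Λ)
    subst hB
    refine ⟨p, hp.prob, hp.supp, ?_, fun J hJ => ?_, ?_, ?_⟩
    · intro e he; simp [topE] at he
    · have : J = ∅ := by simpa [topE] using hJ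
      subst this
      simpa using hp.joint ∅ (Finset.empty_subset _)
    · intro e he; simp [topE] at he
    · intro e he; simp [lowE] at he
  obtain ⟨N, hN⟩ := exists_nat_gt (2 * (D : ℝ) / θ)
  have hS : 0 < S := by
    have := hpar.hS
    rcases Nat.eq_zero_or_pos S with a | a
    · rw [a] at this; omega
    · exact a
  have hΛ : 0 < Λ := by have := hpar.h3; omega
  have hf : 0 < D.factorial := Nat.factorial_pos D
  let z : Sch V := ⟨B, D, Λ, S, θ, 40 * S * (80 * Λ * (D.factorial * (N + 1))),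
    80 * Λ * (D.factorial * (N + 1)), 40 * S * (D.factorial * (N + 1))⟩
  have hz : z.Ok := by
    refine ⟨hyp, hpar, h0, hθ, hD, by positivity, rfl, by simp only [z]; ring, fun e he => ?_, ?_⟩
    · have heB : e ∈ B := (Finset.mem_filter.1 he).1
      have a1 := hyp.big e heB
      have a2 := hyp.lam_le heB
      have a3 : e.card ≤ D := by
        unfold lam at a2
        have : (e.card : ℝ) ≤ D := by linarith
        exact_mod_cast this
      have a4 : (e.card - 1) ∣ D.factorial := Nat.dvd_factorial (by omega) (by omega)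
      exact Dvd.dvd.mul_left (Dvd.dvd.mul_left (Dvd.dvd.mul_right a4 _) _) _
    · have a1 : N + 1 ≤ 40 * S * (80 * Λ * (D.factorial * (N + 1))) :=
        Nat.le_mul_of_pos_left _ (by omega) |>.trans' <|
          Nat.le_mul_of_pos_left _ (by omega) |>.trans' <| Nat.le_mul_of_pos_left _ hf
      have a2 : ((N + 1 : ℕ) : ℝ) ≤ (z.n : ℝ) := by exact_mod_cast a1
      rw [div_lt_iff₀ h0] at hN
      push_cast at a2
      change 2 * (D : ℝ) ≤ θ * z.n
      nlinarith
  exact hz.fin h4 (hz.all h1 h2 h3 _) hL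

end Pool.Agent.P.MP_553766_co.Lg
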