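import Mathlib
import Pool.Agent.P.MP_553766_co.LGlue
import Pool.Agent.P.MP_553766_co.LTop
import Pool.Agent.P.MP_553766_co.LRound
import Pool.Agent.P.MP_553766_co.LGain
import Pool.Agent.P.MP_553766_co.LSurv
import Pool.Agent.P.MP_553766_co.LComb
import Pool.Agent.P.MP_553766_co.LLowLo
import Pool.Agent.P.MP_553766_co.LLow
import Pool.Agent.P.MP_553766_co.LTail
import Pool.Agent.P.MP_553766_co.LPar

set_option autoImplicit false

/-! The first stage. -/

namespace Pool.Agent.P.MP_553766_co.Lg

theorem one : StOne :=
  stOne (top round block gainTop gainObs) (low lowUp (ov surv tail) lowLo) comb par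

end Pool.Agent.P.MP_553766_co.Lg
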