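import Mathlib
import Pool.Agent.P.MP_553766_co.LSt3

set_option autoImplicit false
set_option linter.unusedSectionVars false

/-! The model second moment: main term, and facts on the quantities that occur in it. -/

namespace Pool.Agent.P.MP_553766_co.Lg

open Finset Pool.Agent.P.MP_553766_co

namespace LQm

variable {V : Type} [Fintype V] [DecidableEq V]

/-- small edges with at least two heavy points in W -/
noncomputable def E2 (d : Dat V) (W : Finset V) : Finset (Finset V) :=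
  d.sm.filter (fun e => 2 ≤ ((e ∩ W).filter (fun w => ¬ d.light w)).card)

/-- number of light points of an edge in W -/
noncomputable def nl (d : Dat V) (W e : Finset V) : ℝ :=
  (((e ∩ W).filter (fun w => d.light w)).card : ℝ)

/-- weight of the light points of an edge in W -/
noncomputable def ell (d : Dat V) (W : Finset V) (co : V → ℝ) (e : Finset V) : ℝ :=
  ∑ w ∈ (e ∩ W).filter (fun w => d.light w), co w

lemma split (d : Dat V) (W : Finset V) (g : Finset V → ℝ) :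
    ∑ e ∈ d.sm, g e = ∑ e ∈ d.E0 W, g e +
      ∑ a ∈ W.filter (fun w => ¬ d.light w), ∑ e ∈ d.E1 W a, g e + ∑ e ∈ E2 d W, g e := by
  unfold Dat.E0 Dat.E1 E2
  have h1 : ∑ a ∈ W.filter (fun w => ¬ d.light w),
      ∑ e ∈ d.sm.filter (fun e => (e ∩ W).filter (fun w => ¬ d.light w) = {a}), g e =
      ∑ e ∈ d.sm, ∑ a ∈ W.filter (fun w => ¬ d.light w),
        if (e ∩ W).filter (fun w => ¬ d.light w) = {a} then g e else 0 := by
    rw [Finset.sum_comm]
    exact Finset.sum_congr rfl fun a _ => Finset.sum_filter _ _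
  rw [h1, Finset.sum_filter (s := d.sm), Finset.sum_filter (s := d.sm),
    ← Finset.sum_add_distrib, ← Finset.sum_add_distrib]
  refine Finset.sum_congr rfl fun e _ => ?_
  set S := (e ∩ W).filter (fun w => ¬ d.light w) with hS
  have hsub : S ⊆ W.filter (fun w => ¬ d.light w) :=
    Finset.filter_subset_filter _ Finset.inter_subset_right
  rcases Nat.lt_or_ge S.card 2 with h2 | h2
  · rw [if_neg (not_le.2 h2)]
    rcases Nat.eq_zero_or_pos S.card with h3 | h3
    · have h4 : S = ∅ := Finset.card_eq_zero.1 h3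
      rw [if_pos h4, Finset.sum_eq_zero]
      · ring
      · intro a _
        rw [if_neg]
        rw [h4]; exact (Finset.singleton_ne_empty a).symm
    · obtain ⟨b, hb⟩ := Finset.card_eq_one.1 (show S.card = 1 by omega)
      rw [if_neg (by rw [hb]; exact Finset.singleton_ne_empty b), Finset.sum_eq_single b,
        if_pos hb]
      · ring
      · intro a _ hab
        rw [if_neg]
        rw [hb]; intro h5; exact hab (Finset.singleton_injective h5).symm
      · intro h5; exact absurd (hsub (by rw [hb]; exact Finset.mem_singleton_self b)) h5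
  · rw [if_pos h2, if_neg (by intro h5; rw [h5] at h2; simp at h2), Finset.sum_eq_zero]
    · ring
    · intro a _
      rw [if_neg]
      intro h5; rw [h5] at h2; simp at h2

lemma sm_B {d : Dat V} {e : Finset V} (he : e ∈ d.sm) : e ∈ d.B := (Finset.mem_filter.1 he).1
lemma sm_K {d : Dat V} {e : Finset V} (he : e ∈ d.sm) : (e.card : ℝ) ≤ d.K := by
  exact_mod_cast (Finset.mem_filter.1 he).2

lemma E1_mem {d : Dat V} {W : Finset V} {a : V} {e : Finset V} (he : e ∈ d.E1 W a) :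
    e ∈ d.sm ∧ a ∈ e ∧ a ∈ W ∧ ¬ d.light a := by
  obtain ⟨h1, h2⟩ := Finset.mem_filter.1 he
  have h3 : a ∈ (e ∩ W).filter (fun w => ¬ d.light w) := by
    rw [h2]; exact Finset.mem_singleton_self a
  obtain ⟨h4, h5⟩ := Finset.mem_filter.1 h3
  exact ⟨h1, (Finset.mem_inter.1 h4).1, (Finset.mem_inter.1 h4).2, h5⟩

lemma nl_nonneg (d : Dat V) (W e : Finset V) : 0 ≤ nl d W e := by unfold nl; positivity

lemma nl_le_card (d : Dat V) (W e : Finset V) : nl d W e ≤ e.card := by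
  unfold nl
  exact_mod_cast Finset.card_le_card ((Finset.filter_subset _ _).trans Finset.inter_subset_left)

lemma nl_le_lam {d : Dat V} {W : Finset V} {a : V} {e : Finset V} (he : e ∈ d.E1 W a) :
    nl d W e ≤ lam e := by
  obtain ⟨_, h2, _, h4⟩ := E1_mem he
  have h5 : (e ∩ W).filter (fun w => d.light w) ⊆ e.erase a := by
    intro w hw
    obtain ⟨h6, h7⟩ := Finset.mem_filter.1 hw
    exact Finset.mem_erase.2 ⟨fun h8 => h4 (h8 ▸ h7), (Finset.mem_inter.1 h6).1⟩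
  have h6 := Finset.card_le_card h5
  have h7 := Finset.card_erase_add_one h2
  have h8 : (((e ∩ W).filter (fun w => d.light w)).card : ℝ) + 1 ≤ e.card := by
    exact_mod_cast (by omega : ((e ∩ W).filter (fun w => d.light w)).card + 1 ≤ e.card)
  unfold nl lam; linarith

lemma ell_bounds {d : Dat V} {W : Finset V} {co : V → ℝ}
    (hc : ∀ w ∈ W, d.light w → 0 ≤ co w ∧ co w ≤ 1 + 3 * eps) (e : Finset V) :
    0 ≤ ell d W co e ∧ ell d W co e ≤ (1 + 3 * eps) * nl d W e := by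
  have h1 : ∀ w ∈ (e ∩ W).filter (fun w => d.light w), 0 ≤ co w ∧ co w ≤ 1 + 3 * eps := by
    intro w hw
    obtain ⟨h6, h7⟩ := Finset.mem_filter.1 hw
    exact hc w (Finset.mem_inter.1 h6).2 h7
  refine ⟨Finset.sum_nonneg fun w hw => (h1 w hw).1, ?_⟩
  have := Finset.sum_le_card_nsmul _ co (1 + 3 * eps) fun w hw => (h1 w hw).2
  rw [nsmul_eq_mul] at this
  unfold ell nl; linarith

lemma Lf_eq (d : Dat V) (W e : Finset V) : d.Lf W e = nl d W e * lam e / (2 * d.D) := rfl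

lemma mu_eq (d : Dat V) (W : Finset V) (co : V → ℝ) (a : V) :
    d.mu W co a = ∑ e ∈ d.E1 W a, ell d W co e / d.D := rfl

lemma Lf_nonneg {d : Dat V} (h : d.Ok) (W : Finset V) {e : Finset V} (he : e ∈ d.sm) :
    0 ≤ d.Lf W e := by
  have h1 := h.hyp.two_le_lam (sm_B he)
  have h2 := nl_nonneg d W e
  have h3 := h.D_pos
  rw [Lf_eq]
  exact div_nonneg (mul_nonneg h2 (by linarith)) (by linarith)

lemma sum_Lf {d : Dat V} (h : d.Ok) (W : Finset V) :
    ∑ e ∈ d.sm, d.Lf W e ≤ ∑ w ∈ W.filter (fun w => d.light w), d.A w / 2 := by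
  have hD := h.D_pos
  have h1 : ∀ e : Finset V, d.Lf W e =
      ∑ w ∈ W.filter (fun w => d.light w), if w ∈ e then lam e / (2 * d.D) else 0 := by
    intro e
    rw [← Finset.sum_filter, Finset.sum_const, nsmul_eq_mul, Lf_eq, nl, mul_div_assoc]
    congr 3
    ext w; simp only [Finset.mem_filter, Finset.mem_inter]; tauto
  simp only [h1]
  rw [Finset.sum_comm]
  refine Finset.sum_le_sum fun w _ => ?_
  rw [← Finset.sum_filter, ← Finset.sum_div]
  have h2 := h.sum_lam_le w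
  have h3 : ∑ e ∈ d.sm.filter (fun e => w ∈ e), lam e ≤ ∑ e ∈ d.B.filter (fun e => w ∈ e), lam e :=
    Finset.sum_le_sum_of_subset_of_nonneg
      (Finset.filter_subset_filter _ (Finset.filter_subset _ _))
      fun e he _ => by linarith [h.hyp.two_le_lam (Finset.mem_filter.1 he).1]
  rw [div_le_iff₀ hD] at h2
  rw [div_le_iff₀ (by linarith)]
  linarith

lemma eps_pos : 0 < eps := by unfold eps; norm_num

lemma mu_le_A {d : Dat V} (h : d.Ok) {W : Finset V} {co : V → ℝ}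
    (hc : ∀ w ∈ W, d.light w → 0 ≤ co w ∧ co w ≤ 1 + 3 * eps) (a : V) :
    d.mu W co a ≤ (1 + 3 * eps) * d.A a := by
  have hD := h.D_pos
  have he := eps_pos
  have h1 : d.mu W co a ≤ ∑ e ∈ d.E1 W a, (1 + 3 * eps) * (lam e / d.D) := by
    rw [mu_eq]
    refine Finset.sum_le_sum fun e hm => ?_
    rw [← mul_div_assoc]
    refine div_le_div_of_nonneg_right ?_ hD.le
    exact (ell_bounds hc e).2.trans (mul_le_mul_of_nonneg_left (nl_le_lam hm) (by linarith))
  rw [← Finset.mul_sum, ← Finset.sum_div] at h1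
  refine h1.trans (mul_le_mul_of_nonneg_left (le_trans ?_ (h.sum_lam_le a)) (by linarith))
  refine div_le_div_of_nonneg_right ?_ hD.le
  refine Finset.sum_le_sum_of_subset_of_nonneg (fun e hm => ?_)
    fun e he _ => by linarith [h.hyp.two_le_lam (Finset.mem_filter.1 he).1]
  exact Finset.mem_filter.2 ⟨sm_B (E1_mem hm).1, (E1_mem hm).2.1⟩

lemma mu_nonneg {d : Dat V} (h : d.Ok) {W : Finset V} {co : V → ℝ}
    (hc : ∀ w ∈ W, d.light w → 0 ≤ co w ∧ co w ≤ 1 + 3 * eps) (a : V) : 0 ≤ d.mu W co a := by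
  rw [mu_eq]
  exact Finset.sum_nonneg fun e _ => div_nonneg (ell_bounds hc e).1 h.D_pos.le

end LQm

open LQm

theorem qf : StQf := by
  intro V _ _ d h W co hc
  have hD := h.D_pos
  have he := eps_pos
  have h0 : 0 ≤ d.L0 W :=
    Finset.sum_nonneg fun e hm => Lf_nonneg h W (Finset.mem_filter.1 hm).1
  refine ⟨h0, ?_, fun a => ⟨?_, mu_nonneg h hc a, ?_, mu_le_A h hc a⟩⟩
  · have h1 := split d W (d.Lf W)
    have h2 := sum_Lf h W
    have h3 : 0 ≤ ∑ e ∈ E2 d W, d.Lf W e :=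
      Finset.sum_nonneg fun e hm => Lf_nonneg h W (Finset.mem_filter.1 hm).1
    unfold Dat.L0 Dat.La
    linarith
  · exact Finset.sum_nonneg fun e hm => Lf_nonneg h W (E1_mem hm).1
  · rw [mu_eq, Dat.La, Finset.mul_sum]
    refine Finset.sum_le_sum fun e hm => ?_
    have h1 := h.hyp.two_le_lam (sm_B (E1_mem hm).1)
    have h2 := nl_nonneg d W e
    have h3 := (ell_bounds hc e).2
    rw [Lf_eq, ← mul_div_assoc, div_le_div_iff₀ hD (by linarith)]
    have h4 : (1 + 3 * eps) * nl d W e * 2 ≤ (1 + 3 * eps) * (nl d W e * lam e) := by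
      have : 0 ≤ (1 + 3 * eps) * nl d W e := by positivity
      nlinarith
    nlinarith

namespace LQm

variable {V : Type} [Fintype V] [DecidableEq V]

lemma JJ_split (d : Dat V) (W : Finset V) (co : V → ℝ) (e : Finset V) :
    d.JJ W co e = ell d W co e + ∑ w ∈ (e ∩ W).filter (fun w => ¬ d.light w), co w := by
  unfold Dat.JJ ell
  rw [Finset.sum_filter_add_sum_filter_not]

lemma JJ_bounds {d : Dat V} {W : Finset V} {co : V → ℝ} (hc : ∀ w ∈ W, 0 ≤ co w ∧ co w ≤ 5)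
    {e : Finset V} (he : e ∈ d.sm) : 0 ≤ d.JJ W co e ∧ d.JJ W co e ≤ 5 * d.K := by
  have h1 : ∀ w ∈ e ∩ W, 0 ≤ co w ∧ co w ≤ 5 := fun w hw => hc w (Finset.mem_inter.1 hw).2
  refine ⟨Finset.sum_nonneg fun w hw => (h1 w hw).1, ?_⟩
  have h2 := Finset.sum_le_card_nsmul _ co 5 fun w hw => (h1 w hw).2
  rw [nsmul_eq_mul] at h2
  have h3 : ((e ∩ W).card : ℝ) ≤ e.card := by
    exact_mod_cast Finset.card_le_card Finset.inter_subset_left
  have h4 := sm_K he
  unfold Dat.JJ; linarith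

/-- at most one edge through two points -/
lemma card_two {d : Dat V} (h : d.Ok) {a b : V} (hab : a ≠ b) :
    (d.sm.filter (fun e => a ∈ e ∧ b ∈ e)).card ≤ 1 := by
  refine Finset.card_le_one.2 fun e he f hf => ?_
  obtain ⟨h1, h2, h3⟩ := Finset.mem_filter.1 he
  obtain ⟨h4, h5, h6⟩ := Finset.mem_filter.1 hf
  exact h.hyp.eq_of_two (sm_B h1) (sm_B h4) hab h2 h3 h5 h6

lemma card_E2 {d : Dat V} (h : d.Ok) (W : Finset V) :
    (E2 d W).card ≤ (W.filter (fun w => ¬ d.light w)).card ^ 2 := by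
  set H := W.filter (fun w => ¬ d.light w) with hH
  have h1 : E2 d W ⊆ H.biUnion fun a => (H.erase a).biUnion fun b =>
      d.sm.filter (fun e => a ∈ e ∧ b ∈ e) := by
    intro e he
    obtain ⟨h2, h3⟩ := Finset.mem_filter.1 he
    obtain ⟨a, ha, b, hb, hab⟩ := Finset.one_lt_card.1 (lt_of_lt_of_le (by norm_num) h3)
    obtain ⟨h4, h5⟩ := Finset.mem_filter.1 ha
    obtain ⟨h6, h7⟩ := Finset.mem_filter.1 hb
    refine Finset.mem_biUnion.2 ⟨a, Finset.mem_filter.2 ⟨(Finset.mem_inter.1 h4).2, h5⟩,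
      Finset.mem_biUnion.2 ⟨b, Finset.mem_erase.2 ⟨hab.symm,
        Finset.mem_filter.2 ⟨(Finset.mem_inter.1 h6).2, h7⟩⟩, Finset.mem_filter.2
          ⟨h2, (Finset.mem_inter.1 h4).1, (Finset.mem_inter.1 h6).1⟩⟩⟩
  refine (Finset.card_le_card h1).trans ?_
  rw [sq]
  refine Finset.card_biUnion_le_card_mul _ _ _ fun a _ => ?_
  refine (Finset.card_biUnion_le_card_mul _ _ 1 fun b hb => ?_).trans ?_
  · exact card_two h (Finset.mem_erase.1 hb).1.symm
  · rw [mul_one]; exact Finset.card_erase_le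

lemma card_E1_ge {d : Dat V} (h : d.Ok) (W : Finset V) {a : V} (ha : a ∈ W)
    (hl : ¬ d.light a) : (d.sm.filter (fun e => a ∈ e)).card ≤
      (d.E1 W a).card + (W.filter (fun w => ¬ d.light w)).card := by
  set H := W.filter (fun w => ¬ d.light w) with hH
  have h1 : d.sm.filter (fun e => a ∈ e) ⊆ d.E1 W a ∪ (H.erase a).biUnion fun b =>
      d.sm.filter (fun e => a ∈ e ∧ b ∈ e) := by
    intro e he
    obtain ⟨h2, h3⟩ := Finset.mem_filter.1 he
    by_cases h4 : ∃ b ∈ H.erase a, b ∈ e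
    · obtain ⟨b, hb, h5⟩ := h4
      exact Finset.mem_union_right _
        (Finset.mem_biUnion.2 ⟨b, hb, Finset.mem_filter.2 ⟨h2, h3, h5⟩⟩)
    · refine Finset.mem_union_left _ (Finset.mem_filter.2 ⟨h2, ?_⟩)
      refine Finset.eq_singleton_iff_unique_mem.2
        ⟨Finset.mem_filter.2 ⟨Finset.mem_inter.2 ⟨h3, ha⟩, hl⟩, fun b hb => ?_⟩
      obtain ⟨h5, h6⟩ := Finset.mem_filter.1 hb
      by_contra h7
      exact h4 ⟨b, Finset.mem_erase.2 ⟨h7, Finset.mem_filter.2 ⟨(Finset.mem_inter.1 h5).2, h6⟩⟩,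
        (Finset.mem_inter.1 h5).1⟩
  refine (Finset.card_le_card h1).trans ((Finset.card_union_le _ _).trans ?_)
  refine Nat.add_le_add_left ?_ _
  refine (Finset.card_biUnion_le_card_mul _ _ 1 fun b hb => ?_).trans ?_
  · exact card_two h (Finset.mem_erase.1 hb).1.symm
  · rw [mul_one]; exact Finset.card_erase_le

lemma card_E1_le {d : Dat V} (W : Finset V) (a : V) : ((d.E1 W a).card : ℝ) / d.D ≤ d.pv a := by
  unfold Dat.pv
  refine div_le_div_of_nonneg_right ?_ (Nat.cast_nonneg _)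
  exact_mod_cast Finset.card_le_card fun e he =>
    Finset.mem_filter.2 ⟨sm_B (E1_mem he).1, (E1_mem he).2.1⟩

/-- the negative terms inside one class -/
lemma neg_ge {d : Dat V} (h : d.Ok) (W : Finset V) (a : V) (J : Finset V → ℝ)
    (hJ : ∀ e ∈ d.sm, 0 ≤ J e) :
    (∑ e ∈ d.E1 W a, J e / d.D) ^ 2 - ∑ e ∈ d.E1 W a, (J e / d.D) ^ 2 ≤
      ∑ e ∈ d.E1 W a, ∑ f ∈ d.sm.filter (fun f => f ≠ e ∧ ¬ Disjoint e f),
        J e * J f / (d.D : ℝ) ^ 2 := by
  have hD := h.D_pos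
  rw [sq, Finset.sum_mul, ← Finset.sum_sub_distrib]
  refine Finset.sum_le_sum fun e he => ?_
  have h1 : J e / d.D * ∑ f ∈ d.E1 W a, J f / d.D - (J e / d.D) ^ 2 =
      ∑ f ∈ (d.E1 W a).erase e, J e * J f / (d.D : ℝ) ^ 2 := by
    rw [← Finset.add_sum_erase _ _ he, mul_add, sq, add_sub_cancel_left, Finset.mul_sum]
    refine Finset.sum_congr rfl fun f _ => ?_
    field_simp
  rw [h1]
  refine Finset.sum_le_sum_of_subset_of_nonneg (fun f hf => ?_) fun f hf _ => ?_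
  · obtain ⟨h2, h3⟩ := Finset.mem_erase.1 hf
    exact Finset.mem_filter.2 ⟨(E1_mem h3).1, h2,
      Finset.not_disjoint_iff.2 ⟨a, (E1_mem he).2.1, (E1_mem h3).2.1⟩⟩
  · exact div_nonneg (mul_nonneg (hJ e (E1_mem he).1) (hJ f (Finset.mem_filter.1 hf).1))
      (by positivity)

/-- the class without heavy points -/
lemma E0_le {d : Dat V} (h : d.Ok) {W : Finset V} {co : V → ℝ}
    (hc : ∀ w ∈ W, d.light w → 0 ≤ co w ∧ co w ≤ 1 + 3 * eps) :
    ∑ e ∈ d.E0 W, d.JJ W co e * d.JJ W co e / d.D ≤ 3 * (1 + 3 * eps) ^ 2 * d.L0 W := by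
  have hD := h.D_pos
  rw [Dat.L0, Finset.mul_sum]
  refine Finset.sum_le_sum fun e he => ?_
  obtain ⟨h1, h2⟩ := Finset.mem_filter.1 he
  rw [JJ_split, h2, Finset.sum_empty, add_zero, Lf_eq, ← mul_div_assoc,
    div_le_div_iff₀ hD (by linarith)]
  obtain ⟨h3, h4⟩ := ell_bounds hc e
  have h5 := nl_nonneg d W e
  have h6 := nl_le_card d W e
  have h7 := h.hyp.two_le_lam (sm_B h1)
  have h8 : 2 * nl d W e ≤ 3 * lam e := by unfold lam at *; linarith
  have h9 : ell d W co e * ell d W co e ≤ ((1 + 3 * eps) * nl d W e) ^ 2 := by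
    rw [← sq]; exact pow_le_pow_left₀ h3 h4 2
  have h10 : nl d W e * (2 * nl d W e) ≤ nl d W e * (3 * lam e) :=
    mul_le_mul_of_nonneg_left h8 h5
  have h11 : (1 + 3 * eps) ^ 2 * (nl d W e * (2 * nl d W e)) ≤
      (1 + 3 * eps) ^ 2 * (nl d W e * (3 * lam e)) :=
    mul_le_mul_of_nonneg_left h10 (by positivity)
  have h12 : ell d W co e * ell d W co e * 2 ≤ 3 * (1 + 3 * eps) ^ 2 * (nl d W e * lam e) := by
    nlinarith
  nlinarith

/-- the class with two heavy points -/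
lemma E2_le {d : Dat V} (h : d.Ok) {W : Finset V} {co : V → ℝ}
    (hc : ∀ w ∈ W, 0 ≤ co w ∧ co w ≤ 5) :
    ∑ e ∈ E2 d W, d.JJ W co e * d.JJ W co e / d.D ≤
      ((W.filter (fun w => ¬ d.light w)).card : ℝ) ^ 2 * (25 * (d.K : ℝ) ^ 2 / d.D) := by
  have hD := h.D_pos
  have h1 := Finset.sum_le_card_nsmul (E2 d W) (fun e => d.JJ W co e * d.JJ W co e / d.D)
    (25 * (d.K : ℝ) ^ 2 / d.D) fun e he => by
      obtain ⟨h2, h3⟩ := JJ_bounds hc (Finset.mem_filter.1 he).1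
      refine div_le_div_of_nonneg_right ?_ hD.le
      nlinarith
  rw [nsmul_eq_mul] at h1
  refine h1.trans (mul_le_mul_of_nonneg_right ?_ (by positivity))
  exact_mod_cast card_E2 h W

/-- the class of one heavy point -/
lemma E1_le {d : Dat V} (h : d.Ok) {W : Finset V} {co : V → ℝ}
    (hc : ∀ w ∈ W, 0 ≤ co w ∧ co w ≤ 5)
    (hc' : ∀ w ∈ W, d.light w → 0 ≤ co w ∧ co w ≤ 1 + 3 * eps) {a : V} (ha : a ∈ W)
    (hl : ¬ d.light a) :
    ∑ e ∈ d.E1 W a, d.JJ W co e * d.JJ W co e / d.D -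
      ((∑ e ∈ d.E1 W a, d.JJ W co e / d.D) ^ 2 - ∑ e ∈ d.E1 W a, (d.JJ W co e / d.D) ^ 2) ≤
      d.Va W co a + (25 * (d.K : ℝ) ^ 2 / d.D +
        11 * (1 / d.K + ((W.filter (fun w => ¬ d.light w)).card : ℝ) / d.D)) := by
  have hD := h.D_pos
  have hK := h.good.K_pos
  have he := eps_pos
  set p1 : ℝ := ((d.E1 W a).card : ℝ) / d.D with hp1
  have hJ : ∀ e ∈ d.E1 W a, d.JJ W co e = ell d W co e + co a := by
    intro e hm
    rw [JJ_split, (Finset.mem_filter.1 hm).2, Finset.sum_singleton]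
  have s1 : ∑ e ∈ d.E1 W a, d.JJ W co e / d.D = d.mu W co a + co a * p1 := by
    rw [Finset.sum_congr rfl fun e hm => by rw [hJ e hm, add_div], Finset.sum_add_distrib,
      Finset.sum_const, nsmul_eq_mul, mu_eq, hp1]
    ring
  have s2 : ∑ e ∈ d.E1 W a, d.JJ W co e * d.JJ W co e / d.D =
      ∑ e ∈ d.E1 W a, ell d W co e ^ 2 / d.D + 2 * co a * d.mu W co a + co a ^ 2 * p1 := by
    have : ∀ e ∈ d.E1 W a, d.JJ W co e * d.JJ W co e / d.D =
        ell d W co e ^ 2 / d.D + 2 * co a * (ell d W co e / d.D) + co a ^ 2 / d.D := by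
      intro e hm
      rw [hJ e hm]; ring
    rw [Finset.sum_congr rfl this, Finset.sum_add_distrib, Finset.sum_add_distrib,
      Finset.sum_const, nsmul_eq_mul, ← Finset.mul_sum, mu_eq, hp1]
    ring
  have s3 : ∑ e ∈ d.E1 W a, ell d W co e ^ 2 / d.D ≤ 2 * (1 + 3 * eps) ^ 2 * d.La W a := by
    rw [Dat.La, Finset.mul_sum]
    refine Finset.sum_le_sum fun e hm => ?_
    obtain ⟨h3, h4⟩ := ell_bounds hc' e
    have h5 := nl_nonneg d W e
    have h6 := nl_le_lam hm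
    have h9 : ell d W co e ^ 2 ≤ ((1 + 3 * eps) * nl d W e) ^ 2 := pow_le_pow_left₀ h3 h4 2
    have h10 : nl d W e * nl d W e ≤ nl d W e * lam e := mul_le_mul_of_nonneg_left h6 h5
    have h11 : (1 + 3 * eps) ^ 2 * (nl d W e * nl d W e) ≤
        (1 + 3 * eps) ^ 2 * (nl d W e * lam e) := mul_le_mul_of_nonneg_left h10 (by positivity)
    have h12 : 2 * (1 + 3 * eps) ^ 2 * d.Lf W e =
        (1 + 3 * eps) ^ 2 * (nl d W e * lam e) / d.D := by
      rw [Lf_eq]; field_simp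
    rw [h12]
    refine div_le_div_of_nonneg_right ?_ hD.le
    nlinarith
  have hp2 : p1 ≤ d.pv a := card_E1_le W a
  have hp3 := h.pv_lt_half a
  have hp0 : 0 ≤ p1 := by positivity
  have s4 : ∑ e ∈ d.E1 W a, (d.JJ W co e / d.D) ^ 2 ≤ 25 * (d.K : ℝ) ^ 2 / d.D := by
    have h1 := Finset.sum_le_card_nsmul (d.E1 W a) (fun e => (d.JJ W co e / d.D) ^ 2)
      ((5 * (d.K : ℝ) / d.D) ^ 2) fun e hm => by
        obtain ⟨h2, h3⟩ := JJ_bounds hc (E1_mem hm).1
        exact pow_le_pow_left₀ (div_nonneg h2 hD.le) (div_le_div_of_nonneg_right h3 hD.le) 2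
    rw [nsmul_eq_mul] at h1
    have h2 : ((d.E1 W a).card : ℝ) * (5 * (d.K : ℝ) / d.D) ^ 2 =
        p1 * (25 * (d.K : ℝ) ^ 2 / d.D) := by
      rw [hp1]; field_simp; norm_num
    have h3 : 0 ≤ 25 * (d.K : ℝ) ^ 2 / d.D := by positivity
    nlinarith
  have s5 : d.pv a - p1 ≤ 1 / d.K + ((W.filter (fun w => ¬ d.light w)).card : ℝ) / d.D := by
    have h1 := h.pv_sub_ps_le a
    have h2 : d.A a / d.K ≤ 1 / d.K := div_le_div_of_nonneg_right (h.A_lt_one a).le hK.le
    have h3 : d.ps a ≤ p1 + ((W.filter (fun w => ¬ d.light w)).card : ℝ) / d.D := by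
      rw [hp1, ← add_div, Dat.ps]
      refine div_le_div_of_nonneg_right ?_ hD.le
      exact_mod_cast card_E1_ge h W ha hl
    linarith
  have m0 := mu_nonneg h hc' a
  have m1 : d.mu W co a ≤ 1.1 := by
    have h1 := mu_le_A h hc' a
    have h2 := h.A_lt_one a
    have h3 := h.A_nonneg a
    unfold eps at h1; nlinarith
  obtain ⟨c0, c5⟩ := hc a ha
  have t1 : co a ^ 2 * (p1 * (1 - p1)) ≤ co a ^ 2 * (d.pv a * (1 - d.pv a)) :=
    mul_le_mul_of_nonneg_left (by nlinarith) (by positivity)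
  have t2 : 2 * co a * d.mu W co a ≤ 11 := by nlinarith
  have t3 : 2 * co a * d.mu W co a * (d.pv a - p1) ≤ 11 * (d.pv a - p1) :=
    mul_le_mul_of_nonneg_right t2 (by linarith)
  rw [s1, s2]
  unfold Dat.Va
  nlinarith

lemma err_le {d : Dat V} (h : d.Ok) (r : ℝ) (hr0 : 0 ≤ r) (hr : r * eps ≤ d.A0) :
    r ^ 2 * (25 * (d.K : ℝ) ^ 2 / d.D) + r * (25 * (d.K : ℝ) ^ 2 / d.D +
      11 * (1 / d.K + r / d.D)) ≤ tau1 / 10 := by
  have hD := h.D_pos
  have hK := h.good.K_pos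
  have hK1 : (1 : ℝ) ≤ d.K := le_trans (by norm_num) h.good.K_ge
  have hA := h.good.A1
  have h2 := h.good.g2
  have h3 := h.good.g3
  have hr1 : r ≤ 10 ^ 7 * d.A0 := by unfold eps at hr; linarith
  have hr2 : r ^ 2 ≤ 10 ^ 14 * d.A0 ^ 2 := by
    have := pow_le_pow_left₀ hr0 hr1 2
    nlinarith
  have hr3 : r ≤ 10 ^ 14 * d.A0 ^ 2 := by nlinarith
  have h4 : d.A0 ^ 2 * ((d.K : ℝ) ^ 2 / d.D) ≤ tau := by
    rw [← mul_div_assoc, div_le_iff₀ hD]; linarith
  have h5 : 0 ≤ (d.K : ℝ) ^ 2 / d.D := by positivity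
  have e1 : r ^ 2 * ((d.K : ℝ) ^ 2 / d.D) ≤ 10 ^ 14 * tau := by
    have := mul_le_mul_of_nonneg_right hr2 h5
    nlinarith
  have e2 : r * ((d.K : ℝ) ^ 2 / d.D) ≤ 10 ^ 14 * tau := by
    have := mul_le_mul_of_nonneg_right hr3 h5
    nlinarith
  have e3 : r * (1 / d.K) ≤ 10 ^ 7 * tau := by
    rw [mul_one_div, div_le_iff₀ hK]; linarith
  have e4 : r * (r / d.D) ≤ 10 ^ 14 * tau := by
    refine le_trans ?_ e1
    have h6 : 1 / (d.D : ℝ) ≤ (d.K : ℝ) ^ 2 / d.D :=
      div_le_div_of_nonneg_right (one_le_pow₀ hK1) hD.le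
    have h7 := mul_le_mul_of_nonneg_left h6 (sq_nonneg r)
    have h8 : r * (r / d.D) = r ^ 2 * (1 / d.D) := by ring
    linarith
  have e5 : r ^ 2 * (25 * (d.K : ℝ) ^ 2 / d.D) + r * (25 * (d.K : ℝ) ^ 2 / d.D +
      11 * (1 / d.K + r / d.D)) = 25 * (r ^ 2 * ((d.K : ℝ) ^ 2 / d.D)) +
      25 * (r * ((d.K : ℝ) ^ 2 / d.D)) + 11 * (r * (1 / d.K)) + 11 * (r * (r / d.D)) := by ring
  rw [e5]
  unfold tau at *
  unfold tau1
  linarith

end LQm

theorem qm : StQm := by
  intro V _ _ d h W co hW hc hl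
  have hD := h.D_pos
  have hc' : ∀ w ∈ W, d.light w → 0 ≤ co w ∧ co w ≤ 1 + 3 * eps :=
    fun w hw h1 => ⟨(hc w hw).1, hl w hw h1⟩
  have hJ : ∀ e ∈ d.sm, 0 ≤ d.JJ W co e := fun e he => (JJ_bounds hc he).1
  have h1 := split d W (fun e => d.JJ W co e * d.JJ W co e / d.D)
  have h2 := split d W (fun e => ∑ f ∈ d.sm.filter (fun f => f ≠ e ∧ ¬ Disjoint e f),
    d.JJ W co e * d.JJ W co f / (d.D : ℝ) ^ 2)
  have h3 : ∀ e ∈ d.sm, 0 ≤ ∑ f ∈ d.sm.filter (fun f => f ≠ e ∧ ¬ Disjoint e f),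
      d.JJ W co e * d.JJ W co f / (d.D : ℝ) ^ 2 := fun e he =>
    Finset.sum_nonneg fun f hf =>
      div_nonneg (mul_nonneg (hJ e he) (hJ f (Finset.mem_filter.1 hf).1)) (by positivity)
  have h4 := Finset.sum_nonneg (s := d.E0 W) fun e he => h3 e (Finset.mem_filter.1 he).1
  have h5 := Finset.sum_nonneg (s := E2 d W) fun e he => h3 e (Finset.mem_filter.1 he).1
  have h6 := Finset.sum_le_sum (s := W.filter (fun w => ¬ d.light w))
    fun a _ => neg_ge h W a (d.JJ W co) hJ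
  have h7 := Finset.sum_le_sum (s := W.filter (fun w => ¬ d.light w))
    fun a ha => E1_le h hc hc' (Finset.mem_filter.1 ha).1 (Finset.mem_filter.1 ha).2
  rw [Finset.sum_sub_distrib, Finset.sum_add_distrib, Finset.sum_const, nsmul_eq_mul] at h7
  have h8 := E0_le h hc'
  have h9 := E2_le h hc
  have h10 := err_le h ((W.filter (fun w => ¬ d.light w)).card : ℝ) (Nat.cast_nonneg _)
    ((h.card_heavy_le W).trans hW)
  unfold Dat.Qm
  linarith

end Pool.Agent.P.MP_553766_co.Lg
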