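import Mathlib
import Pool.Agent.P.MP_553766_co.LSt3

set_option autoImplicit false
set_option linter.unusedSectionVars false

/-! Reduction of the cut condition of a light point to pointwise inequalities. -/

namespace Pool.Agent.P.MP_553766_co.Lg

open Finset Pool.Agent.P.MP_553766_co

namespace LRed

variable {V : Type} [Fintype V] [DecidableEq V] {d : Dat V}

lemma card_nb_split {u : V} {W : Finset V} (hW : W ⊆ d.nb u) :
    ((d.nb u).card : ℝ) = W.card + d.out u W := by
  unfold Dat.out
  rw [← Nat.cast_add, add_comm, Finset.card_sdiff_add_card_eq_card hW]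

lemma out_nonneg (u : V) (W : Finset V) : 0 ≤ d.out u W := by
  unfold Dat.out; positivity

lemma I_free_and {u w : V} {ω : Om V} (hf : d.free ω u) :
    I (d.free ω u ∧ d.free ω w) = I (d.free ω w) :=
  I_congr ⟨fun h => h.2, fun h => ⟨hf, h⟩⟩

lemma I_and_free {u w : V} {ω : Om V} (hf : d.free ω u) :
    I (d.free ω w ∧ d.free ω u) = I (d.free ω w) :=
  I_congr ⟨fun h => h.1, fun h => ⟨h, hf⟩⟩

lemma PP_ge (h : d.Ok) {u : V} {W : Finset V} (hu : d.light u) (hW : W ⊆ d.nb u) {ω : Om V}
    (hf : d.free ω u) :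
    d.Zp u W ω + (d.gam u + 0.49 * d.out u W - d.noise u ω) ≤ d.PP u W ω := by
  have hg := h.one_le_inv u
  set g := 1 / (1 - d.pv u) with hgdef
  have e1 : ∑ w ∈ d.nL u, d.cap w u ω =
      ∑ w ∈ d.nL u, I (d.free ω w) * d.nu w u + ∑ w ∈ d.nL u, I (d.free ω w) * d.eb u +
        d.noise u ω := by
    unfold Dat.noise
    rw [← Finset.sum_add_distrib, ← Finset.sum_add_distrib]
    refine Finset.sum_congr rfl fun w hw => ?_
    have hw' : d.light w := (Finset.mem_filter.1 hw).2
    unfold Dat.cap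
    rw [if_pos hw', if_pos hu, I_and_free hf]; ring
  have e2 : ∑ w ∈ d.nL u, I (d.free ω w) * d.eb u ≤ ((d.nL u).card : ℝ) * d.eb u := by
    rw [← nsmul_eq_mul, ← Finset.sum_const]
    refine Finset.sum_le_sum fun w _ => ?_
    have := I_le_one (d.free ω w)
    have := h.eb_nonneg u
    nlinarith
  have e3 : ∑ w ∈ d.nL u, I (d.free ω w) * d.nu w u ≤
      ∑ w ∈ W, I (d.free ω w) * (d.nn u w - d.nv u w) + 0.51 * d.out u W := by
    have s1 : d.nL u = W.filter (fun w => d.light w) ∪ (d.nb u \ W).filter (fun w => d.light w) := by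
      rw [← Finset.filter_union, Finset.union_sdiff_of_subset hW]; rfl
    have s2 : Disjoint (W.filter (fun w => d.light w))
        ((d.nb u \ W).filter (fun w => d.light w)) :=
      Finset.disjoint_filter_filter Finset.disjoint_sdiff
    rw [s1, Finset.sum_union s2]
    refine add_le_add (le_of_eq ?_) ?_
    · rw [Finset.sum_filter]
      refine Finset.sum_congr rfl fun w _ => ?_
      unfold Dat.nv
      by_cases hw : d.light w
      · rw [if_pos hw, if_pos ⟨hu, hw⟩, ← h.nu_add u w]; ring
      · rw [if_neg hw, if_neg (fun hh => hw hh.2)]; ring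
    · unfold Dat.out
      calc ∑ w ∈ (d.nb u \ W).filter (fun w => d.light w), I (d.free ω w) * d.nu w u
          ≤ ∑ w ∈ (d.nb u \ W).filter (fun w => d.light w), (0.51 : ℝ) := by
            refine Finset.sum_le_sum fun w hw => ?_
            have hw' : d.light w := (Finset.mem_filter.1 hw).2
            have h1 := h.nu_le hw' u
            have h2 := I_le_one (d.free ω w)
            have h3 := I_nonneg (d.free ω w)
            nlinarith
        _ ≤ 0.51 * ((d.nb u \ W).card : ℝ) := by
            rw [Finset.sum_const, nsmul_eq_mul, mul_comm]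
            exact mul_le_mul_of_nonneg_left (by exact_mod_cast Finset.card_filter_le _ _)
              (by norm_num)
  have e4 : d.Zp u W ω = W.card * g - ∑ w ∈ W, I (d.free ω w) * d.nn u w := by
    unfold Dat.Zp
    rw [Finset.sum_sub_distrib, Finset.sum_const, nsmul_eq_mul]
    congr 1
    exact Finset.sum_congr rfl fun w _ => mul_comm _ _
  have e5 : ∑ w ∈ W, I (d.free ω w) * (d.nn u w - d.nv u w) =
      ∑ w ∈ W, I (d.free ω w) * d.nn u w - d.nom u W ω := by
    unfold Dat.nom
    rw [← Finset.sum_sub_distrib]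
    exact Finset.sum_congr rfl fun w _ => by ring
  have e6 : d.gam u = d.D - (W.card + d.out u W) * g - ((d.nL u).card : ℝ) * d.eb u := by
    unfold Dat.gam
    rw [card_nb_split hW, hgdef]; ring
  have e7 : d.PP u W ω = d.D - ∑ w ∈ d.nL u, d.cap w u ω - d.nom u W ω := by
    unfold Dat.PP Dat.pool
    rw [Dat.in_light hu]
  have ho := out_nonneg (d := d) u W
  have e8 : d.out u W ≤ d.out u W * g := by nlinarith
  rw [e7, e1, e4, e6]
  rw [e5] at e3
  linarith

lemma QQ_eq {u : V} {W : Finset V} (hu : d.light u) {ω : Om V} (hf : d.free ω u) :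
    d.QQ u W ω = ∑ w ∈ W, I (d.free ω w) * (d.chi u w - d.nn u w) + d.Xi u W ω := by
  unfold Dat.QQ Dat.nom Dat.Xi
  rw [Finset.sum_filter, ← Finset.sum_sub_distrib, ← Finset.sum_add_distrib]
  refine Finset.sum_congr rfl fun w _ => ?_
  unfold Dat.cap Dat.nv Dat.chi
  rw [if_pos hu, I_free_and hf]
  by_cases hw : d.light w
  · simp only [if_pos hw, if_pos (And.intro hu hw)]; ring
  · simp only [if_neg hw, if_neg (fun hh : d.light u ∧ d.light w => hw hh.2)]; ring

lemma Zp_add_YY (u : V) (W : Finset V) (ω : Om V) :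
    d.Zp u W ω + d.YY u W (d.chi u) ω = ∑ w ∈ W, I (d.free ω w) * (d.chi u w - d.nn u w) := by
  unfold Dat.Zp Dat.YY
  rw [← Finset.sum_add_distrib]
  exact Finset.sum_congr rfl fun w _ => by ring

lemma T_real {a b n : ℝ} (ha : 0 ≤ a) (hb : 0 ≤ b) (ha1 : a ≤ 1 / 100) (hb1 : b ≤ 1 / 100)
    (hn1 : 1 ≤ n) (hn2 : n ≤ 2 / (2 - a - b)) :
    n * ((a - b) / (2 - a - b)) + b / 2 ≤ a / 2 + 3 * a ^ 2 / 4 := by
  have hs : 0 < 2 - a - b := by linarith
  rcases le_total b a with hab | hab
  · have h1 : 0 ≤ (a - b) / (2 - a - b) := div_nonneg (by linarith) hs.le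
    have h2 : n * ((a - b) / (2 - a - b)) ≤ 2 / (2 - a - b) * ((a - b) / (2 - a - b)) :=
      mul_le_mul_of_nonneg_right hn2 h1
    have h3 : 2 / (2 - a - b) * ((a - b) / (2 - a - b)) ≤
        (a - b) / 2 * (1 + (a + b) + (a + b) ^ 2) := by
      rw [div_mul_div_comm, div_le_iff₀ (mul_pos hs hs)]
      have h4 : 4 ≤ (1 + (a + b) + (a + b) ^ 2) * ((2 - a - b) * (2 - a - b)) := by
        have h5 : 0 ≤ (a + b) ^ 2 * (1 - 3 * (a + b) + (a + b) ^ 2) :=
          mul_nonneg (sq_nonneg _) (by nlinarith)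
        nlinarith
      have h6 : 0 ≤ a - b := by linarith
      nlinarith
    have h7 : (a - b) * (a + b) ^ 2 ≤ a * (2 * a) ^ 2 :=
      mul_le_mul (by linarith) (pow_le_pow_left₀ (by linarith) (by linarith) 2) (sq_nonneg _) ha
    nlinarith [mul_nonneg ha ha, mul_nonneg hb hb]
  · have h1 : (a - b) / (2 - a - b) ≤ (a - b) / 2 := by
      rw [div_le_div_iff₀ hs (by norm_num)]
      nlinarith
    have h2 : (a - b) / (2 - a - b) ≤ 0 := div_nonpos_of_nonpos_of_nonneg (by linarith) hs.le
    nlinarith [sq_nonneg a]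

lemma T_le (h : d.Ok) {u w : V} (hu : d.light u) (hw : d.light w) :
    2 * d.nu u w - d.nn u w + d.eb w ≤ d.A u / 2 + 3 * d.A u ^ 2 / 4 := by
  have ha := h.A_nonneg u
  have hb := h.A_nonneg w
  have ha1 : d.A u ≤ 1 / 100 := le_trans hu (by unfold eps; norm_num)
  have hb1 : d.A w ≤ 1 / 100 := le_trans hw (by unfold eps; norm_num)
  have h1 := T_real ha hb ha1 hb1 (h.one_le_nn u w) (h.nn_le' u w)
  have h2 : 2 * d.nu u w - d.nn u w = d.nn u w * ((d.A u - d.A w) / (2 - d.A u - d.A w)) := by
    unfold Dat.nu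
    rw [h.al_eq u, h.al_eq w]
    have k1 : 1 - d.A u ≠ 0 := by linarith
    have k2 : 1 - d.A w ≠ 0 := by linarith
    have k3 : 2 - d.A u - d.A w ≠ 0 := by linarith
    have k4 : 1 / (1 - d.A u) + 1 / (1 - d.A w) = (2 - d.A u - d.A w) / ((1 - d.A u) * (1 - d.A w)) := by
      field_simp; ring
    rw [k4]
    field_simp; ring
  have h3 := h.eb_le w
  linarith

lemma RR_eq {u : V} {W : Finset V} (hu : d.light u) {ω : Om V} (hf : d.free ω u) :
    d.RR u W ω = (d.D - d.beta u) / 2 + ∑ w ∈ W, I (d.free ω w) *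
      (if d.light w then - d.nu u w else min (d.al w) (2 * d.CC w) / 2 - d.nn u w) := by
  unfold Dat.RR Dat.bud Dat.nom
  rw [if_pos hu, add_sub_assoc, ← Finset.sum_sub_distrib]
  congr 1
  refine Finset.sum_congr rfl fun w _ => ?_
  unfold Dat.hh Dat.nv
  rw [if_pos hu, I_free_and hf]
  by_cases hw : d.light w
  · simp only [if_pos hw, if_pos (And.intro hu hw)]; ring
  · simp only [if_neg hw, if_neg (fun hh : d.light u ∧ d.light w => hw hh.2)]; ring

lemma RR_ge (h : d.Ok) {u : V} {W : Finset V} (hu : d.light u) (hW : W ⊆ d.nb u) {ω : Om V}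
    (hf : d.free ω u) :
    d.Zp u W ω + (d.YY u W (d.chi u) ω / 2 + (1 - d.beta u) / 2 + d.out u W / 2) ≤
      d.RR u W ω := by
  have hg := h.one_le_inv u
  have hsl := h.slack_ge u
  set g := 1 / (1 - d.pv u) with hgdef
  set a := d.A u with hadef
  have ha : 0 ≤ a := h.A_nonneg u
  have ha1 : a ≤ 1 / 100 := le_trans hu (by unfold eps; norm_num)
  set T := a / 2 + 3 * a ^ 2 / 4 with hT
  have hT0 : 0 ≤ T := by positivity
  have e1 : d.Zp u W ω + d.YY u W (d.chi u) ω / 2 =
      W.card * g / 2 + ∑ w ∈ W, I (d.free ω w) * (d.chi u w / 2 - d.nn u w) := by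
    unfold Dat.Zp Dat.YY
    rw [Finset.sum_div, ← Finset.sum_add_distrib, mul_div_assoc, ← nsmul_eq_mul,
      ← Finset.sum_const, ← Finset.sum_add_distrib]
    exact Finset.sum_congr rfl fun w _ => by rw [← hgdef]; ring
  have e2 : ∑ w ∈ W, I (d.free ω w) * (d.chi u w / 2 - d.nn u w) ≤
      ∑ w ∈ W, I (d.free ω w) *
        (if d.light w then - d.nu u w else min (d.al w) (2 * d.CC w) / 2 - d.nn u w) +
        W.card * (T / 2) := by
    rw [← nsmul_eq_mul, ← Finset.sum_const, ← Finset.sum_add_distrib]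
    refine Finset.sum_le_sum fun w _ => ?_
    have i0 := I_nonneg (d.free ω w)
    have i1 := I_le_one (d.free ω w)
    unfold Dat.chi
    by_cases hw : d.light w
    · rw [if_pos hw, if_pos hw]
      have k1 := T_le h hu hw
      rw [← hadef, ← hT] at k1
      nlinarith
    · rw [if_neg hw, if_neg hw]
      have k1 : d.CC w ≤ min (d.al w) (2 * d.CC w) :=
        le_min (h.CC_le_al w) (by linarith [h.CC_ge w])
      nlinarith
  have hD := h.D_pos
  have e3 : (W.card : ℝ) ≤ d.D * (1 - a) := by
    have k1 := h.card_nb u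
    have k2 := card_nb_split hW
    have k3 := out_nonneg (d := d) u W
    linarith
  have e4 : (1 - a) * T ≤ a / (2 - a) := by
    rw [le_div_iff₀ (by linarith), hT]
    nlinarith [mul_nonneg ha (mul_nonneg ha ha), mul_nonneg ha ha]
  have e5 : W.card * T ≤ d.D * a / (2 - a) := by
    calc W.card * T ≤ d.D * (1 - a) * T := mul_le_mul_of_nonneg_right e3 hT0
      _ = d.D * ((1 - a) * T) := by ring
      _ ≤ d.D * (a / (2 - a)) := mul_le_mul_of_nonneg_left e4 hD.le
      _ = d.D * a / (2 - a) := by ring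
  have e6 : ((d.nb u).card : ℝ) / (1 - d.pv u) = W.card * g + d.out u W * g := by
    rw [card_nb_split hW, hgdef]; ring
  have ho := out_nonneg (d := d) u W
  have e8 : d.out u W ≤ d.out u W * g := by nlinarith
  rw [RR_eq hu hf]
  rw [e6] at hsl
  linarith

end LRed

open LRed

theorem stcore : StCore := by
  intro V _ _ d h u W hu hW h0
  refine h.star_of u W (fun ω => d.Zp u W ω + d.core u W ω) (fun ω _ hf => ⟨?_, ?_, ?_⟩) ?_
  · refine le_trans ?_ (PP_ge h hu hW hf)
    unfold Dat.core
    linarith [min_le_left (d.gam u + 0.49 * d.out u W - d.noise u ω)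
      (min (d.YY u W (d.chi u) ω + d.Xi u W ω)
      (d.YY u W (d.chi u) ω / 2 + (1 - d.beta u) / 2 + d.out u W / 2))]
  · rw [QQ_eq hu hf, ← Zp_add_YY]
    have : d.core u W ω ≤ d.YY u W (d.chi u) ω + d.Xi u W ω :=
      (min_le_right _ _).trans (min_le_left _ _)
    linarith
  · refine le_trans ?_ (RR_ge h hu hW hf)
    have : d.core u W ω ≤ d.YY u W (d.chi u) ω / 2 + (1 - d.beta u) / 2 + d.out u W / 2 :=
      (min_le_right _ _).trans (min_le_right _ _)
    linarith
  · have e : (fun ω => I (d.free ω u) * (d.Zp u W ω + d.core u W ω)) =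
        fun ω => I (d.free ω u) * d.Zp u W ω + I (d.free ω u) * d.core u W ω := by
      funext ω; ring
    have k := h.E_Zp u W
    unfold Dat.E at k h0 ⊢
    rw [e, Ex_add]
    linarith

theorem small (h1 : StCov) : StSmall := by
  intro V _ _ d h u W hu hW hne hm hH
  have hout : 1 ≤ d.out u W := by
    unfold Dat.out
    have : (d.nb u \ W).Nonempty := by
      rw [Finset.sdiff_nonempty]
      exact fun hh => hne (Finset.Subset.antisymm hW hh)
    exact_mod_cast this.card_pos
  have hCC : ∀ w ∈ W, ¬ d.light w → d.nn u w ≤ d.CC w := fun w hw hl =>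
    (h1 V d h u w (hW hw)).1.trans (h.cb_le_CC hl (Dat.A_le_of_heavy hu hl))
  refine h.star_of u W (fun ω => d.Xi u W ω) (fun ω _ hf => ⟨?_, ?_, ?_⟩) (h.E_Xi u W).ge
  · refine le_trans ?_ (PP_ge h hu hW hf)
    have k1 : - d.mW u W ≤ d.Zp u W ω := by
      unfold Dat.mW Dat.Zp
      rw [← Finset.sum_neg_distrib]
      refine Finset.sum_le_sum fun w _ => ?_
      have i1 := I_le_one (d.free ω w)
      have i2 := h.one_le_nn u w
      nlinarith
    have k2 := h.noise_le hu ω
    have k3 := h.Xi_le hW ω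
    unfold rho at k2 k3
    linarith
  · rw [QQ_eq hu hf]
    have : 0 ≤ ∑ w ∈ W, I (d.free ω w) * (d.chi u w - d.nn u w) := by
      refine Finset.sum_nonneg fun w hw => mul_nonneg (I_nonneg _) ?_
      unfold Dat.chi
      by_cases hl : d.light w
      · rw [if_pos hl]; linarith [h.eb_nonneg w]
      · rw [if_neg hl]; linarith [hCC w hw hl]
    linarith
  · rw [RR_eq hu hf]
    have ha := h.one_le_al u
    have k1 : - (W.card * (d.al u / 2)) ≤ ∑ w ∈ W, I (d.free ω w) *
        (if d.light w then - d.nu u w else min (d.al w) (2 * d.CC w) / 2 - d.nn u w) := by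
      rw [← nsmul_eq_mul, ← Finset.sum_const, ← Finset.sum_neg_distrib]
      refine Finset.sum_le_sum fun w hw => ?_
      have i0 := I_nonneg (d.free ω w)
      have i1 := I_le_one (d.free ω w)
      have k2 : - (d.al u / 2) ≤
          (if d.light w then - d.nu u w else min (d.al w) (2 * d.CC w) / 2 - d.nn u w) := by
        by_cases hl : d.light w
        · rw [if_pos hl]; linarith [h.two_nu_le u w]
        · rw [if_neg hl]
          have k3 : 2 * d.nn u w - d.al u ≤ min (d.al w) (2 * d.CC w) :=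
            le_min (by linarith [h.two_nn_le u w]) (by linarith [hCC w hw hl])
          linarith
      nlinarith
    have k4 := h.card_mul_al u
    rw [card_nb_split hW] at k4
    have k5 : ((d.nH u).card : ℝ) ≤ d.D / 1000 + d.out u W := by
      have s1 : d.nH u ⊆ W.filter (fun w => ¬ d.light w) ∪ (d.nb u \ W) := by
        intro w hw
        have hw' := Finset.mem_filter.1 hw
        by_cases hwW : w ∈ W
        · exact Finset.mem_union_left _ (Finset.mem_filter.2 ⟨hwW, hw'.2⟩)
        · exact Finset.mem_union_right _ (Finset.mem_sdiff.2 ⟨hw'.1, hwW⟩)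
      have s2 := (Finset.card_le_card s1).trans (Finset.card_union_le _ _)
      have s3 : ((d.nH u).card : ℝ) ≤
          ((W.filter (fun w => ¬ d.light w)).card : ℝ) + ((d.nb u \ W).card : ℝ) := by
        exact_mod_cast s2
      unfold Dat.out
      linarith
    have hD := h.D_pos
    have hD2 : (10 : ℝ) ^ 200 ≤ d.D := h.good.D_ge
    have hD3 : (8000 : ℝ) ≤ d.D := le_trans (by norm_num) hD2
    have k6 : 80 * ((d.nH u).card : ℝ) / d.D ≤ 0.08 + d.out u W / 100 := by
      rw [div_le_iff₀ hD]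
      nlinarith
    have k7 := h.beta_le u
    have k8 := h.Xi_le hW ω
    have k9 : d.out u W ≤ d.out u W * d.al u := by nlinarith
    unfold rho at k8
    unfold eps at k7
    nlinarith

end Pool.Agent.P.MP_553766_co.Lg
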