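import Mathlib
import Pool.Agent.P.MP_553766_co.LSt3

set_option autoImplicit false
set_option linter.unusedSectionVars false

/-! Points with much slack. -/

namespace Pool.Agent.P.MP_553766_co.Lg

open Finset Pool.Agent.P.MP_553766_co

namespace LRich

variable {V : Type} [Fintype V] [DecidableEq V] {d : Dat V}

lemma min_ge {g c Y Z B : ℝ} (hg : 2 ≤ g) (hc : 10 * g ≤ c) (hB : 0 ≤ B) (hY : c - Z - B ≤ Y) :
    g - 2 / c * Z ^ 2 - B ≤ min g (min Y (Y / 2 - 3)) := by
  have c0 : 0 < c := by linarith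
  have h0 : 0 ≤ 2 / c * Z ^ 2 := by positivity
  rcases le_total Z (c / 2) with h | h
  · exact le_min (by linarith) (le_min (by linarith) (by linarith))
  · have : Z ≤ 2 / c * Z ^ 2 := by rw [div_mul_eq_mul_div, le_div_iff₀ c0]; nlinarith
    exact le_min (by linarith) (le_min (by linarith) (by linarith))

lemma E_sq (h1 : StL5) (h : d.Ok) (W : Finset V) (ch : V → ℝ)
    (hch : ∀ w ∈ W, 0 ≤ ch w ∧ ch w ≤ 5) :
    d.E (fun ω => (∑ w ∈ W, ch w * d.sv w ω) ^ 2) ≤
      12.5 * d.K * d.AW W + 18.75 * d.η * d.AW W ^ 2 := by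
  have hD := h.D_pos
  have j0 : ∀ e, 0 ≤ d.JJ W ch e := fun e =>
    sum_nonneg fun w hw => (hch w (mem_inter.1 hw).2).1
  have j1 : ∀ e ∈ d.sm, d.JJ W ch e ≤ 5 * d.K := fun e he => by
    have h2 := sum_le_card_nsmul (e ∩ W) ch 5 fun w hw => (hch w (mem_inter.1 hw).2).2
    have h3 : ((e ∩ W).card : ℝ) ≤ d.K := by
      exact_mod_cast (card_le_card inter_subset_left).trans (mem_filter.1 he).2
    rw [nsmul_eq_mul] at h2
    unfold Dat.JJ; linarith
  have j2 : ∑ e ∈ d.sm, d.JJ W ch e / d.D ≤ 2.5 * d.AW W := by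
    rw [h.sum_JJ, Dat.AW, mul_sum]
    exact sum_le_sum fun w hw => by
      nlinarith [hch w hw, h.ps_nonneg w, h.ps_le_pv w, h.two_pv_le w]
  have j3 : 0 ≤ ∑ e ∈ d.sm, d.JJ W ch e / d.D := sum_nonneg fun e _ => div_nonneg (j0 e) hD.le
  have j4 : d.Qm (d.JJ W ch) (d.JJ W ch) ≤ 5 * d.K * ∑ e ∈ d.sm, d.JJ W ch e / d.D := by
    rw [Dat.Qm, mul_sum]
    refine (sub_le_self _ (sum_nonneg fun e _ => sum_nonneg fun f _ =>
      div_nonneg (mul_nonneg (j0 e) (j0 f)) (sq_nonneg _))).trans (sum_le_sum fun e he => ?_)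
    rw [mul_div_assoc]
    exact mul_le_mul_of_nonneg_right (j1 e he) (div_nonneg (j0 e) hD.le)
  have h2 := h1 V d h (d.JJ W ch)
  simp only [abs_of_nonneg (j0 _)] at h2
  refine (Ex_congr fun ω hω => by rw [h.sum_sv hω]).trans_le (h2.trans ?_)
  have h3 := mul_le_mul_of_nonneg_left (pow_le_pow_left₀ j3 j2 2) h.good.eta0
  have h4 := mul_le_mul_of_nonneg_left j2 h.good.K_pos.le
  nlinarith

lemma Zp_ge (h : d.Ok) (u : V) (W : Finset V) (ω : Om V) : -d.mW u W ≤ d.Zp u W ω := by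
  rw [Dat.mW, ← sum_neg_distrib]
  exact sum_le_sum fun w _ => by nlinarith [I_le_one (d.free ω w), h.one_le_nn u w]

lemma cb_slack (h : d.Ok) (u w : V) :
    c0 * d.A w ≤ (1 - d.pv w) * d.cb u w - 1 / (1 - d.pv u) := by
  have h1 := h.pv_lt_half u; have h2 := h.pv_lt_half w
  have e : (1 - d.pv w) * d.cb u w - 1 / (1 - d.pv u) = eps ^ 2 / 8 * (1 / (1 - d.pv u)) := by
    have : 1 - d.pv u ≠ 0 := by linarith
    have : 1 - d.pv w ≠ 0 := by linarith
    unfold Dat.cb; field_simp; ring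
  rw [e]
  unfold c0 eps
  linarith [h.one_le_inv u, h.A_lt_one w]

lemma cb_sub (h : d.Ok) (u : V) {w : V} (hw : ¬ d.light w) :
    d.cb u w - 1 / (1 - d.pv u) ≤ 3 * d.A w := by
  have h1 := h.pv_lt_half u; have h2 := h.pv_lt_half w
  have h3 : eps < d.A w := not_le.1 hw
  have h4 := h.two_pv_le w; have h5 := h.pv_nonneg w
  have e : d.cb u w - 1 / (1 - d.pv u) = (eps ^ 2 / 8 + d.pv w) / ((1 - d.pv u) * (1 - d.pv w)) := by
    have : 1 - d.pv u ≠ 0 := by linarith
    have : 1 - d.pv w ≠ 0 := by linarith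
    unfold Dat.cb; field_simp; ring
  have h6 : 1 / 4 ≤ (1 - d.pv u) * (1 - d.pv w) := by nlinarith
  rw [e, div_le_iff₀ (by linarith)]
  unfold eps at *
  nlinarith

lemma card_le (h : d.Ok) {u : V} {W : Finset V} (hW : W ⊆ d.nb u) : (W.card : ℝ) ≤ d.D := by
  simpa using h.card_sub_le hW fun _ => True

lemma heavy (h1 : StR) (h4 : StCov) (h : d.Ok) {u : V} (hu : ¬ d.light u) {W : Finset V}
    (hW : W ⊆ d.ctl u) : d.Star u W := by
  have hD := h.D_pos
  have w1 : W ⊆ d.nb u := hW.trans (filter_subset _ _)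
  have w2 : ∀ w ∈ W, ¬ d.light w ∧ d.prec u w := fun w hw =>
    (Dat.ctrl_heavy hu).1 (mem_filter.1 (hW hw)).2
  have nom : ∀ ω, d.nom u W ω = W.card * (1 / (1 - d.pv u)) - d.Zp u W ω := fun ω => by
    rw [Dat.Zp, sum_sub_distrib, sum_const, nsmul_eq_mul, sub_sub_cancel]
    exact sum_congr rfl fun w _ => by rw [Dat.nv, if_neg fun hh => hu hh.1, mul_comm]
  have hP : ∀ ω, kp * d.D + d.Zp u W ω ≤ d.PP u W ω := fun ω => by
    have p1 := h.pool_heavy hu ω
    have p2 : (((d.nb u).filter (fun w => d.ctrl w u)).card : ℝ) + W.card ≤ (d.nb u).card := by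
      rw [← Nat.cast_add, Nat.cast_le, ← card_union_of_disjoint (disjoint_right.2 fun w hw hw' =>
        Dat.prec_asymm (w2 w hw).2 ((Dat.ctrl_heavy (w2 w hw).1).1 (mem_filter.1 hw').2).2)]
      exact card_le_card (union_subset (filter_subset _ _) w1)
    have p3 := mul_le_mul_of_nonneg_left (h.CC_le u)
      (Nat.cast_nonneg ((d.nb u).filter (fun w => d.ctrl w u)).card)
    have p4 := mul_le_mul_of_nonneg_left (h.inv_le_heavy hu) (Nat.cast_nonneg W.card)
    have k0 : 0 ≤ 1 - kp := by unfold kp; norm_num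
    have p5 := mul_le_mul_of_nonneg_right p2 (mul_nonneg k0 (h.al_pos u).le)
    have p6 := congrArg (fun t => (1 - kp) * t) (h.card_mul_al u)
    have p7 := mul_nonneg k0 (h.al_pos u).le
    rw [Dat.PP, nom]
    linarith
  have hQ : ∀ ω, d.free ω u → d.QQ u W ω = d.Zp u W ω + d.YY u W (d.cb u) ω := fun ω hf => by
    rw [Dat.QQ, nom, Dat.YY, sum_sub_distrib, sum_const, nsmul_eq_mul,
      sum_congr rfl fun w _ => show d.cap u w ω = d.cb u w * I (d.free ω w) by
        rw [Dat.cap, if_neg hu, I_and, I_pos hf, one_mul, mul_comm]]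
    ring
  have hR : ∀ ω, d.RR u W ω = d.QQ u W ω := fun ω => by
    rw [Dat.RR, Dat.QQ, Dat.bud, if_neg hu, zero_div, zero_add]
    refine congrArg (· - _) (sum_congr rfl fun w _ => ?_)
    rw [Dat.hh, Dat.cap, if_neg hu, if_neg hu]; ring
  rcases le_total (d.AW W) (c1 * d.D) with hA | hA
  · refine h.star_of u W (fun _ => 0) (fun ω _ hf => ?_) (by simp [Dat.E, Ex_zero])
    have q1 : d.mW u W ≤ 3 * d.AW W := by
      rw [Dat.AW, mul_sum]
      exact sum_le_sum fun w hw => by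
        linarith [(h4 V d h u w (w1 hw)).1, cb_sub h u (w2 w hw).1]
    have q2 : 0 ≤ d.QQ u W ω := by
      rw [hQ ω hf, Dat.Zp, Dat.YY, ← sum_add_distrib]
      exact sum_nonneg fun w hw => by
        nlinarith [(h4 V d h u w (w1 hw)).1, I_nonneg (d.free ω w)]
    refine ⟨?_, q2, (hR ω).symm ▸ q2⟩
    have := hP ω
    have := Zp_ge h u W ω
    unfold c1 kp at *
    linarith
  have h5 := h1 V d h u W (d.cb u) (card_le h w1)
    (fun w _ => ⟨(h.cb_pos u w).le, (h.cb_le u w).trans (by norm_num)⟩)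
    (by rw [Dat.AW, mul_sum]; exact sum_le_sum fun w _ => cb_slack h u w) hA
  refine h.star_of u W (fun ω => d.Zp u W ω + min (c0 * c1 * d.D / 10)
    (min (d.YY u W (d.cb u) ω) (d.YY u W (d.cb u) ω / 2 - 3))) (fun ω _ hf => ?_) ?_
  · have q1 := (hQ ω hf).ge.trans' (add_le_add le_rfl ((min_le_right (c0 * c1 * d.D / 10) _).trans
      (min_le_left _ (d.YY u W (d.cb u) ω / 2 - 3))))
    refine ⟨le_trans ?_ (hP ω), q1, (hR ω).symm ▸ q1⟩
    rw [add_comm]
    refine add_le_add ((min_le_left _ _).trans ?_) le_rfl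
    unfold c0 c1 kp
    linarith
  · have h6 := h.E_Zp u W
    simp only [mul_add]
    unfold Dat.E at *
    rw [Ex_add, h6, zero_add]
    exact h5

lemma light (h1 : StR) (h2 : StCore) (h3 : StSmall) (h4 : StCov) (h : d.Ok) {u : V}
    (hu : d.light u) (hA : del < d.A u) (hS : ¬ d.ST u) {W : Finset V} (hW : W ⊆ d.nb u) :
    d.Star u W := by
  have hD := h.D_pos
  have g1 : 1 + kap * (d.D * del) / 2 ≤ d.gam u := by
    refine le_trans ?_ (h.gam_ge u)
    have := mul_le_mul_of_nonneg_left hA.le hD.le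
    unfold kap; linarith
  rcases le_total (d.AW W) (c1 * d.D) with hc | hc
  · have q1 : d.mW u W ≤ 1.1 * d.AW W := by
      rw [Dat.AW, mul_sum]; exact sum_le_sum fun w _ => h.mW_term_light hu w
    have q2 := h.card_heavy_le W
    unfold kap del c1 eps at *
    refine h3 V d h u W hu hW ?_ (by linarith) (by linarith)
    rintro rfl
    have := h.not_ST hS
    unfold rho at this
    linarith
  refine h2 V d h u W hu hW ((h1 V d h u W (fun w => if d.light w then d.chi u w else d.cb u w)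
    (card_le h hW) (fun w _ => ?_) ?_ hc).trans (Ex_mono h.pnn fun ω _ =>
      mul_le_mul_of_nonneg_left ?_ (I_nonneg _)))
  · split_ifs with hw
    · have := h.chi_light hu hw
      unfold eps at this
      constructor <;> linarith [this.1, this.2]
    · exact ⟨(h.cb_pos u w).le, (h.cb_le u w).trans (by norm_num)⟩
  · rw [Dat.AW, mul_sum]
    refine sum_le_sum fun w hw => ?_
    split_ifs with hl
    · refine le_trans ?_ ((h4 V d h u w (hW hw)).2 hu hl)
      unfold c0 kap; linarith [h.A_nonneg w]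
    · exact cb_slack h u w
  · have q1 : d.YY u W (fun w => if d.light w then d.chi u w else d.cb u w) ω ≤
        d.YY u W (d.chi u) ω := sum_le_sum fun w _ => sub_le_sub_right
      (mul_le_mul_of_nonneg_right (by
        beta_reduce
        split_ifs with hl
        · exact le_rfl
        · rw [Dat.chi, if_neg hl]; exact h.cb_le_CC hl (Dat.A_le_of_heavy hu hl)) (I_nonneg _)) _
    have q2 : d.Xi u W ω = 0 := sum_eq_zero fun w _ => by
      rw [Dat.xi_not_act fun ha => not_le.2 hA ha.1, mul_zero]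
    have q3 : 0 ≤ d.out u W := Nat.cast_nonneg _
    have q4 := h.noise_le hu ω
    have q5 := h.beta_le_five u
    refine min_le_min ?_ (min_le_min (by linarith) (by linarith))
    unfold c0 c1 kap del rho at *
    linarith

end LRich

open LRich in
theorem str (h1 : StL5) : StR := by
  intro V _ _ d h u W ch hW hch hc hA
  have hD := h.D_pos
  have d1 : (10 : ℝ) ^ 200 ≤ d.D := h.good.D_ge
  have a1 : d.AW W ≤ d.D := (h.AW_le_card W).trans hW
  have a0 := h.AW_nonneg W
  set c := ∑ w ∈ W, ((1 - d.pv w) * ch w - 1 / (1 - d.pv u)) with hc'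
  set g := c0 * c1 * d.D / 10 with hg
  have g1 : 2 ≤ g := by rw [hg]; unfold c0 c1; linarith
  have g2 : 10 * g ≤ c := by rw [hg]; unfold c0 c1 at *; linarith
  have h2 := E_sq h1 h W ch hch
  have h3 : d.E (fun ω => ∑ w ∈ W, ch w * I (d.nsb ω w)) ≤ 5 * tau * d.D := by
    rw [Dat.E, Ex_sum]
    refine (sum_le_card_nsmul _ _ (5 * tau) fun w hw => ?_).trans ?_
    · rw [Ex_const_mul]
      have e := h.E_nsb w
      unfold Dat.E at e
      rw [e]
      exact mul_le_mul (hch w hw).2 (h.pv_sub_ps_le_tau w) (sub_nonneg.2 (h.ps_le_pv w))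
        (by norm_num)
    · rw [nsmul_eq_mul]; unfold tau; linarith
  have h4 : 2 / c * d.E (fun ω => (∑ w ∈ W, ch w * d.sv w ω) ^ 2) ≤ g / 4 := by
    have k1 := mul_le_mul_of_nonneg_right h.good.K_le a0
    have k2 := mul_le_mul_of_nonneg_right
      (mul_le_mul h.good.eta_le a1 a0 (h.good.eta0.trans h.good.eta_le)) a0
    have k3 := mul_le_mul_of_nonneg_left hc hD.le
    have k4 := mul_nonneg hD.le a0
    rw [div_mul_eq_mul_div, div_le_iff₀ (by linarith), hg]
    unfold c0 c1 tau at *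
    nlinarith
  have h5 := h.E_free u
  have h6 := h.pv_lt_half u
  refine le_trans ?_ (Ex_mono h.pnn (f := fun ω => g * I (d.free ω u) -
    2 / c * (∑ w ∈ W, ch w * d.sv w ω) ^ 2 - ∑ w ∈ W, ch w * I (d.nsb ω w)) fun ω hω => ?_)
  · unfold Dat.E at *
    rw [Ex_sub, Ex_sub, Ex_const_mul, Ex_const_mul, h5]
    have : 5 * tau * d.D ≤ g / 4 := by rw [hg]; unfold c0 c1 tau; linarith
    nlinarith
  have b0 : 0 ≤ ∑ w ∈ W, ch w * I (d.nsb ω w) :=
    sum_nonneg fun w hw => mul_nonneg (hch w hw).1 (I_nonneg _)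
  by_cases hf : d.free ω u
  · rw [I_pos hf, mul_one, one_mul]
    refine min_ge g1 g2 b0 ?_
    rw [hc', ← sum_sub_distrib, ← sum_sub_distrib]
    refine sum_le_sum fun w hw => ?_
    rw [h.I_free hω, Dat.sv]
    nlinarith [(hch w hw).1, h.ps_le_pv w]
  · rw [I_neg hf, mul_zero, zero_mul]
    have : 0 ≤ 2 / c * (∑ w ∈ W, ch w * d.sv w ω) ^ 2 :=
      mul_nonneg (div_nonneg (by norm_num) (by linarith)) (sq_nonneg _)
    linarith

theorem rich (h1 : StR) (h2 : StCore) (h3 : StSmall) (h4 : StCov) : StRich := by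
  intro V _ _ d h u hu W hW
  by_cases hl : d.light u
  · have h5 := hu.resolve_left (not_not.2 hl)
    exact LRich.light h1 h2 h3 h4 h hl h5.1 h5.2 (Dat.ctl_light hl ▸ hW)
  · exact LRich.heavy h1 h4 h hl hW

end Pool.Agent.P.MP_553766_co.Lg
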