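import Mathlib
import Pool.Agent.P.MP_553766_co.LSt3

set_option autoImplicit false

/-! The shifts received and made by a point. -/

namespace Pool.Agent.P.MP_553766_co.Lg

open Finset Pool.Agent.P.MP_553766_co

namespace LSh

open Dat

variable {V : Type} [Fintype V] [DecidableEq V] {d : Dat V}

lemma key (h : d.Ok) {v y : V} (hv : d.act v) (hy : d.light y) (z : V) (ω : Om V) :
    rho / (1 - d.pv (d.w0 v)) * (I (¬ d.free ω (d.w0 v)) - d.pv (d.w0 v)) / d.D -
      (eps / d.D + rho / d.D * I (¬ d.free ω z)) ≤ I (d.free ω z) * d.xi v y ω := by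
  have hD := h.D_pos
  have hp := h.pv_lt_half (d.w0 v)
  have he : (0 : ℝ) < eps := by unfold eps; norm_num
  have h1 : rho / (1 - d.pv (d.w0 v)) * (I (¬ d.free ω (d.w0 v)) - d.pv (d.w0 v)) / d.D -
      eps / d.D ≤ d.xi v y ω := by
    have h2 := h.shift_le (act_light hv) hy
    unfold xi
    rw [if_pos hv, ← sub_div]
    refine div_le_div_of_nonneg_right ?_ hD.le
    by_cases hf : d.free ω (d.w0 v)
    · rw [if_pos hf, I_neg (not_not.2 hf)]
      have : rho / (1 - d.pv (d.w0 v)) * (0 - d.pv (d.w0 v)) =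
          -(rho * d.pv (d.w0 v) / (1 - d.pv (d.w0 v))) := by ring
      linarith
    · rw [if_neg hf, I_pos hf, div_mul_cancel₀ _ (by linarith)]
      linarith
  have h3 := h.xi_le (u := v) ω hy
  by_cases hz : d.free ω z
  · rw [I_pos hz, I_neg (not_not.2 hz)]
    linarith
  · rw [I_neg hz, I_pos hz]
    linarith

lemma ER (h : d.Ok) (F : Finset V) (hF : (F.card : ℝ) ≤ d.D) (hl : ∀ w ∈ F, d.light w) (c : ℝ)
    (hc : 0 ≤ c) :
    d.E (fun ω => ∑ w ∈ F, (c / d.D + rho / d.D * I (¬ d.free ω w))) ≤ c + eps / 10 := by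
  have hD := h.D_pos
  have he : (0 : ℝ) < eps := by unfold eps; norm_num
  unfold E
  rw [Ex_sum]
  have h1 : ∀ w ∈ F, Ex d.p (fun ω => c / d.D + rho / d.D * I (¬ d.free ω w)) ≤
      (c + eps / 10) / d.D := by
    intro w hw
    have h2 := h.E_notfree w
    unfold E at h2
    rw [Ex_add, Ex_const h.prob, Ex_const_mul, h2, add_div, div_mul_eq_mul_div]
    have h3 := h.two_pv_le w
    have h4 : d.A w ≤ eps := hl w hw
    have h5 : rho * d.pv w ≤ eps / 10 := by unfold rho; linarith
    exact add_le_add le_rfl (div_le_div_of_nonneg_right h5 hD.le)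
  refine (Finset.sum_le_card_nsmul _ _ _ h1).trans ?_
  rw [nsmul_eq_mul, ← mul_div_assoc, div_le_iff₀ hD]
  nlinarith

lemma R_nonneg (h : d.Ok) (F : Finset V) (c : ℝ) (hc : 0 ≤ c) (ω : Om V) :
    0 ≤ ∑ w ∈ F, (c / d.D + rho / d.D * I (¬ d.free ω w)) := by
  have hD := h.D_pos
  have hr : (0 : ℝ) < rho := by unfold rho; norm_num
  exact Finset.sum_nonneg fun w _ =>
    add_nonneg (by positivity) (mul_nonneg (by positivity) (I_nonneg _))

lemma g_bound (h : d.Ok) (a : V) : 0 ≤ rho / (1 - d.pv a) ∧ rho / (1 - d.pv a) ≤ 1 := by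
  have h1 := h.pv_lt_half a
  constructor
  · exact div_nonneg (by unfold rho; norm_num) (by linarith)
  · rw [div_le_one (by linarith)]; unfold rho; linarith

end LSh

open LSh Dat

theorem sh2 : StSh2 := by
  intro V _ _ d h u W hu hW
  have he : (0 : ℝ) < eps := by unfold eps; norm_num
  refine ⟨fun ω => ∑ w ∈ W.filter (fun w => d.light w),
    (eps / d.D + rho / d.D * I (¬ d.free ω w)), fun ω => R_nonneg h _ _ he.le ω, ?_, fun ω => ?_⟩
  · have := ER h _ (h.card_sub_le hW fun w => d.light w)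
      (fun w hw => (Finset.mem_filter.1 hw).2) eps he.le
    linarith
  · unfold Xi
    refine le_trans (le_of_eq ?_) (Finset.sum_le_sum fun w hw =>
      key h hu (Finset.mem_filter.1 hw).2 w ω)
    rw [Finset.sum_sub_distrib, Finset.sum_const, nsmul_eq_mul]
    ring

theorem sh1 : StSh1 := by
  intro V _ _ d h u hu
  have hD := h.D_pos
  have he : (0 : ℝ) < eps := by unfold eps; norm_num
  have ht : (0 : ℝ) < tau := by unfold tau; norm_num
  set F : Finset V := (d.nL u).filter (fun w => d.act w) with hF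
  have hFc : (F.card : ℝ) ≤ d.D := by
    refine le_trans ?_ (h.card_nL_le u)
    exact_mod_cast Finset.card_le_card (Finset.filter_subset _ _)
  set N : V → ℝ := fun a => ((F.filter (fun w => d.w0 w = a)).card : ℝ) with hN
  have hN0 : ∀ a, 0 ≤ N a := fun a => Nat.cast_nonneg _
  have hfib : ∀ f : V → ℝ, ∑ a, N a * f a = ∑ w ∈ F, f (d.w0 w) := by
    intro f
    rw [← Finset.sum_fiberwise_of_maps_to (s := F) (t := Finset.univ) (g := d.w0)
      (fun _ _ => Finset.mem_univ _)]
    refine Finset.sum_congr rfl fun a _ => ?_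
    rw [Finset.sum_congr rfl fun w hw => by rw [(Finset.mem_filter.1 hw).2], Finset.sum_const,
      nsmul_eq_mul]
  have hsum : ∑ a, N a / d.D ≤ 1 := by
    have := hfib (fun _ => 1)
    simp only [mul_one, Finset.sum_const, nsmul_eq_mul] at this
    rw [← Finset.sum_div, this, div_le_one hD]
    exact hFc
  refine ⟨fun a => N a * (rho / (1 - d.pv a) / d.D), fun ω => ∑ w ∈ F,
    ((tau + eps) / d.D + rho / d.D * I (¬ d.free ω w)), fun a => ?_, ?_, ?_,
    fun ω => R_nonneg h _ _ (by positivity) ω, ?_, fun ω => ?_⟩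
  · exact mul_nonneg (hN0 a) (div_nonneg (g_bound h a).1 hD.le)
  · refine le_trans (Finset.sum_le_sum fun a _ => ?_) hsum
    rw [← mul_div_assoc]
    refine div_le_div_of_nonneg_right ?_ hD.le
    nlinarith [g_bound h a, hN0 a]
  · have h1 : ∀ a, (N a * (rho / (1 - d.pv a) / d.D)) ^ 2 * d.ps a * (1 - d.ps a) ≤
        0.006 * (N a / d.D) := by
      intro a
      rcases (F.filter (fun w => d.w0 w = a)).eq_empty_or_nonempty with h0 | ⟨w, hw⟩
      · have : N a = 0 := by simp [hN, h0]
        rw [this]; simp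
      have hcrit : ∀ w ∈ F.filter (fun w => d.w0 w = a), a ∈ d.crit w := by
        intro w hw
        obtain ⟨h2, h3⟩ := Finset.mem_filter.1 hw
        rw [← h3]
        exact w0_mem (Finset.mem_filter.1 h2).2
      have h2 : 3 / 8 < d.pv a := (Finset.mem_filter.1 (hcrit w hw)).2
      have h3 : N a ≤ (d.nb a).card := by
        simp only [hN]
        exact_mod_cast Finset.card_le_card fun w hw =>
          h.symm _ _ (Finset.mem_filter.1 (hcrit w hw)).1
      have h4 := h.card_nb a
      have h5 := h.two_pv_le a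
      have h6 := h.pv_lt_half a
      have h7 := h.ps_le_pv a
      have h8 := h.ps_nonneg a
      have h9 : N a / d.D ≤ 1 - 2 * d.pv a := by
        rw [div_le_iff₀ hD]; nlinarith
      have h10 : d.ps a * (1 - d.ps a) ≤ d.pv a * (1 - d.pv a) := by nlinarith
      have h11 : 0 ≤ N a / d.D := div_nonneg (hN0 a) hD.le
      have h12 : (1 - 2 * d.pv a) * (rho / (1 - d.pv a)) ^ 2 * (d.pv a * (1 - d.pv a)) ≤
          0.006 := by
        have h13 : (1 - 2 * d.pv a) * (rho / (1 - d.pv a)) ^ 2 * (d.pv a * (1 - d.pv a)) =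
            rho ^ 2 * ((1 - 2 * d.pv a) * d.pv a) / (1 - d.pv a) := by
          have : 1 - d.pv a ≠ 0 := by linarith
          field_simp
        rw [h13, div_le_iff₀ (by linarith)]
        unfold rho
        nlinarith
      calc (N a * (rho / (1 - d.pv a) / d.D)) ^ 2 * d.ps a * (1 - d.ps a)
          = N a / d.D * (N a / d.D * (rho / (1 - d.pv a)) ^ 2 * (d.ps a * (1 - d.ps a))) := by
            ring
        _ ≤ N a / d.D *
            ((1 - 2 * d.pv a) * (rho / (1 - d.pv a)) ^ 2 * (d.pv a * (1 - d.pv a))) := by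
            refine mul_le_mul_of_nonneg_left ?_ h11
            refine mul_le_mul (mul_le_mul_of_nonneg_right h9 (sq_nonneg _)) h10
              (mul_nonneg h8 (by linarith)) (mul_nonneg (by linarith) (sq_nonneg _))
        _ ≤ 0.006 * (N a / d.D) := by nlinarith
    refine (Finset.sum_le_sum fun a _ => h1 a).trans ?_
    rw [← Finset.mul_sum]
    linarith
  · have := ER h F hFc (fun w hw => act_light (Finset.mem_filter.1 hw).2) (tau + eps)
      (by positivity)
    have h1 : tau ≤ eps / 10 := by unfold tau eps; norm_num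
    linarith
  · have h1 : d.noise u ω = ∑ w ∈ F, I (d.free ω w) * d.xi w u ω := by
      unfold noise
      rw [hF, Finset.sum_filter]
      refine Finset.sum_congr rfl fun w _ => ?_
      split_ifs with ha
      · rfl
      · rw [xi_not_act ha, mul_zero]
    simp only [mul_assoc]
    rw [h1, hfib (fun a => rho / (1 - d.pv a) / d.D * d.sv a ω), ← Finset.sum_sub_distrib]
    refine Finset.sum_le_sum fun w hw => ?_
    refine le_trans ?_ (key h (Finset.mem_filter.1 hw).2 hu w ω)
    obtain ⟨g0, g1⟩ := g_bound h (d.w0 w)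
    have h2 : d.sv (d.w0 w) ω - tau ≤ I (¬ d.free ω (d.w0 w)) - d.pv (d.w0 w) := by
      have h3 : I (d.sb ω (d.w0 w)) ≤ I (¬ d.free ω (d.w0 w)) :=
        I_mono fun ⟨e, he1, he2, _⟩ hf => hf ⟨e, he1, he2⟩
      have h4 := h.pv_sub_ps_le_tau (d.w0 w)
      unfold sv
      linarith
    have h5 : rho / (1 - d.pv (d.w0 w)) * d.sv (d.w0 w) ω - tau ≤
        rho / (1 - d.pv (d.w0 w)) * (I (¬ d.free ω (d.w0 w)) - d.pv (d.w0 w)) := by
      nlinarith [mul_le_mul_of_nonneg_left h2 g0]
    have h6 := div_le_div_of_nonneg_right h5 hD.le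
    rw [sub_div] at h6
    rw [add_div, div_mul_eq_mul_div]
    linarith

end Pool.Agent.P.MP_553766_co.Lg
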