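import Mathlib
import Pool.Agent.P.MP_553766_co.LSt3

set_option autoImplicit false
set_option linter.unusedSectionVars false

/-! The second moment bound. -/

namespace Pool.Agent.P.MP_553766_co.Lg

open Finset Pool.Agent.P.MP_553766_co

namespace LV

variable {V : Type} [Fintype V] [DecidableEq V] {d : Dat V}

lemma prod_I (T : Finset V) (P : V → Prop) : ∏ a ∈ T, I (P a) = I (∀ a ∈ T, P a) := by
  by_cases hP : ∀ a ∈ T, P a
  · rw [I_pos hP]
    exact Finset.prod_eq_one fun a ha => I_pos (hP a ha)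
  · rw [I_neg hP]
    simp only [not_forall] at hP
    obtain ⟨a, ha, hn⟩ := hP
    exact Finset.prod_eq_zero ha (I_neg hn)

lemma ps_le_half (h : d.Ok) (v : V) : d.ps v ≤ 1 / 2 :=
  (h.ps_le_pv v).trans (h.pv_lt_half v).le

/-- centred product moments are small -/
lemma gen (h1 : StL3) (h : d.Ok) (J : Finset (Finset V)) (S : Finset V) (hJ : J ⊆ d.sm)
    (hP : PD J) (hd : ∀ e ∈ J, Disjoint e S) (hc : J.card + S.card ≤ 4) (hS : S.Nonempty) :
    |d.E (fun ω => I (J ⊆ ω.1) * ∏ a ∈ S, d.sv a ω)| ≤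
      2 ^ S.card * (d.eta2 * (1 / d.D) ^ J.card) := by
  have e1 : ∀ ω : Om V, I (J ⊆ ω.1) * ∏ a ∈ S, d.sv a ω =
      ∑ T ∈ S.powerset, (∏ a ∈ S \ T, -d.ps a) * I (J ⊆ ω.1 ∧ ∀ a ∈ T, d.sb ω a) := by
    intro ω
    simp only [Dat.sv, sub_eq_add_neg]
    rw [Finset.prod_add, Finset.mul_sum]
    refine Finset.sum_congr rfl fun T _ => ?_
    rw [I_and, prod_I]
    ring
  have e2 : ∑ T ∈ S.powerset, (∏ a ∈ S \ T, -d.ps a) *
      ((1 / (d.D : ℝ)) ^ J.card * ∏ a ∈ T, d.ps a) = 0 := by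
    have e3 : ∏ a ∈ S, (d.ps a + -d.ps a) = 0 := by
      obtain ⟨a, ha⟩ := hS
      exact Finset.prod_eq_zero ha (by ring)
    rw [Finset.prod_add] at e3
    calc _ = (1 / (d.D : ℝ)) ^ J.card *
          ∑ T ∈ S.powerset, (∏ a ∈ T, d.ps a) * ∏ a ∈ S \ T, -d.ps a := by
          rw [Finset.mul_sum]
          exact Finset.sum_congr rfl fun T _ => by ring
      _ = 0 := by rw [e3, mul_zero]
  have e4 : d.E (fun ω => I (J ⊆ ω.1) * ∏ a ∈ S, d.sv a ω) =
      ∑ T ∈ S.powerset, (∏ a ∈ S \ T, -d.ps a) *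
        (d.E (fun ω => I (J ⊆ ω.1 ∧ ∀ a ∈ T, d.sb ω a)) -
          (1 / (d.D : ℝ)) ^ J.card * ∏ a ∈ T, d.ps a) := by
    simp only [mul_sub, Finset.sum_sub_distrib, e2, sub_zero, e1]
    unfold Dat.E
    rw [Ex_sum]
    exact Finset.sum_congr rfl fun T _ => Ex_const_mul _ _
  rw [e4]
  refine (Finset.abs_sum_le_sum_abs _ _).trans ?_
  refine (Finset.sum_le_card_nsmul _ _ (d.eta2 * (1 / d.D) ^ J.card) ?_).trans ?_
  · intro T hT
    have hTS := Finset.mem_powerset.1 hT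
    have b1 := h1 V d h J T hJ hP (fun e he => (hd e he).mono_right hTS)
      (le_trans (Nat.add_le_add_left (Finset.card_le_card hTS) _) hc)
    have b2 : |∏ a ∈ S \ T, -d.ps a| ≤ 1 := by
      rw [Finset.abs_prod]
      refine Finset.prod_le_one (fun a _ => abs_nonneg _) fun a _ => ?_
      rw [abs_neg, abs_of_nonneg (h.ps_nonneg a)]
      linarith [ps_le_half h a]
    rw [abs_mul]
    exact (mul_le_of_le_one_left (abs_nonneg _) b2).trans b1
  · rw [Finset.card_powerset, nsmul_eq_mul]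
    push_cast
    exact le_rfl

lemma pd_empty : PD (∅ : Finset (Finset V)) := fun e he => absurd he (Finset.notMem_empty e)

lemma pd_single (e : Finset V) : PD ({e} : Finset (Finset V)) := by
  intro f hf g hg hfg
  rw [Finset.mem_singleton] at hf hg
  exact absurd (hf.trans hg.symm) hfg

lemma gen0 (h1 : StL3) (h : d.Ok) (S : Finset V) (hc : S.card ≤ 4) (hS : S.Nonempty) :
    |d.E (fun ω => ∏ a ∈ S, d.sv a ω)| ≤ 2 ^ S.card * d.eta2 := by
  have := gen h1 h ∅ S (Finset.empty_subset _) pd_empty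
    (fun e he => absurd he (Finset.notMem_empty e)) (by simpa using hc) hS
  simpa only [I_pos (Finset.empty_subset _), one_mul, Finset.card_empty, pow_zero,
    mul_one] using this

lemma gen1 (h1 : StL3) (h : d.Ok) {e : Finset V} (he : e ∈ d.sm) (S : Finset V)
    (hd : Disjoint e S) (hc : S.card ≤ 3) (hS : S.Nonempty) :
    |d.E (fun ω => I (e ∈ ω.1) * ∏ a ∈ S, d.sv a ω)| ≤ 2 ^ S.card * (d.eta2 * (1 / d.D)) := by
  have := gen h1 h {e} S (Finset.singleton_subset_iff.2 he) (pd_single e)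
    (fun f hf => by rwa [Finset.mem_singleton.1 hf]) (by rw [Finset.card_singleton]; omega) hS
  simpa only [Finset.singleton_subset_iff, Finset.card_singleton, pow_one] using this

lemma two (h1 : StL3) (h : d.Ok) {a b : V} (hab : a ≠ b) :
    |d.E (fun ω => d.sv a ω * d.sv b ω)| ≤ 4 * d.eta2 := by
  have := gen0 h1 h {a, b} (by rw [Finset.card_pair hab]; omega) ⟨a, by simp⟩
  simp only [Finset.prod_pair hab, Finset.card_pair hab] at this
  linarith

lemma four (h1 : StL3) (h : d.Ok) {a b a' b' : V} (hab : a ≠ b) (h2 : a ≠ a') (h3 : a ≠ b')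
    (h4 : b ≠ a') (h5 : b ≠ b') (h6 : a' ≠ b') :
    d.E (fun ω => d.sv a ω * d.sv b ω * (d.sv a' ω * d.sv b' ω)) ≤ 16 * d.eta2 := by
  have n1 : a ∉ ({b, a', b'} : Finset V) := by simp [hab, h2, h3]
  have n2 : b ∉ ({a', b'} : Finset V) := by simp [h4, h5]
  have hc : ({a, b, a', b'} : Finset V).card = 4 := by
    rw [Finset.card_insert_of_notMem n1, Finset.card_insert_of_notMem n2, Finset.card_pair h6]
  have := gen0 h1 h {a, b, a', b'} hc.le ⟨a, by simp⟩
  simp only [Finset.prod_insert n1, Finset.prod_insert n2, Finset.prod_pair h6, hc] at this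
  simp only [mul_assoc]
  linarith [le_abs_self (d.E fun ω => d.sv a ω * (d.sv b ω * (d.sv a' ω * d.sv b' ω)))]

lemma sv_sq (a : V) (ω : Om V) :
    d.sv a ω * d.sv a ω = (1 - 2 * d.ps a) * d.sv a ω + d.ps a * (1 - d.ps a) := by
  have := I_mul_self (d.sb ω a)
  unfold Dat.sv
  linear_combination this

lemma square (h1 : StL3) (h : d.Ok) {a b : V} (hab : a ≠ b) :
    d.E (fun ω => d.sv a ω * d.sv b ω * (d.sv a ω * d.sv b ω)) ≤ 1 / 16 + 16 * d.eta2 := by
  have e1 : ∀ ω, d.sv a ω * d.sv b ω * (d.sv a ω * d.sv b ω) =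
      (1 - 2 * d.ps a) * (1 - 2 * d.ps b) * (d.sv a ω * d.sv b ω) +
        (1 - 2 * d.ps a) * (d.ps b * (1 - d.ps b)) * d.sv a ω +
        (1 - 2 * d.ps b) * (d.ps a * (1 - d.ps a)) * d.sv b ω +
        d.ps a * (1 - d.ps a) * (d.ps b * (1 - d.ps b)) := by
    intro ω
    calc _ = (d.sv a ω * d.sv a ω) * (d.sv b ω * d.sv b ω) := by ring
      _ = _ := by rw [sv_sq, sv_sq]; ring
  have ea : Ex d.p (fun ω => d.sv a ω) = 0 := h.E_sv a
  have eb : Ex d.p (fun ω => d.sv b ω) = 0 := h.E_sv b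
  have t2 := two h1 h hab
  simp only [e1]
  unfold Dat.E at t2 ⊢
  rw [Ex_add, Ex_add, Ex_add, Ex_const_mul, Ex_const_mul, Ex_const_mul, Ex_const h.prob, ea, eb]
  have pa := h.ps_nonneg a
  have pb := h.ps_nonneg b
  have qa := ps_le_half h a
  have qb := ps_le_half h b
  have η0 := h.eta2_nonneg
  have c1 : 0 ≤ (1 - 2 * d.ps a) * (1 - 2 * d.ps b) := mul_nonneg (by linarith) (by linarith)
  have c2 : (1 - 2 * d.ps a) * (1 - 2 * d.ps b) ≤ 1 :=
    mul_le_one₀ (by linarith) (by linarith) (by linarith)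
  have c3 : (1 - 2 * d.ps a) * (1 - 2 * d.ps b) * Ex d.p (fun ω => d.sv a ω * d.sv b ω) ≤
      4 * d.eta2 :=
    (mul_le_mul_of_nonneg_left ((le_abs_self _).trans t2) c1).trans
      (mul_le_of_le_one_left (by linarith) c2)
  have c4 : d.ps a * (1 - d.ps a) ≤ 1 / 4 := by nlinarith [sq_nonneg (d.ps a - 1 / 2)]
  have c5 : d.ps b * (1 - d.ps b) ≤ 1 / 4 := by nlinarith [sq_nonneg (d.ps b - 1 / 2)]
  have c6 : d.ps a * (1 - d.ps a) * (d.ps b * (1 - d.ps b)) ≤ 1 / 4 * (1 / 4) :=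
    mul_le_mul c4 c5 (mul_nonneg pb (by linarith)) (by norm_num)
  linarith

lemma I_mul_sv {e : Finset V} (he : e ∈ d.sm) {a : V} (ha : a ∈ e) (ω : Om V) :
    I (e ∈ ω.1) * d.sv a ω = I (e ∈ ω.1) * (1 - d.ps a) := by
  by_cases hω : e ∈ ω.1
  · unfold Dat.sv
    rw [I_pos (show d.sb ω a from ⟨e, hω, ha, (Finset.mem_filter.1 he).2⟩)]
  · rw [I_neg hω, zero_mul, zero_mul]

lemma cross_one (h1 : StL3) (h : d.Ok) {e : Finset V} (he : e ∈ d.sm) {a b : V} (ha : a ∈ e)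
    (hb : b ∉ e) :
    |d.E (fun ω => I (e ∈ ω.1) * (d.sv a ω * d.sv b ω))| ≤ 4 * (d.eta2 * (1 / d.D)) := by
  have g := gen1 h1 h he {b} (Finset.disjoint_singleton_right.2 hb) (by simp) ⟨b, by simp⟩
  simp only [Finset.prod_singleton, Finset.card_singleton, pow_one] at g
  have e1 : ∀ ω : Om V, I (e ∈ ω.1) * (d.sv a ω * d.sv b ω) =
      (1 - d.ps a) * (I (e ∈ ω.1) * d.sv b ω) := by
    intro ω
    rw [← mul_assoc, I_mul_sv he ha]
    ring
  simp only [e1]
  unfold Dat.E at g ⊢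
  rw [Ex_const_mul, abs_mul]
  have b2 : |1 - d.ps a| ≤ 1 := by
    rw [abs_le]
    constructor <;> linarith [h.ps_nonneg a, ps_le_half h a]
  have b3 : 0 ≤ d.eta2 * (1 / (d.D : ℝ)) := mul_nonneg h.eta2_nonneg (by positivity)
  linarith [mul_le_of_le_one_left (abs_nonneg (Ex d.p fun ω => I (e ∈ ω.1) * d.sv b ω)) b2]

/-- the cross term for one edge -/
lemma cross (h1 : StL3) (h : d.Ok) {e : Finset V} (he : e ∈ d.sm) {a b : V} (hab : a ≠ b) :
    |d.E (fun ω => (I (e ∈ ω.1) - 1 / d.D) * (d.sv a ω * d.sv b ω))| ≤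
      8 * (d.eta2 * (1 / d.D)) + I (a ∈ e ∧ b ∈ e) * (1 / d.D) := by
  have hx : (0 : ℝ) ≤ 1 / d.D := by positivity
  have b3 : 0 ≤ d.eta2 * (1 / (d.D : ℝ)) := mul_nonneg h.eta2_nonneg hx
  have key : |d.E (fun ω => I (e ∈ ω.1) * (d.sv a ω * d.sv b ω))| ≤
      4 * (d.eta2 * (1 / d.D)) + I (a ∈ e ∧ b ∈ e) * (1 / d.D) := by
    have i0 : 0 ≤ I (a ∈ e ∧ b ∈ e) * (1 / (d.D : ℝ)) := mul_nonneg (I_nonneg _) hx
    by_cases ha : a ∈ e <;> by_cases hb : b ∈ e
    · have e1 : ∀ ω : Om V, I (e ∈ ω.1) * (d.sv a ω * d.sv b ω) =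
          (1 - d.ps a) * (1 - d.ps b) * I (e ∈ ω.1) := by
        intro ω
        calc _ = I (e ∈ ω.1) * d.sv a ω * d.sv b ω := by ring
          _ = (1 - d.ps a) * (I (e ∈ ω.1) * d.sv b ω) := by rw [I_mul_sv he ha]; ring
          _ = _ := by rw [I_mul_sv he hb]; ring
      simp only [e1]
      unfold Dat.E
      rw [Ex_const_mul, h.spec.marg e (Finset.mem_filter.1 he).1, I_pos ⟨ha, hb⟩]
      have pa := h.ps_nonneg a
      have pb := h.ps_nonneg b
      have qa := ps_le_half h a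
      have qb := ps_le_half h b
      have c1 : 0 ≤ (1 - d.ps a) * (1 - d.ps b) := mul_nonneg (by linarith) (by linarith)
      have c2 : (1 - d.ps a) * (1 - d.ps b) ≤ 1 :=
        mul_le_one₀ (by linarith) (by linarith) (by linarith)
      rw [abs_of_nonneg (mul_nonneg c1 hx)]
      linarith [mul_le_mul_of_nonneg_right c2 hx]
    · linarith [cross_one h1 h he ha hb]
    · have := cross_one h1 h he hb ha
      simp only [mul_comm (d.sv b _)] at this
      linarith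
    · have g := gen1 h1 h he {a, b} (by simp [Finset.disjoint_right, ha, hb])
        (by rw [Finset.card_pair hab]; omega) ⟨a, by simp⟩
      simp only [Finset.prod_pair hab, Finset.card_pair hab] at g
      linarith
  have t2 := two h1 h hab
  simp only [sub_mul]
  unfold Dat.E at key t2 ⊢
  rw [Ex_sub, Ex_const_mul]
  refine (abs_sub _ _).trans ?_
  rw [abs_mul, abs_of_nonneg hx]
  linarith [mul_le_mul_of_nonneg_left t2 hx]

lemma both_le (h : d.Ok) {a b : V} (hab : a ≠ b) : ∑ e ∈ d.sm, I (a ∈ e ∧ b ∈ e) ≤ 1 := by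
  simp only [I_eq_ite]
  rw [Finset.sum_boole]
  have : (d.sm.filter fun e => a ∈ e ∧ b ∈ e).card ≤ 1 := by
    refine Finset.card_le_one.2 fun e he f hf => ?_
    rw [Finset.mem_filter] at he hf
    exact h.hyp.eq_of_two (Finset.mem_filter.1 he.1).1 (Finset.mem_filter.1 hf.1).1 hab he.2.1
      he.2.2 hf.2.1 hf.2.2
  exact_mod_cast this

/-- the cross term -/
lemma cross_lin (h1 : StL3) (h : d.Ok) (c : Finset V → ℝ) {S m : ℝ}
    (hS : ∑ e ∈ d.sm, |c e| / d.D ≤ S) (hm : ∀ e ∈ d.sm, |c e| ≤ m) (hm0 : 0 ≤ m) {a b : V}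
    (hab : a ≠ b) :
    d.E (fun ω => d.Lin c ω * (d.sv a ω * d.sv b ω)) ≤ 8 * d.eta2 * S + m * (1 / d.D) := by
  have hx : (0 : ℝ) ≤ 1 / d.D := by positivity
  have e1 : d.E (fun ω => d.Lin c ω * (d.sv a ω * d.sv b ω)) =
      ∑ e ∈ d.sm, c e * d.E (fun ω => (I (e ∈ ω.1) - 1 / d.D) * (d.sv a ω * d.sv b ω)) := by
    unfold Dat.E Dat.Lin
    simp only [Finset.sum_mul, mul_assoc]
    rw [Ex_sum]
    exact Finset.sum_congr rfl fun e _ => Ex_const_mul _ _
  rw [e1]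
  calc _ ≤ ∑ e ∈ d.sm, (8 * d.eta2 * (|c e| / d.D) + m * (1 / d.D) * I (a ∈ e ∧ b ∈ e)) := by
        refine Finset.sum_le_sum fun e he => (le_abs_self _).trans ?_
        rw [abs_mul]
        have c1 := mul_le_mul_of_nonneg_left (cross h1 h he hab) (abs_nonneg (c e))
        have c2 := mul_le_mul_of_nonneg_right (hm e he)
          (mul_nonneg (I_nonneg (a ∈ e ∧ b ∈ e)) hx)
        have c3 : |c e| / d.D = |c e| * (1 / d.D) := by ring
        rw [c3]
        nlinarith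
    _ = 8 * d.eta2 * ∑ e ∈ d.sm, |c e| / d.D +
          m * (1 / d.D) * ∑ e ∈ d.sm, I (a ∈ e ∧ b ∈ e) := by
        rw [Finset.sum_add_distrib, Finset.mul_sum, Finset.mul_sum]
    _ ≤ _ := add_le_add (mul_le_mul_of_nonneg_left hS (by linarith [h.eta2_nonneg]))
        (mul_le_of_le_one_right (mul_nonneg hm0 hx) (both_le h hab))

/-- second moment of the sum of products -/
lemma gsq (h1 : StL3) (h : d.Ok) (Cr : Finset V) (t : V → V)
    (ht : ∀ a ∈ Cr, t a ≠ a ∧ t (t a) = a) :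
    d.E (fun ω => (∑ a ∈ Cr, d.sv a ω * d.sv (t a) ω) ^ 2) ≤
      Cr.card / 8 + 16 * (Cr.card : ℝ) ^ 2 * d.eta2 := by
  have e1 : d.E (fun ω => (∑ a ∈ Cr, d.sv a ω * d.sv (t a) ω) ^ 2) =
      ∑ a ∈ Cr, ∑ a' ∈ Cr,
        d.E (fun ω => d.sv a ω * d.sv (t a) ω * (d.sv a' ω * d.sv (t a') ω)) := by
    unfold Dat.E
    simp only [sq, Finset.sum_mul_sum]
    rw [Ex_sum]
    exact Finset.sum_congr rfl fun a _ => Ex_sum _ _
  rw [e1]
  have e2 : ∀ a ∈ Cr, ∑ a' ∈ Cr,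
      d.E (fun ω => d.sv a ω * d.sv (t a) ω * (d.sv a' ω * d.sv (t a') ω)) ≤
        1 / 8 + 16 * Cr.card * d.eta2 := by
    intro a ha
    calc _ ≤ ∑ a' ∈ Cr, ((if a' ∈ ({a, t a} : Finset V) then (1 / 16 : ℝ) else 0) +
            16 * d.eta2) := by
          refine Finset.sum_le_sum fun a' ha' => ?_
          by_cases c1 : a' = a
          · subst c1
            rw [if_pos (by simp)]
            exact square h1 h (ht a' ha).1.symm
          by_cases c2 : a' = t a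
          · subst c2
            rw [if_pos (by simp), (ht a ha).2]
            simp only [mul_comm (d.sv (t a) _) (d.sv a _)]
            exact square h1 h (ht a ha).1.symm
          rw [if_neg (by simp [c1, c2]), zero_add]
          refine four h1 h (ht a ha).1.symm (Ne.symm c1) ?_ (Ne.symm c2) ?_ (ht a' ha').1.symm
          · intro c3
            exact c2 (by rw [c3, (ht a' ha').2])
          · intro c3
            exact c1 (by rw [← (ht a' ha').2, ← c3, (ht a ha).2])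
      _ ≤ _ := by
          rw [Finset.sum_add_distrib, Finset.sum_ite_mem, Finset.sum_const, Finset.sum_const,
            nsmul_eq_mul, nsmul_eq_mul]
          have c1 : (Cr ∩ {a, t a}).card ≤ 2 :=
            (Finset.card_le_card Finset.inter_subset_right).trans Finset.card_le_two
          have c2 : ((Cr ∩ {a, t a}).card : ℝ) ≤ 2 := by exact_mod_cast c1
          linarith
  refine (Finset.sum_le_card_nsmul _ _ _ e2).trans (le_of_eq ?_)
  rw [nsmul_eq_mul]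
  ring

lemma JJ_nonneg {W : Finset V} {co : V → ℝ} (hc : ∀ w ∈ W, 0 ≤ co w) (e : Finset V) :
    0 ≤ d.JJ W co e :=
  Finset.sum_nonneg fun w hw => hc w (Finset.mem_inter.1 hw).2

lemma KA (h : d.Ok) : d.K * d.A0 ^ 2 * (1 / d.D) ≤ tau := by
  have hK : (1 : ℝ) ≤ d.K := le_trans (by norm_num) h.good.K_ge
  have g3 := h.good.g3
  have c1 : d.K * d.A0 ^ 2 ≤ (d.K : ℝ) ^ 2 * d.A0 ^ 2 :=
    mul_le_mul_of_nonneg_right (by nlinarith) (sq_nonneg _)
  rw [mul_one_div, div_le_iff₀ h.D_pos]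
  linarith

lemma A0_eta2 (h : d.Ok) : d.A0 ^ 2 * d.eta2 ≤ 25 * tau := by
  have c1 := KA h
  have c2 := h.good.g1
  have e : d.A0 ^ 2 * d.eta2 = 5 * (d.η * d.A0 ^ 2) + 20 * (d.K * d.A0 ^ 2 * (1 / d.D)) := by
    unfold Dat.eta2
    ring
  linarith

end LV

open LV in
theorem stv (h1 : StL3) (h2 : StL5) (h3 : StQn) (h4 : StQm) : StV := by
  intro V _ _ d h W co om Cr t Cg hW hco hcl hom homs hCr ht hC0 hC4
  have hA1 := h.good.A1
  have hη := h.eta2_nonneg
  have hAη := A0_eta2 h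
  have hKA := KA h
  have hK : (1 : ℝ) ≤ d.K := le_trans (by norm_num) h.good.K_ge
  have hx : (0 : ℝ) ≤ 1 / d.D := by positivity
  have htau : tau = 1 / 10 ^ 100 := rfl
  have htau1 : tau1 = 1 / 10 ^ 50 := rfl
  have hr0 : (0 : ℝ) ≤ Cr.card := Nat.cast_nonneg _
  have hr : (Cr.card : ℝ) ≤ 10 ^ 7 * d.A0 := by
    have c1 := h.card_heavy_le W
    have c2 : Cr.card ≤ (W.filter fun w => ¬ d.light w).card :=
      Finset.card_le_card fun a ha => Finset.mem_filter.2 ⟨hCr ha, (ht a ha).1⟩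
    have c3 : (Cr.card : ℝ) ≤ (W.filter fun w => ¬ d.light w).card := by exact_mod_cast c2
    unfold eps at c1
    linarith
  have hAA : d.A0 ≤ d.A0 ^ 2 := le_self_pow₀ hA1 (by norm_num)
  have hrA : Cr.card * d.A0 ≤ 10 ^ 7 * d.A0 ^ 2 := by
    linarith [mul_le_mul_of_nonneg_right hr (zero_le_one.trans hA1)]
  have hr1 : (Cr.card : ℝ) ≤ 10 ^ 7 * d.A0 ^ 2 := by linarith
  have hr2 : (Cr.card : ℝ) ^ 2 ≤ 10 ^ 14 * d.A0 ^ 2 := by linarith [pow_le_pow_left₀ hr0 hr 2]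
  constructor
  · have e1 : d.E (d.ZZ W co om Cr t Cg) =
        Cg / 2 * ∑ a ∈ Cr, d.E (fun ω => d.sv a ω * d.sv (t a) ω) := by
      have z : ∀ a, Ex d.p (fun ω => d.sv a ω) = 0 := fun a => h.E_sv a
      unfold Dat.E Dat.ZZ
      rw [Ex_add, Ex_sub, Ex_const_mul, Ex_sum, Ex_sum, Ex_sum]
      simp only [Ex_const_mul, z, mul_zero, Finset.sum_const_zero, sub_zero, zero_add]
    have e2 : |∑ a ∈ Cr, d.E (fun ω => d.sv a ω * d.sv (t a) ω)| ≤ Cr.card * (4 * d.eta2) := by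
      refine (Finset.abs_sum_le_sum_abs _ _).trans ?_
      rw [← nsmul_eq_mul]
      exact Finset.sum_le_card_nsmul _ _ _ fun a ha => two h1 h (ht a ha).2.2.1.symm
    rw [e1, abs_mul, abs_of_nonneg (by linarith : 0 ≤ Cg / 2)]
    have e3 := mul_le_mul (show Cg / 2 ≤ 2 by linarith) e2 (abs_nonneg _) (by norm_num)
    have e4 := mul_le_mul_of_nonneg_right hr1 hη
    have e5 : 2 * 10 ^ 9 * tau ≤ tau1 := by rw [htau, htau1]; norm_num
    linarith
  set J := d.JJ W co with hJ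
  set O := d.JJ univ om with hO
  have J0 : ∀ e, 0 ≤ J e := JJ_nonneg fun w hw => (hco w hw).1
  have O0 : ∀ e, 0 ≤ O e := JJ_nonneg fun w _ => hom w
  have sJ : ∑ e ∈ d.sm, J e / d.D ≤ 2.5 * d.A0 := by
    rw [hJ, h.sum_JJ]
    calc _ ≤ ∑ w ∈ W, 2.5 * d.A w := by
          refine Finset.sum_le_sum fun w hw => ?_
          have c1 := mul_le_mul_of_nonneg_right (hco w hw).2 (h.ps_nonneg w)
          linarith [h.ps_le_pv w, h.two_pv_le w]
      _ = 2.5 * d.AW W := by rw [← Finset.mul_sum]; rfl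
      _ ≤ _ := by linarith
  have sJ0 : 0 ≤ ∑ e ∈ d.sm, J e / d.D :=
    Finset.sum_nonneg fun e _ => div_nonneg (J0 e) h.D_pos.le
  have om0 : 0 ≤ ∑ a, om a := Finset.sum_nonneg fun a _ => hom a
  have sO : ∑ e ∈ d.sm, O e / d.D ≤ 0.5 := by
    rw [hO, h.sum_JJ]
    calc _ ≤ ∑ w, om w * (1 / 2) :=
          Finset.sum_le_sum fun w _ => mul_le_mul_of_nonneg_left (ps_le_half h w) (hom w)
      _ = (∑ w, om w) * (1 / 2) := by rw [Finset.sum_mul]
      _ ≤ _ := by linarith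
  have babs : ∀ e, |J e - O e| ≤ J e + O e := fun e => by
    rw [abs_le]
    constructor <;> linarith [J0 e, O0 e]
  have sb : ∑ e ∈ d.sm, |J e - O e| / d.D ≤ 3 * d.A0 := by
    calc _ ≤ ∑ e ∈ d.sm, (J e / d.D + O e / d.D) := by
          refine Finset.sum_le_sum fun e _ => ?_
          rw [← add_div]
          exact div_le_div_of_nonneg_right (babs e) h.D_pos.le
      _ ≤ _ := by rw [Finset.sum_add_distrib]; linarith
  have sb0 : 0 ≤ ∑ e ∈ d.sm, |J e - O e| / d.D :=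
    Finset.sum_nonneg fun e _ => div_nonneg (abs_nonneg _) h.D_pos.le
  have bm : ∀ e ∈ d.sm, |J e - O e| ≤ 6 * d.K := by
    intro e he
    have c1 : J e ≤ (e ∩ W).card • (5 : ℝ) :=
      Finset.sum_le_card_nsmul _ _ _ fun w hw => (hco w (Finset.mem_inter.1 hw).2).2
    have c2 : (e ∩ W).card ≤ d.K :=
      (Finset.card_le_card Finset.inter_subset_left).trans (Finset.mem_filter.1 he).2
    have c3 : ((e ∩ W).card : ℝ) ≤ d.K := by exact_mod_cast c2
    have c4 : O e ≤ ∑ a, om a :=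
      Finset.sum_le_sum_of_subset_of_nonneg (Finset.subset_univ _) fun a _ _ => hom a
    rw [nsmul_eq_mul] at c1
    linarith [babs e]
  have e1 : d.E (fun ω => d.ZZ W co om Cr t Cg ω ^ 2) =
      d.E (fun ω => d.Lin (fun e => J e - O e) ω ^ 2) +
        Cg * ∑ a ∈ Cr, d.E (fun ω => d.Lin (fun e => J e - O e) ω * (d.sv a ω * d.sv (t a) ω)) +
        Cg ^ 2 / 4 * d.E (fun ω => (∑ a ∈ Cr, d.sv a ω * d.sv (t a) ω) ^ 2) := by
    unfold Dat.E
    rw [← Ex_sum, ← Ex_const_mul, ← Ex_const_mul, ← Ex_add, ← Ex_add]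
    refine Ex_congr fun ω hω => ?_
    have c1 : d.Lin (fun e => J e - O e) ω = d.Lin J ω - d.Lin O ω := by
      unfold Dat.Lin
      rw [← Finset.sum_sub_distrib]
      exact Finset.sum_congr rfl fun e _ => by ring
    unfold Dat.ZZ
    rw [h.sum_sv hω, h.sum_sv hω, ← hJ, ← hO, ← c1, ← Finset.mul_sum]
    ring
  have b1 := h2 V d h fun e => J e - O e
  have b2 := h3 V d h J om J0 hom
  have b3 := h4 V d h W co hW hco hcl
  rw [← hO] at b2
  rw [← hJ] at b3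
  have b4 : ∑ a ∈ Cr, d.E (fun ω => d.Lin (fun e => J e - O e) ω * (d.sv a ω * d.sv (t a) ω)) ≤
      Cr.card * (8 * d.eta2 * (3 * d.A0) + 6 * d.K * (1 / d.D)) := by
    rw [← nsmul_eq_mul]
    exact Finset.sum_le_card_nsmul _ _ _ fun a ha =>
      cross_lin h1 h _ sb bm (by linarith) (ht a ha).2.2.1.symm
  have b5 := gsq h1 h Cr t fun a ha => (ht a ha).2.2
  -- the error terms
  have r1 : 3 * d.η * (∑ e ∈ d.sm, |J e - O e| / d.D) ^ 2 ≤ 27 * tau := by
    have c1 : (∑ e ∈ d.sm, |J e - O e| / d.D) ^ 2 ≤ (3 * d.A0) ^ 2 := pow_le_pow_left₀ sb0 sb 2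
    have c2 := mul_le_mul_of_nonneg_left c1 h.good.eta0
    have c3 := h.good.g1
    linarith
  have r2 : 2 * (∑ a, om a) ^ 2 / d.D ≤ 2 * tau := by
    have c1 : (∑ a, om a) ^ 2 ≤ 1 := pow_le_one₀ om0 homs
    have c2 := mul_le_mul_of_nonneg_right c1 hx
    have c3 := h.good.inv_D_le
    have c4 : 2 * (∑ a, om a) ^ 2 / d.D = 2 * ((∑ a, om a) ^ 2 * (1 / d.D)) := by ring
    linarith
  have hKx : 0 ≤ d.K * (1 / (d.D : ℝ)) := by positivity
  have r3 : 2 * (d.K / d.D) * (∑ a, om a) * ∑ e ∈ d.sm, J e / d.D ≤ 5 * tau := by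
    have c1 : (∑ a, om a) * ∑ e ∈ d.sm, J e / d.D ≤ 1 * (2.5 * d.A0 ^ 2) :=
      mul_le_mul homs (sJ.trans (by linarith)) sJ0 zero_le_one
    have c2 := mul_le_mul_of_nonneg_left c1 hKx
    have c3 : 2 * (d.K / d.D) * (∑ a, om a) * ∑ e ∈ d.sm, J e / d.D =
        2 * (d.K * (1 / d.D) * ((∑ a, om a) * ∑ e ∈ d.sm, J e / d.D)) := by ring
    linarith
  have r4 : Cr.card * (8 * d.eta2 * (3 * d.A0) + 6 * d.K * (1 / d.D)) ≤ 10 ^ 10 * tau := by
    have c1 := mul_le_mul_of_nonneg_right hrA hη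
    have c2 := mul_le_mul_of_nonneg_right hr1 hKx
    have c3 : 0 ≤ tau := by rw [htau]; positivity
    linarith
  have r5 : Cg * ∑ a ∈ Cr,
      d.E (fun ω => d.Lin (fun e => J e - O e) ω * (d.sv a ω * d.sv (t a) ω)) ≤
        4 * (10 ^ 10 * tau) :=
    (mul_le_mul_of_nonneg_left (b4.trans r4) hC0).trans
      (mul_le_mul_of_nonneg_right hC4 (by rw [htau]; positivity))
  have r6 : Cg ^ 2 / 4 * d.E (fun ω => (∑ a ∈ Cr, d.sv a ω * d.sv (t a) ω) ^ 2) ≤
      Cr.card * Cg ^ 2 / 32 + 10 ^ 18 * tau := by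
    have c1 := mul_le_mul_of_nonneg_left b5 (show 0 ≤ Cg ^ 2 / 4 by positivity)
    have c2 := mul_le_mul_of_nonneg_right hr2 hη
    have c3 : Cg ^ 2 ≤ 4 ^ 2 := pow_le_pow_left₀ hC0 hC4 2
    have c4 : Cg ^ 2 * ((Cr.card : ℝ) ^ 2 * d.eta2) ≤ 4 ^ 2 * ((Cr.card : ℝ) ^ 2 * d.eta2) :=
      mul_le_mul_of_nonneg_right c3 (mul_nonneg (sq_nonneg _) hη)
    have c5 : 0 ≤ tau := by rw [htau]; positivity
    linarith
  have r7 : tau1 / 10 + 27 * tau + 2 * tau + 5 * tau + 4 * (10 ^ 10 * tau) + 10 ^ 18 * tau ≤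
      tau1 := by
    rw [htau, htau1]
    norm_num
  rw [e1]
  linarith

end Pool.Agent.P.MP_553766_co.Lg
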