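import Mathlib
import Pool.Agent.P.MP_553766_co.LSt3

set_option autoImplicit false
set_option linter.unusedSectionVars false

/-! From the cut conditions to the values on the pairs. -/

namespace Pool.Agent.P.MP_553766_co.Lg

open Finset Pool.Agent.P.MP_553766_co

namespace LVG

variable {V : Type} [Fintype V] [DecidableEq V] {d : Dat V}

lemma I_mul_le (P : Prop) {x y : ℝ} (hxy : x ≤ y) (hy : 0 ≤ y) : I P * x ≤ y := by
  by_cases hP : P
  · rw [I_pos hP, one_mul]; exact hxy
  · rw [I_neg hP, zero_mul]; exact hy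

lemma cert_al (h : d.Ok) (u : V) {J : Finset V} (hJ : J ⊆ d.nb u) :
    ∑ _w ∈ J, d.al u ≤ d.D * J.card / (J.card + 1) := by
  rw [Finset.sum_const, nsmul_eq_mul]
  have h1 : (J.card : ℝ) ≤ (d.nb u).card := by exact_mod_cast Finset.card_le_card hJ
  have h2 : (0 : ℝ) ≤ J.card := Nat.cast_nonneg _
  have h3 : d.al u ≤ d.D / (J.card + 1) :=
    div_le_div_of_nonneg_left h.D_pos.le (by positivity) (by linarith)
  calc (J.card : ℝ) * d.al u ≤ J.card * (d.D / (J.card + 1)) := mul_le_mul_of_nonneg_left h3 h2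
    _ = d.D * J.card / (J.card + 1) := by ring

lemma nv_nonneg (h : d.Ok) (u w : V) : 0 ≤ d.nv u w := by
  unfold Dat.nv
  split_ifs with hc
  · linarith [h.nu_ge (u := u) hc.2]
  · linarith [h.one_le_nn u w]

lemma arith {D j H s b : ℝ} (hD : (10 : ℝ) ^ 200 ≤ D) (hj : 0 ≤ j) (hH : 0 ≤ H)
    (s1 : s ≤ D - b) (s2 : s ≤ 5 * j) (s3 : s ≤ (1 + 3 * eps) * j + 4 * H)
    (hb : b = if H ≤ D / 20 then 1 + 10 * eps + 20 * H / D else 5) :
    s ≤ D * j / (j + 1) := by
  have hD0 : 0 < D := lt_of_lt_of_le (by positivity) hD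
  have hj1 : 0 < j + 1 := by linarith
  have e1 : D * j / (j + 1) = D - D / (j + 1) := by field_simp; ring
  have e2 : D * j / (j + 1) = j * (D / (j + 1)) := by ring
  by_cases c1 : D / (j + 1) ≤ b
  · rw [e1]; linarith
  by_cases c2 : 5 ≤ D / (j + 1)
  · rw [e2]; nlinarith
  push Not at c1 c2
  split_ifs at hb with c3
  · have c4 : D < 5 * (j + 1) := by rwa [div_lt_iff₀ hj1] at c2
    have c5 : 4 * H - 1 ≤ j * (20 * H / D) := by
      have : j * (20 * H / D) = 20 * H * j / D := by ring
      rw [this, le_div_iff₀ hD0]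
      nlinarith [mul_nonneg hH (show 0 ≤ 5 * (j + 1) - D by linarith)]
    have c6 : 1 ≤ 7 * eps * j := by
      have : (10 : ℝ) ^ 10 ≤ 10 ^ 200 := pow_le_pow_right₀ (by norm_num) (by norm_num)
      unfold eps
      norm_num at this ⊢
      linarith
    rw [e2]
    have c7 : j * b ≤ j * (D / (j + 1)) := mul_le_mul_of_nonneg_left c1.le hj
    rw [hb] at c7
    nlinarith
  · linarith

end LVG

open LVG

theorem vstat (h1 : StCov) : StVStat := by
  intro V _ _ d h u hu hST
  have hact : ¬ d.act u := fun ha => ha.2.1 hST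
  refine ⟨fun w ω => I (d.free ω u ∧ d.free ω w) * d.nv u w, fun _ _ => d.al u,
    fun w _ ω => mul_nonneg (I_nonneg _) (nv_nonneg h u w), fun w hw ω => ?_, fun ω => ?_,
    fun w _ => ?_, fun ω J hJ => cert_al h u hJ, fun w _ ω => ?_, fun hn => absurd hu hn⟩
  · rw [Dat.ctl_light hu] at hw
    unfold Dat.cap Dat.nv
    refine mul_le_mul_of_nonneg_left ?_ (I_nonneg _)
    rw [if_pos hu]
    by_cases hl : d.light w
    · rw [if_pos ⟨hu, hl⟩, if_pos hl, Dat.xi_not_act hact]
      linarith [h.eb_nonneg w]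
    · rw [if_neg (fun hc => hl hc.2), if_neg hl]
      exact (h1 V d h u w hw).1.trans (h.cb_le_CC hl (Dat.A_le_of_heavy hu hl))
  · rw [Dat.ctl_light hu]
    unfold Dat.pool
    rw [Dat.in_light hu]
    have hr : 0 ≤ d.eb u + rho / d.D := by
      have := h.eb_nonneg u
      have := h.D_pos
      unfold rho
      positivity
    have key : ∑ w ∈ d.nb u, I (d.free ω u ∧ d.free ω w) * d.nv u w +
        ∑ w ∈ d.nL u, d.cap w u ω ≤
        ∑ w ∈ d.nb u, d.nn u w + ∑ _w ∈ d.nL u, (d.eb u + rho / d.D) := by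
      unfold Dat.nL
      rw [Finset.sum_filter, Finset.sum_filter, ← Finset.sum_add_distrib,
        ← Finset.sum_add_distrib]
      refine Finset.sum_le_sum fun w _ => ?_
      have hn := h.one_le_nn u w
      by_cases hl : d.light w
      · unfold Dat.cap Dat.nv
        rw [if_pos hl, if_pos hl, if_pos hl, if_pos hu, if_pos ⟨hu, hl⟩,
          I_congr (and_comm (a := d.free ω w)), ← mul_add]
        refine I_mul_le _ ?_ (by linarith)
        linarith [h.nu_add u w, h.xi_le (u := w) ω hu]
      · unfold Dat.nv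
        rw [if_neg hl, if_neg hl, if_neg (fun hc => hl hc.2), add_zero, add_zero]
        exact I_mul_le _ le_rfl (by linarith)
    rw [Finset.sum_const, nsmul_eq_mul] at key
    unfold Dat.ST at hST
    linarith
  · unfold Dat.E
    rw [Ex_mul_const, ← h.nv_mul u w, mul_comm]
    exact le_rfl
  · have a1 := h.al_pos u
    have a2 := h.al_pos w
    rw [mul_left_comm]
    unfold Dat.nv
    split_ifs with hc
    · exact I_mul_le _ (by linarith [h.two_nu_le u w]) (by linarith)
    · exact I_mul_le _ (h.two_nn_le u w) (by linarith)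

theorem vdyn (h1 : StLP) : StVDyn := by
  intro V _ _ d h u hS
  obtain ⟨z, z1, z2, z3, z4⟩ := h1 (Om V) V d.p (d.ctl u) (d.cap u) (d.hh u) (d.pool u)
    (fun _ => d.bud u) (d.tg u) h.pnn (fun w _ ω => ⟨h.hh_nonneg u w ω, h.hh_le u w ω⟩)
    (h.pool_nonneg u) (fun _ => h.bud_nonneg u) hS
  by_cases hu : d.light u
  · refine ⟨z, fun w ω => max (2 * z w ω - d.hh u w ω) 0, fun w hw ω => (z1 w hw ω).1,
      fun w hw ω => (z1 w hw ω).2, z2, z4, fun ω J hJ => ?_, fun w _ ω => ?_,
      fun hn => absurd hu hn⟩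
    · have he : (0 : ℝ) < eps := by unfold eps; norm_num
      have he' : eps ≤ 1 := by unfold eps; norm_num
      rw [Dat.ctl_light hu] at z1 z3
      have b1 : ∀ w ∈ J, max (2 * z w ω - d.hh u w ω) 0 ≤
          (1 + 3 * eps) + if ¬ d.light w then 4 else 0 := by
        intro w hw
        have c1 := (z1 w (hJ hw) ω).2
        by_cases hl : d.light w
        · rw [if_neg (not_not.2 hl)]
          refine max_le ?_ (by linarith)
          have c2 : 2 * d.cap u w ω ≤ 1 + 3 * eps := by
            unfold Dat.cap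
            rw [if_pos hu, if_pos hl, mul_left_comm]
            exact I_mul_le _ (h.capL_le hu hl ω) (by linarith)
          linarith [h.hh_nonneg u w ω]
        · rw [if_pos hl]
          refine max_le ?_ (by linarith)
          have c2 : 2 * d.cap u w ω - d.hh u w ω ≤ 5 := by
            unfold Dat.cap Dat.hh
            rw [if_pos hu, if_pos hu, if_neg hl, if_neg hl, mul_left_comm, ← mul_sub]
            refine I_mul_le _ ?_ (by norm_num)
            have c3 : d.CC w ≤ min (d.al w) (2 * d.CC w) :=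
              le_min (h.CC_le_al w) (by linarith [h.CC_ge w])
            linarith [h.CC_le_five w]
          linarith
      have b2 : ∀ w ∈ J, max (2 * z w ω - d.hh u w ω) 0 ≤ 5 := by
        intro w hw
        have c1 := (z1 w (hJ hw) ω).2
        refine max_le ?_ (by norm_num)
        by_cases hl : d.light w
        · have c2 := b1 w hw
          rw [if_neg (not_not.2 hl)] at c2
          linarith [le_max_left (2 * z w ω - d.hh u w ω) 0]
        · have c2 : 2 * d.cap u w ω - d.hh u w ω ≤ 5 := by
            unfold Dat.cap Dat.hh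
            rw [if_pos hu, if_pos hu, if_neg hl, if_neg hl, mul_left_comm, ← mul_sub]
            refine I_mul_le _ ?_ (by norm_num)
            have c3 : d.CC w ≤ min (d.al w) (2 * d.CC w) :=
              le_min (h.CC_le_al w) (by linarith [h.CC_ge w])
            linarith [h.CC_le_five w]
          linarith
      refine arith (H := (d.nH u).card) (b := d.beta u) h.good.D_ge (Nat.cast_nonneg _)
        (Nat.cast_nonneg _) ?_ ?_ ?_ rfl
      · have c1 := z3 ω
        unfold Dat.bud at c1
        rw [if_pos hu] at c1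
        exact (Finset.sum_le_sum_of_subset_of_nonneg hJ fun _ _ _ => le_max_right _ _).trans c1
      · have c1 := Finset.sum_le_sum b2
        rw [Finset.sum_const, nsmul_eq_mul] at c1
        linarith
      · have c1 := Finset.sum_le_sum b1
        rw [Finset.sum_add_distrib, Finset.sum_const, nsmul_eq_mul, ← Finset.sum_filter,
          Finset.sum_const, nsmul_eq_mul] at c1
        have c2 : ((J.filter (fun w => ¬ d.light w)).card : ℝ) ≤ (d.nH u).card := by
          exact_mod_cast Finset.card_le_card (Finset.filter_subset_filter _ hJ)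
        linarith
    · have c1 := le_max_left (2 * z w ω - d.hh u w ω) 0
      have c2 : d.hh u w ω ≤ if d.light u ∧ d.light w then 0 else d.al w := by
        unfold Dat.hh
        rw [if_pos hu]
        by_cases hl : d.light w
        · rw [if_pos hl, if_pos ⟨hu, hl⟩, mul_zero]
        · rw [if_neg hl, if_neg (fun hc => hl hc.2)]
          exact I_mul_le _ (min_le_left _ _) (h.al_pos w).le
      linarith
  · refine ⟨z, fun _ _ => d.al u, fun w hw ω => (z1 w hw ω).1,
      fun w hw ω => (z1 w hw ω).2, z2, z4, fun ω J hJ => cert_al h u hJ, fun w hw ω => ?_,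
      fun _ _ _ _ => le_rfl⟩
    have hl : ¬ d.light w := ((Dat.ctrl_heavy hu).1 (Finset.mem_filter.1 hw).2).1
    rw [if_neg (fun hc => hl hc.2)]
    have c1 := (z1 w hw ω).2
    have c2 : 2 * d.cap u w ω ≤ d.al u + d.al w := by
      unfold Dat.cap
      rw [if_neg hu, mul_left_comm]
      exact I_mul_le _ (h.two_cb_le hu hl) (by linarith [h.al_pos u, h.al_pos w])
    linarith

theorem stz : StZ := by
  intro V _ _ d h hG
  choose ζ a hg using hG
  have mem : ∀ u w, w ∈ d.nb u → d.ctrl u w → w ∈ d.ctl u := fun u w hw hc =>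
    Finset.mem_filter.2 ⟨hw, hc⟩
  have nn : ∀ u w, w ∈ d.nb u → ∀ ω, 0 ≤ if d.ctrl u w then ζ u w ω else 0 := by
    intro u w hw ω
    split_ifs with hc
    · exact (hg u).nonneg w (mem u w hw hc) ω
    · exact le_rfl
  have lc : ∀ u w, w ∈ d.nb u → ∀ ω, (if d.ctrl u w then ζ u w ω else 0) ≤ d.cap u w ω := by
    intro u w hw ω
    split_ifs with hc
    · exact (hg u).le_cap w (mem u w hw hc) ω
    · exact h.cap_nonneg u w ω
  have one : ∀ u w, w ∈ d.nb u → ¬ (d.light u ∧ d.light w) →
      (d.ctrl u w ∧ ¬ d.ctrl w u ∧ ¬ d.light w) ∨ (d.ctrl w u ∧ ¬ d.ctrl u w ∧ ¬ d.light u) := by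
    intro u w hw hn
    have hne : u ≠ w := fun e => h.irr u (e ▸ hw)
    by_cases hu : d.light u
    · have hl : ¬ d.light w := fun hl => hn ⟨hu, hl⟩
      exact Or.inl ⟨Or.inl hu, fun hc => ((Dat.ctrl_heavy hl).1 hc).1 hu, hl⟩
    · by_cases hl : d.light w
      · exact Or.inr ⟨Or.inl hl, fun hc => ((Dat.ctrl_heavy hu).1 hc).1 hl, hu⟩
      · rcases Dat.prec_total (d := d) hne with hp | hp
        · exact Or.inl ⟨Or.inr ⟨hl, hp⟩,
            fun hc => Dat.prec_asymm hp ((Dat.ctrl_heavy hl).1 hc).2, hl⟩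
        · exact Or.inr ⟨Or.inr ⟨hu, hp⟩,
            fun hc => Dat.prec_asymm hp ((Dat.ctrl_heavy hu).1 hc).2, hu⟩
  refine ⟨fun u w ω => (if d.ctrl u w then ζ u w ω else 0) + (if d.ctrl w u then ζ w u ω else 0),
    a, fun u w ω => add_comm _ _,
    fun u w hw ω => add_nonneg (nn u w hw ω) (nn w u (h.symm u w hw) ω),
    fun u w hw ω hf => ?_, fun u ω => ?_, fun u w hw => ?_, fun u => (hg u).cert,
    fun u w hw ω => ?_⟩
  · have c1 := lc u w hw ω
    have c2 := lc w u (h.symm u w hw) ω
    have c3 := nn u w hw ω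
    have c4 := nn w u (h.symm u w hw) ω
    rw [h.cap_not_free hf] at c1
    have c5 : d.cap w u ω = 0 := by
      unfold Dat.cap
      rw [I_neg (fun hc => hf hc.2), zero_mul]
    rw [c5] at c2
    linarith
  · rw [Finset.sum_add_distrib, ← Finset.sum_filter, ← Finset.sum_filter]
    have c1 := (hg u).load ω
    have c2 : ∑ w ∈ (d.nb u).filter (fun w => d.ctrl w u), ζ w u ω ≤
        ∑ w ∈ (d.nb u).filter (fun w => d.ctrl w u), d.cap w u ω := by
      refine Finset.sum_le_sum fun w hw => ?_
      obtain ⟨hw1, hw2⟩ := Finset.mem_filter.1 hw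
      exact (hg w).le_cap u (mem w u (h.symm u w hw1) hw2) ω
    unfold Dat.pool Dat.ctl at c1
    linarith
  · have hw' := h.symm u w hw
    by_cases hb : d.light u ∧ d.light w
    · have c1 : d.ctrl u w := Or.inl hb.1
      have c2 : d.ctrl w u := Or.inl hb.2
      simp only [if_pos c1, if_pos c2]
      have c3 := (hg u).mean w (mem u w hw c1)
      have c4 := (hg w).mean u (mem w u hw' c2)
      unfold Dat.E at c3 c4 ⊢
      rw [Ex_add]
      linarith [h.tg_add hb.1 hb.2]
    · rcases one u w hw hb with ⟨c1, c2, _⟩ | ⟨c1, c2, _⟩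
      · simp only [if_pos c1, if_neg c2, add_zero]
        have c3 := (hg u).mean w (mem u w hw c1)
        unfold Dat.tg at c3
        rwa [if_neg hb] at c3
      · simp only [if_pos c1, if_neg c2, zero_add]
        have c3 := (hg w).mean u (mem w u hw' c1)
        unfold Dat.tg at c3
        rwa [if_neg (fun hc => hb hc.symm)] at c3
  · have hw' := h.symm u w hw
    by_cases hb : d.light u ∧ d.light w
    · have c1 : d.ctrl u w := Or.inl hb.1
      have c2 : d.ctrl w u := Or.inl hb.2
      simp only [if_pos c1, if_pos c2]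
      have c3 := (hg u).edge w (mem u w hw c1) ω
      have c4 := (hg w).edge u (mem w u hw' c2) ω
      rw [if_pos hb] at c3
      rw [if_pos hb.symm] at c4
      linarith
    · rcases one u w hw hb with ⟨c1, c2, c5⟩ | ⟨c1, c2, c5⟩
      · simp only [if_pos c1, if_neg c2, add_zero]
        have c3 := (hg u).edge w (mem u w hw c1) ω
        rw [if_neg hb] at c3
        linarith [(hg w).heavy c5 u hw' ω]
      · simp only [if_pos c1, if_neg c2, zero_add]
        have c3 := (hg w).edge u (mem w u hw' c1) ω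
        rw [if_neg (fun hc => hb hc.symm)] at c3
        linarith [(hg u).heavy c5 w hw ω]

end Pool.Agent.P.MP_553766_co.Lg
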