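import Mathlib
import Pool.Agent.P.MP_553766_co.LOne
import Pool.Agent.P.MP_553766_co.LEdm
import Pool.Agent.P.MP_553766_co.LLP
import Pool.Agent.P.MP_553766_co.LL3
import Pool.Agent.P.MP_553766_co.LCov
import Pool.Agent.P.MP_553766_co.LL5
import Pool.Agent.P.MP_553766_co.LQm
import Pool.Agent.P.MP_553766_co.LV
import Pool.Agent.P.MP_553766_co.LRed
import Pool.Agent.P.MP_553766_co.LRich
import Pool.Agent.P.MP_553766_co.LSh
import Pool.Agent.P.MP_553766_co.LB1
import Pool.Agent.P.MP_553766_co.LB2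
import Pool.Agent.P.MP_553766_co.LC2
import Pool.Agent.P.MP_553766_co.LC
import Pool.Agent.P.MP_553766_co.LD
import Pool.Agent.P.MP_553766_co.LVG
import Pool.Agent.P.MP_553766_co.LFin

set_option autoImplicit false

/-! The bound for all large values of the degree parameter. -/

namespace Pool.Agent.P.MP_553766_co.Lg

open Pool.Agent.P.MP_553766_co

theorem large :
    ∃ D0 : ℕ, ∀ (V : Type) [Fintype V] [DecidableEq V] (E : Finset (Finset V)),
      (∀ e ∈ E, e.Nonempty) → (∀ e ∈ E, ∀ f ∈ E, e ≠ f → (e ∩ f).card ≤ 1) →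
      ∀ D : ℕ, D0 ≤ D → (∀ v, ((E.filter (fun e => v ∈ e)).biUnion id).card ≤ D) →
      ∃ w : Finset (Finset V) → ℝ, (∀ M, 0 ≤ w M) ∧ (∀ M, w M ≠ 0 → IsM E M) ∧
        (∀ e ∈ E, 1 ≤ ∑ M, w M * ind M e) ∧ ∑ M, w M ≤ D := by
  have hc : StCov := cov l3
  have hv : StV := stv l3 l5 qn qm
  have hs : StSmall := small hc
  exact large_of one
    (poor stcore hs (b1 hv qf n1 n2 n3 n4 hc sh1 sh2) (b2 hv qf n1 n4 hc sh2)
      (stc (c2 tail) stc1 hc) (std (d1 tail) stcore))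
    (rich (str l5) stcore hs hc) (vstat hc) (vdyn lp) stz (fin edm)

end Pool.Agent.P.MP_553766_co.Lg
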